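import Pool.Agent.Lib.MP_1a91b9_ntK.A.Em
import Pool.Agent.Lib.MP_1a91b9_ntX.LF.Ser

/-!
# Cubic twists, part A, file LocDef: the curve `y² + D y = x³`
-/

set_option autoImplicit false

namespace Pool.Agent.Lib.MP_1a91b9_ntK

open NumberField IsDedekindDomain Polynomial Pool.Agent.Lib.MP_1a91b9_ntT
  Pool.Agent.Lib.MP_1a91b9_ntG Pool.Agent.Lib.MP_1a91b9_nt Pool.Agent.Lib.MP_1a91b9_ntH

noncomputable section

/-- `y² + D y = x³`, the cubic twist of `y² + y = x³` by `D`; it is isomorphic to the plane cubic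
`x³ + y³ = D`. -/
def WD (D : 𝓞 K) : WeierstrassCurve K := ⟨0, 0, (D : K), 0, 0⟩

theorem WD_c₄ (D : 𝓞 K) : (WD D).c₄ = 0 := by
  simp only [WD, WeierstrassCurve.c₄, WeierstrassCurve.b₂, WeierstrassCurve.b₄]
  ring

theorem WD_delta (D : 𝓞 K) : (WD D).Δ = ((-27 * D ^ 4 : 𝓞 K) : K) := by
  have e : ((-27 * D ^ 4 : 𝓞 K) : K) = -27 * (D : K) ^ 4 := by
    change algebraMap (𝓞 K) K (-27 * D ^ 4) = -27 * (algebraMap (𝓞 K) K D) ^ 4
    rw [map_mul, map_pow, map_neg, map_ofNat]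
  rw [e]
  simp only [WD, WeierstrassCurve.Δ, WeierstrassCurve.b₂, WeierstrassCurve.b₄, WeierstrassCurve.b₆,
    WeierstrassCurve.b₈]
  ring

end

end Pool.Agent.Lib.MP_1a91b9_ntK
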