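import Pool.Agent.Lib.MP_1a91b9_ntH.A.Base

/-!
# Cubic twists, part A, file Em: the name `em`
-/

set_option autoImplicit false

namespace Pool.Agent.Lib.MP_1a91b9_ntK

export Pool.Agent.Lib.MP_1a91b9_ntH (em)

end Pool.Agent.Lib.MP_1a91b9_ntK
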