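import Pool.Agent.Lib.MP_1a91b9_ntK.A.LocDef
import Pool.Agent.Lib.MP_1a91b9_ntT3.CU.BadV

/-!
# Cubic twists, part A, file LocB: the places of additive reduction of `y² + D y = x³`

The discriminant is `-27 D ^ 4` and `c₄ = 0`; the valuation of the discriminant is `6 + 4 v(D)` at the place above `3`,
and `4 v(D)` at the other places: never divisible by `12` at the place above `3`, and, if `v(D)` is `1` or `2`, not
divisible by `12` at the other places.
-/

set_option autoImplicit false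

namespace Pool.Agent.Lib.MP_1a91b9_ntK

open NumberField IsDedekindDomain Polynomial Pool.Agent.Lib.MP_1a91b9_ntT
  Pool.Agent.Lib.MP_1a91b9_ntG Pool.Agent.Lib.MP_1a91b9_nt Pool.Agent.Lib.MP_1a91b9_ntH WithZero

noncomputable section

/-- the valuation of an element exactly divisible by the `n`-th power of a generator of the place -/
private theorem locB_val (v : HeightOneSpectrum (𝓞 K)) (p x y : 𝓞 K) (n : ℕ) (hp : p ≠ 0)
    (hv : v.asIdeal = Ideal.span {p}) (hx : x = p ^ n * y) (hy : y ∉ v.asIdeal) :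
    v.valuation K ((x : 𝓞 K) : K) = exp (-(n : ℤ)) := by
  have e : v.valuation K ((x : 𝓞 K) : K) = v.intValuation x := v.valuation_of_algebraMap (K := K) x
  rw [e, hx, map_mul, map_pow, HeightOneSpectrum.intValuation_eq_one_iff.2 hy, mul_one,
    v.intValuation_singleton hp hv, ← exp_nsmul]
  congr 1
  rw [nsmul_eq_mul]
  ring

private theorem locB_pow (γ : ℤᵐ⁰) (n : ℕ) (hn : ¬ (12 : ℤ) ∣ n) : γ ^ 12 ≠ exp (-(n : ℤ)) := by
  intro h
  have h0 : γ ≠ 0 := by
    rintro rfl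
    rw [zero_pow (by norm_num)] at h
    exact exp_ne_zero h.symm
  obtain ⟨k, rfl⟩ : ∃ k : ℤ, γ = exp k := ⟨log γ, (exp_log h0).symm⟩
  rw [← exp_nsmul] at h
  have h1 := exp_injective h
  rw [nsmul_eq_mul] at h1
  apply hn
  refine ⟨-k, ?_⟩
  push_cast at h1
  linarith

private theorem locB_main (D : 𝓞 K) (v : HeightOneSpectrum (𝓞 K)) (p y : 𝓞 K) (n : ℕ)
    (hp : p ≠ 0) (hv : v.asIdeal = Ideal.span {p}) (hx : -27 * D ^ 4 = p ^ n * y)
    (hy : y ∉ v.asIdeal) (hn : ¬ (12 : ℤ) ∣ n) : locPoly (WD D) v = 1 := by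
  refine Pool.Agent.Lib.MP_1a91b9_ntT3.CU.locPoly_add (WD D) (WD_c₄ D) v fun γ hγ => ?_
  rw [WD_delta, locB_val v p _ y n hp hv hx hy] at hγ
  exact locB_pow γ n hn hγ

private theorem locB_s3 (v : HeightOneSpectrum (𝓞 K)) (h : s3 ∈ v.asIdeal) :
    v.asIdeal = Ideal.span {s3} := by
  have h1 : ∀ x c : 𝓞 K, x ∈ v.asIdeal → x - 1 = s3 * c → False := by
    intro x c hx hc
    have h1 : (1 : 𝓞 K) ∈ v.asIdeal := by
      have e : (1 : 𝓞 K) = x - s3 * c := by linear_combination -hc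
      rw [e]
      exact Ideal.sub_mem _ hx (Ideal.mul_mem_right _ _ h)
    exact v.isPrime.ne_top ((Ideal.eq_top_iff_one _).2 h1)
  refine le_antisymm (fun x hx => ?_) ((Ideal.span_singleton_le_iff_mem _).2 h)
  rw [Ideal.mem_span_singleton]
  rcases exists_mod_s3 x with h2 | ⟨c, h2⟩ | ⟨c, h2⟩
  · exact h2
  · exact (h1 x c hx h2).elim
  · exact (h1 (-x) (-c) ((Ideal.neg_mem_iff _).2 hx) (by linear_combination -h2)).elim

/-- the exact power of the generator of a place in an element -/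
private theorem locB_mult (v : HeightOneSpectrum (𝓞 K)) (p D : 𝓞 K) (hD : D ≠ 0)
    (hv : v.asIdeal = Ideal.span {p}) : ∃ (n : ℕ) (y : 𝓞 K), D = p ^ n * y ∧ y ∉ v.asIdeal := by
  have hp : Prime p := by
    rw [← Ideal.span_singleton_prime, ← hv]
    · exact v.isPrime
    · rintro rfl
      exact v.ne_bot (by rw [hv, Ideal.span_singleton_eq_bot])
  obtain ⟨y, h1, h2⟩ := (FiniteMultiplicity.of_prime_left hp hD).exists_eq_pow_mul_and_not_dvd
  exact ⟨_, y, h1, fun h => h2 (by rwa [hv, Ideal.mem_span_singleton] at h)⟩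

/-- the place above `3` -/
theorem locD_three (D : 𝓞 K) (hD : D ≠ 0) (v : HeightOneSpectrum (𝓞 K)) (h : s3 ∈ v.asIdeal) :
    locPoly (WD D) v = 1 := by
  have hv := locB_s3 v h
  obtain ⟨n, y, hy, hym⟩ := locB_mult v s3 D hD hv
  have e : s3 ^ 6 = -27 := by
    have e1 : s3 ^ 6 = (s3 ^ 2) ^ 3 := by ring
    rw [e1, s3_sq]
    norm_num
  refine locB_main D v s3 (y ^ 4) (6 + 4 * n) s3_ne hv ?_ ?_ (by push_cast; omega)
  · rw [hy, ← e]
    ring
  · intro h1
    exact hym (v.isPrime.mem_of_pow_mem _ h1)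

/-- the places not above `3` which divide `D` but whose cube does not divide `D` -/
theorem locD_bad (D q : 𝓞 K) (v : HeightOneSpectrum (𝓞 K)) (hv : v.asIdeal = Ideal.span {q})
    (h3 : (3 : 𝓞 K) ∉ v.asIdeal) (h1 : q ∣ D) (h2 : ¬ q ^ 3 ∣ D) : locPoly (WD D) v = 1 := by
  have hD : D ≠ 0 := by
    rintro rfl
    exact h2 (dvd_zero _)
  have hq : q ≠ 0 := by
    rintro rfl
    exact v.ne_bot (by rw [hv, Ideal.span_singleton_eq_bot])
  obtain ⟨n, y, hy, hym⟩ := locB_mult v q D hD hv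
  have hn0 : n ≠ 0 := by
    rintro rfl
    apply hym
    rw [hv, Ideal.mem_span_singleton]
    rwa [hy, pow_zero, one_mul] at h1
  have hn3 : n < 3 := by
    by_contra hc
    push Not at hc
    exact h2 (hy ▸ (pow_dvd_pow q hc).mul_right y)
  refine locB_main D v q (-27 * y ^ 4) (4 * n) hq hv ?_ ?_ (by push_cast; omega)
  · rw [hy]
    ring
  · intro h4
    rcases v.isPrime.mem_or_mem h4 with h5 | h5
    · have h6 := (Ideal.neg_mem_iff _).2 h5
      have e : -(-27 : 𝓞 K) = 3 ^ 3 := by norm_num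
      rw [e] at h6
      exact h3 (v.isPrime.mem_of_pow_mem _ h6)
    · exact hym (v.isPrime.mem_of_pow_mem _ h5)

end

end Pool.Agent.Lib.MP_1a91b9_ntK
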