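import Pool.Agent.Lib.MP_1a91b9_ntK.A.LocG3
import Pool.Agent.Lib.MP_1a91b9_ntK.A.LocB
import Pool.Agent.Lib.MP_1a91b9_ntK.A.Gen
import Pool.Agent.Lib.MP_1a91b9_ntH.A.Ser

/-!
# TwistDensity, phase 3 (cubic twists), part A, file Ser3G: the L-series of `Y² + D Y = X³`, `D` without
cube factor, as the product of the L-series of a character and of its conjugate
-/

set_option autoImplicit false

namespace Pool.Agent.Lib.MP_1a91b9_ntK

open NumberField IsDedekindDomain Polynomial WeierstrassCurve Pool.Agent.Lib.MP_1a91b9_nt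
  Pool.Agent.Lib.MP_1a91b9_ntT Pool.Agent.Lib.MP_1a91b9_ntG Pool.Agent.Lib.MP_1a91b9_ntH

/-- the L-series of `Y² + D Y = X³` and the L-series of a character whose values at the primes are the cubic
symbols of `D` -/
theorem ser3_gen {D ν : 𝓞 K} {X : 𝓞 K → ℂ} (hX : Chr 3 ν X) (hD : D ≠ 0)
    (hbad : ∀ q : P3, q.1 ∣ D → ¬ q.1 ^ 3 ∣ D ∧ X q.1 = 0)
    (hgood : ∀ q : P3, ¬ q.1 ∣ D → X q.1 = e3 (cq q D)) :
    ∃ g : ℂ → ℂ, Differentiable ℂ g ∧ (∀ s : ℂ, 3 / 2 < s.re → g s = (WD D).LSeries s) ∧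
      g 1 = LG 3 X 1 * (starRingEnd ℂ) (LG 3 X 1) := by
  refine Ser_main (W := WD D) (p := pG 3 X) hX.pG_one hX.pG_mul hX.pG_le ?_ hX.LG_diff hX.LG_eq
  intro v x
  rcases Gen_place (f := (3 : 𝓞 K)) v with h | ⟨q, rfl⟩
  · rw [pG_neg h]
    have h3 : s3 ∈ v.asIdeal := by
      by_contra h0
      apply h
      rw [Ideal.isCoprime_iff_sup_eq]
      have hm : v.asIdeal.IsMaximal := Ideal.IsPrime.isMaximal v.isPrime v.ne_bot
      by_contra h1
      have h2 := hm.eq_of_le h1 le_sup_left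
      have h4 : (3 : 𝓞 K) ∈ v.asIdeal := by
        rw [h2]
        exact Ideal.mem_sup_right (Ideal.mem_span_singleton_self _)
      rw [three_eq] at h4
      rcases v.isPrime.mem_or_mem h4 with h5 | h5
      · exact h0 h5
      · exact h0 ((Ideal.neg_mem_iff _).1 h5)
    rw [locD_three D hD v h3]
    simp
  · have e := pG_plf X q
    rw [e]
    by_cases h : q.1 ∣ D
    · obtain ⟨h1, h2⟩ := hbad ⟨q.1, q.2⟩ h
      have h3 : (3 : 𝓞 K) ∉ (plf q).asIdeal := (g3 q.2.1 q.2.2).three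
      rw [locD_bad D q.1 (plf q) rfl h3 h h1]
      simp only at h2
      rw [h2]
      simp
    · rw [hgood ⟨q.1, q.2⟩ h]
      exact locG_cq D ⟨q.1, q.2⟩ (plf q) rfl h x

end Pool.Agent.Lib.MP_1a91b9_ntK
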