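import Pool.Agent.Lib.MP_1a91b9_ntK.A.Avg
import Pool.Agent.Lib.MP_1a91b9_ntK.A.Ser3G

/-!
# Cubic twists, part A, file Ser3: the L-series of `y² + D y = x³`
-/

set_option autoImplicit false

namespace Pool.Agent.Lib.MP_1a91b9_ntK

open NumberField IsDedekindDomain Pool.Agent.Lib.MP_1a91b9_ntT Pool.Agent.Lib.MP_1a91b9_ntG
  Pool.Agent.Lib.MP_1a91b9_nt
open Pool.Agent.Lib.MP_1a91b9_ntH (wO s3 cp Nz cp_coords coord exists_coords)
open Pool.Agent.Lib.MP_1a91b9_ntX.R (cs cs_mul cs_pow cs_one G3)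

noncomputable section

/-- the symbol of `w` at a prime `q` is the negative of the class of `q` -/
private theorem Ser3_w (q : P3) : cq q wO = -abar q.1 := by
  obtain ⟨y, hy⟩ := q.2.2
  obtain ⟨⟨m, n⟩, rfl⟩ := exists_coords y
  have e : q.1 = 1 + 3 * ((m : 𝓞 K) + n * wO) := by linear_combination hy
  rw [cq, cs_w q.2.1 m n e]
  have h : cp q.1 = (1 + 3 * m, 3 * n) := by
    rw [← cp_coords]
    congr 1
    rw [e]
    push_cast
    ring
  rw [abar, h]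
  have h1 : (1 + 3 * m - 1) / 3 = m := by omega
  have h2 : (3 * n) / 3 = n := by omega
  simp only [h1, h2]
  push_cast
  ring

private theorem Ser3_unit (q : P3) : ¬ q.1 ∣ wO := by
  intro h
  have h1 : wO * wO ^ 2 = 1 := by
    have := Pool.Agent.Lib.MP_1a91b9_ntH.wO_quad
    linear_combination (wO - 1) * this
  exact q.2.1.not_isUnit (isUnit_of_dvd_one (h.trans ⟨wO ^ 2, h1.symm⟩))

/-- distinct primes do not divide each other -/
private theorem Ser3_ndvd {p q : P3} (h : p ≠ q) : ¬ p.1 ∣ q.1 :=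
  not_dvd3 p.2.1 q.2.1 p.2.2 q.2.2 fun h1 => h (Subtype.ext h1)

private theorem Ser3_pr (_k : ZMod 3) (e : P3 → ZMod 3) (S : Finset P3) (q : P3) (hq : q ∉ S) :
    ¬ q.1 ∣ ∏ p ∈ S, p.1 ^ (e p).val := by
  intro h
  obtain ⟨p, hp, h1⟩ := (q.2.1.dvd_finsetProd_iff _).1 h
  have h2 : q ≠ p := by
    rintro rfl
    exact hq hp
  exact Ser3_ndvd h2 (q.2.1.dvd_of_dvd_pow h1)

theorem Dk_dvd (k : ZMod 3) (e : P3 → ZMod 3) (S : Finset P3) (q : P3) (h : q.1 ∣ Dk k e S) : q ∈ S := by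
  by_contra hq
  rcases q.2.1.dvd_or_dvd h with h1 | h1
  · exact Ser3_unit q (q.2.1.dvd_of_dvd_pow h1)
  · exact Ser3_pr k e S q hq h1

theorem Dk_ne (k : ZMod 3) (e : P3 → ZMod 3) (S : Finset P3) : Dk k e S ≠ 0 := by
  refine mul_ne_zero (pow_ne_zero _ ?_) (Finset.prod_ne_zero_iff.2 fun q _ =>
    pow_ne_zero _ q.2.1.ne_zero)
  intro h0
  have := Pool.Agent.Lib.MP_1a91b9_ntH.wO_quad
  rw [h0] at this
  norm_num at this

theorem Dk_cube (k : ZMod 3) (e : P3 → ZMod 3) (S : Finset P3) (q : P3) : ¬ q.1 ^ 3 ∣ Dk k e S := by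
  intro h
  have hq := Dk_dvd k e S q ((dvd_pow_self _ (by norm_num)).trans h)
  have e1 : Dk k e S = q.1 ^ (e q).val * (wO ^ k.val * ∏ p ∈ S.erase q, p.1 ^ (e p).val) := by
    rw [Dk, ← Finset.mul_prod_erase S _ hq]
    ring
  have hv : (e q).val < 3 := ZMod.val_lt _
  have e2 : q.1 ^ 3 = q.1 ^ (e q).val * q.1 ^ (3 - (e q).val) := by
    rw [← pow_add]
    congr 1
    omega
  rw [e1, e2] at h
  have h1 := (mul_dvd_mul_iff_left (pow_ne_zero _ q.2.1.ne_zero)).1 h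
  have h2 : q.1 ∣ wO ^ k.val * ∏ p ∈ S.erase q, p.1 ^ (e p).val :=
    (dvd_pow_self _ (by omega)).trans h1
  rcases q.2.1.dvd_or_dvd h2 with h3 | h3
  · exact Ser3_unit q (q.2.1.dvd_of_dvd_pow h3)
  · exact Ser3_pr k e _ q (Finset.notMem_erase q S) h3

/-- the symbol of `D` at a prime not dividing it -/
theorem cq_Dk (k : ZMod 3) (e : P3 → ZMod 3) (S : Finset P3) (q : P3) (hq : q ∉ S) :
    cq q (Dk k e S) = -(k * abar q.1) + ∑ p ∈ S, e p * cq p q.1 := by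
  have hG : G3 (Ideal.span {q.1}) := g3 q.2.1 q.2.2
  have hm : ∀ x : 𝓞 K, ¬ q.1 ∣ x → x ∉ Ideal.span {q.1} := fun x h h1 =>
    h (Ideal.mem_span_singleton.1 h1)
  have h1 : cq q (∏ p ∈ S, p.1 ^ (e p).val) = ∑ p ∈ S, e p * cq p q.1 := by
    induction S using Finset.induction_on with
    | empty =>
      rw [Finset.prod_empty, Finset.sum_empty]
      exact cs_one hG
    | insert a S ha ih =>
      have hqa : q ≠ a := fun h => hq (h ▸ Finset.mem_insert_self a S)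
      have hqS : q ∉ S := fun h => hq (Finset.mem_insert_of_mem h)
      have ha1 : ¬ q.1 ∣ a.1 := Ser3_ndvd hqa
      rw [Finset.prod_insert ha, Finset.sum_insert ha]
      have e2 : cq q (a.1 ^ (e a).val * ∏ p ∈ S, p.1 ^ (e p).val) =
          cq q (a.1 ^ (e a).val) + cq q (∏ p ∈ S, p.1 ^ (e p).val) :=
        cs_mul hG (hm _ fun h => ha1 (q.2.1.dvd_of_dvd_pow h)) (hm _ (Ser3_pr k e S q hqS))
      have e3 : cq q (a.1 ^ (e a).val) = ((e a).val : ZMod 3) * cq q a.1 := cs_pow hG (hm _ ha1) _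
      have e4 : cq q a.1 = cq a q.1 := cs_recip q.2.1 a.2.1 q.2.2 a.2.2 fun h => hqa (Subtype.ext h)
      rw [e2, ih hqS, e3, e4, ZMod.natCast_zmod_val]
  have h2 : cq q (wO ^ k.val) = -(k * abar q.1) := by
    have e3 : cq q (wO ^ k.val) = ((k.val : ℕ) : ZMod 3) * cq q wO := cs_pow hG (hm _ (Ser3_unit q)) _
    rw [e3, Ser3_w, ZMod.natCast_zmod_val]
    ring
  have h3 : cq q (Dk k e S) = cq q (wO ^ k.val) + cq q (∏ p ∈ S, p.1 ^ (e p).val) :=
    cs_mul hG (hm _ fun h => Ser3_unit q (q.2.1.dvd_of_dvd_pow h)) (hm _ (Ser3_pr k e S q hq))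
  rw [h3, h1, h2]

/-- the value of the character at a prime not dividing `D` is the symbol of `D` -/
theorem Xk_good (k : ZMod 3) (e : P3 → ZMod 3) (S : Finset P3) (q : P3) (hq : q ∉ S) :
    Xk k e S q.1 = e3 (cq q (Dk k e S)) := by
  rw [cq_Dk k e S q hq, e3_add, e3_sum]
  change th k q.1 * ∏ p ∈ S, chq p (e p) q.1 = _
  rw [th]
  congr 1
  refine Finset.prod_congr rfl fun p hp => ?_
  have h2 : p ≠ q := by
    rintro rfl
    exact hq hp
  unfold chq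
  rw [if_neg (Ser3_ndvd h2)]

theorem Xk_bad (k : ZMod 3) (e : P3 → ZMod 3) (S : Finset P3) (q : P3) (hq : q ∈ S) :
    Xk k e S q.1 = 0 := by
  change th k q.1 * ∏ p ∈ S, chq p (e p) q.1 = 0
  rw [Finset.prod_eq_zero hq, mul_zero]
  unfold chq
  rw [if_pos (dvd_refl _)]

theorem Dk_of_mem (k : ZMod 3) (e : P3 → ZMod 3) (S : Finset P3) (he : ∀ q ∈ S, e q ≠ 0) (q : P3)
    (hq : q ∈ S) : q.1 ∣ Dk k e S := by
  refine Dvd.dvd.mul_left ?_ _
  refine (dvd_pow_self q.1 ?_).trans (Finset.dvd_prod_of_mem (fun p : P3 => p.1 ^ (e p).val) hq)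
  intro h
  exact he q hq ((ZMod.val_eq_zero _).1 h)

/-- **The L-series of the cubic twist.** -/
theorem ser3 (k : ZMod 3) (e : P3 → ZMod 3) (S : Finset P3) (he : ∀ q ∈ S, e q ≠ 0) :
    ∃ g : ℂ → ℂ, Differentiable ℂ g ∧
      (∀ s : ℂ, 3 / 2 < s.re → g s = (WD (Dk k e S)).LSeries s) ∧
      g 1 = Lk k e S 1 * (starRingEnd ℂ) (Lk k e S 1) :=
  ser3_gen (Xk_chr k e S) (Dk_ne k e S)
    (fun q hq => ⟨Dk_cube k e S q, Xk_bad k e S q (Dk_dvd k e S q hq)⟩)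
    (fun q hq => Xk_good k e S q fun h => hq (Dk_of_mem k e S he q h))

end

end Pool.Agent.Lib.MP_1a91b9_ntK
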