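import Pool.Agent.Lib.MP_1a91b9_ntK.A.Avg2
import Pool.Agent.Lib.MP_1a91b9_ntK.A.Ser3

/-!
# Cubic twists, part A, file Ser2: the L-series of `y² + D y = x³`, `√-3 ∣ D`
-/

set_option autoImplicit false

namespace Pool.Agent.Lib.MP_1a91b9_ntK

open NumberField IsDedekindDomain Pool.Agent.Lib.MP_1a91b9_ntT Pool.Agent.Lib.MP_1a91b9_ntG
  Pool.Agent.Lib.MP_1a91b9_nt
open Pool.Agent.Lib.MP_1a91b9_ntH (wO s3 cp Nz prime_s3 s3_ne)
open Pool.Agent.Lib.MP_1a91b9_ntX.R (cs cs_mul cs_pow cs_one G3)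

noncomputable section

theorem Ser2_s3 (q : P3) : ¬ q.1 ∣ s3 := fun h => not_s3_dvd q.2.2 (dvd_symm' q.2.1 prime_s3 h)

theorem Dj_dvd (k j : ZMod 3) (e : P3 → ZMod 3) (S : Finset P3) (q : P3) (h : q.1 ∣ Dj k j e S) :
    q ∈ S := by
  rcases q.2.1.dvd_or_dvd h with h1 | h1
  · exact absurd (q.2.1.dvd_of_dvd_pow h1) (Ser2_s3 q)
  · exact Dk_dvd k e S q h1

theorem Dj_ne (k j : ZMod 3) (e : P3 → ZMod 3) (S : Finset P3) : Dj k j e S ≠ 0 :=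
  mul_ne_zero (pow_ne_zero _ s3_ne) (Dk_ne k e S)

theorem Dj_cube (k j : ZMod 3) (e : P3 → ZMod 3) (S : Finset P3) (q : P3) :
    ¬ q.1 ^ 3 ∣ Dj k j e S := by
  intro h
  refine Dk_cube k e S q ((IsCoprime.pow_left (IsCoprime.pow_right ?_)).dvd_of_dvd_mul_left h)
  exact q.2.1.irreducible.coprime_iff_not_dvd.2 (Ser2_s3 q)

theorem Dj_of_mem (k j : ZMod 3) (e : P3 → ZMod 3) (S : Finset P3) (he : ∀ q ∈ S, e q ≠ 0) (q : P3)
    (hq : q ∈ S) : q.1 ∣ Dj k j e S := (Dk_of_mem k e S he q hq).mul_left _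

/-- the symbol of `D` at a prime not dividing it -/
theorem cq_Dj (k j : ZMod 3) (e : P3 → ZMod 3) (S : Finset P3) (q : P3) (hq : q ∉ S) :
    cq q (Dj k j e S) = -(k * abar q.1) + j * bbar q.1 + ∑ p ∈ S, e p * cq p q.1 := by
  have hG : G3 (Ideal.span {q.1}) := g3 q.2.1 q.2.2
  have hm : ∀ x : 𝓞 K, ¬ q.1 ∣ x → x ∉ Ideal.span {q.1} := fun x h h1 =>
    h (Ideal.mem_span_singleton.1 h1)
  have h1 : cq q (s3 ^ j.val) = j * bbar q.1 := by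
    have e3 : cq q (s3 ^ j.val) = ((j.val : ℕ) : ZMod 3) * cq q s3 := cs_pow hG (hm _ (Ser2_s3 q)) _
    rw [e3, bbar_q, ZMod.natCast_zmod_val]
  have h3 : cq q (Dj k j e S) = cq q (s3 ^ j.val) + cq q (Dk k e S) :=
    cs_mul hG (hm _ fun h => Ser2_s3 q (q.2.1.dvd_of_dvd_pow h))
      (hm _ fun h => hq (Dk_dvd k e S q h))
  rw [h3, h1, cq_Dk k e S q hq]
  ring

/-- the value of the character at a prime not dividing `D` is the symbol of `D` -/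
theorem Xj_good (k j : ZMod 3) (e : P3 → ZMod 3) (S : Finset P3) (q : P3) (hq : q ∉ S) :
    Xj k j e S q.1 = e3 (cq q (Dj k j e S)) := by
  rw [cq_Dj k j e S q hq, e3_add, e3_sum]
  change thj k j q.1 * ∏ p ∈ S, chq p (e p) q.1 = _
  rw [thj]
  congr 1
  refine Finset.prod_congr rfl fun p hp => ?_
  have h2 : p ≠ q := by
    rintro rfl
    exact hq hp
  have h3 : ¬ p.1 ∣ q.1 := not_dvd3 p.2.1 q.2.1 p.2.2 q.2.2 fun h1 => h2 (Subtype.ext h1)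
  unfold chq
  rw [if_neg h3]

theorem Xj_bad (k j : ZMod 3) (e : P3 → ZMod 3) (S : Finset P3) (q : P3) (hq : q ∈ S) :
    Xj k j e S q.1 = 0 := by
  change thj k j q.1 * ∏ p ∈ S, chq p (e p) q.1 = 0
  rw [Finset.prod_eq_zero hq, mul_zero]
  unfold chq
  rw [if_pos (dvd_refl _)]

/-- **The L-series of the cubic twist**, all classes. -/
theorem serj (k j : ZMod 3) (e : P3 → ZMod 3) (S : Finset P3) (he : ∀ q ∈ S, e q ≠ 0) :
    ∃ g : ℂ → ℂ, Differentiable ℂ g ∧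
      (∀ s : ℂ, 3 / 2 < s.re → g s = (WD (Dj k j e S)).LSeries s) ∧
      g 1 = Lj k j e S 1 * (starRingEnd ℂ) (Lj k j e S 1) :=
  ser3_gen (Xj_chr k j e S) (Dj_ne k j e S)
    (fun q hq => ⟨Dj_cube k j e S q, Xj_bad k j e S q (Dj_dvd k j e S q hq)⟩)
    (fun q hq => Xj_good k j e S q fun h => hq (Dj_of_mem k j e S he q h))

end

end Pool.Agent.Lib.MP_1a91b9_ntK
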