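import Pool.Agent.Lib.MP_1a91b9_ntK.A.Sys3

/-!
# Cubic twists, part A, file Avg: the cubic characters and the averaging identity

`P3` is `Pf 3`. The characters `th k` (modulus `3 √-3`) and `chq q t` (modulus `q`); `(A1)`, `(A2)`.
-/

set_option autoImplicit false

namespace Pool.Agent.Lib.MP_1a91b9_ntK

open NumberField IsDedekindDomain Pool.Agent.Lib.MP_1a91b9_ntT Pool.Agent.Lib.MP_1a91b9_ntG
open Pool.Agent.Lib.MP_1a91b9_ntX.R (cs cs_one cs_mul cs_congr G3)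
open Pool.Agent.Lib.MP_1a91b9_ntH (wO s3 cp eq_cp cp_coords coord s3_sq s3_ne exists_mod_s3
  s3_not_isUnit Eul_em_ne)
open Pool.Agent.Lib.MP_1a91b9_ntT.Rg (isMod_three)

noncomputable section

/-! ### The class of an element congruent to `1` modulo `3` -/

theorem abar_eq (y : 𝓞 K) : abar (1 + 3 * y) = r3 y := by
  have h : cp (1 + 3 * y) = (1 + 3 * (cp y).1, 3 * (cp y).2) := by
    rw [← cp_coords]
    congr 1
    conv_lhs => rw [eq_cp y]
    push_cast
    ring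
  have h1 : (1 + 3 * (cp y).1 - 1) / 3 = (cp y).1 := by omega
  have h2 : (3 * (cp y).2) / 3 = (cp y).2 := by omega
  have h3 : r3 y = (((cp y).1 + (cp y).2 : ℤ) : ZMod 3) := by
    conv_lhs => rw [eq_cp y]
    rw [r3_coord]
    push_cast
    rfl
  rw [abar, h, h1, h2, h3]

theorem abar_one : abar 1 = 0 := by
  have h := abar_eq 0
  rwa [mul_zero, add_zero, map_zero] at h

theorem Avg_r3_three : r3 3 = 0 := by
  rw [r3_eq_zero]
  exact ⟨-s3, by linear_combination s3_sq⟩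

theorem abar_mul {x y : 𝓞 K} (hx : (3 : 𝓞 K) ∣ x - 1) (hy : (3 : 𝓞 K) ∣ y - 1) :
    abar (x * y) = abar x + abar y := by
  obtain ⟨a, ha⟩ := hx
  obtain ⟨b, hb⟩ := hy
  have e1 : x = 1 + 3 * a := by linear_combination ha
  have e2 : y = 1 + 3 * b := by linear_combination hb
  have e3' : x * y = 1 + 3 * (a + b + 3 * (a * b)) := by rw [e1, e2]; ring
  rw [e3', e1, e2, abar_eq, abar_eq, abar_eq, map_add, map_add, map_mul, Avg_r3_three, zero_mul,
    add_zero]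

theorem abar_congr {x y : 𝓞 K} (hx : (3 : 𝓞 K) ∣ x - 1) (h : 3 * s3 ∣ x - y) : abar x = abar y := by
  obtain ⟨a, ha⟩ := hx
  obtain ⟨t, ht⟩ := h
  have e1 : x = 1 + 3 * a := by linear_combination ha
  have e2 : y = 1 + 3 * (a - s3 * t) := by linear_combination ha - ht
  have h1 : r3 (s3 * t) = 0 := r3_eq_zero.2 (dvd_mul_right _ _)
  rw [e1, e2, abar_eq, abar_eq, map_sub, h1, sub_zero]

theorem abar_add {x : 𝓞 K} (hx : (3 : 𝓞 K) ∣ x - 1) (y : 𝓞 K) :
    abar (x + 3 * y) = abar x + r3 y := by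
  obtain ⟨a, ha⟩ := hx
  have e1 : x = 1 + 3 * a := by linear_combination ha
  have e2 : x + 3 * y = 1 + 3 * (a + y) := by linear_combination ha
  rw [e2, e1, abar_eq, abar_eq, map_add]

/-- the class of a prime is the exponent of the symbol of `w` -/
theorem abar_q (q : P3) : cq q wO = -abar q.1 := by
  obtain ⟨y, hy⟩ := q.2.2
  obtain ⟨m, n, hmn⟩ := coord y
  have e : q.1 = 1 + 3 * ((m : 𝓞 K) + n * wO) := by rw [← hmn]; linear_combination hy
  rw [cq, cs_w q.2.1 m n e]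
  conv_rhs => rw [e]
  rw [abar_eq, r3_coord]

/-! ### The character of modulus `3 √-3` -/

theorem Avg_cop {a : 𝓞 K} (h : (3 : 𝓞 K) ∣ a - 1) : IsCoprime a (3 * s3) := by
  obtain ⟨b, hb⟩ := h
  have h1 : IsCoprime a (3 : 𝓞 K) := ⟨1, -b, by linear_combination hb⟩
  have h2 : IsCoprime a s3 := h1.of_isCoprime_of_dvd_right ⟨-s3, by linear_combination s3_sq⟩
  exact IsCoprime.mul_right h1 h2

theorem th_chr (k : ZMod 3) : Chr (3 : 𝓞 K) (3 * s3) (th k) where
  ne := mul_ne_zero (by norm_num) s3_ne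
  dvd := dvd_mul_right _ _
  three := dvd_mul_right _ _
  one := by rw [th, abar_one, mul_zero, neg_zero, e3_zero]
  mul a b ha hb := by
    rw [th, abar_mul ha hb, mul_add, neg_add, e3_add]
    rfl
  le a _ := by rw [th, norm_e3]
  zero a ha hc := absurd (Avg_cop ha) hc
  per a b ha h := by rw [th, abar_congr ha h]; rfl

/-! ### The characters of prime modulus -/

theorem chq_of_dvd {q : P3} {t : ZMod 3} {x : 𝓞 K} (h : q.1 ∣ x) : chq q t x = 0 := by
  unfold chq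
  exact if_pos h

theorem chq_of_not {q : P3} {t : ZMod 3} {x : 𝓞 K} (h : ¬ q.1 ∣ x) :
    chq q t x = e3 (t * cq q x) := by
  unfold chq
  exact if_neg h

theorem chq_chrP (q : P3) (t : ZMod 3) : ChrP q.1 (chq q t) := by
  have hG : G3 (Ideal.span {q.1}) := g3 q.2.1 q.2.2
  have hm : ∀ x : 𝓞 K, x ∈ Ideal.span {q.1} ↔ q.1 ∣ x := fun x => Ideal.mem_span_singleton
  refine ⟨?_, ?_, ?_, ?_, ?_⟩
  · have h : ¬ q.1 ∣ (1 : 𝓞 K) := fun h => q.2.1.not_isUnit (isUnit_of_dvd_one h)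
    rw [chq_of_not h, cq, cs_one hG, mul_zero, e3_zero]
  · intro a b
    by_cases ha : q.1 ∣ a
    · rw [chq_of_dvd ha, chq_of_dvd (ha.mul_right _), zero_mul]
    · by_cases hb : q.1 ∣ b
      · rw [chq_of_dvd hb, chq_of_dvd (hb.mul_left _), mul_zero]
      · have hab : ¬ q.1 ∣ a * b := fun h => (q.2.1.dvd_or_dvd h).elim ha hb
        have ha' : a ∉ Ideal.span {q.1} := fun h => ha ((hm a).1 h)
        have hb' : b ∉ Ideal.span {q.1} := fun h => hb ((hm b).1 h)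
        rw [chq_of_not ha, chq_of_not hb, chq_of_not hab, cq, cs_mul hG ha' hb', mul_add, e3_add]
        rfl
  · intro a
    by_cases ha : q.1 ∣ a
    · rw [chq_of_dvd ha, norm_zero]
      exact zero_le_one
    · rw [chq_of_not ha, norm_e3]
  · exact fun a ha => chq_of_dvd ha
  · intro a b hab
    by_cases ha : q.1 ∣ a
    · have hb : q.1 ∣ b := by
        have h := dvd_sub ha hab
        rwa [sub_sub_cancel] at h
      rw [chq_of_dvd ha, chq_of_dvd hb]
    · have hb : ¬ q.1 ∣ b := by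
        intro hb
        apply ha
        have h := dvd_add hab hb
        rwa [sub_add_cancel] at h
      have ha' : a ∉ Ideal.span {q.1} := fun h => ha ((hm a).1 h)
      rw [chq_of_not ha, chq_of_not hb, cq, cs_congr hG ha' ((hm _).2 hab)]
      rfl

theorem chq_chr (q : P3) (t : ZMod 3) : ChrP q.1 (chq q t) := chq_chrP q t

/-! ### The representatives modulo `3 √-3 D` -/

theorem DD3_three (S : Finset P3) : (3 : 𝓞 K) ∣ DD3 S - 1 := by
  rw [DD3]
  induction S using Finset.induction_on with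
  | empty => rw [Finset.prod_empty, sub_self]; exact dvd_zero _
  | insert a S ha ih =>
    rw [Finset.prod_insert ha]
    have e : a.1 * ∏ q ∈ S, q.1 - 1 = (a.1 - 1) * ∏ q ∈ S, q.1 + (∏ q ∈ S, q.1 - 1) := by ring
    rw [e]
    exact dvd_add (a.2.2.mul_right _) ih

theorem DD3_ne (S : Finset P3) : DD3 S ≠ 0 := by
  rw [DD3, Finset.prod_ne_zero_iff]
  exact fun q _ => q.2.1.ne_zero

theorem Avg_nat (x : ZMod 3) : r3 ((x.val : ℕ) : 𝓞 K) = x := by
  rw [map_natCast, ZMod.natCast_zmod_val]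

theorem r3_DD3 (S : Finset P3) : r3 (DD3 S) = 1 := by
  obtain ⟨y, hy⟩ := DD3_three S
  have e : DD3 S = 1 + 3 * y := by linear_combination hy
  rw [e, map_add, map_one, map_mul, Avg_r3_three, zero_mul, add_zero]

/-- (A1): representatives modulo `3 √-3 D` from the representatives modulo `3 D` -/
theorem reps3 {S : Finset P3} {ι : Type} {c : ι → 𝓞 K} (h : RepsG 3 (3 * DD3 S) c) :
    RepsG 3 (3 * s3 * DD3 S) (fun p : ι × ZMod 3 => c p.1 + 3 * (DD3 S * (p.2.val : 𝓞 K))) where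
  ne := mul_ne_zero (mul_ne_zero (by norm_num) s3_ne) (DD3_ne S)
  dvd := (dvd_mul_right _ _).mul_right _
  three := (dvd_mul_right _ _).mul_right _
  fx := by
    rintro ⟨i, x⟩
    have e : c i + 3 * (DD3 S * (x.val : 𝓞 K)) - 1 = (c i - 1) + 3 * (DD3 S * (x.val : 𝓞 K)) := by
      ring
    change (3 : 𝓞 K) ∣ c i + 3 * (DD3 S * (x.val : 𝓞 K)) - 1
    rw [e]
    exact dvd_add (h.fx i) (dvd_mul_right _ _)
  cop := by
    rintro ⟨i, x⟩
    have e : c i + 3 * (DD3 S * (x.val : 𝓞 K)) - 1 = (c i - 1) + 3 * (DD3 S * (x.val : 𝓞 K)) := by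
      ring
    change IsCoprime (c i + 3 * (DD3 S * (x.val : 𝓞 K))) (3 * s3 * DD3 S)
    refine IsCoprime.mul_right (Avg_cop ?_) ?_
    · rw [e]
      exact dvd_add (h.fx i) (dvd_mul_right _ _)
    · obtain ⟨p, q, hpq⟩ := (h.cop i).of_isCoprime_of_dvd_right (dvd_mul_left (DD3 S) 3)
      exact ⟨p, q - p * 3 * (x.val : 𝓞 K), by linear_combination hpq⟩
  ex := by
    intro a ha h1
    have h2 : IsCoprime a (3 * DD3 S) := by
      refine ha.of_isCoprime_of_dvd_right ⟨s3, by ring⟩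
    obtain ⟨i, e, he⟩ := h.ex a h2 h1
    have h3 : r3 (e - ((r3 e).val : 𝓞 K)) = 0 := by rw [map_sub, Avg_nat, sub_self]
    obtain ⟨t, ht⟩ := r3_eq_zero.1 h3
    exact ⟨(i, r3 e), t, by
      change a - (c i + 3 * (DD3 S * ((r3 e).val : 𝓞 K))) = _
      linear_combination he + 3 * DD3 S * ht⟩
  inj := by
    rintro ⟨i, x⟩ ⟨j, y⟩ ⟨t, ht⟩
    change c i + 3 * (DD3 S * (x.val : 𝓞 K)) - (c j + 3 * (DD3 S * (y.val : 𝓞 K))) = _ at ht
    have h1 : i = j := h.inj i j ⟨s3 * t - (x.val : 𝓞 K) + (y.val : 𝓞 K), by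
      linear_combination ht⟩
    subst h1
    have h2 : 3 * DD3 S * ((x.val : 𝓞 K) - (y.val : 𝓞 K)) = 3 * DD3 S * (s3 * t) := by
      linear_combination ht
    have h3 := mul_left_cancel₀ h.ne h2
    have h4 : r3 ((x.val : 𝓞 K) - (y.val : 𝓞 K)) = 0 := r3_eq_zero.2 ⟨t, h3⟩
    rw [map_sub, Avg_nat, Avg_nat, sub_eq_zero] at h4
    rw [h4]

/-! ### The identity -/

theorem Avg_em_s3 : em s3 = sq3 := by
  rw [em_s3]
  rfl

theorem Avg_em_mul (a b : 𝓞 K) : em (a * b) = em a * em b := by simp [em]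

theorem Avg_em_three : em (3 : 𝓞 K) = 3 := by
  have h3 : ((3 : 𝓞 K) : K) = 3 := map_ofNat (algebraMap (𝓞 K) K) 3
  rw [em, h3, map_ofNat embK 3]

theorem Avg_div (S : Finset P3) (a : 𝓞 K) (x : ZMod 3) :
    em (a + 3 * (DD3 S * (x.val : 𝓞 K))) / em (3 * s3 * DD3 S) =
      em a / em (3 * s3 * DD3 S) + (x.val : ℂ) * T0 := by
  have h0 : em (DD3 S) ≠ 0 := Eul_em_ne (DD3_ne S)
  have h1 : sq3 ≠ 0 := sq3_ne
  have e1 : em (3 * s3 * DD3 S) = 3 * sq3 * em (DD3 S) := by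
    rw [Avg_em_mul, Avg_em_mul, Avg_em_three, Avg_em_s3]
  have e2 : em (a + 3 * (DD3 S * (x.val : 𝓞 K))) = em a + 3 * em (DD3 S) * (x.val : ℂ) := by
    have h2 : em (a + 3 * (DD3 S * (x.val : 𝓞 K))) = em a + em (3 * (DD3 S * (x.val : 𝓞 K))) := by
      simp [em]
    have h3 : ∀ n : ℕ, em (n : 𝓞 K) = (n : ℂ) := fun n => by simp [em]
    rw [h2, Avg_em_mul, Avg_em_mul, Avg_em_three, h3]
    ring
  rw [e1, e2, T0]
  field_simp

theorem Xk_chr (k : ZMod 3) (e : P3 → ZMod 3) (T : Finset P3) :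
    Chr 3 (3 * s3 * DD3 T) (Xk k e T) :=
  (th_chr k).XT (f := 3) (fun q => chq_chrP q (e q)) T

theorem Lk_diff (k : ZMod 3) (e : P3 → ZMod 3) (T : Finset P3) : Differentiable ℂ (Lk k e T) :=
  (Xk_chr k e T).LG_diff

theorem Lk_eq (k : ZMod 3) (e : P3 → ZMod 3) (T : Finset P3) (s : ℂ) (hs : 2 < s.re) :
    Lk k e T s = S4.Lf (pG 3 (Xk k e T)) s := (Xk_chr k e T).LG_eq s hs

/-- **(A2)**: the averaging identity. -/
theorem avg3 (k : ZMod 3) (e : P3 → ZMod 3) (S : Finset P3) {ι : Type} [Fintype ι] {c : ι → 𝓞 K}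
    (h : RepsG 3 (3 * DD3 S) c) :
    ∑ T ∈ S.powerset, (-1) ^ T.card * (Lk k e T 1 * ∏ q ∈ S \ T, (1 - Xk k e T q.1 / em q.1)) =
      (em (3 * s3 * DD3 S))⁻¹ * ∑ i, th k (c i) * (∏ q ∈ S, (1 - chq q (e q) (c i))) *
        PhC k (em (c i) / em (3 * s3 * DD3 S)) := by
  let _ : DecidableEq (Pf 3) := inferInstanceAs (DecidableEq P3)
  have h1 := Gen_avg (th_chr k) (fun q : Pf 3 => chq_chrP q (e q)) S (fun _ => -1) (reps3 h)
  have e1 : ∀ T ∈ S.powerset, (-1) ^ T.card *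
      (Lk k e T 1 * ∏ q ∈ S \ T, (1 - Xk k e T q.1 / em q.1)) = (∏ q ∈ T, (-1 : ℂ)) *
      (LG 3 (XT (f := 3) (th k) (fun q => chq q (e q)) T) 1 *
        ∏ q ∈ S \ T, (1 - XT (f := 3) (th k) (fun q => chq q (e q)) T q.1 / em q.1)) := by
    intro T _
    rw [Finset.prod_const]
    rfl
  rw [Finset.sum_congr rfl e1]
  refine h1.trans ?_
  · rw [Fintype.sum_prod_type]
    congr 1
    refine Finset.sum_congr rfl fun i _ => ?_
    rw [PhC, Finset.mul_sum]
    refine Finset.sum_congr rfl fun x _ => ?_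
    change th k (c i + 3 * (DD3 S * (x.val : 𝓞 K))) *
      (∏ q ∈ S, (1 + -1 * chq q (e q) (c i + 3 * (DD3 S * (x.val : 𝓞 K))))) *
      E1 (em (c i + 3 * (DD3 S * (x.val : 𝓞 K))) / em (3 * s3 * DD3 S)) = _
    have e2 : ∏ q ∈ S, (1 + -1 * chq q (e q) (c i + 3 * (DD3 S * (x.val : 𝓞 K)))) =
        ∏ q ∈ S, (1 - chq q (e q) (c i)) := by
      refine Finset.prod_congr rfl fun q hq => ?_
      have h2 : q.1 ∣ c i + 3 * (DD3 S * (x.val : 𝓞 K)) - c i := by
        have h3 : q.1 ∣ DD3 S := Finset.dvd_prod_of_mem (fun q : P3 => q.1) hq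
        rw [add_sub_cancel_left]
        exact (h3.mul_right _).mul_left _
      rw [(chq_chrP q (e q)).per _ _ h2]
      ring
    have e3' : th k (c i + 3 * (DD3 S * (x.val : 𝓞 K))) = th k (c i) * e3 (-(k * x)) := by
      rw [th, abar_add (h.fx i), map_mul, r3_DD3, one_mul, Avg_nat, mul_add, neg_add, e3_add]
      rfl
    rw [e2, e3', Avg_div]
    ring

end

end Pool.Agent.Lib.MP_1a91b9_ntK
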