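import Pool.Agent.Lib.MP_1a91b9_ntK.A.Sys2
import Pool.Agent.Lib.MP_1a91b9_ntK.A.Avg

/-!
# Cubic twists, part A, file Avg2: the averaging identity modulo `9 D`
-/

set_option autoImplicit false

namespace Pool.Agent.Lib.MP_1a91b9_ntK

open NumberField IsDedekindDomain Pool.Agent.Lib.MP_1a91b9_ntT Pool.Agent.Lib.MP_1a91b9_ntG
open Pool.Agent.Lib.MP_1a91b9_ntH (wO s3 cp eq_cp cp_coords coord s3_sq s3_ne Eul_em_ne wO_quad)

noncomputable section

/-! ### The second coordinate modulo `3` -/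

/-- minus the second coordinate, modulo `3` -/
def t3 (x : 𝓞 K) : ZMod 3 := ((-(cp x).2 : ℤ) : ZMod 3)

theorem t3_coord (p q : ℤ) : t3 ((p : 𝓞 K) + q * wO) = -(q : ZMod 3) := by
  rw [t3, cp_coords]
  push_cast
  rfl

theorem t3_add (x y : 𝓞 K) : t3 (x + y) = t3 x + t3 y := by
  obtain ⟨p, q, rfl⟩ := coord x
  obtain ⟨p', q', rfl⟩ := coord y
  have e : (p : 𝓞 K) + q * wO + (p' + q' * wO) = ((p + p' : ℤ) : 𝓞 K) + ((q + q' : ℤ) : 𝓞 K) * wO := by
    push_cast; ring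
  rw [e, t3_coord, t3_coord, t3_coord]
  push_cast
  ring

theorem t3_three (x : 𝓞 K) : t3 (3 * x) = 0 := by
  obtain ⟨p, q, rfl⟩ := coord x
  have e : 3 * ((p : 𝓞 K) + q * wO) = ((3 * p : ℤ) : 𝓞 K) + ((3 * q : ℤ) : 𝓞 K) * wO := by
    push_cast; ring
  have h3 : (3 : ZMod 3) = 0 := rfl
  rw [e, t3_coord]
  push_cast
  rw [h3, zero_mul, neg_zero]

theorem t3_congr {x y : 𝓞 K} (h : (3 : 𝓞 K) ∣ x - y) : t3 x = t3 y := by
  obtain ⟨t, ht⟩ := h
  have e : x = y + 3 * t := by linear_combination ht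
  rw [e, t3_add, t3_three, add_zero]

theorem t3_zero : t3 0 = 0 := by
  have h := t3_three 0
  rwa [mul_zero] at h

theorem t3_neg (x : 𝓞 K) : t3 (-x) = -t3 x := by
  have h := t3_add x (-x)
  rw [add_neg_cancel, t3_zero] at h
  linear_combination -h

/-- the lift of `(u, v)` -/
def lf2 (u v : ZMod 3) : 𝓞 K := (u.val : 𝓞 K) - s3 * (v.val : 𝓞 K)

theorem r3_lf2 (u v : ZMod 3) : r3 (lf2 u v) = u := by
  rw [lf2, map_sub, map_mul, r3_s3, zero_mul, sub_zero, Avg_nat]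

theorem t3_lf2 (u v : ZMod 3) : t3 (lf2 u v) = -v := by
  have e : lf2 u v = (((u.val : ℤ) - v.val : ℤ) : 𝓞 K) + ((-2 * (v.val : ℤ) : ℤ) : 𝓞 K) * wO := by
    rw [lf2, s3]
    push_cast
    ring
  rw [e, t3_coord]
  push_cast
  rw [ZMod.natCast_zmod_val]
  have h3 : (3 : ZMod 3) = 0 := rfl
  linear_combination v * h3

/-- `r3` and `t3` determine the class modulo `3` -/
theorem three_dvd_of {x : 𝓞 K} (h1 : r3 x = 0) (h2 : t3 x = 0) : (3 : 𝓞 K) ∣ x := by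
  obtain ⟨p, q, rfl⟩ := coord x
  rw [r3_coord] at h1
  rw [t3_coord, neg_eq_zero] at h2
  rw [h2, add_zero] at h1
  rw [ZMod.intCast_zmod_eq_zero_iff_dvd] at h1 h2
  obtain ⟨a, ha⟩ := h1
  obtain ⟨b, hb⟩ := h2
  refine ⟨(a : 𝓞 K) + b * wO, ?_⟩
  have ha' := congrArg (fun z : ℤ => (z : 𝓞 K)) ha
  have hb' := congrArg (fun z : ℤ => (z : 𝓞 K)) hb
  push_cast at ha' hb'
  linear_combination ha' + wO * hb'

theorem t3_DD3 (S : Finset P3) (x : 𝓞 K) : t3 (DD3 S * x) = t3 x := by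
  apply t3_congr
  have e : DD3 S * x - x = (DD3 S - 1) * x := by ring
  rw [e]
  exact (DD3_three S).mul_right _

/-! ### The second class coordinate -/

theorem bbar_eq (y : 𝓞 K) : bbar (1 + 3 * y) = t3 y := by
  have h : cp (1 + 3 * y) = (1 + 3 * (cp y).1, 3 * (cp y).2) := by
    rw [← cp_coords]
    congr 1
    conv_lhs => rw [eq_cp y]
    push_cast
    ring
  have h2 : (3 * (cp y).2) / 3 = (cp y).2 := by omega
  rw [bbar, h, h2, t3]

theorem bbar_one : bbar 1 = 0 := by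
  have h := bbar_eq 0
  rwa [mul_zero, add_zero, t3_zero] at h

theorem bbar_mul {x y : 𝓞 K} (hx : (3 : 𝓞 K) ∣ x - 1) (hy : (3 : 𝓞 K) ∣ y - 1) :
    bbar (x * y) = bbar x + bbar y := by
  obtain ⟨a, ha⟩ := hx
  obtain ⟨b, hb⟩ := hy
  have e1 : x = 1 + 3 * a := by linear_combination ha
  have e2 : y = 1 + 3 * b := by linear_combination hb
  have e3' : x * y = 1 + 3 * (a + b + 3 * (a * b)) := by rw [e1, e2]; ring
  rw [e3', e1, e2, bbar_eq, bbar_eq, bbar_eq, t3_add, t3_add, t3_three, add_zero]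

theorem bbar_congr {x y : 𝓞 K} (hx : (3 : 𝓞 K) ∣ x - 1) (h : (9 : 𝓞 K) ∣ x - y) :
    bbar x = bbar y := by
  obtain ⟨a, ha⟩ := hx
  obtain ⟨t, ht⟩ := h
  have e1 : x = 1 + 3 * a := by linear_combination ha
  have e2 : y = 1 + 3 * (a - 3 * t) := by linear_combination ha - ht
  rw [e1, e2, bbar_eq, bbar_eq, sub_eq_add_neg, t3_add, t3_neg, t3_three, neg_zero, add_zero]

theorem bbar_add {x : 𝓞 K} (hx : (3 : 𝓞 K) ∣ x - 1) (y : 𝓞 K) :
    bbar (x + 3 * y) = bbar x + t3 y := by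
  obtain ⟨a, ha⟩ := hx
  have e1 : x = 1 + 3 * a := by linear_combination ha
  have e2 : x + 3 * y = 1 + 3 * (a + y) := by linear_combination ha
  rw [e2, e1, bbar_eq, bbar_eq, t3_add]

/-- the class of a prime is the exponent of the symbol of `√-3` -/
theorem bbar_q (q : P3) : cq q s3 = bbar q.1 := by
  obtain ⟨y, hy⟩ := q.2.2
  obtain ⟨m, n, hmn⟩ := coord y
  have e : q.1 = 1 + 3 * ((m : 𝓞 K) + n * wO) := by rw [← hmn]; linear_combination hy
  rw [cq, cs_s3 q.2.1 m n e]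
  conv_rhs => rw [e]
  rw [bbar_eq, t3_coord]

/-! ### The character of modulus `9` -/

theorem Avg2_cop {a : 𝓞 K} (h : (3 : 𝓞 K) ∣ a - 1) : IsCoprime a 9 := by
  obtain ⟨b, hb⟩ := h
  have h1 : IsCoprime a (3 : 𝓞 K) := ⟨1, -b, by linear_combination hb⟩
  have h2 := h1.mul_right h1
  have e : (3 : 𝓞 K) * 3 = 9 := by norm_num
  rwa [e] at h2

theorem Avg2_s3_dvd {x : 𝓞 K} (h : (9 : 𝓞 K) ∣ x) : 3 * s3 ∣ x :=
  dvd_trans ⟨-s3, by linear_combination 3 * s3_sq⟩ h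

theorem thj_chr (k j : ZMod 3) : Chr (3 : 𝓞 K) 9 (thj k j) where
  ne := by norm_num
  dvd := ⟨3, by norm_num⟩
  three := ⟨3, by norm_num⟩
  one := by rw [thj, abar_one, bbar_one, mul_zero, mul_zero, neg_zero, add_zero, e3_zero]
  mul a b ha hb := by
    rw [thj, thj, thj, abar_mul ha hb, bbar_mul ha hb, ← e3_add]
    congr 1
    ring
  le a _ := by rw [thj, norm_e3]
  zero a ha hc := absurd (Avg2_cop ha) hc
  per a b ha h := by rw [thj, thj, abar_congr ha (Avg2_s3_dvd h), bbar_congr ha h]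

theorem Xj_chr (k j : ZMod 3) (e : P3 → ZMod 3) (S : Finset P3) :
    Chr 3 (9 * DD3 S) (Xj k j e S) :=
  (thj_chr k j).XT (f := 3) (fun q => chq_chrP q (e q)) S

theorem Lj_diff (k j : ZMod 3) (e : P3 → ZMod 3) (T : Finset P3) :
    Differentiable ℂ (Lj k j e T) := (Xj_chr k j e T).LG_diff

theorem Lj_eq (k j : ZMod 3) (e : P3 → ZMod 3) (T : Finset P3) (s : ℂ) (hs : 2 < s.re) :
    Lj k j e T s = S4.Lf (pG 3 (Xj k j e T)) s := (Xj_chr k j e T).LG_eq s hs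

/-! ### The averaging identity -/

/-- representatives modulo `9 D` from the representatives modulo `3 D` -/
theorem reps9 {S : Finset P3} {ι : Type} {c : ι → 𝓞 K} (h : RepsG 3 (3 * DD3 S) c) :
    RepsG 3 (9 * DD3 S) (fun p : ι × ZMod 3 × ZMod 3 => c p.1 + 3 * (DD3 S * lf2 p.2.1 p.2.2)) where
  ne := mul_ne_zero (by norm_num) (DD3_ne S)
  dvd := Dvd.dvd.mul_right ⟨3, by norm_num⟩ _
  three := Dvd.dvd.mul_right ⟨3, by norm_num⟩ _
  fx := by
    rintro ⟨i, u, v⟩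
    change (3 : 𝓞 K) ∣ c i + 3 * (DD3 S * lf2 u v) - 1
    have e : c i + 3 * (DD3 S * lf2 u v) - 1 = (c i - 1) + 3 * (DD3 S * lf2 u v) := by ring
    rw [e]
    exact dvd_add (h.fx i) (dvd_mul_right _ _)
  cop := by
    rintro ⟨i, u, v⟩
    change IsCoprime (c i + 3 * (DD3 S * lf2 u v)) (9 * DD3 S)
    have e : c i + 3 * (DD3 S * lf2 u v) - 1 = (c i - 1) + 3 * (DD3 S * lf2 u v) := by ring
    refine IsCoprime.mul_right (Avg2_cop ?_) ?_
    · rw [e]
      exact dvd_add (h.fx i) (dvd_mul_right _ _)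
    · obtain ⟨p, q, hpq⟩ := (h.cop i).of_isCoprime_of_dvd_right (dvd_mul_left (DD3 S) 3)
      exact ⟨p, q - p * 3 * lf2 u v, by linear_combination hpq⟩
  ex := by
    intro a ha h1
    have h2 : IsCoprime a (3 * DD3 S) := by
      refine ha.of_isCoprime_of_dvd_right ⟨3, by ring⟩
    obtain ⟨i, e, he⟩ := h.ex a h2 h1
    have h3 : (3 : 𝓞 K) ∣ e - lf2 (r3 e) (-t3 e) := by
      apply three_dvd_of
      · rw [map_sub, r3_lf2, sub_self]
      · rw [sub_eq_add_neg, t3_add, t3_neg, t3_lf2, neg_neg, add_neg_cancel]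
    obtain ⟨t, ht⟩ := h3
    exact ⟨(i, r3 e, -t3 e), t, by
      change a - (c i + 3 * (DD3 S * lf2 (r3 e) (-t3 e))) = _
      linear_combination he + 3 * DD3 S * ht⟩
  inj := by
    rintro ⟨i, u, v⟩ ⟨j, u', v'⟩ ⟨t, ht⟩
    change c i + 3 * (DD3 S * lf2 u v) - (c j + 3 * (DD3 S * lf2 u' v')) = _ at ht
    have h1 : i = j := h.inj i j ⟨3 * t - lf2 u v + lf2 u' v', by linear_combination ht⟩
    subst h1
    have h2 : 3 * DD3 S * (lf2 u v - lf2 u' v') = 3 * DD3 S * (3 * t) := by linear_combination ht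
    have h3 := mul_left_cancel₀ h.ne h2
    have h4 : lf2 u v = lf2 u' v' + 3 * t := by linear_combination h3
    have h5 := congrArg r3 h4
    have h6 := congrArg t3 h4
    rw [map_add, r3_lf2, r3_lf2, map_mul, Avg_r3_three, zero_mul, add_zero] at h5
    rw [t3_add, t3_lf2, t3_lf2, t3_three, add_zero, neg_inj] at h6
    rw [h5, h6]

theorem Avg2_em_nine : em (9 : 𝓞 K) = 9 := by
  have e : (9 : 𝓞 K) = 3 * 3 := by norm_num
  rw [e, Avg_em_mul, Avg_em_three]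
  norm_num

theorem Avg2_em_nat (n : ℕ) : em (n : 𝓞 K) = (n : ℂ) := by simp [em]

theorem Avg2_em_lf (u v : ZMod 3) : em (lf2 u v) = (u.val : ℂ) - sq3 * (v.val : ℂ) := by
  have h : em (lf2 u v) = em (u.val : 𝓞 K) - em (s3 * (v.val : 𝓞 K)) := by
    rw [lf2]
    simp [em]
  rw [h, Avg_em_mul, Avg_em_s3, Avg2_em_nat, Avg2_em_nat]

theorem Avg2_T0 : T0 = -sq3 / 3 := by
  have h := sq3_ne
  rw [T0, div_eq_div_iff h (by norm_num)]
  linear_combination sq3_sq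

theorem Avg2_div (S : Finset P3) (a : 𝓞 K) (u v : ZMod 3) :
    em (a + 3 * (DD3 S * lf2 u v)) / em (9 * DD3 S) =
      em a / em (9 * DD3 S) + (u.val : ℂ) / 3 + (v.val : ℂ) * T0 := by
  have h0 : em (DD3 S) ≠ 0 := Eul_em_ne (DD3_ne S)
  have e1 : em (9 * DD3 S) = 9 * em (DD3 S) := by rw [Avg_em_mul, Avg2_em_nine]
  have e2 : em (a + 3 * (DD3 S * lf2 u v)) =
      em a + 3 * em (DD3 S) * ((u.val : ℂ) - sq3 * (v.val : ℂ)) := by
    have h2 : em (a + 3 * (DD3 S * lf2 u v)) = em a + em (3 * (DD3 S * lf2 u v)) := by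
      simp [em]
    rw [h2, Avg_em_mul, Avg_em_mul, Avg_em_three, Avg2_em_lf]
    ring
  rw [e1, e2, Avg2_T0]
  field_simp
  ring

/-- **The averaging identity** modulo `9 D`. -/
theorem avgj (k j : ZMod 3) (e : P3 → ZMod 3) (S : Finset P3) {ι : Type} [Fintype ι]
    {c : ι → 𝓞 K} (hc : RepsG 3 (3 * DD3 S) c) :
    ∑ T ∈ S.powerset, (-1) ^ T.card *
        (Lj k j e T 1 * ∏ q ∈ S \ T, (1 - Xj k j e T q.1 / em q.1)) =
      (em (9 * DD3 S))⁻¹ * ∑ i, thj k j (c i) * (∏ q ∈ S, (1 - chq q (e q) (c i))) *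
        PsJ k j (em (c i) / em (9 * DD3 S)) := by
  let _ : DecidableEq (Pf 3) := inferInstanceAs (DecidableEq P3)
  have h1 := Gen_avg (thj_chr k j) (fun q : Pf 3 => chq_chrP q (e q)) S (fun _ => -1) (reps9 hc)
  have e1 : ∀ T ∈ S.powerset, (-1) ^ T.card *
      (Lj k j e T 1 * ∏ q ∈ S \ T, (1 - Xj k j e T q.1 / em q.1)) = (∏ q ∈ T, (-1 : ℂ)) *
      (LG 3 (XT (f := 3) (thj k j) (fun q => chq q (e q)) T) 1 *
        ∏ q ∈ S \ T, (1 - XT (f := 3) (thj k j) (fun q => chq q (e q)) T q.1 / em q.1)) := by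
    intro T _
    rw [Finset.prod_const]
    rfl
  rw [Finset.sum_congr rfl e1]
  refine h1.trans ?_
  rw [Fintype.sum_prod_type]
  congr 1
  refine Finset.sum_congr rfl fun i _ => ?_
  rw [PsJ, Finset.mul_sum, Fintype.sum_prod_type]
  refine Finset.sum_congr rfl fun u _ => ?_
  rw [Finset.mul_sum]
  refine Finset.sum_congr rfl fun v _ => ?_
  change thj k j (c i + 3 * (DD3 S * lf2 u v)) *
      (∏ q ∈ S, (1 + -1 * chq q (e q) (c i + 3 * (DD3 S * lf2 u v)))) *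
      E1 (em (c i + 3 * (DD3 S * lf2 u v)) / em (9 * DD3 S)) = _
  have e2 : ∏ q ∈ S, (1 + -1 * chq q (e q) (c i + 3 * (DD3 S * lf2 u v))) =
      ∏ q ∈ S, (1 - chq q (e q) (c i)) := by
    refine Finset.prod_congr rfl fun q hq => ?_
    have h2 : q.1 ∣ c i + 3 * (DD3 S * lf2 u v) - c i := by
      have h3 : q.1 ∣ DD3 S := Finset.dvd_prod_of_mem (fun q : P3 => q.1) hq
      rw [add_sub_cancel_left]
      exact (h3.mul_right _).mul_left _
    rw [(chq_chrP q (e q)).per _ _ h2]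
    ring
  have e3' : thj k j (c i + 3 * (DD3 S * lf2 u v)) = thj k j (c i) * e3 (-(k * u) - j * v) := by
    rw [thj, thj, abar_add (hc.fx i), bbar_add (hc.fx i), map_mul, r3_DD3, one_mul, r3_lf2, t3_DD3,
      t3_lf2, ← e3_add]
    congr 1
    ring
  rw [e2, e3', Avg2_div]
  ring

end

end Pool.Agent.Lib.MP_1a91b9_ntK
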