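import Pool.Agent.Lib.MP_1a91b9_ntK.A.SysHA

/-!
# Cubic twists, part A, file AvgH: the averaging identity over the sub-twists `D_T`, `T ⊆ I`, of the
hard class `k = 0`, `∑ e a = 0`
-/

set_option autoImplicit false

namespace Pool.Agent.Lib.MP_1a91b9_ntK

open NumberField IsDedekindDomain Pool.Agent.Lib.MP_1a91b9_ntT Pool.Agent.Lib.MP_1a91b9_ntG
open Pool.Agent.Lib.MP_1a91b9_ntH (wO s3 cp Nz s3_ne)

noncomputable section

/-- `μ(D)` with the Euler factors of the primes of `S` outside the support, as a finite sum -/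
theorem muH_sum (e : P3 → ZMod 3) {T S : Finset P3} (hT : T ⊆ S) {ι : Type} [Fintype ι]
    {c : ι → 𝓞 K} (hc : RepsG 3 (3 * DD3 S) c) :
    muH e T * ∏ q ∈ S \ T, (em q.1 - Xk 0 e T q.1) =
      N0⁻¹ * ∑ i, (∏ q ∈ T, chq q (e q) (c i)) * PhC 0 (em (c i) / em (3 * s3 * DD3 S)) := by
  let _ : DecidableEq (Pf 3) := inferInstanceAs (DecidableEq P3)
  have h1 := Gen_id (th_chr 0) (fun q : Pf 3 => chq_chrP q (e q)) hT (reps3 hc)
  have hE : em (3 * s3 * DD3 S) ≠ 0 :=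
    rt_em_ne (mul_ne_zero (mul_ne_zero (by norm_num) s3_ne) (DD3_ne S))
  have h2 : Lk 0 e T 1 * ∏ q ∈ S \ T, (1 - Xk 0 e T q.1 / em q.1) =
      (em (3 * s3 * DD3 S))⁻¹ * ∑ i, (∏ q ∈ T, chq q (e q) (c i)) *
        PhC 0 (em (c i) / em (3 * s3 * DD3 S)) := by
    refine h1.trans ?_
    rw [Fintype.sum_prod_type]
    congr 1
    refine Finset.sum_congr rfl fun i _ => ?_
    rw [PhC, Finset.mul_sum]
    refine Finset.sum_congr rfl fun x _ => ?_
    change th 0 (c i + 3 * (DD3 S * (x.val : 𝓞 K))) *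
      (∏ q ∈ T, chq q (e q) (c i + 3 * (DD3 S * (x.val : 𝓞 K)))) *
      E1 (em (c i + 3 * (DD3 S * (x.val : 𝓞 K))) / em (3 * s3 * DD3 S)) = _
    have e2 : ∏ q ∈ T, chq q (e q) (c i + 3 * (DD3 S * (x.val : 𝓞 K))) =
        ∏ q ∈ T, chq q (e q) (c i) := by
      refine Finset.prod_congr rfl fun q hq => ?_
      have h2 : q.1 ∣ c i + 3 * (DD3 S * (x.val : 𝓞 K)) - c i := by
        have h3 : q.1 ∣ DD3 S := dvd_DD3.2 (hT hq)
        rw [add_sub_cancel_left]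
        exact (h3.mul_right _).mul_left _
      rw [(chq_chrP q (e q)).per _ _ h2]
    rw [e2, th_zero, Avg_div, zero_mul, neg_zero, e3_zero]
    ring
  have h3 : ∏ q ∈ S \ T, (em q.1 - Xk 0 e T q.1) =
      (∏ q ∈ S \ T, em q.1) * ∏ q ∈ S \ T, (1 - Xk 0 e T q.1 / em q.1) := by
    rw [← Finset.prod_mul_distrib]
    refine Finset.prod_congr rfl fun q _ => ?_
    have h4 := rt_em_ne q.2.1.ne_zero
    field_simp
  have h5 : em (3 * s3 * DD3 S) = em (3 * s3 * DD3 T) * ∏ q ∈ S \ T, em q.1 := DD3_sdiff hT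
  have hN := N0_ne
  rw [h3, muH]
  have h6 : Lk 0 e T 1 * em (3 * s3 * DD3 T) / N0 * ((∏ q ∈ S \ T, em q.1) *
      ∏ q ∈ S \ T, (1 - Xk 0 e T q.1 / em q.1)) = N0⁻¹ * (em (3 * s3 * DD3 S) *
      (Lk 0 e T 1 * ∏ q ∈ S \ T, (1 - Xk 0 e T q.1 / em q.1))) := by
    rw [h5]
    field_simp
  rw [h6, h2, mul_inv_cancel_left₀ hE]

/-- the characters of the sub-twists are products of block characters -/
theorem chq_UH (e : P3 → ZMod 3) {q0 : P3} {I T : Finset P3} (h0 : q0 ∉ I) (hT : T ⊆ I)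
    {x : 𝓞 K} (hx : ¬ q0.1 ∣ x) :
    ∏ q ∈ UH aP e q0 T, chq q (eH aP e q0 T q) x =
      ∏ i ∈ T, (chq i (e i) x * chq q0 (e i * epH aP q0 i) x) := by
  have h1 : q0 ∉ T := fun h => h0 (hT h)
  have h2 : ∀ t, chq q0 t x = e3 (t * cq q0 x) := fun t => chq_of_not hx
  have h3 : ∏ i ∈ T, chq q0 (e i * epH aP q0 i) x = e3 (e0H aP e q0 T * cq q0 x) := by
    rw [e0H, Finset.sum_mul, e3_sum]
    exact Finset.prod_congr rfl fun i _ => h2 _
  have h4 : ∏ i ∈ T, chq i (eH aP e q0 T i) x = ∏ i ∈ T, chq i (e i) x := by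
    refine Finset.prod_congr rfl fun i hi => ?_
    have h5 : i ≠ q0 := fun h => h1 (h ▸ hi)
    rw [eH, Function.update_of_ne h5]
  rw [Finset.prod_mul_distrib, h3, UH]
  split_ifs with h5
  · rw [h4, h5, zero_mul, e3_zero, mul_one]
  · rw [Finset.prod_insert h1, h4, h2, eH, Function.update_self]
    ring

/-- **The averaging identity of the hard class.** -/
theorem avgH (e : P3 → ZMod 3) {q0 : P3} {I : Finset P3} (h0 : q0 ∉ I) (_hI : I.Nonempty)
    (_ha : aP q0 ≠ 0) (_he : ∀ q ∈ I, e q ≠ 0) {ι : Type} [Fintype ι] {c : ι → 𝓞 K}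
    (hc : RepsG 3 (3 * DD3 (insert q0 I)) c) :
    ∑ T ∈ I.powerset, (-1) ^ T.card * (muH (eH aP e q0 T) (UH aP e q0 T) *
      ∏ q ∈ insert q0 I \ UH aP e q0 T,
        (em q.1 - Xk 0 (eH aP e q0 T) (UH aP e q0 T) q.1)) =
      ∑ i, WH e q0 I (c i) * (1 + rho (qt (DD3 (insert q0 I)) (c i))) := by
  classical
  have hnd : ∀ i, ∀ q ∈ insert q0 I, ¬ q.1 ∣ c i := by
    intro i q hq hd
    have h3 : q.1 ∣ 3 * DD3 (insert q0 I) := (dvd_DD3.2 hq).mul_left _
    exact q.2.1.not_isUnit ((hc.cop i).isUnit_of_dvd' hd h3)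
  have hq0 : q0 ∈ insert q0 I := Finset.mem_insert_self _ _
  have hIm : ∀ i ∈ I, i ∈ insert q0 I := fun i hi => Finset.mem_insert_of_mem hi
  have hW : ∀ i, WH e q0 I (c i) =
      ∏ j ∈ I, (1 + -(chq j (e j) (c i) * chq q0 (e j * epH aP q0 j) (c i))) := by
    intro i
    rw [WH]
    refine Finset.prod_congr rfl fun j hj => ?_
    rw [chq_of_not (hnd i j (hIm j hj)), chq_of_not (hnd i q0 hq0), ← e3_add, ← sub_eq_add_neg]
    congr 2
    rw [tH]
    ring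
  have hsub : ∀ T ∈ I.powerset, UH aP e q0 T ⊆ insert q0 I := by
    intro T hT
    rw [Finset.mem_powerset] at hT
    rw [UH]
    split_ifs
    · exact hT.trans (Finset.subset_insert _ _)
    · exact Finset.insert_subset_insert _ hT
  have h1 : ∀ T ∈ I.powerset, (-1 : ℂ) ^ T.card * (muH (eH aP e q0 T) (UH aP e q0 T) *
      ∏ q ∈ insert q0 I \ UH aP e q0 T, (em q.1 - Xk 0 (eH aP e q0 T) (UH aP e q0 T) q.1)) =
      N0⁻¹ * ∑ i, (∏ j ∈ T, -(chq j (e j) (c i) * chq q0 (e j * epH aP q0 j) (c i))) *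
        PhC 0 (em (c i) / em (3 * s3 * DD3 (insert q0 I))) := by
    intro T hT
    rw [muH_sum _ (hsub T hT) hc, ← mul_assoc, mul_comm ((-1 : ℂ) ^ T.card), mul_assoc,
      Finset.mul_sum]
    congr 1
    refine Finset.sum_congr rfl fun i _ => ?_
    rw [chq_UH e h0 (Finset.mem_powerset.1 hT) (hnd i q0 hq0), Finset.prod_neg]
    ring
  rw [Finset.sum_congr rfl h1, ← Finset.mul_sum, Finset.sum_comm]
  have h2 : ∀ i, ∑ T ∈ I.powerset,
      (∏ j ∈ T, -(chq j (e j) (c i) * chq q0 (e j * epH aP q0 j) (c i))) *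
        PhC 0 (em (c i) / em (3 * s3 * DD3 (insert q0 I))) =
      (∏ j ∈ I, (1 + -(chq j (e j) (c i) * chq q0 (e j * epH aP q0 j) (c i)))) *
        PhC 0 (em (c i) / em (3 * s3 * DD3 (insert q0 I))) := by
    intro i
    rw [← Finset.sum_mul, Finset.prod_one_add]
  rw [Finset.sum_congr rfl fun i _ => h2 i]
  have h3 := phC0_sum (DD3_three (insert q0 I)) (DD3_unit ⟨q0, hq0⟩) hc
    (fun x => ∏ j ∈ I, (1 + -(chq j (e j) x * chq q0 (e j * epH aP q0 j) x)))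
    (fun a b hab => Finset.prod_congr rfl fun j hj => by
      rw [(chq_chrP j (e j)).per a b ((dvd_DD3.2 (hIm j hj)).trans hab),
        (chq_chrP q0 (e j * epH aP q0 j)).per a b ((dvd_DD3.2 hq0).trans hab)])
    (fun a => Finset.prod_congr rfl fun j _ => by rw [chq_neg, chq_neg])
  have hN := N0_ne
  rw [h3, ← N0, inv_mul_cancel_left₀ hN]
  exact Finset.sum_congr rfl fun i _ => by rw [hW]

end

end Pool.Agent.Lib.MP_1a91b9_ntK
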