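import Pool.Agent.Lib.MP_1a91b9_ntK.A.Phi0

/-!
# Cubic twists, part A, file GoodX: the good coordinate of the points of order prime to `3`

For a point `Q ≠ 0` of order prime to `3` and a place above `3`: `|Y Q|² ≤ |√-3|³`, `|X Q - X1| ≤ |√-3|` (`X1³ = -1/4`),
`xi Q = (X Q - X1) / √-3`, and modulo elements smaller than `√-3`, with `d = X Q - X0`:
`3 / d³ = K3 + √-3 xi³`, `3 / d² = K2 + √-3 xi`, `6 / d = 0`, `9 / d² = 0`.
-/

set_option autoImplicit false

namespace Pool.Agent.Lib.MP_1a91b9_ntK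

open NumberField IsDedekindDomain Pool.Agent.Lib.MP_1a91b9_ntT Pool.Agent.Lib.MP_1a91b9_ntG
  Pool.Agent.Lib.MP_1a91b9_ntH

noncomputable section

/-- a point, not `0`, of order prime to `3` -/
def Od (z : ℂ) : Prop := z ∉ PP.lattice ∧ ∃ n : ℕ, n.Coprime 3 ∧ (n : ℂ) * z ∈ PP.lattice

theorem gx_mul {x : ℂ} (hx : x ∈ PP.lattice) (n : ℕ) : (n : ℂ) * x ∈ PP.lattice := by
  exact_mod_cast S3.mul_int_mem hx (n : ℤ)

theorem Od.s3_notMem {z : ℂ} (h : Od z) : sq3 * z ∉ PP.lattice := by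
  obtain ⟨hz, n, hn, hnz⟩ := h
  intro h
  apply hz
  have h1 := neg_mem (s3_mul_mem h)
  have e : -(sq3 * (sq3 * z)) = 3 * z := by linear_combination (-z) * sq3_sq
  rw [e] at h1
  have hb := Nat.gcd_eq_gcd_ab n 3
  rw [hn] at hb
  have h2 := add_mem (S3.mul_int_mem hnz (n.gcdA 3)) (S3.mul_int_mem h1 (n.gcdB 3))
  have h3 : ((n.gcdA 3 : ℤ) : ℂ) * ((n : ℂ) * z) + ((n.gcdB 3 : ℤ) : ℂ) * (3 * z) = z := by
    have hb2 : (1 : ℂ) = (n : ℂ) * (n.gcdA 3 : ℤ) + 3 * (n.gcdB 3 : ℤ) := by exact_mod_cast hb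
    linear_combination (-z) * hb2
  rwa [h3] at h2

theorem Od.s3 {z : ℂ} (h : Od z) : Od (sq3 * z) := by
  refine ⟨h.s3_notMem, ?_⟩
  obtain ⟨_, n, hn, hnz⟩ := h
  refine ⟨n, hn, ?_⟩
  have h1 := s3_mul_mem hnz
  rwa [show sq3 * ((n : ℂ) * z) = (n : ℂ) * (sq3 * z) by ring] at h1

theorem Od.pow {z : ℂ} (h : Od z) (i : ℕ) : Od (sq3 ^ i * z) := by
  induction i with
  | zero => rwa [pow_zero, one_mul]
  | succ i ih =>
    have e : sq3 ^ (i + 1) * z = sq3 * (sq3 ^ i * z) := by ring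
    rw [e]
    exact ih.s3

theorem Od.neg {z : ℂ} (h : Od z) : Od (-z) := by
  obtain ⟨hz, n, hn, hnz⟩ := h
  refine ⟨fun h => hz (by simpa using neg_mem h), n, hn, ?_⟩
  rw [mul_neg]
  exact neg_mem hnz

theorem Od.gd {z : ℂ} (h : Od z) {A : ValuationSubring ℂ} (hA : Three A) : Gd A z := by
  obtain ⟨hz, n, hn, hnz⟩ := h
  exact Gd_cop hA hn hnz hz

/-- the multiplication by `√-3` is periodic -/
theorem Od.period {z : ℂ} (h : Od z) : ∃ i, 0 < i ∧ sq3 ^ i * z - z ∈ PP.lattice := by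
  obtain ⟨hz, n, hn, hnz⟩ := h
  have hn0 : 0 < n := by
    rcases Nat.eq_zero_or_pos n with h0 | h0
    · rw [h0] at hn
      norm_num at hn
    · exact h0
  have hcop : Nat.Coprime 9 n := by
    have h1 : Nat.Coprime (3 ^ 2) n := Nat.Coprime.pow_left 2 hn.symm
    norm_num at h1
    exact h1
  have hmod := Nat.ModEq.pow_totient hcop
  have h1 : (n : ℤ) ∣ (9 : ℤ) ^ n.totient - 1 := by
    have h2 := (Nat.modEq_iff_dvd.1 hmod.symm)
    push_cast at h2
    exact h2
  obtain ⟨t, ht⟩ := h1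
  refine ⟨4 * n.totient, Nat.mul_pos (by norm_num) (Nat.totient_pos.2 hn0), ?_⟩
  have e1 : sq3 ^ 4 = 9 := by
    rw [show (4 : ℕ) = 2 * 2 from rfl, pow_mul, sq3_sq]
    norm_num
  have e2 : sq3 ^ (4 * n.totient) * z - z = ((t : ℤ) : ℂ) * ((n : ℂ) * z) := by
    rw [pow_mul, e1]
    have h3 : (9 : ℂ) ^ n.totient - 1 = (n : ℂ) * (t : ℂ) := by exact_mod_cast ht
    linear_combination z * h3
  rw [e2]
  exact S3.mul_int_mem hnz t

/-- the square of the ordinate of `√-3 z` -/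
theorem Y_s3_sq {z : ℂ} (hs : sq3 * z ∉ PP.lattice) :
    27 * S3.X z ^ 6 * S3.Y (sq3 * z) ^ 2 = -((S3.X z ^ 3 - 2) ^ 2 * S3.Y z ^ 2) := by
  have hX := X_ne_of_s3 hs
  have h1 : S3.X (sq3 * z) = -(S3.X z ^ 3 + 1) / (3 * S3.X z ^ 2) := by
    rw [eq_div_iff (mul_ne_zero (by norm_num) (pow_ne_zero 2 hX))]
    linear_combination X_s3 hs
  rw [S3.Y_sq hs, S3.Y_sq (notMem_of_s3 hs), h1]
  field_simp
  ring

section

variable {A : ValuationSubring ℂ}

theorem v_four3 (hA : Three A) : A.valuation (4 : ℂ) = 1 := by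
  have h := v_cop3 hA (n := 4) (by norm_num)
  exact_mod_cast h

theorem v_sq3_lt (hA : Three A) : A.valuation sq3 < 1 := by
  by_contra hc
  push Not at hc
  have h5 := one_le_pow₀ hc (n := 2)
  rw [v_sq3] at h5
  exact absurd (v_three_lt hA) (not_lt.2 h5)

theorem v_three_lt_sq3 (hA : Three A) : A.valuation (3 : ℂ) < A.valuation sq3 := by
  rw [← v_sq3, pow_two]
  calc A.valuation sq3 * A.valuation sq3 < A.valuation sq3 * 1 :=
        mul_lt_mul_of_pos_left (v_sq3_lt hA) v_sq3_pos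
    _ = A.valuation sq3 := mul_one _

/-- multiplication by `√-3` cubes a large ordinate -/
theorem v_Y_step (hA : Three A) {z : ℂ} (h : Od z)
    (hY : A.valuation sq3 ^ 3 < A.valuation (S3.Y z) ^ 2) :
    A.valuation sq3 ^ 3 * A.valuation (S3.Y (sq3 * z)) = A.valuation (S3.Y z) ^ 3 := by
  have hs := h.s3_notMem
  have hX := (h.gd hA).1
  have hp := v_sq3_pos (A := A)
  have h9 : A.valuation (9 : ℂ) < A.valuation (S3.Y z) ^ 2 := by
    refine lt_trans ?_ hY
    have e : (9 : ℂ) = 3 * 3 := by norm_num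
    rw [e, map_mul, ← v_sq3, ← pow_add]
    calc A.valuation sq3 ^ (2 + 2) = A.valuation sq3 ^ 3 * A.valuation sq3 := by rw [← pow_succ]
      _ < A.valuation sq3 ^ 3 * 1 := mul_lt_mul_of_pos_left (v_sq3_lt hA) (pow_pos hp 3)
      _ = A.valuation sq3 ^ 3 := mul_one _
  have e1 : 4 * (S3.X z ^ 3 - 2) = S3.Y z ^ 2 - 9 := by
    rw [S3.Y_sq (notMem_of_s3 hs)]
    ring
  have h1 : A.valuation (S3.X z ^ 3 - 2) = A.valuation (S3.Y z) ^ 2 := by
    have h2 := congrArg A.valuation e1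
    rw [map_mul, v_four3 hA, one_mul] at h2
    rw [h2, ← map_pow, Valuation.map_sub_eq_of_lt_left]
    rw [map_pow]
    exact h9
  have h3 := congrArg A.valuation (Y_s3_sq hs)
  have e27 : (27 : ℂ) = 3 ^ 3 := by norm_num
  rw [Valuation.map_neg, map_mul, map_mul, map_mul, e27, map_pow, map_pow, map_pow, map_pow, map_pow, hX,
    h1, one_pow, mul_one, ← v_sq3] at h3
  have h4 : (A.valuation sq3 ^ 3 * A.valuation (S3.Y (sq3 * z))) ^ 2 =
      (A.valuation (S3.Y z) ^ 3) ^ 2 := by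
    rw [mul_pow, ← pow_mul, mul_comm 3 2, pow_mul, h3, ← pow_mul, ← pow_mul, ← pow_add]
  exact (pow_left_inj₀ zero_le zero_le two_ne_zero).1 h4

/-- **the ordinate of a point of order prime to `3`** -/
theorem v_Y_sq_le (hA : Three A) {z : ℂ} (h : Od z) :
    A.valuation (S3.Y z) ^ 2 ≤ A.valuation sq3 ^ 3 := by
  by_contra hc
  push Not at hc
  have hp := v_sq3_pos (A := A)
  have hp3 : 0 < A.valuation sq3 ^ 3 := pow_pos hp 3
  have step : ∀ x : ℂ, Od x → A.valuation sq3 ^ 3 < A.valuation (S3.Y x) ^ 2 →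
      A.valuation (S3.Y x) < A.valuation (S3.Y (sq3 * x)) := by
    intro x hx hY
    have h1 := v_Y_step hA hx hY
    have hy0 : 0 < A.valuation (S3.Y x) := by
      rcases eq_or_lt_of_le (zero_le : (0 : A.ValueGroup) ≤ A.valuation (S3.Y x)) with h0 | h0
      · rw [← h0, zero_pow two_ne_zero] at hY
        exact absurd hY (not_lt.2 zero_le)
      · exact h0
    have h2 : A.valuation sq3 ^ 3 * A.valuation (S3.Y x) <
        A.valuation sq3 ^ 3 * A.valuation (S3.Y (sq3 * x)) := by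
      rw [h1, pow_succ (A.valuation (S3.Y x)) 2]
      exact mul_lt_mul_of_pos_right hY hy0
    exact lt_of_mul_lt_mul_left h2 zero_le
  have hall : ∀ i : ℕ, A.valuation (S3.Y z) ≤ A.valuation (S3.Y (sq3 ^ i * z)) ∧
      (0 < i → A.valuation (S3.Y z) < A.valuation (S3.Y (sq3 ^ i * z))) := by
    intro i
    induction i with
    | zero =>
      rw [pow_zero, one_mul]
      exact ⟨le_refl _, fun h => absurd h (lt_irrefl 0)⟩
    | succ i ih =>
      have h1 : A.valuation sq3 ^ 3 < A.valuation (S3.Y (sq3 ^ i * z)) ^ 2 :=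
        lt_of_lt_of_le hc (pow_le_pow_left₀ zero_le ih.1 2)
      have h2 := step _ (h.pow i) h1
      have e : sq3 ^ (i + 1) * z = sq3 * (sq3 ^ i * z) := by ring
      rw [e]
      exact ⟨(ih.1.trans h2.le), fun _ => lt_of_le_of_lt ih.1 h2⟩
  obtain ⟨i, hi, hl⟩ := h.period
  have h1 := (hall i).2 hi
  have e : sq3 ^ i * z = z + (sq3 ^ i * z - z) := by ring
  rw [e, Rq.Y_add hl] at h1
  exact lt_irrefl _ h1

/-! ### The good coordinate -/

end

/-- a cube root of `-1 / 4` -/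
def X1 : ℂ := (IsAlgClosed.exists_pow_nat_eq (-1 / 4 : ℂ) (n := 3) (by norm_num)).choose

theorem X1_cube : X1 ^ 3 = -1 / 4 :=
  (IsAlgClosed.exists_pow_nat_eq (-1 / 4 : ℂ) (n := 3) (by norm_num)).choose_spec

/-- the good coordinate -/
def xi (z : ℂ) : ℂ := (S3.X z - X1) / sq3

theorem sq3_xi (z : ℂ) : sq3 * xi z = S3.X z - X1 := by
  rw [xi, mul_div_cancel₀ _ sq3_ne]

theorem xi_zt (z : ℂ) : xi (zt * z) = zt * xi z + (zt - 1) / sq3 * X1 := by
  have h := sq3_ne
  rw [xi, xi, Rq.X_zt]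
  field_simp
  ring

theorem xi_neg (z : ℂ) : xi (-z) = xi z := by
  rw [xi, xi, Rq.X_neg]

section

variable {A : ValuationSubring ℂ}

theorem v_of_cube_quarter (hA : Three A) {x : ℂ} (hx : x ^ 3 = -1 / 4) : A.valuation x = 1 := by
  have h := congrArg A.valuation hx
  rw [map_pow, map_div₀, Valuation.map_neg, map_one, v_four3 hA, div_one] at h
  exact (pow_eq_one_iff_of_nonneg zero_le (by norm_num)).1 h

theorem v_X1 (hA : Three A) : A.valuation X1 = 1 := v_of_cube_quarter hA X1_cube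

/-- `|X Q - x| ≤ |√-3|` for every `x` with `x³ = -1 / 4` -/
theorem v_X_sub (hA : Three A) {z : ℂ} (h : Od z) {x : ℂ} (hx : x ^ 3 = -1 / 4) :
    A.valuation (S3.X z - x) ≤ A.valuation sq3 := by
  by_contra hc
  push Not at hc
  have hp := v_sq3_pos (A := A)
  have hY := v_Y_sq_le hA h
  have h4 := v_four3 hA
  have h1 := v_of_cube_quarter hA hx
  have e : (S3.X z - x) ^ 3 + 3 * (x * (S3.X z - x) * (S3.X z - x) + x ^ 2 * (S3.X z - x)) =
      S3.Y z ^ 2 / 4 := by
    rw [S3.Y_sq (notMem_of_s3 h.s3_notMem)]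
    linear_combination (-1) * hx
  have hD : A.valuation (S3.X z - x) ≤ 1 :=
    A.valuation.map_sub_le (h.gd hA).1.le h1.le
  have hlt : A.valuation (3 * (x * (S3.X z - x) * (S3.X z - x) + x ^ 2 * (S3.X z - x))) <
      A.valuation (S3.X z - x) ^ 3 := by
    have h5 : A.valuation (x * (S3.X z - x) * (S3.X z - x) + x ^ 2 * (S3.X z - x)) ≤
        A.valuation (S3.X z - x) := by
      refine A.valuation.map_add_le ?_ ?_
      · rw [map_mul, map_mul, h1, one_mul]
        exact mul_le_of_le_one_left' hD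
      · rw [map_mul, map_pow, h1, one_pow, one_mul]
    rw [map_mul, ← v_sq3]
    have hpos : 0 < A.valuation (S3.X z - x) := lt_trans hp hc
    calc A.valuation sq3 ^ 2 *
          A.valuation (x * (S3.X z - x) * (S3.X z - x) + x ^ 2 * (S3.X z - x)) ≤
          A.valuation sq3 ^ 2 * A.valuation (S3.X z - x) := by gcongr
      _ < A.valuation (S3.X z - x) ^ 2 * A.valuation (S3.X z - x) :=
          mul_lt_mul_of_pos_right (pow_lt_pow_left₀ hc zero_le two_ne_zero) hpos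
      _ = A.valuation (S3.X z - x) ^ 3 := (pow_succ _ 2).symm
  have h2 := congrArg A.valuation e
  rw [Valuation.map_add_eq_of_lt_left _ (by rwa [map_pow]), map_div₀, h4, div_one, map_pow, map_pow] at h2
  rw [← h2] at hY
  exact absurd (pow_lt_pow_left₀ hc zero_le (by norm_num)) (not_lt.2 hY)

theorem v_X_sub_X1 (hA : Three A) {z : ℂ} (h : Od z) :
    A.valuation (S3.X z - X1) ≤ A.valuation sq3 := v_X_sub hA h X1_cube

theorem xi_le (hA : Three A) {z : ℂ} (h : Od z) : A.valuation (xi z) ≤ 1 := by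
  rw [xi, map_div₀]
  exact (div_le_one₀ v_sq3_pos).2 (v_X_sub_X1 hA h)

theorem xi_mem (hA : Three A) {z : ℂ} (h : Od z) : xi z ∈ A := by
  rw [← A.valuation_le_one_iff]
  exact xi_le hA h

/-- `|X Q - X0|³ = |3|` -/
theorem v_d_cube (hA : Three A) {z : ℂ} (h : Od z) :
    A.valuation (S3.X z - X0) ^ 3 = A.valuation 3 := by
  have hs := h.s3_notMem
  have hY := v_Y_sq_le hA h
  have h4 := v_four3 hA
  have h3 := v_three_lt hA
  have hp := v_sq3_pos (A := A)
  have h30 : 0 < A.valuation (3 : ℂ) := by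
    rw [Valuation.pos_iff]
    norm_num
  have hX0 := v_X0 (A := A)
  have hX01 : A.valuation (X0 + 1) < 1 := by
    rcases v_X0_add (A := A) with h2 | h2
    · rw [h2]
      exact zero_lt_one
    · by_contra h6
      push Not at h6
      have h7 := one_le_pow₀ h6 (n := 2)
      rw [h2] at h7
      exact absurd h3 (not_lt.2 h7)
  have hd : A.valuation (S3.X z - X0) < 1 := by
    have e : S3.X z - X0 = (S3.X z + 1) - (X0 + 1) := by ring
    rw [e]
    exact A.valuation.map_sub_lt ((h.gd hA).lt hA) hX01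
  have e : (S3.X z - X0) ^ 3 =
      (3 + S3.Y z ^ 2) / 4 - 3 * (X0 * (S3.X z - X0) * (S3.X z - X0) + X0 ^ 2 * (S3.X z - X0)) := by
    rw [S3.Y_sq (notMem_of_s3 hs)]
    linear_combination -X0_cube
  have h5 : A.valuation ((3 + S3.Y z ^ 2) / 4) = A.valuation 3 := by
    rw [map_div₀, h4, div_one, Valuation.map_add_eq_of_lt_left]
    rw [map_pow, ← v_sq3]
    refine lt_of_le_of_lt hY ?_
    rw [pow_succ]
    calc A.valuation sq3 ^ 2 * A.valuation sq3 < A.valuation sq3 ^ 2 * 1 :=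
          mul_lt_mul_of_pos_left (v_sq3_lt hA) (pow_pos hp 2)
      _ = A.valuation sq3 ^ 2 := mul_one _
  rw [← map_pow, e, Valuation.map_sub_eq_of_lt_left _, h5]
  rw [h5, map_mul]
  have h6 : A.valuation (X0 * (S3.X z - X0) * (S3.X z - X0) + X0 ^ 2 * (S3.X z - X0)) < 1 := by
    refine A.valuation.map_add_lt ?_ ?_
    · rw [map_mul, map_mul, hX0, one_mul]
      exact mul_lt_one_of_lt_of_le hd hd.le
    · rw [map_mul, map_pow, hX0, one_pow, one_mul]
      exact hd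
  calc A.valuation 3 * A.valuation (X0 * (S3.X z - X0) * (S3.X z - X0) + X0 ^ 2 * (S3.X z - X0)) <
        A.valuation 3 * 1 := mul_lt_mul_of_pos_left h6 h30
    _ = A.valuation 3 := mul_one _

theorem d_ne (hA : Three A) {z : ℂ} (h : Od z) : S3.X z - X0 ≠ 0 := by
  intro h0
  have h1 := v_d_cube hA h
  rw [h0, map_zero, zero_pow (by norm_num)] at h1
  have h2 := (Valuation.zero_iff _).1 h1.symm
  norm_num at h2

theorem v_d_lt (hA : Three A) {z : ℂ} (h : Od z) : A.valuation (S3.X z - X0) < 1 := by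
  by_contra hc
  push Not at hc
  have h1 := one_le_pow₀ hc (n := 3)
  rw [v_d_cube hA h] at h1
  exact absurd (v_three_lt hA) (not_lt.2 h1)

/-- `|√-3| < |d|` -/
theorem v_sq3_lt_d (hA : Three A) {z : ℂ} (h : Od z) :
    A.valuation sq3 < A.valuation (S3.X z - X0) := by
  refine lt_of_pow_lt_pow_left₀ 3 zero_le ?_
  rw [v_d_cube hA h, ← v_sq3, pow_succ]
  calc A.valuation sq3 ^ 2 * A.valuation sq3 < A.valuation sq3 ^ 2 * 1 :=
        mul_lt_mul_of_pos_left (v_sq3_lt hA) (pow_pos v_sq3_pos 2)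
    _ = A.valuation sq3 ^ 2 := mul_one _

/-- `|d|² < |√-3|` -/
theorem v_d_sq (hA : Three A) {z : ℂ} (h : Od z) :
    A.valuation (S3.X z - X0) ^ 2 < A.valuation sq3 := by
  refine lt_of_pow_lt_pow_left₀ 3 zero_le ?_
  have e : (A.valuation (S3.X z - X0) ^ 2) ^ 3 = A.valuation sq3 ^ 4 := by
    rw [← pow_mul, mul_comm 2 3, pow_mul, v_d_cube hA h, ← v_sq3, ← pow_mul]
  rw [e, pow_succ]
  calc A.valuation sq3 ^ 3 * A.valuation sq3 < A.valuation sq3 ^ 3 * 1 :=
        mul_lt_mul_of_pos_left (v_sq3_lt hA) (pow_pos v_sq3_pos 3)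
    _ = A.valuation sq3 ^ 3 := mul_one _

theorem v_X0_sub_X1 (hA : Three A) {z : ℂ} (h : Od z) : A.valuation (X0 - X1) < 1 := by
  have e : X0 - X1 = (S3.X z - X1) - (S3.X z - X0) := by ring
  rw [e]
  exact A.valuation.map_sub_lt (lt_of_le_of_lt (v_X_sub_X1 hA h) (v_sq3_lt hA)) (v_d_lt hA h)

/-! ### The expansions -/

end

/-- the deviation -/
def epx (z : ℂ) : ℂ := 4 * X0 ^ 2 * (S3.X z - X0) + 4 * X0 * (S3.X z - X0) ^ 2 - S3.Y z ^ 2 / 3

theorem d_eq {z : ℂ} (h : z ∉ PP.lattice) : 4 * (S3.X z - X0) ^ 3 = 3 * (1 - epx z) := by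
  rw [epx, S3.Y_sq h]
  linear_combination (-4 : ℂ) * X0_cube

/-- the constant of `3 / d³` -/
def K3 : ℂ := 4 + 16 * X0 ^ 2 * (X1 - X0)

/-- the constant of `3 / d²` -/
def K2 : ℂ := 4 * (X1 - X0)

section

variable {A : ValuationSubring ℂ}

theorem v_Y3_le (hA : Three A) {z : ℂ} (h : Od z) : A.valuation (S3.Y z ^ 2 / 3) ≤ A.valuation sq3 := by
  rw [map_div₀, map_pow, ← v_sq3]
  have hp := v_sq3_pos (A := A)
  rw [div_le_iff₀ (pow_pos hp 2), ← pow_succ']
  exact v_Y_sq_le hA h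

theorem v_epx (hA : Three A) {z : ℂ} (h : Od z) : A.valuation (epx z) ≤ A.valuation (S3.X z - X0) := by
  have h4 := v_four3 hA
  have hX0 := v_X0 (A := A)
  refine A.valuation.map_sub_le (A.valuation.map_add_le ?_ ?_) ?_
  · rw [map_mul, map_mul, map_pow, h4, hX0, one_pow, one_mul, one_mul]
  · rw [map_mul, map_mul, map_pow, h4, hX0, one_mul, one_mul, pow_two]
    exact mul_le_of_le_one_left' (v_d_lt hA h).le
  · exact (v_Y3_le hA h).trans (v_sq3_lt_d hA h).le

theorem v_one_sub_epx (hA : Three A) {z : ℂ} (h : Od z) : A.valuation (1 - epx z) = 1 := by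
  rw [Valuation.map_sub_eq_of_lt_left, map_one]
  rw [map_one]
  exact lt_of_le_of_lt (v_epx hA h) (v_d_lt hA h)

theorem one_sub_epx_ne (hA : Three A) {z : ℂ} (h : Od z) : 1 - epx z ≠ 0 := by
  intro h0
  have h1 := v_one_sub_epx hA h
  rw [h0, map_zero] at h1
  exact zero_ne_one h1

theorem three_div_eq (hA : Three A) {z : ℂ} (h : Od z) : 3 / (S3.X z - X0) ^ 3 = 4 / (1 - epx z) := by
  rw [div_eq_div_iff (pow_ne_zero 3 (d_ne hA h)) (one_sub_epx_ne hA h)]
  linear_combination -(d_eq (notMem_of_s3 h.s3_notMem))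

/-- `3 / d³ = K3 + √-3 xi³` -/
theorem three_div_d3 (hA : Three A) {z : ℂ} (h : Od z) :
    A.valuation (3 / (S3.X z - X0) ^ 3 - (K3 + sq3 * xi z ^ 3)) < A.valuation sq3 := by
  have h4 := v_four3 hA
  have h3 := v_three_lt hA
  have hX0 := v_X0 (A := A)
  have hX1 := v_X1 hA
  have hne := one_sub_epx_ne hA h
  have hp := v_sq3_pos (A := A)
  have hxi := xi_le hA h
  have hq := sq3_ne
  have hn : ∀ n : ℕ, A.valuation (n : ℂ) ≤ 1 := fun n => (A.valuation_le_one_iff _).2 (natCast_mem A n)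
  have h16 : A.valuation (16 : ℂ) ≤ 1 := by exact_mod_cast hn 16
  have h5 : A.valuation (5 : ℂ) ≤ 1 := by exact_mod_cast hn 5
  have hxd := sq3_xi z
  have hX : S3.X z = X1 + sq3 * xi z := by linear_combination -hxd
  have hY := S3.Y_sq (notMem_of_s3 h.s3_notMem)
  have e : 3 / (S3.X z - X0) ^ 3 - (K3 + sq3 * xi z ^ 3) =
      4 * epx z ^ 2 / (1 - epx z) + sq3 * (3 * 5 * xi z ^ 3) + sq3 * (16 * (X0 - X1) * ((X0 + X1) * xi z)) +
        16 * X0 * (S3.X z - X0) ^ 2 + 3 * (16 * X1 * xi z ^ 2) := by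
    rw [three_div_eq hA h, K3]
    have e1 : 4 / (1 - epx z) = 4 + 4 * epx z + 4 * epx z ^ 2 / (1 - epx z) := by
      field_simp
      ring
    have e2 : S3.Y z ^ 2 / 3 = -4 * (sq3 * xi z ^ 3 - sq3 * X1 ^ 2 * xi z + 3 * X1 * xi z ^ 2) := by
      rw [hY, hX]
      linear_combination (4 / 3 : ℂ) * X1_cube + (4 / 3 * (xi z ^ 3 * sq3 + 3 * X1 * xi z ^ 2)) * sq3_sq
    rw [e1]
    have e3 : 4 * epx z = 16 * X0 ^ 2 * (S3.X z - X0) + 16 * X0 * (S3.X z - X0) ^ 2 +
        16 * (sq3 * xi z ^ 3 - sq3 * X1 ^ 2 * xi z + 3 * X1 * xi z ^ 2) := by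
      rw [epx, e2]
      ring
    rw [e3]
    linear_combination (-16 * X0 ^ 2) * hxd
  rw [e]
  have hlt : ∀ x : ℂ, A.valuation x < 1 → A.valuation (sq3 * x) < A.valuation sq3 := by
    intro x hx
    rw [map_mul]
    calc A.valuation sq3 * A.valuation x < A.valuation sq3 * 1 := mul_lt_mul_of_pos_left hx hp
      _ = A.valuation sq3 := mul_one _
  refine A.valuation.map_add_lt (A.valuation.map_add_lt (A.valuation.map_add_lt
    (A.valuation.map_add_lt ?_ ?_) ?_) ?_) ?_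
  · rw [map_div₀, v_one_sub_epx hA h, div_one, map_mul, h4, one_mul, map_pow]
    exact lt_of_le_of_lt (pow_le_pow_left₀ zero_le (v_epx hA h) 2) (v_d_sq hA h)
  · apply hlt
    rw [map_mul, map_mul, map_pow, mul_assoc]
    exact mul_lt_one_of_lt_of_le h3 (mul_le_one' h5 (pow_le_one₀ zero_le hxi))
  · apply hlt
    rw [map_mul, map_mul, map_mul]
    refine mul_lt_one_of_lt_of_le ?_ ?_
    · rw [mul_comm]
      exact mul_lt_one_of_lt_of_le (v_X0_sub_X1 hA h) h16
    · exact mul_le_one' (A.valuation.map_add_le hX0.le hX1.le) hxi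
  · rw [map_mul, map_mul, map_pow, hX0, mul_one]
    exact lt_of_le_of_lt (mul_le_of_le_one_left' h16) (v_d_sq hA h)
  · rw [map_mul]
    refine lt_of_le_of_lt (mul_le_of_le_one_right' ?_) (v_three_lt_sq3 hA)
    rw [map_mul, map_mul, map_pow, hX1, mul_one]
    exact mul_le_one' h16 (pow_le_one₀ zero_le hxi)

/-- `3 / d² = K2 + √-3 xi` -/
theorem three_div_d2 (hA : Three A) {z : ℂ} (h : Od z) :
    A.valuation (3 / (S3.X z - X0) ^ 2 - (K2 + sq3 * xi z)) < A.valuation sq3 := by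
  have h4 := v_four3 hA
  have h3 := v_three_lt hA
  have hne := one_sub_epx_ne hA h
  have hd := d_ne hA h
  have hp := v_sq3_pos (A := A)
  have hxi := xi_le hA h
  have hxd := sq3_xi z
  have e0 : 3 / (S3.X z - X0) ^ 2 = (S3.X z - X0) * (3 / (S3.X z - X0) ^ 3) := by
    field_simp
  have e : 3 / (S3.X z - X0) ^ 2 - (K2 + sq3 * xi z) =
      (S3.X z - X0) * (4 * epx z / (1 - epx z)) + sq3 * (3 * xi z) := by
    rw [e0, three_div_eq hA h, K2]
    have e1 : 4 / (1 - epx z) = 4 + 4 * epx z / (1 - epx z) := by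
      field_simp
      ring
    rw [e1]
    linear_combination (-4 : ℂ) * hxd
  rw [e]
  refine A.valuation.map_add_lt ?_ ?_
  · rw [map_mul, map_div₀, v_one_sub_epx hA h, div_one, map_mul, h4, one_mul]
    refine lt_of_le_of_lt ?_ (v_d_sq hA h)
    rw [pow_two]
    gcongr
    exact v_epx hA h
  · rw [map_mul, map_mul]
    calc A.valuation sq3 * (A.valuation 3 * A.valuation (xi z)) < A.valuation sq3 * 1 :=
          mul_lt_mul_of_pos_left (mul_lt_one_of_lt_of_le h3 hxi) hp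
      _ = A.valuation sq3 := mul_one _

/-- `6 / d` is small -/
theorem six_div_d (hA : Three A) {z : ℂ} (h : Od z) :
    A.valuation (6 / (S3.X z - X0)) < A.valuation sq3 := by
  have hd := d_ne hA h
  have e : 6 / (S3.X z - X0) = 2 * ((S3.X z - X0) ^ 2 * (4 / (1 - epx z))) := by
    rw [← three_div_eq hA h]
    field_simp
    norm_num
  rw [e, map_mul, map_mul, map_div₀, v_one_sub_epx hA h, v_four3 hA, v_two3 hA, div_one, mul_one,
    one_mul, map_pow]
  exact v_d_sq hA h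

/-- `9 / d²` is small -/
theorem nine_div_d2 (hA : Three A) {z : ℂ} (h : Od z) :
    A.valuation (9 / (S3.X z - X0) ^ 2) < A.valuation sq3 := by
  have hd := d_ne hA h
  have e : 9 / (S3.X z - X0) ^ 2 = 3 * ((S3.X z - X0) * (4 / (1 - epx z))) := by
    rw [← three_div_eq hA h]
    field_simp
    norm_num
  rw [e, map_mul, map_mul, map_div₀, v_one_sub_epx hA h, v_four3 hA, div_one, mul_one]
  refine lt_of_le_of_lt ?_ (v_three_lt_sq3 hA)
  exact mul_le_of_le_one_right' (v_d_lt hA h).le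

/-- **the even part of the deviation**: for `j, ω ∈ A`, `ω = 1` modulo the maximal ideal -/
theorem even_res (hA : Three A) {z : ℂ} (h : Od z) {j ω : ℂ} (hj : A.valuation j ≤ 1)
    (hω : A.valuation (ω - 1) < 1) :
    A.valuation (3 * j / (S3.X z - X0) ^ 3 + 3 * (ω - 3 * j) * X0 ^ 2 / (S3.X z - X0) ^ 2 +
      6 * (ω - j) * X0 / (S3.X z - X0) -
        (j * K3 + (ω - 3 * j) * X0 ^ 2 * K2 + sq3 * (j * xi z ^ 3 + xi z))) < A.valuation sq3 := by
  have hX0 := v_X0 (A := A)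
  have h3 := v_three_lt hA
  have hp := v_sq3_pos (A := A)
  have hxi := xi_le hA h
  have hω1 : A.valuation ω ≤ 1 := by
    have e : ω = (ω - 1) + 1 := by ring
    rw [e]
    refine A.valuation.map_add_le hω.le ?_
    rw [map_one]
  have h3j : A.valuation (3 * j) < 1 := by
    rw [map_mul]
    exact mul_lt_one_of_lt_of_le h3 hj
  have hb : A.valuation (ω - 3 * j) ≤ 1 := A.valuation.map_sub_le hω1 h3j.le
  have hX02 : A.valuation (X0 ^ 2 - 1) < 1 := by
    have h1 : A.valuation (X0 + 1) < 1 := by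
      rcases v_X0_add (A := A) with h2 | h2
      · rw [h2]
        exact zero_lt_one
      · by_contra h6
        push Not at h6
        have h7 := one_le_pow₀ h6 (n := 2)
        rw [h2] at h7
        exact absurd h3 (not_lt.2 h7)
    have e : X0 ^ 2 - 1 = (X0 + 1) * (X0 - 1) := by ring
    rw [e, map_mul]
    refine mul_lt_one_of_lt_of_le h1 (A.valuation.map_sub_le hX0.le ?_)
    rw [map_one]
  have hb1 : A.valuation ((ω - 3 * j) * X0 ^ 2 - 1) < 1 := by
    have e : (ω - 3 * j) * X0 ^ 2 - 1 = (ω - 1) * X0 ^ 2 - 3 * j * X0 ^ 2 + (X0 ^ 2 - 1) := by ring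
    rw [e]
    refine A.valuation.map_add_lt (A.valuation.map_sub_lt ?_ ?_) hX02
    · rw [map_mul, map_pow, hX0, one_pow, mul_one]
      exact hω
    · rw [map_mul, map_pow, hX0, one_pow, mul_one]
      exact h3j
  have e : 3 * j / (S3.X z - X0) ^ 3 + 3 * (ω - 3 * j) * X0 ^ 2 / (S3.X z - X0) ^ 2 +
      6 * (ω - j) * X0 / (S3.X z - X0) -
        (j * K3 + (ω - 3 * j) * X0 ^ 2 * K2 + sq3 * (j * xi z ^ 3 + xi z)) =
      j * (3 / (S3.X z - X0) ^ 3 - (K3 + sq3 * xi z ^ 3)) +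
        (ω - 3 * j) * X0 ^ 2 * (3 / (S3.X z - X0) ^ 2 - (K2 + sq3 * xi z)) +
        (ω - j) * X0 * (6 / (S3.X z - X0)) + sq3 * (((ω - 3 * j) * X0 ^ 2 - 1) * xi z) := by
    ring
  rw [e]
  refine A.valuation.map_add_lt (A.valuation.map_add_lt (A.valuation.map_add_lt ?_ ?_) ?_) ?_
  · rw [map_mul]
    exact lt_of_le_of_lt (mul_le_of_le_one_left' hj) (three_div_d3 hA h)
  · rw [map_mul, map_mul, map_pow, hX0, one_pow, mul_one]
    exact lt_of_le_of_lt (mul_le_of_le_one_left' hb) (three_div_d2 hA h)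
  · rw [map_mul, map_mul, hX0, mul_one]
    exact lt_of_le_of_lt (mul_le_of_le_one_left' (A.valuation.map_sub_le hω1 hj)) (six_div_d hA h)
  · rw [map_mul, map_mul]
    calc A.valuation sq3 * (A.valuation ((ω - 3 * j) * X0 ^ 2 - 1) * A.valuation (xi z)) <
          A.valuation sq3 * 1 := mul_lt_mul_of_pos_left (mul_lt_one_of_lt_of_le hb1 hxi) hp
      _ = A.valuation sq3 := mul_one _

end

end

end Pool.Agent.Lib.MP_1a91b9_ntK
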