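import Pool.Agent.Lib.MP_1a91b9_ntK.A.CntC

/-!
# Cubic twists, part A, file Cnt0: the sum of the weights, `k = 0`
-/

set_option autoImplicit false

namespace Pool.Agent.Lib.MP_1a91b9_ntK

open NumberField IsDedekindDomain Pool.Agent.Lib.MP_1a91b9_ntT Pool.Agent.Lib.MP_1a91b9_ntG
open Pool.Agent.Lib.MP_1a91b9_ntH (wO s3 cp Nz card_quot Nz_two_le)

noncomputable section

private theorem Cnt0_cop {p q : P3} (h : p ≠ q) : IsCoprime p.1 q.1 :=
  p.2.1.irreducible.coprime_iff_not_dvd.2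
    (not_dvd3 p.2.1 q.2.1 p.2.2 q.2.2 fun h1 => h (Subtype.ext h1))

private theorem Cnt0_three (q : P3) : IsCoprime q.1 (3 : 𝓞 K) := by
  obtain ⟨t, ht⟩ := q.2.2
  exact ⟨1, -t, by linear_combination ht⟩

/-- simultaneous congruences -/
private theorem Cnt0_crt (S : Finset P3) (a : P3 → 𝓞 K) : ∃ y : 𝓞 K,
    (3 : 𝓞 K) ∣ y - 1 ∧ ∀ q ∈ S, q.1 ∣ y - a q := by
  classical
  induction S using Finset.induction_on with
  | empty => exact ⟨1, by rw [sub_self]; exact dvd_zero _, by simp⟩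
  | insert r S hr ih =>
    obtain ⟨y, h3, hy⟩ := ih
    have hcop : IsCoprime r.1 (3 * ∏ q ∈ S, q.1) :=
      IsCoprime.mul_right (Cnt0_three r) (IsCoprime.prod_right fun q hq =>
        Cnt0_cop (fun h => hr (h ▸ hq)))
    obtain ⟨u, v, huv⟩ := hcop
    refine ⟨y + v * (3 * ∏ q ∈ S, q.1) * (a r - y), ?_, ?_⟩
    · have e : y + v * (3 * ∏ q ∈ S, q.1) * (a r - y) - 1 =
          (y - 1) + 3 * (v * (∏ q ∈ S, q.1) * (a r - y)) := by ring
      rw [e]
      exact dvd_add h3 (dvd_mul_right _ _)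
    · intro q hq
      rcases Finset.mem_insert.1 hq with rfl | hq
      · exact ⟨u * (y - a q), by linear_combination (a q - y) * huv⟩
      · obtain ⟨t, ht⟩ := Finset.dvd_prod_of_mem (fun q : P3 => q.1) hq
        have e : y + v * (3 * ∏ q ∈ S, q.1) * (a r - y) - a q =
            (y - a q) + q.1 * (v * (3 * t) * (a r - y)) := by
          rw [ht]
          ring
        rw [e]
        exact dvd_add (hy q hq) (dvd_mul_right _ _)

/-- the number of the classes -/
theorem cnt0_card {S : Finset P3} {ι : Type} [Fintype ι] {c : ι → 𝓞 K}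
    (hc : RepsG 3 (3 * DD3 S) c) : Fintype.card ι = ∏ q ∈ S, (Nz q.1 - 1) := by
  classical
  have hne0 : ∀ q : P3, Ideal.span {q.1} ≠ ⊥ := fun q => by
    rw [Ne, Ideal.span_singleton_eq_bot]
    exact q.2.1.ne_zero
  have hfin : ∀ q : P3, Finite (𝓞 K ⧸ Ideal.span {q.1}) := fun q =>
    Ideal.finiteQuotientOfFreeOfNeBot _ (hne0 q)
  have hft : ∀ q : P3, Fintype (𝓞 K ⧸ Ideal.span {q.1}) := fun q => Fintype.ofFinite _
  let F : ι → ((q : S) → {x : 𝓞 K ⧸ Ideal.span {q.1.1} // x ≠ 0}) := fun i q =>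
    ⟨Ideal.Quotient.mk _ (c i), fun h => cnt3_not_dvd hc i q.2
      (Ideal.mem_span_singleton.1 (Ideal.Quotient.eq_zero_iff_mem.1 h))⟩
  have hinj : Function.Injective F := by
    intro i j hij
    refine hc.inj i j ?_
    have h3 : (3 : 𝓞 K) ∣ c i - c j := by
      have h := dvd_sub (hc.fx i) (hc.fx j)
      rwa [sub_sub_sub_cancel_right] at h
    have hq : ∀ q ∈ S, q.1 ∣ c i - c j := by
      intro q hq
      have h := congrArg Subtype.val (congrFun hij ⟨q, hq⟩)
      exact Ideal.mem_span_singleton.1 (Ideal.Quotient.eq.1 h)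
    have hD : DD3 S ∣ c i - c j :=
      Finset.prod_dvd_of_coprime (fun p _ q _ h => Cnt0_cop h) hq
    exact IsCoprime.mul_dvd (IsCoprime.prod_right fun q _ => (Cnt0_three q).symm) h3 hD
  have hsur : Function.Surjective F := by
    intro x
    have hl : ∀ q : P3, ∃ a : 𝓞 K, ∀ hq : q ∈ S, Ideal.Quotient.mk (Ideal.span {q.1}) a =
        (x ⟨q, hq⟩).1 := by
      intro q
      by_cases hq : q ∈ S
      · obtain ⟨a, ha⟩ := Ideal.Quotient.mk_surjective (x ⟨q, hq⟩).1
        exact ⟨a, fun _ => ha⟩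
      · exact ⟨0, fun h => absurd h hq⟩
    choose a ha using hl
    obtain ⟨y, h3, hy⟩ := Cnt0_crt S a
    have hyc : IsCoprime y (3 * DD3 S) := by
      refine IsCoprime.mul_right ?_ (IsCoprime.prod_right fun q hq => ?_)
      · obtain ⟨t, ht⟩ := h3
        exact ⟨1, -t, by linear_combination ht⟩
      · refine (q.2.1.irreducible.coprime_iff_not_dvd.2 fun h => ?_).symm
        apply (x ⟨q, hq⟩).2
        rw [← ha q hq, Ideal.Quotient.eq_zero_iff_mem, Ideal.mem_span_singleton]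
        have h1 := dvd_sub h (hy q hq)
        rwa [sub_sub_cancel] at h1
    obtain ⟨i, hi⟩ := hc.ex y hyc h3
    refine ⟨i, ?_⟩
    funext q
    apply Subtype.ext
    obtain ⟨q, hq⟩ := q
    change Ideal.Quotient.mk (Ideal.span {q.1}) (c i) = (x ⟨q, hq⟩).1
    rw [← ha q hq, Ideal.Quotient.eq, Ideal.mem_span_singleton]
    have h1 : q.1 ∣ y - c i :=
      ((Finset.dvd_prod_of_mem (fun q : P3 => q.1) hq).mul_left _).trans hi
    have e : c i - a q = (y - a q) - (y - c i) := by ring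
    rw [e]
    exact dvd_sub (hy q hq) h1
  have hcard := Fintype.card_of_bijective ⟨hinj, hsur⟩
  rw [hcard, Fintype.card_pi, ← Finset.prod_coe_sort S]
  refine Finset.prod_congr rfl fun q _ => ?_
  rw [Fintype.card_subtype, Finset.filter_ne', Finset.card_erase_of_mem (Finset.mem_univ _),
    Finset.card_univ, ← card_quot, Nat.card_eq_fintype_card]

theorem cnt0 (e : P3 → ZMod 3) (S : Finset P3) (he : ∀ q ∈ S, e q ≠ 0) {ι : Type} [Fintype ι]
    {c : ι → 𝓞 K} (hc : RepsG 3 (3 * DD3 S) c) :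
    ∑ i, ∏ q ∈ S, (1 - chq q (e q) (c i)) = ∏ q ∈ S, ((Nz q.1 : ℂ) - 1) := by
  classical
  have h1 : ∀ i, ∏ q ∈ S, (1 - chq q (e q) (c i)) =
      ∑ T ∈ S.powerset, (-1) ^ T.card * ∏ q ∈ T, chq q (e q) (c i) := by
    intro i
    rw [Finset.prod_sub]
    exact Finset.sum_congr rfl fun T _ => by rw [Finset.prod_const_one, mul_one]
  rw [Finset.sum_congr rfl fun i _ => h1 i, Finset.sum_comm,
    Finset.sum_eq_single_of_mem ∅ (Finset.empty_mem_powerset S)]
  · simp only [Finset.card_empty, pow_zero, Finset.prod_empty, mul_one, Finset.sum_const,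
      Finset.card_univ, nsmul_eq_mul]
    rw [cnt0_card hc]
    push_cast
    refine Finset.prod_congr rfl fun q _ => ?_
    rw [Nat.cast_sub (le_trans (by norm_num) (Nz_two_le q.2.1))]
    norm_num
  · intro T hT hne
    rw [← Finset.mul_sum, cnt3_chq hc e (Finset.mem_powerset.1 hT)
      (Finset.nonempty_iff_ne_empty.2 hne) (fun q hq => he q (Finset.mem_powerset.1 hT hq)),
      mul_zero]

end

end Pool.Agent.Lib.MP_1a91b9_ntK
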