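import Mathlib.LinearAlgebra.Matrix.Block
import Mathlib.LinearAlgebra.Matrix.Adjugate
import Mathlib.Algebra.DualNumber
import Mathlib.Tactic

/-!
# MP_1a91b9_nt (cubic twists), part A, file Forest: the forest identity

For the matrices `N κ T` (`T` a finite set) with `N_ii = κ i + ∑ (p ∈ T, p ≠ i) s i p`, `N_ij = - s i j`:
`∑ (T ⊆ S) (-1) ^ #T det (N κ T) ∏ (q ∈ S \ T) (κ q + ∑ (p ∈ T) s q p) = 0` if `S` is not empty. (Both sides count
forests; the proof is by induction: the sum is affine in each `κ r`, the slope is the difference of two sums for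
`S.erase r`, and at `κ = 0` every term vanishes.)
-/

set_option autoImplicit false

namespace Pool.Agent.Lib.MP_1a91b9_ntK

open Finset

variable {ι R : Type*} [DecidableEq ι] [CommRing R]

/-- the matrix `N κ T` -/
def NM (s : ι → ι → R) (κ : ι → R) (T : Finset ι) : Matrix T T R := fun i j =>
  if i = j then κ i + ∑ p ∈ T.erase i, s i p else -s i j

theorem NM_congr (s : ι → ι → R) {κ κ' : ι → R} {T : Finset ι} (h : ∀ i ∈ T, κ i = κ' i) :
    NM s κ T = NM s κ' T := by
  ext i j
  simp only [NM, h i i.2]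

theorem NM_empty (s : ι → ι → R) (κ : ι → R) : (NM s κ ∅).det = 1 := Matrix.det_isEmpty

private theorem Forest_one {m : Type*} (_ : Fintype m) (_ : DecidableEq m) (A : Matrix m m R)
    (k : m) (h : ∀ x, x = k) : A.det = A k k := by
  have : Subsingleton m := ⟨fun x y => (h x).trans (h y).symm⟩
  exact Matrix.det_eq_elem_of_subsingleton A k

/-- a diagonal entry of the adjugate is a determinant of the same form -/
theorem NM_row (s : ι → ι → R) (κ : ι → R) {T : Finset ι} {r : ι} (hr : r ∈ T) (c : R) :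
    ((NM s κ T).updateRow ⟨r, hr⟩ (Pi.single ⟨r, hr⟩ c)).det =
      c * (NM s (fun p => κ p + s p r) (T.erase r)).det := by
  classical
  rw [Matrix.twoBlockTriangular_det' _ (fun x : T => x = ⟨r, hr⟩)]
  · congr 1
    · refine (@Forest_one R _ _ _ _ _ (⟨⟨r, hr⟩, rfl⟩ : {x : T // x = ⟨r, hr⟩})
        (fun x => Subtype.ext x.2)).trans ?_
      simp only [Matrix.toSquareBlockProp_def, Matrix.of_apply, Matrix.updateRow_self,
        Pi.single_eq_same]
    · let e : ↥(T.erase r) ≃ {x : T // ¬ x = ⟨r, hr⟩} :=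
        { toFun := fun x => ⟨⟨x, mem_of_mem_erase x.2⟩, fun h =>
            (mem_erase.1 x.2).1 (congrArg Subtype.val h)⟩
          invFun := fun x => ⟨x.1, mem_erase.2 ⟨fun h => x.2 (Subtype.ext h), x.1.2⟩⟩
          left_inv := fun x => rfl
          right_inv := fun x => rfl }
      rw [← Matrix.det_submatrix_equiv_self e]
      congr 1
      ext i j
      have hi : (i : ι) ≠ r := (mem_erase.1 i.2).1
      have hj : (j : ι) ≠ r := (mem_erase.1 j.2).1
      have h1 : (⟨(i : ι), mem_of_mem_erase i.2⟩ : T) ≠ ⟨r, hr⟩ := fun h =>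
        hi (congrArg Subtype.val h)
      simp only [Matrix.submatrix_apply, Matrix.toSquareBlockProp_def, Matrix.of_apply, e,
        Equiv.coe_fn_mk, Matrix.updateRow_ne h1]
      simp only [NM]
      by_cases hij : i = j
      · subst hij
        simp only [if_true]
        have h2 : T.erase (i : ι) = insert r ((T.erase r).erase (i : ι)) := by
          ext x
          simp only [mem_erase, mem_insert]
          constructor
          · rintro ⟨h3, h4⟩
            by_cases h5 : x = r
            · exact Or.inl h5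
            · exact Or.inr ⟨h3, h5, h4⟩
          · rintro (rfl | ⟨h3, -, h4⟩)
            · exact ⟨fun h => hi h.symm, hr⟩
            · exact ⟨h3, h4⟩
        rw [h2, sum_insert (by simp)]
        ring
      · have h2 : ¬ (⟨(i : ι), mem_of_mem_erase i.2⟩ : T) = ⟨(j : ι), mem_of_mem_erase j.2⟩ :=
          fun h => hij (Subtype.ext (Subtype.mk.inj h))
        rw [if_neg h2, if_neg hij]
  · intro i hi j hj
    subst hi
    rw [Matrix.updateRow_self]
    exact Pi.single_eq_of_ne hj _

theorem NM_adj (s : ι → ι → R) (κ : ι → R) {T : Finset ι} {r : ι} (hr : r ∈ T) :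
    (NM s κ T).adjugate ⟨r, hr⟩ ⟨r, hr⟩ =
      (NM s (fun p => κ p + s p r) (T.erase r)).det := by
  rw [Matrix.adjugate_apply, NM_row s κ hr 1, one_mul]

/-- the deletion formula -/
theorem NM_update (s : ι → ι → R) (κ : ι → R) {T : Finset ι} {r : ι} (hr : r ∈ T) (c : R) :
    (NM s (Function.update κ r (κ r + c)) T).det =
      (NM s κ T).det + c * (NM s (fun p => κ p + s p r) (T.erase r)).det := by
  classical
  have e1 : NM s (Function.update κ r (κ r + c)) T =
      (NM s κ T).updateRow ⟨r, hr⟩ (NM s κ T ⟨r, hr⟩ + Pi.single ⟨r, hr⟩ c) := by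
    ext i j
    rw [Matrix.updateRow_apply]
    split_ifs with h
    · subst h
      by_cases hj : (⟨r, hr⟩ : T) = j
      · subst hj
        simp only [NM, if_true, Function.update_self, Pi.add_apply, Pi.single_eq_same]
        ring
      · simp only [NM, if_neg hj, Pi.add_apply, Pi.single_eq_of_ne (Ne.symm hj), add_zero]
    · have hi : (i : ι) ≠ r := fun h' => h (Subtype.ext h')
      simp only [NM, Function.update_of_ne hi]
  rw [e1, Matrix.det_updateRow_add, Matrix.updateRow_eq_self, NM_row s κ hr c]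

/-- the Laplacian has determinant `0` -/
theorem NM_zero (s : ι → ι → R) {κ : ι → R} {T : Finset ι} (hT : T.Nonempty)
    (h : ∀ i ∈ T, κ i = 0) : (NM s κ T).det = 0 := by
  classical
  have h1 : (NM s κ T).mulVec (fun _ => 1) = 0 := by
    ext i
    simp only [Matrix.mulVec, dotProduct, mul_one, Pi.zero_apply]
    rw [← add_sum_erase univ _ (mem_univ i)]
    have h2 : NM s κ T i i = ∑ p ∈ T.erase i, s i p := by
      simp only [NM, if_true, h i i.2, zero_add]
    have h3 : ∑ j ∈ univ.erase i, NM s κ T i j = -∑ p ∈ T.erase i, s i p := by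
      rw [← sum_neg_distrib]
      refine sum_nbij (fun j => (j : ι)) ?_ ?_ ?_ ?_
      · intro j hj
        exact mem_erase.2 ⟨fun h' => (mem_erase.1 hj).1 (Subtype.ext h'), j.2⟩
      · intro a _ b _ hab
        exact Subtype.ext hab
      · intro p hp
        have hp' := mem_erase.1 (mem_coe.1 hp)
        refine ⟨⟨p, hp'.2⟩, ?_, rfl⟩
        exact mem_coe.2 (mem_erase.2 ⟨fun h' => hp'.1 (congrArg Subtype.val h'), mem_univ _⟩)
      · intro j hj
        have : i ≠ j := fun h' => (mem_erase.1 hj).1 h'.symm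
        simp only [NM, if_neg this]
    rw [h2, h3, add_neg_cancel]
  have h2 := congrArg (NM s κ T).adjugate.mulVec h1
  rw [Matrix.mulVec_mulVec, Matrix.adjugate_mul, Matrix.mulVec_zero, Matrix.smul_mulVec,
    Matrix.one_mulVec] at h2
  obtain ⟨i, hi⟩ := hT
  have h3 := congrFun h2 ⟨i, hi⟩
  simpa using h3

/-- the sum -/
def GF (s : ι → ι → R) (κ : ι → R) (S : Finset ι) : R :=
  ∑ T ∈ S.powerset, (-1) ^ T.card * (NM s κ T).det * ∏ q ∈ S \ T, (κ q + ∑ p ∈ T, s q p)

theorem GF_empty (s : ι → ι → R) (κ : ι → R) : GF s κ ∅ = 1 := by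
  rw [GF, powerset_empty, sum_singleton, NM_empty]
  simp

theorem GF_update (s : ι → ι → R) (κ : ι → R) {S : Finset ι} {r : ι} (hr : r ∉ S) (c : R) :
    GF s (Function.update κ r (κ r + c)) (insert r S) =
      GF s κ (insert r S) + c * (GF s κ S - GF s (fun p => κ p + s p r) S) := by
  classical
  simp only [GF]
  rw [sum_powerset_insert hr, sum_powerset_insert hr, mul_sub, mul_sum, mul_sum]
  have key1 : ∀ T ∈ S.powerset,
      (-1) ^ T.card * (NM s (Function.update κ r (κ r + c)) T).det *
        ∏ q ∈ insert r S \ T, (Function.update κ r (κ r + c) q + ∑ p ∈ T, s q p) =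
      (-1) ^ T.card * (NM s κ T).det * ∏ q ∈ insert r S \ T, (κ q + ∑ p ∈ T, s q p) +
      c * ((-1) ^ T.card * (NM s κ T).det * ∏ q ∈ S \ T, (κ q + ∑ p ∈ T, s q p)) := by
    intro T hT
    have hT' := mem_powerset.1 hT
    have hrT : r ∉ T := fun h => hr (hT' h)
    have e1 : NM s (Function.update κ r (κ r + c)) T = NM s κ T :=
      NM_congr s fun i hi => Function.update_of_ne (fun h => hrT (by rw [← h]; exact hi)) _ _
    have e2 : insert r S \ T = insert r (S \ T) := insert_sdiff_of_notMem _ hrT
    have hr' : r ∉ S \ T := fun h => hr (mem_sdiff.1 h).1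
    rw [e1, e2, prod_insert hr', prod_insert hr', Function.update_self]
    have e3 : ∏ q ∈ S \ T, (Function.update κ r (κ r + c) q + ∑ p ∈ T, s q p) =
        ∏ q ∈ S \ T, (κ q + ∑ p ∈ T, s q p) := by
      refine prod_congr rfl fun q hq => ?_
      rw [Function.update_of_ne (fun h => hr' (by rw [← h]; exact hq))]
    rw [e3]
    ring
  have key2 : ∀ T ∈ S.powerset,
      (-1) ^ (insert r T).card * (NM s (Function.update κ r (κ r + c)) (insert r T)).det *
        ∏ q ∈ insert r S \ insert r T,
          (Function.update κ r (κ r + c) q + ∑ p ∈ insert r T, s q p) =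
      (-1) ^ (insert r T).card * (NM s κ (insert r T)).det *
        ∏ q ∈ insert r S \ insert r T, (κ q + ∑ p ∈ insert r T, s q p) -
      c * ((-1) ^ T.card * (NM s (fun p => κ p + s p r) T).det *
        ∏ q ∈ S \ T, (κ q + s q r + ∑ p ∈ T, s q p)) := by
    intro T hT
    have hT' := mem_powerset.1 hT
    have hrT : r ∉ T := fun h => hr (hT' h)
    have e2 : insert r S \ insert r T = S \ T := by
      ext x
      simp only [mem_sdiff, mem_insert, not_or]
      constructor
      · rintro ⟨h1 | h1, h2, h3⟩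
        · exact absurd h1 h2
        · exact ⟨h1, h3⟩
      · rintro ⟨h1, h2⟩
        exact ⟨Or.inr h1, fun h => hr (h ▸ h1), h2⟩
    have hr' : r ∉ S \ T := fun h => hr (mem_sdiff.1 h).1
    have e3 : ∏ q ∈ S \ T, (Function.update κ r (κ r + c) q + ∑ p ∈ insert r T, s q p) =
        ∏ q ∈ S \ T, (κ q + s q r + ∑ p ∈ T, s q p) := by
      refine prod_congr rfl fun q hq => ?_
      rw [Function.update_of_ne (fun h => hr' (by rw [← h]; exact hq)), sum_insert hrT]
      ring
    have e4 : ∏ q ∈ S \ T, (κ q + ∑ p ∈ insert r T, s q p) =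
        ∏ q ∈ S \ T, (κ q + s q r + ∑ p ∈ T, s q p) := by
      refine prod_congr rfl fun q hq => ?_
      rw [sum_insert hrT]
      ring
    rw [e2, e3, e4, NM_update s κ (mem_insert_self r T), erase_insert hrT, card_insert_of_notMem hrT]
    ring
  rw [sum_congr rfl key1, sum_congr rfl key2, sum_add_distrib, sum_sub_distrib]
  ring

theorem GF_congr (s : ι → ι → R) {κ κ' : ι → R} {S : Finset ι} (h : ∀ i ∈ S, κ i = κ' i) :
    GF s κ S = GF s κ' S := by
  refine sum_congr rfl fun T hT => ?_
  have hT' := mem_powerset.1 hT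
  rw [NM_congr s fun i hi => h i (hT' hi)]
  congr 1
  refine prod_congr rfl fun q hq => ?_
  rw [h q (mem_sdiff.1 hq).1]

/-- **The forest identity.** -/
theorem forest (s : ι → ι → R) (κ : ι → R) {S : Finset ι} (hS : S.Nonempty) :
    ∑ T ∈ S.powerset, (-1) ^ T.card * (NM s κ T).det * ∏ q ∈ S \ T, (κ q + ∑ p ∈ T, s q p) = 0 := by
  classical
  change GF s κ S = 0
  induction S using Finset.strongInduction generalizing κ with
  | H S ih =>
    -- the sum does not depend on `κ`
    have h1 : ∀ (κ : ι → R) (r : ι) (c : R), r ∈ S → GF s (Function.update κ r (κ r + c)) S =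
        GF s κ S := by
      intro κ r c hr
      have hS' : insert r (S.erase r) = S := insert_erase hr
      have h2 := GF_update s κ (notMem_erase r S) c
      rw [hS'] at h2
      rw [h2]
      rcases (S.erase r).eq_empty_or_nonempty with h3 | h3
      · rw [h3, GF_empty, GF_empty, sub_self, mul_zero, add_zero]
      · rw [ih (S.erase r) (erase_ssubset hr) κ h3,
          ih (S.erase r) (erase_ssubset hr) (fun p => κ p + s p r) h3, sub_self, mul_zero, add_zero]
    have h2 : ∀ A : Finset ι, A ⊆ S → GF s (fun q => if q ∈ A then 0 else κ q) S = GF s κ S := by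
      intro A
      induction A using Finset.induction_on with
      | empty => intro _; simp
      | insert a A ha ih2 =>
        intro hA
        rw [← ih2 ((subset_insert a A).trans hA)]
        have h3 := h1 (fun q => if q ∈ A then 0 else κ q) a (-κ a) (hA (mem_insert_self a A))
        rw [← h3]
        congr 1
        ext q
        by_cases hq : q = a
        · subst hq
          simp [ha]
        · rw [Function.update_of_ne hq]
          simp [mem_insert, hq]
    rw [← h2 S subset_rfl]
    refine sum_eq_zero fun T hT => ?_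
    rcases T.eq_empty_or_nonempty with rfl | hT0
    · obtain ⟨a, ha⟩ := hS
      have h3 : ∏ q ∈ S \ ∅, ((if q ∈ S then 0 else κ q) + ∑ p ∈ (∅ : Finset ι), s q p) = 0 :=
        prod_eq_zero (i := a) (by simpa using ha) (by simp [ha])
      rw [h3, mul_zero]
    · have h3 : (NM s (fun q => if q ∈ S then 0 else κ q) T).det = 0 :=
        NM_zero s hT0 fun i hi => if_pos ((mem_powerset.1 hT) hi)
      rw [h3, mul_zero, zero_mul]

/-! ### Uniqueness -/

/-- two solutions of a triangular recursion agree -/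
theorem tri_unique {c : Finset ι → Finset ι → R} (hc : ∀ S, c S S = 1) {ν ν' : Finset ι → R}
    {D : Finset ι} (h : ∀ S ⊆ D, S.Nonempty →
      ∑ T ∈ S.powerset.erase ∅, (-1) ^ T.card * ν T * c S T =
        ∑ T ∈ S.powerset.erase ∅, (-1) ^ T.card * ν' T * c S T) :
    ∀ S ⊆ D, S.Nonempty → ν S = ν' S := by
  classical
  intro S
  induction S using Finset.strongInduction with
  | H S ih =>
    intro hS hS0
    have hm : S ∈ S.powerset.erase ∅ := mem_erase.2 ⟨hS0.ne_empty, mem_powerset_self S⟩
    have h1 := h S hS hS0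
    rw [← add_sum_erase _ _ hm, ← add_sum_erase _ _ hm, hc] at h1
    have h2 : ∑ T ∈ (S.powerset.erase ∅).erase S, (-1) ^ T.card * ν T * c S T =
        ∑ T ∈ (S.powerset.erase ∅).erase S, (-1) ^ T.card * ν' T * c S T := by
      refine sum_congr rfl fun T hT => ?_
      have hT1 := mem_erase.1 hT
      have hT2 := mem_erase.1 hT1.2
      have hT3 := mem_powerset.1 hT2.2
      rw [ih T (hT3.ssubset_of_ne hT1.1) (hT3.trans hS) (nonempty_iff_ne_empty.2 hT2.1)]
    rw [h2, mul_one, mul_one] at h1
    have h3 := add_right_cancel h1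
    have h4 : ((-1 : R) ^ S.card) * (-1) ^ S.card = 1 := by
      rw [← mul_pow]
      norm_num
    linear_combination (-1) ^ S.card * h3 - (ν S - ν' S) * h4

/-- **Uniqueness**: the recursion determines the family from its value at `∅`. -/
theorem forest_unique (m : ι → ι → R) (κ : ι → R) {ν : Finset ι → R} {D : Finset ι}
    (h : ∀ S ⊆ D, S.Nonempty →
      ∑ T ∈ S.powerset, (-1) ^ T.card * ν T * ∏ q ∈ S \ T, (κ q + ∑ p ∈ T, m q p) = 0) :
    ∀ S ⊆ D, ν S = ν ∅ * (NM m κ S).det := by
  classical
  intro S hS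
  rcases S.eq_empty_or_nonempty with rfl | hS0
  · rw [NM_empty, mul_one]
  refine tri_unique (c := fun S T => ∏ q ∈ S \ T, (κ q + ∑ p ∈ T, m q p))
    (ν' := fun T => ν ∅ * (NM m κ T).det) (by simp) (D := D) ?_ S hS hS0
  intro S hS hS0
  have h1 := h S hS hS0
  have h2 := forest m κ hS0
  have hm : ∅ ∈ S.powerset := empty_mem_powerset S
  rw [← add_sum_erase _ _ hm] at h1 h2
  rw [NM_empty] at h2
  have h3 : ∑ T ∈ S.powerset.erase ∅, (-1) ^ T.card * (ν ∅ * (NM m κ T).det) *
      ∏ q ∈ S \ T, (κ q + ∑ p ∈ T, m q p) =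
      ν ∅ * ∑ T ∈ S.powerset.erase ∅, (-1) ^ T.card * (NM m κ T).det *
        ∏ q ∈ S \ T, (κ q + ∑ p ∈ T, m q p) := by
    rw [mul_sum]
    exact sum_congr rfl fun T _ => by ring
  rw [h3]
  linear_combination h1 - ν ∅ * h2

/-! ### The case `κ = 0` -/

private theorem Forest_prod (c : R) {α : Type*} (A : Finset α) {f g : α → R}
    (h : ∀ a ∈ A, c * f a = c * g a) : c * ∏ a ∈ A, f a = c * ∏ a ∈ A, g a := by
  classical
  induction A using Finset.induction_on with
  | empty => simp
  | insert a A ha ih =>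
    rw [prod_insert ha, prod_insert ha]
    have h1 := ih fun b hb => h b (mem_insert_of_mem hb)
    have h2 := h a (mem_insert_self a A)
    linear_combination (∏ a ∈ A, f a) * h2 + g a * h1

private theorem Forest_det (c : R) {α : Type*} [Fintype α] [DecidableEq α] {M M' : Matrix α α R}
    (h : ∀ i j, c * M i j = c * M' i j) : c * M.det = c * M'.det := by
  rw [Matrix.det_apply, Matrix.det_apply, mul_sum, mul_sum]
  refine sum_congr rfl fun σ _ => ?_
  rw [mul_smul_comm, mul_smul_comm, Forest_prod c univ fun a _ => h _ _]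

/-- the coefficient of `x` in `det (N + x diag (a))`, `N = NM m 0 T` -/
def CZ (m : ι → ι → R) (a : ι → R) (T : Finset ι) : R :=
  ∑ r : T, a r * (NM m 0 T).adjugate r r

theorem CZ_eq (m : ι → ι → R) (a : ι → R) (T : Finset ι) :
    CZ m a T = ∑ r ∈ T, a r * (NM m (fun p => m p r) (T.erase r)).det := by
  classical
  rw [CZ, ← sum_coe_sort T (fun r => a r * (NM m (fun p => m p r) (T.erase r)).det)]
  refine sum_congr rfl fun r _ => ?_
  have h := NM_adj m 0 r.2
  simp only [Pi.zero_apply, zero_add, Subtype.coe_eta] at h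
  rw [h]

/-- if all products of two of the `κ i` vanish then the determinant is affine in `κ` -/
theorem NM_first (m : ι → ι → R) {κ : ι → R} (hκ : ∀ i j, κ i * κ j = 0) (T : Finset ι) :
    (NM m κ T).det = (NM m 0 T).det + CZ m κ T := by
  classical
  rw [CZ_eq]
  have key : ∀ A : Finset ι, A ⊆ T → (NM m (fun q => if q ∈ A then κ q else 0) T).det =
      (NM m 0 T).det + ∑ r ∈ A, κ r * (NM m (fun p => m p r) (T.erase r)).det := by
    intro A
    induction A using Finset.induction_on with
    | empty =>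
      intro _
      rw [sum_empty, add_zero]
      rfl
    | insert r A hr ih =>
      intro hA
      have hrT := hA (mem_insert_self r A)
      have e : (fun q => if q ∈ insert r A then κ q else 0) =
          Function.update (fun q => if q ∈ A then κ q else 0) r
            ((fun q => if q ∈ A then κ q else 0) r + κ r) := by
        ext q
        by_cases hq : q = r
        · subst hq
          simp [hr]
        · rw [Function.update_of_ne hq]
          simp [mem_insert, hq]
      rw [e, NM_update m _ hrT, ih ((subset_insert r A).trans hA), sum_insert hr]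
      have h1 : κ r * (NM m (fun p => (if p ∈ A then κ p else 0) + m p r) (T.erase r)).det =
          κ r * (NM m (fun p => m p r) (T.erase r)).det := by
        refine Forest_det (κ r) fun i j => ?_
        by_cases hij : i = j
        · subst hij
          simp only [NM, if_true]
          split_ifs
          · linear_combination hκ r i
          · ring
        · simp only [NM, if_neg hij]
      rw [h1]
      ring
  rw [← key T subset_rfl]
  congr 1
  refine NM_congr m fun i hi => ?_
  rw [if_pos hi]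

private theorem Forest_map {R' : Type*} [CommRing R'] (f : R →+* R') (m : ι → ι → R) (κ : ι → R)
    (T : Finset ι) : (NM (fun i j => f (m i j)) (fun i => f (κ i)) T) = f.mapMatrix (NM m κ T) := by
  ext i j
  rw [RingHom.mapMatrix_apply, Matrix.map_apply]
  simp only [NM]
  split_ifs
  · rw [map_add, map_sum]
  · rw [map_neg]

/-- **The forest identity for `κ = 0`.** -/
theorem forest_zero (m : ι → ι → R) (a : ι → R) {S : Finset ι} (hS : S.Nonempty) :
    ∑ T ∈ S.powerset.erase ∅, (-1) ^ T.card * CZ m a T * ∏ q ∈ S \ T, ∑ p ∈ T, m q p =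
      if S.card = 1 then -∑ q ∈ S, a q else 0 := by
  classical
  let f : R →+* DualNumber R := TrivSqZeroExt.inlHom R R
  have hf : ∀ x : R, f x = TrivSqZeroExt.inl x := fun _ => rfl
  have hκ : ∀ i j : ι, (TrivSqZeroExt.inr (a i) : DualNumber R) * TrivSqZeroExt.inr (a j) = 0 :=
    fun i j => TrivSqZeroExt.inr_mul_inr _ _ _
  have h1 := forest (fun i j => f (m i j)) (fun i => (TrivSqZeroExt.inr (a i) : DualNumber R)) hS
  have h2 := congrArg TrivSqZeroExt.snd h1
  have hm : ∅ ∈ S.powerset := empty_mem_powerset S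
  rw [← add_sum_erase _ _ hm, TrivSqZeroExt.snd_add, TrivSqZeroExt.snd_zero, ] at h2
  have hsnd : ∀ (B : Finset (Finset ι)) (g : Finset ι → DualNumber R),
      (∑ T ∈ B, g T).snd = ∑ T ∈ B, (g T).snd := fun B g => by
    exact map_sum (TrivSqZeroExt.sndHom R R) g B
  rw [hsnd] at h2
  have h3 : ∀ T ∈ S.powerset.erase ∅, ((-1) ^ T.card *
      (NM (fun i j => f (m i j)) (fun i => (TrivSqZeroExt.inr (a i) : DualNumber R)) T).det *
      ∏ q ∈ S \ T, (TrivSqZeroExt.inr (a q) + ∑ p ∈ T, f (m q p))).snd =
      (-1) ^ T.card * CZ m a T * ∏ q ∈ S \ T, ∑ p ∈ T, m q p := by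
    intro T hT
    have hT1 := mem_erase.1 hT
    have hT0 : T.Nonempty := nonempty_iff_ne_empty.2 hT1.1
    rw [NM_first _ hκ, NM_zero (κ := 0) _ hT0 (fun _ _ => rfl), zero_add]
    have h4 : CZ (fun i j => f (m i j)) (fun i => (TrivSqZeroExt.inr (a i) : DualNumber R)) T =
        TrivSqZeroExt.inr (CZ m a T) := by
      rw [CZ_eq, CZ_eq]
      have h5 : ∀ r ∈ T, (TrivSqZeroExt.inr (a r) : DualNumber R) *
          (NM (fun i j => f (m i j)) (fun p => f (m p r)) (T.erase r)).det =
          TrivSqZeroExt.inr (a r * (NM m (fun p => m p r) (T.erase r)).det) := by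
        intro r _
        rw [Forest_map f m (fun p => m p r), ← RingHom.map_det, hf, TrivSqZeroExt.inr_mul_inl]
        simp
      rw [sum_congr rfl h5]
      exact (map_sum (TrivSqZeroExt.inrHom R R) _ _).symm
    have h6 : ∏ q ∈ S \ T, ((TrivSqZeroExt.inr (a q) : DualNumber R) + ∑ p ∈ T, f (m q p)) =
        TrivSqZeroExt.inl (∏ q ∈ S \ T, ∑ p ∈ T, m q p) +
          TrivSqZeroExt.inr ((∏ q ∈ S \ T,
            ((TrivSqZeroExt.inr (a q) : DualNumber R) + ∑ p ∈ T, f (m q p))).snd) := by
      conv_lhs => rw [← TrivSqZeroExt.inl_fst_add_inr_snd_eq (∏ q ∈ S \ T,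
        ((TrivSqZeroExt.inr (a q) : DualNumber R) + ∑ p ∈ T, f (m q p)))]
      congr 2
      have h7 := map_prod (TrivSqZeroExt.fstHom R R R) (fun q =>
        (TrivSqZeroExt.inr (a q) : DualNumber R) + ∑ p ∈ T, f (m q p)) (S \ T)
      refine h7.trans (prod_congr rfl fun q _ => ?_)
      rw [map_add, map_sum]
      simp [hf]
    have h8 : ((-1 : DualNumber R)) ^ T.card = TrivSqZeroExt.inl ((-1) ^ T.card) := by
      rw [← hf, map_pow, map_neg, map_one]
    rw [h4, h6, h8]
    simp [mul_comm, mul_add]
    ring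
  rw [sum_congr rfl h3, card_empty, pow_zero, one_mul, NM_empty, one_mul, sdiff_empty] at h2
  have h9 : (∏ q ∈ S, ((TrivSqZeroExt.inr (a q) : DualNumber R) + ∑ p ∈ (∅ : Finset ι), f (m q p))).snd =
      if S.card = 1 then ∑ q ∈ S, a q else 0 := by
    simp only [sum_empty, add_zero]
    split_ifs with h10
    · obtain ⟨q, rfl⟩ := card_eq_one.1 h10
      simp
    · have h11 : 2 ≤ S.card := by
        have := hS.card_pos
        omega
      obtain ⟨q, hq, q', hq', hne⟩ := one_lt_card.1 h11
      rw [← mul_prod_erase _ _ hq, ← mul_prod_erase _ _ (mem_erase.2 ⟨hne.symm, hq'⟩), ← mul_assoc,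
        hκ, zero_mul, TrivSqZeroExt.snd_zero]
  rw [h9] at h2
  split_ifs at h2 ⊢ with h10
  · linear_combination h2
  · linear_combination h2

/-- **Uniqueness for `κ = 0`.** -/
theorem forest_zero_unique (m : ι → ι → R) (a : ι → R) {ν : Finset ι → R} {D : Finset ι}
    (h : ∀ S ⊆ D, S.Nonempty →
      ∑ T ∈ S.powerset.erase ∅, (-1) ^ T.card * ν T * ∏ q ∈ S \ T, ∑ p ∈ T, m q p =
        if S.card = 1 then -∑ q ∈ S, a q else 0) :
    ∀ S ⊆ D, S.Nonempty → ν S = CZ m a S := by
  classical
  refine tri_unique (c := fun S T => ∏ q ∈ S \ T, ∑ p ∈ T, m q p) (by simp) ?_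
  intro S hS hS0
  rw [h S hS hS0, forest_zero m a hS0]

/-! ### The form with exponents -/

/-- the matrix with exponents `e` -/
def NE (s : ι → ι → R) (κ e : ι → R) (T : Finset ι) : Matrix T T R := fun i j =>
  if i = j then e i * κ i + ∑ p ∈ T.erase i, s i p * (e i * e p) else -s i j

theorem NM_eq_NE (s : ι → ι → R) (κ e : ι → R) (T : Finset ι) (he : ∀ i ∈ T, e i * e i = 1) :
    NM (fun i p => s i p * e p) κ T = NE s κ e T * Matrix.diagonal (fun i : T => e i) := by
  classical
  ext i j
  rw [Matrix.mul_diagonal]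
  by_cases h : i = j
  · subst h
    simp only [NM, NE, if_true]
    have h1 : ∑ p ∈ T.erase i, s i p * (e i * e p) = e i * ∑ p ∈ T.erase i, s i p * e p := by
      rw [mul_sum]
      exact sum_congr rfl fun p _ => by ring
    rw [h1]
    linear_combination -(κ i + ∑ p ∈ T.erase i, s i p * e p) * he i i.2
  · simp only [NM, NE, if_neg h]
    ring

theorem NM_det_NE (s : ι → ι → R) (κ e : ι → R) (T : Finset ι) (he : ∀ i ∈ T, e i * e i = 1) :
    (NM (fun i p => s i p * e p) κ T).det = (∏ i ∈ T, e i) * (NE s κ e T).det := by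
  rw [NM_eq_NE s κ e T he, Matrix.det_mul, Matrix.det_diagonal, mul_comm]
  congr 1
  exact prod_coe_sort T e

/-- **The forest identity with exponents.** -/
theorem forest_exp (s : ι → ι → R) (κ e : ι → R) {S : Finset ι} (hS : S.Nonempty)
    (he : ∀ i ∈ S, e i * e i = 1) :
    ∑ T ∈ S.powerset, (-1) ^ T.card * ((∏ q ∈ T, e q) * (NE s κ e T).det) *
      ∏ q ∈ S \ T, (κ q + ∑ p ∈ T, s q p * e p) = 0 := by
  classical
  rw [← forest (fun i p => s i p * e p) κ hS]
  refine sum_congr rfl fun T hT => ?_
  rw [NM_det_NE s κ e T fun i hi => he i ((mem_powerset.1 hT) hi)]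

/-- the coefficient of `x` in `(∏ e) det (N + x diag (e a))`, `N = NE s 0 e T` -/
theorem CZ_NE (s : ι → ι → R) (a e : ι → R) (T : Finset ι) (he : ∀ i ∈ T, e i * e i = 1) :
    CZ (fun i p => s i p * e p) a T =
      (∏ i ∈ T, e i) * ∑ r : T, e r * a r * (NE s 0 e T).adjugate r r := by
  classical
  have h1 : (NM (fun i p => s i p * e p) 0 T).adjugate =
      Matrix.diagonal (fun i : T => (∏ j ∈ T, e j) * e i) * (NE s 0 e T).adjugate := by
    rw [NM_eq_NE s 0 e T he, Matrix.adjugate_mul_distrib]
    congr 1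
    rw [Matrix.adjugate_diagonal]
    congr 1
    ext i
    have h2 : ∏ j ∈ T, e j = e i * ∏ j ∈ univ.erase i, e (j : ι) := by
      rw [← prod_coe_sort T e, mul_prod_erase univ (fun j : T => e j) (mem_univ i)]
    rw [h2]
    linear_combination -(∏ j ∈ univ.erase i, e (j : ι)) * he i i.2
  rw [CZ, h1, mul_sum]
  refine sum_congr rfl fun r _ => ?_
  rw [Matrix.diagonal_mul]
  ring

end Pool.Agent.Lib.MP_1a91b9_ntK
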