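import Pool.Agent.Lib.MP_1a91b9_ntK.A.Res
import Pool.Agent.Lib.MP_1a91b9_ntH.A.Half
import Pool.Agent.Lib.MP_1a91b9_ntT.D3.Tors
import Pool.Agent.Lib.MP_1a91b9_ntT.Rq.Act

/-!
# Cubic twists, part A, file Good: multiplication by `√-3`, points with `X = -1` at a place above `3`

`T0 = 1 / √-3`, `PhiK z = E1 z + ω E1 (z + T0) + ω² E1 (z - T0) = -Ω (Y z + y0 √-3) / (2 X z)`, and its residue at a place above `3`
for the points `z` whose `3`-order is exactly `√-3 ^ 3`: `PhiK z / kaK = 1`.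
-/

set_option autoImplicit false

namespace Pool.Agent.Lib.MP_1a91b9_ntK

open NumberField IsDedekindDomain Pool.Agent.Lib.MP_1a91b9_ntT Pool.Agent.Lib.MP_1a91b9_ntG
  Pool.Agent.Lib.MP_1a91b9_ntH

noncomputable section

/-! ### The element `√-3` -/

theorem em_s3 : em s3 = 1 + 2 * zt := by
  have h := emb_coords 1 2
  have e : (((1 : ℤ) : 𝓞 K) + ((2 : ℤ) : 𝓞 K) * wO) = s3 := by
    rw [s3]
    push_cast
    ring
  rw [e] at h
  refine h.trans ?_
  push_cast
  rfl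

/-- `√-3` in `ℂ` -/
def sq3 : ℂ := 1 + 2 * zt

theorem sq3_sq : sq3 ^ 2 = -3 := by
  rw [sq3]
  linear_combination 4 * S3.zt_quad

theorem sq3_ne : sq3 ≠ 0 := by
  intro h
  have h1 := sq3_sq
  rw [h] at h1
  norm_num at h1

theorem s3_mul_mem {z : ℂ} (h : z ∈ PP.lattice) : sq3 * z ∈ PP.lattice := by
  rw [sq3, add_mul, one_mul, mul_assoc]
  refine add_mem h ?_
  exact_mod_cast S3.mul_int_mem (S3.zt_mul_mem.2 h) 2

/-- the point `1 / √-3` -/
def T0 : ℂ := 1 / sq3

theorem T0_mul : sq3 * T0 = 1 := by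
  rw [T0]
  have := sq3_ne
  field_simp

theorem T0_eq : T0 = -(1 + 2 * zt) / 3 := by
  rw [T0, div_eq_div_iff sq3_ne (by norm_num), sq3]
  linear_combination 4 * S3.zt_quad

theorem T0_notMem : T0 ∉ PP.lattice := by
  intro h
  rw [T0_eq] at h
  have h1 := S3.third_notMem_aux (a := -1) (b := -2) (by norm_num)
  apply h1
  have e : (((-1 : ℤ) : ℂ) + ((-2 : ℤ) : ℂ) * zt) / 3 = -(1 + 2 * zt) / 3 := by
    push_cast
    ring
  rwa [e]

/-! ### The kernel of `√-3` -/

theorem s3_ker {z : ℂ} (hs : sq3 * z ∈ PP.lattice) : (zt - 1) * z ∈ PP.lattice := by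
  have h1 := neg_mem (S3.zt_mul_mem.2 (S3.zt_mul_mem.2 hs))
  have e : -(zt * (zt * (sq3 * z))) = (zt - 1) * z := by
    rw [sq3]
    linear_combination (-z) * (2 * zt - 1) * S3.zt_quad
  rwa [e] at h1

theorem X_ker {z : ℂ} (hs : sq3 * z ∈ PP.lattice) : S3.X z = 0 := by
  have h1 := S3.X_add (s3_ker hs) z
  have e : z + (zt - 1) * z = zt * z := by ring
  rw [e, Rq.X_zt] at h1
  have h2 : (zt - 1) * S3.X z = 0 := by linear_combination h1
  exact (mul_eq_zero.1 h2).resolve_left (sub_ne_zero.2 S3.zt_ne_one)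

theorem E1_ker {z : ℂ} (hs : sq3 * z ∈ PP.lattice) : E1 z = 0 := by
  have h1 := S3.E1_add (s3_ker hs) z
  have e : z + (zt - 1) * z = zt * z := by ring
  rw [e, E1_om] at h1
  have h2 : (zt ^ 2 - 1) * E1 z = 0 := by linear_combination h1
  refine (mul_eq_zero.1 h2).resolve_left fun h => ?_
  have h3 : zt = -2 := by linear_combination S3.zt_quad - h
  have h4 := S3.zt_quad
  rw [h3] at h4
  norm_num at h4

theorem T0_mem : sq3 * T0 ∈ PP.lattice := by
  rw [T0_mul]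
  exact S3.one_mem

theorem X_T0 : S3.X T0 = 0 := X_ker T0_mem

theorem E1_T0 : E1 T0 = 0 := E1_ker T0_mem

/-- the ordinate of `1 / √-3` -/
def y0 : ℂ := S3.Y T0

theorem y0_sq : y0 ^ 2 = 1 := by
  rw [y0, S3.Y_sq T0_notMem, X_T0]
  norm_num

theorem y0_ne : y0 ≠ 0 := by
  intro h
  have h1 := y0_sq
  rw [h] at h1
  norm_num at h1

theorem three_T0 : 2 * T0 ∉ PP.lattice := by
  intro h
  have h1 := S3.Q_half h
  have h2 := y0_ne
  rw [y0, S3.Y, h1, zero_div] at h2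
  exact h2 rfl

/-! ### Multiplication by `√-3` -/

theorem notMem_of_s3 {z : ℂ} (hs : sq3 * z ∉ PP.lattice) : z ∉ PP.lattice := fun h => hs (s3_mul_mem h)

theorem Y_half {z : ℂ} (h : 2 * z ∈ PP.lattice) : S3.Y z = 0 := by
  rw [S3.Y, S3.Q_half h, zero_div]

theorem X_s3 {z : ℂ} (hs : sq3 * z ∉ PP.lattice) :
    3 * S3.X z ^ 2 * S3.X (sq3 * z) = -(S3.X z ^ 3 + 1) := by
  have hz := notMem_of_s3 hs
  have hY := S3.Y_sq hz
  by_cases h2 : 2 * z ∈ PP.lattice
  · have e : sq3 * z = z + zt * (2 * z) := by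
      rw [sq3]
      ring
    rw [e, S3.X_add (S3.zt_mul_mem.2 h2)]
    rw [Y_half h2] at hY
    linear_combination -hY
  · have hzt : zt * z ∉ PP.lattice := fun h => hz (S3.zt_mul_mem.1 h)
    have a1 : 2 * (zt * z) ∉ PP.lattice := by
      intro h
      apply h2
      apply S3.zt_mul_mem.1
      rwa [show zt * (2 * z) = 2 * (zt * z) by ring]
    have a2 : 2 * -(zt * (zt * z)) ∉ PP.lattice := by
      intro h
      apply h2
      apply S3.zt_mul_mem.1
      apply S3.zt_mul_mem.1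
      have h1 := neg_mem h
      rwa [show -(2 * -(zt * (zt * z))) = zt * (zt * (2 * z)) by ring] at h1
    have a3 : zt * z - -(zt * (zt * z)) ∉ PP.lattice := by
      intro h
      apply hz
      have h1 := neg_mem h
      rwa [show -(zt * z - -(zt * (zt * z))) = z by linear_combination (-z) * S3.zt_quad] at h1
    have e4 : zt * z + -(zt * (zt * z)) = sq3 * z := by
      rw [sq3]
      linear_combination (-z) * S3.zt_quad
    have a4 : zt * z + -(zt * (zt * z)) ∉ PP.lattice := by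
      rwa [e4]
    have h3 := Rq.slope a1 a2 a3 a4
    have h4 := Rq.sq (S3.notMem_of_two_mul a1) (S3.notMem_of_two_mul a2) a4
    rw [e4] at h3 h4
    simp only [Rq.X_neg, Rq.X_zt, Rq.Y_neg, Rq.Y_zt] at h3 h4
    set L := Rq.ev (sq3 * z) - Rq.ev (zt * z) - Rq.ev (-(zt * (zt * z))) with hL
    set x := S3.X z with hx
    set y := S3.Y z with hy
    have hq := S3.zt_quad
    have h5 : (2 * zt + 1) * x * L = y := by
      linear_combination (1 / 2) * h3 + x * L * hq
    have h6 : -3 * x ^ 2 * L ^ 2 = y ^ 2 := by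
      rw [← h5]
      linear_combination (-4) * x ^ 2 * L ^ 2 * hq
    have h7 : L ^ 2 = -x + S3.X (sq3 * z) := by
      linear_combination h4 + x * hq
    rw [h7] at h6
    linear_combination -h6 - hY

theorem X_ne_of_s3 {z : ℂ} (hs : sq3 * z ∉ PP.lattice) : S3.X z ≠ 0 := by
  intro h
  have h1 := X_s3 hs
  rw [h] at h1
  norm_num at h1

theorem Y_s3 {z : ℂ} (hs : sq3 * z ∉ PP.lattice) :
    S3.Y z ^ 2 = -3 * (1 + 4 * S3.X z ^ 2 * S3.X (sq3 * z)) := by
  rw [S3.Y_sq (notMem_of_s3 hs)]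
  linear_combination 4 * X_s3 hs

/-! ### The function `PhiK` -/

/-- `E1 z + ω E1 (z + T0) + ω² E1 (z - T0)` -/
def PhiK (z : ℂ) : ℂ := E1 z + zt * E1 (z + T0) + zt ^ 2 * E1 (z - T0)

theorem PhiK_add {l : ℂ} (hl : l ∈ PP.lattice) (z : ℂ) : PhiK (z + l) = PhiK z := by
  rw [PhiK, PhiK, show z + l + T0 = z + T0 + l by ring, show z + l - T0 = z - T0 + l by ring, S3.E1_add hl,
    S3.E1_add hl, S3.E1_add hl]

theorem Phi_diff {z : ℂ} (hs : sq3 * z ∉ PP.lattice) :
    S3.X z * ((E1 (z - T0) - E1 (z + T0)) / Om) = y0 := by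
  have hO := Om_ne_zero
  have hz := notMem_of_s3 hs
  have h1 : z - T0 ∉ PP.lattice := by
    intro h
    apply hs
    have h1 := add_mem (s3_mul_mem h) T0_mem
    rwa [show sq3 * (z - T0) + sq3 * T0 = sq3 * z by ring] at h1
  have h2 : z + T0 ∉ PP.lattice := by
    intro h
    apply hs
    have h1 := sub_mem (s3_mul_mem h) T0_mem
    rwa [show sq3 * (z + T0) - sq3 * T0 = sq3 * z by ring] at h1
  have h := S3.sig three_T0 hz h1 h2
  rw [E1_T0] at h
  have h3 : PP.weierstrassP T0 = Om ^ 2 * S3.X T0 := by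
    rw [S3.X]
    field_simp
  have h4 : PP.weierstrassP z = Om ^ 2 * S3.X z := by
    rw [S3.X]
    field_simp
  have h5 : PP.derivWeierstrassP T0 = Om ^ 3 * y0 := by
    rw [y0, S3.Y]
    field_simp
  rw [h3, h4, h5, X_T0] at h
  have h7 : Om ^ 2 ≠ 0 := pow_ne_zero _ hO
  have h8 : S3.X z * (E1 (z - T0) - E1 (z + T0)) = Om * y0 := by
    apply mul_left_cancel₀ h7
    linear_combination h
  rw [← mul_div_assoc, div_eq_iff hO]
  linear_combination h8

theorem Phi_sum {z : ℂ} (hs : sq3 * z ∉ PP.lattice) :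
    S3.X z * ((E1 (z + T0) + E1 (z - T0) - 2 * E1 z) / Om) = S3.Y z := by
  have hO := Om_ne_zero
  by_cases h2 : 2 * z ∈ PP.lattice
  · have e1 : E1 (z - T0) = -E1 (z + T0) := by
      rw [show z - T0 = -(z + T0) + 2 * z by ring, S3.E1_add h2, E1_odd]
    have e2 : 2 * E1 z = 0 := by
      have h3 := S3.E1_add h2 (-z)
      rw [show -z + 2 * z = z by ring, E1_odd] at h3
      linear_combination h3
    rw [e1, e2, Y_half h2]
    ring
  · have h1 : T0 - z ∉ PP.lattice := by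
      intro h
      apply hs
      have h1 := sub_mem T0_mem (s3_mul_mem h)
      rwa [show sq3 * T0 - sq3 * (T0 - z) = sq3 * z by ring] at h1
    have h3 : T0 + z ∉ PP.lattice := by
      intro h
      apply hs
      have h1 := sub_mem (s3_mul_mem h) T0_mem
      rwa [show sq3 * (T0 + z) - sq3 * T0 = sq3 * z by ring] at h1
    have h := S3.sig h2 T0_notMem h1 h3
    have e1 : E1 (T0 - z) = -E1 (z - T0) := by
      rw [show T0 - z = -(z - T0) by ring, E1_odd]
    rw [e1, add_comm T0 z] at h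
    have h3 : PP.weierstrassP T0 = Om ^ 2 * S3.X T0 := by
      rw [S3.X]
      field_simp
    have h4 : PP.weierstrassP z = Om ^ 2 * S3.X z := by
      rw [S3.X]
      field_simp
    have h5 : PP.derivWeierstrassP z = Om ^ 3 * S3.Y z := by
      rw [S3.Y]
      field_simp
    rw [h3, h4, h5, X_T0] at h
    have h7 : Om ^ 2 ≠ 0 := pow_ne_zero _ hO
    have h8 : S3.X z * (E1 (z + T0) + E1 (z - T0) - 2 * E1 z) = Om * S3.Y z := by
      apply mul_left_cancel₀ h7
      linear_combination h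
    rw [← mul_div_assoc, div_eq_iff hO]
    linear_combination h8

/-- **the value of `PhiK`** -/
theorem PhiK_eq {z : ℂ} (hs : sq3 * z ∉ PP.lattice) :
    PhiK z = -Om * (S3.Y z + y0 * sq3) / (2 * S3.X z) := by
  have hO := Om_ne_zero
  have hX := X_ne_of_s3 hs
  have h1 := Phi_diff hs
  have h2 := Phi_sum hs
  rw [PhiK, eq_div_iff (mul_ne_zero two_ne_zero hX), ← h1, ← h2, sq3]
  field_simp
  linear_combination (2 * E1 (z - T0)) * S3.zt_quad

/-- the constant -/
def kaK : ℂ := -Om * sq3 * y0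

theorem kaK_ne : kaK ≠ 0 := mul_ne_zero (mul_ne_zero (neg_ne_zero.2 Om_ne_zero) sq3_ne) y0_ne

/-! ### The place above `3` -/

section

variable {A : ValuationSubring ℂ}

theorem v_cop3 (hA : Three A) {n : ℕ} (hn : n.Coprime 3) : A.valuation (n : ℂ) = 1 :=
  Ell.v_cop (q := 3) (by exact_mod_cast hA) hn

theorem v_two3 (hA : Three A) : A.valuation (2 : ℂ) = 1 := by
  have h := v_cop3 hA (n := 2) (by norm_num)
  exact_mod_cast h

theorem v_sq3 : A.valuation sq3 ^ 2 = A.valuation (3 : ℂ) := by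
  rw [← map_pow, sq3_sq, Valuation.map_neg]

theorem v_sq3_pos : 0 < A.valuation sq3 := by
  rw [Valuation.pos_iff]
  exact sq3_ne

theorem v_y0 : A.valuation y0 = 1 := by
  have h := congrArg A.valuation y0_sq
  rw [map_pow, map_one] at h
  exact (pow_eq_one_iff_of_nonneg zero_le two_ne_zero).1 h

/-- the abscissa is congruent to `-1` -/
def Gd (A : ValuationSubring ℂ) (z : ℂ) : Prop :=
  A.valuation (S3.X z) = 1 ∧ A.valuation (S3.X z ^ 3 + 1) ≤ A.valuation 3

theorem Gd_of (hA : Three A) {z : ℂ} (hs : sq3 * z ∉ PP.lattice)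
    (h : A.valuation (S3.X (sq3 * z)) ≤ 1) : Gd A z := by
  have h3 := v_three_lt hA
  have e := congrArg A.valuation (X_s3 hs)
  rw [map_mul, map_mul, map_pow, Valuation.map_neg] at e
  have hX : A.valuation (S3.X z) ≤ 1 := by
    by_contra hc
    push Not at hc
    have h0 : 0 < A.valuation (S3.X z) := lt_trans zero_lt_one hc
    have e1 : A.valuation (S3.X z ^ 3 + 1) = A.valuation (S3.X z) ^ 3 := by
      rw [Valuation.map_add_eq_of_lt_left, map_pow]
      rw [map_one, map_pow]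
      exact one_lt_pow₀ hc (by norm_num)
    rw [e1] at e
    have h5 : A.valuation (S3.X z) ^ 3 ≤ A.valuation (S3.X z) ^ 2 := by
      rw [← e]
      calc A.valuation 3 * A.valuation (S3.X z) ^ 2 * A.valuation (S3.X (sq3 * z)) ≤
            1 * A.valuation (S3.X z) ^ 2 * 1 := by
            exact mul_le_mul' (mul_le_mul' h3.le le_rfl) h
        _ = A.valuation (S3.X z) ^ 2 := by rw [one_mul, mul_one]
    have h6 : A.valuation (S3.X z) ^ 2 < A.valuation (S3.X z) ^ 3 :=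
      pow_lt_pow_right₀ hc (by norm_num)
    exact absurd h5 (not_le.2 h6)
  have h1 : A.valuation (S3.X z ^ 3 + 1) ≤ A.valuation 3 := by
    rw [← e]
    calc A.valuation 3 * A.valuation (S3.X z) ^ 2 * A.valuation (S3.X (sq3 * z)) ≤
          A.valuation 3 * 1 * 1 := by
          exact mul_le_mul' (mul_le_mul' le_rfl (pow_le_one' hX 2)) h
      _ = A.valuation 3 := by rw [mul_one, mul_one]
  refine ⟨?_, h1⟩
  have h2 : A.valuation (S3.X z ^ 3 + 1 + -1) = A.valuation (-1 : ℂ) := by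
    rw [Valuation.map_add_eq_of_lt_right]
    rw [Valuation.map_neg, map_one]
    exact lt_of_le_of_lt h1 h3
  rw [add_neg_cancel_right, Valuation.map_neg, map_one, map_pow] at h2
  exact (pow_eq_one_iff_of_nonneg zero_le (by norm_num)).1 h2

/-- for a good point the abscissa is congruent to `-1` -/
theorem Gd.lt (hA : Three A) {z : ℂ} (h : Gd A z) : A.valuation (S3.X z + 1) < 1 := by
  obtain ⟨h1, h2⟩ := h
  have h3 := v_three_lt hA
  have h4 : A.valuation (S3.X z + 1) ≤ 1 := by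
    refine A.valuation.map_add_le h1.le ?_
    rw [map_one]
  by_contra hc
  push Not at hc
  have h5 : 1 ≤ A.valuation (S3.X z + 1) ^ 3 := one_le_pow₀ hc
  have e : (S3.X z + 1) ^ 3 = (S3.X z ^ 3 + 1) + 3 * (S3.X z * (S3.X z + 1)) := by ring
  rw [← map_pow, e] at h5
  have h6 : A.valuation ((S3.X z ^ 3 + 1) + 3 * (S3.X z * (S3.X z + 1))) < 1 := by
    refine A.valuation.map_add_lt (lt_of_le_of_lt h2 h3) ?_
    rw [map_mul, map_mul, h1, one_mul]
    exact mul_lt_one_of_lt_of_le h3 h4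
  exact absurd h6 (not_lt.2 h5)

/-- the ordinate of a point `z` for which `z` and `√-3 z` are good -/
theorem v_Y_lt (hA : Three A) {z : ℂ} (hs : sq3 * z ∉ PP.lattice) (h : Gd A z) (h' : Gd A (sq3 * z)) :
    A.valuation (S3.Y z) < A.valuation sq3 := by
  have h1 := h.lt hA
  have h2 := h'.lt hA
  have h3 := v_three_lt hA
  have h0 := v_two3 hA
  have e : 1 + 4 * S3.X z ^ 2 * S3.X (sq3 * z) =
      2 * 2 * (S3.X z + 1) * ((S3.X z + 1 - 2) * S3.X (sq3 * z)) + 2 * 2 * (S3.X (sq3 * z) + 1) + -3 := by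
    ring
  have h4 : A.valuation (1 + 4 * S3.X z ^ 2 * S3.X (sq3 * z)) < 1 := by
    rw [e]
    refine A.valuation.map_add_lt (A.valuation.map_add_lt ?_ ?_) ?_
    · rw [map_mul, map_mul, map_mul, h0, one_mul, one_mul, map_mul, h'.1, mul_one]
      refine mul_lt_one_of_lt_of_le h1 ?_
      refine A.valuation.map_sub_le h1.le ?_
      rw [h0]
    · rw [map_mul, map_mul, h0, one_mul, one_mul]
      exact h2
    · rw [Valuation.map_neg]
      exact h3
  have h5 := congrArg A.valuation (Y_s3 hs)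
  rw [map_pow, map_mul, Valuation.map_neg, ← v_sq3] at h5
  have h6 : A.valuation (S3.Y z) ^ 2 < A.valuation sq3 ^ 2 := by
    rw [h5]
    have h7 : (0 : A.ValueGroup) < A.valuation sq3 ^ 2 := pow_pos v_sq3_pos 2
    calc A.valuation sq3 ^ 2 * A.valuation (1 + 4 * S3.X z ^ 2 * S3.X (sq3 * z)) <
          A.valuation sq3 ^ 2 * 1 := mul_lt_mul_of_pos_left h4 h7
      _ = A.valuation sq3 ^ 2 := mul_one _
  exact lt_of_pow_lt_pow_left₀ 2 zero_le h6

/-- the residue of `PhiK` for good points -/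
theorem PhiK_good (hA : Three A) {z : ℂ} (hs : sq3 * z ∉ PP.lattice) (h : Gd A z) (h' : Gd A (sq3 * z)) :
    A.valuation (PhiK z / kaK - 1) < 1 := by
  have hO := Om_ne_zero
  have hX := X_ne_of_s3 hs
  have h1 := h.lt hA
  have h3 := v_three_lt hA
  have h0 := v_two3 hA
  have hY := v_Y_lt hA hs h h'
  have hsq := sq3_ne
  have hy := y0_ne
  have e : PhiK z / kaK - 1 = (S3.Y z / (y0 * sq3) - 2 * (S3.X z + 1) + 3) / (2 * S3.X z) := by
    rw [PhiK_eq hs, kaK]
    field_simp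
    ring
  rw [e, map_div₀, map_mul, h0, h.1, one_mul, div_one]
  refine A.valuation.map_add_lt (A.valuation.map_sub_lt ?_ ?_) h3
  · rw [map_div₀, map_mul, v_y0, one_mul]
    exact (div_lt_one₀ v_sq3_pos).2 hY
  · rw [map_mul, h0, one_mul]
    exact h1

/-- points of order prime to `3` are good -/
theorem Gd_cop (hA : Three A) {n : ℕ} (hn : n.Coprime 3) {z : ℂ} (hnz : (n : ℂ) * z ∈ PP.lattice)
    (hz : z ∉ PP.lattice) : Gd A z := by
  have hs : sq3 * z ∉ PP.lattice := by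
    intro h
    apply hz
    have h1 := neg_mem (s3_mul_mem h)
    have e : -(sq3 * (sq3 * z)) = 3 * z := by
      linear_combination (-z) * sq3_sq
    rw [e] at h1
    have hb := Nat.gcd_eq_gcd_ab n 3
    rw [hn] at hb
    have h2 := add_mem (S3.mul_int_mem hnz (n.gcdA 3)) (S3.mul_int_mem h1 (n.gcdB 3))
    have h3 : ((n.gcdA 3 : ℤ) : ℂ) * ((n : ℂ) * z) + ((n.gcdB 3 : ℤ) : ℂ) * (3 * z) = z := by
      have hb2 : (1 : ℂ) = (n : ℂ) * (n.gcdA 3 : ℤ) + 3 * (n.gcdB 3 : ℤ) := by exact_mod_cast hb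
      linear_combination (-z) * hb2
    rwa [h3] at h2
  refine Gd_of hA hs ?_
  rw [A.valuation_le_one_iff]
  refine Ell.Xq_mem (q := 3) (by norm_num) (by norm_num) (by exact_mod_cast hA) hn ?_ hs
  have h1 := s3_mul_mem hnz
  rwa [show sq3 * ((n : ℂ) * z) = (n : ℂ) * (sq3 * z) by ring] at h1

/-- points of `3`-order `√-3 ^ 3` are good, and so are their multiples by `√-3` -/
theorem Gd_cube (hA : Three A) {n : ℕ} (hn : n.Coprime 3) {z : ℂ}
    (h3 : (n : ℂ) * (sq3 ^ 3 * z) ∈ PP.lattice) (h2 : (n : ℂ) * (sq3 ^ 2 * z) ∉ PP.lattice) :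
    sq3 * z ∉ PP.lattice ∧ Gd A z ∧ Gd A (sq3 * z) := by
  have hmul : ∀ x : ℂ, x ∈ PP.lattice → (n : ℂ) * x ∈ PP.lattice := by
    intro x hx
    exact_mod_cast S3.mul_int_mem hx (n : ℤ)
  have a2 : sq3 * (sq3 * z) ∉ PP.lattice := by
    intro h
    apply h2
    have h1 := hmul _ h
    rwa [show sq3 * (sq3 * z) = sq3 ^ 2 * z by ring] at h1
  have a1 : sq3 * z ∉ PP.lattice := fun h => a2 (s3_mul_mem h)
  have hv : A.valuation (S3.X (sq3 * (sq3 * z))) ≤ 1 := by
    by_cases h : sq3 * (sq3 * (sq3 * z)) ∈ PP.lattice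
    · rw [X_ker h, map_zero]
      exact zero_le
    · have h4 : Gd A (sq3 * (sq3 * (sq3 * z))) := by
        refine Gd_cop hA hn ?_ h
        rwa [show sq3 * (sq3 * (sq3 * z)) = sq3 ^ 3 * z by ring]
      exact (Gd_of hA h h4.1.le).1.le
  have g1 : Gd A (sq3 * z) := Gd_of hA a2 hv
  exact ⟨a1, Gd_of hA a1 g1.1.le, g1⟩

end

/-! ### The arithmetic form -/

theorem s3_dvd_iff (x : 𝓞 K) : s3 ∣ x ↔ 3 ∣ Nz x := by
  constructor
  · rintro ⟨y, rfl⟩
    rw [Nz_mul]
    have h := Nz_coords 1 2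
    have e : (((1 : ℤ) : 𝓞 K) + ((2 : ℤ) : 𝓞 K) * wO) = s3 := by
      rw [s3]
      push_cast
      ring
    rw [e] at h
    have h1 : Nz s3 = 3 := by
      have h2 : (Nz s3 : ℤ) = 3 := by
        rw [h]
        norm_num
      exact_mod_cast h2
    rw [h1]
    exact dvd_mul_right _ _
  · intro h
    obtain ⟨p, q, rfl⟩ := coord x
    have h1 : (3 : ℤ) ∣ (Nz ((p : 𝓞 K) + q * wO) : ℤ) := by exact_mod_cast h
    rw [Nz_coords] at h1
    have h2 : (3 : ℤ) ∣ (p + q) ^ 2 := by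
      have e : (p + q) ^ 2 = (p ^ 2 - p * q + q ^ 2) + 3 * (p * q) := by ring
      rw [e]
      exact dvd_add h1 (dvd_mul_right _ _)
    have h3 : (3 : ℤ) ∣ p + q := Int.prime_three.dvd_of_dvd_pow h2
    obtain ⟨t, ht⟩ := h3
    refine ⟨-s3 * (t : 𝓞 K) + q * (1 + wO), ?_⟩
    have h4 := congrArg (fun z : ℤ => (z : 𝓞 K)) ht
    push_cast at h4
    have h5 : s3 * (1 + wO) = wO - 1 := by
      rw [s3]
      linear_combination 2 * wO_quad
    linear_combination h4 + (t : 𝓞 K) * s3_sq - (q : 𝓞 K) * h5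

theorem s3_dvd_mul {x y : 𝓞 K} (h : s3 ∣ x * y) : s3 ∣ x ∨ s3 ∣ y := by
  rw [s3_dvd_iff, Nz_mul] at h
  rcases Nat.prime_three.dvd_mul.1 h with h1 | h1
  · exact Or.inl ((s3_dvd_iff x).2 h1)
  · exact Or.inr ((s3_dvd_iff y).2 h1)

/-- every element divides its norm -/
theorem dvd_Nz (x : 𝓞 K) : ∃ y : 𝓞 K, x * y = ((Nz x : ℕ) : 𝓞 K) := by
  obtain ⟨p, q, rfl⟩ := coord x
  refine ⟨(p : 𝓞 K) - q - q * wO, ?_⟩
  have h := congrArg (fun z : ℤ => (z : 𝓞 K)) (Nz_coords p q)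
  push_cast at h
  rw [h]
  linear_combination (-(q : 𝓞 K) ^ 2) * wO_quad

/-- **the residue of `PhiK`** -/
theorem phi_res {A : ValuationSubring ℂ} (hA : Three A) {m k : 𝓞 K} (hm : ¬ s3 ∣ m) (hk : ¬ s3 ∣ k) :
    A.valuation (PhiK (em k / em (s3 ^ 3 * m)) / kaK - 1) < 1 := by
  obtain ⟨m', hm'⟩ := dvd_Nz m
  have hn : (Nz m).Coprime 3 := by
    rw [Nat.coprime_comm, Nat.Prime.coprime_iff_not_dvd Nat.prime_three, ← s3_dvd_iff]
    exact hm
  have hm0 : em m ≠ 0 := by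
    intro h0
    have h1 : m = 0 := Half_em_inj (by rw [h0, Res_em_zero])
    rw [h1] at hm
    exact hm (dvd_zero _)
  have hs3 : em s3 = sq3 := em_s3
  have hs := sq3_ne
  have hN : em m * em m' = ((Nz m : ℕ) : ℂ) := by
    rw [← Res_em_mul, hm']
    have h := Res_em_int ((Nz m : ℕ) : ℤ)
    exact_mod_cast h
  have e3 : em (s3 ^ 3 * m) = sq3 ^ 3 * em m := by
    rw [show s3 ^ 3 * m = s3 * (s3 * (s3 * m)) by ring, Res_em_mul, Res_em_mul, Res_em_mul, hs3]
    ring
  rw [e3]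
  have a3 : ((Nz m : ℕ) : ℂ) * (sq3 ^ 3 * (em k / (sq3 ^ 3 * em m))) ∈ PP.lattice := by
    refine Half_mem_iff.2 ⟨m' * k, ?_⟩
    rw [Res_em_mul, ← hN]
    field_simp
  have a2 : ((Nz m : ℕ) : ℂ) * (sq3 ^ 2 * (em k / (sq3 ^ 3 * em m))) ∉ PP.lattice := by
    intro h
    obtain ⟨b, hb⟩ := Half_mem_iff.1 h
    have h1 : s3 * b = m' * k := by
      apply Half_em_inj
      rw [Res_em_mul, Res_em_mul, hb, ← hN, hs3]
      field_simp
    rcases s3_dvd_mul (Dvd.intro b h1) with h2 | h2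
    · have h3 : s3 ∣ ((Nz m : ℕ) : 𝓞 K) := by
        rw [← hm']
        exact h2.mul_left m
      rw [s3_dvd_iff] at h3
      have h4 : Nz ((Nz m : ℕ) : 𝓞 K) = Nz m ^ 2 := by
        have h5 := Nz_coords ((Nz m : ℕ) : ℤ) 0
        have e : ((((Nz m : ℕ) : ℤ) : 𝓞 K) + ((0 : ℤ) : 𝓞 K) * wO) = ((Nz m : ℕ) : 𝓞 K) := by
          push_cast
          ring
        rw [e] at h5
        have h6 : (Nz ((Nz m : ℕ) : 𝓞 K) : ℤ) = ((Nz m ^ 2 : ℕ) : ℤ) := by
          rw [h5]
          push_cast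
          ring
        exact_mod_cast h6
      rw [h4] at h3
      have h7 := Nat.prime_three.dvd_of_dvd_pow h3
      exact hm ((s3_dvd_iff m).2 h7)
    · exact hk h2
  obtain ⟨b1, b2, b3⟩ := Gd_cube hA hn a3 a2
  exact PhiK_good hA b1 b2 b3

end

end Pool.Agent.Lib.MP_1a91b9_ntK
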