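import Pool.Agent.Lib.MP_1a91b9_ntH.A.Base

/-!
# Cubic twists, part A, file Res: residue classes at a place of `ℂ` above `3`

`r3 : 𝓞 K →+* ZMod 3` is the reduction modulo `√-3`; `Rt A z y`: `z` is integral at `A` and congruent to
the integers with class `y` modulo `3`.
-/

set_option autoImplicit false

namespace Pool.Agent.Lib.MP_1a91b9_ntK

export Pool.Agent.Lib.MP_1a91b9_ntH (em)

open NumberField Pool.Agent.Lib.MP_1a91b9_ntT Pool.Agent.Lib.MP_1a91b9_ntH

noncomputable section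

/-- The reduction modulo `√-3`. -/
def r3 : 𝓞 K →+* ZMod 3 where
  toFun x := ((cp x).1 : ZMod 3) + (cp x).2
  map_one' := by
    have : cp (1 : 𝓞 K) = (1, 0) := by simpa using cp_coords 1 0
    rw [this]
    simp
  map_zero' := by
    have : cp (0 : 𝓞 K) = (0, 0) := by simpa using cp_coords 0 0
    rw [this]
    simp
  map_add' x y := by
    have : cp (x + y) = ((cp x).1 + (cp y).1, (cp x).2 + (cp y).2) := by
      rw [← cp_coords]
      congr 1
      conv_lhs => rw [eq_cp x, eq_cp y]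
      push_cast
      ring
    rw [this]
    push_cast
    ring
  map_mul' x y := by
    have : cp (x * y) = ((cp x).1 * (cp y).1 - (cp x).2 * (cp y).2,
        (cp x).1 * (cp y).2 + (cp x).2 * (cp y).1 - (cp x).2 * (cp y).2) := by
      rw [← cp_coords]
      congr 1
      conv_lhs => rw [eq_cp x, eq_cp y]
      push_cast
      linear_combination ((cp x).2 : 𝓞 K) * (cp y).2 * wO_quad
    rw [this]
    have h3 : (3 : ZMod 3) = 0 := rfl
    push_cast
    linear_combination (-((cp x).2 : ZMod 3) * (cp y).2) * h3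

theorem r3_coord (p q : ℤ) : r3 ((p : 𝓞 K) + (q : 𝓞 K) * wO) = (p : ZMod 3) + q := by
  change ((cp _).1 : ZMod 3) + (cp _).2 = _
  rw [cp_coords]

theorem r3_w : r3 wO = 1 := by
  have h := r3_coord 0 1
  simpa using h

theorem r3_s3 : r3 s3 = 0 := by
  rw [s3, map_add, map_mul, r3_w, map_one, map_ofNat]
  rfl

theorem r3_eq_zero {x : 𝓞 K} : r3 x = 0 ↔ s3 ∣ x := by
  constructor
  · intro h
    obtain ⟨p, q, rfl⟩ := coord x
    rw [r3_coord] at h
    have h1 : (((p + q : ℤ)) : ZMod 3) = 0 := by push_cast; exact h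
    rw [ZMod.intCast_zmod_eq_zero_iff_dvd] at h1
    obtain ⟨m, hm⟩ := h1
    have hp : (p : 𝓞 K) + (q : 𝓞 K) = 3 * m := by
      have := congrArg (fun z : ℤ => (z : 𝓞 K)) hm
      push_cast at this
      exact this
    refine ⟨-s3 * m + q * (1 + wO), ?_⟩
    have h5 : s3 * (1 + wO) = wO - 1 := by
      rw [s3]
      linear_combination 2 * wO_quad
    linear_combination hp + m * s3_sq - (q : 𝓞 K) * h5
  · rintro ⟨y, rfl⟩
    rw [map_mul, r3_s3, zero_mul]

theorem r3_eq {x y : 𝓞 K} : r3 x = r3 y ↔ s3 ∣ x - y := by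
  rw [← r3_eq_zero, map_sub, sub_eq_zero]

theorem r3_surj (y : ZMod 3) : ∃ x : 𝓞 K, r3 x = y :=
  ⟨((y.val : ℤ) : 𝓞 K), by
    rw [map_intCast]
    simp⟩

/-- A place of `ℂ` above `3`. -/
def Three (A : ValuationSubring ℂ) : Prop := (3 : ℂ)⁻¹ ∉ A

theorem exists_Three : ∃ A : ValuationSubring ℂ, Three A := by
  have h2 : (3 : ℂ) ∈ (⊥ : Subring ℂ) := by
    have := intCast_mem (⊥ : Subring ℂ) 3
    exact_mod_cast this
  have hI : Ideal.span {(⟨3, h2⟩ : (⊥ : Subring ℂ))} ≠ ⊤ := by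
    intro h
    rw [Ideal.span_singleton_eq_top] at h
    obtain ⟨⟨b, hb⟩, e⟩ := isUnit_iff_exists_inv.mp h
    obtain ⟨n, rfl⟩ := Subring.mem_bot.1 hb
    have e2 : (3 : ℂ) * n = 1 := congrArg Subtype.val e
    have e3 : (3 : ℤ) * n = 1 := by exact_mod_cast e2
    omega
  obtain ⟨B, _, hB⟩ := Ideal.image_subset_nonunits_valuationSubring _ hI
  refine ⟨B, ?_⟩
  have h3 : (3 : ℂ) ∈ B.nonunits := hB ⟨⟨3, h2⟩, Ideal.mem_span_singleton_self _, rfl⟩
  rcases B.mem_nonunits_iff_or.1 h3 with h | h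
  · norm_num at h
  · exact h

/-- `z` is integral at `A` and its residue is the class `y`. -/
def Rt (A : ValuationSubring ℂ) (z : ℂ) (y : ZMod 3) : Prop :=
  ∃ x : 𝓞 K, r3 x = y ∧ A.valuation (z - em x) < 1

theorem rt_em_zero : em 0 = 0 := map_zero embK

theorem rt_em_one : em 1 = 1 := map_one embK

theorem rt_em_add (x y : 𝓞 K) : em (x + y) = em x + em y := by
  simp [MP_1a91b9_ntH.em]

theorem rt_em_sub (x y : 𝓞 K) : em (x - y) = em x - em y := by
  simp [MP_1a91b9_ntH.em]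

theorem rt_em_neg (x : 𝓞 K) : em (-x) = -em x := by
  simp [MP_1a91b9_ntH.em]

theorem rt_em_mul (x y : 𝓞 K) : em (x * y) = em x * em y := by
  simp [MP_1a91b9_ntH.em]

theorem rt_em_int (n : ℤ) : em (n : 𝓞 K) = n := by
  simp [MP_1a91b9_ntH.em]

theorem rt_em_nat (n : ℕ) : em (n : 𝓞 K) = n := by
  simp [MP_1a91b9_ntH.em]

theorem rt_em_three : em 3 = 3 := by
  have h := rt_em_nat 3
  exact_mod_cast h

theorem rt_em_s3_sq : em s3 ^ 2 = -3 := by
  rw [pow_two, ← rt_em_mul, ← pow_two, s3_sq, rt_em_neg, rt_em_three]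

theorem rt_em_ne {x : 𝓞 K} (hx : x ≠ 0) : em x ≠ 0 := by
  rw [MP_1a91b9_ntH.em, Ne, map_eq_zero]
  intro h
  exact hx (RingOfIntegers.ext h)

section
variable {A : ValuationSubring ℂ}

theorem v_three_lt (hA : Three A) : A.valuation (3 : ℂ) < 1 := by
  by_contra h
  push Not at h
  apply hA
  rw [← A.valuation_le_one_iff, map_inv₀]
  exact inv_le_one_of_one_le₀ h

theorem v_s3_lt (hA : Three A) : A.valuation (em s3) < 1 := by
  have h1 : A.valuation (em s3) ^ 2 < 1 := by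
    rw [← map_pow, rt_em_s3_sq, Valuation.map_neg]
    exact v_three_lt hA
  by_contra h
  push Not at h
  exact absurd h1 (not_lt.2 (one_le_pow₀ h))

theorem rt_em_le (x : 𝓞 K) : A.valuation (em x) ≤ 1 := by
  rw [A.valuation_le_one_iff]
  refine mem_of_isIntegral ?_
  have h : IsIntegral ℤ (x : K) := x.2
  exact h.map embK.toIntAlgHom

theorem rt_em_lt (hA : Three A) {x : 𝓞 K} (h : s3 ∣ x) : A.valuation (em x) < 1 := by
  obtain ⟨y, rfl⟩ := h
  rw [rt_em_mul, map_mul]
  exact mul_lt_one_of_lt_of_le (v_s3_lt hA) (rt_em_le y)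

theorem rt_em_unit (hA : Three A) {x : 𝓞 K} (h : ¬ s3 ∣ x) : A.valuation (em x) = 1 := by
  have h1 : r3 x ≠ 0 := fun h0 => h (r3_eq_zero.1 h0)
  have h2 : ∀ y : ZMod 3, y ≠ 0 → y * y = 1 := by decide
  have h3 : s3 ∣ x * x - 1 := by
    rw [← r3_eq, map_mul, map_one]
    exact h2 _ h1
  refine le_antisymm (rt_em_le x) ?_
  by_contra hc
  push Not at hc
  have h4 : A.valuation (em (x * x - 1)) < 1 := rt_em_lt hA h3
  have h5 : A.valuation (em x * em x) < 1 := by
    rw [map_mul]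
    exact mul_lt_one_of_lt_of_le hc hc.le
  have h6 := A.valuation.map_sub_lt h5 h4
  rw [rt_em_sub, rt_em_mul, rt_em_one, sub_sub_cancel, map_one] at h6
  exact lt_irrefl _ h6

theorem Rt.of (x : 𝓞 K) : Rt A (em x) (r3 x) := ⟨x, rfl, by
  rw [sub_self, map_zero]
  exact zero_lt_one⟩

theorem Rt.int (n : ℤ) : Rt A (n : ℂ) (n : ZMod 3) := by
  have h := Rt.of (A := A) (n : 𝓞 K)
  rwa [rt_em_int, map_intCast] at h

theorem Rt.eq (hA : Three A) {z : ℂ} {y : ZMod 3} (h : Rt A z y) (x : 𝓞 K) (hx : r3 x = y) :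
    A.valuation (z - em x) < 1 := by
  obtain ⟨x', hx', h'⟩ := h
  have h1 : A.valuation (em (x' - x)) < 1 := rt_em_lt hA (r3_eq.1 (hx'.trans hx.symm))
  have e : z - em x = (z - em x') + em (x' - x) := by
    rw [rt_em_sub]
    ring
  rw [e]
  exact A.valuation.map_add_lt h' h1

theorem Rt.le {z : ℂ} {y : ZMod 3} (h : Rt A z y) : A.valuation z ≤ 1 := by
  obtain ⟨x, _, h'⟩ := h
  have e : z = (z - em x) + em x := by ring
  rw [e]
  exact A.valuation.map_add_le h'.le (rt_em_le x)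

theorem Rt.unit (hA : Three A) {z : ℂ} {y : ZMod 3} (h : Rt A z y) (hy : y ≠ 0) :
    A.valuation z = 1 := by
  obtain ⟨x, hx, h'⟩ := h
  have h2 : A.valuation (em x) = 1 := rt_em_unit hA fun h0 => hy (by
    rw [← hx]
    exact r3_eq_zero.2 h0)
  have e : z = (z - em x) + em x := by ring
  rw [e, A.valuation.map_add_eq_of_lt_right (by rw [h2]; exact h'), h2]

theorem Rt.zero_iff (hA : Three A) {z : ℂ} : Rt A z 0 ↔ A.valuation z < 1 := by
  constructor
  · intro h
    have h1 := h.eq hA 0 (map_zero r3)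
    rwa [rt_em_zero, sub_zero] at h1
  · intro h
    exact ⟨0, map_zero r3, by rwa [rt_em_zero, sub_zero]⟩

theorem Rt.one : Rt A 1 1 := ⟨1, map_one r3, by
  rw [rt_em_one, sub_self, map_zero]
  exact zero_lt_one⟩

theorem Rt.zero : Rt A 0 0 := ⟨0, map_zero r3, by
  rw [rt_em_zero, sub_self, map_zero]
  exact zero_lt_one⟩

theorem Rt.neg {z : ℂ} {y : ZMod 3} (h : Rt A z y) : Rt A (-z) (-y) := by
  obtain ⟨x, hx, hv⟩ := h
  refine ⟨-x, by rw [map_neg, hx], ?_⟩
  have e : -z - em (-x) = -(z - em x) := by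
    rw [rt_em_neg]
    ring
  rw [e, Valuation.map_neg]
  exact hv

theorem Rt.add {z z' : ℂ} {y y' : ZMod 3} (h : Rt A z y) (h' : Rt A z' y') :
    Rt A (z + z') (y + y') := by
  obtain ⟨x, hx, hv⟩ := h
  obtain ⟨x', hx', hv'⟩ := h'
  refine ⟨x + x', by rw [map_add, hx, hx'], ?_⟩
  have e : z + z' - em (x + x') = (z - em x) + (z' - em x') := by
    rw [rt_em_add]
    ring
  rw [e]
  exact A.valuation.map_add_lt hv hv'

theorem Rt.sub {z z' : ℂ} {y y' : ZMod 3} (h : Rt A z y) (h' : Rt A z' y') :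
    Rt A (z - z') (y - y') := by
  rw [sub_eq_add_neg, sub_eq_add_neg]
  exact h.add h'.neg

theorem Rt.mul {z z' : ℂ} {y y' : ZMod 3} (h : Rt A z y) (h' : Rt A z' y') :
    Rt A (z * z') (y * y') := by
  have hz' := h'.le
  obtain ⟨x, hx, hv⟩ := h
  obtain ⟨x', hx', hv'⟩ := h'
  refine ⟨x * x', by rw [map_mul, hx, hx'], ?_⟩
  have e : z * z' - em (x * x') = (z - em x) * z' + em x * (z' - em x') := by
    rw [rt_em_mul]
    ring
  rw [e]
  refine A.valuation.map_add_lt ?_ ?_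
  · rw [map_mul]
    exact mul_lt_one_of_lt_of_le hv hz'
  · rw [map_mul, mul_comm]
    exact mul_lt_one_of_lt_of_le hv' (rt_em_le x)

theorem Rt.pow {z : ℂ} {y : ZMod 3} (h : Rt A z y) (n : ℕ) : Rt A (z ^ n) (y ^ n) := by
  induction n with
  | zero =>
    rw [pow_zero, pow_zero]
    exact Rt.one
  | succ n ih =>
    rw [pow_succ, pow_succ]
    exact ih.mul h

theorem Rt.sum {ι : Type*} (T : Finset ι) {z : ι → ℂ} {y : ι → ZMod 3}
    (h : ∀ i ∈ T, Rt A (z i) (y i)) : Rt A (∑ i ∈ T, z i) (∑ i ∈ T, y i) := by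
  classical
  induction T using Finset.induction_on with
  | empty =>
    rw [Finset.sum_empty, Finset.sum_empty]
    exact Rt.zero
  | insert a T ha ih =>
    rw [Finset.sum_insert ha, Finset.sum_insert ha]
    exact (h a (Finset.mem_insert_self a T)).add
      (ih fun i hi => h i (Finset.mem_insert_of_mem hi))

theorem Rt.prod {ι : Type*} (T : Finset ι) {z : ι → ℂ} {y : ι → ZMod 3}
    (h : ∀ i ∈ T, Rt A (z i) (y i)) : Rt A (∏ i ∈ T, z i) (∏ i ∈ T, y i) := by
  classical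
  induction T using Finset.induction_on with
  | empty =>
    rw [Finset.prod_empty, Finset.prod_empty]
    exact Rt.one
  | insert a T ha ih =>
    rw [Finset.prod_insert ha, Finset.prod_insert ha]
    exact (h a (Finset.mem_insert_self a T)).mul
      (ih fun i hi => h i (Finset.mem_insert_of_mem hi))

theorem Rt.congr {z z' : ℂ} {y : ZMod 3} (h : Rt A z y) (h' : A.valuation (z' - z) < 1) :
    Rt A z' y := by
  obtain ⟨x, hx, hv⟩ := h
  refine ⟨x, hx, ?_⟩
  have e : z' - em x = (z' - z) + (z - em x) := by ring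
  rw [e]
  exact A.valuation.map_add_lt h' hv

/-- the residue is unique -/
theorem Rt.unique (hA : Three A) {z : ℂ} {y y' : ZMod 3} (h : Rt A z y) (h' : Rt A z y') :
    y = y' := by
  have h1 := h.sub h'
  rw [sub_self] at h1
  by_contra hn
  have h2 := h1.unit hA (sub_ne_zero.2 hn)
  rw [map_zero] at h2
  exact zero_ne_one h2

theorem Rt.inv (hA : Three A) {z : ℂ} {y : ZMod 3} (h : Rt A z y) (hy : y ≠ 0) :
    Rt A z⁻¹ y := by
  have h1 : A.valuation z = 1 := h.unit hA hy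
  have hz : z ≠ 0 := by
    rintro rfl
    rw [map_zero] at h1
    exact zero_ne_one h1
  have h20 : ∀ y : ZMod 3, y ≠ 0 → y * y = 1 := by decide
  have h2 : y * y = 1 := h20 y hy
  have h3 : A.valuation (z * z - 1) < 1 := by
    have h4 := h.mul h
    rw [h2] at h4
    have h5 := h4.eq hA 1 (map_one r3)
    rwa [rt_em_one] at h5
  refine h.congr ?_
  have e : z⁻¹ - z = -((z * z - 1) * z⁻¹) := by
    field_simp
    ring
  rw [e, Valuation.map_neg, map_mul, map_inv₀, h1, inv_one, mul_one]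
  exact h3

end

end

end Pool.Agent.Lib.MP_1a91b9_ntK
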