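import Pool.Agent.Lib.MP_1a91b9_ntK.A.Em
import Pool.Agent.Lib.MP_1a91b9_ntK.A.Gen
import Pool.Agent.Lib.MP_1a91b9_ntK.A.Forest
import Pool.Agent.Lib.MP_1a91b9_ntK.A.Good
import Pool.Agent.Lib.MP_1a91b9_ntK.A.Res
import Pool.Agent.Lib.MP_1a91b9_ntK.A.LocDef
import Pool.Agent.Lib.MP_1a91b9_ntK.D.E3
import Pool.Agent.Lib.MP_1a91b9_ntK.R.Defs

/-!
# Cubic twists, part A, file Sys3: the characters, the L-series, the element `D` and the matrix

`D = w ^ k * ∏ (q ∈ S) q ^ (e q)`, `k : ZMod 3`, `e q = 1, 2`.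
-/

set_option autoImplicit false

namespace Pool.Agent.Lib.MP_1a91b9_ntK

open NumberField IsDedekindDomain Pool.Agent.Lib.MP_1a91b9_ntT Pool.Agent.Lib.MP_1a91b9_ntG
open Pool.Agent.Lib.MP_1a91b9_ntH (wO s3 cp Nz f0 psC_self)

noncomputable section

/-- the class of `x = 1 + 3 (m + n w)`: `m + n` modulo `3` -/
def abar (x : 𝓞 K) : ZMod 3 := ((((cp x).1 - 1) / 3 + (cp x).2 / 3 : ℤ) : ZMod 3)

/-- the cubic character modulo `q`, to the power `t` -/
def chq (q : P3) (t : ZMod 3) (x : 𝓞 K) : ℂ :=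
  haveI := Classical.dec (q.1 ∣ x)
  if q.1 ∣ x then 0 else e3 (t * cq q x)

/-- the character of `w ^ k` -/
def th (k : ZMod 3) (x : 𝓞 K) : ℂ := e3 (-(k * abar x))

/-- the character of `D` on the elements congruent to `1` modulo `3` -/
def Xk (k : ZMod 3) (e : P3 → ZMod 3) (S : Finset P3) : 𝓞 K → ℂ :=
  XT (f := 3) (th k) (fun q => chq q (e q)) S

/-- the entire L-function of `ψbar` and the character of `D` -/
def Lk (k : ZMod 3) (e : P3 → ZMod 3) (S : Finset P3) : ℂ → ℂ := LG 3 (Xk k e S)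

/-- the cube-free element `D` -/
def Dk (k : ZMod 3) (e : P3 → ZMod 3) (S : Finset P3) : 𝓞 K :=
  wO ^ k.val * ∏ q ∈ S, q.1 ^ (e q).val

/-- the linear term of the matrix -/
def kapK (k : ZMod 3) (q : P3) : ZMod 3 := -(k * abar q.1)

/-- the matrix of `D` -/
def NK (k : ZMod 3) (e : P3 → ZMod 3) (S : Finset P3) : Matrix S S (ZMod 3) :=
  NE d3.s (kapK k) e S

/-- the character sum of `E1` over the points `0, T0, 2 T0` -/
def PhC (k : ZMod 3) (z : ℂ) : ℂ := ∑ x : ZMod 3, e3 (-(k * x)) * E1 (z + (x.val : ℂ) * T0)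

end

end Pool.Agent.Lib.MP_1a91b9_ntK
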