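import Pool.Agent.Lib.MP_1a91b9_ntK.A.Phi
import Pool.Agent.Lib.MP_1a91b9_ntK.A.Sys3
import Pool.Agent.Lib.MP_1a91b9_ntT.S3.Third

/-!
# Cubic twists, part A, file Phi0: the case `k = 0`

`rho Q = 3 / (2 X0² (X0 - X Q))`, `E1 (1/3 + Q) + E1 (1/3 - Q) = 2 E1 (1/3) (1 + rho Q)`, `|rho Q|³ = |3|²` for `Q` of order prime to `3`, and
the sum over the representatives.
-/

set_option autoImplicit false

namespace Pool.Agent.Lib.MP_1a91b9_ntK

open NumberField IsDedekindDomain Pool.Agent.Lib.MP_1a91b9_ntT Pool.Agent.Lib.MP_1a91b9_ntG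
  Pool.Agent.Lib.MP_1a91b9_ntH

noncomputable section

/-- the abscissa of `1 / 3` -/
def X0 : ℂ := S3.X (1 / 3)

theorem X0_cube : X0 ^ 3 = -1 := S3.X_third_cube

theorem X0_ne : X0 ≠ 0 := by
  intro h
  have h1 := X0_cube
  rw [h] at h1
  norm_num at h1

/-- the small correction -/
def rho (Q : ℂ) : ℂ := 3 / (2 * (X0 ^ 2 * (X0 - S3.X Q)))

theorem Y0_sq : S3.Y (1 / 3) ^ 2 = -3 := by
  have h1 : (1 / 3 : ℂ) ∉ PP.lattice := S3.notMem_of_two_mul S3.two_third_notMem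
  rw [S3.Y_sq h1, S3.X_third_cube]
  norm_num

theorem Y0_ne : S3.Y (1 / 3) ≠ 0 := by
  intro h
  have h1 := Y0_sq
  rw [h] at h1
  norm_num at h1

theorem pair_eq {Q : ℂ} (hQ : Q ∉ PP.lattice) (h1 : Q - 1 / 3 ∉ PP.lattice) (h2 : Q + 1 / 3 ∉ PP.lattice) :
    X0 - S3.X Q ≠ 0 ∧ E1 (1 / 3 + Q) + E1 (1 / 3 - Q) = 2 * E1 (1 / 3) * (1 + rho Q) := by
  have hO := Om_ne_zero
  have h := S3.sig S3.two_third_notMem hQ h1 h2
  have e1 : E1 (Q - 1 / 3) = -E1 (1 / 3 - Q) := by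
    rw [show Q - 1 / 3 = -(1 / 3 - Q) by ring, E1_odd]
  have e2 : E1 (Q + 1 / 3) = E1 (1 / 3 + Q) := by rw [add_comm]
  rw [e1, e2] at h
  have h3 : PP.weierstrassP (1 / 3) = Om ^ 2 * X0 := by
    rw [X0, S3.X]
    field_simp
  have h4 : PP.weierstrassP Q = Om ^ 2 * S3.X Q := by
    rw [S3.X]
    field_simp
  have h5 : PP.derivWeierstrassP (1 / 3) = Om ^ 3 * S3.Y (1 / 3) := by
    rw [S3.Y]
    field_simp
  rw [h3, h4, h5] at h
  have h7 : Om ^ 2 ≠ 0 := pow_ne_zero _ hO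
  have h8 : (X0 - S3.X Q) * (E1 (1 / 3 + Q) + E1 (1 / 3 - Q) - 2 * E1 (1 / 3)) = Om * S3.Y (1 / 3) := by
    apply mul_left_cancel₀ h7
    linear_combination h
  have hX : X0 - S3.X Q ≠ 0 := by
    intro h0
    rw [h0, zero_mul] at h8
    exact mul_ne_zero hO Y0_ne h8.symm
  refine ⟨hX, ?_⟩
  have h9 := S3.E1_third_mul_Y
  have hY2 := Y0_sq
  have hX0 := X0_ne
  have e0 : S3.X (1 / 3) = X0 := rfl
  rw [e0, div_mul_eq_mul_div, div_eq_iff hO] at h9
  -- `E1 (1/3) * Y0 = - X0 ^ 2 * Om`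
  have h10 : X0 ^ 2 * (Om * S3.Y (1 / 3)) = 3 * E1 (1 / 3) := by
    linear_combination S3.Y (1 / 3) * h9 - E1 (1 / 3) * hY2
  have h11 : E1 (1 / 3 + Q) + E1 (1 / 3 - Q) - 2 * E1 (1 / 3) = 2 * E1 (1 / 3) * rho Q := by
    rw [rho]
    have hd : 2 * (X0 ^ 2 * (X0 - S3.X Q)) ≠ 0 :=
      mul_ne_zero two_ne_zero (mul_ne_zero (pow_ne_zero 2 hX0) hX)
    rw [mul_div_assoc', eq_div_iff hd]
    linear_combination 2 * X0 ^ 2 * h8 + 2 * h10
  linear_combination h11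

section

variable {A : ValuationSubring ℂ}

theorem v_X0 : A.valuation X0 = 1 := by
  have h := congrArg A.valuation X0_cube
  rw [map_pow, Valuation.map_neg, map_one] at h
  exact (pow_eq_one_iff_of_nonneg zero_le (by norm_num)).1 h

theorem v_X0_add : A.valuation (X0 + 1) = 0 ∨ A.valuation (X0 + 1) ^ 2 = A.valuation 3 := by
  by_cases h0 : X0 + 1 = 0
  · left
    rw [h0, map_zero]
  · right
    have e : (X0 + 1) ^ 2 = 3 * X0 := by
      apply mul_left_cancel₀ h0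
      linear_combination X0_cube
    rw [← map_pow, e, map_mul, v_X0, mul_one]

/-- `|X Q + 1|³ = |3|` -/
theorem v_X_add (hA : Three A) {Q : ℂ} (hs : sq3 * Q ∉ PP.lattice) (h : Gd A Q) (h' : Gd A (sq3 * Q)) :
    A.valuation (S3.X Q + 1) ^ 3 = A.valuation 3 := by
  have h1 := h.lt hA
  have e : (S3.X Q + 1) ^ 3 = 3 * (-(S3.X Q ^ 2 * S3.X (sq3 * Q)) + S3.X Q * (S3.X Q + 1)) := by
    linear_combination X_s3 hs
  rw [← map_pow, e, map_mul]
  have e2 : A.valuation (-(S3.X Q ^ 2 * S3.X (sq3 * Q)) + S3.X Q * (S3.X Q + 1)) = 1 := by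
    rw [Valuation.map_add_eq_of_lt_left]
    · rw [Valuation.map_neg, map_mul, map_pow, h.1, h'.1, one_pow, one_mul]
    · rw [Valuation.map_neg, map_mul, map_mul, map_pow, h.1, h'.1, one_pow, one_mul, one_mul]
      exact h1
  rw [e2, mul_one]

theorem v_rho (hA : Three A) {Q : ℂ} (hs : sq3 * Q ∉ PP.lattice) (h : Gd A Q) (h' : Gd A (sq3 * Q)) :
    A.valuation (rho Q) ^ 3 = A.valuation 3 ^ 2 := by
  have h3 := v_three_lt hA
  have h30 : 0 < A.valuation (3 : ℂ) := by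
    rw [Valuation.pos_iff]
    norm_num
  have h1 := v_X_add hA hs h h'
  have hlt : A.valuation (X0 + 1) < A.valuation (S3.X Q + 1) := by
    by_contra hc
    push Not at hc
    have hq := h.lt hA
    rcases v_X0_add (A := A) with h2 | h2
    · rw [h2] at hc
      have h4 : A.valuation (S3.X Q + 1) = 0 := le_antisymm hc zero_le
      rw [h4, zero_pow (by norm_num)] at h1
      exact absurd h1 h30.ne
    · have h5 : A.valuation (X0 + 1) < 1 := by
        by_contra h6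
        push Not at h6
        have h7 := one_le_pow₀ h6 (n := 2)
        rw [h2] at h7
        exact absurd h3 (not_lt.2 h7)
      have h6 : A.valuation (S3.X Q + 1) ^ 3 ≤ A.valuation (X0 + 1) ^ 3 := pow_le_pow_left₀ zero_le hc 3
      rw [h1, pow_succ, h2] at h6
      have h7 : A.valuation 3 * A.valuation (X0 + 1) < A.valuation 3 * 1 := mul_lt_mul_of_pos_left h5 h30
      rw [mul_one] at h7
      exact absurd h6 (not_le.2 h7)
  have e : X0 - S3.X Q = (X0 + 1) + -(S3.X Q + 1) := by ring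
  have h4 : A.valuation (X0 - S3.X Q) = A.valuation (S3.X Q + 1) := by
    rw [e, Valuation.map_add_eq_of_lt_right, Valuation.map_neg]
    rwa [Valuation.map_neg]
  rw [rho, map_div₀, map_mul, map_mul, map_pow, v_X0, v_two3 hA, h4, one_pow, one_mul, one_mul, div_pow, h1]
  rw [pow_succ, mul_div_assoc, div_self h30.ne', mul_one]

theorem v_rho_lt (hA : Three A) {Q : ℂ} (hs : sq3 * Q ∉ PP.lattice) (h : Gd A Q) (h' : Gd A (sq3 * Q)) :
    A.valuation (rho Q) < A.valuation sq3 := by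
  have h1 := v_rho hA hs h h'
  have h3 := v_three_lt hA
  have hp := v_sq3_pos (A := A)
  have hlt : A.valuation sq3 < 1 := by
    by_contra hc
    push Not at hc
    have h5 := one_le_pow₀ hc (n := 2)
    rw [v_sq3] at h5
    exact absurd h3 (not_lt.2 h5)
  refine lt_of_pow_lt_pow_left₀ 3 zero_le ?_
  rw [h1, ← v_sq3, ← pow_mul]
  calc A.valuation sq3 ^ (2 * 2) = A.valuation sq3 ^ 3 * A.valuation sq3 := by rw [← pow_succ]
    _ < A.valuation sq3 ^ 3 * 1 := mul_lt_mul_of_pos_left hlt (pow_pos hp 3)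
    _ = A.valuation sq3 ^ 3 := mul_one _

end

/-! ### The sum over the representatives -/

theorem s3_mul_notMem {m : 𝓞 K} (hm : ¬ s3 ∣ m) {d : 𝓞 K} (hd : ¬ m ∣ d) :
    sq3 * (em d / em m) ∉ PP.lattice ∧ em d / em m ∉ PP.lattice ∧ em d / em m - 1 / 3 ∉ PP.lattice ∧
      em d / em m + 1 / 3 ∉ PP.lattice := by
  have hm0 : em m ≠ 0 := by
    intro h0
    have h1 : m = 0 := Half_em_inj (by rw [h0, Res_em_zero])
    rw [h1] at hm
    exact hm (dvd_zero _)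
  have hcop : IsCoprime m s3 := by
    obtain ⟨m', hm'⟩ := dvd_Nz m
    have hn : (Nz m).Coprime 3 := by
      rw [Nat.coprime_comm, Nat.Prime.coprime_iff_not_dvd Nat.prime_three, ← s3_dvd_iff]
      exact hm
    have hb := Nat.gcd_eq_gcd_ab (Nz m) 3
    rw [hn] at hb
    have hb2 : (1 : 𝓞 K) = ((Nz m : ℕ) : 𝓞 K) * ((Nz m).gcdA 3 : ℤ) + 3 * ((Nz m).gcdB 3 : ℤ) := by
      exact_mod_cast congrArg (fun z : ℤ => (z : 𝓞 K)) hb
    refine ⟨m' * ((Nz m).gcdA 3 : ℤ), -s3 * ((Nz m).gcdB 3 : ℤ), ?_⟩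
    linear_combination -hb2 + (((Nz m).gcdA 3 : ℤ) : 𝓞 K) * hm' - (((Nz m).gcdB 3 : ℤ) : 𝓞 K) * s3_sq
  have hs : em s3 = sq3 := em_s3
  have key : ∀ x : ℂ, x ∈ PP.lattice → em m * x ∈ PP.lattice := fun x hx =>
    S3.mul_mem (Half_mem_iff.2 ⟨m, rfl⟩) hx
  have h1 : sq3 * (em d / em m) ∉ PP.lattice := by
    intro h
    obtain ⟨b, hb⟩ := Half_mem_iff.1 h
    have h2 : m * b = s3 * d := by
      apply Half_em_inj
      rw [Res_em_mul, Res_em_mul, hb, hs]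
      field_simp
    exact hd (hcop.dvd_of_dvd_mul_left (Dvd.intro b h2))
  have h3 : ∀ b : 𝓞 K, em b * 3 = em m → False := by
    intro b hb
    have h2 : b * 3 = m := by
      apply Half_em_inj
      rw [Res_em_mul, rt_em_three, hb]
    apply hm
    rw [← h2]
    exact s3_dvd_three.mul_left b
  refine ⟨h1, fun h => h1 (s3_mul_mem h), ?_, ?_⟩
  · intro h
    have h2 := key _ h
    obtain ⟨b, hb⟩ := Half_mem_iff.1 h2
    refine h3 (d - b) ?_
    rw [Res_em_sub, hb]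
    field_simp
    ring
  · intro h
    have h2 := key _ h
    obtain ⟨b, hb⟩ := Half_mem_iff.1 h2
    refine h3 (b - d) ?_
    rw [Res_em_sub, hb]
    field_simp
    ring

/-- points of order prime to `3` -/
theorem good_cop {A : ValuationSubring ℂ} (hA : Three A) {m : 𝓞 K} (hm : ¬ s3 ∣ m) {d : 𝓞 K} (hd : ¬ m ∣ d) :
    Gd A (em d / em m) ∧ Gd A (sq3 * (em d / em m)) := by
  obtain ⟨h1, h2, _, _⟩ := s3_mul_notMem hm hd
  have hm0 : em m ≠ 0 := by
    intro h0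
    have h1 : m = 0 := Half_em_inj (by rw [h0, Res_em_zero])
    rw [h1] at hm
    exact hm (dvd_zero _)
  obtain ⟨m', hm'⟩ := dvd_Nz m
  have hn : (Nz m).Coprime 3 := by
    rw [Nat.coprime_comm, Nat.Prime.coprime_iff_not_dvd Nat.prime_three, ← s3_dvd_iff]
    exact hm
  have hN : em m * em m' = ((Nz m : ℕ) : ℂ) := by
    rw [← Res_em_mul, hm']
    exact rt_em_nat _
  have h3 : ((Nz m : ℕ) : ℂ) * (em d / em m) ∈ PP.lattice := by
    refine Half_mem_iff.2 ⟨m' * d, ?_⟩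
    rw [Res_em_mul, ← hN]
    field_simp
  refine ⟨Gd_cop hA hn h3 h2, Gd_cop hA hn ?_ h1⟩
  have h4 := s3_mul_mem h3
  rwa [show sq3 * (((Nz m : ℕ) : ℂ) * (em d / em m)) = ((Nz m : ℕ) : ℂ) * (sq3 * (em d / em m)) by ring] at h4

/-- the value of `PhC 0` -/
theorem phC_zero (z : ℂ) : PhC 0 z = sq3 * E1 (sq3 * z) := by
  rw [PhC, Phz_sum, neg_zero, e3_zero, Phz_one]

section

variable {μ : 𝓞 K} {ι : Type} {c : ι → 𝓞 K}

theorem three_dvd_not (hμ : (3 : 𝓞 K) ∣ μ - 1) : ¬ s3 ∣ μ := by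
  intro h
  have h1 : s3 ∣ (1 : 𝓞 K) := by
    have h2 := dvd_sub h (s3_dvd_three.trans hμ)
    rwa [sub_sub_cancel] at h2
  have h3 : r3 1 = 0 := r3_eq_zero.2 h1
  rw [map_one] at h3
  exact absurd h3 (by decide)

/-- the point `c / (3 μ) - 1 / 3` -/
def qt (μ a : 𝓞 K) : ℂ := em a / em (3 * μ) - 1 / 3

theorem qt_eq (hμ : (3 : 𝓞 K) ∣ μ - 1) {a : 𝓞 K} (ha : (3 : 𝓞 K) ∣ a - 1) (hc : IsCoprime a (3 * μ)) (hu : ¬ IsUnit μ) :
    ∃ d : 𝓞 K, a = μ + 3 * d ∧ ¬ μ ∣ d ∧ qt μ a = em d / em μ := by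
  have hm0 : em μ ≠ 0 := rt_em_ne (by
    rintro rfl
    exact three_dvd_not hμ (dvd_zero _))
  obtain ⟨d, hd⟩ : (3 : 𝓞 K) ∣ a - μ := by
    have e : a - μ = (a - 1) - (μ - 1) := by ring
    rw [e]
    exact dvd_sub ha hμ
  refine ⟨d, by linear_combination hd, ?_, ?_⟩
  · rintro ⟨b, hb⟩
    apply hu
    have h1 : a = μ * (1 + 3 * b) := by linear_combination hd + 3 * hb
    obtain ⟨x, y, hxy⟩ := hc
    refine IsUnit.of_mul_eq_one (x * (1 + 3 * b) + y * 3) ?_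
    rw [h1] at hxy
    linear_combination hxy
  · have e1 : a = μ + 3 * d := by linear_combination hd
    rw [qt, e1, rt_em_add, rt_em_mul, rt_em_mul, rt_em_three]
    field_simp
    ring

/-- the involution of the representatives -/
theorem rep_inv (hμ : (3 : 𝓞 K) ∣ μ - 1) (hc : RepsG 3 (3 * μ) c) (i : ι) : ∃ j, 3 * μ ∣ 2 * μ - c i - c j := by
  refine hc.ex (2 * μ - c i) ?_ ?_
  · obtain ⟨x, y, hxy⟩ := hc.cop i
    obtain ⟨d, hd⟩ := hμ
    obtain ⟨g, hg⟩ := hc.fx i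
    -- coprime to `3 μ`: a prime factor of both divides `c i` (if it divides `μ`) or `1` (if it divides `3`)
    have h3 : IsCoprime (2 * μ - c i) (3 : 𝓞 K) := ⟨1, -(2 * d - g), by linear_combination 2 * hd - hg⟩
    have hm : IsCoprime (2 * μ - c i) μ := ⟨-x, 2 * x + 3 * y, by linear_combination hxy⟩
    exact h3.mul_right hm
  · obtain ⟨d, hd⟩ := hμ
    obtain ⟨g, hg⟩ := hc.fx i
    exact ⟨2 * d - g, by linear_combination 2 * hd - hg⟩

/-- **the sum over the representatives**, `k = 0` -/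
theorem phC0_sum [Fintype ι] (hμ : (3 : 𝓞 K) ∣ μ - 1) (hu : ¬ IsUnit μ) (hc : RepsG 3 (3 * μ) c) (w : 𝓞 K → ℂ)
    (hw : ∀ a b, μ ∣ a - b → w a = w b) (hw' : ∀ a, w (-a) = w a) :
    ∑ i, w (c i) * PhC 0 (em (c i) / em (3 * s3 * μ)) =
      em s3 * E1 (1 / 3) * ∑ i, w (c i) * (1 + rho (qt μ (c i))) := by
  classical
  have hm0 : em μ ≠ 0 := rt_em_ne (by
    rintro rfl
    exact three_dvd_not hμ (dvd_zero _))
  have hs : em s3 = sq3 := em_s3
  have hs0 := sq3_ne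
  choose σ hσ using fun i => rep_inv hμ hc i
  have hσσ : ∀ i, σ (σ i) = i := by
    intro i
    apply hc.inj
    have h1 := dvd_sub (hσ i) (hσ (σ i))
    have e : 2 * μ - c i - c (σ i) - (2 * μ - c (σ i) - c (σ (σ i))) = c (σ (σ i)) - c i := by ring
    rwa [e] at h1
  let E : Equiv.Perm ι := ⟨σ, σ, hσσ, hσσ⟩
  have hz : ∀ i, PhC 0 (em (c i) / em (3 * s3 * μ)) = sq3 * E1 (1 / 3 + qt μ (c i)) := by
    intro i
    rw [phC_zero]
    congr 2
    rw [qt, rt_em_mul, rt_em_mul, rt_em_mul, rt_em_three, hs]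
    field_simp
    ring
  have hw1 : ∀ i, w (c (σ i)) = w (c i) := by
    intro i
    rw [← hw' (c i)]
    apply hw
    obtain ⟨g, hg⟩ := hσ i
    exact ⟨2 - 3 * g, by linear_combination -hg⟩
  have hE : ∀ i, E1 (1 / 3 + qt μ (c (σ i))) = E1 (1 / 3 - qt μ (c i)) := by
    intro i
    obtain ⟨g, hg⟩ := hσ i
    have h1 : E1 (1 / 3 - qt μ (c i)) = E1 (1 / 3 + qt μ (c (σ i)) + em g) := by
      congr 1
      have h2 := congrArg em hg
      rw [rt_em_sub, rt_em_sub, rt_em_mul, rt_em_mul, rt_em_mul, rt_em_three, Res_em_two] at h2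
      rw [qt, qt, rt_em_mul, rt_em_three]
      field_simp
      linear_combination h2
    rw [h1, S3.E1_add (Half_mem_iff.2 ⟨g, rfl⟩)]
  have h1 : ∑ i, w (c i) * PhC 0 (em (c i) / em (3 * s3 * μ)) = sq3 * ∑ i, w (c i) * E1 (1 / 3 + qt μ (c i)) := by
    rw [Finset.mul_sum]
    refine Finset.sum_congr rfl fun i _ => ?_
    rw [hz]
    ring
  have h2 : ∑ i, w (c i) * E1 (1 / 3 + qt μ (c i)) = ∑ i, w (c i) * E1 (1 / 3 - qt μ (c i)) := by
    rw [← Equiv.sum_comp E (fun i => w (c i) * E1 (1 / 3 + qt μ (c i)))]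
    refine Finset.sum_congr rfl fun i _ => ?_
    change w (c (σ i)) * E1 (1 / 3 + qt μ (c (σ i))) = _
    rw [hw1, hE]
  have h3 : ∀ i, E1 (1 / 3 + qt μ (c i)) + E1 (1 / 3 - qt μ (c i)) = 2 * E1 (1 / 3) * (1 + rho (qt μ (c i))) := by
    intro i
    obtain ⟨d, _, hd, e⟩ := qt_eq hμ (hc.fx i) (hc.cop i) hu
    rw [e]
    obtain ⟨_, a1, a2, a3⟩ := s3_mul_notMem (three_dvd_not hμ) hd
    exact (pair_eq a1 a2 a3).2
  have h4 : 2 * ∑ i, w (c i) * E1 (1 / 3 + qt μ (c i)) = 2 * (E1 (1 / 3) * ∑ i, w (c i) * (1 + rho (qt μ (c i)))) := by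
    have h5 : 2 * ∑ i, w (c i) * E1 (1 / 3 + qt μ (c i)) =
        ∑ i, w (c i) * (E1 (1 / 3 + qt μ (c i)) + E1 (1 / 3 - qt μ (c i))) := by
      rw [two_mul]
      nth_rewrite 2 [h2]
      rw [← Finset.sum_add_distrib]
      exact Finset.sum_congr rfl fun i _ => by ring
    rw [h5, Finset.mul_sum, Finset.mul_sum]
    refine Finset.sum_congr rfl fun i _ => ?_
    rw [h3]
    ring
  rw [h1, hs, mul_assoc]
  congr 1
  exact mul_left_cancel₀ two_ne_zero h4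

/-- the corrections are small -/
theorem v_rho_rep {A : ValuationSubring ℂ} (hA : Three A) (hμ : (3 : 𝓞 K) ∣ μ - 1) (hu : ¬ IsUnit μ)
    (hc : RepsG 3 (3 * μ) c) (i : ι) : A.valuation (rho (qt μ (c i))) < A.valuation sq3 := by
  obtain ⟨d, _, hd, e⟩ := qt_eq hμ (hc.fx i) (hc.cop i) hu
  rw [e]
  obtain ⟨a0, _, _, _⟩ := s3_mul_notMem (three_dvd_not hμ) hd
  obtain ⟨b1, b2⟩ := good_cop hA (three_dvd_not hμ) hd
  exact v_rho_lt hA a0 b1 b2

end

end

end Pool.Agent.Lib.MP_1a91b9_ntK
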