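import Pool.Agent.Lib.MP_1a91b9_ntK.A.Ind3
import Pool.Agent.Lib.MP_1a91b9_ntK.A.Phi0
import Pool.Agent.Lib.MP_1a91b9_ntK.A.Cnt0

/-!
# Cubic twists, part A, file Ind0: the residue class of the normalised value, `k = 0`
-/

set_option autoImplicit false

namespace Pool.Agent.Lib.MP_1a91b9_ntK

open NumberField IsDedekindDomain Pool.Agent.Lib.MP_1a91b9_ntT Pool.Agent.Lib.MP_1a91b9_ntG
open Pool.Agent.Lib.MP_1a91b9_ntH (wO s3 cp s3_sq s3_ne s3_not_isUnit s3_dvd_three Nz Half_mem_iff)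

noncomputable section

/-- the normalisation, `k = 0` -/
def N0 : ℂ := em s3 * E1 (1 / 3)

/-- the normalised value, `k = 0` -/
def nu0 (e : P3 → ZMod 3) (S : Finset P3) : ℂ :=
  Lk 0 e S 1 * em (3 * s3 * DD3 S) / (N0 * (1 - zt) ^ (S.card + 1))

theorem E13_ne : E1 (1 / 3) ≠ 0 := by
  intro h
  have h1 := S3.E1_third_mul_Y
  rw [h] at h1
  have h2 := X0_ne
  have e0 : S3.X (1 / 3) = X0 := rfl
  rw [e0, zero_div, zero_mul] at h1
  exact neg_ne_zero.2 (pow_ne_zero 2 h2) h1.symm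

theorem N0_ne : N0 ≠ 0 := mul_ne_zero (rt_em_ne s3_ne) E13_ne

theorem th_zero (x : 𝓞 K) : th 0 x = 1 := by
  rw [th, zero_mul, neg_zero, e3_zero]

theorem kapK_zero (q : P3) : kapK 0 q = 0 := by
  rw [kapK, zero_mul, neg_zero]

theorem chq_neg (q : P3) (t : ZMod 3) (x : 𝓞 K) : chq q t (-x) = chq q t x := by
  have hG := P3.g3 q
  have h1 : (-1 : 𝓞 K) ∉ Ideal.span {q.1} := by
    rw [Ideal.mem_span_singleton]
    intro h
    exact q.2.1.not_isUnit (isUnit_of_dvd_one ((dvd_neg).1 h))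
  have h2 := Pool.Agent.Lib.MP_1a91b9_ntX.R.cs_mul hG h1 h1
  rw [neg_mul_neg, one_mul, Pool.Agent.Lib.MP_1a91b9_ntX.R.cs_one hG] at h2
  have h3 : ∀ a : ZMod 3, 0 = a + a → a = 0 := by decide
  have h4 : cq q (-1) = 0 := h3 _ h2
  have h5 : chq q t (-1) = 1 := by
    have h6 : ¬ q.1 ∣ (-1 : 𝓞 K) := by
      rwa [← Ideal.mem_span_singleton]
    rw [chq_of_not h6, h4, mul_zero, e3_zero]
  rw [← neg_one_mul, (chq_chrP q t).mul, h5, one_mul]

theorem DD3_unit {S : Finset P3} (hS : S.Nonempty) : ¬ IsUnit (DD3 S) := by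
  obtain ⟨q, hq⟩ := hS
  intro h
  exact q.2.1.not_isUnit (isUnit_of_dvd_unit (dvd_DD3.2 hq) h)

theorem N0_empty (e : P3 → ZMod 3) : Lk 0 e ∅ 1 * em (3 * s3 * DD3 ∅) = N0 := by
  obtain ⟨ι, hι, c, hc⟩ := RepsG.exists_reps (f := (3 : 𝓞 K)) (ν := 3 * DD3 ∅)
    (mul_ne_zero (by norm_num) (DD3_ne ∅)) (dvd_mul_right _ _) (dvd_mul_right _ _)
  have h1 := avg3 0 e ∅ hc
  have h2 := cnt3_empty hc
  have h3 : ∀ i, PhC 0 (em (c i) / em (3 * s3 * DD3 ∅)) = N0 := by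
    intro i
    obtain ⟨y, hy⟩ := hc.fx i
    have h4 : c i = 1 + 3 * y := by linear_combination hy
    have hs : em s3 = sq3 := em_s3
    have hs0 := sq3_ne
    have h5 : sq3 * (em (c i) / em (3 * s3 * DD3 ∅)) = 1 / 3 + em y := by
      rw [DD3_empty, mul_one, h4, rt_em_add, rt_em_mul, rt_em_mul, rt_em_one, rt_em_three, hs]
      field_simp
    rw [phC_zero, h5, S3.E1_add (Half_mem_iff.2 ⟨y, rfl⟩), N0, hs]
  have hE : em (3 * s3 * DD3 ∅) ≠ 0 :=
    rt_em_ne (mul_ne_zero (mul_ne_zero (by norm_num) s3_ne) (DD3_ne ∅))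
  rw [Finset.powerset_empty, Finset.sum_singleton, Finset.card_empty, pow_zero, one_mul,
    Finset.sdiff_self, Finset.prod_empty, mul_one] at h1
  rw [h1]
  have h4 : ∀ i, th 0 (c i) * (∏ q ∈ ∅, (1 - chq q (e q) (c i))) *
      PhC 0 (em (c i) / em (3 * s3 * DD3 ∅)) = N0 := by
    intro i
    rw [h3, th_zero, Finset.prod_empty, one_mul, one_mul]
  rw [Finset.sum_congr rfl fun i _ => h4 i, Finset.sum_const, Finset.card_univ, h2, one_smul]
  field_simp

theorem nu0_empty (e : P3 → ZMod 3) : nu0 e ∅ = (1 - zt)⁻¹ := by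
  have h := N0_ne
  have h2 := one_sub_zt_ne
  rw [nu0, N0_empty, Finset.card_empty, zero_add, pow_one]
  field_simp

/-- the averaging identity, normalised -/
theorem avg_nu0 (e : P3 → ZMod 3) {S : Finset P3} (hS : S.Nonempty) (he : ∀ q ∈ S, e q ≠ 0)
    {ι : Type} [Fintype ι] {c : ι → 𝓞 K} (hc : RepsG 3 (3 * DD3 S) c) :
    ∑ T ∈ S.powerset, (-1) ^ T.card *
        (nu0 e T * ∏ q ∈ S \ T, ((em q.1 - Xk 0 e T q.1) / (1 - zt))) =
      (∏ q ∈ S, ((Nz q.1 : ℂ) - 1)) / (1 - zt) ^ (S.card + 1) +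
      ∑ i, (∏ q ∈ S, ((1 - chq q (e q) (c i)) / (1 - zt))) *
        (rho (qt (DD3 S) (c i)) / (1 - zt)) := by
  have hw : (1 : ℂ) - zt ≠ 0 := one_sub_zt_ne
  have hN := N0_ne
  have hE : em (3 * s3 * DD3 S) ≠ 0 :=
    rt_em_ne (mul_ne_zero (mul_ne_zero (by norm_num) s3_ne) (DD3_ne S))
  have hwS : (1 - zt) ^ (S.card + 1) ≠ 0 := pow_ne_zero _ hw
  have hA : ∑ i, th 0 (c i) * (∏ q ∈ S, (1 - chq q (e q) (c i))) *
      PhC 0 (em (c i) / em (3 * s3 * DD3 S)) =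
      N0 * ∑ i, (∏ q ∈ S, (1 - chq q (e q) (c i))) * (1 + rho (qt (DD3 S) (c i))) := by
    have h1 := phC0_sum (DD3_three S) (DD3_unit hS) hc
      (fun x => ∏ q ∈ S, (1 - chq q (e q) x))
      (fun a b hab => Finset.prod_congr rfl fun q hq => by
        rw [(chq_chrP q (e q)).per a b ((dvd_DD3.2 hq).trans hab)])
      (fun a => Finset.prod_congr rfl fun q _ => by rw [chq_neg])
    rw [N0, ← h1]
    refine Finset.sum_congr rfl fun i _ => ?_
    rw [th_zero, one_mul]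
  have h1 : em (3 * s3 * DD3 S) / (N0 * (1 - zt) ^ (S.card + 1)) * (∑ T ∈ S.powerset,
        (-1) ^ T.card * (Lk 0 e T 1 * ∏ q ∈ S \ T, (1 - Xk 0 e T q.1 / em q.1))) =
      em (3 * s3 * DD3 S) / (N0 * (1 - zt) ^ (S.card + 1)) * ((em (3 * s3 * DD3 S))⁻¹ *
        ∑ i, th 0 (c i) * (∏ q ∈ S, (1 - chq q (e q) (c i))) *
          PhC 0 (em (c i) / em (3 * s3 * DD3 S))) := by
    rw [avg3 0 e S hc]
  rw [Finset.mul_sum] at h1
  have e1 : ∀ T ∈ S.powerset, em (3 * s3 * DD3 S) / (N0 * (1 - zt) ^ (S.card + 1)) *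
      ((-1) ^ T.card * (Lk 0 e T 1 * ∏ q ∈ S \ T, (1 - Xk 0 e T q.1 / em q.1))) =
      (-1) ^ T.card * (nu0 e T * ∏ q ∈ S \ T, ((em q.1 - Xk 0 e T q.1) / (1 - zt))) := by
    intro T hT
    rw [Finset.mem_powerset] at hT
    have h3 : S.card + 1 = (T.card + 1) + (S \ T).card := by
      rw [Finset.card_sdiff_of_subset hT]
      have := Finset.card_le_card hT
      omega
    have h4 : ∏ q ∈ S \ T, em q.1 ≠ 0 := Finset.prod_ne_zero_iff.2 fun q _ => rt_em_ne q.2.1.ne_zero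
    have h5 : ∏ q ∈ S \ T, (1 - Xk 0 e T q.1 / em q.1) =
        (∏ q ∈ S \ T, (em q.1 - Xk 0 e T q.1)) / ∏ q ∈ S \ T, em q.1 := by
      rw [← Finset.prod_div_distrib]
      refine Finset.prod_congr rfl fun q _ => ?_
      have h6 := rt_em_ne q.2.1.ne_zero
      field_simp
    rw [h5, DD3_sdiff hT, Finset.prod_div_distrib, Finset.prod_const, nu0, h3,
      pow_add (1 - zt) (T.card + 1)]
    have h7 : (1 - zt) ^ (T.card + 1) ≠ 0 := pow_ne_zero _ hw
    have h8 : (1 - zt) ^ (S \ T).card ≠ 0 := pow_ne_zero _ hw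
    field_simp
  rw [Finset.sum_congr rfl e1] at h1
  rw [h1, hA]
  have e2 : ∑ i, (∏ q ∈ S, (1 - chq q (e q) (c i))) * (1 + rho (qt (DD3 S) (c i))) =
      (∏ q ∈ S, ((Nz q.1 : ℂ) - 1)) +
        ∑ i, (∏ q ∈ S, (1 - chq q (e q) (c i))) * rho (qt (DD3 S) (c i)) := by
    rw [← cnt0 e S he hc, ← Finset.sum_add_distrib]
    exact Finset.sum_congr rfl fun i _ => by ring
  have e3' : ∀ i, (∏ q ∈ S, ((1 - chq q (e q) (c i)) / (1 - zt))) *
        (rho (qt (DD3 S) (c i)) / (1 - zt)) =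
      ((∏ q ∈ S, (1 - chq q (e q) (c i))) * rho (qt (DD3 S) (c i))) *
        ((1 - zt) ^ (S.card + 1))⁻¹ := by
    intro i
    rw [Finset.prod_div_distrib, Finset.prod_const, pow_succ]
    field_simp
  rw [e2, Finset.sum_congr rfl fun i _ => e3' i, ← Finset.sum_mul]
  field_simp

section
variable {A : ValuationSubring ℂ}

theorem v_zt_eq : A.valuation (1 - zt) = A.valuation sq3 := by
  have h1 : A.valuation zt = 1 := by
    have h2 : A.valuation zt ^ 3 = 1 := by rw [← map_pow, S3.zt_cube, map_one]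
    exact (pow_eq_one_iff_of_nonneg zero_le (by norm_num)).1 h2
  have h3 : (1 - zt) ^ 2 = 3 * -zt := by
    linear_combination S3.zt_quad
  have h4 : A.valuation (1 - zt) ^ 2 = A.valuation sq3 ^ 2 := by
    rw [← map_pow, h3, map_mul, Valuation.map_neg, h1, mul_one, v_sq3]
  exact (pow_left_inj₀ zero_le zero_le (by norm_num)).1 h4

theorem three_div : (3 : ℂ) / (1 - zt) ^ 2 = 1 + zt := by
  have h := one_sub_zt_ne
  rw [div_eq_iff (pow_ne_zero 2 h)]
  linear_combination S3.zt_quad - S3.zt_cube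

theorem Rt_three (hA : Three A) : Rt A ((3 : ℂ) / (1 - zt) ^ 2) (-1) := by
  rw [three_div]
  have h := (Rt.one (A := A)).add (Rt_zt hA)
  have e : (1 : ZMod 3) + 1 = -1 := by decide
  rwa [e] at h

theorem Rt_em0 (hA : Three A) (q : P3) : Rt A ((em q.1 - 1) / (1 - zt) ^ 2) (-abar q.1) := by
  obtain ⟨y, hy⟩ := q.2.2
  have h1 : q.1 = 1 + 3 * y := by linear_combination hy
  have h2 : (em q.1 - 1) / (1 - zt) ^ 2 = em y * (3 / (1 - zt) ^ 2) := by
    rw [h1, rt_em_add, rt_em_mul, rt_em_one, rt_em_three]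
    ring
  have h3 := (Rt.of (A := A) y).mul (Rt_three hA)
  rw [h2]
  have h4 : abar q.1 = r3 y := by rw [h1, abar_eq]
  rw [h4, ← mul_neg_one]
  exact h3

theorem Rt_N0 (hA : Three A) (q : P3) : Rt A (((Nz q.1 : ℂ) - 1) / (1 - zt) ^ 2) (abar q.1) := by
  have h0 : In3 q.1 := q.2.2
  obtain ⟨n, hn⟩ : ∃ n : ℕ, Nz q.1 = 1 + 3 * n := ⟨(Nz q.1 - 1) / 3, by
    have := h0.Nz_mod
    omega⟩
  have h1 := cl3_Nz h0
  have h2 : (Nz q.1 - 1) / 3 = n := by omega
  rw [h2, cl3_q] at h1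
  have h3 : abar q.1 = -(n : ZMod 3) := by
    rw [← h1]
    change abar q.1 = -cq q wO
    rw [abar_q, neg_neg]
  have h4 : ((Nz q.1 : ℂ) - 1) / (1 - zt) ^ 2 = (n : ℂ) * (3 / (1 - zt) ^ 2) := by
    rw [hn]
    push_cast
    ring
  have h5 := (Rt.int (A := A) (n : ℤ)).mul (Rt_three hA)
  rw [h4, h3, ← mul_neg_one]
  push_cast at h5
  exact h5

theorem Rt_pow0 (hA : Three A) {n : ℕ} (hn : n ≠ 0) : Rt A ((1 - zt) ^ n) 0 := by
  have h := (Rt.one (A := A)).sub (Rt_zt hA)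
  rw [sub_self] at h
  have h1 := h.pow n
  rwa [zero_pow hn] at h1

theorem Rt_prod0 (hA : Three A) {S : Finset P3} (hS : S.Nonempty) {x : P3 → ℂ} {y : P3 → ZMod 3}
    (h : ∀ q ∈ S, Rt A (x q / (1 - zt) ^ 2) (y q)) :
    Rt A ((∏ q ∈ S, x q) / (1 - zt) ^ (S.card + 1)) (if S.card = 1 then ∑ q ∈ S, y q else 0) := by
  have hw := one_sub_zt_ne
  have h0 := hS.card_pos
  have e : (∏ q ∈ S, x q) / (1 - zt) ^ (S.card + 1) =
      (∏ q ∈ S, (x q / (1 - zt) ^ 2)) * (1 - zt) ^ (S.card - 1) := by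
    rw [Finset.prod_div_distrib, Finset.prod_const, ← pow_mul, div_mul_eq_mul_div,
      div_eq_div_iff (pow_ne_zero _ hw) (pow_ne_zero _ hw), mul_assoc, ← pow_add]
    congr 2
    omega
  have h1 := Rt.prod S h
  rw [e]
  split_ifs with hc
  · obtain ⟨q, rfl⟩ := Finset.card_eq_one.1 hc
    rw [Finset.card_singleton, Nat.sub_self, pow_zero, mul_one, Finset.sum_singleton,
      Finset.prod_singleton]
    rwa [Finset.prod_singleton, Finset.prod_singleton] at h1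
  · have h2 := h1.mul (Rt_pow0 hA (n := S.card - 1) (by omega))
    rwa [mul_zero] at h2

/-- **The residue class of the normalised value**, `k = 0`. -/
theorem nu0_res (hA : Three A) {e : P3 → ZMod 3} {S : Finset P3} (hS : S.Nonempty)
    (he : ∀ q ∈ S, e q ≠ 0) :
    Rt A (nu0 e S) (CZ (fun i p => d3.s i p * e p) (fun q => abar q.1) S) := by
  classical
  induction S using Finset.strongInduction with
  | H S ih =>
  obtain ⟨ι, hι, c, hc⟩ := RepsG.exists_reps (f := (3 : 𝓞 K)) (ν := 3 * DD3 S)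
    (mul_ne_zero (by norm_num) (DD3_ne S)) (dvd_mul_right _ _) (dvd_mul_right _ _)
  have hE := avg_nu0 e hS he hc
  -- the right hand side
  have hR1 := Rt_prod0 hA hS (x := fun q => (Nz q.1 : ℂ) - 1) fun q _ => Rt_N0 hA q
  have hR2 : Rt A (∑ i, (∏ q ∈ S, ((1 - chq q (e q) (c i)) / (1 - zt))) *
        (rho (qt (DD3 S) (c i)) / (1 - zt)))
      (∑ i : ι, (∏ q ∈ S, (e q * cq q (c i))) * 0) := by
    refine Rt.sum _ fun i _ => ?_
    have h1 : Rt A (∏ q ∈ S, ((1 - chq q (e q) (c i)) / (1 - zt))) (∏ q ∈ S, (e q * cq q (c i))) := by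
      refine Rt.prod _ fun q hq => ?_
      have h2 : ¬ q.1 ∣ c i := by
        intro hd
        have h3 : q.1 ∣ 3 * DD3 S := (Finset.dvd_prod_of_mem (fun p : P3 => p.1) hq).mul_left _
        exact q.2.1.not_isUnit ((hc.cop i).isUnit_of_dvd' hd h3)
      rw [chq_of_not h2]
      exact Rt_diff hA _
    refine h1.mul ((Rt.zero_iff hA).2 ?_)
    rw [map_div₀, v_zt_eq]
    have h2 := v_rho_rep hA (DD3_three S) (DD3_unit hS) hc i
    have h3 : 0 < A.valuation sq3 := v_sq3_pos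
    exact (div_lt_one₀ h3).2 h2
  have hR := hR1.add hR2
  have e0 : (if S.card = 1 then ∑ q ∈ S, abar q.1 else 0) +
      ∑ i : ι, (∏ q ∈ S, (e q * cq q (c i))) * 0 = if S.card = 1 then ∑ q ∈ S, abar q.1 else 0 := by
    simp
  rw [e0, ← hE] at hR
  -- the empty set
  have hm : (∅ : Finset P3) ∈ S.powerset := Finset.empty_mem_powerset S
  have hD : S ∈ S.powerset.erase ∅ := Finset.mem_erase.2 ⟨hS.ne_empty, Finset.mem_powerset_self S⟩
  rw [← Finset.add_sum_erase _ _ hm, ← Finset.add_sum_erase _ _ hD, Finset.sdiff_self,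
    Finset.prod_empty, mul_one, Finset.card_empty, pow_zero, one_mul, Finset.sdiff_empty,
    nu0_empty] at hR
  have hR3 := Rt_prod0 hA hS (x := fun q => em q.1 - 1) fun q _ => Rt_em0 hA q
  have e1 : (1 - zt)⁻¹ * ∏ q ∈ S, ((em q.1 - Xk 0 e ∅ q.1) / (1 - zt)) =
      (∏ q ∈ S, (em q.1 - 1)) / (1 - zt) ^ (S.card + 1) := by
    have h1 : ∀ q ∈ S, (em q.1 - Xk 0 e ∅ q.1) / (1 - zt) = (em q.1 - 1) / (1 - zt) := by
      intro q _
      rw [Xk_val 0 e (Finset.notMem_empty q), kapK_zero, Finset.sum_empty, add_zero, e3_zero]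
    have hw := one_sub_zt_ne
    rw [Finset.prod_congr rfl h1, Finset.prod_div_distrib, Finset.prod_const, pow_succ]
    field_simp
  rw [e1] at hR
  -- the sum over the proper subsets
  have hS2 : Rt A (∑ T ∈ (S.powerset.erase ∅).erase S, (-1) ^ T.card *
        (nu0 e T * ∏ q ∈ S \ T, ((em q.1 - Xk 0 e T q.1) / (1 - zt))))
      (∑ T ∈ (S.powerset.erase ∅).erase S, (-1) ^ T.card *
        (CZ (fun i p => d3.s i p * e p) (fun q => abar q.1) T *
        ∏ q ∈ S \ T, (∑ p ∈ T, d3.s q p * e p))) := by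
    refine Rt.sum _ fun T hT => ?_
    rw [Finset.mem_erase, Finset.mem_erase, Finset.mem_powerset] at hT
    have h1 : Rt A ((-1) ^ T.card) ((-1) ^ T.card) := (Rt.one.neg).pow _
    refine h1.mul ((ih T (Finset.ssubset_iff_subset_ne.2 ⟨hT.2.2, hT.1⟩)
      (Finset.nonempty_iff_ne_empty.2 hT.2.1)
      fun q hq => he q (hT.2.2 hq)).mul (Rt.prod _ fun q hq => ?_))
    rw [Xk_val 0 e (Finset.mem_sdiff.1 hq).2, kapK_zero, zero_add]
    exact Rt_factor hA q _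
  have h := (hR.sub hR3).sub hS2
  have h1 : Rt A ((-1) ^ S.card) ((-1) ^ S.card) := (Rt.one.neg).pow _
  have h2 := h1.mul h
  have e2 : ((-1 : ℂ)) ^ S.card * ((∏ q ∈ S, (em q.1 - 1)) / (1 - zt) ^ (S.card + 1) +
      ((-1) ^ S.card * nu0 e S + ∑ T ∈ (S.powerset.erase ∅).erase S, (-1) ^ T.card *
        (nu0 e T * ∏ q ∈ S \ T, ((em q.1 - Xk 0 e T q.1) / (1 - zt)))) -
      (∏ q ∈ S, (em q.1 - 1)) / (1 - zt) ^ (S.card + 1) -
      ∑ T ∈ (S.powerset.erase ∅).erase S, (-1) ^ T.card *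
        (nu0 e T * ∏ q ∈ S \ T, ((em q.1 - Xk 0 e T q.1) / (1 - zt)))) = nu0 e S := by
    have h3 : ((-1 : ℂ)) ^ S.card * (-1) ^ S.card = 1 := by
      rw [← mul_pow, neg_one_mul, neg_neg, one_pow]
    linear_combination nu0 e S * h3
  have h5 : (-1 : ZMod 3) ^ S.card * (-1) ^ S.card = 1 := by
    rw [← mul_pow, neg_one_mul, neg_neg, one_pow]
  have h6 := forest_zero (fun i p => d3.s i p * e p) (fun q : P3 => abar q.1) hS
  rw [← Finset.add_sum_erase _ _ hD, Finset.sdiff_self, Finset.prod_empty, mul_one] at h6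
  have e3' : (-1 : ZMod 3) ^ S.card * ((if S.card = 1 then ∑ q ∈ S, abar q.1 else 0) -
      (if S.card = 1 then ∑ q ∈ S, -abar q.1 else 0) -
      ∑ T ∈ (S.powerset.erase ∅).erase S, (-1) ^ T.card *
        (CZ (fun i p => d3.s i p * e p) (fun q => abar q.1) T *
        ∏ q ∈ S \ T, (∑ p ∈ T, d3.s q p * e p))) =
      CZ (fun i p => d3.s i p * e p) (fun q => abar q.1) S := by
    have h7 : (if S.card = 1 then ∑ q ∈ S, abar q.1 else 0) -
        (if S.card = 1 then ∑ q ∈ S, -abar q.1 else 0) =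
        if S.card = 1 then -∑ q ∈ S, abar q.1 else 0 := by
      split_ifs
      · rw [Finset.sum_neg_distrib]
        have h8 : ∀ a : ZMod 3, a - -a = -a := by decide
        exact h8 _
      · rw [sub_self]
    have h8 : ∑ T ∈ (S.powerset.erase ∅).erase S, (-1) ^ T.card *
        (CZ (fun i p => d3.s i p * e p) (fun q => abar q.1) T *
        ∏ q ∈ S \ T, (∑ p ∈ T, d3.s q p * e p)) =
        ∑ T ∈ (S.powerset.erase ∅).erase S, (-1) ^ T.card *
        CZ (fun i p => d3.s i p * e p) (fun q => abar q.1) T *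
        ∏ q ∈ S \ T, (∑ p ∈ T, d3.s q p * e p) :=
      Finset.sum_congr rfl fun T _ => by ring
    rw [h7, h8, ← h6]
    linear_combination CZ (fun i p => d3.s i p * e p) (fun q => abar q.1) S * h5
  rw [e2, e3'] at h2
  exact h2

end

theorem L0_ne {e : P3 → ZMod 3} {S : Finset P3} (hS : S.Nonempty) (he : ∀ q ∈ S, e q ≠ 0)
    (h : CZ (fun i p => d3.s i p * e p) (fun q => abar q.1) S ≠ 0) : Lk 0 e S 1 ≠ 0 := by
  obtain ⟨A, hA⟩ := exists_Three
  have h1 := (nu0_res hA hS he).unit hA h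
  intro h2
  rw [nu0, h2, zero_mul, zero_div, map_zero] at h1
  exact zero_ne_one h1

end

end Pool.Agent.Lib.MP_1a91b9_ntK
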