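import Pool.Agent.Lib.MP_1a91b9_ntK.A.SysH
import Pool.Agent.Lib.MP_1a91b9_ntK.A.Ind0

/-!
# Cubic twists, part A, file SysHA: the hard class `D = ± 1` modulo `3 √-3`, the analytic side
-/

set_option autoImplicit false

namespace Pool.Agent.Lib.MP_1a91b9_ntK

open NumberField IsDedekindDomain Pool.Agent.Lib.MP_1a91b9_ntT Pool.Agent.Lib.MP_1a91b9_ntG
open Pool.Agent.Lib.MP_1a91b9_ntH (wO s3 cp Nz)

noncomputable section

/-- the second coordinate of the class of a prime -/
def bP (q : P3) : ZMod 3 := bbar q.1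

/-- `μ(D)`, `k = 0` -/
def muH (e : P3 → ZMod 3) (S : Finset P3) : ℂ := Lk 0 e S 1 * em (3 * s3 * DD3 S) / N0

/-- the normalised value in the hard class -/
def xH (e : P3 → ZMod 3) (S : Finset P3) : ℂ := muH e S / (1 - zt) ^ (S.card + 2)

/-- the exponent of the block character of `i` -/
def tH (q0 i : P3) (x : 𝓞 K) : ZMod 3 := cq i x + epH aP q0 i * cq q0 x

/-- the weight of a class, for the block characters -/
def WH (e : P3 → ZMod 3) (q0 : P3) (I : Finset P3) (x : 𝓞 K) : ℂ :=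
  ∏ i ∈ I, (1 - e3 (e i * tH q0 i x))

end

end Pool.Agent.Lib.MP_1a91b9_ntK
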