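import Pool.Agent.Lib.MP_1a91b9_ntK.A.Gr0
import Pool.Agent.Lib.MP_1a91b9_ntK.A.GoodX
import Pool.Agent.Lib.MP_1a91b9_ntK.A.Avg2
import Pool.Agent.Lib.MP_1a91b9_ntK.A.SysHA

/-!
# Cubic twists, part A, file Case0H: the hard class, all primes in the trivial class modulo `3 √-3`

`D = ∏ q ^ (e q)`, `a_q = 0` for all `q`: the residue class of `nu0 e S / (1 - ω)` is `-CZ (s e) b S`.
-/

set_option autoImplicit false

namespace Pool.Agent.Lib.MP_1a91b9_ntK

open NumberField IsDedekindDomain Pool.Agent.Lib.MP_1a91b9_ntT Pool.Agent.Lib.MP_1a91b9_ntG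
open Pool.Agent.Lib.MP_1a91b9_ntH (wO s3 cp s3_sq s3_ne s3_not_isUnit s3_dvd_three Nz Half_mem_iff
  wO_quad Res_em_mul Half_em_inj Res_em_zero coord)

noncomputable section

/-! ### The sum of an invariant family -/

theorem c0_orbit {A : ValuationSubring ℂ} {ι : Type} [DecidableEq ι] (σ : Equiv.Perm ι)
    (h3 : ∀ i, σ (σ (σ i)) = i) (h1 : ∀ i, σ i ≠ i) {f : ι → ℂ} (hf : ∀ i, f (σ i) = f i)
    {B : A.ValueGroup} (hB : ∀ i, A.valuation (f i) ≤ B) (s : Finset ι)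
    (hs : ∀ i ∈ s, σ i ∈ s) : A.valuation (∑ i ∈ s, f i) ≤ A.valuation 3 * B := by
  induction s using Finset.strongInduction with
  | H s ih =>
  rcases s.eq_empty_or_nonempty with rfl | ⟨i, hi⟩
  · rw [Finset.sum_empty, map_zero]
    exact zero_le
  · have n1 : σ i ≠ i := h1 i
    have n2 : σ (σ i) ≠ σ i := h1 (σ i)
    have n3 : σ (σ i) ≠ i := by
      intro h
      have h4 := h3 i
      rw [h] at h4
      exact n1 h4
    have m1 : σ i ∈ s.erase i := Finset.mem_erase.2 ⟨n1, hs _ hi⟩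
    have m2 : σ (σ i) ∈ (s.erase i).erase (σ i) :=
      Finset.mem_erase.2 ⟨n2, Finset.mem_erase.2 ⟨n3, hs _ (hs _ hi)⟩⟩
    have hsub : ((s.erase i).erase (σ i)).erase (σ (σ i)) ⊂ s :=
      lt_of_le_of_lt ((Finset.erase_subset _ _).trans (Finset.erase_subset _ _))
        (Finset.erase_ssubset hi)
    have hst : ∀ j ∈ ((s.erase i).erase (σ i)).erase (σ (σ i)),
        σ j ∈ ((s.erase i).erase (σ i)).erase (σ (σ i)) := by
      intro j hj
      rw [Finset.mem_erase, Finset.mem_erase, Finset.mem_erase] at hj ⊢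
      obtain ⟨a1, a2, a3, a4⟩ := hj
      refine ⟨fun h => a2 (σ.injective h), fun h => a3 (σ.injective h), fun h => ?_, hs _ a4⟩
      apply a1
      apply σ.injective
      rw [h, h3]
    have h5 := ih _ hsub hst
    rw [← Finset.add_sum_erase _ _ hi, ← Finset.add_sum_erase _ _ m1,
      ← Finset.add_sum_erase _ _ m2]
    have e : f i + (f (σ i) + (f (σ (σ i)) +
        ∑ x ∈ ((s.erase i).erase (σ i)).erase (σ (σ i)), f x)) =
        3 * f i + ∑ x ∈ ((s.erase i).erase (σ i)).erase (σ (σ i)), f x := by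
      rw [hf (σ i), hf i]
      ring
    rw [e]
    refine A.valuation.map_add_le ?_ h5
    rw [map_mul]
    gcongr
    exact hB i

/-! ### The points -/

section
variable {S : Finset P3} {ι : Type} {c : ι → 𝓞 K} (hc : RepsG 3 (3 * DD3 S) c)

theorem c0_Od (hc : RepsG 3 (3 * DD3 S) c) (hS : S.Nonempty) (i : ι) :
    Od (qt (DD3 S) (c i)) := by
  obtain ⟨d, _, hd, e⟩ := qt_eq (DD3_three S) (hc.fx i) (hc.cop i) (DD3_unit hS)
  have hm : ¬ s3 ∣ DD3 S := three_dvd_not (DD3_three S)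
  obtain ⟨_, h1, _, _⟩ := s3_mul_notMem hm hd
  rw [e]
  refine ⟨h1, Nz (DD3 S), ?_, ?_⟩
  · rw [Nat.coprime_comm, Nat.Prime.coprime_iff_not_dvd Nat.prime_three, ← s3_dvd_iff]
    exact hm
  · obtain ⟨m', hm'⟩ := dvd_Nz (DD3 S)
    have hN : em (DD3 S) * em m' = ((Nz (DD3 S) : ℕ) : ℂ) := by
      rw [← Res_em_mul, hm']
      exact rt_em_nat _
    have hm0 : em (DD3 S) ≠ 0 := rt_em_ne (DD3_ne S)
    refine Half_mem_iff.2 ⟨m' * d, ?_⟩
    rw [Res_em_mul, ← hN]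
    field_simp

/-- the small correction -/
def zi (Q : ℂ) : ℂ := 1 + gQ Q / 4

theorem zi_rot {Q l : ℂ} (hl : l ∈ PP.lattice) : zi (zt * Q + l) = zi Q := by
  rw [zi, zi, gQ_rot hl]

theorem v_zi {A : ValuationSubring ℂ} (hA : Three A) {Q : ℂ} (hQ : Od Q) :
    A.valuation (zi Q) ≤ A.valuation sq3 := by
  have hs := hQ.s3_notMem
  have hY := S3.Y_sq (notMem_of_s3 hs)
  have h1 := v_Y_sq_le hA hQ
  have hX0 := X0_cube
  have hp := v_sq3_pos (A := A)
  have h30 : 0 < A.valuation (3 : ℂ) := by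
    rw [Valuation.pos_iff]
    norm_num
  have hy : A.valuation (S3.Y Q ^ 2 / 3) ≤ A.valuation sq3 := v_Y3_le hA hQ
  have hy1 : A.valuation (S3.Y Q ^ 2 / 3) < 1 := lt_of_le_of_lt hy (v_sq3_lt hA)
  have h2 : A.valuation (1 + S3.Y Q ^ 2 / 3) = 1 := by
    rw [Valuation.map_add_eq_of_lt_left, map_one]
    rwa [map_one]
  have h3 : (1 : ℂ) + S3.Y Q ^ 2 / 3 ≠ 0 := by
    intro h
    rw [h, map_zero] at h2
    exact zero_ne_one h2
  have e1 : X0 ^ 3 - S3.X Q ^ 3 = -(3 / 4) * (1 + S3.Y Q ^ 2 / 3) := by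
    rw [hX0, hY]
    ring
  have e2 : zi Q = (S3.Y Q ^ 2 / 3) / (1 + S3.Y Q ^ 2 / 3) := by
    rw [zi, gQ, e1]
    have h4 : (3 : ℂ) + S3.Y Q ^ 2 ≠ 0 := by
      intro h
      apply h3
      linear_combination (1 / 3) * h
    field_simp
    ring
  rw [e2, map_div₀, h2, div_one]
  exact hy

/-- the vanishing of the graded sums -/
theorem c0_van (hc : RepsG 3 (3 * DD3 S) c) [Fintype ι] (e : P3 → ZMod 3)
    (ha : ∀ q ∈ S, abar q.1 = 0) (n : ℕ) (hn : (n : ZMod 3) ≠ 0) :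
    ∑ i, (∏ q ∈ S, (1 - chq q (e q) (c i))) *
      (S3.X (qt (DD3 S) (c i)) ^ n * gQ (qt (DD3 S) (c i))) = 0 := by
  classical
  have h1 : ∀ i, (∏ q ∈ S, (1 - chq q (e q) (c i))) *
      (S3.X (qt (DD3 S) (c i)) ^ n * gQ (qt (DD3 S) (c i))) =
      ∑ T ∈ S.powerset, (-1) ^ T.card * ((∏ q ∈ T, chq q (e q) (c i)) *
        (S3.X (qt (DD3 S) (c i)) ^ n * gQ (qt (DD3 S) (c i)))) := by
    intro i
    rw [Finset.prod_sub, Finset.sum_mul]
    refine Finset.sum_congr rfl fun T _ => ?_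
    rw [Finset.prod_const_one]
    ring
  rw [Finset.sum_congr rfl fun i _ => h1 i, Finset.sum_comm]
  refine Finset.sum_eq_zero fun T hT => ?_
  have h2 : ∑ q ∈ T, e q * abar q.1 = 0 := Finset.sum_eq_zero fun q hq => by
    rw [ha q (Finset.mem_powerset.1 hT hq), mul_zero]
  rw [← Finset.mul_sum, gr0_zero hc e (Finset.mem_powerset.1 hT) n (by rw [h2]; exact hn), mul_zero]

theorem c0_rho (hc : RepsG 3 (3 * DD3 S) c) [Fintype ι] {A : ValuationSubring ℂ} (hA : Three A)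
    (e : P3 → ZMod 3) (hS : S.Nonempty) (he : ∀ q ∈ S, e q ≠ 0) (ha : ∀ q ∈ S, abar q.1 = 0) :
    ∑ i, (∏ q ∈ S, (1 - chq q (e q) (c i))) * rho (qt (DD3 S) (c i)) =
      -2 * (∏ q ∈ S, ((Nz q.1 : ℂ) - 1)) +
        2 * ∑ i, (∏ q ∈ S, (1 - chq q (e q) (c i))) * zi (qt (DD3 S) (c i)) := by
  have hX0 := X0_ne
  have h1 := c0_van hc e ha 1 (by decide)
  have h2 := c0_van hc e ha 2 (by decide)
  have h3 : ∀ i, (∏ q ∈ S, (1 - chq q (e q) (c i))) * rho (qt (DD3 S) (c i)) =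
      -2 * (∏ q ∈ S, (1 - chq q (e q) (c i))) +
      2 * ((∏ q ∈ S, (1 - chq q (e q) (c i))) * zi (qt (DD3 S) (c i))) +
      1 / (2 * X0) * ((∏ q ∈ S, (1 - chq q (e q) (c i))) *
        (S3.X (qt (DD3 S) (c i)) ^ 1 * gQ (qt (DD3 S) (c i)))) +
      1 / (2 * X0 ^ 2) * ((∏ q ∈ S, (1 - chq q (e q) (c i))) *
        (S3.X (qt (DD3 S) (c i)) ^ 2 * gQ (qt (DD3 S) (c i)))) := by
    intro i
    obtain ⟨a1, a2, a3⟩ := gr0_good hc hA hS i
    rw [rho_gQ (gQ_eq a1 a2 a3).1, zi]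
    field_simp
    ring
  rw [Finset.sum_congr rfl fun i _ => h3 i, Finset.sum_add_distrib, Finset.sum_add_distrib,
    Finset.sum_add_distrib, ← Finset.mul_sum, ← Finset.mul_sum, ← Finset.mul_sum, ← Finset.mul_sum,
    h1, h2, cnt0 e S he hc, mul_zero, mul_zero, add_zero, add_zero]

/-- the permutation of the classes -/
theorem c0_perm (hc : RepsG 3 (3 * DD3 S) c) [Finite ι] (hS : S.Nonempty) : ∃ σ : Equiv.Perm ι,
    (∀ i, 3 * DD3 S ∣ (wO * c i + (1 - wO) * DD3 S) - c (σ i)) ∧ (∀ i, σ (σ (σ i)) = i) ∧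
      ∀ i, σ i ≠ i := by
  obtain ⟨σ, hσ⟩ := gr0_rot hc
  refine ⟨σ, hσ, fun i => ?_, fun i h => ?_⟩
  · refine hc.inj _ _ ?_
    obtain ⟨t1, h1⟩ := hσ i
    obtain ⟨t2, h2⟩ := hσ (σ i)
    obtain ⟨t3', h3⟩ := hσ (σ (σ i))
    refine ⟨-(wO ^ 2 * t1) - wO * t2 - t3', ?_⟩
    linear_combination -h3 - wO * h2 - wO ^ 2 * h1 + (c i - DD3 S) * (wO - 1) * wO_quad
  · apply DD3_unit hS
    obtain ⟨t, ht⟩ := hσ i
    rw [h] at ht
    have h1 : DD3 S ∣ (1 - wO) * c i := ⟨(1 - wO) - 3 * t, by linear_combination -ht⟩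
    have h2 : IsCoprime (DD3 S) (c i) :=
      ((hc.cop i).of_isCoprime_of_dvd_right (dvd_mul_left (DD3 S) 3)).symm
    have h3 : DD3 S ∣ 1 - wO := h2.dvd_of_dvd_mul_right h1
    obtain ⟨u, hu⟩ := h3
    obtain ⟨v, hv⟩ := DD3_three S
    refine IsUnit.of_mul_eq_one (1 - v * (u * (2 + wO))) ?_
    linear_combination hv + v * (2 + wO) * hu + v * wO_quad

theorem c0_chq (e : P3 → ZMod 3) (ha : ∀ q ∈ S, abar q.1 = 0) {i j : ι}
    (h : 3 * DD3 S ∣ (wO * c i + (1 - wO) * DD3 S) - c j) :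
    ∏ q ∈ S, (1 - chq q (e q) (c j)) = ∏ q ∈ S, (1 - chq q (e q) (c i)) := by
  refine Finset.prod_congr rfl fun q hq => ?_
  have h1 := gr0_chq e (T := {q}) (Finset.singleton_subset_iff.2 hq) h
  rw [Finset.prod_singleton, Finset.prod_singleton, Finset.sum_singleton, ha q hq, mul_zero,
    neg_zero, e3_zero, one_mul] at h1
  rw [h1]

/-- **the valuation of the sum of the corrections** -/
theorem c0_sum (hc : RepsG 3 (3 * DD3 S) c) [Fintype ι] {A : ValuationSubring ℂ} (hA : Three A)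
    (e : P3 → ZMod 3) (hS : S.Nonempty) (ha : ∀ q ∈ S, abar q.1 = 0) :
    A.valuation (∑ i, (∏ q ∈ S, (1 - chq q (e q) (c i))) * zi (qt (DD3 S) (c i))) ≤
      A.valuation sq3 ^ (S.card + 3) := by
  classical
  obtain ⟨σ, hσ, h3, h1⟩ := c0_perm hc hS
  have hf : ∀ i, (∏ q ∈ S, (1 - chq q (e q) (c (σ i)))) * zi (qt (DD3 S) (c (σ i))) =
      (∏ q ∈ S, (1 - chq q (e q) (c i))) * zi (qt (DD3 S) (c i)) := by
    intro i
    obtain ⟨l, hl, hq⟩ := gr0_qt (hσ i)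
    rw [c0_chq e ha (hσ i), hq, zi_rot hl]
  have hB : ∀ i, A.valuation ((∏ q ∈ S, (1 - chq q (e q) (c i))) * zi (qt (DD3 S) (c i))) ≤
      A.valuation sq3 ^ (S.card + 1) := by
    intro i
    rw [map_mul, map_prod, pow_succ]
    refine mul_le_mul' ?_ (v_zi hA (c0_Od hc hS i))
    rw [← Finset.prod_const]
    refine Finset.prod_le_prod' fun q hq => ?_
    have h2 : ¬ q.1 ∣ c i := cnt3_not_dvd hc i hq
    rw [chq_of_not h2, ← v_zt_eq]
    have h4 := (Rt_diff hA (e q * cq q (c i))).le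
    rw [map_div₀] at h4
    have h5 : 0 < A.valuation (1 - zt) := by
      rw [v_zt_eq]
      exact v_sq3_pos
    exact (div_le_one₀ h5).1 h4
  have h := c0_orbit σ h3 h1 hf hB Finset.univ fun i _ => Finset.mem_univ _
  refine h.trans (le_of_eq ?_)
  rw [← v_sq3, ← pow_add]
  congr 1
  omega

end

section
variable {A : ValuationSubring ℂ}

theorem c0_prod (hA : Three A) {S : Finset P3} (hS : S.Nonempty) {x : P3 → ℂ} {y : P3 → ZMod 3}
    (h : ∀ q ∈ S, Rt A (x q / (1 - zt) ^ 3) (y q)) :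
    Rt A ((∏ q ∈ S, x q) / (1 - zt) ^ (S.card + 2)) (if S.card = 1 then ∑ q ∈ S, y q else 0) := by
  have hw := one_sub_zt_ne
  have h0 := hS.card_pos
  have e : (∏ q ∈ S, x q) / (1 - zt) ^ (S.card + 2) =
      (∏ q ∈ S, (x q / (1 - zt) ^ 3)) * (1 - zt) ^ (2 * (S.card - 1)) := by
    rw [Finset.prod_div_distrib, Finset.prod_const, ← pow_mul, div_mul_eq_mul_div,
      div_eq_div_iff (pow_ne_zero _ hw) (pow_ne_zero _ hw), mul_assoc, ← pow_add]
    congr 2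
    omega
  have h1 := Rt.prod S h
  rw [e]
  split_ifs with hc
  · obtain ⟨q, rfl⟩ := Finset.card_eq_one.1 hc
    rw [Finset.card_singleton, Nat.sub_self, mul_zero, pow_zero, mul_one, Finset.sum_singleton,
      Finset.prod_singleton]
    rwa [Finset.prod_singleton, Finset.prod_singleton] at h1
  · have h2 := h1.mul (Rt_pow0 hA (n := 2 * (S.card - 1)) (by omega))
    rwa [mul_zero] at h2

theorem zt_cube3 : (1 - zt) ^ 3 = -3 * sq3 := by
  rw [sq3]
  linear_combination 3 * S3.zt_quad - S3.zt_cube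

theorem c0_t3 (y : 𝓞 K) : t3 (s3 * y) = r3 y := by
  obtain ⟨p, q, rfl⟩ := coord y
  have e : s3 * ((p : 𝓞 K) + q * wO) = ((p - 2 * q : ℤ) : 𝓞 K) + ((2 * p - q : ℤ) : 𝓞 K) * wO := by
    rw [s3]
    push_cast
    linear_combination (2 * (q : 𝓞 K)) * wO_quad
  have h3 : (3 : ZMod 3) = 0 := rfl
  rw [e, t3_coord, r3_coord]
  push_cast
  linear_combination -(p : ZMod 3) * h3

/-- the class of a prime of the trivial class -/
theorem c0_em (_ : Three A) (q : P3) (ha : abar q.1 = 0) :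
    Rt A ((em q.1 - 1) / (1 - zt) ^ 3) (-bbar q.1) := by
  obtain ⟨y, hy⟩ := q.2.2
  have h1 : q.1 = 1 + 3 * y := by linear_combination hy
  have h2 : r3 y = 0 := by rw [← abar_eq, ← h1, ha]
  obtain ⟨z, hz⟩ := r3_eq_zero.1 h2
  have h3 : bbar q.1 = r3 z := by rw [h1, bbar_eq, hz, c0_t3]
  have hs : em s3 = sq3 := em_s3
  have hs0 := sq3_ne
  have h4 : (em q.1 - 1) / (1 - zt) ^ 3 = -em z := by
    rw [h1, hz, rt_em_add, rt_em_mul, rt_em_mul, rt_em_one, rt_em_three, hs, zt_cube3]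
    field_simp
    ring
  rw [h4, h3]
  exact (Rt.of (A := A) z).neg

theorem c0_N (hA : Three A) (q : P3) (ha : abar q.1 = 0) :
    Rt A (((Nz q.1 : ℂ) - 1) / (1 - zt) ^ 3) 0 := by
  have h0 : In3 q.1 := q.2.2
  obtain ⟨n, hn⟩ : ∃ n : ℕ, Nz q.1 = 1 + 3 * n := ⟨(Nz q.1 - 1) / 3, by
    have := h0.Nz_mod
    omega⟩
  have h1 := cl3_Nz h0
  have h2 : (Nz q.1 - 1) / 3 = n := by omega
  rw [h2, cl3_q] at h1
  have h3 : abar q.1 = -(n : ZMod 3) := by
    rw [← h1]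
    change abar q.1 = -cq q wO
    rw [abar_q, neg_neg]
  rw [ha] at h3
  have h4 : (n : ZMod 3) = 0 := neg_eq_zero.1 h3.symm
  rw [ZMod.natCast_eq_zero_iff] at h4
  obtain ⟨t, ht⟩ := h4
  have hw := one_sub_zt_ne
  have h5 : ((Nz q.1 : ℂ) - 1) / (1 - zt) ^ 3 = (t : ℂ) * (3 / (1 - zt) ^ 2) * (3 / (1 - zt) ^ 2) *
      (1 - zt) := by
    rw [hn, ht]
    push_cast
    field_simp
    ring
  have h6 := (((Rt.int (A := A) (t : ℤ)).mul (Rt_three hA)).mul (Rt_three hA)).mul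
    (Rt_pow0 hA (n := 1) one_ne_zero)
  rw [mul_zero, pow_one] at h6
  rw [h5]
  exact_mod_cast h6

/-- **Case 0 of the hard class.** -/
theorem case0_nu0 (hA : Three A) {e : P3 → ZMod 3} {S : Finset P3} (hS : S.Nonempty)
    (he : ∀ q ∈ S, e q ≠ 0) (ha : ∀ q ∈ S, abar q.1 = 0) :
    Rt A (nu0 e S / (1 - zt)) (-(CZ (fun i p => d3.s i p * e p) (fun q => bbar q.1) S)) := by
  classical
  induction S using Finset.strongInduction with
  | H S ih =>
  obtain ⟨ι, hι, c, hc⟩ := RepsG.exists_reps (f := (3 : 𝓞 K)) (ν := 3 * DD3 S)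
    (mul_ne_zero (by norm_num) (DD3_ne S)) (dvd_mul_right _ _) (dvd_mul_right _ _)
  have hw := one_sub_zt_ne
  have hE := avg_nu0 e hS he hc
  -- the right hand side
  have hR0 : (∏ q ∈ S, ((Nz q.1 : ℂ) - 1)) / (1 - zt) ^ (S.card + 1) +
      ∑ i, (∏ q ∈ S, ((1 - chq q (e q) (c i)) / (1 - zt))) *
        (rho (qt (DD3 S) (c i)) / (1 - zt)) =
      (-(∏ q ∈ S, ((Nz q.1 : ℂ) - 1)) + 2 * ∑ i, (∏ q ∈ S, (1 - chq q (e q) (c i))) *
        zi (qt (DD3 S) (c i))) / (1 - zt) ^ (S.card + 1) := by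
    have h1 : ∀ i, (∏ q ∈ S, ((1 - chq q (e q) (c i)) / (1 - zt))) *
        (rho (qt (DD3 S) (c i)) / (1 - zt)) =
      ((∏ q ∈ S, (1 - chq q (e q) (c i))) * rho (qt (DD3 S) (c i))) *
        ((1 - zt) ^ (S.card + 1))⁻¹ := by
      intro i
      rw [Finset.prod_div_distrib, Finset.prod_const, pow_succ]
      field_simp
    rw [Finset.sum_congr rfl fun i _ => h1 i, ← Finset.sum_mul, c0_rho hc hA e hS he ha]
    field_simp
    ring
  rw [hR0] at hE
  have hR1 := c0_prod hA hS (x := fun q => (Nz q.1 : ℂ) - 1) (y := fun _ => 0)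
    fun q hq => c0_N hA q (ha q hq)
  have hR2 : Rt A ((∑ i, (∏ q ∈ S, (1 - chq q (e q) (c i))) * zi (qt (DD3 S) (c i))) /
      (1 - zt) ^ (S.card + 2)) 0 := by
    rw [Rt.zero_iff hA, map_div₀, map_pow, v_zt_eq]
    have hp := v_sq3_pos (A := A)
    rw [div_lt_one₀ (pow_pos hp _)]
    refine lt_of_le_of_lt (c0_sum hc hA e hS ha) ?_
    rw [show S.card + 3 = (S.card + 2) + 1 from rfl, pow_succ]
    calc A.valuation sq3 ^ (S.card + 2) * A.valuation sq3 <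
          A.valuation sq3 ^ (S.card + 2) * 1 :=
          mul_lt_mul_of_pos_left (v_sq3_lt hA) (pow_pos hp _)
      _ = _ := mul_one _
  have hR : Rt A ((-(∏ q ∈ S, ((Nz q.1 : ℂ) - 1)) + 2 * ∑ i, (∏ q ∈ S, (1 - chq q (e q) (c i))) *
        zi (qt (DD3 S) (c i))) / (1 - zt) ^ (S.card + 1) / (1 - zt)) 0 := by
    have h1 := hR1.neg.add (hR2.add hR2)
    have e1 : -(if S.card = 1 then ∑ q ∈ S, (0 : ZMod 3) else 0) + (0 + 0) = 0 := by
      simp
    rw [e1] at h1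
    have e2 : (-(∏ q ∈ S, ((Nz q.1 : ℂ) - 1)) + 2 * ∑ i, (∏ q ∈ S, (1 - chq q (e q) (c i))) *
        zi (qt (DD3 S) (c i))) / (1 - zt) ^ (S.card + 1) / (1 - zt) =
        -((∏ q ∈ S, ((Nz q.1 : ℂ) - 1)) / (1 - zt) ^ (S.card + 2)) +
        ((∑ i, (∏ q ∈ S, (1 - chq q (e q) (c i))) * zi (qt (DD3 S) (c i))) /
          (1 - zt) ^ (S.card + 2) + (∑ i, (∏ q ∈ S, (1 - chq q (e q) (c i))) *
            zi (qt (DD3 S) (c i))) / (1 - zt) ^ (S.card + 2)) := by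
      rw [div_div, ← pow_succ]
      ring
    rw [e2]
    exact h1
  rw [← hE, Finset.sum_div] at hR
  have e0 : ∀ T ∈ S.powerset, (-1) ^ T.card *
        (nu0 e T * ∏ q ∈ S \ T, ((em q.1 - Xk 0 e T q.1) / (1 - zt))) / (1 - zt) =
      (-1) ^ T.card * (nu0 e T / (1 - zt) * ∏ q ∈ S \ T, ((em q.1 - Xk 0 e T q.1) / (1 - zt))) :=
    fun T _ => by ring
  rw [Finset.sum_congr rfl e0] at hR
  -- the empty set
  have hm : (∅ : Finset P3) ∈ S.powerset := Finset.empty_mem_powerset S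
  have hD : S ∈ S.powerset.erase ∅ := Finset.mem_erase.2 ⟨hS.ne_empty, Finset.mem_powerset_self S⟩
  rw [← Finset.add_sum_erase _ _ hm, ← Finset.add_sum_erase _ _ hD, Finset.sdiff_self,
    Finset.prod_empty, mul_one, Finset.card_empty, pow_zero, one_mul, Finset.sdiff_empty,
    nu0_empty] at hR
  have hR3 := c0_prod hA hS (x := fun q => em q.1 - 1) fun q hq => c0_em hA q (ha q hq)
  have e1 : (1 - zt)⁻¹ / (1 - zt) * ∏ q ∈ S, ((em q.1 - Xk 0 e ∅ q.1) / (1 - zt)) =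
      (∏ q ∈ S, (em q.1 - 1)) / (1 - zt) ^ (S.card + 2) := by
    have h1 : ∀ q ∈ S, (em q.1 - Xk 0 e ∅ q.1) / (1 - zt) = (em q.1 - 1) / (1 - zt) := by
      intro q _
      rw [Xk_val 0 e (Finset.notMem_empty q), kapK_zero, Finset.sum_empty, add_zero, e3_zero]
    rw [Finset.prod_congr rfl h1, Finset.prod_div_distrib, Finset.prod_const, pow_add]
    field_simp
  rw [e1] at hR
  -- the sum over the proper subsets
  have hS2 : Rt A (∑ T ∈ (S.powerset.erase ∅).erase S, (-1) ^ T.card *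
        (nu0 e T / (1 - zt) * ∏ q ∈ S \ T, ((em q.1 - Xk 0 e T q.1) / (1 - zt))))
      (∑ T ∈ (S.powerset.erase ∅).erase S, (-1) ^ T.card *
        (-(CZ (fun i p => d3.s i p * e p) (fun q => bbar q.1) T) *
        ∏ q ∈ S \ T, (∑ p ∈ T, d3.s q p * e p))) := by
    refine Rt.sum _ fun T hT => ?_
    rw [Finset.mem_erase, Finset.mem_erase, Finset.mem_powerset] at hT
    have h1 : Rt A ((-1) ^ T.card) ((-1) ^ T.card) := (Rt.one.neg).pow _
    refine h1.mul ((ih T (Finset.ssubset_iff_subset_ne.2 ⟨hT.2.2, hT.1⟩)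
      (Finset.nonempty_iff_ne_empty.2 hT.2.1)
      (fun q hq => he q (hT.2.2 hq)) fun q hq => ha q (hT.2.2 hq)).mul
        (Rt.prod _ fun q hq => ?_))
    rw [Xk_val 0 e (Finset.mem_sdiff.1 hq).2, kapK_zero, zero_add]
    exact Rt_factor hA q _
  have h := (hR.sub hR3).sub hS2
  have h1 : Rt A ((-1) ^ S.card) ((-1) ^ S.card) := (Rt.one.neg).pow _
  have h2 := h1.mul h
  have e2 : ((-1 : ℂ)) ^ S.card * ((∏ q ∈ S, (em q.1 - 1)) / (1 - zt) ^ (S.card + 2) +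
      ((-1) ^ S.card * (nu0 e S / (1 - zt)) + ∑ T ∈ (S.powerset.erase ∅).erase S, (-1) ^ T.card *
        (nu0 e T / (1 - zt) * ∏ q ∈ S \ T, ((em q.1 - Xk 0 e T q.1) / (1 - zt)))) -
      (∏ q ∈ S, (em q.1 - 1)) / (1 - zt) ^ (S.card + 2) -
      ∑ T ∈ (S.powerset.erase ∅).erase S, (-1) ^ T.card *
        (nu0 e T / (1 - zt) * ∏ q ∈ S \ T, ((em q.1 - Xk 0 e T q.1) / (1 - zt)))) =
        nu0 e S / (1 - zt) := by
    have h3 : ((-1 : ℂ)) ^ S.card * (-1) ^ S.card = 1 := by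
      rw [← mul_pow, neg_one_mul, neg_neg, one_pow]
    linear_combination nu0 e S / (1 - zt) * h3
  have h5 : (-1 : ZMod 3) ^ S.card * (-1) ^ S.card = 1 := by
    rw [← mul_pow, neg_one_mul, neg_neg, one_pow]
  have h6 := forest_zero (fun i p => d3.s i p * e p) (fun q : P3 => bbar q.1) hS
  rw [← Finset.add_sum_erase _ _ hD, Finset.sdiff_self, Finset.prod_empty, mul_one] at h6
  have e3' : (-1 : ZMod 3) ^ S.card * (0 -
      (if S.card = 1 then ∑ q ∈ S, -bbar q.1 else 0) -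
      ∑ T ∈ (S.powerset.erase ∅).erase S, (-1) ^ T.card *
        (-(CZ (fun i p => d3.s i p * e p) (fun q => bbar q.1) T) *
        ∏ q ∈ S \ T, (∑ p ∈ T, d3.s q p * e p))) =
      -(CZ (fun i p => d3.s i p * e p) (fun q => bbar q.1) S) := by
    have h7 : (if S.card = 1 then ∑ q ∈ S, -bbar q.1 else 0) =
        if S.card = 1 then -∑ q ∈ S, bbar q.1 else 0 := by
      split_ifs
      · rw [Finset.sum_neg_distrib]
      · rfl
    have h8 : ∑ T ∈ (S.powerset.erase ∅).erase S, (-1) ^ T.card *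
        (-(CZ (fun i p => d3.s i p * e p) (fun q => bbar q.1) T) *
        ∏ q ∈ S \ T, (∑ p ∈ T, d3.s q p * e p)) =
        -∑ T ∈ (S.powerset.erase ∅).erase S, (-1) ^ T.card *
        CZ (fun i p => d3.s i p * e p) (fun q => bbar q.1) T *
        ∏ q ∈ S \ T, (∑ p ∈ T, d3.s q p * e p) := by
      rw [← Finset.sum_neg_distrib]
      exact Finset.sum_congr rfl fun T _ => by ring
    rw [h7, h8, ← h6]
    linear_combination (-(CZ (fun i p => d3.s i p * e p) (fun q => bbar q.1) S)) * h5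
  rw [e2, e3'] at h2
  exact h2

end

/-- Case 0: all `a q` are `0` -/
theorem case0H {A : ValuationSubring ℂ} (hA : Three A) (e : P3 → ZMod 3) {S : Finset P3}
    (hS : S.Nonempty) (ha : ∀ q ∈ S, aP q = 0) (he : ∀ q ∈ S, e q ≠ 0) :
    Rt A (xH e S) (-CZ (fun i p => d3.s i p * e p) bP S) := by
  have h := case0_nu0 hA hS he (fun q hq => ha q hq)
  have e1 : xH e S = nu0 e S / (1 - zt) := by
    have hw := one_sub_zt_ne
    have hN := N0_ne
    rw [xH, muH, nu0, show S.card + 2 = (S.card + 1) + 1 from rfl, pow_succ (1 - zt) (S.card + 1)]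
    field_simp
  rw [e1]
  exact h

end

end Pool.Agent.Lib.MP_1a91b9_ntK
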