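import Pool.Agent.Lib.MP_1a91b9_ntK.A.Sys3

/-!
# Cubic twists, part A, file CntC: the translation of the classes and the sums of the characters
-/

set_option autoImplicit false

namespace Pool.Agent.Lib.MP_1a91b9_ntK

open NumberField IsDedekindDomain Pool.Agent.Lib.MP_1a91b9_ntT Pool.Agent.Lib.MP_1a91b9_ntG
open Pool.Agent.Lib.MP_1a91b9_ntH (wO s3 cp Nz)
open Pool.Agent.Lib.MP_1a91b9_ntX.R (cs cs_mul cs_congr cs_one G3)

noncomputable section

/-- a prime congruent to `1` modulo `3` is prime to `3` -/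
private theorem CntC_three {x : 𝓞 K} (h : (3 : 𝓞 K) ∣ x - 1) : IsCoprime x (3 : 𝓞 K) := by
  obtain ⟨t, ht⟩ := h
  exact ⟨1, -t, by linear_combination ht⟩

private theorem CntC_cop {p q : P3} (h : p ≠ q) : IsCoprime p.1 q.1 :=
  p.2.1.irreducible.coprime_iff_not_dvd.2
    (not_dvd3 p.2.1 q.2.1 p.2.2 q.2.2 fun h1 => h (Subtype.ext h1))

/-- an element with symbol `1` at one prime and congruent to `1` modulo `3` and the other primes -/
private theorem CntC_u (S : Finset P3) (r : P3) : ∃ u : 𝓞 K,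
    (3 : 𝓞 K) ∣ u - 1 ∧ (∀ q ∈ S, q ≠ r → q.1 ∣ u - 1) ∧ ¬ r.1 ∣ u ∧ cq r u = 1 := by
  have hG : G3 (Ideal.span {r.1}) := g3 r.2.1 r.2.2
  obtain ⟨y, hy, hy1⟩ := exists_cs hG 1
  have hc : IsCoprime r.1 (3 * ∏ q ∈ S.erase r, q.1) := by
    refine IsCoprime.mul_right (CntC_three r.2.2) (IsCoprime.prod_right fun q hq => ?_)
    exact CntC_cop (Finset.ne_of_mem_erase hq).symm
  obtain ⟨a, b, hab⟩ := hc
  have h1 : 1 + b * (3 * ∏ q ∈ S.erase r, q.1) * (y - 1) - y = r.1 * (-(a * (y - 1))) := by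
    linear_combination (y - 1) * hab
  have hu : ¬ r.1 ∣ 1 + b * (3 * ∏ q ∈ S.erase r, q.1) * (y - 1) := by
    intro h
    apply hy
    rw [Ideal.mem_span_singleton]
    have h2 := dvd_sub h (Dvd.intro _ h1.symm)
    rwa [sub_sub_cancel] at h2
  refine ⟨1 + b * (3 * ∏ q ∈ S.erase r, q.1) * (y - 1), ?_, ?_, hu, ?_⟩
  · exact ⟨b * (∏ q ∈ S.erase r, q.1) * (y - 1), by ring⟩
  · intro q hq hne
    obtain ⟨t, ht⟩ := Finset.dvd_prod_of_mem (fun q : P3 => q.1) (Finset.mem_erase.2 ⟨hne, hq⟩)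
    exact ⟨b * (3 * t) * (y - 1), by
      rw [ht]
      ring⟩
  · rw [← hy1]
    refine cs_congr hG (fun h => hu (Ideal.mem_span_singleton.1 h)) ?_
    rw [Ideal.mem_span_singleton, h1]
    exact dvd_mul_right _ _

section
variable {S : Finset P3} {ι : Type} {c : ι → 𝓞 K} (hc : RepsG 3 (3 * DD3 S) c)
include hc

theorem cnt3_not_dvd (i : ι) {q : P3} (hq : q ∈ S) : ¬ q.1 ∣ c i := by
  intro h
  have h1 : q.1 ∣ 3 * DD3 S := (Finset.dvd_prod_of_mem (fun q : P3 => q.1) hq).mul_left _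
  exact q.2.1.not_isUnit ((hc.cop i).isUnit_of_dvd' h h1)

/-- **the translation of the classes** -/
theorem cnt3_tr [Finite ι] {r : P3} (hr : r ∈ S) : ∃ σ : Equiv.Perm ι,
    (∀ i, cq r (c (σ i)) = cq r (c i) + 1) ∧
      ∀ i, ∀ q ∈ S, q ≠ r → cq q (c (σ i)) = cq q (c i) := by
  classical
  obtain ⟨u, hu3, huq, hur, hu1⟩ := CntC_u S r
  have hqu : ∀ q ∈ S, ¬ q.1 ∣ u := by
    intro q hq h
    by_cases hqr : q = r
    · rw [hqr] at h
      exact hur h
    · have h1 := dvd_sub h (huq q hq hqr)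
      rw [sub_sub_cancel] at h1
      exact q.2.1.not_isUnit (isUnit_of_dvd_one h1)
  have hucop : IsCoprime u (3 * DD3 S) := by
    refine IsCoprime.mul_right (CntC_three hu3) (IsCoprime.prod_right fun q hq => ?_)
    exact (q.2.1.irreducible.coprime_iff_not_dvd.2 (hqu q hq)).symm
  have hex : ∀ i, ∃ j, (3 * DD3 S) ∣ c i * u - c j := fun i =>
    hc.ex _ (IsCoprime.mul_left (hc.cop i) hucop) (by
      have e1 : c i * u - 1 = (c i - 1) * u + (u - 1) := by ring
      rw [e1]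
      exact dvd_add ((hc.fx i).mul_right _) hu3)
  choose σ hσ using hex
  have hinj : Function.Injective σ := by
    intro i j hij
    refine hc.inj i j ?_
    have h1 := dvd_sub (hσ i) (hσ j)
    rw [hij] at h1
    have e1 : c i * u - c (σ j) - (c j * u - c (σ j)) = u * (c i - c j) := by ring
    rw [e1] at h1
    exact hucop.symm.dvd_of_dvd_mul_left h1
  have hbij : Function.Bijective σ := Finite.injective_iff_bijective.1 hinj
  have hval : ∀ i, ∀ q ∈ S, cq q (c (σ i)) = cq q (c i) + cq q u := by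
    intro i q hq
    have hG : G3 (Ideal.span {q.1}) := g3 q.2.1 q.2.2
    have h1 : q.1 ∣ 3 * DD3 S := (Finset.dvd_prod_of_mem (fun q : P3 => q.1) hq).mul_left _
    have h2 : cs (Ideal.span {q.1}) (c (σ i)) = cs (Ideal.span {q.1}) (c i * u) := by
      refine cs_congr hG (fun h => cnt3_not_dvd hc _ hq (Ideal.mem_span_singleton.1 h)) ?_
      rw [Ideal.mem_span_singleton, ← neg_sub, dvd_neg]
      exact h1.trans (hσ i)
    exact h2.trans (cs_mul hG (fun h => cnt3_not_dvd hc _ hq (Ideal.mem_span_singleton.1 h))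
      (fun h => hqu q hq (Ideal.mem_span_singleton.1 h)))
  refine ⟨Equiv.ofBijective σ hbij, fun i => ?_, fun i q hq hne => ?_⟩
  · exact (hval i r hr).trans (by rw [hu1])
  · have hG : G3 (Ideal.span {q.1}) := g3 q.2.1 q.2.2
    have h2 : cq q u = 0 := by
      rw [← cs_one hG]
      exact cs_congr hG (fun h => hqu q hq (Ideal.mem_span_singleton.1 h))
        (Ideal.mem_span_singleton.2 (huq q hq hne))
    exact (hval i q hq).trans (by rw [h2, add_zero])

/-- the sum over the classes of a product of nontrivial characters -/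
theorem cnt3_chq (e : P3 → ZMod 3) [Fintype ι] {T : Finset P3} (hTS : T ⊆ S) (hT : T.Nonempty)
    (he : ∀ q ∈ T, e q ≠ 0) : ∑ i, ∏ q ∈ T, chq q (e q) (c i) = 0 := by
  classical
  obtain ⟨r, hr⟩ := hT
  obtain ⟨σ, h1, h2⟩ := cnt3_tr hc (hTS hr)
  have hv : ∀ i, ∀ q ∈ T, chq q (e q) (c i) = e3 (e q * cq q (c i)) := by
    intro i q hq
    unfold chq
    rw [if_neg (cnt3_not_dvd hc i (hTS hq))]
  have h3 : ∑ i, ∏ q ∈ T, chq q (e q) (c i) = e3 (e r) * ∑ i, ∏ q ∈ T, chq q (e q) (c i) := by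
    conv_lhs => rw [← Equiv.sum_comp σ]
    rw [Finset.mul_sum]
    refine Finset.sum_congr rfl fun i _ => ?_
    rw [← Finset.mul_prod_erase T _ hr, ← Finset.mul_prod_erase T _ hr, ← mul_assoc]
    congr 1
    · rw [hv _ r hr, hv _ r hr, h1, mul_add, mul_one, e3_add, mul_comm]
    · refine Finset.prod_congr rfl fun q hq => ?_
      have hqT := Finset.mem_of_mem_erase hq
      rw [hv _ q hqT, hv _ q hqT, h2 i q (hTS hqT) (Finset.ne_of_mem_erase hq)]
  have h4 : (1 - e3 (e r)) * ∑ i, ∏ q ∈ T, chq q (e q) (c i) = 0 := by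
    linear_combination h3
  rcases mul_eq_zero.1 h4 with h5 | h5
  · exact absurd (e3_eq_one (sub_eq_zero.1 h5).symm) (he r hr)
  · exact h5

end

end

end Pool.Agent.Lib.MP_1a91b9_ntK
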