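import Pool.Agent.Lib.MP_1a91b9_ntK.A.Good
import Pool.Agent.Lib.MP_1a91b9_ntK.D.E3

/-!
# Cubic twists, part A, file Phi: the character sums of `E1` over the kernel of `√-3`

`∑_(x : ZMod 3) ω^(-k x) E1 (z + x / √-3)`. For `k ≠ 0` the residue of the quotient by `Ω √-3 y0` is `k`.
-/

set_option autoImplicit false

namespace Pool.Agent.Lib.MP_1a91b9_ntK

open NumberField IsDedekindDomain Pool.Agent.Lib.MP_1a91b9_ntT Pool.Agent.Lib.MP_1a91b9_ntG
  Pool.Agent.Lib.MP_1a91b9_ntH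

noncomputable section

/-- `E1 z + ζ E1 (z + T0) + ζ² E1 (z - T0)` -/
def Phz (ζ z : ℂ) : ℂ := E1 z + ζ * E1 (z + T0) + ζ ^ 2 * E1 (z - T0)

theorem Phz_add (ζ : ℂ) {l : ℂ} (hl : l ∈ PP.lattice) (z : ℂ) : Phz ζ (z + l) = Phz ζ z := by
  rw [Phz, Phz, show z + l + T0 = z + T0 + l by ring, show z + l - T0 = z - T0 + l by ring, S3.E1_add hl,
    S3.E1_add hl, S3.E1_add hl]

theorem three_T0_mem : 3 * T0 ∈ PP.lattice := by
  have h2 := neg_mem (s3_mul_mem T0_mem)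
  have e2 : -(sq3 * (sq3 * T0)) = 3 * T0 := by
    linear_combination (-T0) * sq3_sq
  rwa [e2] at h2

theorem e3_one : e3 1 = zt := by
  have h := ZMod.stdAddChar_coe (N := 3) 1
  have e : (((1 : ℤ) : ZMod 3)) = 1 := by norm_num
  rw [e] at h
  rw [e3, h, zt]
  congr 1
  push_cast
  ring

theorem e3_neg_one : e3 (-1) = zt ^ 2 := by
  have h : (-1 : ZMod 3) = 1 + 1 := by decide
  rw [h, e3_add, e3_one, pow_two]

/-- the sum over `ZMod 3` -/
theorem Phz_sum (k : ZMod 3) (z : ℂ) :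
    ∑ x : ZMod 3, e3 (-(k * x)) * E1 (z + (x.val : ℂ) * T0) = Phz (e3 (-k)) z := by
  have hsum : ∀ f : ZMod 3 → ℂ, ∑ x : ZMod 3, f x = f 0 + f 1 + f 2 := fun f => Fin.sum_univ_three f
  have h0 : (((0 : ZMod 3).val : ℕ) : ℂ) = 0 := by
    have h : (0 : ZMod 3).val = 0 := rfl
    rw [h]
    simp
  have h1 : (((1 : ZMod 3).val : ℕ) : ℂ) = 1 := by
    have h : (1 : ZMod 3).val = 1 := rfl
    rw [h]
    simp
  have h2 : (((2 : ZMod 3).val : ℕ) : ℂ) = 2 := by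
    have h : (2 : ZMod 3).val = 2 := rfl
    rw [h]
    simp
  have e2 : E1 (z + 2 * T0) = E1 (z - T0) := by
    rw [show z + 2 * T0 = z - T0 + 3 * T0 by ring, S3.E1_add three_T0_mem]
  have k0 : -(k * 0) = 0 := by
    revert k
    decide
  have k1 : -(k * 1) = -k := by
    revert k
    decide
  have k2 : -(k * 2) = -k + -k := by
    revert k
    decide
  rw [hsum, h0, h1, h2, k0, k1, k2, e3_zero, e3_add, e2, zero_mul, add_zero, one_mul, one_mul, Phz]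
  ring

theorem Phz_zt {z : ℂ} (hs : sq3 * z ∉ PP.lattice) :
    Phz zt z = -Om * (S3.Y z + y0 * sq3) / (2 * S3.X z) := PhiK_eq hs

theorem Phz_zt2 {z : ℂ} (hs : sq3 * z ∉ PP.lattice) :
    Phz (zt ^ 2) z = -Om * (S3.Y z - y0 * sq3) / (2 * S3.X z) := by
  have hO := Om_ne_zero
  have hX := X_ne_of_s3 hs
  have h1 := Phi_diff hs
  have h2 := Phi_sum hs
  rw [Phz, eq_div_iff (mul_ne_zero two_ne_zero hX), ← h1, ← h2, sq3]
  field_simp
  linear_combination (2 * E1 (z + T0) + 2 * E1 (z - T0) * zt * (zt - 1)) * S3.zt_quad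

theorem Phz_one (z : ℂ) : Phz 1 z = sq3 * E1 (sq3 * z) := by
  have hs : em s3 = sq3 := em_s3
  have h := E1_dist_O (ι := Fin 3) (a := s3) (ρ := ![0, 1, -1]) s3_ne (by
    intro x
    have hu : ∀ i j : Fin 3, s3 ∣ (![0, 1, -1] : Fin 3 → 𝓞 K) i - (![0, 1, -1] : Fin 3 → 𝓞 K) j → i = j := by
      intro i j hij
      have h3 : r3 ((![0, 1, -1] : Fin 3 → 𝓞 K) i) = r3 ((![0, 1, -1] : Fin 3 → 𝓞 K) j) := r3_eq.2 hij
      have a0 : r3 ((![0, 1, -1] : Fin 3 → 𝓞 K) 0) = 0 := map_zero r3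
      have a1 : r3 ((![0, 1, -1] : Fin 3 → 𝓞 K) 1) = 1 := map_one r3
      have a2 : r3 ((![0, 1, -1] : Fin 3 → 𝓞 K) 2) = -1 := by
        change r3 (-1) = -1
        rw [map_neg, map_one]
      have hne : (0 : ZMod 3) ≠ 1 ∧ (0 : ZMod 3) ≠ -1 ∧ (1 : ZMod 3) ≠ -1 := by decide
      obtain ⟨n1, n2, n3⟩ := hne
      fin_cases i <;> fin_cases j
      · rfl
      · exact absurd (a0.symm.trans (h3.trans a1)) n1
      · exact absurd (a0.symm.trans (h3.trans a2)) n2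
      · exact absurd (a0.symm.trans (h3.symm.trans a1)) n1
      · rfl
      · exact absurd (a1.symm.trans (h3.trans a2)) n3
      · exact absurd (a0.symm.trans (h3.symm.trans a2)) n2
      · exact absurd (a1.symm.trans (h3.symm.trans a2)) n3
      · rfl
    have hex : ∃ i : Fin 3, s3 ∣ x - (![0, 1, -1] : Fin 3 → 𝓞 K) i := by
      rcases exists_mod_s3 x with h | h | h
      · refine ⟨0, ?_⟩
        change s3 ∣ x - 0
        rwa [sub_zero]
      · exact ⟨1, h⟩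
      · refine ⟨2, ?_⟩
        change s3 ∣ x - -1
        rwa [sub_neg_eq_add]
    obtain ⟨i, hi⟩ := hex
    refine ⟨i, hi, fun j hj => hu j i ?_⟩
    have e : (![0, 1, -1] : Fin 3 → 𝓞 K) j - (![0, 1, -1] : Fin 3 → 𝓞 K) i =
        (x - (![0, 1, -1] : Fin 3 → 𝓞 K) i) - (x - (![0, 1, -1] : Fin 3 → 𝓞 K) j) := by ring
    rw [e]
    exact dvd_sub hi hj) z
  rw [Fin.sum_univ_three] at h
  have a0 : embK (((![0, 1, -1] : Fin 3 → 𝓞 K) 0 : 𝓞 K) : K) = 0 := rt_em_zero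
  have a1 : embK (((![0, 1, -1] : Fin 3 → 𝓞 K) 1 : 𝓞 K) : K) = 1 := rt_em_one
  have a2 : embK (((![0, 1, -1] : Fin 3 → 𝓞 K) 2 : 𝓞 K) : K) = -1 := by
    have h := rt_em_neg 1
    rw [rt_em_one] at h
    exact h
  have a3 : embK ((s3 : 𝓞 K) : K) = sq3 := hs
  rw [a0, a1, a2, a3, zero_div, add_zero] at h
  have e1 : z + 1 / sq3 = z + T0 := rfl
  have e2 : z + -1 / sq3 = z - T0 := by
    rw [T0]
    ring
  rw [e1, e2] at h
  rw [Phz, ← h]
  ring

section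

variable {A : ValuationSubring ℂ}

/-- the residue for `ω` -/
theorem Phz_zt_good (hA : Three A) {z : ℂ} (hs : sq3 * z ∉ PP.lattice) (h : Gd A z) (h' : Gd A (sq3 * z)) :
    Rt A (Phz zt z / (Om * sq3 * y0)) (-1) := by
  have h1 := PhiK_good hA hs h h'
  refine Rt.congr (Rt.neg Rt.one) ?_
  have e : Phz zt z / (Om * sq3 * y0) - -1 = -(PhiK z / kaK - 1) := by
    rw [kaK, show -Om * sq3 * y0 = -(Om * sq3 * y0) by ring, div_neg]
    change PhiK z / (Om * sq3 * y0) - -1 = _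
    ring
  rw [e, Valuation.map_neg]
  exact h1

theorem Gd.neg {z : ℂ} (h : Gd A z) : Gd A (-z) := by
  obtain ⟨h1, h2⟩ := h
  refine ⟨?_, ?_⟩
  · rwa [Rq.X_neg]
  · rwa [Rq.X_neg]

theorem Phz_neg (z : ℂ) : Phz (zt ^ 2) z = -Phz zt (-z) := by
  have e1 : E1 (-z + T0) = -E1 (z - T0) := by
    rw [show -z + T0 = -(z - T0) by ring, E1_odd]
  have e2 : E1 (-z - T0) = -E1 (z + T0) := by
    rw [show -z - T0 = -(z + T0) by ring, E1_odd]
  rw [Phz, Phz, e1, e2, E1_odd]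
  linear_combination (E1 (z - T0) * zt) * S3.zt_cube

/-- the residue for `ω²` -/
theorem Phz_zt2_good (hA : Three A) {z : ℂ} (hs : sq3 * z ∉ PP.lattice) (h : Gd A z) (h' : Gd A (sq3 * z)) :
    Rt A (Phz (zt ^ 2) z / (Om * sq3 * y0)) 1 := by
  have hs' : sq3 * -z ∉ PP.lattice := by
    intro hh
    apply hs
    have := neg_mem hh
    rwa [show -(sq3 * -z) = sq3 * z by ring] at this
  have h1 := Phz_zt_good hA hs' h.neg (by
    rw [show sq3 * -z = -(sq3 * z) by ring]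
    exact h'.neg)
  have h2 := Rt.neg h1
  rw [neg_neg] at h2
  rw [Phz_neg, neg_div]
  exact h2

/-- **the residue**, `k ≠ 0` -/
theorem Phk_good (hA : Three A) {k : ZMod 3} (hk : k ≠ 0) {z : ℂ} (hs : sq3 * z ∉ PP.lattice) (h : Gd A z)
    (h' : Gd A (sq3 * z)) : Rt A (Phz (e3 (-k)) z / (Om * sq3 * y0)) k := by
  have hh : k = 1 ∨ k = -1 := by
    revert k
    decide
  rcases hh with rfl | rfl
  · rw [e3_neg_one]
    exact Phz_zt2_good hA hs h h'
  · rw [neg_neg, e3_one]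
    exact Phz_zt_good hA hs h h'

/-- the points `k / (√-3³ m)` are good -/
theorem good_point (hA : Three A) {m k : 𝓞 K} (hm : ¬ s3 ∣ m) (hk : ¬ s3 ∣ k) :
    sq3 * (em k / em (s3 ^ 3 * m)) ∉ PP.lattice ∧ Gd A (em k / em (s3 ^ 3 * m)) ∧
      Gd A (sq3 * (em k / em (s3 ^ 3 * m))) := by
  obtain ⟨m', hm'⟩ := dvd_Nz m
  have hn : (Nz m).Coprime 3 := by
    rw [Nat.coprime_comm, Nat.Prime.coprime_iff_not_dvd Nat.prime_three, ← s3_dvd_iff]
    exact hm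
  have hm0 : em m ≠ 0 := by
    intro h0
    have h1 : m = 0 := Half_em_inj (by rw [h0, Res_em_zero])
    rw [h1] at hm
    exact hm (dvd_zero _)
  have hs3 : em s3 = sq3 := em_s3
  have hs := sq3_ne
  have hN : em m * em m' = ((Nz m : ℕ) : ℂ) := by
    rw [← Res_em_mul, hm']
    exact rt_em_nat _
  have e3 : em (s3 ^ 3 * m) = sq3 ^ 3 * em m := by
    rw [show s3 ^ 3 * m = s3 * (s3 * (s3 * m)) by ring, Res_em_mul, Res_em_mul, Res_em_mul, hs3]
    ring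
  rw [e3]
  have a3 : ((Nz m : ℕ) : ℂ) * (sq3 ^ 3 * (em k / (sq3 ^ 3 * em m))) ∈ PP.lattice := by
    refine Half_mem_iff.2 ⟨m' * k, ?_⟩
    rw [Res_em_mul, ← hN]
    field_simp
  have a2 : ((Nz m : ℕ) : ℂ) * (sq3 ^ 2 * (em k / (sq3 ^ 3 * em m))) ∉ PP.lattice := by
    intro h
    obtain ⟨b, hb⟩ := Half_mem_iff.1 h
    have h1 : s3 * b = m' * k := by
      apply Half_em_inj
      rw [Res_em_mul, Res_em_mul, hb, ← hN, hs3]
      field_simp
    rcases s3_dvd_mul (Dvd.intro b h1) with h2 | h2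
    · have h3 : s3 ∣ ((Nz m : ℕ) : 𝓞 K) := by
        rw [← hm']
        exact h2.mul_left m
      rw [← r3_eq_zero, map_natCast, ZMod.natCast_eq_zero_iff] at h3
      exact hm ((s3_dvd_iff m).2 h3)
    · exact hk h2
  exact Gd_cube hA hn a3 a2

/-- **the residue** at the points `c / (3 √-3 m)`, `k ≠ 0` -/
theorem Phk_res (hA : Three A) {k : ZMod 3} (hk : k ≠ 0) {m c : 𝓞 K} (hm : ¬ s3 ∣ m) (hc : ¬ s3 ∣ c) :
    Rt A ((∑ x : ZMod 3, e3 (-(k * x)) * E1 (em c / em (3 * s3 * m) + (x.val : ℂ) * T0)) / (em s3 * Om * y0)) k := by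
  have hc' : ¬ s3 ∣ -c := fun h => hc ((dvd_neg).1 h)
  obtain ⟨b1, b2, b3⟩ := good_point hA hm hc'
  have e : em c / em (3 * s3 * m) = em (-c) / em (s3 ^ 3 * m) := by
    have e1 : (3 * s3 * m : 𝓞 K) = -(s3 ^ 3 * m) := by
      linear_combination (s3 * m) * s3_sq
    rw [e1, rt_em_neg, rt_em_neg, neg_div, div_neg]
  have hs : em s3 = sq3 := em_s3
  rw [e, Phz_sum, hs, mul_comm sq3 Om]
  exact Phk_good hA hk b1 b2 b3

end

end

end Pool.Agent.Lib.MP_1a91b9_ntK
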