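import Pool.Agent.Lib.MP_1a91b9_ntK.A.Sys3

/-!
# Cubic twists, part A, file Sys2: the characters, the L-series, the element `D` and the matrix,
`D = s3 ^ j * w ^ k * ∏ (q ∈ S) q ^ (e q)`
-/

set_option autoImplicit false

namespace Pool.Agent.Lib.MP_1a91b9_ntK

open NumberField IsDedekindDomain Pool.Agent.Lib.MP_1a91b9_ntT Pool.Agent.Lib.MP_1a91b9_ntG
open Pool.Agent.Lib.MP_1a91b9_ntH (wO s3 cp Nz f0 psC_self)

noncomputable section

/-- the second coordinate of the class of `x = 1 + 3 (a + b √-3)`: `b` modulo `3`; for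
`x = 1 + 3 (m + n w)` it is `-n` -/
def bbar (x : 𝓞 K) : ZMod 3 := ((-((cp x).2 / 3) : ℤ) : ZMod 3)

/-- the character of `√-3 ^ j * w ^ k` -/
def thj (k j : ZMod 3) (x : 𝓞 K) : ℂ := e3 (-(k * abar x) + j * bbar x)

/-- the character of `D` on the elements congruent to `1` modulo `3` -/
def Xj (k j : ZMod 3) (e : P3 → ZMod 3) (S : Finset P3) : 𝓞 K → ℂ :=
  XT (f := 3) (thj k j) (fun q => chq q (e q)) S

/-- the entire L-function of `ψbar` and the character of `D` -/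
def Lj (k j : ZMod 3) (e : P3 → ZMod 3) (S : Finset P3) : ℂ → ℂ := LG 3 (Xj k j e S)

/-- the cube-free element `D` -/
def Dj (k j : ZMod 3) (e : P3 → ZMod 3) (S : Finset P3) : 𝓞 K := s3 ^ j.val * Dk k e S

/-- the linear term of the matrix -/
def kapJ (k j : ZMod 3) (q : P3) : ZMod 3 := -(k * abar q.1) + j * bbar q.1

/-- the matrix of `D` -/
def NJ (k j : ZMod 3) (e : P3 → ZMod 3) (S : Finset P3) : Matrix S S (ZMod 3) :=
  NE d3.s (kapJ k j) e S

/-- the character sum of `E1` over the points `(u - √-3 v) / 3` -/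
def PsJ (k j : ZMod 3) (z : ℂ) : ℂ :=
  ∑ u : ZMod 3, ∑ v : ZMod 3, e3 (-(k * u) - j * v) * E1 (z + (u.val : ℂ) / 3 + (v.val : ℂ) * T0)

end

end Pool.Agent.Lib.MP_1a91b9_ntK
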