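import Pool.Agent.Lib.MP_1a91b9_ntK.A.CntC
import Pool.Agent.Lib.MP_1a91b9_ntK.A.Phi
import Pool.Agent.Lib.MP_1a91b9_ntK.A.Sys2

/-!
# Cubic twists, part A, file CubeT: the cube of the sum over the classes (class `j = 1`)

Every term of the sum has an exact cube `tau (1 + eps)`, `tau = 0, 1, -1`, and the sum of the `tau` is `0`.
-/

set_option autoImplicit false

namespace Pool.Agent.Lib.MP_1a91b9_ntK

open NumberField IsDedekindDomain Pool.Agent.Lib.MP_1a91b9_ntT Pool.Agent.Lib.MP_1a91b9_ntG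
open Pool.Agent.Lib.MP_1a91b9_ntH (wO s3 cp Nz s3_sq s3_ne)

noncomputable section

/-! ### The lift of the field with three elements -/

/-- the lift `0, 1, -1` -/
def tei (x : ZMod 3) : ℤ := if x = 0 then 0 else if x = 1 then 1 else -1

theorem tei_cast (x : ZMod 3) : ((tei x : ℤ) : ZMod 3) = x := by
  revert x
  decide

theorem tei_sum (x a : ZMod 3) (ha : a ≠ 0) : tei x + tei (x + a) + tei (x + a + a) = 0 := by
  revert x a
  decide

theorem tei_cases (x : ZMod 3) : tei x = 0 ∨ tei x = 1 ∨ tei x = -1 := by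
  revert x
  decide

/-- the product of the lifts of the symbols -/
def tauC (e : P3 → ZMod 3) (S : Finset P3) (x : 𝓞 K) : ℤ := ∏ q ∈ S, tei (e q * cq q x)

/-- the weight of a class -/
def wtC (e : P3 → ZMod 3) (S : Finset P3) (x : 𝓞 K) : ℂ := ∏ q ∈ S, (1 - chq q (e q) x) / (1 - zt)

theorem CubeT_zt_ne : (1 : ℂ) - zt ≠ 0 := sub_ne_zero.2 (Ne.symm S3.zt_ne_one)

theorem CubeT_factor (t : ZMod 3) : ((1 - e3 t) / (1 - zt)) ^ 3 = (tei t : ℂ) := by
  have h1 := CubeT_zt_ne
  have hq := S3.zt_quad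
  have ht : t = 0 ∨ t = 1 ∨ t = -1 := by
    revert t
    decide
  rcases ht with rfl | rfl | rfl
  · have h2 : tei 0 = 0 := by decide
    rw [h2, e3_zero, sub_self, zero_div]
    norm_num
  · have h2 : tei 1 = 1 := by decide
    rw [h2, e3_one, div_self h1]
    norm_num
  · have h2 : tei (-1) = -1 := by decide
    have h3 : (1 - zt ^ 2) / (1 - zt) = 1 + zt := by
      rw [div_eq_iff h1]
      ring
    rw [h2, e3_neg_one, h3]
    push_cast
    linear_combination (zt + 2) * hq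

/-- the cube of the weight -/
theorem wtC_cube (e : P3 → ZMod 3) (S : Finset P3) {x : 𝓞 K} (hx : ∀ q ∈ S, ¬ q.1 ∣ x) :
    wtC e S x ^ 3 = (tauC e S x : ℂ) := by
  rw [wtC, ← Finset.prod_pow, tauC]
  push_cast
  refine Finset.prod_congr rfl fun q hq => ?_
  rw [← CubeT_factor]
  unfold chq
  rw [if_neg (hx q hq)]

theorem tauC_cases (e : P3 → ZMod 3) (S : Finset P3) (x : 𝓞 K) :
    tauC e S x = 0 ∨ tauC e S x = 1 ∨ tauC e S x = -1 := by
  classical
  rw [tauC]
  induction S using Finset.induction_on with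
  | empty => rw [Finset.prod_empty]; exact Or.inr (Or.inl rfl)
  | insert a S ha ih =>
    rw [Finset.prod_insert ha]
    rcases ih with h | h | h <;> rcases tei_cases (e a * cq a x) with h1 | h1 | h1 <;> rw [h, h1] <;>
      norm_num

theorem tauC_cast (e : P3 → ZMod 3) (S : Finset P3) (x : 𝓞 K) :
    ((tauC e S x : ℤ) : ZMod 3) = ∏ q ∈ S, (e q * cq q x) := by
  rw [tauC]
  push_cast
  exact Finset.prod_congr rfl fun q _ => tei_cast _

/-- the sum of the lifts over the classes is zero -/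
theorem sum_tau (e : P3 → ZMod 3) {S : Finset P3} (hS : S.Nonempty) (he : ∀ q ∈ S, e q ≠ 0)
    {ι : Type} [Fintype ι] {c : ι → 𝓞 K} (hc : RepsG 3 (3 * DD3 S) c) :
    ∑ i, tauC e S (c i) = 0 := by
  classical
  obtain ⟨r, hr⟩ := hS
  obtain ⟨σ, h1, h2⟩ := cnt3_tr hc hr
  let g : ι → ℤ := fun i => ∏ q ∈ S.erase r, tei (e q * cq q (c i))
  have hg : ∀ i, g (σ i) = g i := fun i => Finset.prod_congr rfl fun q hq => by
    rw [h2 i q (Finset.mem_of_mem_erase hq) (Finset.ne_of_mem_erase hq)]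
  have hF : ∀ i, tauC e S (c i) = tei (e r * cq r (c i)) * g i := fun i =>
    (Finset.mul_prod_erase S (fun q => tei (e q * cq q (c i))) hr).symm
  have hF1 : ∀ i, tauC e S (c (σ i)) = tei (e r * cq r (c i) + e r) * g i := by
    intro i
    rw [hF, hg, h1, mul_add, mul_one]
  have hF2 : ∀ i, tauC e S (c (σ (σ i))) = tei (e r * cq r (c i) + e r + e r) * g i := by
    intro i
    rw [hF1, hg, h1, mul_add, mul_one]
  have s1 : ∑ i, tauC e S (c (σ i)) = ∑ i, tauC e S (c i) :=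
    Equiv.sum_comp σ fun i => tauC e S (c i)
  have s2 : ∑ i, tauC e S (c (σ (σ i))) = ∑ i, tauC e S (c i) := by
    rw [← s1]
    exact Equiv.sum_comp σ fun i => tauC e S (c (σ i))
  have s3 : ∑ i, tauC e S (c i) + ∑ i, tauC e S (c (σ i)) + ∑ i, tauC e S (c (σ (σ i))) = 0 := by
    rw [← Finset.sum_add_distrib, ← Finset.sum_add_distrib]
    refine Finset.sum_eq_zero fun i _ => ?_
    rw [hF, hF1, hF2, ← add_mul, ← add_mul, tei_sum _ _ (he r hr), zero_mul]
  rw [s1, s2] at s3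
  omega

/-- the involution does not change the lifts -/
theorem tauC_congr (e : P3 → ZMod 3) {S : Finset P3} {x y : 𝓞 K} (h : ∀ q ∈ S, cq q x = cq q y) :
    tauC e S x = tauC e S y :=
  Finset.prod_congr rfl fun q hq => by rw [h q hq]

/-! ### Cubes -/

section

variable {A : ValuationSubring ℂ}

theorem v_of_cube {z : ℂ} (h : A.valuation (z ^ 3) ≤ 1) : A.valuation z ≤ 1 := by
  by_contra hc
  push Not at hc
  rw [map_pow] at h
  exact absurd (one_lt_pow₀ hc (by norm_num)) (not_lt.2 h)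

theorem v_of_cube_lt {z : ℂ} (h : A.valuation (z ^ 3) < 1) : A.valuation z < 1 := by
  by_contra hc
  push Not at hc
  rw [map_pow] at h
  exact absurd (one_le_pow₀ hc) (not_le.2 h)

/-- the cube of a sum -/
theorem cube_sum {ι : Type} (T : Finset ι) {x : ι → ℂ} (h : ∀ i ∈ T, A.valuation (x i) ≤ 1) :
    ∃ y : ℂ, A.valuation y ≤ 1 ∧ (∑ i ∈ T, x i) ^ 3 = ∑ i ∈ T, x i ^ 3 + 3 * y ∧
      A.valuation (∑ i ∈ T, x i) ≤ 1 := by
  classical
  induction T using Finset.induction_on with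
  | empty =>
    refine ⟨0, ?_, ?_, ?_⟩
    · rw [map_zero]; exact zero_le_one
    · rw [Finset.sum_empty, Finset.sum_empty]; ring
    · rw [Finset.sum_empty, map_zero]; exact zero_le_one
  | insert a T ha ih =>
    obtain ⟨y, hy, h1, h2⟩ := ih fun i hi => h i (Finset.mem_insert_of_mem hi)
    have h3 := h a (Finset.mem_insert_self a T)
    refine ⟨y + x a * (∑ i ∈ T, x i) * (x a + ∑ i ∈ T, x i), ?_, ?_, ?_⟩
    · refine A.valuation.map_add_le hy ?_
      rw [map_mul, map_mul]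
      exact mul_le_one₀ (mul_le_one₀ h3 zero_le h2) zero_le
        (A.valuation.map_add_le h3 h2)
    · rw [Finset.sum_insert ha, Finset.sum_insert ha]
      linear_combination h1
    · rw [Finset.sum_insert ha]
      exact A.valuation.map_add_le h3 h2

/-- a residue in the field with three elements is determined by the cube -/
theorem Rt.of_cube (hA : Three A) {z : ℂ} {y : ZMod 3} (h : Rt A (z ^ 3) y) : Rt A z y := by
  have hz : A.valuation z ≤ 1 := v_of_cube h.le
  obtain ⟨x, hx, hv⟩ := h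
  refine ⟨x, hx, v_of_cube_lt ?_⟩
  have h30 : ∀ y : ZMod 3, y ^ 3 = y := by decide
  have h1 : A.valuation (em (x ^ 3 - x)) < 1 := by
    refine rt_em_lt hA (r3_eq_zero.1 ?_)
    rw [map_sub, map_pow, h30, sub_self]
  have h2 : em (x ^ 3 - x) = em x ^ 3 - em x := by
    rw [rt_em_sub]
    congr 1
    simp [MP_1a91b9_ntH.em]
  have e : (z - em x) ^ 3 = (z ^ 3 - em x) - (em x ^ 3 - em x) + 3 * (-(z * em x * (z - em x))) := by
    ring
  rw [e]
  refine A.valuation.map_add_lt (A.valuation.map_sub_lt hv (by rwa [← h2])) ?_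
  rw [map_mul]
  refine mul_lt_one_of_lt_of_le (v_three_lt hA) ?_
  rw [Valuation.map_neg, map_mul, map_mul]
  exact mul_le_one₀ (mul_le_one₀ hz zero_le (rt_em_le x)) zero_le
    (A.valuation.map_sub_le hz (rt_em_le x))

/-- **(F5)**: the cube trick. -/
theorem cubeT (hA : Three A) {vp : ℂ} (hvp : vp ^ 3 = em s3) {ι : Type} [Fintype ι]
    {t : ι → ℤ} {eps x : ι → ℂ} (hx : ∀ i, x i ^ 3 = (t i : ℂ) * (1 + eps i))
    (heps : ∀ i, A.valuation (eps i) ≤ 1) (ht : ∑ i, t i = 0) {m : ZMod 3}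
    (hm : Rt A ((∑ i, (t i : ℂ) * eps i) / em s3) m) : Rt A ((∑ i, x i) / vp) m := by
  have hxi : ∀ i, A.valuation (x i) ≤ 1 := by
    intro i
    refine v_of_cube ?_
    rw [hx i, map_mul]
    refine mul_le_one₀ (Rt.int (t i)).le zero_le ?_
    exact A.valuation.map_add_le (by rw [map_one]) (heps i)
  obtain ⟨y, hy, h1, -⟩ := cube_sum Finset.univ fun i _ => hxi i
  apply Rt.of_cube hA
  have hs : em s3 ≠ 0 := rt_em_ne s3_ne
  have h2 : ∑ i, x i ^ 3 = ∑ i, (t i : ℂ) * eps i := by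
    have h3 : ∀ i, x i ^ 3 = (t i : ℂ) + (t i : ℂ) * eps i := fun i => by rw [hx i]; ring
    have h4 : ∑ i, (t i : ℂ) = 0 := by exact_mod_cast congrArg (fun n : ℤ => (n : ℂ)) ht
    rw [Finset.sum_congr rfl fun i _ => h3 i, Finset.sum_add_distrib, h4, zero_add]
  have h5 : ((∑ i, x i) / vp) ^ 3 = (∑ i, (t i : ℂ) * eps i) / em s3 + -(em s3 * y) := by
    rw [div_pow, hvp, h1, h2, add_div]
    congr 1
    rw [div_eq_iff hs]
    linear_combination y * rt_em_s3_sq
  rw [h5]
  refine hm.congr ?_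
  have e : (∑ i, (t i : ℂ) * eps i) / em s3 + -(em s3 * y) - (∑ i, (t i : ℂ) * eps i) / em s3 =
      -(em s3 * y) := by ring
  rw [e, Valuation.map_neg, map_mul]
  exact mul_lt_one_of_lt_of_le (v_s3_lt hA) hy

/-- the sum is in the maximal ideal if all `eps` are -/
theorem cubeT_lt (hA : Three A) {ι : Type} [Fintype ι]
    {t : ι → ℤ} {eps x : ι → ℂ} (hx : ∀ i, x i ^ 3 = (t i : ℂ) * (1 + eps i))
    (heps : ∀ i, A.valuation (eps i) < 1) (ht : ∑ i, t i = 0) : A.valuation (∑ i, x i) < 1 := by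
  have hxi : ∀ i, A.valuation (x i) ≤ 1 := by
    intro i
    refine v_of_cube ?_
    rw [hx i, map_mul]
    refine mul_le_one₀ (Rt.int (t i)).le zero_le ?_
    exact A.valuation.map_add_le (by rw [map_one]) (heps i).le
  obtain ⟨y, hy, h1, -⟩ := cube_sum Finset.univ fun i _ => hxi i
  apply v_of_cube_lt
  have h2 : ∑ i, x i ^ 3 = ∑ i, (t i : ℂ) * eps i := by
    have h3 : ∀ i, x i ^ 3 = (t i : ℂ) + (t i : ℂ) * eps i := fun i => by rw [hx i]; ring
    have h4 : ∑ i, (t i : ℂ) = 0 := by exact_mod_cast congrArg (fun n : ℤ => (n : ℂ)) ht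
    rw [Finset.sum_congr rfl fun i _ => h3 i, Finset.sum_add_distrib, h4, zero_add]
  rw [h1, h2]
  refine A.valuation.map_add_lt ?_ ?_
  · refine A.valuation.map_sum_lt one_ne_zero fun i _ => ?_
    rw [map_mul, mul_comm]
    exact mul_lt_one_of_lt_of_le (heps i) (Rt.int (t i)).le
  · rw [map_mul]
    exact mul_lt_one_of_lt_of_le (v_three_lt hA) hy

end

theorem thj_cube (k j : ZMod 3) (x : 𝓞 K) : thj k j x ^ 3 = 1 := by
  have h : ∀ y : ZMod 3, e3 y ^ 3 = 1 := by
    intro y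
    have h1 : e3 (y + y + y) = 1 := by
      have h2 : y + y + y = 0 := by
        revert y
        decide
      rw [h2, e3_zero]
    rw [e3_add, e3_add] at h1
    rw [← h1]
    ring
  exact h _

/-- (F5) for the sum of the averaging identity -/
theorem cubeT_main {A : ValuationSubring ℂ} (hA : Three A) {vp : ℂ} (hvp : vp ^ 3 = em s3)
    {e : P3 → ZMod 3} {S : Finset P3} (hS : S.Nonempty) (he : ∀ q ∈ S, e q ≠ 0)
    {ι : Type} [Fintype ι] {c : ι → 𝓞 K} (hc : RepsG 3 (3 * DD3 S) c) (k j : ZMod 3)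
    {G : ι → ℂ} {C0 : ℂ} {eps : ι → ℂ} (hG : ∀ i, (G i / C0) ^ 3 = 1 + eps i)
    (heps : ∀ i, A.valuation (eps i) ≤ 1) {m : ZMod 3}
    (hm : Rt A ((∑ i, (tauC e S (c i) : ℂ) * eps i) / em s3) m) :
    Rt A ((∑ i, thj k j (c i) * wtC e S (c i) * (G i / C0)) / vp) m := by
  refine cubeT hA hvp (t := fun i => tauC e S (c i)) (eps := eps) (fun i => ?_) heps
    (sum_tau e hS he hc) hm
  rw [mul_pow, mul_pow, thj_cube, one_mul, wtC_cube e S (fun q hq => cnt3_not_dvd hc i hq), hG]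

end

end Pool.Agent.Lib.MP_1a91b9_ntK
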