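import Pool.Agent.Lib.MP_1a91b9_ntK.A.Sys2

/-!
# Cubic twists, part A, file Sys1: the bordered matrix, `j = 1`
-/

set_option autoImplicit false

namespace Pool.Agent.Lib.MP_1a91b9_ntK

open Finset

/-- the bordered matrix -/
def NB {ι : Type*} [DecidableEq ι] (s : ι → ι → ZMod 3) (κ e a : ι → ZMod 3) (z : ZMod 3)
    (T : Finset ι) : Matrix (T ⊕ Unit) (T ⊕ Unit) (ZMod 3) :=
  Matrix.fromBlocks (NE s κ e T) (fun i _ => a i) (fun _ j => a j) (fun _ _ => z)

/-- the right side of the recursion, `j = 1` -/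
def GQ {ι : Type*} [DecidableEq ι] (s : ι → ι → ZMod 3) (e a : ι → ZMod 3) (S : Finset ι) : ZMod 3 :=
  ∑ T ∈ S.powerset, (-1) ^ T.card * ((∑ q ∈ T, e q * a q) * CZ (fun i p => s i p * e p) a T) *
    ∏ q ∈ S \ T, ∑ p ∈ T, s q p * e p

/-- the class of a prime -/
noncomputable def aP (q : P3) : ZMod 3 := abar q.1

end Pool.Agent.Lib.MP_1a91b9_ntK
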