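import Pool.Agent.Lib.MP_1a91b9_ntK.A.Forest
import Pool.Agent.Lib.MP_1a91b9_ntK.A.Sys1
import Mathlib.LinearAlgebra.Matrix.ToLinearEquiv
import Mathlib.LinearAlgebra.Matrix.Charpoly.Basic

/-!
# MP_1a91b9_nt (cubic twists), part A, file ForQ: the forest identity for bordered matrices

For a functional `F κ T` with the deletion property of the determinant of `NM m κ T`, the sum
`∑ (T ⊆ S) (-1) ^ #T F κ T ∏ (q ∈ S \ T) (κ q + ∑ (p ∈ T) m q p)` does not depend on `κ`. This is applied to the determinants of the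
bordered matrices `[[NM m κ T, b], [cᵀ, k]]`.
-/

set_option autoImplicit false

namespace Pool.Agent.Lib.MP_1a91b9_ntK

open Finset

section General

variable {ι R : Type*} [DecidableEq ι] [CommRing R]

/-- the sum -/
def GG (m : ι → ι → R) (F : (ι → R) → Finset ι → R) (κ : ι → R) (S : Finset ι) : R :=
  ∑ T ∈ S.powerset, (-1) ^ T.card * F κ T * ∏ q ∈ S \ T, (κ q + ∑ p ∈ T, m q p)

theorem GG_empty (m : ι → ι → R) (F : (ι → R) → Finset ι → R) (κ : ι → R) :
    GG m F κ ∅ = F κ ∅ := by
  rw [GG, powerset_empty, sum_singleton]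
  simp

theorem GG_update {m : ι → ι → R} {F : (ι → R) → Finset ι → R}
    (hF1 : ∀ κ κ' T, (∀ i ∈ T, κ i = κ' i) → F κ T = F κ' T)
    (hF2 : ∀ κ T r c, r ∈ T → F (Function.update κ r (κ r + c)) T =
      F κ T + c * F (fun p => κ p + m p r) (T.erase r))
    (κ : ι → R) {S : Finset ι} {r : ι} (hr : r ∉ S) (c : R) :
    GG m F (Function.update κ r (κ r + c)) (insert r S) =
      GG m F κ (insert r S) + c * (GG m F κ S - GG m F (fun p => κ p + m p r) S) := by
  classical
  simp only [GG]
  rw [sum_powerset_insert hr, sum_powerset_insert hr, mul_sub, mul_sum, mul_sum]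
  have key1 : ∀ T ∈ S.powerset,
      (-1) ^ T.card * F (Function.update κ r (κ r + c)) T *
        ∏ q ∈ insert r S \ T, (Function.update κ r (κ r + c) q + ∑ p ∈ T, m q p) =
      (-1) ^ T.card * F κ T * ∏ q ∈ insert r S \ T, (κ q + ∑ p ∈ T, m q p) +
      c * ((-1) ^ T.card * F κ T * ∏ q ∈ S \ T, (κ q + ∑ p ∈ T, m q p)) := by
    intro T hT
    have hT' := mem_powerset.1 hT
    have hrT : r ∉ T := fun h => hr (hT' h)
    have e1 : F (Function.update κ r (κ r + c)) T = F κ T :=
      hF1 _ _ _ fun i hi => Function.update_of_ne (fun h => hrT (by rw [← h]; exact hi)) _ _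
    have e2 : insert r S \ T = insert r (S \ T) := insert_sdiff_of_notMem _ hrT
    have hr' : r ∉ S \ T := fun h => hr (mem_sdiff.1 h).1
    rw [e1, e2, prod_insert hr', prod_insert hr', Function.update_self]
    have e3 : ∏ q ∈ S \ T, (Function.update κ r (κ r + c) q + ∑ p ∈ T, m q p) =
        ∏ q ∈ S \ T, (κ q + ∑ p ∈ T, m q p) := by
      refine prod_congr rfl fun q hq => ?_
      rw [Function.update_of_ne (fun h => hr' (by rw [← h]; exact hq))]
    rw [e3]
    ring
  have key2 : ∀ T ∈ S.powerset,
      (-1) ^ (insert r T).card * F (Function.update κ r (κ r + c)) (insert r T) *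
        ∏ q ∈ insert r S \ insert r T,
          (Function.update κ r (κ r + c) q + ∑ p ∈ insert r T, m q p) =
      (-1) ^ (insert r T).card * F κ (insert r T) *
        ∏ q ∈ insert r S \ insert r T, (κ q + ∑ p ∈ insert r T, m q p) -
      c * ((-1) ^ T.card * F (fun p => κ p + m p r) T *
        ∏ q ∈ S \ T, (κ q + m q r + ∑ p ∈ T, m q p)) := by
    intro T hT
    have hT' := mem_powerset.1 hT
    have hrT : r ∉ T := fun h => hr (hT' h)
    have e2 : insert r S \ insert r T = S \ T := by
      ext x
      simp only [mem_sdiff, mem_insert, not_or]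
      constructor
      · rintro ⟨h1 | h1, h2, h3⟩
        · exact absurd h1 h2
        · exact ⟨h1, h3⟩
      · rintro ⟨h1, h2⟩
        exact ⟨Or.inr h1, fun h => hr (h ▸ h1), h2⟩
    have hr' : r ∉ S \ T := fun h => hr (mem_sdiff.1 h).1
    have e3 : ∏ q ∈ S \ T, (Function.update κ r (κ r + c) q + ∑ p ∈ insert r T, m q p) =
        ∏ q ∈ S \ T, (κ q + m q r + ∑ p ∈ T, m q p) := by
      refine prod_congr rfl fun q hq => ?_
      rw [Function.update_of_ne (fun h => hr' (by rw [← h]; exact hq)), sum_insert hrT]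
      ring
    have e4 : ∏ q ∈ S \ T, (κ q + ∑ p ∈ insert r T, m q p) =
        ∏ q ∈ S \ T, (κ q + m q r + ∑ p ∈ T, m q p) := by
      refine prod_congr rfl fun q hq => ?_
      rw [sum_insert hrT]
      ring
    rw [e2, e3, e4, hF2 κ _ r c (mem_insert_self r T), erase_insert hrT, card_insert_of_notMem hrT]
    ring
  rw [sum_congr rfl key1, sum_congr rfl key2, sum_add_distrib, sum_sub_distrib]
  ring

/-- **The sum does not depend on `κ`.** -/
theorem GG_indep {m : ι → ι → R} {F : (ι → R) → Finset ι → R}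
    (hF1 : ∀ κ κ' T, (∀ i ∈ T, κ i = κ' i) → F κ T = F κ' T)
    (hF2 : ∀ κ T r c, r ∈ T → F (Function.update κ r (κ r + c)) T =
      F κ T + c * F (fun p => κ p + m p r) (T.erase r))
    (κ : ι → R) (S : Finset ι) : GG m F κ S = GG m F 0 S := by
  classical
  induction S using Finset.strongInduction generalizing κ with
  | H S ih =>
    have h1 : ∀ (κ : ι → R) (r : ι) (c : R), r ∈ S → GG m F (Function.update κ r (κ r + c)) S =
        GG m F κ S := by
      intro κ r c hr
      have hS' : insert r (S.erase r) = S := insert_erase hr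
      have h2 := GG_update hF1 hF2 κ (notMem_erase r S) c
      rw [hS'] at h2
      rw [h2, ih (S.erase r) (erase_ssubset hr) κ,
        ih (S.erase r) (erase_ssubset hr) (fun p => κ p + m p r), sub_self, mul_zero, add_zero]
    have h2 : ∀ A : Finset ι, A ⊆ S → GG m F (fun q => if q ∈ A then 0 else κ q) S = GG m F κ S := by
      intro A
      induction A using Finset.induction_on with
      | empty => intro _; simp
      | insert a A ha ih2 =>
        intro hA
        rw [← ih2 ((subset_insert a A).trans hA)]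
        have h3 := h1 (fun q => if q ∈ A then 0 else κ q) a (-κ a) (hA (mem_insert_self a A))
        rw [← h3]
        congr 1
        ext q
        by_cases hq : q = a
        · subst hq
          simp [ha]
        · rw [Function.update_of_ne hq]
          simp [mem_insert, hq]
    rw [← h2 S subset_rfl]
    refine sum_congr rfl fun T hT => ?_
    have hT' := mem_powerset.1 hT
    have h3 : F (fun q => if q ∈ S then 0 else κ q) T = F 0 T :=
      hF1 _ _ _ fun i hi => if_pos (hT' hi)
    rw [h3]
    congr 1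
    refine prod_congr rfl fun q hq => ?_
    have h4 : (fun q => if q ∈ S then 0 else κ q) q = (0 : ι → R) q := if_pos (mem_sdiff.1 hq).1
    rw [h4]

end General

/-! ### Bordered determinants -/

section Bordered

variable {n R : Type*} [CommRing R]

/-- the bordered matrix `[[N, b], [cᵀ, k]]` -/
def BM (N : Matrix n n R) (b c : n → R) (k : R) : Matrix (n ⊕ Unit) (n ⊕ Unit) R :=
  Matrix.fromBlocks N (Matrix.of fun i _ => b i) (Matrix.of fun _ j => c j) (Matrix.of fun _ _ => k)

variable [Fintype n] [DecidableEq n]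

private theorem ForQ_aux {S : Type*} [CommRing S] (N : Matrix n n S) (B : Matrix n Unit S)
    (C : Matrix Unit n S) (D : Matrix Unit Unit S) :
    (Matrix.fromBlocks N B C D).det * N.det = N.det * (N.det • D - C * N.adjugate * B).det := by
  have h1 : Matrix.fromBlocks N B C D * Matrix.fromBlocks 1 (-(N.adjugate * B)) 0 (N.det • 1) =
      Matrix.fromBlocks N 0 C (N.det • D - C * N.adjugate * B) := by
    rw [Matrix.fromBlocks_multiply]
    congr 1
    · rw [Matrix.mul_one, Matrix.mul_zero, add_zero]
    · rw [Matrix.mul_neg, ← Matrix.mul_assoc, Matrix.mul_adjugate, Matrix.smul_mul, Matrix.one_mul,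
        Matrix.mul_smul, Matrix.mul_one, neg_add_cancel]
    · rw [Matrix.mul_one, Matrix.mul_zero, add_zero]
    · rw [Matrix.mul_neg, ← Matrix.mul_assoc, Matrix.mul_smul, Matrix.mul_one]
      abel
  have h2 := congrArg Matrix.det h1
  rw [Matrix.det_mul, Matrix.det_fromBlocks_zero₂₁, Matrix.det_fromBlocks_zero₁₂, Matrix.det_one,
    one_mul, Matrix.det_unique (N.det • (1 : Matrix Unit Unit S))] at h2
  simpa using h2

/-- the determinant of a bordered matrix -/
theorem det_border (N : Matrix n n R) (B : Matrix n Unit R) (C : Matrix Unit n R)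
    (D : Matrix Unit Unit R) :
    (Matrix.fromBlocks N B C D).det = (N.det • D - C * N.adjugate * B).det := by
  let g : Matrix n n R → Matrix n n (Polynomial R) := fun M =>
    M.map Polynomial.C + (Polynomial.X : Polynomial R) • (1 : Matrix n n (Polynomial R))
  let f : Polynomial R →+* R := Polynomial.evalRingHom 0
  have f_inv : ∀ M, f.mapMatrix (g M) = M := by
    intro
    ext
    simp [f, g]
  have hu : ∀ M : Matrix n n R, IsRegular (g M).det := by
    intro M
    refine Polynomial.Monic.isRegular ?_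
    simp only [g, Polynomial.Monic.def, ← Polynomial.leadingCoeff_det_X_one_add_C M, add_comm]
  have h1 := ForQ_aux (g N) (B.map Polynomial.C) (C.map Polynomial.C) (D.map Polynomial.C)
  rw [mul_comm] at h1
  have h2 := (hu N).left h1
  have h3 := congrArg f h2
  rw [RingHom.map_det, RingHom.map_det] at h3
  have e1 : f.mapMatrix (Matrix.fromBlocks (g N) (B.map Polynomial.C) (C.map Polynomial.C)
      (D.map Polynomial.C)) = Matrix.fromBlocks N B C D := by
    rw [RingHom.mapMatrix_apply, Matrix.fromBlocks_map]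
    congr 1
    · exact f_inv N
    · ext; simp [f]
    · ext; simp [f]
    · ext; simp [f]
  have e2 : f.mapMatrix ((g N).det • D.map Polynomial.C -
      C.map Polynomial.C * (g N).adjugate * B.map Polynomial.C) =
      N.det • D - C * N.adjugate * B := by
    rw [map_sub]
    have h5 : f (g N).det = N.det := by rw [RingHom.map_det, f_inv]
    have h6 : (g N).adjugate.map f = N.adjugate := by
      rw [← RingHom.mapMatrix_apply, RingHom.map_adjugate, f_inv]
    congr 1
    · ext i j
      rw [RingHom.mapMatrix_apply, Matrix.map_apply, Matrix.smul_apply, Matrix.smul_apply,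
        smul_eq_mul, map_mul, h5, Matrix.map_apply]
      simp [f]
    · rw [RingHom.mapMatrix_apply, Matrix.map_mul, Matrix.map_mul, h6]
      congr 1
      · congr 1
        ext; simp [f]
      · ext; simp [f]
  rw [e1, e2] at h3
  exact h3

theorem det_BM (N : Matrix n n R) (b c : n → R) (k : R) :
    (BM N b c k).det = k * N.det - ∑ i, ∑ j, c i * N.adjugate i j * b j := by
  rw [BM, det_border, Matrix.det_unique]
  simp only [Matrix.sub_apply, Matrix.smul_apply, Matrix.of_apply, smul_eq_mul, Matrix.mul_apply,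
    sum_mul]
  rw [sum_comm, mul_comm]

omit [Fintype n] [DecidableEq n] in
private theorem ForQ_one (_ : Fintype n) (_ : DecidableEq n) (A : Matrix n n R)
    (k : n) (h : ∀ x, x = k) : A.det = A k k := by
  have : Subsingleton n := ⟨fun x y => (h x).trans (h y).symm⟩
  exact Matrix.det_eq_elem_of_subsingleton A k

/-- an entry times a minor -/
theorem det_single (M : Matrix n n R) (r : n) (x : R) :
    (M.updateRow r (Pi.single r x)).det =
      x * (M.submatrix (fun i : {i // ¬ i = r} => i.1) (fun i : {i // ¬ i = r} => i.1)).det := by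
  classical
  rw [Matrix.twoBlockTriangular_det' _ (fun y : n => y = r)]
  · congr 1
    · refine (ForQ_one _ _ _ (⟨r, rfl⟩ : {y : n // y = r}) (fun y => Subtype.ext y.2)).trans ?_
      simp only [Matrix.toSquareBlockProp_def, Matrix.of_apply, Matrix.updateRow_self,
        Pi.single_eq_same]
    · congr 1
      ext i j
      simp only [Matrix.toSquareBlockProp_def, Matrix.of_apply, Matrix.updateRow_ne i.2,
        Matrix.submatrix_apply]
  · intro i hi j hj
    subst hi
    rw [Matrix.updateRow_self]
    exact Pi.single_eq_of_ne hj _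

/-- the rows of the adjugate agree if the row sums vanish -/
theorem adj_row {N : Matrix n n R} (h : N.mulVec (fun _ => 1) = 0) (i i' j : n) :
    N.adjugate i j = N.adjugate i' j := by
  rw [Matrix.adjugate_apply, Matrix.adjugate_apply, ← sub_eq_zero]
  have h1 : (N.updateRow j (Pi.single i 1)).det - (N.updateRow j (Pi.single i' 1)).det =
      (N.updateRow j (Pi.single i 1 + (-1 : R) • Pi.single i' 1)).det := by
    rw [Matrix.det_updateRow_add, Matrix.det_updateRow_smul]
    ring
  rw [h1]
  refine Matrix.det_eq_zero_of_mulVec_eq_zero_of_mem_nonZeroDivisors (v := fun _ => 1) (i := j)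
    ?_ (one_mem _)
  ext l
  by_cases hl : l = j
  · subst hl
    simp only [Matrix.mulVec, dotProduct, Matrix.updateRow_self, Pi.add_apply, Pi.smul_apply,
      smul_eq_mul, mul_one, Pi.zero_apply, sum_add_distrib]
    rw [← mul_sum, Finset.sum_pi_single', Finset.sum_pi_single']
    simp
  · have h2 := congrFun h l
    simp only [Matrix.mulVec, dotProduct, Matrix.updateRow_ne hl] at h2 ⊢
    exact h2

end Bordered

/-! ### The identity -/

section Main

variable {ι R : Type*} [DecidableEq ι] [CommRing R]

theorem NM_mulVec_one (m : ι → ι → R) (T : Finset ι) : (NM m 0 T).mulVec (fun _ => 1) = 0 := by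
  classical
  ext i
  simp only [Matrix.mulVec, dotProduct, mul_one, Pi.zero_apply]
  rw [← add_sum_erase univ _ (mem_univ i)]
  have h2 : NM m 0 T i i = ∑ p ∈ T.erase i, m i p := by
    simp only [NM, if_true, Pi.zero_apply, zero_add]
  have h3 : ∑ j ∈ univ.erase i, NM m 0 T i j = -∑ p ∈ T.erase i, m i p := by
    rw [← sum_neg_distrib]
    refine sum_nbij (fun j => (j : ι)) ?_ ?_ ?_ ?_
    · intro j hj
      exact mem_erase.2 ⟨fun h' => (mem_erase.1 hj).1 (Subtype.ext h'), j.2⟩
    · intro a _ b _ hab
      exact Subtype.ext hab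
    · intro p hp
      have hp' := mem_erase.1 (mem_coe.1 hp)
      refine ⟨⟨p, hp'.2⟩, ?_, rfl⟩
      exact mem_coe.2 (mem_erase.2 ⟨fun h' => hp'.1 (congrArg Subtype.val h'), mem_univ _⟩)
    · intro j hj
      have : i ≠ j := fun h' => (mem_erase.1 hj).1 h'.symm
      simp only [NM, if_neg this]
  rw [h2, h3, add_neg_cancel]

/-- the bordered determinant of `NM m κ T` -/
def FB (m : ι → ι → R) (b c : ι → R) (k : R) (κ : ι → R) (T : Finset ι) : R :=
  (BM (NM m κ T) (fun i => b i) (fun i => c i) k).det

theorem FB_congr (m : ι → ι → R) (b c : ι → R) (k : R) (κ κ' : ι → R) (T : Finset ι)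
    (h : ∀ i ∈ T, κ i = κ' i) : FB m b c k κ T = FB m b c k κ' T := by
  rw [FB, FB, NM_congr m h]

theorem FB_update (m : ι → ι → R) (b c : ι → R) (k : R) (κ : ι → R) (T : Finset ι) (r : ι) (x : R)
    (hr : r ∈ T) : FB m b c k (Function.update κ r (κ r + x)) T =
      FB m b c k κ T + x * FB m b c k (fun p => κ p + m p r) (T.erase r) := by
  classical
  obtain ⟨M, hM⟩ : ∃ M, M = BM (NM m κ T) (fun i => b i) (fun i => c i) k := ⟨_, rfl⟩
  have e1 : BM (NM m (Function.update κ r (κ r + x)) T) (fun i => b i) (fun i => c i) k =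
      M.updateRow (Sum.inl ⟨r, hr⟩) (M (Sum.inl ⟨r, hr⟩) + Pi.single (Sum.inl ⟨r, hr⟩) x) := by
    ext i j
    rw [Matrix.updateRow_apply]
    split_ifs with h
    · subst h
      rcases j with j | j
      · by_cases hj : (⟨r, hr⟩ : T) = j
        · subst hj
          simp only [hM, BM, Matrix.fromBlocks_apply₁₁, NM, if_true, Function.update_self,
            Pi.add_apply, Pi.single_eq_same]
          ring
        · have hj' : (Sum.inl j : T ⊕ Unit) ≠ Sum.inl ⟨r, hr⟩ := fun h' => hj (Sum.inl.inj h').symm
          simp only [hM, BM, Matrix.fromBlocks_apply₁₁, NM, if_neg hj, Pi.add_apply,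
            Pi.single_eq_of_ne hj', add_zero]
      · have hj' : (Sum.inr j : T ⊕ Unit) ≠ Sum.inl ⟨r, hr⟩ := by simp
        simp only [hM, BM, Matrix.fromBlocks_apply₁₂, Pi.add_apply, Pi.single_eq_of_ne hj', add_zero]
    · rcases i with i | i
      · have hi : (i : ι) ≠ r := fun h' => h (congrArg Sum.inl (Subtype.ext h'))
        rcases j with j | j
        · simp only [hM, BM, Matrix.fromBlocks_apply₁₁, NM, Function.update_of_ne hi]
        · simp only [hM, BM, Matrix.fromBlocks_apply₁₂]
      · rcases j with j | j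
        · simp only [hM, BM, Matrix.fromBlocks_apply₂₁]
        · simp only [hM, BM, Matrix.fromBlocks_apply₂₂]
  have e2 : (M.submatrix (fun i : {i // ¬ i = Sum.inl ⟨r, hr⟩} => i.1)
      (fun i : {i // ¬ i = Sum.inl ⟨r, hr⟩} => i.1)).det =
      FB m b c k (fun p => κ p + m p r) (T.erase r) := by
    let e : ↥(T.erase r) ⊕ Unit ≃ {i : T ⊕ Unit // ¬ i = Sum.inl ⟨r, hr⟩} :=
      { toFun := fun x => match x with
          | Sum.inl i => ⟨Sum.inl ⟨i, mem_of_mem_erase i.2⟩, fun h =>
              (mem_erase.1 i.2).1 (congrArg Subtype.val (Sum.inl.inj h))⟩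
          | Sum.inr u => ⟨Sum.inr u, fun h => by simp at h⟩
        invFun := fun x => match x with
          | ⟨Sum.inl i, hi⟩ => Sum.inl ⟨i, mem_erase.2 ⟨fun h => hi (congrArg Sum.inl (Subtype.ext h)), i.2⟩⟩
          | ⟨Sum.inr u, _⟩ => Sum.inr u
        left_inv := fun x => by rcases x with i | u <;> rfl
        right_inv := fun x => by rcases x with ⟨i | u, hi⟩ <;> rfl }
    rw [← Matrix.det_submatrix_equiv_self e, FB]
    congr 1
    ext i j
    rcases i with i | i
    · have hi : (i : ι) ≠ r := (mem_erase.1 i.2).1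
      rcases j with j | j
      · simp only [Matrix.submatrix_apply, e, Equiv.coe_fn_mk, hM, BM, Matrix.fromBlocks_apply₁₁]
        simp only [NM]
        by_cases hij : i = j
        · subst hij
          simp only [if_true]
          have h2 : T.erase (i : ι) = insert r ((T.erase r).erase (i : ι)) := by
            ext x
            simp only [mem_erase, mem_insert]
            constructor
            · rintro ⟨h3, h4⟩
              by_cases h5 : x = r
              · exact Or.inl h5
              · exact Or.inr ⟨h3, h5, h4⟩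
            · rintro (rfl | ⟨h3, -, h4⟩)
              · exact ⟨fun h => hi h.symm, hr⟩
              · exact ⟨h3, h4⟩
          rw [h2, sum_insert (by simp)]
          ring
        · have h2 : ¬ (⟨(i : ι), mem_of_mem_erase i.2⟩ : T) = ⟨(j : ι), mem_of_mem_erase j.2⟩ :=
            fun h => hij (Subtype.ext (Subtype.mk.inj h))
          rw [if_neg h2, if_neg hij]
      · simp only [Matrix.submatrix_apply, e, Equiv.coe_fn_mk, hM, BM, Matrix.fromBlocks_apply₁₂,
          Matrix.of_apply]
    · rcases j with j | j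
      · simp only [Matrix.submatrix_apply, e, Equiv.coe_fn_mk, hM, BM, Matrix.fromBlocks_apply₂₁,
          Matrix.of_apply]
      · simp only [Matrix.submatrix_apply, e, Equiv.coe_fn_mk, hM, BM, Matrix.fromBlocks_apply₂₂,
          Matrix.of_apply]
  have e3 : M.det = FB m b c k κ T := by rw [hM, FB]
  have e4 : FB m b c k (Function.update κ r (κ r + x)) T =
      (M.updateRow (Sum.inl ⟨r, hr⟩) (M (Sum.inl ⟨r, hr⟩) + Pi.single (Sum.inl ⟨r, hr⟩) x)).det := by
    rw [FB, e1]
  rw [e4, Matrix.det_updateRow_add, Matrix.updateRow_eq_self, det_single, e2, e3]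

theorem FB_empty (m : ι → ι → R) (b c : ι → R) (k : R) (κ : ι → R) : FB m b c k κ ∅ = k := by
  rw [FB, det_BM, Matrix.det_isEmpty]
  simp

/-- the bordered determinant at `κ = 0` -/
theorem FB_zero (m : ι → ι → R) (b c : ι → R) (k : R) {T : Finset ι} (hT : T.Nonempty) :
    FB m b c k 0 T = -((∑ q ∈ T, c q) * CZ m b T) := by
  rw [FB, det_BM, NM_zero (κ := 0) m hT (fun _ _ => rfl), mul_zero, zero_sub, CZ, neg_inj,
    ← sum_coe_sort T c, sum_mul_sum]
  refine sum_congr rfl fun i _ => sum_congr rfl fun j _ => ?_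
  rw [adj_row (NM_mulVec_one m T) i j j]
  ring

/-- **The forest identity for bordered determinants.** -/
theorem forest_FB (m : ι → ι → R) (b c : ι → R) (k : R) (κ : ι → R) {S : Finset ι}
    (hS : S.Nonempty) :
    ∑ T ∈ S.powerset, (-1) ^ T.card * FB m b c k κ T * ∏ q ∈ S \ T, (κ q + ∑ p ∈ T, m q p) =
      -∑ T ∈ S.powerset, (-1) ^ T.card * ((∑ q ∈ T, c q) * CZ m b T) *
        ∏ q ∈ S \ T, ∑ p ∈ T, m q p := by
  have h1 := GG_indep (FB_congr m b c k) (FB_update m b c k) κ S
  rw [GG, GG] at h1
  rw [h1, ← sum_neg_distrib]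
  refine sum_congr rfl fun T _ => ?_
  simp only [Pi.zero_apply, zero_add]
  rcases T.eq_empty_or_nonempty with rfl | hT
  · obtain ⟨a, ha⟩ := hS
    have h3 : ∏ q ∈ S \ ∅, ∑ p ∈ (∅ : Finset ι), m q p = 0 :=
      prod_eq_zero (i := a) (by simpa using ha) sum_empty
    rw [h3, mul_zero, mul_zero, neg_zero]
  · rw [FB_zero m b c k hT]
    ring

/-! ### The form with exponents -/

/-- the bordered matrix with exponents -/
def BN (s : ι → ι → R) (κ e a : ι → R) (k : R) (T : Finset ι) : Matrix (T ⊕ Unit) (T ⊕ Unit) R :=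
  BM (NE s κ e T) (fun i => a i) (fun i => a i) k

theorem FB_NE (s : ι → ι → R) (κ e a : ι → R) (k : R) (T : Finset ι)
    (he : ∀ i ∈ T, e i * e i = 1) :
    FB (fun i p => s i p * e p) a (fun i => e i * a i) k κ T =
      (∏ i ∈ T, e i) * (BN s κ e a k T).det := by
  classical
  have e1 : BM (NM (fun i p => s i p * e p) κ T) (fun i => a i) (fun i => e i * a i) k =
      BN s κ e a k T * Matrix.fromBlocks (Matrix.diagonal (fun i : T => e i)) 0 0 1 := by
    rw [BN, BM, BM, Matrix.fromBlocks_multiply, NM_eq_NE s κ e T he]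
    congr 1
    · rw [Matrix.mul_zero, add_zero]
    · rw [Matrix.mul_zero, zero_add, Matrix.mul_one]
    · rw [Matrix.mul_zero, add_zero]
      ext i j
      rw [Matrix.mul_diagonal, Matrix.of_apply, Matrix.of_apply, mul_comm]
    · rw [Matrix.mul_zero, zero_add, Matrix.mul_one]
  rw [FB, e1, Matrix.det_mul, Matrix.det_fromBlocks_zero₂₁, Matrix.det_diagonal, Matrix.det_one,
    mul_one, mul_comm]
  congr 1
  exact prod_coe_sort T e

/-- **The forest identity for bordered determinants, with exponents.** -/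
theorem forest_border (s : ι → ι → R) (κ e a : ι → R) (k : R) {S : Finset ι} (hS : S.Nonempty)
    (he : ∀ i ∈ S, e i * e i = 1) :
    ∑ T ∈ S.powerset, (-1) ^ T.card * ((∏ q ∈ T, e q) * (BN s κ e a k T).det) *
        ∏ q ∈ S \ T, (κ q + ∑ p ∈ T, s q p * e p) =
      -∑ T ∈ S.powerset, (-1) ^ T.card *
        ((∑ q ∈ T, e q * a q) * CZ (fun i p => s i p * e p) a T) *
        ∏ q ∈ S \ T, ∑ p ∈ T, s q p * e p := by
  classical
  rw [← forest_FB (fun i p => s i p * e p) a (fun i => e i * a i) k κ hS]
  refine sum_congr rfl fun T hT => ?_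
  rw [FB_NE s κ e a k T fun i hi => he i ((mem_powerset.1 hT) hi)]

theorem BN_empty (s : ι → ι → R) (κ e a : ι → R) (k : R) : (BN s κ e a k ∅).det = k := by
  have h := FB_NE s κ e a k ∅ (by simp)
  rw [FB_empty, prod_empty, one_mul] at h
  exact h.symm

/-- **Uniqueness**: the recursion determines the family from its value at `∅`. -/
theorem border_unique (s : ι → ι → R) (κ e a : ι → R) (k : R) {ν : Finset ι → R} {D : Finset ι}
    (he : ∀ i ∈ D, e i * e i = 1) (h0 : ν ∅ = k)
    (h : ∀ S ⊆ D, S.Nonempty →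
      ∑ T ∈ S.powerset, (-1) ^ T.card * ν T * ∏ q ∈ S \ T, (κ q + ∑ p ∈ T, s q p * e p) =
      -∑ T ∈ S.powerset, (-1) ^ T.card *
        ((∑ q ∈ T, e q * a q) * CZ (fun i p => s i p * e p) a T) *
        ∏ q ∈ S \ T, ∑ p ∈ T, s q p * e p) :
    ∀ S ⊆ D, ν S = (∏ q ∈ S, e q) * (BN s κ e a k S).det := by
  classical
  intro S hS
  rcases S.eq_empty_or_nonempty with rfl | hS0
  · rw [BN_empty, prod_empty, one_mul, h0]
  refine tri_unique (c := fun S T => ∏ q ∈ S \ T, (κ q + ∑ p ∈ T, s q p * e p))
    (ν' := fun S => (∏ q ∈ S, e q) * (BN s κ e a k S).det) (by simp) (D := D) ?_ S hS hS0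
  intro S hS hS0
  have h1 := h S hS hS0
  rw [← forest_border s κ e a k hS0 fun i hi => he i (hS hi)] at h1
  have hm : ∅ ∈ S.powerset := empty_mem_powerset S
  rw [← add_sum_erase _ _ hm, ← add_sum_erase _ _ hm] at h1
  rw [h0, BN_empty, prod_empty, one_mul] at h1
  exact add_left_cancel h1

end Main

/-- **(F6)** in the names of `Sys1`. -/
theorem forQ {ι : Type*} [DecidableEq ι] (s : ι → ι → ZMod 3) (κ e a : ι → ZMod 3) (z : ZMod 3)
    {S : Finset ι} (hS : S.Nonempty) (he : ∀ i ∈ S, e i * e i = 1) :
    ∑ T ∈ S.powerset, (-1) ^ T.card * ((∏ q ∈ T, e q) * (NB s κ e a z T).det) *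
        ∏ q ∈ S \ T, (κ q + ∑ p ∈ T, s q p * e p) = -GQ s e a S :=
  forest_border s κ e a z hS he

end Pool.Agent.Lib.MP_1a91b9_ntK
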