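import Pool.Agent.Lib.MP_1a91b9_ntK.A.Ind0

/-!
# Cubic twists, part A, file Gr0: the weight grading of the sums over the classes, `k = 0`

The rotation `Q ↦ w Q` of the points `Q = c / (3 D) - 1/3` multiplies the character of `T` by `w ^ (-A_T)`,
`A_T = ∑ (q ∈ T) e q * a q`, and the abscissa by `w`. So the identity of one subset `T` (Ind0) gives the sums of the
powers of the abscissa, and the residue class of `∑ τ ξ`, `ξ = (X - X₁) / √-3`.
-/

set_option autoImplicit false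

namespace Pool.Agent.Lib.MP_1a91b9_ntK

open NumberField IsDedekindDomain Pool.Agent.Lib.MP_1a91b9_ntT Pool.Agent.Lib.MP_1a91b9_ntG
open Pool.Agent.Lib.MP_1a91b9_ntH (wO s3 cp s3_sq s3_ne s3_not_isUnit s3_dvd_three Nz Half_mem_iff
  wO_quad)
open Pool.Agent.Lib.MP_1a91b9_ntX.R (cs cs_mul G3)

noncomputable section

/-! ### The identity of one subset -/

theorem gr0_one (e : P3 → ZMod 3) {T S : Finset P3} (hTS : T ⊆ S) (hT : T.Nonempty)
    (he : ∀ q ∈ T, e q ≠ 0) {ι : Type} [Fintype ι] {c : ι → 𝓞 K}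
    (hc : RepsG 3 (3 * DD3 S) c) :
    nu0 e T * ∏ q ∈ S \ T, ((em q.1 - Xk 0 e T q.1) / (1 - zt)) =
      (∑ i, (∏ q ∈ T, chq q (e q) (c i)) * rho (qt (DD3 S) (c i))) / (1 - zt) ^ (S.card + 1) := by
  have hS : S.Nonempty := hT.mono hTS
  have hN := N0_ne
  have hw : (1 : ℂ) - zt ≠ 0 := one_sub_zt_ne
  have hE : em (3 * s3 * DD3 S) ≠ 0 :=
    rt_em_ne (mul_ne_zero (mul_ne_zero (by norm_num) s3_ne) (DD3_ne S))
  let _ : DecidableEq (Pf 3) := inferInstanceAs (DecidableEq P3)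
  have h1 : Lk 0 e T 1 * ∏ q ∈ S \ T, (1 - Xk 0 e T q.1 / em q.1) =
      (em (3 * s3 * DD3 S))⁻¹ * ∑ i, (∏ q ∈ T, chq q (e q) (c i)) *
        PhC 0 (em (c i) / em (3 * s3 * DD3 S)) := by
    refine (Gen_id (th_chr 0) (fun q : Pf 3 => chq_chrP q (e q)) hTS (reps3 hc)).trans ?_
    rw [Fintype.sum_prod_type]
    congr 1
    refine Finset.sum_congr rfl fun i _ => ?_
    rw [PhC, Finset.mul_sum]
    refine Finset.sum_congr rfl fun x _ => ?_
    change (th 0 (c i + 3 * (DD3 S * (x.val : 𝓞 K))) *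
      ∏ q ∈ T, chq q (e q) (c i + 3 * (DD3 S * (x.val : 𝓞 K)))) *
      E1 (em (c i + 3 * (DD3 S * (x.val : 𝓞 K))) / em (3 * s3 * DD3 S)) = _
    have e2 : ∏ q ∈ T, chq q (e q) (c i + 3 * (DD3 S * (x.val : 𝓞 K))) =
        ∏ q ∈ T, chq q (e q) (c i) := by
      refine Finset.prod_congr rfl fun q hq => ?_
      have h2 : q.1 ∣ c i + 3 * (DD3 S * (x.val : 𝓞 K)) - c i := by
        rw [add_sub_cancel_left]
        exact ((dvd_DD3.2 (hTS hq)).mul_right _).mul_left _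
      rw [(chq_chrP q (e q)).per _ _ h2]
    rw [e2, Avg_div, th_zero, zero_mul, neg_zero, e3_zero]
    ring
  have h2 := phC0_sum (DD3_three S) (DD3_unit hS) hc
      (fun x => ∏ q ∈ T, chq q (e q) x)
      (fun a b hab => Finset.prod_congr rfl fun q hq => by
        rw [(chq_chrP q (e q)).per a b ((dvd_DD3.2 (hTS hq)).trans hab)])
      (fun a => Finset.prod_congr rfl fun q _ => by rw [chq_neg])
  have h3 : ∑ i, (∏ q ∈ T, chq q (e q) (c i)) * (1 + rho (qt (DD3 S) (c i))) =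
      ∑ i, (∏ q ∈ T, chq q (e q) (c i)) * rho (qt (DD3 S) (c i)) := by
    have h4 := cnt3_chq hc e hTS hT he
    rw [← zero_add (∑ i, (∏ q ∈ T, chq q (e q) (c i)) * rho (qt (DD3 S) (c i))), ← h4,
      ← Finset.sum_add_distrib]
    exact Finset.sum_congr rfl fun i _ => by ring
  rw [h2, h3] at h1
  have h5 : S.card + 1 = (T.card + 1) + (S \ T).card := by
    rw [Finset.card_sdiff_of_subset hTS]
    have := Finset.card_le_card hTS
    omega
  have h4 : ∏ q ∈ S \ T, em q.1 ≠ 0 := Finset.prod_ne_zero_iff.2 fun q _ => rt_em_ne q.2.1.ne_zero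
  have h6 : ∏ q ∈ S \ T, (1 - Xk 0 e T q.1 / em q.1) =
      (∏ q ∈ S \ T, (em q.1 - Xk 0 e T q.1)) / ∏ q ∈ S \ T, em q.1 := by
    rw [← Finset.prod_div_distrib]
    refine Finset.prod_congr rfl fun q _ => ?_
    have h6 := rt_em_ne q.2.1.ne_zero
    field_simp
  rw [h6] at h1
  have h7 : (1 - zt) ^ (T.card + 1) ≠ 0 := pow_ne_zero _ hw
  have h8 : (1 - zt) ^ (S \ T).card ≠ 0 := pow_ne_zero _ hw
  have hN' : em s3 * E1 (1 / 3) = N0 := rfl
  rw [hN'] at h1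
  rw [nu0, Finset.prod_div_distrib, Finset.prod_const, h5, pow_add (1 - zt) (T.card + 1)]
  have h9 := DD3_sdiff hTS
  have hET : em (3 * s3 * DD3 T) ≠ 0 :=
    rt_em_ne (mul_ne_zero (mul_ne_zero (by norm_num) s3_ne) (DD3_ne T))
  rw [h9] at h1
  field_simp at h1 ⊢
  linear_combination h1

/-! ### The rotation -/

section
variable {S : Finset P3} {ι : Type} {c : ι → 𝓞 K} (hc : RepsG 3 (3 * DD3 S) c)
include hc

theorem gr0_rot [Finite ι] : ∃ σ : Equiv.Perm ι,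
    ∀ i, 3 * DD3 S ∣ (wO * c i + (1 - wO) * DD3 S) - c (σ i) := by
  have h3 := DD3_three S
  have hwu : wO * wO ^ 2 = 1 := by linear_combination (wO - 1) * wO_quad
  have hex : ∀ i, ∃ j, 3 * DD3 S ∣ (wO * c i + (1 - wO) * DD3 S) - c j := by
    intro i
    have h4 : (3 : 𝓞 K) ∣ (wO * c i + (1 - wO) * DD3 S) - 1 := by
      have e1 : (wO * c i + (1 - wO) * DD3 S) - 1 = wO * (c i - 1) + (1 - wO) * (DD3 S - 1) := by
        ring
      rw [e1]
      exact dvd_add ((hc.fx i).mul_left _) (h3.mul_left _)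
    refine hc.ex _ (IsCoprime.mul_right ?_ ?_) h4
    · obtain ⟨t, ht⟩ := h4
      exact ⟨1, -t, by linear_combination ht⟩
    · obtain ⟨a, b, hab⟩ := (hc.cop i).of_isCoprime_of_dvd_right (dvd_mul_left (DD3 S) 3)
      exact ⟨wO ^ 2 * a, b - wO ^ 2 * a * (1 - wO), by
        linear_combination hab + (a * c i) * hwu⟩
  choose σ hσ using hex
  have hinj : Function.Injective σ := by
    intro i j hij
    refine hc.inj i j ?_
    have h1 := dvd_sub (hσ i) (hσ j)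
    rw [hij] at h1
    have e1 : wO * c i + (1 - wO) * DD3 S - c (σ j) - (wO * c j + (1 - wO) * DD3 S - c (σ j)) =
        wO * (c i - c j) := by ring
    rw [e1] at h1
    obtain ⟨t, ht⟩ := h1
    exact ⟨wO ^ 2 * t, by linear_combination wO ^ 2 * ht - (c i - c j) * hwu⟩
  exact ⟨Equiv.ofBijective σ (Finite.injective_iff_bijective.1 hinj), hσ⟩

omit hc in
theorem gr0_em_w : em wO = zt := by
  have h := Pool.Agent.Lib.MP_1a91b9_ntH.emb_coords 0 1
  have e : (((0 : ℤ) : 𝓞 K) + ((1 : ℤ) : 𝓞 K) * wO) = wO := by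
    push_cast
    ring
  rw [e] at h
  have h1 : em wO = ((0 : ℤ) : ℂ) + ((1 : ℤ) : ℂ) * zt := h
  rw [h1]
  push_cast
  ring

omit hc in
theorem gr0_qt {a b : 𝓞 K} (h : 3 * DD3 S ∣ (wO * a + (1 - wO) * DD3 S) - b) :
    ∃ l ∈ PP.lattice, qt (DD3 S) b = zt * qt (DD3 S) a + l := by
  obtain ⟨t, ht⟩ := h
  have hD : em (DD3 S) ≠ 0 := rt_em_ne (DD3_ne S)
  refine ⟨em (-t), Half_mem_iff.2 ⟨-t, rfl⟩, ?_⟩
  have e1 : b = wO * a + (1 - wO) * DD3 S + 3 * DD3 S * (-t) := by linear_combination -ht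
  rw [qt, qt, e1, rt_em_add, rt_em_add, rt_em_mul, rt_em_mul, rt_em_mul, rt_em_mul, rt_em_sub,
    rt_em_one, rt_em_three, gr0_em_w]
  field_simp
  ring

omit hc in
/-- the character of `T` under the rotation -/
theorem gr0_chq (e : P3 → ZMod 3) {T : Finset P3} (hTS : T ⊆ S) {i j : ι}
    (h : 3 * DD3 S ∣ (wO * c i + (1 - wO) * DD3 S) - c j) :
    ∏ q ∈ T, chq q (e q) (c j) =
      e3 (-∑ q ∈ T, e q * abar q.1) * ∏ q ∈ T, chq q (e q) (c i) := by
  rw [← Finset.sum_neg_distrib, e3_sum, ← Finset.prod_mul_distrib]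
  refine Finset.prod_congr rfl fun q hq => ?_
  have h1 : q.1 ∣ c j - wO * c i := by
    obtain ⟨t, ht⟩ := h
    obtain ⟨d, hd⟩ := dvd_DD3.2 (hTS hq)
    exact ⟨d * ((1 - wO) - 3 * t), by linear_combination -ht + ((1 - wO) - 3 * t) * hd⟩
  rw [(chq_chrP q (e q)).per _ _ h1, (chq_chrP q (e q)).mul]
  congr 1
  have h2 : ¬ q.1 ∣ wO := by
    intro h2
    have hwu : wO * wO ^ 2 = 1 := by linear_combination (wO - 1) * wO_quad
    exact q.2.1.not_isUnit (isUnit_of_dvd_one (h2.trans ⟨wO ^ 2, hwu.symm⟩))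
  rw [chq_of_not h2, abar_q, mul_neg]

/-! ### The graded sums -/

/-- `3 / (X₀³ - X³)` -/
def gQ (Q : ℂ) : ℂ := 3 / (X0 ^ 3 - S3.X Q ^ 3)

omit hc in
theorem e3_nat (n : ℕ) : e3 (n : ZMod 3) = zt ^ n := by
  induction n with
  | zero => rw [Nat.cast_zero, e3_zero, pow_zero]
  | succ n ih => rw [Nat.cast_succ, e3_add, ih, e3_one, pow_succ]

omit hc in
theorem gQ_rot {Q l : ℂ} (hl : l ∈ PP.lattice) : gQ (zt * Q + l) = gQ Q := by
  rw [gQ, gQ, S3.X_add hl, Rq.X_zt, mul_pow, S3.zt_cube, one_mul]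

/-- **the grading**: the sum vanishes unless the weight is `A_T` -/
theorem gr0_zero [Fintype ι] (e : P3 → ZMod 3) {T : Finset P3} (hTS : T ⊆ S) (n : ℕ)
    (hn : (n : ZMod 3) ≠ ∑ q ∈ T, e q * abar q.1) :
    ∑ i, (∏ q ∈ T, chq q (e q) (c i)) *
      (S3.X (qt (DD3 S) (c i)) ^ n * gQ (qt (DD3 S) (c i))) = 0 := by
  obtain ⟨σ, hσ⟩ := gr0_rot hc
  obtain ⟨a, ha⟩ : ∃ a, a = ∑ q ∈ T, e q * abar q.1 := ⟨_, rfl⟩
  have h1 : ∑ i, (∏ q ∈ T, chq q (e q) (c i)) *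
      (S3.X (qt (DD3 S) (c i)) ^ n * gQ (qt (DD3 S) (c i))) = e3 (n - a) *
      ∑ i, (∏ q ∈ T, chq q (e q) (c i)) *
        (S3.X (qt (DD3 S) (c i)) ^ n * gQ (qt (DD3 S) (c i))) := by
    conv_lhs => rw [← Equiv.sum_comp σ]
    rw [Finset.mul_sum]
    refine Finset.sum_congr rfl fun i _ => ?_
    obtain ⟨l, hl, hq⟩ := gr0_qt (hσ i)
    rw [gr0_chq e hTS (hσ i), hq, gQ_rot hl, S3.X_add hl, Rq.X_zt, mul_pow, ← e3_nat, ← ha,
      sub_eq_add_neg, e3_add]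
    ring
  have h2 : (1 - e3 (n - a)) * ∑ i, (∏ q ∈ T, chq q (e q) (c i)) *
        (S3.X (qt (DD3 S) (c i)) ^ n * gQ (qt (DD3 S) (c i))) = 0 := by
    linear_combination h1
  rcases mul_eq_zero.1 h2 with h3 | h3
  · exfalso
    apply hn
    rw [← ha]
    exact sub_eq_zero.1 (e3_eq_one (sub_eq_zero.1 h3).symm)
  · exact h3

/-- the point of a class is good -/
theorem gr0_good {A : ValuationSubring ℂ} (hA : Three A) (hS : S.Nonempty) (i : ι) :
    sq3 * qt (DD3 S) (c i) ∉ PP.lattice ∧ Gd A (qt (DD3 S) (c i)) ∧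
      Gd A (sq3 * qt (DD3 S) (c i)) := by
  obtain ⟨d, _, hd, e⟩ := qt_eq (DD3_three S) (hc.fx i) (hc.cop i) (DD3_unit hS)
  rw [e]
  obtain ⟨a0, _, _, _⟩ := s3_mul_notMem (three_dvd_not (DD3_three S)) hd
  obtain ⟨b1, b2⟩ := good_cop hA (three_dvd_not (DD3_three S)) hd
  exact ⟨a0, b1, b2⟩

omit hc in
theorem gQ_eq {A : ValuationSubring ℂ} {z : ℂ} (hs : sq3 * z ∉ PP.lattice) (h : Gd A z)
    (h' : Gd A (sq3 * z)) : X0 ^ 3 - S3.X z ^ 3 ≠ 0 ∧ gQ z = 1 / (S3.X z ^ 2 * S3.X (sq3 * z)) := by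
  have hne : ∀ x : ℂ, A.valuation x = 1 → x ≠ 0 := by
    rintro x hx rfl
    rw [map_zero] at hx
    exact zero_ne_one hx
  have h1 := hne _ h.1
  have h2 := hne _ h'.1
  have h3 := X_s3 hs
  have e : X0 ^ 3 - S3.X z ^ 3 = 3 * (S3.X z ^ 2 * S3.X (sq3 * z)) := by
    rw [X0_cube]
    linear_combination -h3
  rw [gQ, e]
  refine ⟨mul_ne_zero (by norm_num) (mul_ne_zero (pow_ne_zero 2 h1) h2), ?_⟩
  field_simp

omit hc in
theorem rho_gQ {Q : ℂ} (h : X0 ^ 3 - S3.X Q ^ 3 ≠ 0) :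
    rho Q = gQ Q * (X0 ^ 2 + X0 * S3.X Q + S3.X Q ^ 2) / (2 * X0 ^ 2) := by
  have e : X0 ^ 3 - S3.X Q ^ 3 = (X0 - S3.X Q) * (X0 ^ 2 + X0 * S3.X Q + S3.X Q ^ 2) := by ring
  rw [e] at h
  have h1 := left_ne_zero_of_mul h
  have h2 := right_ne_zero_of_mul h
  have h3 := X0_ne
  rw [rho, gQ, e, div_mul_eq_mul_div, div_div,
    div_eq_div_iff (mul_ne_zero two_ne_zero (mul_ne_zero (pow_ne_zero 2 h3) h1))
      (mul_ne_zero (mul_ne_zero h1 h2) (mul_ne_zero two_ne_zero (pow_ne_zero 2 h3)))]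
  ring

/-- the graded sums of a subset in terms of its normalised value -/
theorem gr0_G [Fintype ι] (e : P3 → ZMod 3) {T : Finset P3} (hTS : T ⊆ S) (hT : T.Nonempty)
    (he : ∀ q ∈ T, e q ≠ 0) :
    (∑ i, (∏ q ∈ T, chq q (e q) (c i)) *
        (S3.X (qt (DD3 S) (c i)) ^ 1 * gQ (qt (DD3 S) (c i))) =
      if ∑ q ∈ T, e q * abar q.1 = 1 then 2 * X0 * (1 - zt) ^ (S.card + 1) *
        (nu0 e T * ∏ q ∈ S \ T, ((em q.1 - Xk 0 e T q.1) / (1 - zt))) else 0) ∧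
    (∑ i, (∏ q ∈ T, chq q (e q) (c i)) *
        (S3.X (qt (DD3 S) (c i)) ^ 2 * gQ (qt (DD3 S) (c i))) =
      if ∑ q ∈ T, e q * abar q.1 = 2 then 2 * X0 ^ 2 * (1 - zt) ^ (S.card + 1) *
        (nu0 e T * ∏ q ∈ S \ T, ((em q.1 - Xk 0 e T q.1) / (1 - zt))) else 0) := by
  obtain ⟨A, hA⟩ := exists_Three
  have hS : S.Nonempty := hT.mono hTS
  have hw : (1 - zt) ^ (S.card + 1) ≠ 0 := pow_ne_zero _ one_sub_zt_ne
  have hX := X0_ne
  obtain ⟨a, ha⟩ : ∃ a, a = ∑ q ∈ T, e q * abar q.1 := ⟨_, rfl⟩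
  obtain ⟨G, hG⟩ : ∃ G : ℕ → ℂ, ∀ n, G n = ∑ i, (∏ q ∈ T, chq q (e q) (c i)) *
      (S3.X (qt (DD3 S) (c i)) ^ n * gQ (qt (DD3 S) (c i))) := ⟨_, fun _ => rfl⟩
  have hz : ∀ n : ℕ, (n : ZMod 3) ≠ a → G n = 0 := fun n hn => by
    rw [hG]
    exact gr0_zero hc e hTS n (by rwa [← ha])
  have h1 := gr0_one e hTS hT he hc
  have h2 : ∑ i, (∏ q ∈ T, chq q (e q) (c i)) * rho (qt (DD3 S) (c i)) =
      (X0 ^ 2 * G 0 + X0 * G 1 + G 2) / (2 * X0 ^ 2) := by
    rw [hG, hG, hG, Finset.mul_sum, Finset.mul_sum, ← Finset.sum_add_distrib,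
      ← Finset.sum_add_distrib, Finset.sum_div]
    refine Finset.sum_congr rfl fun i _ => ?_
    obtain ⟨g1, g2, g3⟩ := gr0_good hc hA hS i
    rw [rho_gQ (gQ_eq g1 g2 g3).1]
    ring
  rw [h2, eq_div_iff hw] at h1
  rw [← hG, ← hG, ← ha]
  have hcase : a = 0 ∨ a = 1 ∨ a = 2 := by
    have h3 : ∀ a : ZMod 3, a = 0 ∨ a = 1 ∨ a = 2 := by decide
    exact h3 a
  have c1 : ((1 : ℕ) : ZMod 3) = 1 := by decide
  have c2 : ((2 : ℕ) : ZMod 3) = 2 := by decide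
  have c0 : ((0 : ℕ) : ZMod 3) = 0 := by decide
  rcases hcase with h0 | h0 | h0
  · rw [hz 1 (by rw [c1, h0]; decide), hz 2 (by rw [c2, h0]; decide), h0, if_neg (by decide),
      if_neg (by decide)]
    exact ⟨rfl, rfl⟩
  · rw [hz 2 (by rw [c2, h0]; decide), h0, if_pos rfl, if_neg (by decide)]
    rw [hz 2 (by rw [c2, h0]; decide), hz 0 (by rw [c0, h0]; decide)] at h1
    refine ⟨?_, rfl⟩
    have h3 : G 1 = 2 * X0 * ((X0 ^ 2 * 0 + X0 * G 1 + 0) / (2 * X0 ^ 2)) := by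
      field_simp
      ring
    rw [← h1] at h3
    linear_combination h3
  · rw [hz 1 (by rw [c1, h0]; decide), h0, if_neg (by decide), if_pos rfl]
    rw [hz 1 (by rw [c1, h0]; decide), hz 0 (by rw [c0, h0]; decide)] at h1
    refine ⟨rfl, ?_⟩
    have h3 : G 2 = 2 * X0 ^ 2 * ((X0 ^ 2 * 0 + X0 * 0 + G 2) / (2 * X0 ^ 2)) := by
      field_simp
      ring
    rw [← h1] at h3
    linear_combination h3

/-- the sum with the weights `∏ (1 - χ_q) / (1 - w)` -/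
theorem gr0_wt [Fintype ι] (e : P3 → ZMod 3) (he : ∀ q ∈ S, e q ≠ 0) (X1 : ℂ) :
    ∑ i, (∏ q ∈ S, ((1 - chq q (e q) (c i)) / (1 - zt))) *
        (S3.X (qt (DD3 S) (c i)) * ((S3.X (qt (DD3 S) (c i)) - X1) / sq3) *
          gQ (qt (DD3 S) (c i))) =
      2 * zt ^ 2 * ∑ T ∈ S.powerset, (-1) ^ T.card * (((if ∑ q ∈ T, e q * abar q.1 = 2 then X0 ^ 2
        else 0) - (if ∑ q ∈ T, e q * abar q.1 = 1 then X1 * X0 else 0)) *
        (nu0 e T * ∏ q ∈ S \ T, ((em q.1 - Xk 0 e T q.1) / (1 - zt)))) := by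
  have hw : (1 : ℂ) - zt ≠ 0 := one_sub_zt_ne
  have hs0 := sq3_ne
  have hsz : 1 - zt = sq3 * zt ^ 2 := by
    rw [sq3]
    linear_combination -(S3.zt_quad) - 2 * S3.zt_cube
  obtain ⟨G, hG⟩ : ∃ G : ℕ → Finset P3 → ℂ, ∀ n T, G n T = ∑ i, (∏ q ∈ T, chq q (e q) (c i)) *
      (S3.X (qt (DD3 S) (c i)) ^ n * gQ (qt (DD3 S) (c i))) := ⟨_, fun _ _ => rfl⟩
  have h1 : ∀ n, ∑ i, (∏ q ∈ S, ((1 - chq q (e q) (c i)) / (1 - zt))) *
      (S3.X (qt (DD3 S) (c i)) ^ n * gQ (qt (DD3 S) (c i))) =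
      ((1 - zt) ^ S.card)⁻¹ * ∑ T ∈ S.powerset, (-1) ^ T.card * G n T := by
    intro n
    have h2 : ∀ T ∈ S.powerset, (-1) ^ T.card * G n T = ∑ i, (∏ q ∈ T, -chq q (e q) (c i)) *
        (S3.X (qt (DD3 S) (c i)) ^ n * gQ (qt (DD3 S) (c i))) := by
      intro T _
      rw [hG, Finset.mul_sum]
      refine Finset.sum_congr rfl fun i _ => ?_
      rw [Finset.prod_neg]
      ring
    rw [Finset.sum_congr rfl h2, Finset.sum_comm, Finset.mul_sum]
    refine Finset.sum_congr rfl fun i _ => ?_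
    rw [← Finset.sum_mul, Finset.prod_div_distrib, Finset.prod_const]
    have h3 : ∏ q ∈ S, (1 - chq q (e q) (c i)) =
        ∑ T ∈ S.powerset, ∏ q ∈ T, -chq q (e q) (c i) := by
      rw [← Finset.prod_one_add]
      exact Finset.prod_congr rfl fun q _ => by ring
    rw [← h3]
    ring
  have h4 : ∑ i, (∏ q ∈ S, ((1 - chq q (e q) (c i)) / (1 - zt))) *
        (S3.X (qt (DD3 S) (c i)) * ((S3.X (qt (DD3 S) (c i)) - X1) / sq3) *
          gQ (qt (DD3 S) (c i))) =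
      (∑ i, (∏ q ∈ S, ((1 - chq q (e q) (c i)) / (1 - zt))) *
        (S3.X (qt (DD3 S) (c i)) ^ 2 * gQ (qt (DD3 S) (c i))) -
      X1 * ∑ i, (∏ q ∈ S, ((1 - chq q (e q) (c i)) / (1 - zt))) *
        (S3.X (qt (DD3 S) (c i)) ^ 1 * gQ (qt (DD3 S) (c i)))) / sq3 := by
    rw [Finset.mul_sum, ← Finset.sum_sub_distrib, Finset.sum_div]
    exact Finset.sum_congr rfl fun i _ => by ring
  rw [h4, h1, h1, Finset.mul_sum, Finset.mul_sum, Finset.mul_sum, ← Finset.sum_sub_distrib,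
    Finset.sum_div, Finset.mul_sum]
  refine Finset.sum_congr rfl fun T hT => ?_
  have hTS := Finset.mem_powerset.1 hT
  rcases T.eq_empty_or_nonempty with h0 | h0
  · subst h0
    have a1 : (0 : ZMod 3) ≠ 1 := by decide
    have a2 : (0 : ZMod 3) ≠ 2 := by decide
    have g1 : G 1 ∅ = 0 := by
      rw [hG]
      exact gr0_zero hc e hTS 1 (by rw [Finset.sum_empty]; decide)
    have g2 : G 2 ∅ = 0 := by
      rw [hG]
      exact gr0_zero hc e hTS 2 (by rw [Finset.sum_empty]; decide)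
    rw [g1, g2, Finset.sum_empty, if_neg a1, if_neg a2]
    ring
  · obtain ⟨g1, g2⟩ := gr0_G hc e hTS h0 fun q hq => he q (hTS hq)
    rw [← hG] at g1 g2
    rw [g1, g2, pow_succ (1 - zt) S.card]
    have hwS : (1 - zt) ^ S.card ≠ 0 := pow_ne_zero _ hw
    obtain ⟨V, hV⟩ : ∃ V, V = nu0 e T * ∏ q ∈ S \ T, ((em q.1 - Xk 0 e T q.1) / (1 - zt)) := ⟨_, rfl⟩
    rw [← hV]
    have h5 : (1 - zt) / sq3 = zt ^ 2 := by
      rw [hsz]
      field_simp
    rw [← h5]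
    split_ifs <;> field_simp <;> ring

end

/-! ### The residue class -/

/-- **(F7)**: the residue class of `∑ τ ξ`, `τ = (∏ (1 - χ_q) / (1 - w)) ^ 3`, `ξ = (X - X₁) / √-3`. -/
theorem gr0_res {A : ValuationSubring ℂ} (hA : Three A) {S : Finset P3} {ι : Type} [Fintype ι]
    {c : ι → 𝓞 K} (hc : RepsG 3 (3 * DD3 S) c) {e : P3 → ZMod 3} (hS : S.Nonempty)
    (he : ∀ q ∈ S, e q ≠ 0) {X1 : ℂ}
    (hx : ∀ i, A.valuation (S3.X (qt (DD3 S) (c i)) - X1) ≤ A.valuation sq3) :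
    Rt A (∑ i, (∏ q ∈ S, ((1 - chq q (e q) (c i)) / (1 - zt))) ^ 3 *
        ((S3.X (qt (DD3 S) (c i)) - X1) / sq3))
      (∑ T ∈ S.powerset, (-1) ^ T.card * ((∑ q ∈ T, e q * abar q.1) *
        CZ (fun i p => d3.s i p * e p) (fun q => abar q.1) T *
        ∏ q ∈ S \ T, ∑ p ∈ T, d3.s q p * e p)) := by
  classical
  have hlt := v_three_lt hA
  have hs := v_sq3_pos (A := A)
  have hslt : A.valuation sq3 < 1 := by
    rw [← v_zt_eq]
    exact v_zt_lt hA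
  -- `X₀`, `X₁`
  have hX0 : Rt A X0 (-1) := by
    refine Rt.one.neg.congr ?_
    rw [sub_neg_eq_add]
    rcases v_X0_add (A := A) with h | h
    · rw [h]
      exact zero_lt_one
    · by_contra h2
      push Not at h2
      have h3 := one_le_pow₀ h2 (n := 2)
      rw [h] at h3
      exact absurd hlt (not_lt.2 h3)
  have hXi : ∀ i, Rt A (S3.X (qt (DD3 S) (c i))) (-1) := by
    intro i
    refine Rt.one.neg.congr ?_
    rw [sub_neg_eq_add]
    exact (gr0_good hc hA hS i).2.1.lt hA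
  have hX1 : ∀ _ : ι, Rt A X1 (-1) := by
    intro i
    refine (hXi i).congr ?_
    rw [← neg_sub, Valuation.map_neg]
    exact lt_of_le_of_lt (hx i) hslt
  have hwt : ∀ i, Rt A (∏ q ∈ S, ((1 - chq q (e q) (c i)) / (1 - zt))) (∏ q ∈ S, (e q * cq q (c i))) := by
    intro i
    refine Rt.prod _ fun q hq => ?_
    rw [chq_of_not (cnt3_not_dvd hc i hq)]
    exact Rt_diff hA _
  have hxi : ∀ i, A.valuation ((S3.X (qt (DD3 S) (c i)) - X1) / sq3) ≤ 1 := by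
    intro i
    rw [map_div₀]
    exact (div_le_one₀ hs).2 (hx i)
  -- the class of `X g`
  have hXg : ∀ i, Rt A (S3.X (qt (DD3 S) (c i)) * gQ (qt (DD3 S) (c i))) 1 := by
    intro i
    obtain ⟨g1, g2, g3⟩ := gr0_good hc hA hS i
    rw [(gQ_eq g1 g2 g3).2]
    have h2 : Rt A (S3.X (sq3 * qt (DD3 S) (c i))) (-1) := by
      refine Rt.one.neg.congr ?_
      rw [sub_neg_eq_add]
      exact g3.lt hA
    have h3 : S3.X (qt (DD3 S) (c i)) * (1 / (S3.X (qt (DD3 S) (c i)) ^ 2 *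
        S3.X (sq3 * qt (DD3 S) (c i)))) =
        (S3.X (qt (DD3 S) (c i)))⁻¹ * (S3.X (sq3 * qt (DD3 S) (c i)))⁻¹ := by
      have h4 : S3.X (qt (DD3 S) (c i)) ≠ 0 := by
        intro h0
        have := g2.1
        rw [h0, map_zero] at this
        exact zero_ne_one this
      field_simp
    rw [h3]
    have h4 := ((hXi i).inv hA (by decide)).mul (h2.inv hA (by decide))
    have e4 : (-1 : ZMod 3) * -1 = 1 := by decide
    rwa [e4] at h4
  -- the difference of the two sums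
  have hdiff : Rt A (∑ i, (∏ q ∈ S, ((1 - chq q (e q) (c i)) / (1 - zt))) ^ 3 *
        ((S3.X (qt (DD3 S) (c i)) - X1) / sq3) -
      ∑ i, (∏ q ∈ S, ((1 - chq q (e q) (c i)) / (1 - zt))) *
        (S3.X (qt (DD3 S) (c i)) * ((S3.X (qt (DD3 S) (c i)) - X1) / sq3) *
          gQ (qt (DD3 S) (c i)))) 0 := by
    rw [← Finset.sum_sub_distrib]
    have h2 : Rt A (∑ i, ((∏ q ∈ S, ((1 - chq q (e q) (c i)) / (1 - zt))) ^ 3 *
        ((S3.X (qt (DD3 S) (c i)) - X1) / sq3) -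
      (∏ q ∈ S, ((1 - chq q (e q) (c i)) / (1 - zt))) *
        (S3.X (qt (DD3 S) (c i)) * ((S3.X (qt (DD3 S) (c i)) - X1) / sq3) *
          gQ (qt (DD3 S) (c i))))) (∑ _i : ι, 0) := by
      refine Rt.sum _ fun i _ => ?_
      have h3 := ((hwt i).pow 3).sub ((hwt i).mul (hXg i))
      have h4 : ∀ x : ZMod 3, x ^ 3 - x * 1 = 0 := by decide
      rw [h4] at h3
      rw [Rt.zero_iff hA] at h3 ⊢
      have e5 : (∏ q ∈ S, ((1 - chq q (e q) (c i)) / (1 - zt))) ^ 3 *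
          ((S3.X (qt (DD3 S) (c i)) - X1) / sq3) -
        (∏ q ∈ S, ((1 - chq q (e q) (c i)) / (1 - zt))) *
          (S3.X (qt (DD3 S) (c i)) * ((S3.X (qt (DD3 S) (c i)) - X1) / sq3) *
            gQ (qt (DD3 S) (c i))) =
          ((∏ q ∈ S, ((1 - chq q (e q) (c i)) / (1 - zt))) ^ 3 -
          (∏ q ∈ S, ((1 - chq q (e q) (c i)) / (1 - zt))) * (S3.X (qt (DD3 S) (c i)) *
            gQ (qt (DD3 S) (c i)))) * ((S3.X (qt (DD3 S) (c i)) - X1) / sq3) := by ring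
      rw [e5, map_mul]
      exact mul_lt_one_of_lt_of_le h3 (hxi i)
    rwa [Finset.sum_const_zero] at h2
  -- the residue class of the right hand side of `gr0_wt`
  have hne : Nonempty ι := by
    obtain ⟨i, -⟩ := hc.ex 1 isCoprime_one_left (by rw [sub_self]; exact dvd_zero _)
    exact ⟨i⟩
  have hX1' := hX1 hne.some
  have hR : Rt A (2 * zt ^ 2 * ∑ T ∈ S.powerset, (-1) ^ T.card * (((if ∑ q ∈ T, e q * abar q.1 = 2 then X0 ^ 2
        else 0) - (if ∑ q ∈ T, e q * abar q.1 = 1 then X1 * X0 else 0)) *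
        (nu0 e T * ∏ q ∈ S \ T, ((em q.1 - Xk 0 e T q.1) / (1 - zt)))))
      (∑ T ∈ S.powerset, (-1) ^ T.card * ((∑ q ∈ T, e q * abar q.1) *
        CZ (fun i p => d3.s i p * e p) (fun q => abar q.1) T *
        ∏ q ∈ S \ T, ∑ p ∈ T, d3.s q p * e p)) := by
    rw [Finset.mul_sum]
    refine Rt.sum _ fun T hT => ?_
    have hTS := Finset.mem_powerset.1 hT
    obtain ⟨a, ha⟩ : ∃ a, a = ∑ q ∈ T, e q * abar q.1 := ⟨_, rfl⟩
    rw [← ha]
    have h2 : Rt A ((-1) ^ T.card) ((-1) ^ T.card) := (Rt.one.neg).pow _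
    have h2t : Rt A (2 * zt ^ 2) 2 := by
      have h3 := (Rt.int (A := A) 2).mul ((Rt_zt hA).pow 2)
      have e3' : ((2 : ℤ) : ZMod 3) * 1 ^ 2 = 2 := by decide
      rw [e3'] at h3
      push_cast at h3
      exact h3
    rcases T.eq_empty_or_nonempty with h0 | h0
    · subst h0
      rw [Finset.sum_empty] at ha
      have a1 : (0 : ZMod 3) ≠ 1 := by decide
      have a2 : (0 : ZMod 3) ≠ 2 := by decide
      rw [ha, if_neg a1, if_neg a2, sub_zero, zero_mul, zero_mul, zero_mul, mul_zero, mul_zero, mul_zero]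
      exact Rt.zero
    · have h3 : Rt A (nu0 e T * ∏ q ∈ S \ T, ((em q.1 - Xk 0 e T q.1) / (1 - zt)))
          (CZ (fun i p => d3.s i p * e p) (fun q => abar q.1) T *
            ∏ q ∈ S \ T, ∑ p ∈ T, d3.s q p * e p) := by
        refine (nu0_res hA h0 fun q hq => he q (hTS hq)).mul (Rt.prod _ fun q hq => ?_)
        rw [Xk_val 0 e (Finset.mem_sdiff.1 hq).2, kapK_zero, zero_add]
        exact Rt_factor hA q _
      have h4 : Rt A ((if a = 2 then X0 ^ 2 else 0) - (if a = 1 then X1 * X0 else 0))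
          ((if a = 2 then 1 else 0) - (if a = 1 then 1 else 0)) := by
        refine Rt.sub ?_ ?_
        · split_ifs
          · have h5 := hX0.pow 2
            have e5 : (-1 : ZMod 3) ^ 2 = 1 := by decide
            rwa [e5] at h5
          · exact Rt.zero
        · split_ifs
          · have h5 := hX1'.mul hX0
            have e5 : (-1 : ZMod 3) * -1 = 1 := by decide
            rwa [e5] at h5
          · exact Rt.zero
      have h5 := h2t.mul (h2.mul (h4.mul h3))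
      have e6 : (2 : ZMod 3) * ((-1) ^ T.card * (((if a = 2 then 1 else 0) - (if a = 1 then 1 else 0)) *
          (CZ (fun i p => d3.s i p * e p) (fun q => abar q.1) T *
            ∏ q ∈ S \ T, ∑ p ∈ T, d3.s q p * e p))) = (-1) ^ T.card * (a *
          CZ (fun i p => d3.s i p * e p) (fun q => abar q.1) T *
            ∏ q ∈ S \ T, ∑ p ∈ T, d3.s q p * e p) := by
        have e7 : ∀ a : ZMod 3, 2 * ((if a = 2 then (1 : ZMod 3) else 0) - (if a = 1 then 1 else 0)) = a := by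
          decide
        have e8 := e7 a
        linear_combination ((-1) ^ T.card * (CZ (fun i p => d3.s i p * e p) (fun q => abar q.1) T *
            ∏ q ∈ S \ T, ∑ p ∈ T, d3.s q p * e p)) * e8
      rwa [e6] at h5
  rw [← gr0_wt hc e he X1] at hR
  have h2 := hdiff.add hR
  rwa [sub_add_cancel, zero_add] at h2

end

end Pool.Agent.Lib.MP_1a91b9_ntK
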