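import Pool.Agent.Lib.MP_1a91b9_ntK.A.GoodX
import Pool.Agent.Lib.MP_1a91b9_ntK.A.HSum
import Pool.Agent.Lib.MP_1a91b9_ntK.A.Avg

/-!
# Cubic twists, hard class, file HRec: the sums `∑ ∏ (t + τ) ξ` over the classes prime to the modulus

`ξ` is any function on the points of order prime to `3` with values in a ring of characteristic `3` and the rules
of the structure `XiR` (the good coordinate modulo a place above `3`).
-/

set_option autoImplicit false

namespace Pool.Agent.Lib.MP_1a91b9_ntK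

open NumberField IsDedekindDomain Pool.Agent.Lib.MP_1a91b9_ntT Pool.Agent.Lib.MP_1a91b9_ntG
open Pool.Agent.Lib.MP_1a91b9_ntH (wO s3 cp Nz Half_mem_iff Half_em_inj wO_quad s3_sq)
open Pool.Agent.Lib.MP_1a91b9_ntX.R (cs cs_mul cs_congr cs_one G3)

noncomputable section

/-! ### Symbols -/

theorem cq_mul' (q : P3) {a b : 𝓞 K} (ha : ¬ q.1 ∣ a) (hb : ¬ q.1 ∣ b) :
    cq q (a * b) = cq q a + cq q b :=
  cs_mul (g3 q.2.1 q.2.2) (fun h => ha (Ideal.mem_span_singleton.1 h))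
    (fun h => hb (Ideal.mem_span_singleton.1 h))

theorem cq_congr' (q : P3) {a b : 𝓞 K} (ha : ¬ q.1 ∣ a) (hab : q.1 ∣ a - b) : cq q a = cq q b :=
  cs_congr (g3 q.2.1 q.2.2) (fun h => ha (Ideal.mem_span_singleton.1 h))
    (Ideal.mem_span_singleton.2 hab)

theorem ndvd_mul (q : P3) {a b : 𝓞 K} (ha : ¬ q.1 ∣ a) (hb : ¬ q.1 ∣ b) : ¬ q.1 ∣ a * b := fun h =>
  (q.2.1.dvd_or_dvd h).elim ha hb

theorem dvd_congr' {q a b : 𝓞 K} (h : q ∣ a - b) : q ∣ a ↔ q ∣ b :=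
  (dvd_sub_comm.1 h |> fun h1 => by
    constructor
    · intro h2
      have := dvd_add h1 h2
      rwa [sub_add_cancel] at this
    · intro h2
      have := dvd_add h h2
      rwa [sub_add_cancel] at this)

/-- the exponent of the block character -/
def ti (q₀ : P3) (ε : P3 → ZMod 3) (k : P3) (a : 𝓞 K) : ZMod 3 := cq k a + ε k * cq q₀ a

open Classical in
/-- the weight of a class -/
def gH (q₀ : P3) (ε : P3 → ZMod 3) (x : ZMod 3) (J : Finset P3) (τ : P3 → ZMod 3) (a : 𝓞 K) :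
    ZMod 3 :=
  (if q₀.1 ∣ a ∨ cq q₀ a ≠ x then 0 else 1) * ∏ k ∈ J, (if k.1 ∣ a then 0 else ti q₀ ε k a + τ k)

variable {q₀ : P3} {ε : P3 → ZMod 3} {x : ZMod 3} {J : Finset P3} {τ : P3 → ZMod 3}

theorem gH_ne {a : 𝓞 K} (h : gH q₀ ε x J τ a ≠ 0) : cq q₀ a = x ∧ ∀ q ∈ insert q₀ J, ¬ q.1 ∣ a := by
  classical
  rw [gH] at h
  have h1 := left_ne_zero_of_mul h
  have h2 := right_ne_zero_of_mul h
  rw [Finset.prod_ne_zero_iff] at h2
  have h3 : ¬ (q₀.1 ∣ a ∨ cq q₀ a ≠ x) := fun h3 => h1 (if_pos h3)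
  push Not at h3
  refine ⟨h3.2, fun q hq => ?_⟩
  rcases Finset.mem_insert.1 hq with rfl | hq
  · exact h3.1
  · intro h4
    exact h2 q hq (if_pos h4)

theorem gH_pos {a : 𝓞 K} (h : ∀ q ∈ insert q₀ J, ¬ q.1 ∣ a) (hx : cq q₀ a = x) :
    gH q₀ ε x J τ a = ∏ k ∈ J, (ti q₀ ε k a + τ k) := by
  classical
  rw [gH, if_neg, one_mul]
  · exact Finset.prod_congr rfl fun k hk => if_neg (h k (Finset.mem_insert_of_mem hk))
  · push Not
    exact ⟨h q₀ (Finset.mem_insert_self _ _), hx⟩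

theorem gH_zero {a : 𝓞 K} (h : cq q₀ a ≠ x) : gH q₀ ε x J τ a = 0 := by
  classical
  rw [gH, if_pos (Or.inr h), zero_mul]

theorem gH_zero' {a : 𝓞 K} {q : P3} (hq : q ∈ insert q₀ J) (h : q.1 ∣ a) :
    gH q₀ ε x J τ a = 0 := by
  by_contra h1
  exact (gH_ne h1).2 q hq h

theorem gH_pd (q₀ : P3) (ε : P3 → ZMod 3) (x : ZMod 3) (J : Finset P3) (τ : P3 → ZMod 3) :
    Pd (DD3 (insert q₀ J)) (gH q₀ ε x J τ) := by
  classical
  intro a b hab
  have hd : ∀ q ∈ insert q₀ J, q.1 ∣ a - b := fun q hq =>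
    (Finset.dvd_prod_of_mem (fun q : P3 => q.1) hq).trans hab
  by_cases h : ∀ q ∈ insert q₀ J, ¬ q.1 ∣ a
  · have h' : ∀ q ∈ insert q₀ J, ¬ q.1 ∣ b := fun q hq h1 => h q hq ((dvd_congr' (hd q hq)).2 h1)
    have hcq : ∀ q ∈ insert q₀ J, cq q a = cq q b := fun q hq => cq_congr' q (h q hq) (hd q hq)
    have h0 := hcq q₀ (Finset.mem_insert_self _ _)
    by_cases hx : cq q₀ a = x
    · rw [gH_pos h hx, gH_pos h' (h0 ▸ hx)]
      refine Finset.prod_congr rfl fun k hk => ?_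
      rw [ti, ti, hcq k (Finset.mem_insert_of_mem hk), h0]
    · rw [gH_zero hx, gH_zero (by rwa [← h0])]
  · push Not at h
    obtain ⟨q, hq, h1⟩ := h
    rw [gH_zero' hq h1, gH_zero' hq ((dvd_congr' (hd q hq)).1 h1)]

/-- the substitution of a product -/
theorem gH_mul {c : 𝓞 K} (hc : ∀ q ∈ insert q₀ J, ¬ q.1 ∣ c) (a : 𝓞 K) :
    gH q₀ ε x J τ (c * a) = gH q₀ ε (x - cq q₀ c) J (fun k => ti q₀ ε k c + τ k) a := by
  by_cases h : ∀ q ∈ insert q₀ J, ¬ q.1 ∣ a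
  · have h' : ∀ q ∈ insert q₀ J, ¬ q.1 ∣ c * a := fun q hq => ndvd_mul q (hc q hq) (h q hq)
    have h0 := cq_mul' q₀ (hc q₀ (Finset.mem_insert_self _ _)) (h q₀ (Finset.mem_insert_self _ _))
    by_cases hx : cq q₀ (c * a) = x
    · rw [gH_pos h' hx, gH_pos h (by rw [← hx, h0]; ring)]
      refine Finset.prod_congr rfl fun k hk => ?_
      rw [ti, ti, ti, h0, cq_mul' k (hc k (Finset.mem_insert_of_mem hk))
        (h k (Finset.mem_insert_of_mem hk))]
      ring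
    · rw [gH_zero hx, gH_zero]
      intro h1
      apply hx
      rw [h0, h1]
      ring
  · push Not at h
    obtain ⟨q, hq, h1⟩ := h
    rw [gH_zero' hq h1, gH_zero' hq (h1.mul_left c)]

theorem gH_insert {i : P3} (hi : i ∉ J) (a : 𝓞 K) :
    gH q₀ ε x (insert i J) τ a =
      (open Classical in if i.1 ∣ a then 0 else ti q₀ ε i a + τ i) * gH q₀ ε x J τ a := by
  rw [gH, gH, Finset.prod_insert hi]
  ring

theorem gH_congr {τ' : P3 → ZMod 3} (h : ∀ k ∈ J, τ k = τ' k) (a : 𝓞 K) :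
    gH q₀ ε x J τ a = gH q₀ ε x J τ' a := by
  classical
  rw [gH, gH]
  congr 1
  refine Finset.prod_congr rfl fun k hk => ?_
  rw [h k hk]

/-! ### Points -/

theorem em_div_per {M a b : 𝓞 K} (hM : M ≠ 0) (h : M ∣ a - b) :
    ∃ l ∈ PP.lattice, em a / em M = em b / em M + l := by
  obtain ⟨t, ht⟩ := h
  refine ⟨em t, Half_mem_iff.2 ⟨t, rfl⟩, ?_⟩
  have h1 := rt_em_ne hM
  have e : a = b + M * t := by linear_combination ht
  rw [e, rt_em_add, rt_em_mul]
  field_simp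

theorem em_div_notMem {M a : 𝓞 K} (hM : M ≠ 0) (h : ¬ M ∣ a) : em a / em M ∉ PP.lattice := by
  intro h1
  obtain ⟨y, hy⟩ := Half_mem_iff.1 h1
  apply h
  refine ⟨y, Half_em_inj ?_⟩
  change em a = em (M * y)
  rw [rt_em_mul]
  have h2 := rt_em_ne hM
  have hy' : em y = em a / em M := hy
  rw [hy']
  field_simp

theorem od_div {M a : 𝓞 K} (hM : (3 : 𝓞 K) ∣ M - 1) (h : ¬ M ∣ a) : Od (em a / em M) := by
  have h3 := three_dvd_not hM
  have hM0 : M ≠ 0 := by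
    rintro rfl
    exact h3 (dvd_zero _)
  refine ⟨em_div_notMem hM0 h, Nz M, ?_, ?_⟩
  · refine (Nat.Coprime.symm ?_)
    rw [Nat.Prime.coprime_iff_not_dvd Nat.prime_three, ← s3_dvd_iff]
    exact h3
  · obtain ⟨y, hy⟩ := dvd_Nz M
    have h1 := rt_em_ne hM0
    rw [Half_mem_iff]
    refine ⟨y * a, ?_⟩
    have h2 : em M * em y = ((Nz M : ℕ) : ℂ) := by rw [← rt_em_mul, hy, rt_em_nat]
    change em (y * a) = _
    rw [rt_em_mul, ← h2]
    field_simp

/-! ### The rules of the good coordinate -/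

variable {R : Type*} [CommRing R] [Algebra (ZMod 3) R]

/-- the rules of the good coordinate modulo a place above `3` -/
structure XiR (ξ : ℂ → R) : Prop where
  per : ∀ z l, l ∈ PP.lattice → ξ (z + l) = ξ z
  w : ∀ z, Od z → ξ (zt * z) = ξ z - 1
  s3 : ∀ z, Od z → ξ (sq3 * z) = ξ z ^ 3
  dist : ∀ (q : P3) (z : ℂ), Od (em q.1 * z) →
    SM q.1 (fun u => ξ (z + em u / em q.1)) = ξ (em q.1 * z)

/-- the sum over the classes -/
def HX (ξ : ℂ → R) (q₀ : P3) (ε : P3 → ZMod 3) (x : ZMod 3) (J : Finset P3) (τ : P3 → ZMod 3) : R :=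
  SM (DD3 (insert q₀ J)) fun a => gH q₀ ε x J τ a • ξ (em a / em (DD3 (insert q₀ J)))

/-- the sum of the weights -/
def ZX (q₀ : P3) (ε : P3 → ZMod 3) (x : ZMod 3) (J : Finset P3) (τ : P3 → ZMod 3) : ZMod 3 :=
  SM (DD3 (insert q₀ J)) (gH q₀ ε x J τ)

variable {ξ : ℂ → R}

omit [Algebra (ZMod 3) R] in
theorem XiR.pd (hX : XiR ξ) {M : 𝓞 K} (hM : M ≠ 0) : Pd M fun a => ξ (em a / em M) := by
  intro a b h
  obtain ⟨l, hl, e⟩ := em_div_per hM h
  change ξ (em a / em M) = ξ (em b / em M)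
  rw [e, hX.per _ _ hl]

theorem Pd.smul {M : 𝓞 K} {g : 𝓞 K → ZMod 3} {F : 𝓞 K → R} (hg : Pd M g) (hF : Pd M F) :
    Pd M fun a => g a • F a := by
  intro a b h
  change g a • F a = g b • F b
  rw [hg a b h, hF a b h]

theorem not_unit_q (q : P3) : ¬ IsUnit q.1 := q.2.1.not_isUnit

theorem dd_notdvd (q₀ : P3) (J : Finset P3) {a : 𝓞 K} (h : ¬ q₀.1 ∣ a) : ¬ DD3 (insert q₀ J) ∣ a :=
  fun h1 => h ((Finset.dvd_prod_of_mem (fun q : P3 => q.1) (Finset.mem_insert_self _ _)).trans h1)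

/-- **the distribution relation for the sums** -/
theorem SM_dist (hX : XiR ξ) (i : P3) {M : 𝓞 K} (hM : (3 : 𝓞 K) ∣ M - 1) {g : 𝓞 K → ZMod 3}
    (hg : Pd M g) (hg0 : ∀ a, g a ≠ 0 → ¬ M ∣ a) :
    SM (i.1 * M) (fun a => (open Classical in if i.1 ∣ a then (0 : ZMod 3) else g a) •
        ξ (em a / em (i.1 * M))) =
      SM M (fun b => (g b - g (i.1 * b)) • ξ (em b / em M)) := by
  classical
  have hM0 : M ≠ 0 := by
    rintro rfl
    exact three_dvd_not hM (dvd_zero _)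
  have hi0 : i.1 ≠ 0 := i.2.1.ne_zero
  have hiM : i.1 * M ≠ 0 := mul_ne_zero hi0 hM0
  have e1 := rt_em_ne hM0
  have e2 := rt_em_ne hi0
  have hp1 : Pd (i.1 * M) fun a => g a • ξ (em a / em (i.1 * M)) :=
    (hg.of_dvd (dvd_mul_left _ _)).smul (hX.pd hiM)
  have hp2 : Pd (i.1 * M) fun a => (if i.1 ∣ a then g a else (0 : ZMod 3)) •
      ξ (em a / em (i.1 * M)) := by
    refine Pd.smul (fun a b h => ?_) (hX.pd hiM)
    have h1 := dvd_congr' ((dvd_mul_right i.1 M).trans h)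
    change (if i.1 ∣ a then g a else (0 : ZMod 3)) = if i.1 ∣ b then g b else 0
    by_cases h2 : i.1 ∣ a
    · rw [if_pos h2, if_pos (h1.1 h2)]
      exact hg a b ((dvd_mul_left _ _).trans h)
    · rw [if_neg h2, if_neg (fun h3 => h2 (h1.2 h3))]
  have h1 : SM (i.1 * M) (fun a => g a • ξ (em a / em (i.1 * M))) =
      SM M (fun b => g b • ξ (em b / em M)) := by
    rw [SM_fib hM0 hi0 hp1]
    refine SM_congr fun b => ?_
    have h2 : (fun u => g (b + M * u) • ξ (em (b + M * u) / em (i.1 * M))) =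
        fun u => g b • ξ (em b / em (i.1 * M) + em u / em i.1) := by
      funext u
      have h3 : g (b + M * u) = g b := hg _ _ ⟨u, by ring⟩
      have h4 : em (b + M * u) / em (i.1 * M) = em b / em (i.1 * M) + em u / em i.1 := by
        rw [rt_em_add, rt_em_mul, rt_em_mul]
        field_simp
      rw [h3, h4]
    rw [h2, SM_smul hi0]
    by_cases h5 : g b = 0
    · rw [h5, zero_smul, zero_smul]
    · congr 1
      have h6 := hg0 b h5
      have h7 : em i.1 * (em b / em (i.1 * M)) = em b / em M := by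
        rw [rt_em_mul]
        field_simp
      rw [← h7]
      refine hX.dist i _ ?_
      rw [h7]
      exact od_div hM h6
  have h2 : SM (i.1 * M) (fun a => (if i.1 ∣ a then g a else (0 : ZMod 3)) •
      ξ (em a / em (i.1 * M))) = SM M (fun b => g (i.1 * b) • ξ (em b / em M)) := by
    rw [SM_dvd hM0 hi0 hp2 fun a h => by rw [if_neg h, zero_smul]]
    refine SM_congr fun b => ?_
    have h7 : em (i.1 * b) / em (i.1 * M) = em b / em M := by
      rw [rt_em_mul, rt_em_mul]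
      field_simp
    rw [if_pos (dvd_mul_right _ _), h7]
  have h3 : (fun b => (g b - g (i.1 * b)) • ξ (em b / em M)) =
      fun b => g b • ξ (em b / em M) - g (i.1 * b) • ξ (em b / em M) := by
    funext b
    rw [sub_smul]
  rw [h3, SM_sub hM0, ← h1, ← h2, ← SM_sub hiM]
  refine SM_congr fun a => ?_
  by_cases h : i.1 ∣ a
  · rw [if_pos h, if_pos h, zero_smul, sub_self]
  · rw [if_neg h, if_neg h, zero_smul, sub_zero]


/-! ### The rotation -/

theorem cq_wO (q : P3) : cq q wO = -abar q.1 := abar_q q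

theorem wO_ndvd (q : P3) : ¬ q.1 ∣ wO := by
  intro h
  have h1 : wO * wO ^ 2 = 1 := by linear_combination (wO - 1) * wO_quad
  exact q.2.1.not_isUnit (isUnit_of_dvd_one (h.trans ⟨wO ^ 2, h1.symm⟩))

theorem wO_cop (M : 𝓞 K) : IsCoprime wO M :=
  ⟨wO ^ 2, 0, by linear_combination (wO - 1) * wO_quad⟩

theorem em_wO' : em wO = zt := by
  have h := Pool.Agent.Lib.MP_1a91b9_ntH.emb_coords 0 1
  have e : (((0 : ℤ) : 𝓞 K) + ((1 : ℤ) : 𝓞 K) * wO) = wO := by
    push_cast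
    ring
  rw [e] at h
  have h1 : em wO = ((0 : ℤ) : ℂ) + ((1 : ℤ) : ℂ) * zt := h
  rw [h1]
  push_cast
  ring

/-- the blocks are invariant -/
def Inv (q₀ : P3) (ε : P3 → ZMod 3) (J : Finset P3) : Prop :=
  ∀ k ∈ J, abar k.1 + ε k * abar q₀.1 = 0

theorem Inv.ti (h : Inv q₀ ε J) {k : P3} (hk : k ∈ J) : ti q₀ ε k wO = 0 := by
  rw [MP_1a91b9_ntK.ti, cq_wO, cq_wO]
  linear_combination (-1 : ZMod 3) * h k hk

theorem DD_ne (S : Finset P3) : DD3 S ≠ 0 := DD3_ne S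

theorem gH_w (h : Inv q₀ ε J) (a : 𝓞 K) :
    gH q₀ ε x J τ (wO * a) = gH q₀ ε (x + abar q₀.1) J τ a := by
  rw [gH_mul (fun q _ => wO_ndvd q)]
  have e : x - cq q₀ wO = x + abar q₀.1 := by
    rw [cq_wO]
    ring
  rw [e]
  exact gH_congr (fun k hk => by rw [h.ti hk, zero_add]) a

theorem ZX_step (h : Inv q₀ ε J) : ZX q₀ ε x J τ = ZX q₀ ε (x + abar q₀.1) J τ := by
  rw [ZX, ZX, ← SM_mul (DD3_ne _) (gH_pd q₀ ε x J τ) (wO_cop _)]
  exact SM_congr fun a => gH_w h a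

theorem HX_step (hX : XiR ξ) (h : Inv q₀ ε J) :
    HX ξ q₀ ε x J τ = HX ξ q₀ ε (x + abar q₀.1) J τ -
      ZX q₀ ε (x + abar q₀.1) J τ • (1 : R) := by
  have hM := DD3_ne (insert q₀ J)
  rw [HX, HX, ZX, ← SM_smul' hM, ← SM_sub hM,
    ← SM_mul hM ((gH_pd q₀ ε x J τ).smul (hX.pd hM)) (wO_cop _)]
  refine SM_congr fun a => ?_
  rw [gH_w h, rt_em_mul, em_wO', mul_div_assoc]
  by_cases h1 : gH q₀ ε (x + abar q₀.1) J τ a = 0
  · rw [h1, zero_smul, zero_smul, zero_smul, sub_zero]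
  · rw [hX.w, smul_sub]
    refine od_div (DD3_three _) (dd_notdvd q₀ J ?_)
    exact (gH_ne h1).2 _ (Finset.mem_insert_self _ _)

theorem ZX_nat (h : Inv q₀ ε J) (n : ℕ) : ZX q₀ ε x J τ = ZX q₀ ε (x + n * abar q₀.1) J τ := by
  induction n with
  | zero => rw [Nat.cast_zero, zero_mul, add_zero]
  | succ n ih =>
    rw [ih, ZX_step h]
    congr 1
    push_cast
    ring

theorem HX_nat (hX : XiR ξ) (h : Inv q₀ ε J) (n : ℕ) :
    HX ξ q₀ ε x J τ = HX ξ q₀ ε (x + n * abar q₀.1) J τ -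
      ((n : ZMod 3) * ZX q₀ ε x J τ) • (1 : R) := by
  induction n with
  | zero => rw [Nat.cast_zero, zero_mul, add_zero, zero_mul, zero_smul, sub_zero]
  | succ n ih =>
    rw [ih, HX_step hX h]
    have e : x + n * abar q₀.1 + abar q₀.1 = x + ((n + 1 : ℕ) : ZMod 3) * abar q₀.1 := by
      push_cast
      ring
    rw [e, ← ZX_nat h (n + 1)]
    push_cast
    rw [sub_sub, ← add_smul]
    congr 2
    ring

theorem hr_sq {a : ZMod 3} (h : a ≠ 0) : a * a = 1 := by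
  revert a
  decide

theorem HX_rot (hX : XiR ξ) (h : Inv q₀ ε J) (h0 : abar q₀.1 ≠ 0) :
    HX ξ q₀ ε x J τ = HX ξ q₀ ε 0 J τ + (x * abar q₀.1 * ZX q₀ ε 0 J τ) • (1 : R) := by
  have h1 := HX_nat (x := x) (τ := τ) hX h (-(x * abar q₀.1)).val
  have h2 := ZX_nat (x := x) (τ := τ) h (-(x * abar q₀.1)).val
  rw [ZMod.natCast_zmod_val] at h1 h2
  have e : x + -(x * abar q₀.1) * abar q₀.1 = 0 := by
    linear_combination (-x) * hr_sq h0
  rw [e] at h1 h2
  rw [h1, h2, sub_eq_add_neg, ← neg_smul]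
  congr 2
  ring

/-! ### The sum of the weights -/

theorem HR_cop {p q : P3} (h : p ≠ q) : IsCoprime p.1 q.1 :=
  p.2.1.irreducible.coprime_iff_not_dvd.2
    (not_dvd3 p.2.1 q.2.1 p.2.2 q.2.2 fun h1 => h (Subtype.ext h1))

/-- an element with symbol `1` at one prime and congruent to `1` modulo the other primes -/
theorem HR_u (S : Finset P3) (r : P3) : ∃ u : 𝓞 K,
    (∀ q ∈ S, q ≠ r → q.1 ∣ u - 1) ∧ ¬ r.1 ∣ u ∧ cq r u = 1 := by
  have hG : G3 (Ideal.span {r.1}) := g3 r.2.1 r.2.2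
  obtain ⟨y, hy, hy1⟩ := exists_cs hG 1
  have hc : IsCoprime r.1 (∏ q ∈ S.erase r, q.1) := IsCoprime.prod_right fun q hq =>
    HR_cop (Finset.ne_of_mem_erase hq).symm
  obtain ⟨a, b, hab⟩ := hc
  have h1 : 1 + b * (∏ q ∈ S.erase r, q.1) * (y - 1) - y = r.1 * (-(a * (y - 1))) := by
    linear_combination (y - 1) * hab
  have hu : ¬ r.1 ∣ 1 + b * (∏ q ∈ S.erase r, q.1) * (y - 1) := by
    intro h
    apply hy
    rw [Ideal.mem_span_singleton]
    have h2 := dvd_sub h (Dvd.intro _ h1.symm)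
    rwa [sub_sub_cancel] at h2
  refine ⟨1 + b * (∏ q ∈ S.erase r, q.1) * (y - 1), ?_, hu, ?_⟩
  · intro q hq hne
    obtain ⟨t, ht⟩ := Finset.dvd_prod_of_mem (fun q : P3 => q.1) (Finset.mem_erase.2 ⟨hne, hq⟩)
    exact ⟨b * t * (y - 1), by
      rw [ht]
      ring⟩
  · rw [← hy1]
    exact cq_congr' r hu (by rw [h1]; exact dvd_mul_right _ _)

/-- the same, with the symbols -/
theorem HR_v {S : Finset P3} (r : P3) : ∃ u : 𝓞 K, (∀ q ∈ S, ¬ q.1 ∣ u) ∧
    cq r u = 1 ∧ (∀ q ∈ S, q ≠ r → cq q u = 0) ∧ IsCoprime u (DD3 S) := by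
  obtain ⟨u, h1, h2, h3⟩ := HR_u S r
  have h4 : ∀ q ∈ S, ¬ q.1 ∣ u := by
    intro q hq h
    by_cases hqr : q = r
    · rw [hqr] at h
      exact h2 h
    · have h5 := dvd_sub h (h1 q hq hqr)
      rw [sub_sub_cancel] at h5
      exact q.2.1.not_isUnit (isUnit_of_dvd_one h5)
  refine ⟨u, h4, h3, fun q hq hne => ?_, ?_⟩
  · rw [cq_congr' q (h4 q hq) (h1 q hq hne)]
    exact cs_one (g3 q.2.1 q.2.2)
  · exact IsCoprime.prod_right fun q hq =>
      (q.2.1.irreducible.coprime_iff_not_dvd.2 (h4 q hq)).symm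

/-- the part of a function where a symbol has a given value -/
theorem SM_part {S : Finset P3} {r : P3} (_hr : r ∈ S) {R' : Type*} [AddCommMonoid R']
    {f : ZMod 3 → 𝓞 K → R'} (hf : ∀ y, Pd (DD3 S) (f y))
    (hs : ∀ y u a, (∀ q ∈ S, ¬ q.1 ∣ u) → cq r u = 1 → (∀ q ∈ S, q ≠ r → cq q u = 0) →
      f y (u * a) = f (y - 1) a) (y : ZMod 3) : SM (DD3 S) (f y) = SM (DD3 S) (f 0) := by
  obtain ⟨u, h1, h2, h3, h4⟩ := HR_v (S := S) r
  have step : ∀ y, SM (DD3 S) (f y) = SM (DD3 S) (f (y - 1)) := by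
    intro y
    rw [← SM_mul (DD3_ne S) (hf y) h4]
    exact SM_congr fun a => hs y u a h1 h2 h3
  have hy : y = 0 ∨ y = 1 ∨ y = 2 := by
    revert y
    decide
  have e1 : (1 : ZMod 3) - 1 = 0 := by decide
  have e2 : (2 : ZMod 3) - 1 = 1 := by decide
  rcases hy with rfl | rfl | rfl
  · rfl
  · rw [step 1, e1]
  · rw [step 2, e2, step 1, e1]

theorem ZX_ne (hq : q₀ ∉ J) (hJ : J.Nonempty) : ZX q₀ ε x J τ = 0 := by
  classical
  obtain ⟨k, hk⟩ := hJ
  have hkq : q₀ ≠ k := fun h => hq (h ▸ hk)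
  let f : ZMod 3 → 𝓞 K → ZMod 3 := fun y a =>
    if k.1 ∣ a then 0 else if ti q₀ ε k a = y then gH q₀ ε x (J.erase k) τ a else 0
  have hkS : k ∈ insert q₀ J := Finset.mem_insert_of_mem hk
  have hsub : insert q₀ (J.erase k) ⊆ insert q₀ J := Finset.insert_subset_insert _ (Finset.erase_subset _ _)
  have hdd : DD3 (insert q₀ (J.erase k)) ∣ DD3 (insert q₀ J) := Finset.prod_dvd_prod_of_subset _ _ _ hsub
  have hf0 : ∀ y a, f y a ≠ 0 → ∀ q ∈ insert q₀ J, ¬ q.1 ∣ a := by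
    intro y a h q hq'
    by_cases h1 : k.1 ∣ a
    · exact absurd (if_pos h1) h
    · have h2 : (if ti q₀ ε k a = y then gH q₀ ε x (J.erase k) τ a else 0) ≠ 0 := by
        intro h3
        exact h ((if_neg h1).trans h3)
      by_cases h3 : ti q₀ ε k a = y
      · rw [if_pos h3] at h2
        rcases eq_or_ne q k with rfl | hqk
        · exact h1
        · refine (gH_ne h2).2 q ?_
          rcases Finset.mem_insert.1 hq' with h4 | h4
          · rw [h4]
            exact Finset.mem_insert_self _ _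
          · exact Finset.mem_insert_of_mem (Finset.mem_erase.2 ⟨hqk, h4⟩)
      · exact absurd (if_neg h3) h2
  have hf1 : ∀ y a, ¬ k.1 ∣ a → f y a = if ti q₀ ε k a = y then gH q₀ ε x (J.erase k) τ a else 0 :=
    fun y a h => if_neg h
  have hf : ∀ y, Pd (DD3 (insert q₀ J)) (f y) := by
    intro y a b h
    have hd : ∀ q ∈ insert q₀ J, q.1 ∣ a - b := fun q hq =>
      (Finset.dvd_prod_of_mem (fun q : P3 => q.1) hq).trans h
    by_cases h1 : ∀ q ∈ insert q₀ J, ¬ q.1 ∣ a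
    · have h2 : ∀ q ∈ insert q₀ J, ¬ q.1 ∣ b := fun q hq h1' => h1 q hq ((dvd_congr' (hd q hq)).2 h1')
      have h3 : ti q₀ ε k a = ti q₀ ε k b := by
        rw [ti, ti, cq_congr' k (h1 k hkS) (hd k hkS),
          cq_congr' q₀ (h1 q₀ (Finset.mem_insert_self _ _)) (hd q₀ (Finset.mem_insert_self _ _))]
      rw [hf1 y a (h1 k hkS), hf1 y b (h2 k hkS), h3, gH_pd q₀ ε x (J.erase k) τ a b (hdd.trans h)]
    · push Not at h1
      obtain ⟨q, hq1, h2⟩ := h1
      have h3 : f y a = 0 := by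
        by_contra h3
        exact hf0 y a h3 q hq1 h2
      have h4 : f y b = 0 := by
        by_contra h4
        exact hf0 y b h4 q hq1 ((dvd_congr' (hd q hq1)).1 h2)
      rw [h3, h4]
  have hs : ∀ y u a, (∀ q ∈ insert q₀ J, ¬ q.1 ∣ u) → cq k u = 1 →
      (∀ q ∈ insert q₀ J, q ≠ k → cq q u = 0) → f y (u * a) = f (y - 1) a := by
    intro y u a h1 h2 h3
    by_cases h4 : k.1 ∣ a
    · have h5 : f y (u * a) = 0 := if_pos (h4.mul_left u)
      have h6 : f (y - 1) a = 0 := if_pos h4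
      rw [h5, h6]
    · rw [hf1 _ _ (ndvd_mul k (h1 k hkS) h4), hf1 _ _ h4, gH_mul (fun q hq => h1 q (hsub hq)),
        h3 q₀ (Finset.mem_insert_self _ _) hkq, sub_zero]
      have h7 : gH q₀ ε x (J.erase k) (fun k => ti q₀ ε k u + τ k) a = gH q₀ ε x (J.erase k) τ a := by
        refine gH_congr (fun p hp => ?_) a
        rw [ti, h3 p (Finset.mem_insert_of_mem (Finset.mem_of_mem_erase hp)) (Finset.ne_of_mem_erase hp),
          h3 q₀ (Finset.mem_insert_self _ _) hkq]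
        ring
      rw [h7]
      by_cases h8 : q₀.1 ∣ a
      · have h9 : gH q₀ ε x (J.erase k) τ a = 0 := gH_zero' (Finset.mem_insert_self _ _) h8
        rw [h9, ite_self, ite_self]
      · have h9 : ti q₀ ε k (u * a) = ti q₀ ε k a + 1 := by
          rw [ti, ti, cq_mul' k (h1 k hkS) h4, cq_mul' q₀ (h1 q₀ (Finset.mem_insert_self _ _)) h8,
            h2, h3 q₀ (Finset.mem_insert_self _ _) hkq]
          ring
        rw [h9]
        have h10 : (ti q₀ ε k a + 1 = y) ↔ ti q₀ ε k a = y - 1 := eq_sub_iff_add_eq.symm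
        by_cases h11 : ti q₀ ε k a = y - 1
        · rw [if_pos h11, if_pos (h10.2 h11)]
        · rw [if_neg h11, if_neg fun h => h11 (h10.1 h)]
  have hsum : gH q₀ ε x J τ = fun a => ((0 + τ k) • f 0 a + (1 + τ k) • f 1 a) + (2 + τ k) • f 2 a := by
    funext a
    have hJk : insert k (J.erase k) = J := Finset.insert_erase hk
    have e1 : gH q₀ ε x J τ a = (if k.1 ∣ a then 0 else ti q₀ ε k a + τ k) *
        gH q₀ ε x (J.erase k) τ a := by
      conv_lhs => rw [← hJk]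
      exact gH_insert (Finset.notMem_erase k J) a
    rw [e1]
    by_cases h4 : k.1 ∣ a
    · have h5 : ∀ y, f y a = 0 := fun y => if_pos h4
      rw [if_pos h4, h5, h5, h5]
      simp
    · rw [if_neg h4, hf1 _ _ h4, hf1 _ _ h4, hf1 _ _ h4]
      have h5 : ti q₀ ε k a = 0 ∨ ti q₀ ε k a = 1 ∨ ti q₀ ε k a = 2 := by
        generalize ti q₀ ε k a = z
        revert z
        decide
      have n01 : (0 : ZMod 3) ≠ 1 := by decide
      have n02 : (0 : ZMod 3) ≠ 2 := by decide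
      have n12 : (1 : ZMod 3) ≠ 2 := by decide
      rcases h5 with h5 | h5 | h5 <;> rw [h5]
      · rw [if_pos rfl, if_neg n01, if_neg n02]
        simp
      · rw [if_neg n01.symm, if_pos rfl, if_neg n12]
        simp
      · rw [if_neg n02.symm, if_neg n12.symm, if_pos rfl]
        simp
  have hM := DD3_ne (insert q₀ J)
  rw [ZX, hsum, SM_add hM, SM_add hM, SM_smul hM, SM_smul hM, SM_smul hM,
    SM_part hkS hf hs 1, SM_part hkS hf hs 2]
  have h3 : (3 : ZMod 3) = 0 := by decide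
  simp only [smul_eq_mul]
  linear_combination (SM (DD3 (insert q₀ J)) (f 0) * (1 + τ k)) * h3


/-- the number of the classes -/
theorem SM_one {M : 𝓞 K} (hM : M ≠ 0) : SM M (fun _ => (1 : ℤ)) = Nz M := by
  have hfin := SM_finite hM
  let _ : Fintype (𝓞 K ⧸ Ideal.span {M}) := Fintype.ofFinite _
  rw [SM, finsum_eq_sum_of_fintype, Finset.sum_const, Finset.card_univ, ← absNorm_eq_Nz,
    Ideal.absNorm_apply, Submodule.cardQuot_apply, Nat.card_eq_fintype_card]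
  simp

theorem SM_cast {M : 𝓞 K} (hM : M ≠ 0) (F : 𝓞 K → ℤ) :
    SM M (fun a => ((F a : ℤ) : ZMod 3)) = ((SM M F : ℤ) : ZMod 3) := by
  have hfin := SM_finite hM
  let _ : Fintype (𝓞 K ⧸ Ideal.span {M}) := Fintype.ofFinite _
  rw [SM, SM, finsum_eq_sum_of_fintype, finsum_eq_sum_of_fintype, Int.cast_sum]

/-- the number of the classes prime to `q` -/
theorem SM_unit (q : P3) : SM q.1 (fun a => (open Classical in if q.1 ∣ a then (0 : ℤ) else 1)) =
    Nz q.1 - 1 := by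
  classical
  have hq := q.2.1.ne_zero
  have h1 : SM q.1 (fun a => if q.1 ∣ a then (1 : ℤ) else 0) = 1 := by
    have hp : Pd q.1 fun a => if q.1 ∣ a then (1 : ℤ) else 0 := by
      intro a b h
      change (if q.1 ∣ a then (1 : ℤ) else 0) = if q.1 ∣ b then 1 else 0
      have h1 := dvd_congr' h
      by_cases h2 : q.1 ∣ a
      · rw [if_pos h2, if_pos (h1.1 h2)]
      · rw [if_neg h2, if_neg fun h3 => h2 (h1.2 h3)]
    rw [SM_sup (ι := Unit) (a := fun _ => 0) hq hp]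
    · simp
    · intro a ha
      refine ⟨(), ?_⟩
      by_contra h
      rw [sub_zero] at h
      exact ha (if_neg h)
    · intro _ _ _
      rfl
  have e : (Nz q.1 : ℤ) - 1 = SM q.1 (fun _ => (1 : ℤ)) -
      SM q.1 (fun a => if q.1 ∣ a then (1 : ℤ) else 0) := by rw [SM_one hq, h1]
  rw [e, ← SM_sub hq]
  refine SM_congr fun a => ?_
  by_cases h2 : q.1 ∣ a
  · rw [if_pos h2, if_pos h2, sub_self]
  · rw [if_neg h2, if_neg h2, sub_zero]

theorem Nz_abar (q : P3) : ∃ n : ℤ, (Nz q.1 : ℤ) - 1 = 3 * n ∧ (n : ZMod 3) = -abar q.1 := by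
  obtain ⟨y, hy⟩ := q.2.2
  obtain ⟨⟨m, n⟩, rfl⟩ := Pool.Agent.Lib.MP_1a91b9_ntH.exists_coords y
  have e : q.1 = ((1 + 3 * m : ℤ) : 𝓞 K) + ((3 * n : ℤ) : 𝓞 K) * wO := by
    push_cast
    linear_combination hy
  refine ⟨2 * m + 3 * m ^ 2 - n - 3 * m * n + 3 * n ^ 2, ?_, ?_⟩
  · rw [e, Pool.Agent.Lib.MP_1a91b9_ntH.Nz_coords]
    ring
  · have e' : q.1 = 1 + 3 * ((m : 𝓞 K) + n * wO) := by linear_combination hy
    rw [← cq_wO, cq, cs_w q.2.1 m n e']
    have h3 : (3 : ZMod 3) = 0 := by decide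
    push_cast
    linear_combination (m + m ^ 2 - m * n + n ^ 2 : ZMod 3) * h3

theorem ZX_empty : ZX q₀ ε x ∅ τ = -abar q₀.1 := by
  classical
  have hq := q₀.2.1.ne_zero
  have hS : DD3 (insert q₀ ∅) = q₀.1 := by
    rw [DD3, Finset.prod_insert (Finset.notMem_empty _), Finset.prod_empty, mul_one]
  have hM := DD3_ne (insert q₀ ∅)
  let f : ZMod 3 → 𝓞 K → ℤ := fun y a => if q₀.1 ∣ a then 0 else if cq q₀ a = y then 1 else 0
  have hf : ∀ y, Pd (DD3 (insert q₀ ∅)) (f y) := by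
    intro y a b h
    rw [hS] at h
    have h1 := dvd_congr' h
    by_cases h2 : q₀.1 ∣ a
    · have h3 : f y a = 0 := if_pos h2
      have h4 : f y b = 0 := if_pos (h1.1 h2)
      rw [h3, h4]
    · have h3 : f y a = if cq q₀ a = y then 1 else 0 := if_neg h2
      have h4 : f y b = if cq q₀ b = y then 1 else 0 := if_neg fun h5 => h2 (h1.2 h5)
      rw [h3, h4, cq_congr' q₀ h2 h]
  have hs : ∀ y u a, (∀ q ∈ insert q₀ (∅ : Finset P3), ¬ q.1 ∣ u) → cq q₀ u = 1 →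
      (∀ q ∈ insert q₀ (∅ : Finset P3), q ≠ q₀ → cq q u = 0) → f y (u * a) = f (y - 1) a := by
    intro y u a h1 h2 _
    have h1' := h1 q₀ (Finset.mem_insert_self _ _)
    by_cases h4 : q₀.1 ∣ a
    · have h5 : f y (u * a) = 0 := if_pos (h4.mul_left u)
      have h6 : f (y - 1) a = 0 := if_pos h4
      rw [h5, h6]
    · have h5 : f y (u * a) = if cq q₀ (u * a) = y then 1 else 0 := if_neg (ndvd_mul q₀ h1' h4)
      have h6 : f (y - 1) a = if cq q₀ a = y - 1 then 1 else 0 := if_neg h4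
      rw [h5, h6, cq_mul' q₀ h1' h4, h2]
      have h10 : (1 + cq q₀ a = y) ↔ cq q₀ a = y - 1 := by
        rw [add_comm]
        exact eq_sub_iff_add_eq.symm
      by_cases h11 : cq q₀ a = y - 1
      · rw [if_pos h11, if_pos (h10.2 h11)]
      · rw [if_neg h11, if_neg fun h => h11 (h10.1 h)]
  have hpart : ∀ y, SM (DD3 (insert q₀ ∅)) (f y) = SM (DD3 (insert q₀ ∅)) (f 0) :=
    SM_part (Finset.mem_insert_self _ _) hf hs
  have htot : SM (DD3 (insert q₀ ∅)) (f 0) + SM (DD3 (insert q₀ ∅)) (f 1) +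
      SM (DD3 (insert q₀ ∅)) (f 2) = Nz q₀.1 - 1 := by
    rw [← SM_add hM, ← SM_add hM, ← SM_unit, hS]
    refine SM_congr fun a => ?_
    by_cases h2 : q₀.1 ∣ a
    · have h3 : ∀ y, f y a = 0 := fun y => if_pos h2
      rw [h3, h3, h3, if_pos h2]
      rfl
    · have h3 : ∀ y, f y a = if cq q₀ a = y then 1 else 0 := fun y => if_neg h2
      rw [h3, h3, h3, if_neg h2]
      generalize cq q₀ a = z
      revert z
      decide
  have e1 : ZX q₀ ε x ∅ τ = ((SM (DD3 (insert q₀ ∅)) (f x) : ℤ) : ZMod 3) := by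
    rw [ZX, ← SM_cast hM]
    refine SM_congr fun a => ?_
    rw [gH, Finset.prod_empty, mul_one]
    by_cases h2 : q₀.1 ∣ a
    · have h3 : f x a = 0 := if_pos h2
      rw [h3, if_pos (Or.inl h2), Int.cast_zero]
    · have h3 : f x a = if cq q₀ a = x then 1 else 0 := if_neg h2
      rw [h3]
      by_cases h4 : cq q₀ a = x
      · rw [if_pos h4, if_neg, Int.cast_one]
        push Not
        exact ⟨h2, h4⟩
      · rw [if_neg h4, if_pos (Or.inr h4), Int.cast_zero]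
  obtain ⟨n, h1, h2⟩ := Nz_abar q₀
  rw [hpart 1, hpart 2, h1] at htot
  have h3 : SM (DD3 (insert q₀ ∅)) (f 0) = n := by omega
  rw [e1, hpart x, h3, h2]

/-! ### The recursion -/

theorem HX_congr {τ' : P3 → ZMod 3} (h : ∀ k ∈ J, τ k = τ' k) :
    HX ξ q₀ ε x J τ = HX ξ q₀ ε x J τ' := SM_congr fun a => by rw [gH_congr h a]

/-- the change of one coordinate -/
theorem HX_diff {i : P3} (hX : XiR ξ) (hI : Inv q₀ ε (insert i J)) (h0 : abar q₀.1 ≠ 0) (hq : q₀ ∉ insert i J)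
    (hi : i ∉ J) {τ' : P3 → ZMod 3} (hτ : ∀ k ∈ J, τ' k = τ k) :
    HX ξ q₀ ε 0 (insert i J) τ' - HX ξ q₀ ε 0 (insert i J) τ =
      (τ' i - τ i) • (HX ξ q₀ ε 0 J τ - HX ξ q₀ ε 0 J (fun k => τ k + ti q₀ ε k i.1) -
        (open Classical in if J = ∅ then cq q₀ i.1 else 0) • (1 : R)) := by
  classical
  have hqi : q₀ ≠ i := fun h => hq (h ▸ Finset.mem_insert_self _ _)
  have hqJ : q₀ ∉ J := fun h => hq (Finset.mem_insert_of_mem h)
  have hIJ : Inv q₀ ε J := fun k hk => hI k (Finset.mem_insert_of_mem hk)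
  have hiS : i ∉ insert q₀ J := by
    intro h
    rcases Finset.mem_insert.1 h with h1 | h1
    · exact hqi h1.symm
    · exact hi h1
  have hDD : DD3 (insert q₀ (insert i J)) = i.1 * DD3 (insert q₀ J) := by
    rw [Finset.insert_comm, DD3, Finset.prod_insert hiS]
    rfl
  have hM := DD3_ne (insert q₀ (insert i J))
  have hM' := DD3_ne (insert q₀ J)
  have hnd : ∀ q ∈ insert q₀ J, ¬ q.1 ∣ i.1 := by
    intro q hq h
    exact not_dvd3 q.2.1 i.2.1 q.2.2 i.2.2 (fun h1 => hiS (by rwa [← Subtype.ext h1])) h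
  have e1 : HX ξ q₀ ε 0 (insert i J) τ' - HX ξ q₀ ε 0 (insert i J) τ =
      (τ' i - τ i) • SM (i.1 * DD3 (insert q₀ J)) (fun a => (if i.1 ∣ a then (0 : ZMod 3) else
        gH q₀ ε 0 J τ a) • ξ (em a / em (i.1 * DD3 (insert q₀ J)))) := by
    rw [HX, HX, ← SM_sub hM, ← SM_smul (mul_ne_zero i.2.1.ne_zero hM'), hDD]
    refine SM_congr fun a => ?_
    rw [gH_insert hi, gH_insert hi, gH_congr hτ a, ← sub_smul, smul_smul]
    congr 1
    by_cases h : i.1 ∣ a
    · rw [if_pos h, if_pos h, if_pos h]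
      ring
    · rw [if_neg h, if_neg h, if_neg h]
      ring
  rw [e1]
  congr 1
  rw [SM_dist hX i (DD3_three _) (gH_pd q₀ ε 0 J τ) fun a ha =>
    dd_notdvd q₀ J ((gH_ne ha).2 _ (Finset.mem_insert_self _ _))]
  have e2 : (fun b => (gH q₀ ε 0 J τ b - gH q₀ ε 0 J τ (i.1 * b)) • ξ (em b / em (DD3 (insert q₀ J)))) =
      fun b => gH q₀ ε 0 J τ b • ξ (em b / em (DD3 (insert q₀ J))) -
        gH q₀ ε (-cq q₀ i.1) J (fun k => τ k + ti q₀ ε k i.1) b • ξ (em b / em (DD3 (insert q₀ J))) := by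
    funext b
    rw [gH_mul hnd, zero_sub, sub_smul]
    congr 2
    exact gH_congr (fun k _ => add_comm _ _) b
  rw [e2, SM_sub hM']
  have e3 : SM (DD3 (insert q₀ J)) (fun b => gH q₀ ε 0 J τ b • ξ (em b / em (DD3 (insert q₀ J)))) =
      HX ξ q₀ ε 0 J τ := rfl
  have e4 : SM (DD3 (insert q₀ J)) (fun b => gH q₀ ε (-cq q₀ i.1) J (fun k => τ k + ti q₀ ε k i.1) b •
      ξ (em b / em (DD3 (insert q₀ J)))) =
      HX ξ q₀ ε (-cq q₀ i.1) J (fun k => τ k + ti q₀ ε k i.1) := rfl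
  rw [e3, e4, HX_rot (x := -cq q₀ i.1) hX hIJ h0, sub_sub]
  congr 2
  by_cases hJ : J = ∅
  · subst hJ
    rw [if_pos rfl, ZX_empty]
    congr 1
    linear_combination (cq q₀ i.1) * hr_sq h0
  · rw [if_neg hJ, ZX_ne hqJ (Finset.nonempty_iff_ne_empty.2 hJ), mul_zero]

end

end Pool.Agent.Lib.MP_1a91b9_ntK
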