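import Pool.Agent.Lib.MP_1a91b9_ntK.A.HRec

/-!
# Cubic twists, hard class, file HRec2: the sum `Gam` as a sum over Hamiltonian paths
-/

set_option autoImplicit false

namespace Pool.Agent.Lib.MP_1a91b9_ntK

open NumberField IsDedekindDomain Pool.Agent.Lib.MP_1a91b9_ntT Pool.Agent.Lib.MP_1a91b9_ntG
open Pool.Agent.Lib.MP_1a91b9_ntH (wO s3 cp Nz Half_mem_iff Half_em_inj wO_quad s3_sq s3_ne three_eq)
open Pool.Agent.Lib.MP_1a91b9_ntX.R (cs cs_mul cs_congr cs_one G3)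

noncomputable section

/-- the sum over the Hamiltonian paths, by its recursion -/
structure IsHam {ι : Type*} [DecidableEq ι] {A : Type*} [CommRing A] (m : ι → ι → A) (f : ι → A)
    (Hm : Finset ι → ι → A) : Prop where
  one : ∀ i, Hm {i} i = f i
  step : ∀ J i, i ∈ J → J ≠ {i} → Hm J i = ∑ j ∈ J.erase i, m i j * Hm (J.erase i) j

variable {R : Type*} [CommRing R] [Algebra (ZMod 3) R] {ξ : ℂ → R}
  {q₀ : P3} {ε : P3 → ZMod 3} {Hm : Finset P3 → P3 → ZMod 3}

/-- one coordinate -/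
private theorem HX_aff_one (hX : XiR ξ) (h0 : abar q₀.1 ≠ 0)
    (hH : IsHam (fun i j : P3 => ti q₀ ε j i.1) (fun i => cq q₀ i.1) Hm) {J : Finset P3}
    (ih : ∀ J' ⊂ J, J'.Nonempty → Inv q₀ ε J' → q₀ ∉ J' → ∀ τ τ' : P3 → ZMod 3,
      HX ξ q₀ ε 0 J' τ' - HX ξ q₀ ε 0 J' τ =
        (∑ i ∈ J', (-1) ^ J'.card * Hm J' i * (τ' i - τ i)) • (1 : R))
    (hI : Inv q₀ ε J) (hq : q₀ ∉ J) {i : P3} (hi : i ∈ J) {τ τ' : P3 → ZMod 3}
    (hτ : ∀ k ∈ J, k ≠ i → τ' k = τ k) :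
    HX ξ q₀ ε 0 J τ' - HX ξ q₀ ε 0 J τ = ((-1) ^ J.card * Hm J i * (τ' i - τ i)) • (1 : R) := by
  classical
  have hJ : insert i (J.erase i) = J := Finset.insert_erase hi
  have hiJ := Finset.notMem_erase i J
  have h1 := HX_diff (ξ := ξ) (J := J.erase i) (τ := τ) (τ' := τ') hX (by rwa [hJ]) h0
    (by rwa [hJ]) hiJ (fun k hk => hτ k (Finset.mem_of_mem_erase hk) (Finset.ne_of_mem_erase hk))
  rw [hJ] at h1
  rw [h1]
  by_cases he : J.erase i = ∅
  · have hJi : J = {i} := by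
      rw [← hJ, he]
      rfl
    have h2 : HX ξ q₀ ε 0 (J.erase i) τ = HX ξ q₀ ε 0 (J.erase i) (fun k => τ k + ti q₀ ε k i.1) := by
      refine HX_congr fun k hk => ?_
      rw [he] at hk
      exact absurd hk (Finset.notMem_empty k)
    rw [← h2, sub_self, if_pos he, zero_sub, hJi, Finset.card_singleton, hH.one, ← neg_smul,
      smul_smul]
    congr 1
    ring
  · have hne : (J.erase i).Nonempty := Finset.nonempty_iff_ne_empty.2 he
    have h2 := ih _ (Finset.erase_ssubset hi) hne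
      (fun k hk => hI k (Finset.mem_of_mem_erase hk)) (fun h => hq (Finset.mem_of_mem_erase h))
      (fun k => τ k + ti q₀ ε k i.1) τ
    have hJ1 : J ≠ {i} := by
      intro h
      apply he
      rw [h]
      simp
    have hcard : J.card = (J.erase i).card + 1 := (Finset.card_erase_add_one hi).symm
    rw [h2, if_neg he, zero_smul, sub_zero, smul_smul, hH.step J i hi hJ1, hcard, Finset.mul_sum,
      Finset.mul_sum, Finset.sum_mul]
    congr 1
    refine Finset.sum_congr rfl fun j _ => ?_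
    ring

/-- **(7)** the sum is affine -/
theorem HX_aff (hX : XiR ξ) (h0 : abar q₀.1 ≠ 0)
    (hH : IsHam (fun i j : P3 => ti q₀ ε j i.1) (fun i => cq q₀ i.1) Hm) (J : Finset P3) :
    J.Nonempty → Inv q₀ ε J → q₀ ∉ J → ∀ τ τ' : P3 → ZMod 3,
      HX ξ q₀ ε 0 J τ' - HX ξ q₀ ε 0 J τ =
        (∑ i ∈ J, (-1) ^ J.card * Hm J i * (τ' i - τ i)) • (1 : R) := by
  classical
  induction J using Finset.strongInduction with
  | H J ih =>
    intro _ hI hq τ τ'
    have key : ∀ U ⊆ J, HX ξ q₀ ε 0 J (fun k => if k ∈ U then τ' k else τ k) - HX ξ q₀ ε 0 J τ =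
        (∑ i ∈ U, (-1) ^ J.card * Hm J i * (τ' i - τ i)) • (1 : R) := by
      intro U
      induction U using Finset.induction_on with
      | empty =>
        intro _
        simp
      | insert i U hi ihU =>
        intro hU
        have hiJ := hU (Finset.mem_insert_self i U)
        have h1 := ihU fun k hk => hU (Finset.mem_insert_of_mem hk)
        have h2 := HX_aff_one (J := J) (τ := fun k => if k ∈ U then τ' k else τ k)
          (τ' := fun k => if k ∈ insert i U then τ' k else τ k) hX h0 hH ih hI hq hiJ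
          (fun k _ hk => by simp [Finset.mem_insert, hk])
        rw [Finset.sum_insert hi, add_smul, ← h1]
        have h3 : (if i ∈ insert i U then τ' i else τ i) - (if i ∈ U then τ' i else τ i) =
            τ' i - τ i := by
          rw [if_pos (Finset.mem_insert_self i U), if_neg hi]
        rw [h3] at h2
        rw [← h2]
        abel
    have h4 := key J (Finset.Subset.refl J)
    rw [← h4]
    congr 1
    exact HX_congr fun k hk => (if_pos hk).symm

theorem hr_neg_one (q : P3) : cq q (-1) = 0 := by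
  have h1 : ¬ q.1 ∣ (-1 : 𝓞 K) := fun h => q.2.1.not_isUnit (isUnit_of_dvd_unit h isUnit_one.neg)
  have h2 := cq_mul' q h1 h1
  rw [neg_mul_neg, one_mul] at h2
  have h3 : cq q 1 = 0 := cs_one (g3 q.2.1 q.2.2)
  rw [h3] at h2
  have : ∀ z : ZMod 3, 0 = z + z → z = 0 := by decide
  exact this _ h2

theorem s3_ndvd (q : P3) : ¬ q.1 ∣ s3 := by
  intro h
  obtain ⟨t, ht⟩ := h
  have h2 : q.1 ∣ (3 : 𝓞 K) := ⟨-(t * s3), by linear_combination three_eq - s3 * ht⟩
  have h3 := dvd_sub (dvd_refl q.1) (h2.trans q.2.2)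
  rw [sub_sub_cancel] at h3
  exact q.2.1.not_isUnit (isUnit_of_dvd_one h3)

theorem three_ndvd (q : P3) : ¬ q.1 ∣ (3 : 𝓞 K) := by
  intro h2
  have h3 := dvd_sub (dvd_refl q.1) (h2.trans q.2.2)
  rw [sub_sub_cancel] at h3
  exact q.2.1.not_isUnit (isUnit_of_dvd_one h3)

theorem cq_three (q : P3) : cq q 3 = 2 * cq q s3 := by
  have h1 : (3 : 𝓞 K) = (-1) * (s3 * s3) := by linear_combination three_eq
  have h2 : ¬ q.1 ∣ (-1 : 𝓞 K) := fun h => q.2.1.not_isUnit (isUnit_of_dvd_unit h isUnit_one.neg)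
  rw [h1, cq_mul' q h2 (ndvd_mul q (s3_ndvd q) (s3_ndvd q)), cq_mul' q (s3_ndvd q) (s3_ndvd q),
    hr_neg_one]
  ring

theorem ti_mul {k : P3} {a b : 𝓞 K} (h1 : ¬ k.1 ∣ a) (h2 : ¬ k.1 ∣ b) (h3 : ¬ q₀.1 ∣ a)
    (h4 : ¬ q₀.1 ∣ b) : ti q₀ ε k (a * b) = ti q₀ ε k a + ti q₀ ε k b := by
  rw [ti, ti, ti, cq_mul' k h1 h2, cq_mul' q₀ h3 h4]
  ring

theorem ti_three (k : P3) : ti q₀ ε k 3 = 2 * ti q₀ ε k s3 := by
  rw [ti, ti, cq_three, cq_three]
  ring

/-- **(6), (7), (8)**: the sum `Gam`. -/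
theorem hrec (hX : XiR ξ) {I : Finset P3} (hI : Inv q₀ ε I) (h0 : abar q₀.1 ≠ 0) (hq : q₀ ∉ I)
    (hne : I.Nonempty) (hH : IsHam (fun i j : P3 => ti q₀ ε j i.1) (fun i => cq q₀ i.1) Hm)
    {ι : Type} [Fintype ι] {c : ι → 𝓞 K} (hc : RepsG 3 (3 * DD3 (insert q₀ I)) c) :
    ∑ j, (if cq q₀ (c j) = 2 * cq q₀ s3 then ∏ i ∈ I, ti q₀ ε i (c j) else 0) •
        (ξ (qt (DD3 (insert q₀ I)) (c j)) ^ 3 - ξ (qt (DD3 (insert q₀ I)) (c j))) =
      (-(-1) ^ I.card * ∑ i ∈ I, ti q₀ ε i s3 * Hm I i) • (1 : R) := by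
  classical
  have hM := DD3_ne (insert q₀ I)
  have hM3 := DD3_three (insert q₀ I)
  have hem := rt_em_ne hM
  have hmem0 := Finset.mem_insert_self q₀ I
  -- the elements `x_j`
  have hx : ∀ j, ∃ x, c j = 3 * x + DD3 (insert q₀ I) := by
    intro j
    obtain ⟨y, hy⟩ := hc.fx j
    obtain ⟨z, hz⟩ := hM3
    exact ⟨y - z, by linear_combination hy - hz⟩
  choose x hx using hx
  have hqt : ∀ j, qt (DD3 (insert q₀ I)) (c j) = em (x j) / em (DD3 (insert q₀ I)) := by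
    intro j
    rw [qt, rt_em_mul, rt_em_three, hx j, rt_em_add, rt_em_mul, rt_em_three]
    field_simp
    ring
  have hndc : ∀ j, ∀ q ∈ insert q₀ I, ¬ q.1 ∣ c j := fun j q hq => cnt3_not_dvd hc j hq
  have hdd : ∀ q ∈ insert q₀ I, q.1 ∣ DD3 (insert q₀ I) := fun q hq =>
    Finset.dvd_prod_of_mem (fun q : P3 => q.1) hq
  have hndx : ∀ j, ∀ q ∈ insert q₀ I, ¬ q.1 ∣ x j := by
    intro j q hq h
    apply hndc j q hq
    rw [hx j]
    exact dvd_add (h.mul_left 3) (hdd q hq)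
  have hcq : ∀ j, ∀ q ∈ insert q₀ I, cq q (c j) = 2 * cq q s3 + cq q (x j) := by
    intro j q hq
    rw [← cq_three, ← cq_mul' q (three_ndvd q) (hndx j q hq)]
    refine cq_congr' q (hndc j q hq) ?_
    have e : c j - 3 * x j = DD3 (insert q₀ I) := by rw [hx j]; ring
    rw [e]
    exact hdd q hq
  have hti : ∀ j, ∀ k ∈ I, ti q₀ ε k (c j) = ti q₀ ε k (x j) + 2 * ti q₀ ε k s3 := by
    intro j k hk
    rw [ti, ti, ti, hcq j k (Finset.mem_insert_of_mem hk), hcq j q₀ hmem0]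
    ring
  -- the function
  let F : 𝓞 K → R := fun a => gH q₀ ε 0 I (fun k => 2 * ti q₀ ε k s3) a •
    (ξ (em a / em (DD3 (insert q₀ I))) ^ 3 - ξ (em a / em (DD3 (insert q₀ I))))
  have hpt := hX.pd hM
  have hF : Pd (DD3 (insert q₀ I)) F := (gH_pd q₀ ε 0 I _).smul fun a b h => by
    have h1 := hpt a b h
    change ξ (em a / em (DD3 (insert q₀ I))) = ξ (em b / em (DD3 (insert q₀ I))) at h1
    change ξ (em a / em (DD3 (insert q₀ I))) ^ 3 - ξ (em a / em (DD3 (insert q₀ I))) =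
      ξ (em b / em (DD3 (insert q₀ I))) ^ 3 - ξ (em b / em (DD3 (insert q₀ I)))
    rw [h1]
  have hFx : ∀ j, (if cq q₀ (c j) = 2 * cq q₀ s3 then ∏ i ∈ I, ti q₀ ε i (c j) else 0) •
        (ξ (qt (DD3 (insert q₀ I)) (c j)) ^ 3 - ξ (qt (DD3 (insert q₀ I)) (c j))) = F (x j) := by
    intro j
    rw [hqt j]
    change _ = gH q₀ ε 0 I (fun k => 2 * ti q₀ ε k s3) (x j) • _
    congr 1
    by_cases h : cq q₀ (c j) = 2 * cq q₀ s3
    · have h1 : cq q₀ (x j) = 0 := by
        rw [hcq j q₀ hmem0] at h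
        linear_combination h
      rw [if_pos h, gH_pos (hndx j) h1]
      exact Finset.prod_congr rfl fun k hk => hti j k hk
    · rw [if_neg h, gH_zero]
      intro h1
      apply h
      rw [hcq j q₀ hmem0, h1, add_zero]
  have hsum : SM (DD3 (insert q₀ I)) F = ∑ j, F (x j) := by
    refine SM_sup hM hF (fun a ha => ?_) (fun i j h => ?_)
    · have h1 : gH q₀ ε 0 I (fun k => 2 * ti q₀ ε k s3) a ≠ 0 := by
        intro h2
        apply ha
        change gH q₀ ε 0 I (fun k => 2 * ti q₀ ε k s3) a • _ = _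
        rw [h2, zero_smul]
      have h2 := (gH_ne h1).2
      have h3 : IsCoprime a (DD3 (insert q₀ I)) := IsCoprime.prod_right fun q hq =>
        (q.2.1.irreducible.coprime_iff_not_dvd.2 (h2 q hq)).symm
      have h4 : (3 : 𝓞 K) ∣ 3 * a + DD3 (insert q₀ I) - 1 := by
        have e : 3 * a + DD3 (insert q₀ I) - 1 = 3 * a + (DD3 (insert q₀ I) - 1) := by ring
        rw [e]
        exact dvd_add (dvd_mul_right _ _) hM3
      have h5 : IsCoprime (3 * a + DD3 (insert q₀ I)) (3 * DD3 (insert q₀ I)) := by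
        refine IsCoprime.mul_right ?_ ?_
        · obtain ⟨t, ht⟩ := h4
          exact ⟨1, -t, by linear_combination ht⟩
        · obtain ⟨u, v, huv⟩ := h3
          obtain ⟨t, ht⟩ := hM3
          refine IsCoprime.add_mul_left_left (x := 3 * a) (y := DD3 (insert q₀ I)) ?_ 1 |> fun h => by
            rwa [mul_one] at h
          refine IsCoprime.mul_left ?_ ⟨u, v, huv⟩
          exact ⟨-t, 1, by linear_combination ht⟩
      obtain ⟨j, t, ht⟩ := hc.ex _ h5 h4
      refine ⟨j, t, ?_⟩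
      have h6 : (3 : 𝓞 K) ≠ 0 := by norm_num
      apply mul_left_cancel₀ h6
      rw [hx j] at ht
      linear_combination ht
    · obtain ⟨t, ht⟩ := h
      refine hc.inj i j ⟨t, ?_⟩
      rw [hx i, hx j]
      linear_combination 3 * ht
  rw [Finset.sum_congr rfl fun j _ => hFx j, ← hsum]
  -- the two parts
  have e1 : F = fun a => gH q₀ ε 0 I (fun k => 2 * ti q₀ ε k s3) a •
      ξ (em a / em (DD3 (insert q₀ I))) ^ 3 - gH q₀ ε 0 I (fun k => 2 * ti q₀ ε k s3) a •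
      ξ (em a / em (DD3 (insert q₀ I))) := by
    funext a
    exact smul_sub _ _ _
  rw [e1, SM_sub hM]
  have e2 : SM (DD3 (insert q₀ I)) (fun a => gH q₀ ε 0 I (fun k => 2 * ti q₀ ε k s3) a •
      ξ (em a / em (DD3 (insert q₀ I)))) = HX ξ q₀ ε 0 I (fun k => 2 * ti q₀ ε k s3) := rfl
  have hs3c : IsCoprime s3 (DD3 (insert q₀ I)) := IsCoprime.prod_right fun q _ =>
    (q.2.1.irreducible.coprime_iff_not_dvd.2 (s3_ndvd q)).symm
  have e3 : SM (DD3 (insert q₀ I)) (fun a => gH q₀ ε 0 I (fun k => 2 * ti q₀ ε k s3) a •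
      ξ (em a / em (DD3 (insert q₀ I))) ^ 3) =
      HX ξ q₀ ε (cq q₀ s3) I (fun k => ti q₀ ε k s3) := by
    rw [HX, ← SM_mul hM ((gH_pd q₀ ε (cq q₀ s3) I (fun k => ti q₀ ε k s3)).smul hpt) hs3c]
    refine SM_congr fun a => ?_
    rw [gH_mul (fun q _ => s3_ndvd q), sub_self, rt_em_mul, Avg_em_s3, mul_div_assoc]
    have h1 : gH q₀ ε 0 I (fun k => ti q₀ ε k s3 + ti q₀ ε k s3) a =
        gH q₀ ε 0 I (fun k => 2 * ti q₀ ε k s3) a := gH_congr (fun k _ => (two_mul _).symm) a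
    rw [h1]
    by_cases h2 : gH q₀ ε 0 I (fun k => 2 * ti q₀ ε k s3) a = 0
    · rw [h2, zero_smul, zero_smul]
    · rw [hX.s3]
      exact od_div hM3 (dd_notdvd q₀ I ((gH_ne h2).2 _ hmem0))
  rw [e2, e3, HX_rot hX hI h0, ZX_ne hq hne, mul_zero, zero_smul, add_zero,
    HX_aff hX h0 hH I hne hI hq]
  congr 1
  rw [Finset.mul_sum]
  refine Finset.sum_congr rfl fun i _ => ?_
  ring

end

end Pool.Agent.Lib.MP_1a91b9_ntK
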