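import Pool.Agent.Lib.MP_1a91b9_ntK.A.GoodX

/-!
# Cubic twists, part A, file Xi: the coordinate `xh = (X / X(1/2) - 1) / √-3` and its rules

`xh (-Q) = xh Q`, `xh (w Q) = xh Q - 1`, `xh (√-3 Q) = xh Q ^ 3`, `Y² / 3 = √-3 (xh³ - xh)`, and
`∑ xh (Q + u) = xh (q Q)` over the points `u` of `E[q]`, modulo the maximal ideal of a place above `3`.
-/

set_option autoImplicit false

namespace Pool.Agent.Lib.MP_1a91b9_ntT.S3

open Filter Topology

noncomputable section

variable {ι : Type*} [Fintype ι] {α : ℂ} {τ : ι → ℂ}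

/-- **the distribution relation of the function `℘`** -/
theorem sum_P (hα : α ∈ PP.lattice) (hα0 : α ≠ 0) (h1 : ∀ i, α * τ i ∈ PP.lattice)
    (h2 : ∀ x, α * x ∈ PP.lattice → ∃! i, x - τ i ∈ PP.lattice) {z : ℂ}
    (hz : α * z ∉ PP.lattice) :
    ∑ i, PP.weierstrassP (z + τ i) = α ^ 2 * PP.weierstrassP (α * z) := by
  set S : Set ℂ := {w : ℂ | α * w ∈ PP.lattice} with hSdef
  have hS : ∀ z : ℂ, ∀ᶠ w in 𝓝[≠] z, w ∉ S := fun z => eventually_mul_notMem hα0 z
  have hdiff : ∀ z ∉ S, DifferentiableAt ℂ (dh α τ) z := by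
    intro z hz
    have a1 : DifferentiableAt ℂ (fun z => ∑ i, PP.weierstrassP (z + τ i)) z := by
      refine DifferentiableAt.fun_sum fun i _ => ?_
      exact ((hasDerivAt_P (notMem_shift hα h1 hz i)).comp_add_const z (τ i)).differentiableAt
    have a2 : DifferentiableAt ℂ (fun z => PP.weierstrassP (α * z)) z := by
      have b2 : DifferentiableAt ℂ PP.weierstrassP (α * z) := (hasDerivAt_P hz).differentiableAt
      exact b2.comp z (by fun_prop)
    exact a1.neg.add (a2.const_mul _)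
  have hlim : ∀ s ∈ S, Tendsto (fun z => (z - s) * dh α τ z) (𝓝[≠] s) (𝓝 0) := by
    intro s hs
    obtain ⟨a, ha⟩ := tendsto_dh hα0 h2 hs
    exact tendsto_mul_zero ha
  obtain ⟨b, hb⟩ := liouville hS hdiff hlim (fun l hl z => dh_add hα hl z)
  have hcount : S.Countable :=
    countable_lat.preimage_of_injOn (f := fun w : ℂ => α * w)
      (fun x _ y _ h => mul_left_cancel₀ hα0 h)
  have hSo : IsOpen Sᶜ := isOpen_of_iso hS
  have hd : ∀ w ∈ Sᶜ, HasDerivAt (fun z => dg α τ z - b * z) 0 w := by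
    intro w hw
    have c1 := hasDerivAt_dg hα h1 hw
    rw [hb w hw] at c1
    have c2 := c1.sub ((hasDerivAt_id w).const_mul b)
    refine c2.congr_deriv ?_
    ring
  have hconst : ∀ x ∈ Sᶜ, ∀ y ∈ Sᶜ, dg α τ x - b * x = dg α τ y - b * y := by
    intro x hx y hy
    exact hSo.is_const_of_deriv_eq_zero (f := fun z => dg α τ z - b * z)
      (isPreconnected_compl_of_countable hcount)
      (fun w hw => (hd w hw).differentiableAt.differentiableWithinAt)
      (fun w hw => (hd w hw).deriv) hx hy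
  set c : ℂ := etaE * (Fintype.card ι - α * (starRingEnd ℂ) α) with hc
  have hper : ∀ l ∈ PP.lattice, b * l = c * (starRingEnd ℂ) l := by
    intro l hl
    have hzl : z + l ∈ Sᶜ := by
      intro h
      apply hz
      have h' : α * (z + l) ∈ PP.lattice := h
      have := sub_mem h' (mul_mem hα hl)
      have e : α * (z + l) - α * l = α * z := by ring
      rwa [e] at this
    have c1 := hconst (z + l) hzl z hz
    rw [dg_add hα hl, ← hc] at c1
    linear_combination -c1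
  have hb1 := hper 1 one_mem
  have hb2 := hper zt zt_mem
  rw [map_one] at hb1
  rw [conj_zt] at hb2
  have hc0 : c = 0 := by
    have e1 : c * (zt * (1 - zt)) = 0 := by linear_combination hb2 - zt * hb1
    refine (mul_eq_zero.1 e1).resolve_right ?_
    exact mul_ne_zero zt_ne_zero (sub_ne_zero.2 zt_ne_one.symm)
  have hb0 : b = 0 := by linear_combination hb1 + hc0
  have h3 := hb z hz
  rw [hb0, dh] at h3
  linear_combination -h3

/-- **the distribution relation of `X`** -/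
theorem sum_X (hα : α ∈ PP.lattice) (hα0 : α ≠ 0) (h1 : ∀ i, α * τ i ∈ PP.lattice)
    (h2 : ∀ x, α * x ∈ PP.lattice → ∃! i, x - τ i ∈ PP.lattice) {z : ℂ}
    (hz : α * z ∉ PP.lattice) : ∑ i, X (z + τ i) = α ^ 2 * X (α * z) := by
  have h := sum_P hα hα0 h1 h2 hz
  simp only [X]
  rw [← Finset.sum_div, h, mul_div_assoc]

end

end Pool.Agent.Lib.MP_1a91b9_ntT.S3

namespace Pool.Agent.Lib.MP_1a91b9_ntK

open NumberField IsDedekindDomain Pool.Agent.Lib.MP_1a91b9_ntT Pool.Agent.Lib.MP_1a91b9_ntG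
  Pool.Agent.Lib.MP_1a91b9_ntH

noncomputable section

/-- the abscissa of `1 / 2` -/
def X2 : ℂ := S3.X (1 / 2)

theorem X2_cube : X2 ^ 3 = -1 / 4 := by
  have h := Half_X
  rw [X2]
  linear_combination (1 / 4) * h

theorem X2_ne : X2 ≠ 0 := by
  intro h
  have h1 := X2_cube
  rw [h] at h1
  norm_num at h1

/-- the good coordinate -/
def xh (z : ℂ) : ℂ := (S3.X z / X2 - 1) / sq3

theorem sq3_xh (z : ℂ) : sq3 * xh z = S3.X z / X2 - 1 := by
  rw [xh, mul_div_cancel₀ _ sq3_ne]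

theorem X_xh (z : ℂ) : S3.X z = X2 * (1 + sq3 * xh z) := by
  rw [sq3_xh]
  have := X2_ne
  field_simp
  ring

theorem xh_neg (z : ℂ) : xh (-z) = xh z := by
  rw [xh, xh, Rq.X_neg]

theorem xh_zt_eq (z : ℂ) : xh (zt * z) = zt * xh z + (zt - 1) / sq3 := by
  have h := sq3_ne
  have h2 := X2_ne
  rw [xh, xh, Rq.X_zt]
  field_simp
  ring

/-- the square of the ordinate -/
theorem y_xh {z : ℂ} (hz : z ∉ PP.lattice) :
    S3.Y z ^ 2 / 3 = sq3 * (xh z ^ 3 - sq3 * xh z ^ 2 - xh z) := by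
  rw [S3.Y_sq hz, X_xh z]
  linear_combination (4 / 3 * (1 + sq3 * xh z) ^ 3) * X2_cube +
    (xh z ^ 2 * (-1) + xh z ^ 3 * sq3 * (-1 / 3) + xh z ^ 2 * (1 : ℂ)) * sq3_sq

theorem xh_s3_eq {z : ℂ} (hs : sq3 * z ∉ PP.lattice) :
    xh (sq3 * z) * (1 + sq3 * xh z) ^ 2 = xh z ^ 3 - 2 * sq3 * xh z ^ 2 - 3 * xh z := by
  have h := X_s3 hs
  have h0 := sq3_ne
  have h2 := X2_ne
  rw [X_xh (sq3 * z), X_xh z] at h
  have h3 : X2 ^ 3 * (3 * ((1 + sq3 * xh z) ^ 2 * (1 + sq3 * xh (sq3 * z)))) =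
      -(X2 ^ 3 * (1 + sq3 * xh z) ^ 3 + 1) := by linear_combination h
  rw [X2_cube] at h3
  have hq3 : sq3 ^ 3 = -3 * sq3 := by linear_combination sq3 * sq3_sq
  apply mul_left_cancel₀ h0
  linear_combination (-4 / 3 : ℂ) * h3 + (-(1 / 3 : ℂ) * xh z ^ 3) * hq3

/-- the congruence modulo the maximal ideal -/
def Cm (A : ValuationSubring ℂ) (a b : ℂ) : Prop := A.valuation (a - b) < 1

section

variable {A : ValuationSubring ℂ}

theorem xh_le (hA : Three A) {z : ℂ} (h : Od z) : A.valuation (xh z) ≤ 1 := by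
  have h1 := v_X_sub hA h X2_cube
  have h2 := v_of_cube_quarter hA X2_cube
  have e : xh z = (S3.X z - X2) / (X2 * sq3) := by
    have h0 := sq3_ne
    have h3 := X2_ne
    rw [xh]
    field_simp
  rw [e, map_div₀, map_mul, h2, one_mul]
  exact (div_le_one₀ v_sq3_pos).2 h1

theorem xh_mem (hA : Three A) {z : ℂ} (h : Od z) : xh z ∈ A := by
  rw [← A.valuation_le_one_iff]
  exact xh_le hA h

theorem v_zt : A.valuation zt = 1 := by
  have h := congrArg A.valuation (zt_spec.pow_eq_one)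
  rw [map_pow, map_one] at h
  exact (pow_eq_one_iff_of_nonneg zero_le (by norm_num)).1 h

theorem zt_sub : zt - 1 = sq3 * (-zt ^ 2) := by
  rw [sq3]
  linear_combination (2 * zt - 1) * S3.zt_quad

/-- the rotation -/
theorem xh_zt (hA : Three A) {z : ℂ} (h : Od z) : A.valuation (xh (zt * z) - (xh z - 1)) < 1 := by
  have h1 := xh_le hA h
  have hq := v_sq3_lt hA
  have hz := v_zt (A := A)
  have e0 : (zt - 1) / sq3 = -zt ^ 2 := by
    rw [zt_sub, mul_div_cancel_left₀ _ sq3_ne]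
  have e : xh (zt * z) - (xh z - 1) = sq3 * (-zt ^ 2 * xh z - zt) := by
    rw [xh_zt_eq, e0]
    have h2 := zt_sub
    rw [sq3] at h2 ⊢
    linear_combination (xh z) * h2 + S3.zt_quad
  rw [e, map_mul]
  refine mul_lt_one_of_lt_of_le hq (A.valuation.map_sub_le ?_ hz.le)
  rw [map_mul, Valuation.map_neg, map_pow, hz, one_pow, one_mul]
  exact h1

/-- the Frobenius map -/
theorem xh_s3 (hA : Three A) {z : ℂ} (h : Od z) : A.valuation (xh (sq3 * z) - xh z ^ 3) < 1 := by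
  have h1 := xh_le hA h
  have h2 := xh_le hA h.s3
  have h3 := v_three_lt hA
  have hq := v_sq3_lt hA
  have e : xh (sq3 * z) - xh z ^ 3 = sq3 * (-(2 * xh z ^ 2) - xh (sq3 * z) * (2 * xh z + sq3 * xh z ^ 2)) +
      3 * (-xh z) := by
    linear_combination xh_s3_eq h.s3_notMem
  have hle2 : A.valuation (2 : ℂ) ≤ 1 := (v_two3 hA).le
  rw [e]
  refine A.valuation.map_add_lt ?_ ?_
  · rw [map_mul]
    refine mul_lt_one_of_lt_of_le hq (A.valuation.map_sub_le ?_ ?_)
    · rw [Valuation.map_neg, map_mul, map_pow]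
      exact mul_le_one' hle2 (pow_le_one₀ zero_le h1)
    · rw [map_mul]
      refine mul_le_one' h2 (A.valuation.map_add_le ?_ ?_)
      · rw [map_mul]
        exact mul_le_one' hle2 h1
      · rw [map_mul, map_pow]
        exact mul_le_one' hq.le (pow_le_one₀ zero_le h1)
  · rw [map_mul, Valuation.map_neg]
    exact mul_lt_one_of_lt_of_le h3 h1

/-- the ordinate -/
theorem y_res (hA : Three A) {z : ℂ} (h : Od z) :
    A.valuation (S3.Y z ^ 2 / 3 / sq3 - (xh z ^ 3 - xh z)) < 1 := by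
  have h1 := xh_le hA h
  have hq := v_sq3_lt hA
  have e : S3.Y z ^ 2 / 3 / sq3 - (xh z ^ 3 - xh z) = -(sq3 * xh z ^ 2) := by
    rw [y_xh h.1, mul_div_cancel_left₀ _ sq3_ne]
    ring
  rw [e, Valuation.map_neg, map_mul, map_pow]
  exact mul_lt_one_of_lt_of_le hq (pow_le_one₀ zero_le h1)

/-- the sum over the points of `E[q]` -/
theorem xh_dist (hA : Three A) (q : P3) {ι : Type*} [Fintype ι] {τ : ι → ℂ}
    (h1 : ∀ i, em q.1 * τ i ∈ PP.lattice)
    (h2 : ∀ x, em q.1 * x ∈ PP.lattice → ∃! i, x - τ i ∈ PP.lattice)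
    (hcard : Fintype.card ι = Nz q.1) {z : ℂ} (hz : Od (em q.1 * z)) :
    A.valuation (∑ i, xh (z + τ i) - xh (em q.1 * z)) < 1 := by
  have hq0 : em q.1 ≠ 0 := rt_em_ne q.2.1.ne_zero
  have hlat : em q.1 ∈ PP.lattice := S3.embK_mem q.1
  have hsum := S3.sum_X hlat hq0 h1 h2 hz.1
  have h0 := sq3_ne
  have hX2 := X2_ne
  obtain ⟨t, ht⟩ := q.2.2
  obtain ⟨a, b, hab⟩ := coord t
  have hq1 : q.1 = ((1 + 3 * a : ℤ) : 𝓞 K) + ((3 * b : ℤ) : 𝓞 K) * wO := by
    have h3 : q.1 = 1 + 3 * t := by linear_combination ht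
    rw [h3, hab]
    push_cast
    ring
  have hN : ((Nz q.1 : ℕ) : ℂ) = ((1 + 3 * a : ℤ) : ℂ) ^ 2 - ((1 + 3 * a : ℤ) : ℂ) * ((3 * b : ℤ) : ℂ) +
      ((3 * b : ℤ) : ℂ) ^ 2 := by
    have h3 := Nz_coords (1 + 3 * a) (3 * b)
    rw [← hq1] at h3
    exact_mod_cast congrArg (fun x : ℤ => (x : ℂ)) h3
  have hem : em q.1 = ((1 + 3 * a : ℤ) : ℂ) + ((3 * b : ℤ) : ℂ) * zt := by
    have h3 := emb_coords (1 + 3 * a) (3 * b)
    rw [← hq1] at h3
    exact h3
  have e1 : em q.1 ^ 2 - (Nz q.1 : ℂ) = sq3 * (3 * (b : ℂ) * em q.1) := by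
    rw [hN, hem, sq3]
    push_cast
    linear_combination (-9 * (b : ℂ) ^ 2) * S3.zt_quad
  have e2 : ∑ i, xh (z + τ i) = em q.1 ^ 2 * xh (em q.1 * z) + 3 * (b : ℂ) * em q.1 := by
    have e3 : ∑ i, xh (z + τ i) = (em q.1 ^ 2 * S3.X (em q.1 * z) / X2 - (Nz q.1 : ℂ)) / sq3 := by
      simp only [xh]
      rw [← Finset.sum_div, Finset.sum_sub_distrib, ← Finset.sum_div, hsum, Finset.sum_const,
        Finset.card_univ, hcard, nsmul_eq_mul, mul_one]
    rw [e3, X_xh (em q.1 * z), div_eq_iff h0]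
    field_simp
    linear_combination e1
  have hem1 : A.valuation (em q.1) ≤ 1 := rt_em_le q.1
  have hb : A.valuation (b : ℂ) ≤ 1 := (A.valuation_le_one_iff _).2 (intCast_mem A b)
  have h3 := v_three_lt hA
  have hsq : A.valuation (em q.1 ^ 2 - 1) < 1 := by
    have e4 : em q.1 - 1 = 3 * em t := by
      have h4 := congrArg em ht
      rw [rt_em_sub, rt_em_one, rt_em_mul, rt_em_three] at h4
      exact h4
    have e5 : em q.1 ^ 2 - 1 = 3 * (em t * (em q.1 + 1)) := by linear_combination (em q.1 + 1) * e4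
    rw [e5, map_mul]
    refine mul_lt_one_of_lt_of_le h3 ?_
    rw [map_mul]
    refine mul_le_one' (rt_em_le t) (A.valuation.map_add_le hem1 ?_)
    rw [map_one]
  have e6 : ∑ i, xh (z + τ i) - xh (em q.1 * z) =
      (em q.1 ^ 2 - 1) * xh (em q.1 * z) + 3 * ((b : ℂ) * em q.1) := by
    rw [e2]
    ring
  rw [e6]
  refine A.valuation.map_add_lt ?_ ?_
  · rw [map_mul]
    exact mul_lt_one_of_lt_of_le hsq (xh_le hA hz)
  · rw [map_mul, map_mul]
    exact mul_lt_one_of_lt_of_le h3 (mul_le_one' hb hem1)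

end

end

end Pool.Agent.Lib.MP_1a91b9_ntK
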