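import Pool.Agent.Lib.MP_1a91b9_ntK.A.HRec2
import Pool.Agent.Lib.MP_1a91b9_ntK.A.Xi
import Pool.Agent.Lib.MP_1a91b9_ntK.A.SysHA
import Pool.Agent.Lib.MP_1a91b9_ntK.A.CubeT
import Pool.Agent.Lib.MP_1a91b9_ntK.A.Avg2

/-!
# Cubic twists, hard class, file HRecA: the sum `Gam` modulo a place above `3`
-/

set_option autoImplicit false

namespace Pool.Agent.Lib.MP_1a91b9_ntK

open NumberField IsDedekindDomain Pool.Agent.Lib.MP_1a91b9_ntT Pool.Agent.Lib.MP_1a91b9_ntG
open Pool.Agent.Lib.MP_1a91b9_ntH (wO s3 cp Nz Half_mem_iff Half_em_inj wO_quad s3_sq s3_ne three_eq)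

noncomputable section

variable {A : ValuationSubring ℂ}

/-! ### The residue field -/

/-- the residue class -/
def rsd (A : ValuationSubring ℂ) (z : ℂ) : IsLocalRing.ResidueField A :=
  open Classical in if h : z ∈ A then IsLocalRing.residue A ⟨z, h⟩ else 0

theorem rsd_of {z : ℂ} (h : z ∈ A) : rsd A z = IsLocalRing.residue A ⟨z, h⟩ := by
  unfold rsd
  exact dif_pos h

theorem rsd_add {z w : ℂ} (hz : z ∈ A) (hw : w ∈ A) : rsd A (z + w) = rsd A z + rsd A w := by
  rw [rsd_of hz, rsd_of hw, rsd_of (add_mem hz hw), ← map_add]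
  rfl

theorem rsd_sub {z w : ℂ} (hz : z ∈ A) (hw : w ∈ A) : rsd A (z - w) = rsd A z - rsd A w := by
  rw [rsd_of hz, rsd_of hw, rsd_of (sub_mem hz hw), ← map_sub]
  rfl

theorem rsd_mul {z w : ℂ} (hz : z ∈ A) (hw : w ∈ A) : rsd A (z * w) = rsd A z * rsd A w := by
  rw [rsd_of hz, rsd_of hw, rsd_of (mul_mem hz hw), ← map_mul]
  rfl

theorem rsd_one : rsd A 1 = 1 := by
  rw [rsd_of (one_mem A)]
  exact map_one _

theorem rsd_zero : rsd A 0 = 0 := by
  rw [rsd_of (zero_mem A)]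
  exact map_zero _

theorem rsd_pow {z : ℂ} (hz : z ∈ A) (n : ℕ) : rsd A (z ^ n) = rsd A z ^ n := by
  induction n with
  | zero => rw [pow_zero, pow_zero, rsd_one]
  | succ n ih => rw [pow_succ, pow_succ, rsd_mul (pow_mem hz n) hz, ih]

theorem rsd_sum {ι : Type*} (T : Finset ι) {z : ι → ℂ} (h : ∀ i ∈ T, z i ∈ A) :
    rsd A (∑ i ∈ T, z i) = ∑ i ∈ T, rsd A (z i) ∧ ∑ i ∈ T, z i ∈ A := by
  classical
  induction T using Finset.induction_on with
  | empty => exact ⟨by rw [Finset.sum_empty, Finset.sum_empty, rsd_zero], by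
      rw [Finset.sum_empty]; exact zero_mem A⟩
  | insert a T ha ih =>
    obtain ⟨h1, h2⟩ := ih fun i hi => h i (Finset.mem_insert_of_mem hi)
    have h3 := h a (Finset.mem_insert_self a T)
    rw [Finset.sum_insert ha, Finset.sum_insert ha, rsd_add h3 h2, h1]
    exact ⟨rfl, add_mem h3 h2⟩

theorem rsd_int (n : ℤ) : rsd A (n : ℂ) = (n : IsLocalRing.ResidueField A) := by
  rw [rsd_of (intCast_mem A n)]
  have e : (⟨(n : ℂ), intCast_mem A n⟩ : A) = ((n : ℤ) : A) := rfl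
  rw [e, map_intCast]

theorem mem_iff' {z : ℂ} : z ∈ A ↔ A.valuation z ≤ 1 := (A.valuation_le_one_iff z).symm

theorem rsd_eq_zero {z : ℂ} (h : z ∈ A) : rsd A z = 0 ↔ A.valuation z < 1 := by
  rw [rsd_of h, IsLocalRing.residue_eq_zero_iff]
  exact A.valuation_lt_one_iff ⟨z, h⟩

/-- congruent elements have the same class -/
theorem rsd_congr {z w : ℂ} (hw : w ∈ A) (h : A.valuation (z - w) < 1) : z ∈ A ∧ rsd A z = rsd A w := by
  have h1 : z - w ∈ A := mem_iff'.2 h.le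
  have h2 : z ∈ A := by
    have := add_mem h1 hw
    rwa [sub_add_cancel] at this
  refine ⟨h2, ?_⟩
  rw [← sub_eq_zero, ← rsd_sub h2 hw, rsd_eq_zero h1]
  exact h

theorem rsd_char (hA : Three A) : CharP (IsLocalRing.ResidueField A) 3 := by
  rw [CharP.charP_iff_prime_eq_zero Nat.prime_three]
  have h1 : rsd A ((3 : ℤ) : ℂ) = 0 := by
    rw [rsd_eq_zero (intCast_mem A 3)]
    exact_mod_cast v_three_lt hA
  rw [rsd_int] at h1
  exact_mod_cast h1

/-- the residue field as an algebra over the field with three elements -/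
abbrev rsdAlg (hA : Three A) : Algebra (ZMod 3) (IsLocalRing.ResidueField A) :=
  haveI := rsd_char hA
  ZMod.algebra _ 3

theorem rsd_alg (hA : Three A) (n : ℤ) :
    letI := rsdAlg hA
    algebraMap (ZMod 3) (IsLocalRing.ResidueField A) (n : ZMod 3) = n := by
  let i1 := rsdAlg hA
  exact map_intCast _ n

theorem rt_iff (hA : Three A) {z : ℂ} {y : ZMod 3} :
    letI := rsdAlg hA
    Rt A z y ↔ z ∈ A ∧ rsd A z = algebraMap (ZMod 3) (IsLocalRing.ResidueField A) y := by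
  let i1 := rsdAlg hA
  obtain ⟨n, rfl⟩ : ∃ n : ℤ, (n : ZMod 3) = y := ⟨tei y, tei_cast y⟩
  rw [rsd_alg hA n]
  constructor
  · intro h
    have h2 := h.sub (Rt.int (A := A) n)
    rw [sub_self, Rt.zero_iff hA] at h2
    obtain ⟨h3, h4⟩ := rsd_congr (intCast_mem A n) h2
    exact ⟨h3, h4.trans (rsd_int n)⟩
  · rintro ⟨h3, h4⟩
    refine (Rt.int (A := A) n).congr ?_
    rw [← rsd_eq_zero (sub_mem h3 (intCast_mem A n)), rsd_sub h3 (intCast_mem A n), h4, rsd_int,
      sub_self]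

/-! ### The rules -/

theorem Od.rot {z : ℂ} (h : Od z) : Od (zt * z) := by
  obtain ⟨h1, n, hn, h2⟩ := h
  have hz : zt * zt ^ 2 = 1 := by linear_combination (zt - 1) * S3.zt_quad
  have hm : ∀ {x : ℂ}, x ∈ PP.lattice → zt * x ∈ PP.lattice := by
    intro x hx
    obtain ⟨a, rfl⟩ := Half_mem_iff.1 hx
    refine Half_mem_iff.2 ⟨wO * a, ?_⟩
    change em (wO * a) = zt * em a
    rw [rt_em_mul, em_wO']
  refine ⟨fun h3 => h1 ?_, n, hn, ?_⟩
  · have h4 := hm (hm h3)
    have e : zt * (zt * (zt * z)) = z := by linear_combination z * hz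
    rwa [e] at h4
  · have h4 := hm h2
    rwa [show zt * ((n : ℂ) * z) = (n : ℂ) * (zt * z) by ring] at h4

theorem Od.of_q {q : P3} {z u : ℂ} (h : Od (em q.1 * z)) (hu : em q.1 * u ∈ PP.lattice) :
    Od (z + u) := by
  obtain ⟨h1, n, hn, h2⟩ := h
  have hm : ∀ {x : ℂ} (a : 𝓞 K), x ∈ PP.lattice → em a * x ∈ PP.lattice := by
    intro x a hx
    obtain ⟨b, rfl⟩ := Half_mem_iff.1 hx
    exact Half_mem_iff.2 ⟨a * b, rt_em_mul a b⟩
  refine ⟨fun h3 => h1 ?_, Nz q.1 * n, ?_, ?_⟩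
  · have h4 := sub_mem (hm q.1 h3) hu
    rwa [show em q.1 * (z + u) - em q.1 * u = em q.1 * z by ring] at h4
  · refine Nat.Coprime.mul_left ?_ hn
    refine (Nat.Coprime.symm ?_)
    rw [Nat.Prime.coprime_iff_not_dvd Nat.prime_three, ← s3_dvd_iff]
    exact three_dvd_not q.2.2
  · obtain ⟨y, hy⟩ := dvd_Nz q.1
    have h4 : em q.1 * em y = ((Nz q.1 : ℕ) : ℂ) := by rw [← rt_em_mul, hy, rt_em_nat]
    have h5 := add_mem (hm y h2) (hm (y * ((n : ℕ) : 𝓞 K)) hu)
    rw [rt_em_mul, rt_em_nat] at h5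
    push_cast
    rw [← h4]
    rwa [show em q.1 * em y * (n : ℂ) * (z + u) = em y * ((n : ℂ) * (em q.1 * z)) +
      em y * (n : ℂ) * (em q.1 * u) by ring]

theorem xh_add {l : ℂ} (hl : l ∈ PP.lattice) (z : ℂ) : xh (z + l) = xh z := by
  rw [xh, xh, S3.X_add hl]

/-- the residue class of the good coordinate satisfies the rules -/
theorem xiR (hA : Three A) : XiR fun z => rsd A (xh z) where
  per z l hl := by
    rw [xh_add hl]
  w z hz := by
    change rsd A (xh (zt * z)) = rsd A (xh z) - 1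
    have h1 := xh_mem hA hz
    rw [(rsd_congr (sub_mem h1 (one_mem A)) (xh_zt hA hz)).2, rsd_sub h1 (one_mem A), rsd_one]
  s3 z hz := by
    have h1 := xh_mem hA hz
    rw [(rsd_congr (pow_mem h1 3) (xh_s3 hA hz)).2, rsd_pow h1]
  dist q z hz := by
    change SM q.1 (fun u => rsd A (xh (z + em u / em q.1))) = rsd A (xh (em q.1 * z))
    have hq := q.2.1.ne_zero
    have hqe := rt_em_ne hq
    have hfin := SM_finite hq
    let _ : Fintype (𝓞 K ⧸ Ideal.span {q.1}) := Fintype.ofFinite _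
    let τ : (𝓞 K ⧸ Ideal.span {q.1}) → ℂ := fun x => em x.out / em q.1
    have hqτ : ∀ i, em q.1 * τ i = em i.out := by
      intro i
      change em q.1 * (em i.out / em q.1) = _
      field_simp
    have h1 : ∀ i, em q.1 * τ i ∈ PP.lattice := fun i => by
      rw [hqτ]
      exact Half_mem_iff.2 ⟨_, rfl⟩
    have h2 : ∀ x, em q.1 * x ∈ PP.lattice → ∃! i, x - τ i ∈ PP.lattice := by
      intro x hx
      obtain ⟨a, ha⟩ := Half_mem_iff.1 hx
      have ha' : em a = em q.1 * x := ha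
      have hiff : ∀ i : 𝓞 K ⧸ Ideal.span {q.1}, x - τ i ∈ PP.lattice ↔ q.1 ∣ a - i.out := by
        intro i
        rw [Half_mem_iff]
        constructor
        · rintro ⟨y, hy⟩
          refine ⟨y, Half_em_inj ?_⟩
          change em (a - i.out) = em (q.1 * y)
          have hy' : em y = x - τ i := hy
          rw [rt_em_sub, rt_em_mul, hy', mul_sub, hqτ, ha']
        · rintro ⟨y, hy⟩
          refine ⟨y, ?_⟩
          change em y = x - τ i
          apply mul_left_cancel₀ hqe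
          rw [← rt_em_mul, ← hy, rt_em_sub, mul_sub, hqτ, ha']
      refine ⟨Ideal.Quotient.mk _ a, ?_, ?_⟩
      · change x - τ _ ∈ PP.lattice
        rw [hiff, ← SM_mk, SM_out]
      · intro j hj
        have hj' : x - τ j ∈ PP.lattice := hj
        rw [hiff, ← SM_mk, SM_out] at hj'
        exact hj'.symm
    have hcard : Fintype.card (𝓞 K ⧸ Ideal.span {q.1}) = Nz q.1 := by
      rw [← absNorm_eq_Nz, Ideal.absNorm_apply, Submodule.cardQuot_apply, Nat.card_eq_fintype_card]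
    have h3 := xh_dist hA q h1 h2 hcard hz
    have h4 : ∀ i ∈ (Finset.univ : Finset (𝓞 K ⧸ Ideal.span {q.1})), xh (z + τ i) ∈ A := fun i _ =>
      xh_mem hA (Od.of_q hz (h1 i))
    obtain ⟨h5, -⟩ := rsd_sum _ h4
    rw [← (rsd_congr (xh_mem hA hz) h3).2, h5, SM, finsum_eq_sum_of_fintype]

/-! ### The result -/

theorem ti_tH (q0 i : P3) (x : 𝓞 K) : ti q0 (epH aP q0) i x = tH q0 i x := rfl

theorem inv_ep {q0 : P3} (h0 : aP q0 ≠ 0) (I : Finset P3) : Inv q0 (epH aP q0) I := by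
  intro k _
  have h1 : abar q0.1 * abar q0.1 = 1 := hr_sq h0
  change abar k.1 + -(abar k.1 * abar q0.1) * abar q0.1 = 0
  linear_combination (-abar k.1) * h1

theorem rt_wt (hA : Three A) (t : ZMod 3) : Rt A ((1 - e3 t) / (1 - zt)) t := by
  refine Rt.of_cube hA ?_
  rw [CubeT_factor]
  have h := Rt.int (A := A) (tei t)
  rwa [tei_cast] at h

/-- **(6), (7), (8)** modulo a place above `3` -/
theorem hrecA (hA : Three A) (e : P3 → ZMod 3) {q0 : P3} {I : Finset P3} (h0 : q0 ∉ I)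
    (hI : I.Nonempty) (ha : aP q0 ≠ 0) {ι : Type} [Fintype ι] {c : ι → 𝓞 K}
    (hc : RepsG 3 (3 * DD3 (insert q0 I)) c) :
    Rt A (∑ j ∈ Finset.univ.filter (fun j => cq q0 (c j) = 2 * cq q0 s3),
      (∏ i ∈ I, (1 - e3 (e i * tH q0 i (c j))) / (1 - zt)) *
        (xh (qt (DD3 (insert q0 I)) (c j)) ^ 3 - xh (qt (DD3 (insert q0 I)) (c j))))
      (GamH d3.s aP bP e q0 I) := by
  classical
  let i1 := rsdAlg hA
  rw [rt_iff hA]
  have hH : IsHam (fun i j : P3 => ti q0 (epH aP q0) j i.1) (fun i => cq q0 i.1)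
      (Ham (fun i j => mH d3.s aP q0 j i) (fun i => d3.s q0 i)) := by
    have hs : ∀ p q : P3, d3.s p q = cq p q.1 := by
      intro p q
      change cq q p.1 = cq p q.1
      by_cases h : p = q
      · rw [h]
      · exact cs_recip q.2.1 p.2.1 q.2.2 p.2.2 fun h1 => h (Subtype.ext h1).symm
    have e1 : (fun i j : P3 => mH d3.s aP q0 j i) = fun i j => ti q0 (epH aP q0) j i.1 := by
      funext i j
      rw [mH, ti, hs, hs]
    have e2 : (fun i : P3 => d3.s q0 i) = fun i => cq q0 i.1 := funext fun i => hs q0 i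
    rw [e1, e2]
    refine ⟨fun i => Ham_single _ _ i, fun J i hi hJ => Ham_of _ _ hi ?_⟩
    rw [Finset.nonempty_iff_ne_empty]
    intro h
    apply hJ
    have h2 := Finset.insert_erase hi
    rw [h] at h2
    exact h2.symm
  have hmain := hrec (xiR hA) (inv_ep ha I) ha h0 hI hH hc
  have hod : ∀ j, Od (qt (DD3 (insert q0 I)) (c j)) := by
    intro j
    have hM := DD3_ne (insert q0 I)
    have hM3 := DD3_three (insert q0 I)
    have hem := rt_em_ne hM
    obtain ⟨y, hy⟩ := hc.fx j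
    obtain ⟨z, hz⟩ := id hM3
    have h1 : c j = 3 * (y - z) + DD3 (insert q0 I) := by linear_combination hy - hz
    have h2 : qt (DD3 (insert q0 I)) (c j) = em (y - z) / em (DD3 (insert q0 I)) := by
      rw [qt, rt_em_mul, rt_em_three, h1, rt_em_add, rt_em_mul, rt_em_three]
      field_simp
      ring
    rw [h2]
    refine od_div hM3 (dd_notdvd q0 I fun h3 => ?_)
    apply cnt3_not_dvd hc j (Finset.mem_insert_self q0 I)
    rw [h1]
    exact dvd_add (h3.mul_left 3)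
      (Finset.dvd_prod_of_mem (fun q : P3 => q.1) (Finset.mem_insert_self _ _))
  have hx := fun j => xh_mem hA (hod j)
  have hw : ∀ j, Rt A (∏ i ∈ I, (1 - e3 (e i * tH q0 i (c j))) / (1 - zt))
      (∏ i ∈ I, (e i * tH q0 i (c j))) := fun j => Rt.prod I fun i _ => rt_wt hA _
  have hterm : ∀ j, (∏ i ∈ I, (1 - e3 (e i * tH q0 i (c j))) / (1 - zt)) *
      (xh (qt (DD3 (insert q0 I)) (c j)) ^ 3 - xh (qt (DD3 (insert q0 I)) (c j))) ∈ A ∧
      rsd A ((∏ i ∈ I, (1 - e3 (e i * tH q0 i (c j))) / (1 - zt)) *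
        (xh (qt (DD3 (insert q0 I)) (c j)) ^ 3 - xh (qt (DD3 (insert q0 I)) (c j)))) =
      (∏ i ∈ I, (e i * tH q0 i (c j))) • (rsd A (xh (qt (DD3 (insert q0 I)) (c j))) ^ 3 -
        rsd A (xh (qt (DD3 (insert q0 I)) (c j)))) := by
    intro j
    obtain ⟨h1, h2⟩ := (rt_iff hA).1 (hw j)
    have h3 := sub_mem (pow_mem (hx j) 3) (hx j)
    refine ⟨mul_mem h1 h3, ?_⟩
    rw [rsd_mul h1 h3, h2, rsd_sub (pow_mem (hx j) 3) (hx j), rsd_pow (hx j), Algebra.smul_def]
  obtain ⟨h1, h2⟩ := rsd_sum (A := A) (Finset.univ.filter (fun j => cq q0 (c j) = 2 * cq q0 s3))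
    fun j _ => (hterm j).1
  refine ⟨h2, ?_⟩
  rw [h1, Finset.sum_congr rfl fun j _ => (hterm j).2, Finset.sum_filter]
  have e3' : ∀ j, (if cq q0 (c j) = 2 * cq q0 s3 then (∏ i ∈ I, (e i * tH q0 i (c j))) •
      (rsd A (xh (qt (DD3 (insert q0 I)) (c j))) ^ 3 - rsd A (xh (qt (DD3 (insert q0 I)) (c j))))
      else 0) = (∏ i ∈ I, e i) • ((if cq q0 (c j) = 2 * cq q0 s3 then
        ∏ i ∈ I, ti q0 (epH aP q0) i (c j) else 0) •
      (rsd A (xh (qt (DD3 (insert q0 I)) (c j))) ^ 3 -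
        rsd A (xh (qt (DD3 (insert q0 I)) (c j))))) := by
    intro j
    rw [smul_smul]
    by_cases h : cq q0 (c j) = 2 * cq q0 s3
    · rw [if_pos h, if_pos h, ← Finset.prod_mul_distrib]
      rfl
    · rw [if_neg h, if_neg h, mul_zero, zero_smul]
  rw [Finset.sum_congr rfl fun j _ => e3' j, ← Finset.smul_sum, hmain, smul_smul,
    Algebra.algebraMap_eq_smul_one]
  congr 1
  have e4 : ∑ i ∈ I, ti q0 (epH aP q0) i s3 * Ham (fun i j => mH d3.s aP q0 j i)
      (fun i => d3.s q0 i) I i = ∑ i ∈ I, bH aP bP q0 i * Ham (fun i j => mH d3.s aP q0 j i)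
      (fun i => d3.s q0 i) I i := by
    refine Finset.sum_congr rfl fun i _ => ?_
    congr 1
    rw [ti, bbar_q, bbar_q]
    rfl
  rw [GamH, e4]
  ring

end

end Pool.Agent.Lib.MP_1a91b9_ntK
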