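import Pool.Agent.Lib.MP_1a91b9_ntK.A.SysH

/-!
# Cubic twists, part A, file HamId: the identity of Hamiltonian paths

`∑ (T ⊆ S) (-1) ^ #T (gᵀ adj (NM m κ T) f) ∏ (q ∈ S \ T) (κ q + ∑ (p ∈ T) m q p) = (-1) ^ #S ∑ (i ∈ S) g i Ham m f S i`
-/

set_option autoImplicit false

namespace Pool.Agent.Lib.MP_1a91b9_ntK

open Finset

variable {ι R : Type*} [DecidableEq ι] [CommRing R]

/-- the entry `i` of `adj (NM m κ T) f` -/
def AF (m : ι → ι → R) (κ f : ι → R) (T : Finset ι) (i : ι) : R :=
  if h : i ∈ T then ∑ j : T, (NM m κ T).adjugate ⟨i, h⟩ j * f j else 0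

theorem AF_of_not (m : ι → ι → R) (κ f : ι → R) {T : Finset ι} {i : ι} (h : i ∉ T) :
    AF m κ f T i = 0 := dif_neg h

theorem AF_sum (m : ι → ι → R) (κ f g : ι → R) (T : Finset ι) :
    ∑ i : T, ∑ j : T, g i * (NM m κ T).adjugate i j * f j = ∑ i ∈ T, g i * AF m κ f T i := by
  rw [← sum_coe_sort T (fun i => g i * AF m κ f T i)]
  refine sum_congr rfl fun i _ => ?_
  rw [AF, dif_pos i.2, mul_sum]
  exact sum_congr rfl fun j _ => by ring

/-- expansion of the row `i` -/
theorem AF_rec (m : ι → ι → R) (κ f : ι → R) {T : Finset ι} {i : ι} (hi : i ∉ T) :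
    AF m κ f (insert i T) i = f i * (NM m (fun p => κ p + m p i) T).det +
      ∑ j ∈ T, m i j * AF m (fun p => κ p + m p i) f T j := by
  classical
  have h1 : AF m κ f (insert i T) i =
      ((NM m κ (insert i T)).updateCol ⟨i, mem_insert_self i T⟩ (fun j => f j)).det := by
    rw [AF, dif_pos (mem_insert_self i T), ← Matrix.cramer_apply, Matrix.cramer_eq_adjugate_mulVec]
    rfl
  let e : ↥T ⊕ Unit ≃ ↥(insert i T) :=
    { toFun := fun x => match x with
        | Sum.inl j => ⟨j, mem_insert_of_mem j.2⟩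
        | Sum.inr _ => ⟨i, mem_insert_self i T⟩
      invFun := fun x => if h : (x : ι) = i then Sum.inr () else
        Sum.inl ⟨x, mem_of_mem_insert_of_ne x.2 h⟩
      left_inv := fun x => by
        rcases x with j | u
        · have hj : (j : ι) ≠ i := fun h => hi (h ▸ j.2)
          simp [hj]
        · simp
      right_inv := fun x => by
        by_cases h : (x : ι) = i
        · simp only [h, dif_pos]
          exact Subtype.ext h.symm
        · simp only [dif_neg h] }
  have h2 : ((NM m κ (insert i T)).updateCol ⟨i, mem_insert_self i T⟩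
      (fun j => f j)).submatrix e e =
      BM (NM m (fun p => κ p + m p i) T) (fun j => f j) (fun j => -m i j) (f i) := by
    ext x y
    rcases x with x | x
    · have hx : (x : ι) ≠ i := fun h => hi (h ▸ x.2)
      rcases y with y | y
      · have hy : (y : ι) ≠ i := fun h => hi (h ▸ y.2)
        have hy' : (⟨(y : ι), mem_insert_of_mem y.2⟩ : ↥(insert i T)) ≠ ⟨i, mem_insert_self i T⟩ :=
          fun h => hy (congrArg Subtype.val h)
        simp only [Matrix.submatrix_apply, e, Equiv.coe_fn_mk, Matrix.updateCol_ne hy', BM,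
          Matrix.fromBlocks_apply₁₁]
        simp only [NM]
        by_cases hxy : x = y
        · subst hxy
          simp only [if_true]
          have h2 : (insert i T).erase (x : ι) = insert i (T.erase (x : ι)) :=
            erase_insert_of_ne (Ne.symm hx)
          rw [h2, sum_insert (fun h => hi (mem_of_mem_erase h))]
          ring
        · have h2 : ¬ (⟨(x : ι), mem_insert_of_mem x.2⟩ : ↥(insert i T)) =
              ⟨(y : ι), mem_insert_of_mem y.2⟩ := fun h => hxy (Subtype.ext (Subtype.mk.inj h))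
          rw [if_neg h2, if_neg hxy]
      · simp only [Matrix.submatrix_apply, e, Equiv.coe_fn_mk, Matrix.updateCol_self, BM,
          Matrix.fromBlocks_apply₁₂, Matrix.of_apply]
    · rcases y with y | y
      · have hy : (y : ι) ≠ i := fun h => hi (h ▸ y.2)
        have hy' : (⟨(y : ι), mem_insert_of_mem y.2⟩ : ↥(insert i T)) ≠ ⟨i, mem_insert_self i T⟩ :=
          fun h => hy (congrArg Subtype.val h)
        simp only [Matrix.submatrix_apply, e, Equiv.coe_fn_mk, Matrix.updateCol_ne hy', BM,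
          Matrix.fromBlocks_apply₂₁, Matrix.of_apply]
        simp only [NM, if_neg (Ne.symm hy')]
      · simp only [Matrix.submatrix_apply, e, Equiv.coe_fn_mk, Matrix.updateCol_self, BM,
          Matrix.fromBlocks_apply₂₂, Matrix.of_apply]
  rw [h1, ← Matrix.det_submatrix_equiv_self e, h2, det_BM, AF_sum m _ f (fun j => -m i j) T,
    sub_eq_add_neg, ← sum_neg_distrib]
  congr 1
  exact sum_congr rfl fun j _ => by ring

/-- the part of the sum with the factor `g i` -/
def SA (m : ι → ι → R) (κ f : ι → R) (S : Finset ι) (i : ι) : R :=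
  ∑ T ∈ S.powerset, (-1) ^ T.card * AF m κ f T i * ∏ q ∈ S \ T, (κ q + ∑ p ∈ T, m q p)

theorem SA_rec (m : ι → ι → R) (κ f : ι → R) {S : Finset ι} {i : ι} (hi : i ∉ S) :
    SA m κ f (insert i S) i = -(f i * GF m (fun p => κ p + m p i) S) -
      ∑ j ∈ S, m i j * SA m (fun p => κ p + m p i) f S j := by
  classical
  have h1 : ∀ T ∈ S.powerset, (-1) ^ T.card * AF m κ f T i *
      ∏ q ∈ insert i S \ T, (κ q + ∑ p ∈ T, m q p) = 0 := by
    intro T hT
    rw [AF_of_not m κ f (fun h => hi (mem_powerset.1 hT h)), mul_zero, zero_mul]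
  have h2 : ∀ T ∈ S.powerset, (-1) ^ (insert i T).card * AF m κ f (insert i T) i *
      ∏ q ∈ insert i S \ insert i T, (κ q + ∑ p ∈ insert i T, m q p) =
      -(f i * ((-1) ^ T.card * (NM m (fun p => κ p + m p i) T).det *
        ∏ q ∈ S \ T, (κ q + m q i + ∑ p ∈ T, m q p))) -
      ∑ j ∈ S, m i j * ((-1) ^ T.card * AF m (fun p => κ p + m p i) f T j *
        ∏ q ∈ S \ T, (κ q + m q i + ∑ p ∈ T, m q p)) := by
    intro T hT
    have hT' := mem_powerset.1 hT
    have hiT : i ∉ T := fun h => hi (hT' h)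
    have e2 : insert i S \ insert i T = S \ T := by
      ext x
      simp only [mem_sdiff, mem_insert, not_or]
      constructor
      · rintro ⟨h1 | h1, h2, h3⟩
        · exact absurd h1 h2
        · exact ⟨h1, h3⟩
      · rintro ⟨h1, h2⟩
        exact ⟨Or.inr h1, fun h => hi (h ▸ h1), h2⟩
    have e3 : ∏ q ∈ S \ T, (κ q + ∑ p ∈ insert i T, m q p) =
        ∏ q ∈ S \ T, (κ q + m q i + ∑ p ∈ T, m q p) := by
      refine prod_congr rfl fun q hq => ?_
      rw [sum_insert hiT]
      ring
    have e4 : ∑ j ∈ S, m i j * ((-1) ^ T.card * AF m (fun p => κ p + m p i) f T j *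
        ∏ q ∈ S \ T, (κ q + m q i + ∑ p ∈ T, m q p)) =
        (∑ j ∈ T, m i j * AF m (fun p => κ p + m p i) f T j) * ((-1) ^ T.card *
        ∏ q ∈ S \ T, (κ q + m q i + ∑ p ∈ T, m q p)) := by
      rw [sum_mul, ← sum_subset hT']
      · exact sum_congr rfl fun j _ => by ring
      · intro j _ hj
        rw [AF_of_not _ _ _ hj]
        ring
    rw [e2, e3, e4, AF_rec m κ f hiT, card_insert_of_notMem hiT, pow_succ]
    ring
  rw [SA, sum_powerset_insert hi, sum_eq_zero h1, zero_add, sum_congr rfl h2, sum_sub_distrib,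
    sum_neg_distrib, ← mul_sum, sum_comm]
  congr 1
  refine sum_congr rfl fun j _ => ?_
  rw [← mul_sum, SA]

theorem SA_eq (m : ι → ι → R) (κ f : ι → R) {S : Finset ι} {i : ι} (hi : i ∈ S) :
    SA m κ f S i = (-1) ^ S.card * Ham m f S i := by
  induction S using Finset.strongInduction generalizing κ i with
  | H S ih =>
    have hS : insert i (S.erase i) = S := insert_erase hi
    have h1 := SA_rec m κ f (notMem_erase i S)
    rw [hS] at h1
    rw [h1, Ham_rec m f hi, ← card_erase_add_one hi]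
    have h2 : ∑ j ∈ S.erase i, m i j * SA m (fun p => κ p + m p i) f (S.erase i) j =
        ∑ j ∈ S.erase i, m i j * ((-1) ^ (S.erase i).card * Ham m f (S.erase i) j) := by
      refine sum_congr rfl fun j hj => ?_
      rw [ih (S.erase i) (erase_ssubset hi) _ hj]
    rw [h2]
    have h3 : ∑ j ∈ S.erase i, m i j * ((-1) ^ (S.erase i).card * Ham m f (S.erase i) j) =
        (-1) ^ (S.erase i).card * ∑ j ∈ S.erase i, m i j * Ham m f (S.erase i) j := by
      rw [mul_sum]
      exact sum_congr rfl fun j _ => by ring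
    rw [h3]
    split_ifs with h4
    · rw [h4, GF_empty, card_empty, sum_empty]
      ring
    · have h5 : GF m (fun p => κ p + m p i) (S.erase i) = 0 :=
        forest m _ (nonempty_iff_ne_empty.2 h4)
      rw [h5, pow_succ]
      ring

/-- **(I)**: the identity of Hamiltonian paths. -/
theorem ham_id (m : ι → ι → R) (κ g f : ι → R) (S : Finset ι) :
    ∑ T ∈ S.powerset, (-1) ^ T.card * (∑ i : T, ∑ j : T, g i * (NM m κ T).adjugate i j * f j) *
        ∏ q ∈ S \ T, (κ q + ∑ p ∈ T, m q p) =
      (-1) ^ S.card * ∑ i ∈ S, g i * Ham m f S i := by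
  have h1 : ∀ T ∈ S.powerset, (-1) ^ T.card *
      (∑ i : T, ∑ j : T, g i * (NM m κ T).adjugate i j * f j) *
        ∏ q ∈ S \ T, (κ q + ∑ p ∈ T, m q p) =
      ∑ i ∈ S, g i * ((-1) ^ T.card * AF m κ f T i * ∏ q ∈ S \ T, (κ q + ∑ p ∈ T, m q p)) := by
    intro T hT
    rw [AF_sum, mul_sum, sum_mul]
    rw [← sum_subset (mem_powerset.1 hT)]
    · exact sum_congr rfl fun i _ => by ring
    · intro i _ hi
      rw [AF_of_not _ _ _ hi]
      ring
  rw [sum_congr rfl h1, sum_comm, mul_sum]
  refine sum_congr rfl fun i hi => ?_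
  rw [← mul_sum]
  have h2 := SA_eq m κ f hi
  rw [SA] at h2
  rw [h2]
  ring

/-- The right side of `j = 1` in terms of the paths: `GQ = (-1) ^ #S * ∑ (q ∈ S) e_q a_q Ham (e s) a`. -/
theorem GQ_eq (s : ι → ι → ZMod 3) (e a : ι → ZMod 3) (S : Finset ι) :
    GQ s e a S = (-1) ^ S.card * ∑ i ∈ S, e i * a i * Ham (fun i p => s i p * e p) a S i := by
  rw [← ham_id (fun i p => s i p * e p) 0 (fun i => e i * a i) a S, GQ]
  refine sum_congr rfl fun T _ => ?_
  have h1 : ∑ i : T, ∑ j : T, e i * a i * (NM (fun i p => s i p * e p) 0 T).adjugate i j * a j =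
      (∑ q ∈ T, e q * a q) * CZ (fun i p => s i p * e p) a T := by
    rw [CZ, ← sum_coe_sort T (fun q => e q * a q), sum_mul_sum]
    refine sum_congr rfl fun i _ => sum_congr rfl fun j _ => ?_
    rw [adj_row (NM_mulVec_one _ T) i j j]
    ring
  rw [h1]
  simp only [Pi.zero_apply, zero_add]

end Pool.Agent.Lib.MP_1a91b9_ntK
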