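import Pool.Agent.Lib.MP_1a91b9_ntK.A.Phi0

/-!
# Cubic twists, part A, file PsiC: the class `j = 2` (`√-3 ^ 2` divides `D` exactly)

`PsC k z = ∑_(u v : ZMod 3) ω^(-k u + v) E1 (z + u / 3 + v T0)`, the character sum over the `3`-torsion. With `η = y0 √-3` and
`t = ω^k X (1/3)`: `PsC k z ^ 3 = -(27 / 2) Ω³ (Y (3 z) - 2 η t² X (3 z) - η)`. So the residue of `PsC k z / (3 Ω kapC)`,
`kapC ^ 3 = - η / 2`, is `1` when `3 z = 1 / 3 + Q`, `Q` of order prime to `3`, `Q ≠ 0`, and `-1` for `z = 1 / 9`.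
-/

set_option autoImplicit false

namespace Pool.Agent.Lib.MP_1a91b9_ntK

open NumberField IsDedekindDomain Pool.Agent.Lib.MP_1a91b9_ntT Pool.Agent.Lib.MP_1a91b9_ntG
  Pool.Agent.Lib.MP_1a91b9_ntH

noncomputable section

/-- `y0 √-3` -/
def eta : ℂ := y0 * sq3

theorem eta_sq : eta ^ 2 = -3 := by
  rw [eta, mul_pow, y0_sq, sq3_sq, one_mul]

theorem eta_ne : eta ≠ 0 := mul_ne_zero y0_ne sq3_ne

/-- `Y (√-3 z)` -/
theorem Y_s3mul {z : ℂ} (hs : sq3 * z ∉ PP.lattice) (h2 : 2 * (sq3 * z) ∉ PP.lattice) :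
    3 * sq3 * S3.X z ^ 3 * S3.Y (sq3 * z) = -(S3.Y z * (S3.X z ^ 3 - 2)) := by
  have hz := notMem_of_s3 hs
  have hY := S3.Y_sq hz
  have h2z : 2 * z ∉ PP.lattice := by
    intro h
    apply h2
    have h1 := s3_mul_mem h
    rwa [show sq3 * (2 * z) = 2 * (sq3 * z) by ring] at h1
  have a1 : 2 * (zt * z) ∉ PP.lattice := by
    intro h
    apply h2z
    apply S3.zt_mul_mem.1
    rwa [show zt * (2 * z) = 2 * (zt * z) by ring]
  have a2 : 2 * -(zt * (zt * z)) ∉ PP.lattice := by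
    intro h
    apply h2z
    apply S3.zt_mul_mem.1
    apply S3.zt_mul_mem.1
    have h1 := neg_mem h
    rwa [show -(2 * -(zt * (zt * z))) = zt * (zt * (2 * z)) by ring] at h1
  have a3 : zt * z - -(zt * (zt * z)) ∉ PP.lattice := by
    intro h
    apply hz
    have h1 := neg_mem h
    rwa [show -(zt * z - -(zt * (zt * z))) = z by linear_combination (-z) * S3.zt_quad] at h1
  have e4 : zt * z + -(zt * (zt * z)) = sq3 * z := by
    rw [sq3]
    linear_combination (-z) * S3.zt_quad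
  have a4 : zt * z + -(zt * (zt * z)) ∉ PP.lattice := by
    rwa [e4]
  have a5 : 2 * (zt * z + -(zt * (zt * z))) ∉ PP.lattice := by
    rwa [e4]
  have h3 := Rq.slope a1 a2 a3 a4
  have h4 := Rq.third a1 (S3.notMem_of_two_mul a2) a5
  rw [e4] at h3 h4
  simp only [Rq.X_neg, Rq.X_zt, Rq.Y_neg, Rq.Y_zt] at h3 h4
  have h6 := X_s3 hs
  have hx := X_ne_of_s3 hs
  set L := Rq.ev (sq3 * z) - Rq.ev (zt * z) - Rq.ev (-(zt * (zt * z))) with hL
  set x := S3.X z with hxx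
  set y := S3.Y z with hy
  have hq := S3.zt_quad
  have h5 : sq3 * x * L = y := by
    rw [sq3]
    linear_combination (1 / 2) * h3 + x * L * hq
  have hs3 := sq3_sq
  have hz2 : 2 * zt = sq3 - 1 := by
    rw [sq3]
    ring
  -- `Y' = - y + 2 L (zt x - X')`
  have h7 : sq3 * x * S3.Y (sq3 * z) = -(sq3 * x * y) + 2 * y * (zt * x - S3.X (sq3 * z)) := by
    rw [h4]
    linear_combination 2 * (zt * x - S3.X (sq3 * z)) * h5
  have h8 : x ^ 3 * (3 * sq3 * S3.Y (sq3 * z)) = x ^ 2 * (3 * (sq3 * x * S3.Y (sq3 * z))) := by ring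
  have h9 : 3 * sq3 * x ^ 3 * S3.Y (sq3 * z) = -(y * (x ^ 3 - 2)) := by
    linear_combination 3 * x ^ 2 * h7 + 3 * x ^ 3 * y * hz2 - 2 * y * h6
  exact h9

/-- translation by `T0` -/
theorem X_T0_add {z : ℂ} (hs : sq3 * z ∉ PP.lattice) (h2 : 2 * z ∉ PP.lattice) :
    S3.X (z + T0) * (S3.Y z + y0) = -2 * y0 * S3.X z := by
  have h1 : z - T0 ∉ PP.lattice := by
    intro h
    apply hs
    have h1 := add_mem (s3_mul_mem h) T0_mem
    rwa [show sq3 * (z - T0) + sq3 * T0 = sq3 * z by ring] at h1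
  have h3 : z + T0 ∉ PP.lattice := by
    intro h
    apply hs
    have h1 := sub_mem (s3_mul_mem h) T0_mem
    rwa [show sq3 * (z + T0) - sq3 * T0 = sq3 * z by ring] at h1
  have h4 := Rq.slope h2 three_T0 h1 h3
  have h5 := Rq.sq (S3.notMem_of_two_mul h2) T0_notMem h3
  have hx := X_ne_of_s3 hs
  have hY := S3.Y_sq (notMem_of_s3 hs)
  have hy0 : S3.Y T0 = y0 := rfl
  have hy1 := y0_sq
  rw [X_T0, hy0] at h4
  rw [X_T0] at h5
  set L := Rq.ev (z + T0) - Rq.ev z - Rq.ev T0 with hL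
  set x := S3.X z with hxx
  set y := S3.Y z with hy
  have h6 : 4 * x ^ 2 * (S3.X (z + T0) * (y + y0)) = 4 * x ^ 2 * (-2 * y0 * x) := by
    linear_combination (-4 * x ^ 2 * (y + y0)) * h5 + (2 * x * L + y - y0) * (y + y0) * h4 +
      (y - y0) * hY - (y - y0) * hy1
  exact mul_left_cancel₀ (mul_ne_zero (by norm_num) (pow_ne_zero 2 hx)) h6

/-- the ordinate of `1 / 3` -/
theorem Y_third : S3.Y (1 / 3) = eta := by
  have e : sq3 * (1 / 3) = -T0 := by
    rw [T0]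
    have hs := sq3_ne
    field_simp
    linear_combination sq3_sq
  have h1 : sq3 * (1 / 3) ∉ PP.lattice := by
    rw [e]
    exact fun h => T0_notMem (neg_mem_iff.1 h)
  have h2 : 2 * (sq3 * (1 / 3)) ∉ PP.lattice := by
    rw [e]
    intro h
    apply three_T0
    have h3 := neg_mem h
    rwa [show -(2 * -T0) = 2 * T0 by ring] at h3
  have h := Y_s3mul h1 h2
  rw [e, Rq.Y_neg, S3.X_third_cube] at h
  have hy : S3.Y T0 = y0 := rfl
  rw [hy] at h
  rw [eta]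
  linear_combination (-1 / 3) * h

theorem third_mem3 : 3 * (1 / 3 : ℂ) ∈ PP.lattice := by
  rw [show 3 * (1 / 3 : ℂ) = 1 by norm_num]
  exact S3.one_mem

/-- the conditions on the point -/
structure Gen6 (z : ℂ) : Prop where
  h6 : 6 * z ∉ PP.lattice

theorem Gen6.two {z : ℂ} (h : Gen6 z) : 2 * z ∉ PP.lattice := by
  intro hh
  apply h.h6
  have h1 := S3.mul_int_mem hh 3
  rwa [show ((3 : ℤ) : ℂ) * (2 * z) = 6 * z by push_cast; ring] at h1

theorem Gen6.three {z : ℂ} (h : Gen6 z) : 3 * z ∉ PP.lattice := by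
  intro hh
  apply h.h6
  have h1 := S3.mul_int_mem hh 2
  rwa [show ((2 : ℤ) : ℂ) * (3 * z) = 6 * z by push_cast; ring] at h1

theorem Gen6.s3 {z : ℂ} (h : Gen6 z) : sq3 * z ∉ PP.lattice := by
  intro hh
  apply h.three
  have h1 := neg_mem (s3_mul_mem hh)
  rwa [show -(sq3 * (sq3 * z)) = 3 * z by linear_combination (-z) * sq3_sq] at h1

theorem Gen6.one {z : ℂ} (h : Gen6 z) : z ∉ PP.lattice := notMem_of_s3 h.s3

/-- points of order dividing `3` may be added -/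
theorem Gen6.add {z t : ℂ} (h : Gen6 z) (ht : 3 * t ∈ PP.lattice) : Gen6 (z + t) := by
  refine ⟨fun hh => h.h6 ?_⟩
  have h1 := sub_mem hh (S3.mul_int_mem ht 2)
  rwa [show 6 * (z + t) - ((2 : ℤ) : ℂ) * (3 * t) = 6 * z by push_cast; ring] at h1

theorem Gen6.sub {z t : ℂ} (h : Gen6 z) (ht : 3 * t ∈ PP.lattice) : Gen6 (z - t) := by
  rw [sub_eq_add_neg]
  refine h.add ?_
  have h1 := neg_mem ht
  rwa [show -(3 * t) = 3 * -t by ring] at h1

/-- the function `(Y + η) / X` -/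
def Gz (z : ℂ) : ℂ := (S3.Y z + eta) / S3.X z

theorem Gz_add {l : ℂ} (hl : l ∈ PP.lattice) (z : ℂ) : Gz (z + l) = Gz z := by
  rw [Gz, Gz, S3.X_add hl, Rq.Y_add hl]

theorem Gz_X {z : ℂ} (h : Gen6 z) : S3.X z ≠ 0 := X_ne_of_s3 h.s3

/-- the basic relation -/
theorem Gz_rel {z : ℂ} (h : Gen6 z) :
    (S3.Y z - eta) * (S3.Y (z - 1 / 3) + eta) = -12 * X0 * S3.X z * S3.X (z - 1 / 3) := by
  have h3 := h.sub third_mem3
  have h4 := h.add third_mem3
  have hY := S3.Y_sq h.one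
  have he := eta_sq
  have hX0 := X0_cube
  have m1 : 2 * -(1 / 3 : ℂ) ∉ PP.lattice := by
    intro hh
    apply S3.two_third_notMem
    have h1 := neg_mem hh
    rwa [show -(2 * -(1 / 3 : ℂ)) = 2 * (1 / 3) by ring] at h1
  have m2 : z - -(1 / 3) ∉ PP.lattice := by
    rw [sub_neg_eq_add]
    exact h4.one
  have e0 : z + -(1 / 3) = z - 1 / 3 := by ring
  have m3 : z + -(1 / 3) ∉ PP.lattice := by
    rw [e0]
    exact h3.one
  have m4 : 2 * (z + -(1 / 3)) ∉ PP.lattice := by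
    rw [e0]
    exact h3.two
  have a1 := Rq.slope h.two m1 m2 m3
  have a2 := Rq.sq h.one (S3.notMem_of_two_mul m1) m3
  have a3 := Rq.third h.two (S3.notMem_of_two_mul m1) m4
  rw [Rq.X_neg, Rq.Y_neg, Y_third, e0] at a1
  rw [Rq.X_neg, e0] at a2
  rw [e0] at a3
  have eX : S3.X (1 / 3) = X0 := rfl
  rw [eX] at a1 a2
  have hD : S3.X z - X0 ≠ 0 := by
    intro hh
    rw [hh, zero_mul] at a1
    apply m2
    refine Rq.uniq m1 h.one ?_ ?_
    · rw [Rq.X_neg, eX]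
      linear_combination hh
    · rw [Rq.Y_neg, Y_third]
      linear_combination -a1
  set L := Rq.ev (z - 1 / 3) - Rq.ev z - Rq.ev (-(1 / 3)) with hL
  set x := S3.X z with hx
  set y := S3.Y z with hy
  set x3 := S3.X (z - 1 / 3) with hx3
  have hq : (y - eta) * (2 * L) = 4 * (x ^ 2 + X0 * x + X0 ^ 2) := by
    apply mul_left_cancel₀ hD
    linear_combination (y - eta) * a1 + hY - he + 4 * hX0
  rw [a3]
  linear_combination (x - x3) * hq + 4 * (x - X0) ^ 2 * a2 - (2 * L * (x - X0) + (y + eta)) * a1 -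
    2 * hY - 2 * he + 4 * hX0

/-- `X (√-3 z) G (z - 1/3) = X0 G z` -/
theorem Gz_sub {z : ℂ} (h : Gen6 z) : S3.X (sq3 * z) * Gz (z - 1 / 3) = X0 * Gz z := by
  have h3 := h.sub third_mem3
  have hx := Gz_X h
  have hx3 := Gz_X h3
  have h1 := Gz_rel h
  have h2 := Y_s3 h.s3
  have he := eta_sq
  rw [Gz, Gz, mul_div_assoc', mul_div_assoc', div_eq_div_iff hx3 hx]
  apply mul_left_cancel₀ (mul_ne_zero (show (-12 : ℂ) ≠ 0 by norm_num) hx)
  linear_combination (S3.Y z + eta) * h1 - (S3.Y (z - 1 / 3) + eta) * h2 + (S3.Y (z - 1 / 3) + eta) * he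

/-- `X (√-3 z + T0) G (z + 1/3) = X0 G (z - 1/3)` -/
theorem Gz_add_third {z : ℂ} (h : Gen6 z) : S3.X (sq3 * z + T0) * Gz (z + 1 / 3) = X0 * Gz (z - 1 / 3) := by
  have h3 := h.sub third_mem3
  have h1 := Gz_sub h3
  have e1 : sq3 * (z - 1 / 3) = sq3 * z + T0 := by
    rw [T0]
    have hs := sq3_ne
    field_simp
    linear_combination -sq3_sq
  have e2 : Gz (z - 1 / 3 - 1 / 3) = Gz (z + 1 / 3) := by
    have h4 := Gz_add (neg_mem S3.one_mem) (z + 1 / 3)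
    rw [← h4]
    congr 1
    ring
  rw [e1, e2] at h1
  exact h1

/-- `G³` -/
theorem Gz_cube {z : ℂ} (h : Gen6 z) : Gz z ^ 3 = 4 * sq3 ^ 3 * (S3.Y (sq3 * z) - y0) := by
  have hx := Gz_X h
  have h2 : 2 * (sq3 * z) ∉ PP.lattice := by
    intro hh
    apply h.h6
    have h1 := neg_mem (s3_mul_mem hh)
    rwa [show -(sq3 * (2 * (sq3 * z))) = 6 * z by linear_combination (-2 * z) * sq3_sq] at h1
  have h1 := Y_s3mul h.s3 h2
  have hY := S3.Y_sq h.one
  have he : eta = y0 * sq3 := rfl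
  have hs := sq3_sq
  have he2 := eta_sq
  rw [Gz, div_pow, div_eq_iff (pow_ne_zero 3 hx)]
  set x := S3.X z with hxx
  set y := S3.Y z with hy
  linear_combination (y + 3 * eta) * hY + (3 * y + eta) * he2 + 4 * h1 + 12 * x ^ 3 * he -
    4 * x ^ 3 * sq3 * (S3.Y (sq3 * z) - y0) * hs

/-- the polynomial identity -/
theorem PsiC_poly {x y t e : ℂ} (hY : y ^ 2 = 4 * x ^ 3 + 1) (ht : t ^ 3 = -1) (he : e ^ 2 = 1) :
    (2 * x ^ 2 + 2 * t * x - t ^ 2 - e * t ^ 2 * y) ^ 3 =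
      (y + e) * (2 * y * (x ^ 3 - 2) - 12 * e * t ^ 2 * x * (x ^ 3 + 1) + 18 * e * x ^ 3) := by
  linear_combination (-2 * x ^ 3 + 6 * x ^ 2 * t ^ 4 * e ^ 2 + 6 * x * t ^ 5 * e ^ 2 - y * t ^ 6 * e ^ 3 - 3 * t ^ 6 * e ^ 2 + 4) * hY +
    (24 * x ^ 5 * t * e ^ 2 + 24 * x ^ 4 * t ^ 2 * e ^ 2 - 4 * x ^ 3 * y * t ^ 3 * e ^ 3 + 4 * x ^ 3 * y * e ^ 3 -
      24 * x ^ 3 * y * e - 12 * x ^ 3 * t ^ 3 * e ^ 2 + 12 * x ^ 3 * e ^ 2 - 16 * x ^ 3 + 6 * x ^ 2 * t * e ^ 2 -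
      6 * x ^ 2 * t + 12 * x * y * t ^ 2 * e + 6 * x * t ^ 2 * e ^ 2 + 6 * x * t ^ 2 - y * t ^ 3 * e ^ 3 -
      3 * y * t ^ 3 * e + y * e ^ 3 + 3 * y * e - 3 * t ^ 3 * e ^ 2 - t ^ 3 + 3 * e ^ 2 + 1) * ht +
    (-24 * x ^ 5 * t - 12 * x ^ 4 * t ^ 2 - 4 * x ^ 3 * y * e - 30 * x ^ 3 - 6 * x ^ 2 * t + 6 * x * t ^ 2 - y * e - 3) * he

/-- **the cube of the sum** -/
theorem Gz_main {z : ℂ} (h : Gen6 z) {κ : ℂ} (hκ : κ ^ 3 = 1) :
    (Gz z + κ ^ 2 * Gz (z + 1 / 3) + κ * Gz (z - 1 / 3)) ^ 3 =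
      108 * (S3.Y (3 * z) - 2 * eta * (κ * X0) ^ 2 * S3.X (3 * z) - eta) := by
  have e3 : 3 * z = -(sq3 * (sq3 * z)) := by linear_combination z * sq3_sq
  have hs3 : sq3 * (sq3 * z) ∉ PP.lattice := by
    intro hh
    apply h.three
    rw [e3]
    exact neg_mem hh
  have h2 : 2 * (sq3 * z) ∉ PP.lattice := by
    intro hh
    apply h.h6
    have h1 := neg_mem (s3_mul_mem hh)
    rwa [show -(sq3 * (2 * (sq3 * z))) = 6 * z by linear_combination (-2 * z) * sq3_sq] at h1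
  have h2' : 2 * (sq3 * (sq3 * z)) ∉ PP.lattice := by
    intro hh
    apply h.h6
    have h1 := neg_mem hh
    rwa [show -(2 * (sq3 * (sq3 * z))) = 6 * z by linear_combination (-2 * z) * sq3_sq] at h1
  have hx := X_ne_of_s3 hs3
  have r1 := Gz_sub h
  have r2 := Gz_add_third h
  have r3 := X_T0_add hs3 h2
  have r4 := Gz_cube h
  have r5 := X_s3 hs3
  have r6 := Y_s3mul hs3 h2'
  have hY := S3.Y_sq (notMem_of_s3 hs3)
  rw [e3, Rq.X_neg, Rq.Y_neg]
  have he : eta = y0 * sq3 := rfl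
  have hs := sq3_sq
  have hy0 := y0_sq
  have ht : (κ * X0) ^ 3 = -1 := by
    rw [mul_pow, hκ, X0_cube, one_mul]
  set x := S3.X (sq3 * z) with hxx
  set y := S3.Y (sq3 * z) with hyy
  set A := Gz z with hA
  set B := Gz (z + 1 / 3) with hB
  set C := Gz (z - 1 / 3) with hC
  set XP := S3.X (sq3 * (sq3 * z)) with hXP
  set YP := S3.Y (sq3 * (sq3 * z)) with hYP
  set t := κ * X0 with htt
  set N := 2 * x ^ 2 + 2 * t * x - t ^ 2 - y0 * t ^ 2 * y with hN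
  -- `2 x² B`
  have b1 : -2 * y0 * x ^ 2 * B = X0 ^ 2 * A * (y + y0) := by
    linear_combination (-(x * B)) * r3 + x * (y + y0) * r2 + X0 * (y + y0) * r1
  have b2 : 2 * x ^ 2 * B = -(y0 * X0 ^ 2 * A * (y + y0)) := by
    linear_combination (-y0) * b1 - 2 * x ^ 2 * B * hy0
  have s1 : 2 * x ^ 2 * (A + κ ^ 2 * B + κ * C) = A * N := by
    rw [hN, htt]
    linear_combination κ ^ 2 * b2 + 2 * κ * x * r1 - κ ^ 2 * X0 ^ 2 * A * hy0
  have s2 : 8 * x ^ 6 * (A + κ ^ 2 * B + κ * C) ^ 3 = 4 * sq3 ^ 3 * (y - y0) * N ^ 3 := by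
    have h1 : (2 * x ^ 2 * (A + κ ^ 2 * B + κ * C)) ^ 3 = A ^ 3 * N ^ 3 := by
      rw [s1, mul_pow]
    rw [r4] at h1
    linear_combination h1
  have s3 : N ^ 3 = (y + y0) * (2 * y * (x ^ 3 - 2) - 12 * y0 * t ^ 2 * x * (x ^ 3 + 1) + 18 * y0 * x ^ 3) :=
    PsiC_poly hY ht hy0
  have s4 : 2 * y * (x ^ 3 - 2) - 12 * y0 * t ^ 2 * x * (x ^ 3 + 1) + 18 * y0 * x ^ 3 =
      6 * sq3 * x ^ 3 * (-YP - 2 * eta * t ^ 2 * XP - eta) := by
    rw [he]
    linear_combination 2 * r6 - 12 * y0 * t ^ 2 * x * r5 + (-12 * y0 * t ^ 2 * x ^ 3 * XP - 6 * y0 * x ^ 3) * hs * (-1)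
  have s5 : 8 * x ^ 6 * (A + κ ^ 2 * B + κ * C) ^ 3 =
      8 * x ^ 6 * (108 * (-YP - 2 * eta * t ^ 2 * XP - eta)) := by
    rw [s2, s3, s4]
    set g := -YP - 2 * eta * t ^ 2 * XP - eta with hg
    linear_combination (24 * sq3 ^ 4 * x ^ 3 * g) * (hY - hy0) + 96 * x ^ 6 * g * (sq3 ^ 2 - 3) * hs
  exact mul_left_cancel₀ (mul_ne_zero (by norm_num) (pow_ne_zero 6 hx)) s5

/-! ### The character sum over the `3`-torsion -/

/-- the character sum of `E1` over the `3`-torsion, `j = 2` -/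
def PsC (k : ZMod 3) (z : ℂ) : ℂ := ∑ u : ZMod 3, e3 (-(k * u)) * Phz zt (z + (u.val : ℂ) / 3)

theorem e3_cube (k : ZMod 3) : e3 k ^ 3 = 1 := by
  have h : k + k + k = 0 := by
    revert k
    decide
  rw [pow_succ, pow_two, ← e3_add, ← e3_add, h, e3_zero]

theorem PsC_eq (k : ZMod 3) {z : ℂ} (h : Gen6 z) :
    PsC k z = -Om / 2 * (Gz z + e3 k ^ 2 * Gz (z + 1 / 3) + e3 k * Gz (z - 1 / 3)) := by
  have hsum : ∀ f : ZMod 3 → ℂ, ∑ x : ZMod 3, f x = f 0 + f 1 + f 2 := fun f => Fin.sum_univ_three f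
  have h0 : (((0 : ZMod 3).val : ℕ) : ℂ) = 0 := by
    have h : (0 : ZMod 3).val = 0 := rfl
    rw [h]
    simp
  have h1 : (((1 : ZMod 3).val : ℕ) : ℂ) = 1 := by
    have h : (1 : ZMod 3).val = 1 := rfl
    rw [h]
    simp
  have h2 : (((2 : ZMod 3).val : ℕ) : ℂ) = 2 := by
    have h : (2 : ZMod 3).val = 2 := rfl
    rw [h]
    simp
  have k0 : -(k * 0) = 0 := by
    revert k
    decide
  have k1 : -(k * 1) = k + k := by
    revert k
    decide
  have k2 : -(k * 2) = k := by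
    revert k
    decide
  have hG : ∀ {w : ℂ}, Gen6 w → Phz zt w = -Om / 2 * Gz w := by
    intro w hw
    rw [Phz_zt hw.s3, Gz, eta]
    have hx := Gz_X hw
    field_simp
  have e2 : Phz zt (z + 2 / 3) = Phz zt (z - 1 / 3) := by
    rw [show z + 2 / 3 = z - 1 / 3 + 1 by ring, Phz_add zt S3.one_mem]
  rw [PsC, hsum, h0, h1, h2, k0, k1, k2, e3_zero, e3_add, zero_div, add_zero, e2, hG h,
    hG (h.add third_mem3), hG (h.sub third_mem3)]
  ring

/-- **the cube of the character sum** -/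
theorem PsC_cube (k : ZMod 3) {z : ℂ} (h : Gen6 z) :
    PsC k z ^ 3 = -(27 / 2) * Om ^ 3 * (S3.Y (3 * z) - 2 * eta * (e3 k * X0) ^ 2 * S3.X (3 * z) - eta) := by
  rw [PsC_eq k h, mul_pow, Gz_main h (e3_cube k)]
  ring

/-- the constant of the class `j = 2` -/
def kapC : ℂ := (-eta / 2) ^ (((3 : ℕ) : ℂ)⁻¹)

theorem kapC_cube : kapC ^ 3 = -eta / 2 := Complex.cpow_nat_inv_pow _ (by norm_num)

theorem kapC_ne : kapC ≠ 0 := by
  intro h
  have h1 := kapC_cube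
  rw [h] at h1
  have h2 := eta_ne
  apply h2
  have h3 : eta = -2 * (-eta / 2) := by ring
  rw [h3, ← h1]
  norm_num

theorem PsC_div_cube (k : ZMod 3) {z : ℂ} (h : Gen6 z) :
    (PsC k z / (3 * Om * kapC)) ^ 3 = S3.Y (3 * z) / eta - 2 * (e3 k * X0) ^ 2 * S3.X (3 * z) - 1 := by
  have hO := Om_ne_zero
  have hk := kapC_ne
  have he := eta_ne
  have e1 : (3 * Om * kapC) ^ 3 = 27 * Om ^ 3 * (-eta / 2) := by
    rw [← kapC_cube]
    ring
  rw [div_pow, PsC_cube k h, e1]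
  field_simp

section

variable {A : ValuationSubring ℂ}

/-- cube roots modulo the maximal ideal -/
theorem Rt_of_cube (hA : Three A) {w : ℂ} (h : A.valuation (w ^ 3 - 1) < 1) : Rt A w 1 := by
  have h3 := v_three_lt hA
  have hw : A.valuation w = 1 := by
    have h1 : A.valuation (w ^ 3 - 1 + 1) = A.valuation (1 : ℂ) := by
      rw [Valuation.map_add_eq_of_lt_right]
      rwa [map_one]
    rw [sub_add_cancel, map_pow, map_one] at h1
    exact (pow_eq_one_iff_of_nonneg zero_le (by norm_num)).1 h1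
  have hw1 : A.valuation (w - 1) ≤ 1 := by
    refine A.valuation.map_sub_le hw.le ?_
    rw [map_one]
  refine Rt.congr Rt.one ?_
  by_contra hc
  push Not at hc
  have h5 : 1 ≤ A.valuation (w - 1) ^ 3 := one_le_pow₀ hc
  have e : (w - 1) ^ 3 = (w ^ 3 - 1) + -(3 * (w * (w - 1))) := by ring
  rw [← map_pow, e] at h5
  have h6 : A.valuation ((w ^ 3 - 1) + -(3 * (w * (w - 1)))) < 1 := by
    refine A.valuation.map_add_lt h ?_
    rw [Valuation.map_neg, map_mul, map_mul, hw, one_mul]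
    exact mul_lt_one_of_lt_of_le h3 hw1
  exact absurd h6 (not_lt.2 h5)

/-- a cube root of `-1` is congruent to `-1` -/
theorem v_root_neg (hA : Three A) {t : ℂ} (ht : t ^ 3 = -1) : A.valuation (t + 1) < 1 := by
  have h1 : A.valuation ((-t) ^ 3 - 1) < 1 := by
    rw [show (-t) ^ 3 - 1 = 0 by linear_combination -ht, map_zero]
    exact zero_lt_one
  have h2 := (Rt_of_cube hA h1).eq hA 1 (map_one r3)
  rw [rt_em_one, show -t - 1 = -(t + 1) by ring, Valuation.map_neg] at h2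
  exact h2

theorem t_cube (k : ZMod 3) : (e3 k * X0) ^ 3 = -1 := by
  rw [mul_pow, e3_cube, X0_cube, one_mul]

/-- **the residue**, when `3 z` is good -/
theorem PsC_good (hA : Three A) (k : ZMod 3) {z : ℂ} (h : Gen6 z) (hs : sq3 * (3 * z) ∉ PP.lattice)
    (h1 : Gd A (3 * z)) (h2 : Gd A (sq3 * (3 * z))) : Rt A (PsC k z / (3 * Om * kapC)) 1 := by
  apply Rt_of_cube hA
  rw [PsC_div_cube k h]
  have hY := v_Y_lt hA hs h1 h2
  have hX := h1.lt hA
  have ht := v_root_neg hA (t_cube k)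
  have htv : A.valuation (e3 k * X0) = 1 := by
    have h := congrArg A.valuation (t_cube k)
    rw [map_pow, Valuation.map_neg, map_one] at h
    exact (pow_eq_one_iff_of_nonneg zero_le (by norm_num)).1 h
  have h2' := v_two3 hA
  set t := e3 k * X0 with htt
  set x := S3.X (3 * z) with hx
  set y := S3.Y (3 * z) with hy
  have e : y / eta - 2 * t ^ 2 * x - 1 - 1 = y / eta + -(2 * (t ^ 2 * (x + 1) - (t + 1) * (t - 1))) := by ring
  rw [e]
  refine A.valuation.map_add_lt ?_ ?_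
  · rw [map_div₀, eta, map_mul, v_y0, one_mul]
    exact (div_lt_one₀ v_sq3_pos).2 hY
  · rw [Valuation.map_neg, map_mul, h2', one_mul]
    refine A.valuation.map_sub_lt ?_ ?_
    · rw [map_mul, map_pow, htv, one_pow, one_mul]
      exact hX
    · rw [map_mul]
      refine mul_lt_one_of_lt_of_le ht ?_
      refine A.valuation.map_sub_le htv.le ?_
      rw [map_one]

theorem good_quot (hA : Three A) {m d : 𝓞 K} (hm : ¬ s3 ∣ m) (hd : ¬ m ∣ d) {P : ℂ}
    (hP : 3 * P = em d / em m) :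
    sq3 * P ∉ PP.lattice ∧ Gd A P ∧ Gd A (sq3 * P) := by
  obtain ⟨_, a2, _, _⟩ := s3_mul_notMem hm hd
  obtain ⟨b1, _⟩ := good_cop hA hm hd
  have e : sq3 * (sq3 * P) = -(em d / em m) := by
    rw [← hP]
    linear_combination P * sq3_sq
  have c1 : sq3 * (sq3 * P) ∉ PP.lattice := by
    rw [e]
    exact fun hh => a2 (neg_mem_iff.1 hh)
  have c0 : sq3 * P ∉ PP.lattice := notMem_of_s3 c1
  have g1 : Gd A (sq3 * P) := by
    refine Gd_of hA c1 ?_
    rw [e, Rq.X_neg, b1.1]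
  exact ⟨c0, Gd_of hA c0 g1.1.le, g1⟩

/-- **the residue**, `S` nonempty -/
theorem psC_res (hA : Three A) (k : ZMod 3) {m c : 𝓞 K} (hm : (3 : 𝓞 K) ∣ m - 1) (hu : ¬ IsUnit m)
    (hc : (3 : 𝓞 K) ∣ c - 1) (hcm : IsCoprime c (3 * m)) :
    Rt A (PsC k (em c / em (9 * m)) / (3 * Om * kapC)) 1 := by
  have hm3 := three_dvd_not hm
  have hc3 := three_dvd_not hc
  have hm0 : em m ≠ 0 := rt_em_ne (by
    rintro rfl
    exact hm3 (dvd_zero _))
  have e9 : em (9 * m) = 9 * em m := by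
    have h1 := rt_em_int 9
    rw [rt_em_mul]
    have h2 : (((9 : ℤ) : 𝓞 K)) = 9 := by norm_num
    rw [h2] at h1
    rw [h1]
    norm_num
  have hmc : ¬ m ∣ c := by
    rintro ⟨b, hb⟩
    apply hu
    obtain ⟨x, y, hxy⟩ := hcm
    refine IsUnit.of_mul_eq_one (x * b + y * 3) ?_
    rw [hb] at hxy
    linear_combination hxy
  have h3P : 3 * (3 * (em c / em (9 * m))) = em c / em m := by
    rw [e9]
    field_simp
    ring
  obtain ⟨a0, a1, a2⟩ := good_quot hA hm3 hmc h3P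
  refine PsC_good hA k ⟨fun h => ?_⟩ a0 a1 a2
  obtain ⟨b, hb⟩ := Half_mem_iff.1 h
  have h4 : 3 * (b * m) = 2 * c := by
    apply Half_em_inj
    rw [rt_em_mul, rt_em_mul, rt_em_mul, hb, e9, rt_em_three, Res_em_two]
    field_simp
    ring
  have h5 : s3 ∣ 2 * c := by
    rw [← h4]
    exact s3_dvd_three.mul_right _
  rcases s3_dvd_mul h5 with h6 | h6
  · have h7 : s3 ∣ (1 : 𝓞 K) := by
      have h8 := dvd_sub s3_dvd_three h6
      have e : (3 : 𝓞 K) - 2 = 1 := by norm_num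
      rwa [e] at h8
    have h9 := r3_eq_zero.2 h7
    rw [map_one] at h9
    exact absurd h9 (by decide)
  · exact hc3 h6

/-- **the residue**, `S` empty -/
theorem psC_one (hA : Three A) (k : ZMod 3) : Rt A (PsC k (1 / 9) / (3 * Om * kapC)) (-1) := by
  have h3 : 3 * (1 / 9 : ℂ) = 1 / 3 := by norm_num
  have h6 : Gen6 (1 / 9 : ℂ) := by
    refine ⟨fun h => S3.two_third_notMem ?_⟩
    rwa [show 6 * (1 / 9 : ℂ) = 2 * (1 / 3) by norm_num] at h
  have h := PsC_div_cube k h6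
  rw [h3, Y_third, div_self eta_ne] at h
  have eX : S3.X (1 / 3) = X0 := rfl
  have hX0 := X0_cube
  rw [eX] at h
  have hk := e3_cube k
  -- the cube is `2 e3 k ^ 2`
  have h1 : (-(PsC k (1 / 9) / (3 * Om * kapC))) ^ 3 - 1 = -(3 * e3 k ^ 2) + (e3 k ^ 2 - 1) := by
    rw [neg_pow, h]
    linear_combination (2 * e3 k ^ 2) * hX0
  have h2 : Rt A (-(PsC k (1 / 9) / (3 * Om * kapC))) 1 := by
    apply Rt_of_cube hA
    rw [h1]
    have hv : A.valuation (e3 k) = 1 := by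
      have h := congrArg A.valuation hk
      rw [map_pow, map_one] at h
      exact (pow_eq_one_iff_of_nonneg zero_le (by norm_num)).1 h
    refine A.valuation.map_add_lt ?_ ?_
    · rw [Valuation.map_neg, map_mul, map_pow, hv, one_pow, mul_one]
      exact v_three_lt hA
    · have h4 : (e3 k ^ 2) ^ 3 - 1 = 0 := by
        linear_combination (e3 k ^ 3 + 1) * hk
      have h5 := (Rt_of_cube hA (w := e3 k ^ 2) (by rw [h4, map_zero]; exact zero_lt_one)).eq hA 1 (map_one r3)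
      rwa [rt_em_one] at h5
  have h7 := Rt.neg h2
  rwa [neg_neg] at h7

end

end

end Pool.Agent.Lib.MP_1a91b9_ntK
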