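import Pool.Agent.Lib.MP_1a91b9_ntK.A.Ind3
import Pool.Agent.Lib.MP_1a91b9_ntK.A.Avg2
import Pool.Agent.Lib.MP_1a91b9_ntK.A.PsiC

/-!
# Cubic twists, part A, file Ind2: the residue class of the normalised value, `j = 2`
-/

set_option autoImplicit false

namespace Pool.Agent.Lib.MP_1a91b9_ntK

open NumberField IsDedekindDomain Pool.Agent.Lib.MP_1a91b9_ntT Pool.Agent.Lib.MP_1a91b9_ntG
open Pool.Agent.Lib.MP_1a91b9_ntH (wO s3 cp s3_sq s3_ne s3_not_isUnit s3_dvd_three)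

noncomputable section

/-- the factor of the normalisation, `j = 2` -/
def N2 : ℂ := 3 * Om * kapC

/-- the normalised value, `j = 2` -/
def nu2 (k : ZMod 3) (e : P3 → ZMod 3) (S : Finset P3) : ℂ :=
  Lj k 2 e S 1 * em (9 * DD3 S) / (N2 * (1 - zt) ^ S.card)

theorem N2_ne : N2 ≠ 0 := mul_ne_zero (mul_ne_zero (by norm_num) Om_ne_zero) kapC_ne

theorem PsJ_two (k : ZMod 3) (z : ℂ) : PsJ k 2 z = PsC k z := by
  rw [PsJ, PsC]
  refine Finset.sum_congr rfl fun u _ => ?_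
  have h1 := Phz_sum 2 (z + (u.val : ℂ) / 3)
  have h2 : e3 (-2) = zt := by
    have h : (-2 : ZMod 3) = 1 := by decide
    rw [h, e3_one]
  rw [h2] at h1
  rw [← h1, Finset.mul_sum]
  refine Finset.sum_congr rfl fun v _ => ?_
  have h3 : -(k * u) - 2 * v = -(k * u) + -(2 * v) := by ring
  rw [h3, e3_add]
  ring

/-- the value of the character at a prime not in `T` -/
theorem Xj_val (k j : ZMod 3) (e : P3 → ZMod 3) {T : Finset P3} {q : P3} (hq : q ∉ T) :
    Xj k j e T q.1 = e3 (kapJ k j q + ∑ p ∈ T, d3.s q p * e p) := by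
  have h1 : Xj k j e T q.1 = thj k j q.1 * ∏ p ∈ T, chq p (e p) q.1 := rfl
  have h2 : ∀ p ∈ T, chq p (e p) q.1 = e3 (d3.s q p * e p) := by
    intro p hp
    have h3 : p ≠ q := fun h => hq (h ▸ hp)
    rw [chq_of_not (P3.not_dvd h3), mul_comm]
    rfl
  rw [h1, Finset.prod_congr rfl h2, e3_add, e3_sum]
  rfl

theorem nine_sdiff {S T : Finset P3} (h : T ⊆ S) :
    em (9 * DD3 S) = em (9 * DD3 T) * ∏ q ∈ S \ T, em q.1 := by
  have h1 : DD3 S = DD3 T * ∏ q ∈ S \ T, q.1 := by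
    rw [DD3, DD3, mul_comm, Finset.prod_sdiff h]
  rw [h1, ← mul_assoc, rt_em_mul, em_prod]

theorem em_nine_ne (S : Finset P3) : em (9 * DD3 S) ≠ 0 :=
  rt_em_ne (mul_ne_zero (by norm_num) (DD3_ne S))

/-- the averaging identity, normalised -/
theorem avg_nu2 (k : ZMod 3) (e : P3 → ZMod 3) (S : Finset P3) {ι : Type} [Fintype ι]
    {c : ι → 𝓞 K} (hc : RepsG 3 (3 * DD3 S) c) :
    ∑ T ∈ S.powerset, (-1) ^ T.card *
        (nu2 k e T * ∏ q ∈ S \ T, ((em q.1 - Xj k 2 e T q.1) / (1 - zt))) =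
      ∑ i, thj k 2 (c i) * (∏ q ∈ S, ((1 - chq q (e q) (c i)) / (1 - zt))) *
        (PsC k (em (c i) / em (9 * DD3 S)) / N2) := by
  have hw : (1 : ℂ) - zt ≠ 0 := one_sub_zt_ne
  have hN := N2_ne
  have hE := em_nine_ne S
  have hwS : (1 - zt) ^ S.card ≠ 0 := pow_ne_zero _ hw
  have h1 : em (9 * DD3 S) / (N2 * (1 - zt) ^ S.card) * (∑ T ∈ S.powerset, (-1) ^ T.card *
        (Lj k 2 e T 1 * ∏ q ∈ S \ T, (1 - Xj k 2 e T q.1 / em q.1))) =
      em (9 * DD3 S) / (N2 * (1 - zt) ^ S.card) * ((em (9 * DD3 S))⁻¹ *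
        ∑ i, thj k 2 (c i) * (∏ q ∈ S, (1 - chq q (e q) (c i))) *
          PsJ k 2 (em (c i) / em (9 * DD3 S))) := by
    rw [avgj k 2 e S hc]
  rw [Finset.mul_sum] at h1
  have e1 : ∀ T ∈ S.powerset, em (9 * DD3 S) / (N2 * (1 - zt) ^ S.card) * ((-1) ^ T.card *
      (Lj k 2 e T 1 * ∏ q ∈ S \ T, (1 - Xj k 2 e T q.1 / em q.1))) =
      (-1) ^ T.card * (nu2 k e T * ∏ q ∈ S \ T, ((em q.1 - Xj k 2 e T q.1) / (1 - zt))) := by
    intro T hT
    rw [Finset.mem_powerset] at hT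
    have h3 : S.card = T.card + (S \ T).card := by
      rw [Finset.card_sdiff_of_subset hT]
      have := Finset.card_le_card hT
      omega
    have h4 : ∏ q ∈ S \ T, em q.1 ≠ 0 := Finset.prod_ne_zero_iff.2 fun q _ => rt_em_ne q.2.1.ne_zero
    have h5 : ∏ q ∈ S \ T, (1 - Xj k 2 e T q.1 / em q.1) =
        (∏ q ∈ S \ T, (em q.1 - Xj k 2 e T q.1)) / ∏ q ∈ S \ T, em q.1 := by
      rw [← Finset.prod_div_distrib]
      refine Finset.prod_congr rfl fun q _ => ?_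
      have h6 := rt_em_ne q.2.1.ne_zero
      field_simp
    rw [h5, nine_sdiff hT, Finset.prod_div_distrib, Finset.prod_const, nu2, h3, pow_add]
    have h7 : (1 - zt) ^ T.card ≠ 0 := pow_ne_zero _ hw
    have h8 : (1 - zt) ^ (S \ T).card ≠ 0 := pow_ne_zero _ hw
    field_simp
  rw [Finset.sum_congr rfl e1] at h1
  rw [h1, ← mul_assoc]
  have e2 : em (9 * DD3 S) / (N2 * (1 - zt) ^ S.card) * (em (9 * DD3 S))⁻¹ =
      (N2 * (1 - zt) ^ S.card)⁻¹ := by
    field_simp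
  rw [e2, Finset.mul_sum]
  refine Finset.sum_congr rfl fun i _ => ?_
  rw [Finset.prod_div_distrib, Finset.prod_const, PsJ_two]
  field_simp

theorem reps_empty : RepsG 3 (3 * DD3 ∅) (fun _ : Unit => (1 : 𝓞 K)) where
  ne := mul_ne_zero (by norm_num) (DD3_ne ∅)
  dvd := dvd_mul_right _ _
  three := dvd_mul_right _ _
  fx _ := by
    rw [sub_self]
    exact dvd_zero _
  cop _ := isCoprime_one_left
  ex a _ h := ⟨(), by rwa [DD3_empty, mul_one]⟩
  inj _ _ _ := rfl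

theorem nu2_empty (k : ZMod 3) (e : P3 → ZMod 3) : nu2 k e ∅ = PsC k (1 / 9) / N2 := by
  have h1 := avg_nu2 k e ∅ reps_empty
  have h2 : thj k 2 1 = 1 := (thj_chr k 2).one
  have h3 : em (1 : 𝓞 K) / em (9 * DD3 ∅) = 1 / 9 := by
    have h9 : em (9 : 𝓞 K) = 9 := by
      have h := rt_em_nat 9
      exact_mod_cast h
    rw [DD3_empty, mul_one, rt_em_one, h9]
  rw [Finset.powerset_empty, Finset.sum_singleton, Finset.card_empty, pow_zero, one_mul,
    Finset.sdiff_self, Finset.prod_empty, mul_one] at h1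
  rw [h1]
  simp only [Finset.univ_unique, Finset.sum_singleton, Finset.prod_empty, mul_one]
  rw [h2, h3, one_mul]

/-- **The residue class of the normalised value is the determinant**, `j = 2`. -/
theorem nu2_res {A : ValuationSubring ℂ} (hA : Three A) (k : ZMod 3)
    {e : P3 → ZMod 3} (S : Finset P3) (he : ∀ q ∈ S, e q ≠ 0) :
    Rt A (nu2 k e S) (-((∏ q ∈ S, e q) * (NJ k 2 e S).det)) := by
  classical
  induction S using Finset.strongInduction with
  | H S ih =>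
  rcases S.eq_empty_or_nonempty with rfl | hS0
  · have h3 : (NJ k 2 e ∅).det = 1 := Matrix.det_isEmpty
    rw [nu2_empty, h3, Finset.prod_empty, mul_one]
    exact psC_one hA k
  have he2 : ∀ q ∈ S, e q * e q = 1 := by
    intro q hq
    have h1 : ∀ t : ZMod 3, t ≠ 0 → t * t = 1 := by decide
    exact h1 _ (he q hq)
  obtain ⟨ι, hι, c, hc⟩ := RepsG.exists_reps (f := (3 : 𝓞 K)) (ν := 3 * DD3 S)
    (mul_ne_zero (by norm_num) (DD3_ne S)) (dvd_mul_right _ _) (dvd_mul_right _ _)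
  have hE := avg_nu2 k e S hc
  have hu : ¬ IsUnit (DD3 S) := by
    obtain ⟨q, hq⟩ := hS0
    intro h
    exact q.2.1.not_isUnit (isUnit_of_dvd_unit (dvd_DD3.2 hq) h)
  -- the right hand side
  have hR : Rt A (∑ i, thj k 2 (c i) * (∏ q ∈ S, ((1 - chq q (e q) (c i)) / (1 - zt))) *
        (PsC k (em (c i) / em (9 * DD3 S)) / N2))
      (∑ i : ι, ∏ q ∈ S, (e q * cq q (c i))) := by
    refine Rt.sum _ fun i _ => ?_
    have h1 : Rt A (∏ q ∈ S, ((1 - chq q (e q) (c i)) / (1 - zt))) (∏ q ∈ S, (e q * cq q (c i))) := by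
      refine Rt.prod _ fun q hq => ?_
      have h2 : ¬ q.1 ∣ c i := by
        intro hd
        have h3 : q.1 ∣ 3 * DD3 S := (Finset.dvd_prod_of_mem (fun p : P3 => p.1) hq).mul_left _
        exact q.2.1.not_isUnit ((hc.cop i).isUnit_of_dvd' hd h3)
      rw [chq_of_not h2]
      exact Rt_diff hA _
    have h2 := psC_res hA k (DD3_three S) hu (hc.fx i) (hc.cop i)
    have h3 := ((Rt_e3 hA (-(k * abar (c i)) + 2 * bbar (c i))).mul h1).mul h2
    rw [one_mul, mul_one] at h3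
    exact h3
  rw [← hE, cnt3 e hS0 hc] at hR
  -- the sum over the proper subsets
  have hD : S ∈ S.powerset := Finset.mem_powerset_self S
  have hS : Rt A (∑ T ∈ S.powerset.erase S, (-1) ^ T.card *
        (nu2 k e T * ∏ q ∈ S \ T, ((em q.1 - Xj k 2 e T q.1) / (1 - zt))))
      (∑ T ∈ S.powerset.erase S, (-1) ^ T.card * ((-((∏ q ∈ T, e q) * (NJ k 2 e T).det)) *
        ∏ q ∈ S \ T, (kapJ k 2 q + ∑ p ∈ T, d3.s q p * e p))) := by
    refine Rt.sum _ fun T hT => ?_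
    rw [Finset.mem_erase, Finset.mem_powerset] at hT
    have h1 : Rt A ((-1) ^ T.card) ((-1) ^ T.card) := (Rt.one.neg).pow _
    refine h1.mul ((ih T (Finset.ssubset_iff_subset_ne.2 ⟨hT.2, hT.1⟩)
      fun q hq => he q (hT.2 hq)).mul (Rt.prod _ fun q hq => ?_))
    rw [Xj_val k 2 e (Finset.mem_sdiff.1 hq).2]
    exact Rt_factor hA q _
  rw [← Finset.add_sum_erase _ _ hD, Finset.sdiff_self, Finset.prod_empty, mul_one] at hR
  have h := hR.sub hS
  rw [add_sub_cancel_right] at h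
  have h1 : Rt A ((-1) ^ S.card) ((-1) ^ S.card) := (Rt.one.neg).pow _
  have h2 := h1.mul h
  have e1 : ((-1 : ℂ)) ^ S.card * ((-1) ^ S.card * nu2 k e S) = nu2 k e S := by
    rw [← mul_assoc, ← mul_pow, neg_one_mul, neg_neg, one_pow, one_mul]
  have e2 : (-1 : ZMod 3) ^ S.card * (0 -
      ∑ T ∈ S.powerset.erase S, (-1) ^ T.card * ((-((∏ q ∈ T, e q) * (NJ k 2 e T).det)) *
        ∏ q ∈ S \ T, (kapJ k 2 q + ∑ p ∈ T, d3.s q p * e p))) =
      -((∏ q ∈ S, e q) * (NJ k 2 e S).det) := by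
    have h3 := forest_exp d3.s (kapJ k 2) e hS0 he2
    rw [← Finset.add_sum_erase _ _ hD, Finset.sdiff_self, Finset.prod_empty, mul_one] at h3
    have h4 : ∑ T ∈ S.powerset.erase S, (-1) ^ T.card * ((-((∏ q ∈ T, e q) * (NJ k 2 e T).det)) *
        ∏ q ∈ S \ T, (kapJ k 2 q + ∑ p ∈ T, d3.s q p * e p)) =
        -∑ T ∈ S.powerset.erase S, (-1) ^ T.card * ((∏ q ∈ T, e q) *
          (NE d3.s (kapJ k 2) e T).det) * ∏ q ∈ S \ T, (kapJ k 2 q + ∑ p ∈ T, d3.s q p * e p) := by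
      rw [← Finset.sum_neg_distrib]
      refine Finset.sum_congr rfl fun T _ => ?_
      rw [NJ]
      ring
    have h5 : (-1 : ZMod 3) ^ S.card * (-1) ^ S.card = 1 := by
      rw [← mul_pow, neg_one_mul, neg_neg, one_pow]
    rw [h4, NJ]
    linear_combination ((-1 : ZMod 3) ^ S.card) * h3 -
      ((∏ q ∈ S, e q) * (NE d3.s (kapJ k 2) e S).det) * h5
  rw [e1, e2] at h2
  exact h2

theorem L2_ne {k : ZMod 3} {e : P3 → ZMod 3} {S : Finset P3} (he : ∀ q ∈ S, e q ≠ 0)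
    (h : (NJ k 2 e S).det ≠ 0) : Lj k 2 e S 1 ≠ 0 := by
  obtain ⟨A, hA⟩ := exists_Three
  have h0 : -((∏ q ∈ S, e q) * (NJ k 2 e S).det) ≠ 0 :=
    neg_ne_zero.2 (mul_ne_zero (Finset.prod_ne_zero_iff.2 he) h)
  have h1 := (nu2_res hA k S he).unit hA h0
  intro h2
  rw [nu2, h2, zero_mul, zero_div, map_zero] at h1
  exact zero_ne_one h1

end

end Pool.Agent.Lib.MP_1a91b9_ntK
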