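import Pool.Agent.Lib.MP_1a91b9_ntK.A.Rhs1
import Pool.Agent.Lib.MP_1a91b9_ntK.A.ForQ
import Pool.Agent.Lib.MP_1a91b9_ntK.A.Ind2

/-!
# Cubic twists, part A, file Ind1: the residue class of the normalised value, `j = 1`
-/

set_option autoImplicit false

namespace Pool.Agent.Lib.MP_1a91b9_ntK

open NumberField IsDedekindDomain Pool.Agent.Lib.MP_1a91b9_ntT Pool.Agent.Lib.MP_1a91b9_ntG
open Pool.Agent.Lib.MP_1a91b9_ntH (wO s3 cp s3_sq s3_ne s3_not_isUnit s3_dvd_three)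

noncomputable section

/-- the normalised value, `j = 1` -/
def nu1 (k : ZMod 3) (e : P3 → ZMod 3) (S : Finset P3) : ℂ :=
  Lj k 1 e S 1 * em (9 * DD3 S) / (N1 * (1 - zt) ^ S.card)

/-- the bordered matrix of `D`, `j = 1` -/
def NJ1 (k : ZMod 3) (e : P3 → ZMod 3) (S : Finset P3) : Matrix (S ⊕ Unit) (S ⊕ Unit) (ZMod 3) :=
  NB d3.s (kapJ k 1) e aP k S

theorem NJ1_eq (k : ZMod 3) (e : P3 → ZMod 3) (S : Finset P3) :
    NJ1 k e S = Matrix.fromBlocks (NJ k 1 e S) (fun i _ => abar (i : P3).1)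
      (fun _ j => abar (j : P3).1) (fun _ _ => k) := rfl

/-- the averaging identity, normalised -/
theorem avg_nu1 (k : ZMod 3) (e : P3 → ZMod 3) (S : Finset P3) {ι : Type} [Fintype ι]
    {c : ι → 𝓞 K} (hc : RepsG 3 (3 * DD3 S) c) :
    ∑ T ∈ S.powerset, (-1) ^ T.card *
        (nu1 k e T * ∏ q ∈ S \ T, ((em q.1 - Xj k 1 e T q.1) / (1 - zt))) =
      (∑ i, thj k 1 (c i) * (∏ q ∈ S, ((1 - chq q (e q) (c i)) / (1 - zt))) *
        PsJ k 1 (em (c i) / em (9 * DD3 S))) / N1 := by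
  have hw : (1 : ℂ) - zt ≠ 0 := one_sub_zt_ne
  have hN := N1_ne
  have hE := em_nine_ne S
  have hwS : (1 - zt) ^ S.card ≠ 0 := pow_ne_zero _ hw
  have h1 : em (9 * DD3 S) / (N1 * (1 - zt) ^ S.card) * (∑ T ∈ S.powerset, (-1) ^ T.card *
        (Lj k 1 e T 1 * ∏ q ∈ S \ T, (1 - Xj k 1 e T q.1 / em q.1))) =
      em (9 * DD3 S) / (N1 * (1 - zt) ^ S.card) * ((em (9 * DD3 S))⁻¹ *
        ∑ i, thj k 1 (c i) * (∏ q ∈ S, (1 - chq q (e q) (c i))) *
          PsJ k 1 (em (c i) / em (9 * DD3 S))) := by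
    rw [avgj k 1 e S hc]
  rw [Finset.mul_sum] at h1
  have e1 : ∀ T ∈ S.powerset, em (9 * DD3 S) / (N1 * (1 - zt) ^ S.card) * ((-1) ^ T.card *
      (Lj k 1 e T 1 * ∏ q ∈ S \ T, (1 - Xj k 1 e T q.1 / em q.1))) =
      (-1) ^ T.card * (nu1 k e T * ∏ q ∈ S \ T, ((em q.1 - Xj k 1 e T q.1) / (1 - zt))) := by
    intro T hT
    rw [Finset.mem_powerset] at hT
    have h3 : S.card = T.card + (S \ T).card := by
      rw [Finset.card_sdiff_of_subset hT]
      have := Finset.card_le_card hT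
      omega
    have h4 : ∏ q ∈ S \ T, em q.1 ≠ 0 := Finset.prod_ne_zero_iff.2 fun q _ => rt_em_ne q.2.1.ne_zero
    have h5 : ∏ q ∈ S \ T, (1 - Xj k 1 e T q.1 / em q.1) =
        (∏ q ∈ S \ T, (em q.1 - Xj k 1 e T q.1)) / ∏ q ∈ S \ T, em q.1 := by
      rw [← Finset.prod_div_distrib]
      refine Finset.prod_congr rfl fun q _ => ?_
      have h6 := rt_em_ne q.2.1.ne_zero
      field_simp
    rw [h5, nine_sdiff hT, Finset.prod_div_distrib, Finset.prod_const, nu1, h3, pow_add]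
    have h7 : (1 - zt) ^ T.card ≠ 0 := pow_ne_zero _ hw
    have h8 : (1 - zt) ^ (S \ T).card ≠ 0 := pow_ne_zero _ hw
    field_simp
  rw [Finset.sum_congr rfl e1] at h1
  rw [h1, ← mul_assoc, Finset.sum_div]
  have e2 : em (9 * DD3 S) / (N1 * (1 - zt) ^ S.card) * (em (9 * DD3 S))⁻¹ =
      (N1 * (1 - zt) ^ S.card)⁻¹ := by
    field_simp
  rw [e2, Finset.mul_sum]
  refine Finset.sum_congr rfl fun i _ => ?_
  rw [Finset.prod_div_distrib, Finset.prod_const]
  field_simp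

theorem nu1_empty (k : ZMod 3) (e : P3 → ZMod 3) : nu1 k e ∅ = PsJ k 1 (1 / 9) / N1 := by
  have h1 := avg_nu1 k e ∅ reps_empty
  have h2 : thj k 1 1 = 1 := (thj_chr k 1).one
  have h3 : em (1 : 𝓞 K) / em (9 * DD3 ∅) = 1 / 9 := by
    have h9 : em (9 : 𝓞 K) = 9 := by
      have h := rt_em_nat 9
      exact_mod_cast h
    rw [DD3_empty, mul_one, rt_em_one, h9]
  rw [Finset.powerset_empty, Finset.sum_singleton, Finset.card_empty, pow_zero, one_mul,
    Finset.sdiff_self, Finset.prod_empty, mul_one] at h1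
  rw [h1]
  simp only [Finset.univ_unique, Finset.sum_singleton, Finset.prod_empty, mul_one]
  rw [h2, h3, one_mul]

/-- **The residue class of the normalised value is the determinant of the bordered matrix**,
`j = 1`. -/
theorem nu1_res {A : ValuationSubring ℂ} (hA : Three A) (k : ZMod 3)
    {e : P3 → ZMod 3} (S : Finset P3) (he : ∀ q ∈ S, e q ≠ 0) :
    Rt A (nu1 k e S) ((∏ q ∈ S, e q) * (NJ1 k e S).det) := by
  classical
  induction S using Finset.strongInduction with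
  | H S ih =>
  rcases S.eq_empty_or_nonempty with rfl | hS0
  · have h3 : (NJ1 k e ∅).det = k := by
      have hB : (fun (i : (∅ : Finset P3)) (_ : Unit) => aP i) = (0 : Matrix _ _ (ZMod 3)) := by
        ext i
        exact absurd i.2 (Finset.notMem_empty _)
      rw [NJ1, NB, hB, Matrix.det_fromBlocks_zero₁₂, Matrix.det_isEmpty, Matrix.det_unique, one_mul]
    rw [nu1_empty, h3, Finset.prod_empty, one_mul]
    exact rhs1_one hA k
  have he2 : ∀ q ∈ S, e q * e q = 1 := by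
    intro q hq
    have h1 : ∀ t : ZMod 3, t ≠ 0 → t * t = 1 := by decide
    exact h1 _ (he q hq)
  obtain ⟨ι, hι, c, hc⟩ := RepsG.exists_reps (f := (3 : 𝓞 K)) (ν := 3 * DD3 S)
    (mul_ne_zero (by norm_num) (DD3_ne S)) (dvd_mul_right _ _) (dvd_mul_right _ _)
  have hE := avg_nu1 k e S hc
  have hR := rhs1 hA k hS0 he hc
  rw [← hE] at hR
  -- the sum over the proper subsets
  have hD : S ∈ S.powerset := Finset.mem_powerset_self S
  have hS : Rt A (∑ T ∈ S.powerset.erase S, (-1) ^ T.card *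
        (nu1 k e T * ∏ q ∈ S \ T, ((em q.1 - Xj k 1 e T q.1) / (1 - zt))))
      (∑ T ∈ S.powerset.erase S, (-1) ^ T.card * (((∏ q ∈ T, e q) * (NJ1 k e T).det) *
        ∏ q ∈ S \ T, (kapJ k 1 q + ∑ p ∈ T, d3.s q p * e p))) := by
    refine Rt.sum _ fun T hT => ?_
    rw [Finset.mem_erase, Finset.mem_powerset] at hT
    have h1 : Rt A ((-1) ^ T.card) ((-1) ^ T.card) := (Rt.one.neg).pow _
    refine h1.mul ((ih T (Finset.ssubset_iff_subset_ne.2 ⟨hT.2, hT.1⟩)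
      fun q hq => he q (hT.2 hq)).mul (Rt.prod _ fun q hq => ?_))
    rw [Xj_val k 1 e (Finset.mem_sdiff.1 hq).2]
    exact Rt_factor hA q _
  rw [← Finset.add_sum_erase _ _ hD, Finset.sdiff_self, Finset.prod_empty, mul_one] at hR
  have h := hR.sub hS
  rw [add_sub_cancel_right] at h
  have h1 : Rt A ((-1) ^ S.card) ((-1) ^ S.card) := (Rt.one.neg).pow _
  have h2 := h1.mul h
  have e1 : ((-1 : ℂ)) ^ S.card * ((-1) ^ S.card * nu1 k e S) = nu1 k e S := by
    rw [← mul_assoc, ← mul_pow, neg_one_mul, neg_neg, one_pow, one_mul]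
  have e2 : (-1 : ZMod 3) ^ S.card * (-GQ d3.s e aP S -
      ∑ T ∈ S.powerset.erase S, (-1) ^ T.card * (((∏ q ∈ T, e q) * (NJ1 k e T).det) *
        ∏ q ∈ S \ T, (kapJ k 1 q + ∑ p ∈ T, d3.s q p * e p))) =
      (∏ q ∈ S, e q) * (NJ1 k e S).det := by
    have h3 := forQ d3.s (kapJ k 1) e aP k hS0 he2
    rw [← Finset.add_sum_erase _ _ hD, Finset.sdiff_self, Finset.prod_empty, mul_one] at h3
    have h4 : ∑ T ∈ S.powerset.erase S, (-1) ^ T.card * (((∏ q ∈ T, e q) * (NJ1 k e T).det) *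
        ∏ q ∈ S \ T, (kapJ k 1 q + ∑ p ∈ T, d3.s q p * e p)) =
        ∑ T ∈ S.powerset.erase S, (-1) ^ T.card * ((∏ q ∈ T, e q) *
          (NB d3.s (kapJ k 1) e aP k T).det) *
            ∏ q ∈ S \ T, (kapJ k 1 q + ∑ p ∈ T, d3.s q p * e p) := by
      refine Finset.sum_congr rfl fun T _ => ?_
      rw [NJ1]
      ring
    have h5 : (-1 : ZMod 3) ^ S.card * (-1) ^ S.card = 1 := by
      rw [← mul_pow, neg_one_mul, neg_neg, one_pow]
    rw [h4, ← h3, NJ1]
    linear_combination ((∏ q ∈ S, e q) * (NB d3.s (kapJ k 1) e aP k S).det) * h5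
  rw [e1, e2] at h2
  exact h2

theorem L1_ne {k : ZMod 3} {e : P3 → ZMod 3} {S : Finset P3} (he : ∀ q ∈ S, e q ≠ 0)
    (h : (NJ1 k e S).det ≠ 0) : Lj k 1 e S 1 ≠ 0 := by
  obtain ⟨A, hA⟩ := exists_Three
  have h0 : (∏ q ∈ S, e q) * (NJ1 k e S).det ≠ 0 :=
    mul_ne_zero (Finset.prod_ne_zero_iff.2 he) h
  have h1 := (nu1_res hA k S he).unit hA h0
  intro h2
  rw [nu1, h2, zero_mul, zero_div, map_zero] at h1
  exact zero_ne_one h1

end

end Pool.Agent.Lib.MP_1a91b9_ntK
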