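import Pool.Agent.Lib.MP_1a91b9_ntK.A.Sys3
import Pool.Agent.Lib.MP_1a91b9_ntK.A.Phi

/-!
# Cubic twists, part A, file PhiC: the residue of `PhC`
-/

set_option autoImplicit false

namespace Pool.Agent.Lib.MP_1a91b9_ntK

open NumberField IsDedekindDomain Pool.Agent.Lib.MP_1a91b9_ntT Pool.Agent.Lib.MP_1a91b9_ntG
open Pool.Agent.Lib.MP_1a91b9_ntH (wO s3 cp Nz)

noncomputable section

theorem phC_res {A : ValuationSubring ℂ} (hA : Three A) {k : ZMod 3} (hk : k ≠ 0) {m c : 𝓞 K}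
    (hm : ¬ s3 ∣ m) (hc : ¬ s3 ∣ c) :
    Rt A (PhC k (em c / em (3 * s3 * m)) / (em s3 * Om * y0)) k := by
  rw [PhC]
  exact Phk_res hA hk hm hc

end

end Pool.Agent.Lib.MP_1a91b9_ntK
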