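import Pool.Agent.Lib.MP_1a91b9_ntK.A.Avg
import Pool.Agent.Lib.MP_1a91b9_ntK.A.Cnt3
import Pool.Agent.Lib.MP_1a91b9_ntK.A.PhiC
import Pool.Agent.Lib.MP_1a91b9_ntK.R.Ring

/-!
# Cubic twists, part A, file Ind3: the residue class of the normalised value, `k ≠ 0`
-/

set_option autoImplicit false

namespace Pool.Agent.Lib.MP_1a91b9_ntK

open NumberField IsDedekindDomain Pool.Agent.Lib.MP_1a91b9_ntT Pool.Agent.Lib.MP_1a91b9_ntG
open Pool.Agent.Lib.MP_1a91b9_ntH (wO s3 cp s3_sq s3_ne s3_not_isUnit s3_dvd_three)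

noncomputable section

/-- the factor of the normalisation -/
def NN : ℂ := em s3 * Om * y0

/-- the normalised value -/
def nuK (k : ZMod 3) (e : P3 → ZMod 3) (S : Finset P3) : ℂ :=
  Lk k e S 1 * em (3 * s3 * DD3 S) / (NN * (1 - zt) ^ S.card)

theorem e3_two : e3 2 = zt ^ 2 := by
  have h : (2 : ZMod 3) = 1 + 1 := by decide
  rw [h, e3_add, e3_one, pow_two]

theorem one_sub_zt_ne : (1 : ℂ) - zt ≠ 0 := sub_ne_zero.2 (Ne.symm S3.zt_ne_one)

theorem zt_three : (3 : ℂ) = (1 - zt) * (1 - zt ^ 2) := by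
  linear_combination S3.zt_quad - S3.zt_cube

theorem DD3_s3 (S : Finset P3) : ¬ s3 ∣ DD3 S := by
  rw [← r3_eq_zero, r3_DD3]
  decide

theorem three_s3 {x : 𝓞 K} (h : (3 : 𝓞 K) ∣ x - 1) : ¬ s3 ∣ x := by
  intro h1
  have h2 : (s3 : 𝓞 K) ∣ x - 1 := s3_dvd_three.trans h
  have h3 : (s3 : 𝓞 K) ∣ 1 := by
    have h4 := dvd_sub h1 h2
    rwa [sub_sub_cancel] at h4
  exact s3_not_isUnit (isUnit_of_dvd_one h3)

section
variable {A : ValuationSubring ℂ}

/-- the third root of unity is congruent to `1` -/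
theorem v_zt_lt (hA : Three A) : A.valuation (1 - zt) < 1 := by
  have h1 : A.valuation zt = 1 := by
    have h2 : A.valuation zt ^ 3 = 1 := by rw [← map_pow, S3.zt_cube, map_one]
    exact (pow_eq_one_iff_of_nonneg zero_le (by norm_num)).1 h2
  have h2 : 1 - zt ^ 2 = (1 - zt) * (1 + zt) := by ring
  have h3 : (3 : ℂ) = (1 - zt) ^ 2 * (1 + zt) := by
    rw [zt_three, h2]
    ring
  have h4 : (1 : ℂ) + zt = -zt ^ 2 := by linear_combination S3.zt_quad
  have h5 : A.valuation (3 : ℂ) = A.valuation (1 - zt) ^ 2 := by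
    rw [h3, h4, map_mul, Valuation.map_neg, map_pow, map_pow, h1, one_pow, mul_one]
  have h6 := v_three_lt hA
  rw [h5] at h6
  by_contra h
  push Not at h
  exact absurd h6 (not_lt.2 (one_le_pow₀ h))

theorem Rt_zt (hA : Three A) : Rt A zt 1 := by
  refine Rt.one.congr ?_
  have e : zt - 1 = -(1 - zt) := by ring
  rw [e, Valuation.map_neg]
  exact v_zt_lt hA

theorem Rt_e3 (hA : Three A) (t : ZMod 3) : Rt A (e3 t) 1 := by
  have h : t = 0 ∨ t = 1 ∨ t = 2 := by
    revert t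
    decide
  rcases h with rfl | rfl | rfl
  · rw [e3_zero]
    exact Rt.one
  · rw [e3_one]
    exact Rt_zt hA
  · rw [e3_two]
    have h1 := (Rt_zt hA).pow 2
    rwa [one_pow] at h1

theorem Rt_diff (hA : Three A) (t : ZMod 3) : Rt A ((1 - e3 t) / (1 - zt)) t := by
  have h : t = 0 ∨ t = 1 ∨ t = 2 := by
    revert t
    decide
  rcases h with rfl | rfl | rfl
  · rw [e3_zero, sub_self, zero_div]
    exact Rt.zero
  · rw [e3_one, div_self one_sub_zt_ne]
    exact Rt.one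
  · have e : (1 - e3 2) / (1 - zt) = 1 + zt := by
      rw [e3_two, div_eq_iff one_sub_zt_ne]
      ring
    rw [e]
    have h1 : (2 : ZMod 3) = 1 + 1 := by decide
    rw [h1]
    exact Rt.one.add (Rt_zt hA)

/-- the factor at the prime `q` -/
theorem Rt_factor (hA : Three A) (q : P3) (t : ZMod 3) :
    Rt A ((em q.1 - e3 t) / (1 - zt)) t := by
  obtain ⟨y, hy⟩ := q.2.2
  have e1 : em q.1 = 1 + (1 - zt) * (1 - zt ^ 2) * em y := by
    have h1 : q.1 = 1 + 3 * y := by linear_combination hy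
    rw [h1, rt_em_add, rt_em_mul, rt_em_one, rt_em_three, ← zt_three]
  have e2 : (em q.1 - e3 t) / (1 - zt) = (1 - zt ^ 2) * em y + (1 - e3 t) / (1 - zt) := by
    have h0 := one_sub_zt_ne
    rw [e1]
    field_simp
    ring
  have h2 : Rt A (1 - zt ^ 2) 0 := by
    have h3 := (Rt.one (A := A)).sub ((Rt_zt hA).pow 2)
    rwa [one_pow, sub_self] at h3
  have h4 := (h2.mul (Rt.of (A := A) y)).add (Rt_diff hA t)
  rw [zero_mul, zero_add] at h4
  rw [e2]
  exact h4

end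

/-- the value of the character at a prime not in `T` -/
theorem Xk_val (k : ZMod 3) (e : P3 → ZMod 3) {T : Finset P3} {q : P3} (hq : q ∉ T) :
    Xk k e T q.1 = e3 (kapK k q + ∑ p ∈ T, d3.s q p * e p) := by
  have h1 : Xk k e T q.1 = th k q.1 * ∏ p ∈ T, chq p (e p) q.1 := rfl
  have h2 : ∀ p ∈ T, chq p (e p) q.1 = e3 (d3.s q p * e p) := by
    intro p hp
    have h3 : p ≠ q := fun h => hq (h ▸ hp)
    rw [chq_of_not (P3.not_dvd h3), mul_comm]
    rfl
  rw [h1, Finset.prod_congr rfl h2, e3_add, e3_sum]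
  rfl

theorem NN_ne : NN ≠ 0 := by
  rw [NN]
  exact mul_ne_zero (mul_ne_zero (rt_em_ne s3_ne) Om_ne_zero) y0_ne

theorem em_prod {α : Type} (T : Finset α) (f : α → 𝓞 K) : em (∏ q ∈ T, f q) = ∏ q ∈ T, em (f q) := by
  classical
  induction T using Finset.induction_on with
  | empty => rw [Finset.prod_empty, Finset.prod_empty, rt_em_one]
  | insert a T ha ih => rw [Finset.prod_insert ha, Finset.prod_insert ha, rt_em_mul, ih]

theorem DD3_sdiff {S T : Finset P3} (h : T ⊆ S) :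
    em (3 * s3 * DD3 S) = em (3 * s3 * DD3 T) * ∏ q ∈ S \ T, em q.1 := by
  have h1 : DD3 S = DD3 T * ∏ q ∈ S \ T, q.1 := by
    rw [DD3, DD3, mul_comm, Finset.prod_sdiff h]
  rw [h1, ← mul_assoc, rt_em_mul, em_prod]

/-- the averaging identity, normalised -/
theorem avg_nuK (k : ZMod 3) (e : P3 → ZMod 3) (S : Finset P3) {ι : Type} [Fintype ι]
    {c : ι → 𝓞 K} (hc : RepsG 3 (3 * DD3 S) c) :
    ∑ T ∈ S.powerset, (-1) ^ T.card *
        (nuK k e T * ∏ q ∈ S \ T, ((em q.1 - Xk k e T q.1) / (1 - zt))) =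
      ∑ i, th k (c i) * (∏ q ∈ S, ((1 - chq q (e q) (c i)) / (1 - zt))) *
        (PhC k (em (c i) / em (3 * s3 * DD3 S)) / NN) := by
  have hw : (1 : ℂ) - zt ≠ 0 := one_sub_zt_ne
  have hN := NN_ne
  have hE : em (3 * s3 * DD3 S) ≠ 0 :=
    rt_em_ne (mul_ne_zero (mul_ne_zero (by norm_num) s3_ne) (DD3_ne S))
  have hwS : (1 - zt) ^ S.card ≠ 0 := pow_ne_zero _ hw
  have h1 : em (3 * s3 * DD3 S) / (NN * (1 - zt) ^ S.card) * (∑ T ∈ S.powerset, (-1) ^ T.card *
        (Lk k e T 1 * ∏ q ∈ S \ T, (1 - Xk k e T q.1 / em q.1))) =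
      em (3 * s3 * DD3 S) / (NN * (1 - zt) ^ S.card) * ((em (3 * s3 * DD3 S))⁻¹ *
        ∑ i, th k (c i) * (∏ q ∈ S, (1 - chq q (e q) (c i))) *
          PhC k (em (c i) / em (3 * s3 * DD3 S))) := by
    rw [avg3 k e S hc]
  rw [Finset.mul_sum] at h1
  have e1 : ∀ T ∈ S.powerset, em (3 * s3 * DD3 S) / (NN * (1 - zt) ^ S.card) * ((-1) ^ T.card *
      (Lk k e T 1 * ∏ q ∈ S \ T, (1 - Xk k e T q.1 / em q.1))) =
      (-1) ^ T.card * (nuK k e T * ∏ q ∈ S \ T, ((em q.1 - Xk k e T q.1) / (1 - zt))) := by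
    intro T hT
    rw [Finset.mem_powerset] at hT
    have h3 : S.card = T.card + (S \ T).card := by
      rw [Finset.card_sdiff_of_subset hT]
      have := Finset.card_le_card hT
      omega
    have h4 : ∏ q ∈ S \ T, em q.1 ≠ 0 := Finset.prod_ne_zero_iff.2 fun q _ => rt_em_ne q.2.1.ne_zero
    have h5 : ∏ q ∈ S \ T, (1 - Xk k e T q.1 / em q.1) =
        (∏ q ∈ S \ T, (em q.1 - Xk k e T q.1)) / ∏ q ∈ S \ T, em q.1 := by
      rw [← Finset.prod_div_distrib]
      refine Finset.prod_congr rfl fun q _ => ?_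
      have h6 := rt_em_ne q.2.1.ne_zero
      field_simp
    rw [h5, DD3_sdiff hT, Finset.prod_div_distrib, Finset.prod_const, nuK, h3, pow_add]
    have h7 : (1 - zt) ^ T.card ≠ 0 := pow_ne_zero _ hw
    have h8 : (1 - zt) ^ (S \ T).card ≠ 0 := pow_ne_zero _ hw
    field_simp
  rw [Finset.sum_congr rfl e1] at h1
  rw [h1, ← mul_assoc]
  have e2 : em (3 * s3 * DD3 S) / (NN * (1 - zt) ^ S.card) * (em (3 * s3 * DD3 S))⁻¹ =
      (NN * (1 - zt) ^ S.card)⁻¹ := by
    field_simp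
  rw [e2, Finset.mul_sum]
  refine Finset.sum_congr rfl fun i _ => ?_
  rw [Finset.prod_div_distrib, Finset.prod_const]
  field_simp

/-- **The residue class of the normalised value is the determinant**, `k ≠ 0`. -/
theorem nuK_res {A : ValuationSubring ℂ} (hA : Three A) {k : ZMod 3} (hk : k ≠ 0)
    {e : P3 → ZMod 3} (S : Finset P3) (he : ∀ q ∈ S, e q ≠ 0) :
    Rt A (nuK k e S) (k * ((∏ q ∈ S, e q) * (NK k e S).det)) := by
  classical
  induction S using Finset.strongInduction with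
  | H S ih =>
  have he2 : ∀ q ∈ S, e q * e q = 1 := by
    intro q hq
    have h1 : ∀ t : ZMod 3, t ≠ 0 → t * t = 1 := by decide
    exact h1 _ (he q hq)
  obtain ⟨ι, hι, c, hc⟩ := RepsG.exists_reps (f := (3 : 𝓞 K)) (ν := 3 * DD3 S)
    (mul_ne_zero (by norm_num) (DD3_ne S)) (dvd_mul_right _ _) (dvd_mul_right _ _)
  have hE := avg_nuK k e S hc
  -- the right hand side
  have hR : Rt A (∑ i, th k (c i) * (∏ q ∈ S, ((1 - chq q (e q) (c i)) / (1 - zt))) *
        (PhC k (em (c i) / em (3 * s3 * DD3 S)) / NN))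
      (∑ i : ι, (∏ q ∈ S, (e q * cq q (c i))) * k) := by
    refine Rt.sum _ fun i _ => ?_
    have h1 : Rt A (∏ q ∈ S, ((1 - chq q (e q) (c i)) / (1 - zt))) (∏ q ∈ S, (e q * cq q (c i))) := by
      refine Rt.prod _ fun q hq => ?_
      have h2 : ¬ q.1 ∣ c i := by
        intro hd
        have h3 : q.1 ∣ 3 * DD3 S := (Finset.dvd_prod_of_mem (fun p : P3 => p.1) hq).mul_left _
        exact q.2.1.not_isUnit ((hc.cop i).isUnit_of_dvd' hd h3)
      rw [chq_of_not h2]
      exact Rt_diff hA _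
    have h2 := phC_res hA hk (DD3_s3 S) (three_s3 (hc.fx i))
    have h3 := ((Rt_e3 hA (-(k * abar (c i)))).mul h1).mul h2
    rw [one_mul] at h3
    exact h3
  rw [← hE, ← Finset.sum_mul] at hR
  -- the sum over the proper subsets
  have hD : S ∈ S.powerset := Finset.mem_powerset_self S
  have hS : Rt A (∑ T ∈ S.powerset.erase S, (-1) ^ T.card *
        (nuK k e T * ∏ q ∈ S \ T, ((em q.1 - Xk k e T q.1) / (1 - zt))))
      (∑ T ∈ S.powerset.erase S, (-1) ^ T.card * ((k * ((∏ q ∈ T, e q) * (NK k e T).det)) *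
        ∏ q ∈ S \ T, (kapK k q + ∑ p ∈ T, d3.s q p * e p))) := by
    refine Rt.sum _ fun T hT => ?_
    rw [Finset.mem_erase, Finset.mem_powerset] at hT
    have h1 : Rt A ((-1) ^ T.card) ((-1) ^ T.card) := (Rt.one.neg).pow _
    refine h1.mul ((ih T (Finset.ssubset_iff_subset_ne.2 ⟨hT.2, hT.1⟩)
      fun q hq => he q (hT.2 hq)).mul (Rt.prod _ fun q hq => ?_))
    rw [Xk_val k e (Finset.mem_sdiff.1 hq).2]
    exact Rt_factor hA q _
  rw [← Finset.add_sum_erase _ _ hD, Finset.sdiff_self, Finset.prod_empty, mul_one] at hR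
  have h := hR.sub hS
  rw [add_sub_cancel_right] at h
  have h1 : Rt A ((-1) ^ S.card) ((-1) ^ S.card) := (Rt.one.neg).pow _
  have h2 := h1.mul h
  have e1 : ((-1 : ℂ)) ^ S.card * ((-1) ^ S.card * nuK k e S) = nuK k e S := by
    rw [← mul_assoc, ← mul_pow, neg_one_mul, neg_neg, one_pow, one_mul]
  have e2 : (-1 : ZMod 3) ^ S.card * (((∑ i : ι, ∏ q ∈ S, (e q * cq q (c i))) * k) -
      ∑ T ∈ S.powerset.erase S, (-1) ^ T.card * ((k * ((∏ q ∈ T, e q) * (NK k e T).det)) *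
        ∏ q ∈ S \ T, (kapK k q + ∑ p ∈ T, d3.s q p * e p))) =
      k * ((∏ q ∈ S, e q) * (NK k e S).det) := by
    rcases S.eq_empty_or_nonempty with rfl | hS0
    · have h3 : (NK k e ∅).det = 1 := Matrix.det_isEmpty
      have h4 := cnt3_empty hc
      rw [h3, Finset.card_empty, pow_zero, one_mul, Finset.powerset_empty, Finset.erase_singleton,
        Finset.sum_empty, sub_zero]
      simp only [Finset.prod_empty, Finset.sum_const, Finset.card_univ, h4]
      simp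
    · have h3 := forest_exp d3.s (kapK k) e hS0 he2
      rw [← Finset.add_sum_erase _ _ hD, Finset.sdiff_self, Finset.prod_empty, mul_one] at h3
      rw [cnt3 e hS0 hc, zero_mul, zero_sub]
      have h4 : ∑ T ∈ S.powerset.erase S, (-1) ^ T.card * ((k * ((∏ q ∈ T, e q) * (NK k e T).det)) *
          ∏ q ∈ S \ T, (kapK k q + ∑ p ∈ T, d3.s q p * e p)) =
          k * ∑ T ∈ S.powerset.erase S, (-1) ^ T.card * ((∏ q ∈ T, e q) *
            (NE d3.s (kapK k) e T).det) * ∏ q ∈ S \ T, (kapK k q + ∑ p ∈ T, d3.s q p * e p) := by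
        rw [Finset.mul_sum]
        refine Finset.sum_congr rfl fun T _ => ?_
        rw [NK]
        ring
      have h5 : (-1 : ZMod 3) ^ S.card * (-1) ^ S.card = 1 := by
        rw [← mul_pow, neg_one_mul, neg_neg, one_pow]
      rw [h4, NK]
      linear_combination (-(-1 : ZMod 3) ^ S.card * k) * h3 +
        k * ((∏ q ∈ S, e q) * (NE d3.s (kapK k) e S).det) * h5
  rw [e1, e2] at h2
  exact h2

theorem Lk_ne {k : ZMod 3} (hk : k ≠ 0) {e : P3 → ZMod 3} {S : Finset P3} (he : ∀ q ∈ S, e q ≠ 0)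
    (h : (NK k e S).det ≠ 0) : Lk k e S 1 ≠ 0 := by
  obtain ⟨A, hA⟩ := exists_Three
  have h0 : k * ((∏ q ∈ S, e q) * (NK k e S).det) ≠ 0 :=
    mul_ne_zero hk (mul_ne_zero (Finset.prod_ne_zero_iff.2 he) h)
  have h1 := (nuK_res hA hk S he).unit hA h0
  intro h2
  rw [nuK, h2, zero_mul, zero_div, map_zero] at h1
  exact zero_ne_one h1

end

end Pool.Agent.Lib.MP_1a91b9_ntK
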