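import Pool.Agent.Lib.MP_1a91b9_ntK.A.RhoH
import Pool.Agent.Lib.MP_1a91b9_ntK.A.HRecA

/-!
# Cubic twists, part A, file RhsH: the residue of the right side, the hard class, Case 1
-/

set_option autoImplicit false

namespace Pool.Agent.Lib.MP_1a91b9_ntK

open NumberField IsDedekindDomain Pool.Agent.Lib.MP_1a91b9_ntT Pool.Agent.Lib.MP_1a91b9_ntG
open Pool.Agent.Lib.MP_1a91b9_ntH (wO s3 cp Nz)

/-- Case 1 -/
theorem rhsH {A : ValuationSubring ℂ} (hA : Three A) (e : P3 → ZMod 3) {q0 : P3} {I : Finset P3}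
    (h0 : q0 ∉ I) (hI : I.Nonempty)
    (ha : aP q0 ≠ 0) (he : ∀ q ∈ I, e q ≠ 0) {ι : Type} [Fintype ι] {c : ι → 𝓞 K}
    (hc : RepsG 3 (3 * DD3 (insert q0 I)) c) :
    Rt A ((∑ i, WH e q0 I (c i) * (1 + rho (qt (DD3 (insert q0 I)) (c i))) +
      ∏ q ∈ insert q0 I, ((Nz q.1 : ℂ) - 1)) / (1 - zt) ^ (I.card + 3))
      (GamH d3.s aP bP e q0 I) := by
  have h1 := rhoH_res hA hc e h0 ha he (2 * cq q0 s3)
  have h2 := hrecA hA e h0 hI ha hc
  rw [Finset.sum_filter] at h2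
  exact h2.congr h1

end Pool.Agent.Lib.MP_1a91b9_ntK
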