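import Pool.Agent.Lib.MP_1a91b9_ntK.A.StarH
import Pool.Agent.Lib.MP_1a91b9_ntK.A.AvgH
import Pool.Agent.Lib.MP_1a91b9_ntK.A.RhsH
import Pool.Agent.Lib.MP_1a91b9_ntK.A.Case0H

/-!
# Cubic twists, part A, file IndH: the residue class of the normalised value, the hard class
`D = ± 1` modulo `3 √-3`
-/

set_option autoImplicit false

namespace Pool.Agent.Lib.MP_1a91b9_ntK

open NumberField IsDedekindDomain Pool.Agent.Lib.MP_1a91b9_ntT Pool.Agent.Lib.MP_1a91b9_ntG
open Pool.Agent.Lib.MP_1a91b9_ntH (wO s3 cp s3_sq s3_ne s3_not_isUnit s3_dvd_three Nz)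

noncomputable section

/-- the class of the value of `D_T` -/
def vHi (e : P3 → ZMod 3) (q0 : P3) (T : Finset P3) : ZMod 3 :=
  -((∏ q ∈ UH aP e q0 T, eH aP e q0 T q) * kapH d3.s aP bP (eH aP e q0 T) (UH aP e q0 T))

theorem e0H_empty (a e : P3 → ZMod 3) (q0 : P3) : e0H a e q0 ∅ = 0 := Finset.sum_empty

theorem UH_empty (a e : P3 → ZMod 3) (q0 : P3) : UH a e q0 ∅ = ∅ := by
  rw [UH, e0H_empty, if_pos rfl]

theorem UH_sub (a e : P3 → ZMod 3) {q0 : P3} {I T : Finset P3} (hT : T ⊆ I) :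
    UH a e q0 T ⊆ insert q0 I := by
  rw [UH]
  split_ifs
  · exact hT.trans (Finset.subset_insert _ _)
  · exact Finset.insert_subset_insert _ hT

theorem sub_UH (a e : P3 → ZMod 3) (q0 : P3) (T : Finset P3) : T ⊆ UH a e q0 T := by
  rw [UH]
  split_ifs
  · exact subset_rfl
  · exact Finset.subset_insert _ _

theorem UH_card (a e : P3 → ZMod 3) (q0 : P3) (T : Finset P3) :
    (UH a e q0 T).card ≤ T.card + 1 := by
  rw [UH]
  split_ifs
  · exact Nat.le_succ _
  · exact Finset.card_insert_le _ _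

theorem eH_of_ne (a e : P3 → ZMod 3) {q0 q : P3} (T : Finset P3) (h : q ≠ q0) :
    eH a e q0 T q = e q := by
  rw [eH, Function.update_of_ne h]

theorem eH_self (a e : P3 → ZMod 3) (q0 : P3) (T : Finset P3) :
    eH a e q0 T q0 = e0H a e q0 T := by
  rw [eH, Function.update_self]

theorem e0H_eq (a e : P3 → ZMod 3) (q0 : P3) (T : Finset P3) :
    e0H a e q0 T = -(a q0 * ∑ i ∈ T, e i * a i) := by
  rw [e0H, Finset.mul_sum, ← Finset.sum_neg_distrib]
  refine Finset.sum_congr rfl fun i _ => ?_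
  rw [epH]
  ring

/-- the exponents of `D_T` are not zero on the support -/
theorem eH_ne (a : P3 → ZMod 3) {e : P3 → ZMod 3} {q0 : P3} {I T : Finset P3} (h0 : q0 ∉ I)
    (hT : T ⊆ I) (he : ∀ q ∈ I, e q ≠ 0) : ∀ q ∈ UH a e q0 T, eH a e q0 T q ≠ 0 := by
  intro q hq
  by_cases hq0 : q = q0
  · subst hq0
    rw [eH_self]
    intro h
    rw [UH, if_pos h] at hq
    exact h0 (hT hq)
  · rw [eH_of_ne a e T hq0]
    rcases Finset.mem_insert.1 (UH_sub a e hT hq) with h | h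
    · exact absurd h hq0
    · exact he q h

/-- `D_T` is in the hard class -/
theorem eH_sum {a : P3 → ZMod 3} (e : P3 → ZMod 3) {q0 : P3} {I T : Finset P3} (h0 : q0 ∉ I)
    (hT : T ⊆ I) (ha : a q0 ≠ 0) : ∑ q ∈ UH a e q0 T, eH a e q0 T q * a q = 0 := by
  have hq : q0 ∉ T := fun h => h0 (hT h)
  have h1 : ∑ q ∈ T, eH a e q0 T q * a q = ∑ q ∈ T, e q * a q := by
    refine Finset.sum_congr rfl fun q hq' => ?_
    rw [eH_of_ne a e T (fun h : q = q0 => hq (by rw [← h]; exact hq'))]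
  have h2 := e0H_eq a e q0 T
  have h3 : ∀ x y : ZMod 3, x ≠ 0 → 0 = -(x * y) → y = 0 := by decide
  have h4 : ∀ x y : ZMod 3, x ≠ 0 → -(x * y) * x + y = 0 := by decide
  rw [UH]
  split_ifs with h
  · rw [h1]
    rw [h] at h2
    exact h3 _ _ ha h2
  · rw [Finset.sum_insert hq, h1, eH_self, h2]
    exact h4 _ _ ha

theorem muH_empty (e : P3 → ZMod 3) : muH e ∅ = 1 := by
  rw [muH, N0_empty, div_self N0_ne]

section
variable {A : ValuationSubring ℂ}

theorem Rt_prodH (hA : Three A) {S : Finset P3} (hS : 2 ≤ S.card) {x : P3 → ℂ} {y : P3 → ZMod 3}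
    (h : ∀ q ∈ S, Rt A (x q / (1 - zt) ^ 2) (y q)) :
    Rt A ((∏ q ∈ S, x q) / (1 - zt) ^ (S.card + 2)) (if S.card = 2 then ∏ q ∈ S, y q else 0) := by
  have hw := one_sub_zt_ne
  have e : (∏ q ∈ S, x q) / (1 - zt) ^ (S.card + 2) =
      (∏ q ∈ S, (x q / (1 - zt) ^ 2)) * (1 - zt) ^ (S.card - 2) := by
    rw [Finset.prod_div_distrib, Finset.prod_const, ← pow_mul, div_mul_eq_mul_div,
      div_eq_div_iff (pow_ne_zero _ hw) (pow_ne_zero _ hw), mul_assoc, ← pow_add]
    congr 2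
    omega
  have h1 := Rt.prod S h
  rw [e]
  split_ifs with hc
  · rw [hc, Nat.sub_self, pow_zero, mul_one]
    exact h1
  · have h2 := h1.mul (Rt_pow0 hA (n := S.card - 2) (by omega))
    rwa [mul_zero] at h2

/-- the factors of the term of `T` -/
theorem Rt_termH (hA : Three A) (e : P3 → ZMod 3) {q0 : P3} {I T : Finset P3} (h0 : q0 ∉ I)
    (hT : T ⊆ I) :
    Rt A (∏ q ∈ insert q0 I \ UH aP e q0 T,
      ((em q.1 - Xk 0 (eH aP e q0 T) (UH aP e q0 T) q.1) / (1 - zt)))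
      (g0H d3.s aP e q0 T * ∏ i ∈ I \ T, ∑ j ∈ T, e j * mH d3.s aP q0 j i) := by
  classical
  have hq : q0 ∉ T := fun h => h0 (hT h)
  have hm : ∀ i, ∑ j ∈ T, e j * mH d3.s aP q0 j i =
      ∑ j ∈ T, e j * d3.s j i + e0H aP e q0 T * d3.s q0 i := by
    intro i
    rw [e0H, Finset.sum_mul, ← Finset.sum_add_distrib]
    refine Finset.sum_congr rfl fun j _ => ?_
    rw [mH]
    ring
  have hs : ∀ i ∈ I \ T, ∑ p ∈ T, d3.s i p * eH aP e q0 T p = ∑ j ∈ T, e j * d3.s j i := by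
    intro i hi
    refine Finset.sum_congr rfl fun p hp => ?_
    have h1 : i ≠ p := fun h => (Finset.mem_sdiff.1 hi).2 (h ▸ hp)
    rw [eH_of_ne aP e T (fun h : p = q0 => hq (by rw [← h]; exact hp)), d3_sym i p h1, mul_comm]
  by_cases h : e0H aP e q0 T = 0
  · have hU : UH aP e q0 T = T := if_pos h
    have hD : insert q0 I \ T = insert q0 (I \ T) := Finset.insert_sdiff_of_notMem I hq
    have hq2 : q0 ∉ I \ T := fun h1 => h0 (Finset.mem_sdiff.1 h1).1
    have hg : g0H d3.s aP e q0 T = ∑ j ∈ T, e j * d3.s q0 j := if_pos h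
    rw [hU, hD, Finset.prod_insert hq2, hg]
    refine Rt.mul ?_ (Rt.prod _ fun i hi => ?_)
    · rw [Xk_val 0 _ hq, kapK_zero, zero_add]
      have h1 : ∑ p ∈ T, d3.s q0 p * eH aP e q0 T p = ∑ j ∈ T, e j * d3.s q0 j := by
        refine Finset.sum_congr rfl fun p hp => ?_
        rw [eH_of_ne aP e T (fun h : p = q0 => hq (by rw [← h]; exact hp)), mul_comm]
      rw [h1]
      exact Rt_factor hA _ _
    · rw [Xk_val 0 _ (Finset.mem_sdiff.1 hi).2, kapK_zero, zero_add, hs i hi, hm, h, zero_mul,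
        add_zero]
      exact Rt_factor hA _ _
  · have hU : UH aP e q0 T = insert q0 T := if_neg h
    have hD : insert q0 I \ insert q0 T = I \ T := by
      rw [Finset.insert_sdiff_insert]
      exact Finset.sdiff_insert_of_notMem h0 T
    have hg : g0H d3.s aP e q0 T = 1 := if_neg h
    rw [hU, hD, hg, one_mul]
    refine Rt.prod _ fun i hi => ?_
    have hi1 := Finset.mem_sdiff.1 hi
    have h2 : i ≠ q0 := fun h1 => h0 (h1 ▸ hi1.1)
    have h3 : i ∉ insert q0 T := by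
      rw [Finset.mem_insert, not_or]
      exact ⟨h2, hi1.2⟩
    have h4 : ∑ p ∈ insert q0 T, d3.s i p * eH aP e q0 T p =
        ∑ j ∈ T, e j * d3.s j i + e0H aP e q0 T * d3.s q0 i := by
      rw [Finset.sum_insert hq, hs i hi, eH_self, d3_sym i q0 h2]
      ring
    rw [Xk_val 0 _ h3, kapK_zero, zero_add, h4, hm]
    exact Rt_factor hA _ _

/-- the step of the induction -/
theorem stepH (hA : Three A) (e : P3 → ZMod 3) {q0 : P3} {I : Finset P3} (h0 : q0 ∉ I)
    (hI : I.Nonempty) (ha : aP q0 ≠ 0) (he : ∀ q ∈ I, e q ≠ 0) (hI0 : e0H aP e q0 I ≠ 0)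
    (ih : ∀ T ⊆ I, T.Nonempty → T ≠ I →
      Rt A (xH (eH aP e q0 T) (UH aP e q0 T)) (vHi e q0 T)) :
    Rt A (xH (eH aP e q0 I) (UH aP e q0 I)) (vHi e q0 I) := by
  classical
  have hw := one_sub_zt_ne
  obtain ⟨ι, hι, c, hc⟩ := RepsG.exists_reps (f := (3 : 𝓞 K)) (ν := 3 * DD3 (insert q0 I))
    (mul_ne_zero (by norm_num) (DD3_ne _)) (dvd_mul_right _ _) (dvd_mul_right _ _)
  have hE := avgH e h0 hI ha he hc
  have hR := rhsH hA e h0 hI ha he hc
  have hcard : (insert q0 I).card = I.card + 1 := Finset.card_insert_of_notMem h0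
  have hpow : (1 - zt) ^ (I.card + 3) ≠ 0 := pow_ne_zero _ hw
  rw [← hE, add_div] at hR
  -- the normalised terms
  have e1 : ∀ T ∈ I.powerset, (-1) ^ T.card * (muH (eH aP e q0 T) (UH aP e q0 T) *
      ∏ q ∈ insert q0 I \ UH aP e q0 T,
        (em q.1 - Xk 0 (eH aP e q0 T) (UH aP e q0 T) q.1)) / (1 - zt) ^ (I.card + 3) =
      (-1) ^ T.card * (xH (eH aP e q0 T) (UH aP e q0 T) *
        ∏ q ∈ insert q0 I \ UH aP e q0 T,
          ((em q.1 - Xk 0 (eH aP e q0 T) (UH aP e q0 T) q.1) / (1 - zt))) := by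
    intro T hT
    have hU := UH_sub aP e (q0 := q0) (Finset.mem_powerset.1 hT)
    have h3 : I.card + 3 = ((UH aP e q0 T).card + 2) + (insert q0 I \ UH aP e q0 T).card := by
      rw [Finset.card_sdiff_of_subset hU, hcard]
      have := Finset.card_le_card hU
      omega
    rw [Finset.prod_div_distrib, Finset.prod_const, xH, h3, pow_add (1 - zt) ((UH aP e q0 T).card + 2)]
    have h7 : (1 - zt) ^ ((UH aP e q0 T).card + 2) ≠ 0 := pow_ne_zero _ hw
    have h8 : (1 - zt) ^ (insert q0 I \ UH aP e q0 T).card ≠ 0 := pow_ne_zero _ hw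
    field_simp
  rw [Finset.sum_div, Finset.sum_congr rfl e1] at hR
  -- the empty set
  have hm : (∅ : Finset P3) ∈ I.powerset := Finset.empty_mem_powerset I
  have hIm : I ∈ I.powerset.erase ∅ :=
    Finset.mem_erase.2 ⟨hI.ne_empty, Finset.mem_powerset_self I⟩
  rw [← Finset.add_sum_erase _ _ hm, ← Finset.add_sum_erase _ _ hIm] at hR
  have e2 : (-1) ^ (∅ : Finset P3).card * (xH (eH aP e q0 ∅) (UH aP e q0 ∅) *
      ∏ q ∈ insert q0 I \ UH aP e q0 ∅,
        ((em q.1 - Xk 0 (eH aP e q0 ∅) (UH aP e q0 ∅) q.1) / (1 - zt))) =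
      (∏ q ∈ insert q0 I, (em q.1 - 1)) / (1 - zt) ^ (I.card + 3) := by
    rw [UH_empty, Finset.card_empty, pow_zero, one_mul, Finset.sdiff_empty, xH, muH_empty,
      Finset.card_empty, zero_add]
    have h1 : ∀ q ∈ insert q0 I, (em q.1 - Xk 0 (eH aP e q0 ∅) ∅ q.1) / (1 - zt) =
        (em q.1 - 1) / (1 - zt) := by
      intro q _
      rw [Xk_val 0 _ (Finset.notMem_empty q), kapK_zero, Finset.sum_empty, add_zero, e3_zero]
    rw [Finset.prod_congr rfl h1, Finset.prod_div_distrib, Finset.prod_const, hcard,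
      show I.card + 3 = 2 + (I.card + 1) by ring, pow_add (1 - zt) 2]
    field_simp
  rw [e2] at hR
  have hc2 : 2 ≤ (insert q0 I).card := by
    rw [hcard]
    have := hI.card_pos
    omega
  have hP1 := Rt_prodH hA hc2 (x := fun q => (Nz q.1 : ℂ) - 1) fun q _ => Rt_N0 hA q
  have hP2 := Rt_prodH hA hc2 (x := fun q => em q.1 - 1) fun q _ => Rt_em0 hA q
  rw [hcard, show I.card + 1 + 2 = I.card + 3 by ring] at hP1 hP2
  -- the sum over the proper subsets
  have hS : Rt A (∑ T ∈ (I.powerset.erase ∅).erase I, (-1) ^ T.card *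
      (xH (eH aP e q0 T) (UH aP e q0 T) * ∏ q ∈ insert q0 I \ UH aP e q0 T,
          ((em q.1 - Xk 0 (eH aP e q0 T) (UH aP e q0 T) q.1) / (1 - zt))))
      (∑ T ∈ (I.powerset.erase ∅).erase I, (-1) ^ T.card *
        (vHi e q0 T * (g0H d3.s aP e q0 T * ∏ i ∈ I \ T, ∑ j ∈ T, e j * mH d3.s aP q0 j i))) := by
    refine Rt.sum _ fun T hT => ?_
    rw [Finset.mem_erase, Finset.mem_erase, Finset.mem_powerset] at hT
    have h1 : Rt A ((-1) ^ T.card) ((-1) ^ T.card) := (Rt.one.neg).pow _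
    exact h1.mul ((ih T hT.2.2 (Finset.nonempty_iff_ne_empty.2 hT.2.1) hT.1).mul
      (Rt_termH hA e h0 hT.2.2))
  have h := ((hR.sub hP1).sub hP2).sub hS
  have hUI : UH aP e q0 I = insert q0 I := if_neg hI0
  have hgI : g0H d3.s aP e q0 I = 1 := if_neg hI0
  have h1 : Rt A ((-1) ^ I.card) ((-1) ^ I.card) := (Rt.one.neg).pow _
  have h2 := h1.mul h
  have e3' : ((-1 : ℂ)) ^ I.card * ((∏ q ∈ insert q0 I, (em q.1 - 1)) / (1 - zt) ^ (I.card + 3) +
      ((-1) ^ I.card * (xH (eH aP e q0 I) (UH aP e q0 I) * ∏ q ∈ insert q0 I \ UH aP e q0 I,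
          ((em q.1 - Xk 0 (eH aP e q0 I) (UH aP e q0 I) q.1) / (1 - zt))) +
        ∑ T ∈ (I.powerset.erase ∅).erase I, (-1) ^ T.card *
      (xH (eH aP e q0 T) (UH aP e q0 T) * ∏ q ∈ insert q0 I \ UH aP e q0 T,
          ((em q.1 - Xk 0 (eH aP e q0 T) (UH aP e q0 T) q.1) / (1 - zt)))) +
      (∏ q ∈ insert q0 I, ((Nz q.1 : ℂ) - 1)) / (1 - zt) ^ (I.card + 3) -
      (∏ q ∈ insert q0 I, ((Nz q.1 : ℂ) - 1)) / (1 - zt) ^ (I.card + 3) -
      (∏ q ∈ insert q0 I, (em q.1 - 1)) / (1 - zt) ^ (I.card + 3) -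
      ∑ T ∈ (I.powerset.erase ∅).erase I, (-1) ^ T.card *
      (xH (eH aP e q0 T) (UH aP e q0 T) * ∏ q ∈ insert q0 I \ UH aP e q0 T,
          ((em q.1 - Xk 0 (eH aP e q0 T) (UH aP e q0 T) q.1) / (1 - zt)))) =
      xH (eH aP e q0 I) (UH aP e q0 I) := by
    have h3 : ((-1 : ℂ)) ^ I.card * (-1) ^ I.card = 1 := by
      rw [← mul_pow, neg_one_mul, neg_neg, one_pow]
    have h4 : ∏ q ∈ insert q0 I \ UH aP e q0 I,
          ((em q.1 - Xk 0 (eH aP e q0 I) (UH aP e q0 I) q.1) / (1 - zt)) = 1 := by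
      have h5 : insert q0 I \ UH aP e q0 I = ∅ := by rw [hUI, Finset.sdiff_self]
      rw [h5, Finset.prod_empty]
    rw [h4]
    linear_combination xH (eH aP e q0 I) (UH aP e q0 I) * h3
  -- the algebraic side
  have hst := starH d3.s d3_sym aP bP e hI h0 ha he
  rw [← Finset.add_sum_erase _ _ hIm] at hst
  have e4 : (-1 : ZMod 3) ^ I.card * (GamH d3.s aP bP e q0 I -
      (if I.card + 1 = 2 then ∏ q ∈ insert q0 I, abar q.1 else 0) -
      (if I.card + 1 = 2 then ∏ q ∈ insert q0 I, -abar q.1 else 0) -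
      ∑ T ∈ (I.powerset.erase ∅).erase I, (-1) ^ T.card *
        (vHi e q0 T * (g0H d3.s aP e q0 T * ∏ i ∈ I \ T, ∑ j ∈ T, e j * mH d3.s aP q0 j i))) =
      vHi e q0 I := by
    have h5 : (-1 : ZMod 3) ^ I.card * (-1) ^ I.card = 1 := by
      rw [← mul_pow, neg_one_mul, neg_neg, one_pow]
    have h6 : (if I.card + 1 = 2 then ∏ q ∈ insert q0 I, abar q.1 else 0) +
        (if I.card + 1 = 2 then ∏ q ∈ insert q0 I, -abar q.1 else 0) =
        -(if I.card = 1 then aP q0 * ∑ i ∈ I, aP i else 0) := by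
      by_cases h7 : I.card = 1
      · have h8 : I.card + 1 = 2 := by omega
        rw [if_pos h7, if_pos h8, if_pos h8]
        obtain ⟨i, hi⟩ := Finset.card_eq_one.1 h7
        rw [hi] at h0 ⊢
        rw [Finset.prod_insert h0, Finset.prod_insert h0, Finset.prod_singleton,
          Finset.prod_singleton, Finset.sum_singleton]
        have h9 : ∀ x y : ZMod 3, x * y + -x * -y = -(x * y) := by decide
        exact h9 _ _
      · have h8 : ¬ I.card + 1 = 2 := by omega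
        rw [if_neg h7, if_neg h8, if_neg h8, add_zero, neg_zero]
    have h7 : ∑ T ∈ (I.powerset.erase ∅).erase I, (-1) ^ T.card *
        (vHi e q0 T * (g0H d3.s aP e q0 T * ∏ i ∈ I \ T, ∑ j ∈ T, e j * mH d3.s aP q0 j i)) =
        ∑ T ∈ (I.powerset.erase ∅).erase I, (-1) ^ T.card *
      (-((∏ q ∈ UH aP e q0 T, eH aP e q0 T q) *
        kapH d3.s aP bP (eH aP e q0 T) (UH aP e q0 T))) *
        g0H d3.s aP e q0 T * ∏ i ∈ I \ T, ∑ j ∈ T, e j * mH d3.s aP q0 j i := by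
      refine Finset.sum_congr rfl fun T _ => ?_
      rw [vHi]
      ring
    rw [hgI, Finset.sdiff_self, Finset.prod_empty, mul_one, mul_one] at hst
    rw [h7]
    change (-1 : ZMod 3) ^ I.card * vHi e q0 I + _ = _ at hst
    linear_combination -((-1 : ZMod 3) ^ I.card) * hst + vHi e q0 I * h5 -
      ((-1 : ZMod 3) ^ I.card) * h6
  rw [e3', e4] at h2
  exact h2

/-- **Theorem H**: the residue class of the normalised value in the hard class. -/
theorem xH_res (hA : Three A) {S : Finset P3} (hS : S.Nonempty) {e : P3 → ZMod 3}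
    (he : ∀ q ∈ S, e q ≠ 0) (hA0 : ∑ q ∈ S, e q * aP q = 0) :
    Rt A (xH e S) (-((∏ q ∈ S, e q) * kapH d3.s aP bP e S)) := by
  classical
  obtain ⟨n, hn⟩ : ∃ n, S.card = n := ⟨_, rfl⟩
  induction n using Nat.strong_induction_on generalizing S e with
  | _ n ih =>
  by_cases h : ∀ q ∈ S, aP q = 0
  · rw [← kapH_zero d3.s d3_sym aP bP e hS he h]
    exact case0H hA e hS h he
  · push Not at h
    obtain ⟨q0, hq0, ha⟩ := h
    obtain ⟨I, hI⟩ : ∃ I, I = S.erase q0 := ⟨_, rfl⟩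
    have h0 : q0 ∉ I := by
      rw [hI]
      exact Finset.notMem_erase _ _
    have hSI : insert q0 I = S := by
      rw [hI]
      exact Finset.insert_erase hq0
    have heI : ∀ q ∈ I, e q ≠ 0 := fun q hq => he q (by rw [← hSI]; exact Finset.mem_insert_of_mem hq)
    have hA1 : e q0 * aP q0 + ∑ q ∈ I, e q * aP q = 0 := by
      rw [← Finset.sum_insert (f := fun q => e q * aP q) h0, hSI]
      exact hA0
    have hIne : I.Nonempty := by
      rw [Finset.nonempty_iff_ne_empty]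
      intro h1
      rw [h1, Finset.sum_empty, add_zero] at hA1
      exact mul_ne_zero (he q0 hq0) ha hA1
    have he0 : e0H aP e q0 I = e q0 := by
      have h1 := e0H_eq aP e q0 I
      have h2 : ∀ x y z : ZMod 3, x ≠ 0 → y * x + z = 0 → -(x * z) = y := by decide
      rw [h1]
      exact h2 _ _ _ ha hA1
    have heq : eH aP e q0 I = e := by
      rw [eH, he0, Function.update_eq_self]
    have hne : e0H aP e q0 I ≠ 0 := by
      rw [he0]
      exact he q0 hq0
    have hUI : UH aP e q0 I = S := (if_neg hne).trans hSI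
    have hcard : S.card = I.card + 1 := by
      rw [← hSI]
      exact Finset.card_insert_of_notMem h0
    have h1 := stepH hA e h0 hIne ha heI hne (by
      intro T hT hT0 hTI
      have h2 : T.card < I.card := Finset.card_lt_card (hT.ssubset_of_ne hTI)
      have h3 := UH_card aP e q0 T
      exact ih (UH aP e q0 T).card (by omega) (hT0.mono (sub_UH aP e q0 T))
        (eH_ne aP h0 hT heI) (eH_sum e h0 hT ha) rfl)
    rw [vHi, heq, hUI] at h1
    exact h1

end

/-- the normalised value is a unit above `3` if the cofactor is not zero -/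
theorem xH_val {A : ValuationSubring ℂ} (hA : Three A) {S : Finset P3} (hS : S.Nonempty)
    {e : P3 → ZMod 3} (he : ∀ q ∈ S, e q ≠ 0) (hA0 : ∑ q ∈ S, e q * aP q = 0)
    (h : kapH d3.s aP bP e S ≠ 0) : A.valuation (xH e S) = 1 :=
  (xH_res hA hS he hA0).unit hA
    (neg_ne_zero.2 (mul_ne_zero (Finset.prod_ne_zero_iff.2 he) h))

theorem LH_ne {S : Finset P3} (hS : S.Nonempty) {e : P3 → ZMod 3} (he : ∀ q ∈ S, e q ≠ 0)
    (hA0 : ∑ q ∈ S, e q * aP q = 0) (h : kapH d3.s aP bP e S ≠ 0) : Lk 0 e S 1 ≠ 0 := by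
  obtain ⟨A, hA⟩ := exists_Three
  have h1 := xH_val hA hS he hA0 h
  intro h2
  rw [xH, muH, h2, zero_mul, zero_div, zero_div, map_zero] at h1
  exact zero_ne_one h1

end

end Pool.Agent.Lib.MP_1a91b9_ntK
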