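import Pool.Agent.Lib.MP_1a91b9_ntK.A.Forest
import Mathlib.LinearAlgebra.Matrix.ToLinearEquiv

/-!
# MP_1a91b9_nt (cubic twists), part A, file Ker0: the case `k = 0`

If the kernel of the symmetric matrix `N = NE s 0 e T` is generated by `e` and `∑ e a ≠ 0` then the coefficient `CZ` is not `0`.
-/

set_option autoImplicit false

namespace Pool.Agent.Lib.MP_1a91b9_ntK

open Finset

private theorem Ker0_row {ι R : Type*} [DecidableEq ι] [CommRing R] (m : ι → ι → R) (T : Finset ι) :
    (NM m 0 T).mulVec (fun _ => 1) = 0 := by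
  classical
  ext i
  simp only [Matrix.mulVec, dotProduct, mul_one, Pi.zero_apply]
  rw [← add_sum_erase univ _ (mem_univ i)]
  have h2 : NM m 0 T i i = ∑ p ∈ T.erase i, m i p := by
    simp only [NM, if_true, Pi.zero_apply, zero_add]
  have h3 : ∑ j ∈ univ.erase i, NM m 0 T i j = -∑ p ∈ T.erase i, m i p := by
    rw [← sum_neg_distrib]
    refine sum_nbij (fun j => (j : ι)) ?_ ?_ ?_ ?_
    · intro j hj
      exact mem_erase.2 ⟨fun h' => (mem_erase.1 hj).1 (Subtype.ext h'), j.2⟩
    · intro a _ b _ hab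
      exact Subtype.ext hab
    · intro p hp
      have hp' := mem_erase.1 (mem_coe.1 hp)
      refine ⟨⟨p, hp'.2⟩, ?_, rfl⟩
      exact mem_coe.2 (mem_erase.2 ⟨fun h' => hp'.1 (congrArg Subtype.val h'), mem_univ _⟩)
    · intro j hj
      have : i ≠ j := fun h' => (mem_erase.1 hj).1 h'.symm
      simp only [NM, if_neg this]
  rw [h2, h3, add_neg_cancel]

/-- `e` is in the kernel -/
theorem NE_mulVec_e {ι R : Type*} [DecidableEq ι] [CommRing R] (s : ι → ι → R) (e : ι → R)
    (T : Finset ι) (he : ∀ i ∈ T, e i * e i = 1) :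
    (NE s 0 e T).mulVec (fun i : T => e i) = 0 := by
  classical
  have h := Ker0_row (fun i p => s i p * e p) T
  rw [NM_eq_NE s 0 e T he, ← Matrix.mulVec_mulVec] at h
  have h1 : (Matrix.diagonal (fun i : T => e i)).mulVec (fun _ => 1) = fun i : T => e i := by
    ext i
    rw [Matrix.mulVec_diagonal, mul_one]
  rwa [h1] at h

/-- the matrix is symmetric -/
theorem NE_symm {ι R : Type*} [DecidableEq ι] [CommRing R] (s : ι → ι → R)
    (hs : ∀ p q, p ≠ q → s p q = s q p) (κ e : ι → R) (T : Finset ι) :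
    (NE s κ e T).transpose = NE s κ e T := by
  ext i j
  rw [Matrix.transpose_apply]
  by_cases h : i = j
  · subst h
    rfl
  · simp only [NE, if_neg h, if_neg (Ne.symm h)]
    rw [hs j i fun h' => h (Subtype.ext h').symm]

private theorem Ker0_sq : ∀ x : ZMod 3, x ≠ 0 → x * x = 1 := by decide

theorem CZ_ne_of_ker {ι : Type*} [DecidableEq ι] (s : ι → ι → ZMod 3)
    (hs : ∀ p q, p ≠ q → s p q = s q p) (a e : ι → ZMod 3) {T : Finset ι}
    (he : ∀ i ∈ T, e i ≠ 0) (hA : ∑ i ∈ T, e i * a i ≠ 0)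
    (hker : ∀ v : T → ZMod 3, (NE s 0 e T).mulVec v = 0 → ∃ c : ZMod 3, ∀ i, v i = c * e i) :
    CZ (fun i p => s i p * e p) a T ≠ 0 := by
  classical
  have hsq : ∀ x : ZMod 3, x ≠ 0 → x * x = 1 := Ker0_sq
  have : Fact (Nat.Prime 3) := ⟨Nat.prime_three⟩
  have he1 : ∀ i ∈ T, e i * e i = 1 := fun i hi => hsq _ (he i hi)
  obtain ⟨N, hN⟩ : ∃ N, N = NE s 0 e T := ⟨_, rfl⟩
  have hsym : N.transpose = N := by rw [hN, NE_symm s hs]
  have hNe : N.mulVec (fun i : T => e i) = 0 := by rw [hN, NE_mulVec_e s e T he1]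
  have hTne : T.Nonempty := by
    rw [nonempty_iff_ne_empty]
    rintro rfl
    exact hA sum_empty
  obtain ⟨r₀, hr₀⟩ := hTne
  have hdet : N.det = 0 := by
    rw [← Matrix.exists_mulVec_eq_zero_iff]
    refine ⟨fun i : T => e i, fun h => he r₀ hr₀ (congrFun h ⟨r₀, hr₀⟩), hNe⟩
  rw [← hN] at hker
  -- the adjugate
  have hcol : ∀ j : T, ∃ c : ZMod 3, ∀ i : T, N.adjugate i j = c * e i := by
    intro j
    apply hker
    have h1 := Matrix.mul_adjugate N
    rw [hdet, zero_smul] at h1
    ext i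
    exact congrFun (congrFun h1 i) j
  choose u hu using hcol
  have hadj : ∀ i j : T, N.adjugate i j = N.adjugate j i := by
    intro i j
    have h1 := Matrix.adjugate_transpose N
    rw [hsym] at h1
    have h2 := congrFun (congrFun h1 i) j
    rw [Matrix.transpose_apply] at h2
    exact h2.symm
  have hconst : ∀ i j : T, u i * e i = u j * e j := by
    intro i j
    have h1 := hadj i j
    rw [hu j i, hu i j] at h1
    have h2 := he1 i i.2
    have h3 := he1 j j.2
    linear_combination (-(e i) * (e j)) * h1 + u j * e j * h2 - u i * e i * h3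
  have hdiag : ∀ i : T, N.adjugate i i = u ⟨r₀, hr₀⟩ * e r₀ := by
    intro i
    rw [hu i i, hconst i ⟨r₀, hr₀⟩]
  -- it is not zero
  have hc0 : u ⟨r₀, hr₀⟩ * e r₀ ≠ 0 := by
    intro h0
    have h1 : (N.updateRow ⟨r₀, hr₀⟩ (N ⟨r₀, hr₀⟩ + Pi.single ⟨r₀, hr₀⟩ 1)).det = 0 := by
      rw [Matrix.det_updateRow_add, Matrix.updateRow_eq_self, hdet, ← Matrix.adjugate_apply,
        hdiag, h0, add_zero]
    rw [← Matrix.exists_mulVec_eq_zero_iff] at h1
    obtain ⟨v, hv0, hv⟩ := h1
    have h2 : ∀ i : T, N.mulVec v i = if i = ⟨r₀, hr₀⟩ then -v ⟨r₀, hr₀⟩ else 0 := by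
      intro i
      have h3 := congrFun hv i
      simp only [Matrix.mulVec, dotProduct, Pi.zero_apply] at h3 ⊢
      split_ifs with hi
      · subst hi
        simp only [Matrix.updateRow_self, Pi.add_apply, add_mul, sum_add_distrib] at h3
        have h4 : ∑ x : T, (Pi.single (M := fun _ : T => ZMod 3) ⟨r₀, hr₀⟩ 1 x) * v x =
            v ⟨r₀, hr₀⟩ := by
          rw [sum_eq_single ⟨r₀, hr₀⟩]
          · rw [Pi.single_eq_same, one_mul]
          · intro b _ hb
            rw [Pi.single_eq_of_ne hb, zero_mul]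
          · intro h
            exact absurd (mem_univ _) h
        rw [h4] at h3
        linear_combination h3
      · simp only [Matrix.updateRow_ne hi] at h3
        exact h3
    have h3 : ∑ i : T, e i * N.mulVec v i = 0 := by
      have h4 : ∑ i : T, e i * N.mulVec v i = ∑ j : T, N.mulVec (fun i : T => e i) j * v j := by
        simp only [Matrix.mulVec, dotProduct, mul_sum, sum_mul]
        rw [sum_comm]
        refine sum_congr rfl fun j _ => sum_congr rfl fun i _ => ?_
        have h5 : N i j = N j i := by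
          conv_lhs => rw [← hsym]
          rfl
        rw [h5]
        ring
      rw [h4, hNe]
      simp
    have h4 : ∑ i : T, e i * N.mulVec v i = e r₀ * -v ⟨r₀, hr₀⟩ := by
      rw [sum_eq_single ⟨r₀, hr₀⟩]
      · rw [h2, if_pos rfl]
      · intro b _ hb
        rw [h2, if_neg hb, mul_zero]
      · intro h
        exact absurd (mem_univ _) h
    rw [h4] at h3
    have h5 : v ⟨r₀, hr₀⟩ = 0 := by
      rcases mul_eq_zero.1 h3 with h6 | h6
      · exact absurd h6 (he r₀ hr₀)
      · exact neg_eq_zero.1 h6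
    have h6 : N.mulVec v = 0 := by
      ext i
      rw [h2, h5, neg_zero]
      simp
    obtain ⟨c, hc⟩ := hker v h6
    have h7 : c = 0 := by
      have h8 := hc ⟨r₀, hr₀⟩
      rw [h5] at h8
      exact (mul_eq_zero.1 h8.symm).resolve_right (he r₀ hr₀)
    apply hv0
    ext i
    rw [hc i, h7, zero_mul]
    rfl
  rw [CZ_NE s a e T he1, ← hN]
  have h1 : ∑ r : T, e r * a r * N.adjugate r r = (∑ i ∈ T, e i * a i) * (u ⟨r₀, hr₀⟩ * e r₀) := by
    rw [sum_mul, ← sum_coe_sort T (fun i => e i * a i * (u ⟨r₀, hr₀⟩ * e r₀))]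
    exact sum_congr rfl fun i _ => by rw [hdiag]
  rw [h1]
  exact mul_ne_zero (prod_ne_zero_iff.2 he) (mul_ne_zero hA hc0)

end Pool.Agent.Lib.MP_1a91b9_ntK
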