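import Pool.Agent.Lib.MP_1a91b9_ntK.A.LocDef
import Pool.Agent.Lib.MP_1a91b9_ntX.LF.Chi

/-!
# Cubic twists, part A, file LocD: the Euler factors of `y² + D y = x³` at the good places

`v = (q)`, `q` congruent to `1` modulo `3`, `D` not divisible by `q`, `c` the cube root of unity congruent to
`D ^ ((N q - 1) / 3)` modulo `q`: the factor is `(1 - q c² x) (1 - conj (q c²) x)`. The number of points of
`y² + d y = x³` over a field with `N` elements, `3 ∣ N - 1`, is `N + 1 + χ(d)² J(χ, χ) + χ⁻¹(d)² J(χ⁻¹, χ⁻¹)`, and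
`J(χ, χ) = -q` for the cubic residue character `χ`.
-/

set_option autoImplicit false

namespace Pool.Agent.Lib.MP_1a91b9_ntK

open NumberField IsDedekindDomain Polynomial Pool.Agent.Lib.MP_1a91b9_ntT
  Pool.Agent.Lib.MP_1a91b9_ntG Pool.Agent.Lib.MP_1a91b9_nt Pool.Agent.Lib.MP_1a91b9_ntH
open Pool.Agent.Lib.MP_1a91b9_ntX.LF (exists_chi)

noncomputable section

private theorem locG_delta {k : Type*} [CommRing k] (d : k) :
    (⟨0, 0, d, 0, 0⟩ : WeierstrassCurve k).Δ = -27 * d ^ 4 := by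
  simp only [WeierstrassCurve.Δ, WeierstrassCurve.b₂, WeierstrassCurve.b₄, WeierstrassCurve.b₆,
    WeierstrassCurve.b₈]
  ring

private theorem locG_card_point {k : Type*} [Field k] [Fintype k] [DecidableEq k] (h3 : (3 : k) ≠ 0)
    (d : k) (hd : d ≠ 0) :
    Nat.card (WeierstrassCurve.toAffine (⟨0, 0, d, 0, 0⟩ : WeierstrassCurve k)).Point =
      1 + ∑ y : k, (Finset.univ.filter fun x : k => x ^ 3 = y ^ 2 + d * y).card := by
  classical
  set W : WeierstrassCurve k := ⟨0, 0, d, 0, 0⟩ with hW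
  have hns : ∀ p : k × k, W.toAffine.Nonsingular p.1 p.2 ↔ p.1 ^ 3 = p.2 ^ 2 + d * p.2 := by
    intro p
    have hell : W.Δ ≠ 0 := by
      rw [hW, locG_delta]
      have : (27 : k) = 3 ^ 3 := by norm_num
      rw [neg_mul, neg_ne_zero, this]
      exact mul_ne_zero (pow_ne_zero 3 h3) (pow_ne_zero 4 hd)
    have hE : W.IsElliptic := ⟨isUnit_iff_ne_zero.mpr hell⟩
    rw [← WeierstrassCurve.Affine.equation_iff_nonsingular,
      WeierstrassCurve.Affine.equation_iff]
    simp only [hW, WeierstrassCurve.toAffine]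
    constructor
    · intro h
      linear_combination -h
    · intro h
      linear_combination -h
  rw [Nat.card_congr (pointEquivOption _), Finite.card_option, add_comm]
  congr 1
  rw [Nat.card_eq_fintype_card, Fintype.card_subtype]
  have e1 : (Finset.univ.filter fun p : k × k => W.toAffine.Nonsingular p.1 p.2) =
      Finset.univ.filter fun p : k × k => p.1 ^ 3 = p.2 ^ 2 + d * p.2 :=
    Finset.filter_congr fun p _ => hns p
  rw [e1, Finset.card_eq_sum_card_fiberwise (f := Prod.snd) (t := Finset.univ)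
    (fun _ _ => Finset.mem_coe.mpr (Finset.mem_univ _))]
  refine Finset.sum_congr rfl fun y _ => ?_
  refine Finset.card_bij (fun p _ => p.1) ?_ ?_ ?_
  · rintro ⟨a, b⟩ hp
    simp only [Finset.mem_filter, Finset.mem_univ, true_and] at hp ⊢
    obtain ⟨h1, rfl⟩ := hp
    exact h1
  · rintro ⟨a, b⟩ hp ⟨a', b'⟩ hp' h
    simp only [Finset.mem_filter, Finset.mem_univ, true_and] at hp hp' h
    rw [Prod.mk.injEq]
    exact ⟨h, hp.2.trans hp'.2.symm⟩
  · intro a ha
    simp only [Finset.mem_filter, Finset.mem_univ, true_and] at ha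
    exact ⟨(a, y), by simpa using ha, rfl⟩

private theorem locG_card {k : Type*} [Field k] [Fintype k] (h3 : (3 : k) ≠ 0) (d : k)
    (hd : d ≠ 0) (χ : MulChar k ℂ) (hχ : χ ≠ 1) (hχ3 : χ ^ 3 = 1) (hq : 3 ∣ Fintype.card k - 1) :
    (Nat.card (WeierstrassCurve.toAffine (⟨0, 0, d, 0, 0⟩ : WeierstrassCurve k)).Point : ℂ) =
      Fintype.card k + 1 + χ d ^ 2 * jacobiSum χ χ + χ⁻¹ d ^ 2 * jacobiSum χ⁻¹ χ⁻¹ := by
  classical
  have hm1 : ∀ ψ : MulChar k ℂ, ψ ^ 3 = 1 → ψ (-1) = 1 := by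
    intro ψ hψ
    have e : ψ (-1) = (ψ ^ 3) (-1) := by
      rw [MulChar.pow_apply' _ (by norm_num), ← map_pow]
      congr 1
      ring
    rw [e, hψ, MulChar.one_apply]
    exact isUnit_one.neg
  have hJ : ∀ ψ : MulChar k ℂ, ψ ^ 3 = 1 →
      ∑ y : k, ψ (y ^ 2 + d * y) = ψ d ^ 2 * jacobiSum ψ ψ := by
    intro ψ hψ
    rw [jacobiSum, Finset.mul_sum, ← Equiv.sum_comp (Equiv.mulLeft₀ (-d) (neg_ne_zero.2 hd))
      (fun y => ψ (y ^ 2 + d * y))]
    refine Finset.sum_congr rfl fun y _ => ?_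
    have e : (Equiv.mulLeft₀ (-d) (neg_ne_zero.2 hd) y) ^ 2 +
        d * (Equiv.mulLeft₀ (-d) (neg_ne_zero.2 hd) y) = (-1) * (d ^ 2 * (y * (1 - y))) := by
      have e0 : Equiv.mulLeft₀ (-d) (neg_ne_zero.2 hd) y = -d * y := rfl
      rw [e0]
      ring
    rw [e, map_mul, hm1 ψ hψ, one_mul, map_mul, map_mul, map_pow]
  rw [locG_card_point h3 d hd]
  push_cast
  have hsum : ∑ y : k, ((Finset.univ.filter fun x : k => x ^ 3 = y ^ 2 + d * y).card : ℂ) =
      Fintype.card k + χ d ^ 2 * jacobiSum χ χ + χ⁻¹ d ^ 2 * jacobiSum χ⁻¹ χ⁻¹ := by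
    rw [← hJ χ hχ3, ← hJ χ⁻¹ (by rw [inv_pow, hχ3, inv_one])]
    simp_rw [S4.u4_cube_count χ hχ hχ3 hq]
    rw [Finset.sum_add_distrib, Finset.sum_add_distrib]
    simp
  rw [hsum]
  ring

/-- two cube roots of unity which are congruent modulo a place not above `3` are equal -/
theorem cubeRoot_eq (v : HeightOneSpectrum (𝓞 K)) (h3 : (3 : 𝓞 K) ∉ v.asIdeal) {a b : 𝓞 K}
    (ha : a ^ 3 = 1) (hb : b ^ 3 = 1) (h : a - b ∈ v.asIdeal) : a = b := by
  have h1 : (a - b) * (a ^ 2 + a * b + b ^ 2) = 0 := by linear_combination ha - hb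
  rcases mul_eq_zero.1 h1 with h2 | h2
  · exact sub_eq_zero.1 h2
  · exfalso
    apply h3
    have e : (3 : 𝓞 K) = b * (3 * b ^ 2 - (a ^ 2 + a * b + b ^ 2)) := by
      rw [h2]
      linear_combination -3 * hb
    have e2 : 3 * b ^ 2 - (a ^ 2 + a * b + b ^ 2) = (a - b) * (-(a + 2 * b)) := by ring
    rw [e, e2]
    exact Ideal.mul_mem_left _ _ (Ideal.mul_mem_right _ _ h)

/-- The Euler factor at a good place. -/
theorem locD_good (D q c : 𝓞 K) (v : HeightOneSpectrum (𝓞 K)) (hv : v.asIdeal = Ideal.span {q})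
    (hq : (3 : 𝓞 K) ∣ q - 1) (hD : D ∉ v.asIdeal) (hc : c ^ 3 = 1)
    (hcD : D ^ ((nrm v - 1) / 3) - c ∈ v.asIdeal) (x : ℂ) :
    aeval x (locPoly (WD D) v) =
      (1 - em (q * c ^ 2) * x) * (1 - (starRingEnd ℂ) (em (q * c ^ 2)) * x) := by
  classical
  -- `3` is not in `v`
  have h3 : (3 : 𝓞 K) ∉ v.asIdeal := by
    intro h
    apply v.isPrime.ne_top
    rw [Ideal.eq_top_iff_one]
    obtain ⟨t, ht⟩ := hq
    have hqv : q ∈ v.asIdeal := by
      rw [hv]
      exact Ideal.mem_span_singleton_self q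
    have e : (1 : 𝓞 K) = q - 3 * t := by linear_combination -ht
    rw [e]
    exact Ideal.sub_mem _ hqv (Ideal.mul_mem_right _ _ h)
  have hfin : Finite (IsLocalRing.ResidueField (v.adicCompletionIntegers K)) := finite_residue v
  have := Fintype.ofFinite (IsLocalRing.ResidueField (v.adicCompletionIntegers K))
  obtain ⟨χ, hχ3, hχ1, hχρ, hdvd, hψ, hconj, hJJ⟩ := exists_chi v h3
  have hker : ∀ y : 𝓞 K, redMap K v y = 0 ↔ y ∈ v.asIdeal := by
    intro y
    rw [← RingHom.mem_ker, redMap_ker]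
    rfl
  have hcard : Fintype.card (IsLocalRing.ResidueField (v.adicCompletionIntegers K)) = nrm v := by
    rw [nrm, Nat.card_eq_fintype_card]
  have h3k : (3 : IsLocalRing.ResidueField (v.adicCompletionIntegers K)) ≠ 0 := by
    intro h
    exact h3 ((hker 3).1 (by rw [map_ofNat]; exact h))
  have hdk : redMap K v D ≠ 0 := fun h => hD ((hker D).1 h)
  -- the Jacobi sum is `-q`
  have hJq : -jacobiSum χ χ = q := by
    rw [← hψ]
    have e1 : S4.psi K v.asIdeal = S4.psiK v.asIdeal := by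
      rw [hv]
      have h1 : (S4.nK (F := K) q : 𝓞 K) = q := by
        apply RingOfIntegers.ext
        rw [S4.nK_coe, Algebra.norm_self]
        rfl
      rw [S4.psi, S4.relNorm_span, h1]
    rw [e1, hv, S4.psiK_span q hq]
  -- the value of the character at `D`
  have hcχ : χ (redMap K v D) = c := by
    have h1 : χ (redMap K v D) ^ 3 = 1 := by
      rw [← MulChar.pow_apply' χ three_ne_zero, hχ3, MulChar.one_apply (isUnit_iff_ne_zero.2 hdk)]
    refine cubeRoot_eq v h3 h1 hc ?_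
    rw [← hker, map_sub, hχρ, ← map_pow, ← map_sub, hker]
    exact hcD
  -- the model
  let W₀ : WeierstrassCurve (𝓞 K) := ⟨0, 0, D, 0, 0⟩
  have hmodel : locPoly ((WD D).baseChange K) v = _ :=
    locPoly_of_model (F := K) (K := K) (WD D) 1 W₀ (by
      rw [one_smul]
      simp only [W₀, WD, WeierstrassCurve.map, map_zero]) v (by
      intro hmem
      change algebraMap (𝓞 K) (𝓞 K) W₀.Δ ∈ v.asIdeal at hmem
      rw [Algebra.algebraMap_self, RingHom.id_apply, locG_delta] at hmem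
      rcases v.isPrime.mem_or_mem hmem with h5 | h5
      · have h6 := (Ideal.neg_mem_iff _).2 h5
        have e : -(-27 : 𝓞 K) = 3 ^ 3 := by norm_num
        rw [e] at h6
        exact h3 (v.isPrime.mem_of_pow_mem _ h6)
      · exact hD (v.isPrime.mem_of_pow_mem _ h5))
  have hbc : (WD D).baseChange K = WD D := WeierstrassCurve.map_id _
  have hred : W₀.map (redMap K v) = ⟨0, 0, redMap K v D, 0, 0⟩ := by
    simp only [W₀, WeierstrassCurve.map, map_zero]
  rw [hbc, hred] at hmodel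
  rw [hmodel]
  -- the count
  set τ : 𝓞 K →+* ℂ := embK.toRingHom.comp (algebraMap (𝓞 K) K) with hτ
  have hτa : ∀ x : 𝓞 K, τ x = em x := fun _ => rfl
  have hcount := locG_card h3k (redMap K v D) hdk (χ.ringHomComp τ) (by
    rw [Ne, MulChar.ringHomComp_eq_one_iff (by
      exact (embK.toRingHom.injective).comp RingOfIntegers.coe_injective)]
    exact hχ1) (by rw [MulChar.ringHomComp_pow, hχ3, MulChar.ringHomComp_one])
      (by rw [hcard]; exact hdvd)
  have hinv : (χ.ringHomComp τ)⁻¹ = (χ ^ 2).ringHomComp τ := by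
    rw [← S4.u4_inv_eq χ hχ3]
    exact MulChar.ringHomComp_inv _ _
  rw [hinv, jacobiSum_ringHomComp, jacobiSum_ringHomComp, hcard, MulChar.ringHomComp_apply,
    MulChar.ringHomComp_apply, MulChar.pow_apply' χ two_ne_zero, hcχ, hτa, hτa, hτa, hτa] at hcount
  -- conjugates
  have hJ1 : em (jacobiSum χ χ) = -em q := by
    rw [← hJq, ← hτa, ← hτa, map_neg, neg_neg]
  have hJ2 : em (jacobiSum (χ ^ 2) (χ ^ 2)) = -(starRingEnd ℂ) (em q) := by
    rw [← map_neg, ← hJ1]
    exact hconj.symm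
  have hcc : em c ^ 3 = 1 := by
    rw [← hτa, ← map_pow, hc, map_one]
  have hnc : ‖em c‖ = 1 := Complex.norm_eq_one_of_pow_eq_one hcc three_ne_zero
  have hcj : em c * (starRingEnd ℂ) (em c) = 1 := by
    rw [Complex.mul_conj, Complex.normSq_eq_norm_sq, hnc]
    norm_num
  have hcj2 : (starRingEnd ℂ) (em c) = em c ^ 2 := by
    have h0 : em c ≠ 0 := by
      intro h
      rw [h] at hcc
      norm_num at hcc
    apply mul_left_cancel₀ h0
    rw [hcj]
    linear_combination -hcc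
  have hJJ' : em q * (starRingEnd ℂ) (em q) = (nrm v : ℂ) := by
    have h1 := congrArg τ hJJ
    rw [map_mul, map_natCast, hτa, hτa, hJ1, hJ2] at h1
    rw [← h1]
    ring
  have hem : ∀ a b : 𝓞 K, em (a * b) = em a * em b := fun a b => by
    rw [← hτa, ← hτa, ← hτa, map_mul]
  have hem2 : em (c ^ 2) = em c ^ 2 := by rw [← hτa, ← hτa, map_pow]
  simp only [map_add, map_sub, map_one, map_mul, aeval_X, map_pow, map_natCast]
  rw [hcount, hJ1, hJ2, hem, hem2, map_mul, map_pow, hcj2]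
  linear_combination (-x ^ 2) * hJJ' - em q * (starRingEnd ℂ) (em q) * x ^ 2 * (em c ^ 3 + 1) * hcc

end

end Pool.Agent.Lib.MP_1a91b9_ntK
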