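import Pool.Agent.Lib.MP_1a91b9_ntK.A.LocD
import Pool.Agent.Lib.MP_1a91b9_ntK.R.Defs

/-!
# TwistDensity, phase 3 (cubic twists), part A, file LocG3: the Euler factor of `Y² + D Y = X³` at the
places not dividing `3 D`, with the cubic symbol `cq`
-/

set_option autoImplicit false

namespace Pool.Agent.Lib.MP_1a91b9_ntK

open NumberField IsDedekindDomain Polynomial WeierstrassCurve Pool.Agent.Lib.MP_1a91b9_nt
  Pool.Agent.Lib.MP_1a91b9_ntT Pool.Agent.Lib.MP_1a91b9_ntG Pool.Agent.Lib.MP_1a91b9_ntH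
open Pool.Agent.Lib.MP_1a91b9_ntT.S4 (omO omO_eq)
open Pool.Agent.Lib.MP_1a91b9_ntX.R (w3 w3_add w3_zero cs cs_spec G3 w3_natCast)

theorem em_w3 (c : ZMod 3) : em (w3 c : 𝓞 K) = e3 c := by
  obtain ⟨n, rfl⟩ : ∃ n : ℕ, (n : ZMod 3) = c := ⟨c.val, ZMod.natCast_zmod_val c⟩
  rw [w3_natCast, e3, Units.val_pow_eq_pow_val, Pool.Agent.Lib.MP_1a91b9_ntX.R.omU_val]
  have h1 : em (omO ^ n) = (em omO) ^ n := by
    change embK ((omO ^ n : 𝓞 K) : K) = (embK ((omO : 𝓞 K) : K)) ^ n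
    rw [← map_pow]
    congr 1
  have h2 : em omO = zt := S4.embK_omO
  rw [h1, h2]
  have h3 := ZMod.stdAddChar_coe (N := 3) (n : ℤ)
  rw [Int.cast_natCast] at h3
  rw [h3, zt, ← Complex.exp_nat_mul]
  congr 1
  push_cast
  ring

private theorem em_mul' (a b : 𝓞 K) : em (a * b) = em a * em b := by
  change embK ((a * b : 𝓞 K) : K) = embK (a : K) * embK (b : K)
  rw [← map_mul]
  congr 1

/-- the Euler factor at the place of a prime `q` congruent to `1` modulo `3` -/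
theorem locG_cq (D : 𝓞 K) (q : P3) (v : HeightOneSpectrum (𝓞 K))
    (hv : v.asIdeal = Ideal.span {q.1}) (hD : ¬ q.1 ∣ D) (x : ℂ) :
    aeval x (locPoly (WD D) v) =
      (1 - (starRingEnd ℂ) (em q.1) * e3 (cq q D) * x) *
        (1 - (starRingEnd ℂ) ((starRingEnd ℂ) (em q.1) * e3 (cq q D)) * x) := by
  have hG : G3 v.asIdeal := by
    rw [hv]
    exact g3 q.2.1 q.2.2
  have hD' : D ∉ v.asIdeal := by
    rw [hv, Ideal.mem_span_singleton]
    exact hD
  have hcq : cq q D = cs v.asIdeal D := by rw [hv]; rfl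
  have hs := cs_spec hG hD'
  rw [← hcq] at hs
  have h3 : (w3 (cq q D) : 𝓞 K) ^ 3 = 1 := by
    have e : cq q D + cq q D + cq q D = 0 := by
      have : ∀ z : ZMod 3, z + z + z = 0 := by decide
      exact this _
    have e1 : (w3 (cq q D)) ^ 3 = w3 (cq q D + cq q D + cq q D) := by
      rw [w3_add, w3_add, pow_succ, pow_two]
    rw [← Units.val_pow_eq_pow_val, e1, e, w3_zero, Units.val_one]
  have h := locD_good D q.1 (w3 (cq q D) : 𝓞 K) v hv q.2.2 hD' h3 (by
    rw [nrm_eq, ← neg_sub]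
    exact Ideal.neg_mem_iff _ |>.2 hs) x
  have e2 : em (q.1 * (w3 (cq q D) : 𝓞 K) ^ 2) = em q.1 * (starRingEnd ℂ) (e3 (cq q D)) := by
    rw [em_mul']
    congr 1
    have e3' : (w3 (cq q D) : 𝓞 K) ^ 2 = (w3 (- cq q D) : 𝓞 K) := by
      have e4 : -cq q D = cq q D + cq q D := by
        have : ∀ z : ZMod 3, -z = z + z := by decide
        exact this _
      rw [e4, w3_add, Units.val_mul]
      ring
    rw [e3', em_w3]
    exact AddChar.map_neg_eq_conj _ _
  rw [h, e2, map_mul, map_mul, Complex.conj_conj, Complex.conj_conj]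
  ring

end Pool.Agent.Lib.MP_1a91b9_ntK
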