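import Pool.Agent.Lib.MP_1a91b9_ntK.A.Ind2
import Pool.Agent.Lib.MP_1a91b9_ntK.A.Ind0
import Pool.Agent.Lib.MP_1a91b9_ntK.A.GoodX
import Pool.Agent.Lib.MP_1a91b9_ntK.A.CubeT

/-!
# Cubic twists, part A, file PsD: the class `j = 1` (`√-3` divides `D` exactly once)

`PsJ k 1 z = -PsJ (-k) 2 (-z)`, so its cube is `C0D ^ 3 (1 + epD k (3 z))`, `epD k P = -2 - 2 ω^k X0² X P - Y P / η`. The even
part of `epD k (1 / 3 + Q)` in `Q` is `2 ω^k - 3 + 3 / d³ + 3 (ω^k - 3) X0² / d² + 6 (ω^k - 1) X0 / d`, `d = X Q - X0`. By the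
expansions of GoodX the sum of `tau epD` over the classes is `√-3 (l³ + l)`, `l` the residue of `∑ tau ξ`.
-/

set_option autoImplicit false

namespace Pool.Agent.Lib.MP_1a91b9_ntK

open NumberField IsDedekindDomain Pool.Agent.Lib.MP_1a91b9_ntT Pool.Agent.Lib.MP_1a91b9_ntG
  Pool.Agent.Lib.MP_1a91b9_ntH

noncomputable section

theorem PsD_val (u : ZMod 3) : ∃ n : ℤ, (((-u).val : ℕ) : ℂ) = -((u.val : ℕ) : ℂ) + 3 * (n : ℂ) := by
  have h : u = 0 ∨ u = 1 ∨ u = 2 := by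
    revert u
    decide
  rcases h with rfl | rfl | rfl
  · refine ⟨0, ?_⟩
    have h1 : (-(0 : ZMod 3)).val = 0 := rfl
    have h2 : (0 : ZMod 3).val = 0 := rfl
    rw [h1, h2]
    norm_num
  · refine ⟨1, ?_⟩
    have h1 : (-(1 : ZMod 3)).val = 2 := rfl
    have h2 : (1 : ZMod 3).val = 1 := rfl
    rw [h1, h2]
    norm_num
  · refine ⟨1, ?_⟩
    have h1 : (-(2 : ZMod 3)).val = 1 := rfl
    have h2 : (2 : ZMod 3).val = 2 := rfl
    rw [h1, h2]
    norm_num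

/-- `PsJ` is odd up to the exchange of the characters -/
theorem PsJ_neg (k j : ZMod 3) (z : ℂ) : PsJ k j z = -PsJ (-k) (-j) (-z) := by
  have key : ∀ u v : ZMod 3, E1 (z + ((-u).val : ℂ) / 3 + ((-v).val : ℂ) * T0) =
      -E1 (-z + (u.val : ℂ) / 3 + (v.val : ℂ) * T0) := by
    intro u v
    obtain ⟨n, hn⟩ := PsD_val u
    obtain ⟨m, hm⟩ := PsD_val v
    rw [hn, hm, ← E1_odd]
    have hl : (n : ℂ) * 1 + (m : ℂ) * (3 * T0) ∈ PP.lattice :=
      add_mem (S3.mul_int_mem S3.one_mem n) (S3.mul_int_mem three_T0_mem m)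
    rw [← S3.E1_add hl (-(-z + (u.val : ℂ) / 3 + (v.val : ℂ) * T0))]
    congr 1
    ring
  rw [PsJ, PsJ, ← Finset.sum_neg_distrib,
    ← Equiv.sum_comp (Equiv.neg (ZMod 3)) (fun u => ∑ v : ZMod 3, e3 (-(k * u) - j * v) *
      E1 (z + (u.val : ℂ) / 3 + (v.val : ℂ) * T0))]
  refine Finset.sum_congr rfl fun u _ => ?_
  rw [← Finset.sum_neg_distrib,
    ← Equiv.sum_comp (Equiv.neg (ZMod 3)) (fun v => e3 (-(k * (Equiv.neg (ZMod 3)) u) - j * v) *
      E1 (z + ((((Equiv.neg (ZMod 3)) u)).val : ℂ) / 3 + (v.val : ℂ) * T0))]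
  refine Finset.sum_congr rfl fun v _ => ?_
  simp only [Equiv.neg_apply]
  have h1 : -(k * -u) - j * -v = -(-k * u) - -j * v := by ring
  rw [h1, key]
  ring

theorem PsJ_one (k : ZMod 3) (z : ℂ) : PsJ k 1 z = -PsC (-k) (-z) := by
  rw [PsJ_neg, ← PsJ_two]
  have h : (-1 : ZMod 3) = 2 := by decide
  rw [h]

/-- the constant of the class `j = 1` -/
def C0D : ℂ := -(3 * Om * kapC)

theorem C0D_ne : C0D ≠ 0 := neg_ne_zero.2 (mul_ne_zero (mul_ne_zero (by norm_num) Om_ne_zero) kapC_ne)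

/-- the deviation -/
def epD (k : ZMod 3) (P : ℂ) : ℂ := -2 - 2 * (e3 k * X0 ^ 2 * S3.X P) - S3.Y P / eta

theorem Gen6.neg {z : ℂ} (h : Gen6 z) : Gen6 (-z) := by
  refine ⟨fun h1 => h.h6 ?_⟩
  have h2 := neg_mem h1
  rwa [show -(6 * -z) = 6 * z by ring] at h2

theorem e3_neg_sq (k : ZMod 3) : e3 (-k) ^ 2 = e3 k := by
  rw [pow_two, ← e3_add]
  congr 1
  revert k
  decide

/-- **the cube**, `j = 1` -/
theorem PsJ_one_cube (k : ZMod 3) {z : ℂ} (h : Gen6 z) : (PsJ k 1 z / C0D) ^ 3 = 1 + epD k (3 * z) := by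
  have h1 := PsC_div_cube (-k) h.neg
  rw [PsJ_one, C0D, neg_div_neg_eq, h1, show 3 * -z = -(3 * z) by ring, Rq.X_neg, Rq.Y_neg, mul_pow,
    e3_neg_sq, epD]
  ring

theorem gen_ninth : Gen6 (1 / 9 : ℂ) := by
  refine ⟨fun h => S3.two_third_notMem ?_⟩
  rwa [show 6 * (1 / 9 : ℂ) = 2 * (1 / 3) by norm_num] at h

/-- the cube, `j = 1`, `S` empty -/
theorem PsJ_one_one (k : ZMod 3) : (PsJ k 1 (1 / 9) / C0D) ^ 3 = -2 * (1 - e3 k) := by
  rw [PsJ_one_cube k gen_ninth, show 3 * (1 / 9 : ℂ) = 1 / 3 by norm_num, epD, Y_third, div_self eta_ne]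
  have h : S3.X (1 / 3) = X0 := rfl
  rw [h]
  linear_combination (-2 * e3 k) * X0_cube

/-! ### The addition formulas -/

/-- the chord, also when the second point has order two -/
theorem slope_gen {u v : ℂ} (hu : 2 * u ∉ PP.lattice) (hv : v ∉ PP.lattice)
    (h1 : u - v ∉ PP.lattice) (h2 : u + v ∉ PP.lattice) :
    (S3.X u - S3.X v) * (2 * (Rq.ev (u + v) - Rq.ev u - Rq.ev v)) = S3.Y u - S3.Y v := by
  by_cases h : 2 * v ∈ PP.lattice
  · have a1 := S3.sig hu hv (fun h3 => h1 (by have h4 := neg_mem h3; rwa [neg_sub] at h4))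
      (by rwa [add_comm])
    have e1 : E1 (v - u) = -E1 (u + v) := by
      rw [← E1_odd, ← S3.E1_add h (-(u + v))]
      congr 1
      ring
    have e2 : Rq.ev v = 0 := by
      have h4 : E1 v = -E1 v := by
        nth_rewrite 2 [show v = -v + 2 * v by ring]
        rw [S3.E1_add h, E1_odd, neg_neg]
      have h5 : E1 v = 0 := by linear_combination (1 / 2) * h4
      rw [Rq.ev, h5, zero_div]
    have e3' : S3.Y v = 0 := Y_half h
    rw [e1, add_comm v u] at a1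
    have hO := Om_ne_zero
    rw [e2, e3', S3.X, S3.X, S3.Y, Rq.ev, Rq.ev]
    field_simp
    linear_combination a1
  · exact Rq.slope hu h h1 h2

theorem third_cop {m : ℕ} (hm : m.Coprime 3) : (m : ℂ) * (1 / 3) ∉ PP.lattice := by
  intro h
  have hb := Nat.gcd_eq_gcd_ab m 3
  rw [hm] at hb
  have hb2 : (1 : ℂ) = (m : ℂ) * (m.gcdA 3 : ℤ) + 3 * (m.gcdB 3 : ℤ) := by exact_mod_cast hb
  have h2 := add_mem (S3.mul_int_mem h (m.gcdA 3)) (S3.mul_int_mem S3.one_mem (m.gcdB 3))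
  apply Rq.third_notMem
  have e : ((m.gcdA 3 : ℤ) : ℂ) * ((m : ℂ) * (1 / 3)) + ((m.gcdB 3 : ℤ) : ℂ) * 1 = 1 / 3 := by
    linear_combination (-1 / 3) * hb2
  rwa [e] at h2

/-- the translates of a point of order prime to `3` -/
theorem Od.tr {z : ℂ} (h : Od z) : 2 * (1 / 3 + z) ∉ PP.lattice := by
  obtain ⟨_, n, hn, hnz⟩ := h
  intro h1
  have hm : (2 * n).Coprime 3 := Nat.Coprime.mul_left (by norm_num) hn
  apply third_cop hm
  have h2 := sub_mem (gx_mul h1 n) (gx_mul hnz 2)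
  have e : (n : ℂ) * (2 * (1 / 3 + z)) - ((2 : ℕ) : ℂ) * ((n : ℂ) * z) = ((2 * n : ℕ) : ℂ) * (1 / 3) := by
    push_cast
    ring
  rwa [e] at h2

theorem Od.tr1 {z : ℂ} (h : Od z) : 1 / 3 + z ∉ PP.lattice := S3.notMem_of_two_mul h.tr

/-- the chord formulas, polynomial form -/
theorem add_third {Q : ℂ} (h : Od Q) :
    4 * (S3.X Q - X0) ^ 2 * S3.X (1 / 3 + Q) = (S3.Y Q - eta) ^ 2 - 4 * (S3.X Q - X0) ^ 2 * (X0 + S3.X Q) ∧
      (S3.X Q - X0) * S3.Y (1 / 3 + Q) = -eta * (S3.X Q - X0) + (S3.Y Q - eta) * (X0 - S3.X (1 / 3 + Q)) := by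
  have hQ := h.1
  have m1 : (1 / 3 : ℂ) - Q ∉ PP.lattice := by
    have h1 := h.neg.tr1
    rwa [← sub_eq_add_neg] at h1
  have a1 := slope_gen S3.two_third_notMem hQ m1 h.tr1
  have a2 := Rq.sq Rq.third_notMem hQ h.tr1
  have a3 := Rq.third S3.two_third_notMem hQ h.tr
  have eX : S3.X (1 / 3) = X0 := rfl
  rw [eX, Y_third] at a1 a3
  rw [eX] at a2
  set L := Rq.ev (1 / 3 + Q) - Rq.ev (1 / 3) - Rq.ev Q with hL
  set x := S3.X Q with hx
  set y := S3.Y Q with hy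
  set x3 := S3.X (1 / 3 + Q) with hx3
  constructor
  · linear_combination (-4 * (x - X0) ^ 2) * a2 + (2 * L * (X0 - x) + (eta - y)) * a1
  · rw [a3]
    linear_combination (-(X0 - x3)) * a1

/-- the even part of `X (1 / 3 + Q)` and of `Y (1 / 3 + Q)` -/
theorem even_XY {Q : ℂ} (h : Od Q) (hd : S3.X Q - X0 ≠ 0) :
    S3.X (1 / 3 + Q) + S3.X (1 / 3 - Q) =
      2 * X0 + 6 * X0 ^ 2 / (S3.X Q - X0) - 3 / (S3.X Q - X0) ^ 2 ∧
    (S3.Y (1 / 3 + Q) + S3.Y (1 / 3 - Q)) / eta =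
      2 * (1 + 6 * X0 / (S3.X Q - X0) + 9 * X0 ^ 2 / (S3.X Q - X0) ^ 2 - 3 / (S3.X Q - X0) ^ 3) := by
  obtain ⟨a1, a2⟩ := add_third h
  obtain ⟨b1, b2⟩ := add_third h.neg
  rw [Rq.X_neg, Rq.Y_neg, ← sub_eq_add_neg] at b1 b2
  have hY := S3.Y_sq h.1
  have he := eta_sq
  have hX := X0_cube
  have hη := eta_ne
  set y := S3.Y Q with hy
  set x := S3.X Q with hx
  obtain ⟨d, hdx⟩ : ∃ d, x = d + X0 := ⟨x - X0, by ring⟩
  rw [hdx] at a1 a2 b1 b2 hY hd ⊢
  rw [add_sub_cancel_right] at a1 a2 b1 b2 hd ⊢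
  set p := S3.X (1 / 3 + Q) with hp
  set p' := S3.X (1 / 3 - Q) with hp'
  set q := S3.Y (1 / 3 + Q) with hq
  set q' := S3.Y (1 / 3 - Q) with hq'
  have h1 : 4 * d ^ 2 * (p + p') = 8 * d ^ 2 * X0 + 24 * d * X0 ^ 2 - 12 := by
    linear_combination a1 + b1 + 2 * hY + 2 * he + 8 * hX
  have h2 : 4 * d ^ 3 * (q + q') =
      eta * (8 * d ^ 3 + 48 * X0 * d ^ 2 + 72 * d * X0 ^ 2 - 24) := by
    linear_combination 4 * d ^ 2 * a2 + 4 * d ^ 2 * b2 - (y - eta) * a1 + (y + eta) * b1 +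
      6 * eta * hY + 2 * eta * he + 24 * eta * hX
  constructor
  · field_simp
    linear_combination (1 / 4) * h1
  · rw [div_eq_iff hη]
    field_simp
    linear_combination (1 / 4) * h2

/-- **the even part of the deviation** -/
theorem epD_even (k : ZMod 3) {Q : ℂ} (h : Od Q) (hd : S3.X Q - X0 ≠ 0) :
    epD k (1 / 3 + Q) + epD k (1 / 3 - Q) = 2 * ((2 * e3 k - 3) + (3 * 1 / (S3.X Q - X0) ^ 3 +
      3 * (e3 k - 3 * 1) * X0 ^ 2 / (S3.X Q - X0) ^ 2 + 6 * (e3 k - 1) * X0 / (S3.X Q - X0))) := by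
  obtain ⟨h1, h2⟩ := even_XY h hd
  have e : epD k (1 / 3 + Q) + epD k (1 / 3 - Q) = -4 - 2 * (e3 k * X0 ^ 2 *
      (S3.X (1 / 3 + Q) + S3.X (1 / 3 - Q))) - (S3.Y (1 / 3 + Q) + S3.Y (1 / 3 - Q)) / eta := by
    rw [epD, epD]
    ring
  rw [e, h1, h2]
  have hX := X0_cube
  linear_combination (-4 * e3 k - 12 * e3 k * X0 / (S3.X Q - X0)) * hX

/-! ### The sum over the classes -/

section

variable {A : ValuationSubring ℂ}

theorem epD_le (hA : Three A) (k : ZMod 3) {P : ℂ} (hs : sq3 * P ∉ PP.lattice) (h : Gd A P)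
    (h' : Gd A (sq3 * P)) : A.valuation (epD k P) ≤ 1 := by
  have hY := v_Y_lt hA hs h h'
  have hX : A.valuation (S3.X P) ≤ 1 := by
    have e : S3.X P = (S3.X P + 1) - 1 := by ring
    rw [e]
    refine A.valuation.map_sub_le (h.lt hA).le ?_
    rw [map_one]
  have h2 := v_two3 hA
  have he : A.valuation (e3 k) = 1 := by
    have h1 := congrArg A.valuation (e3_cube k)
    rw [map_pow, map_one] at h1
    exact (pow_eq_one_iff_of_nonneg zero_le (by norm_num)).1 h1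
  rw [epD]
  refine A.valuation.map_sub_le (A.valuation.map_sub_le ?_ ?_) ?_
  · rw [Valuation.map_neg, h2]
  · rw [map_mul, map_mul, map_mul, map_pow, h2, he, v_X0, one_pow, one_mul, one_mul, one_mul]
    exact hX
  · rw [map_div₀, eta, map_mul, v_y0, one_mul]
    exact ((div_lt_one₀ v_sq3_pos).2 hY).le

variable {m c : 𝓞 K}

theorem PsD_em9 (m : 𝓞 K) : em (9 * m) = 9 * em m := by
  have h1 := rt_em_int 9
  rw [rt_em_mul]
  have h2 : (((9 : ℤ) : 𝓞 K)) = 9 := by norm_num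
  rw [h2] at h1
  rw [h1]
  norm_num

theorem PsD_ndvd (hu : ¬ IsUnit m) (hcm : IsCoprime c (3 * m)) : ¬ m ∣ c := by
  rintro ⟨b, hb⟩
  apply hu
  obtain ⟨x, y, hxy⟩ := hcm
  refine IsUnit.of_mul_eq_one (x * b + y * 3) ?_
  rw [hb] at hxy
  linear_combination hxy

/-- **the term of one class** -/
theorem psD_eps (hA : Three A) (k : ZMod 3) (hm : (3 : 𝓞 K) ∣ m - 1) (hu : ¬ IsUnit m)
    (hc : (3 : 𝓞 K) ∣ c - 1) (hcm : IsCoprime c (3 * m)) :
    (PsJ k 1 (em c / em (9 * m)) / C0D) ^ 3 = 1 + epD k (1 / 3 + qt m c) ∧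
      A.valuation (epD k (1 / 3 + qt m c)) ≤ 1 := by
  have hm3 := three_dvd_not hm
  have hc3 := three_dvd_not hc
  have hm0 : em m ≠ 0 := rt_em_ne (by
    rintro rfl
    exact hm3 (dvd_zero _))
  have e9 := PsD_em9 m
  have hmc := PsD_ndvd hu hcm
  have hP : 1 / 3 + qt m c = 3 * (em c / em (9 * m)) := by
    rw [qt, e9, rt_em_mul, rt_em_three]
    field_simp
    ring
  have h3P : 3 * (1 / 3 + qt m c) = em c / em m := by
    rw [hP, e9]
    field_simp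
    ring
  obtain ⟨a0, a1, a2⟩ := good_quot hA hm3 hmc h3P
  have h6 : Gen6 (em c / em (9 * m)) := by
    refine ⟨fun h => ?_⟩
    obtain ⟨b, hb⟩ := Half_mem_iff.1 h
    have h4 : 3 * (b * m) = 2 * c := by
      apply Half_em_inj
      rw [rt_em_mul, rt_em_mul, rt_em_mul, hb, e9, rt_em_three, Res_em_two]
      field_simp
      ring
    have h5 : s3 ∣ 2 * c := by
      rw [← h4]
      exact s3_dvd_three.mul_right _
    rcases s3_dvd_mul h5 with h6 | h6
    · have h7 : s3 ∣ (1 : 𝓞 K) := by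
        have h8 := dvd_sub s3_dvd_three h6
        have e : (3 : 𝓞 K) - 2 = 1 := by norm_num
        rwa [e] at h8
      have h9 := r3_eq_zero.2 h7
      rw [map_one] at h9
      exact absurd h9 (by decide)
    · exact hc3 h6
  refine ⟨?_, epD_le hA k a0 a1 a2⟩
  rw [PsJ_one_cube k h6, ← hP]

/-- the point of a class has order prime to `3` -/
theorem od_quot {m d : 𝓞 K} (hm : ¬ s3 ∣ m) (hd : ¬ m ∣ d) : Od (em d / em m) := by
  obtain ⟨h1, h2, _, _⟩ := s3_mul_notMem hm hd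
  have hm0 : em m ≠ 0 := by
    intro h0
    have h1 : m = 0 := Half_em_inj (by rw [h0, Res_em_zero])
    rw [h1] at hm
    exact hm (dvd_zero _)
  obtain ⟨m', hm'⟩ := dvd_Nz m
  have hn : (Nz m).Coprime 3 := by
    rw [Nat.coprime_comm, Nat.Prime.coprime_iff_not_dvd Nat.prime_three, ← s3_dvd_iff]
    exact hm
  have hN : em m * em m' = ((Nz m : ℕ) : ℂ) := by
    rw [← Res_em_mul, hm']
    exact rt_em_nat _
  refine ⟨h2, Nz m, hn, Half_mem_iff.2 ⟨m' * d, ?_⟩⟩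
  rw [Res_em_mul, ← hN]
  field_simp

theorem od_qt (hm : (3 : 𝓞 K) ∣ m - 1) (hu : ¬ IsUnit m) (hc : (3 : 𝓞 K) ∣ c - 1)
    (hcm : IsCoprime c (3 * m)) : Od (qt m c) := by
  obtain ⟨d, _, hd, e⟩ := qt_eq hm hc hcm hu
  rw [e]
  exact od_quot (three_dvd_not hm) hd

/-- the sum over the classes: only the even part matters -/
theorem sum_even {μ : 𝓞 K} {ι : Type} [Fintype ι] {c : ι → 𝓞 K} (hμ : (3 : 𝓞 K) ∣ μ - 1)
    (hc : RepsG 3 (3 * μ) c) (w : 𝓞 K → ℂ) (hw : ∀ a b, μ ∣ a - b → w a = w b)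
    (hw' : ∀ a, w (-a) = w a) (f : ℂ → ℂ) (hf : ∀ l ∈ PP.lattice, ∀ z, f (z + l) = f z) :
    2 * ∑ i, w (c i) * f (1 / 3 + qt μ (c i)) =
      ∑ i, w (c i) * (f (1 / 3 + qt μ (c i)) + f (1 / 3 - qt μ (c i))) := by
  classical
  have hm0 : em μ ≠ 0 := rt_em_ne (by
    rintro rfl
    exact three_dvd_not hμ (dvd_zero _))
  choose σ hσ using fun i => rep_inv hμ hc i
  have hσσ : ∀ i, σ (σ i) = i := by
    intro i
    apply hc.inj
    have h1 := dvd_sub (hσ i) (hσ (σ i))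
    have e : 2 * μ - c i - c (σ i) - (2 * μ - c (σ i) - c (σ (σ i))) = c (σ (σ i)) - c i := by ring
    rwa [e] at h1
  let E : Equiv.Perm ι := ⟨σ, σ, hσσ, hσσ⟩
  have hw1 : ∀ i, w (c (σ i)) = w (c i) := by
    intro i
    rw [← hw' (c i)]
    apply hw
    obtain ⟨g, hg⟩ := hσ i
    exact ⟨2 - 3 * g, by linear_combination -hg⟩
  have hE : ∀ i, f (1 / 3 + qt μ (c (σ i))) = f (1 / 3 - qt μ (c i)) := by
    intro i
    obtain ⟨g, hg⟩ := hσ i
    have h1 : f (1 / 3 - qt μ (c i)) = f (1 / 3 + qt μ (c (σ i)) + em g) := by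
      congr 1
      have h2 := congrArg em hg
      rw [rt_em_sub, rt_em_sub, rt_em_mul, rt_em_mul, rt_em_mul, rt_em_three, Res_em_two] at h2
      rw [qt, qt, rt_em_mul, rt_em_three]
      field_simp
      linear_combination h2
    rw [h1, hf _ (Half_mem_iff.2 ⟨g, rfl⟩)]
  have h2 : ∑ i, w (c i) * f (1 / 3 + qt μ (c i)) = ∑ i, w (c i) * f (1 / 3 - qt μ (c i)) := by
    rw [← Equiv.sum_comp E (fun i => w (c i) * f (1 / 3 + qt μ (c i)))]
    refine Finset.sum_congr rfl fun i _ => ?_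
    change w (c (σ i)) * f (1 / 3 + qt μ (c (σ i))) = _
    rw [hw1, hE]
  rw [two_mul]
  nth_rewrite 2 [h2]
  rw [← Finset.sum_add_distrib]
  exact Finset.sum_congr rfl fun i _ => by ring

/-- **the sum of the deviations**, weighted by the lifts -/
theorem psD_sum (hA : Three A) (k : ZMod 3) {e : P3 → ZMod 3} {S : Finset P3} (hS : S.Nonempty)
    (he : ∀ q ∈ S, e q ≠ 0) {ι : Type} [Fintype ι] {c : ι → 𝓞 K} (hc : RepsG 3 (3 * DD3 S) c)
    {l : ZMod 3} (hl : Rt A (∑ i, (tauC e S (c i) : ℂ) * xi (qt (DD3 S) (c i))) l) :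
    Rt A ((∑ i, (tauC e S (c i) : ℂ) * epD k (1 / 3 + qt (DD3 S) (c i))) / em s3) (-l) := by
  classical
  have hsq := sq3_ne
  have hOd : ∀ i, Od (qt (DD3 S) (c i)) := fun i =>
    od_qt (DD3_three S) (DD3_unit hS) (hc.fx i) (hc.cop i)
  have ht3 : ∀ i, wtC e S (c i) ^ 3 = (tauC e S (c i) : ℂ) := fun i =>
    wtC_cube e S (fun q hq => cnt3_not_dvd hc i hq)
  have hsum0 : ∑ i, (tauC e S (c i) : ℂ) = 0 := by
    exact_mod_cast congrArg (fun n : ℤ => (n : ℂ)) (sum_tau e hS he hc)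
  have hev := sum_even (DD3_three S) hc (fun x => wtC e S x ^ 3)
    (fun a b hab => by
      have h : wtC e S a = wtC e S b := Finset.prod_congr rfl fun q hq => by
        rw [(chq_chrP q (e q)).per a b ((dvd_DD3.2 hq).trans hab)]
      simp only [h])
    (fun a => by
      have h : wtC e S (-a) = wtC e S a := Finset.prod_congr rfl fun q _ => by rw [chq_neg]
      simp only [h])
    (epD k) (fun l hl z => by rw [epD, epD, S3.X_add hl, Rq.Y_add hl])
  simp only [ht3] at hev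
  set Q : ι → ℂ := fun i => qt (DD3 S) (c i) with hQ
  set t : ι → ℂ := fun i => (tauC e S (c i) : ℂ) with ht
  have hd : ∀ i, S3.X (Q i) - X0 ≠ 0 := fun i => d_ne hA (hOd i)
  have hw : A.valuation (e3 k - 1) < 1 := by
    have h1 : A.valuation (e3 k ^ 3 - 1) < 1 := by
      rw [e3_cube, sub_self, map_zero]
      exact zero_lt_one
    have h2 := (Rt_of_cube hA h1).eq hA 1 (map_one r3)
    rwa [rt_em_one] at h2
  let M : ι → ℂ := fun i => 3 * 1 / (S3.X (Q i) - X0) ^ 3 +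
    3 * (e3 k - 3 * 1) * X0 ^ 2 / (S3.X (Q i) - X0) ^ 2 + 6 * (e3 k - 1) * X0 / (S3.X (Q i) - X0)
  let C : ℂ := 1 * K3 + (e3 k - 3 * 1) * X0 ^ 2 * K2
  have hr : ∀ i, A.valuation (M i - (C + sq3 * (1 * xi (Q i) ^ 3 + xi (Q i)))) < A.valuation sq3 :=
    fun i => even_res hA (hOd i) (j := 1) (ω := e3 k) (by rw [map_one]) hw
  have hM : ∑ i, t i * epD k (1 / 3 + Q i) = ∑ i, t i * M i := by
    apply mul_left_cancel₀ (two_ne_zero (α := ℂ))
    have h1 : ∀ i, t i * (epD k (1 / 3 + Q i) + epD k (1 / 3 - Q i)) =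
        2 * (2 * e3 k - 3) * t i + 2 * (t i * M i) := by
      intro i
      rw [epD_even k (hOd i) (hd i)]
      ring
    rw [show 2 * ∑ i, t i * epD k (1 / 3 + Q i) =
      ∑ i, t i * (epD k (1 / 3 + Q i) + epD k (1 / 3 - Q i)) from hev,
      Finset.sum_congr rfl fun i _ => h1 i, Finset.sum_add_distrib, ← Finset.mul_sum,
      ← Finset.mul_sum, hsum0, mul_zero, zero_add]
  have hdec : (∑ i, t i * epD k (1 / 3 + Q i)) / em s3 = ∑ i, t i * xi (Q i) ^ 3 +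
      (∑ i, t i * xi (Q i) + (∑ i, t i * (M i - (C + sq3 * (1 * xi (Q i) ^ 3 + xi (Q i))))) / sq3) := by
    have hs : em s3 = sq3 := em_s3
    have h1 : ∑ i, t i * M i = C * ∑ i, t i + sq3 * ∑ i, t i * xi (Q i) ^ 3 +
        sq3 * ∑ i, t i * xi (Q i) +
        ∑ i, t i * (M i - (C + sq3 * (1 * xi (Q i) ^ 3 + xi (Q i)))) := by
      rw [Finset.mul_sum, Finset.mul_sum, Finset.mul_sum, ← Finset.sum_add_distrib,
        ← Finset.sum_add_distrib, ← Finset.sum_add_distrib]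
      refine Finset.sum_congr rfl fun i _ => ?_
      ring
    rw [hM, hs, h1, hsum0]
    field_simp
    ring
  have htle : ∀ i, A.valuation (t i) ≤ 1 := fun i => (Rt.int (tauC e S (c i))).le
  have hcube : Rt A (∑ i, t i * xi (Q i) ^ 3) l := by
    obtain ⟨y, hy, h1, -⟩ := cube_sum (A := A) Finset.univ (x := fun i => t i * xi (Q i))
      (fun i _ => by
        rw [map_mul]
        exact mul_le_one₀ (htle i) zero_le (xi_le hA (hOd i)))
    have h2 : ∀ i, (t i * xi (Q i)) ^ 3 = t i * xi (Q i) ^ 3 := by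
      intro i
      have h3 : t i ^ 3 = t i := by
        rcases tauC_cases e S (c i) with h | h | h <;> simp only [ht, h] <;> norm_num
      rw [mul_pow, h3]
    rw [Finset.sum_congr rfl fun i _ => h2 i] at h1
    have h4 : ∀ y : ZMod 3, y ^ 3 = y := by decide
    have h5 := hl.pow 3
    rw [h4] at h5
    refine h5.congr ?_
    have e1 : ∑ i, t i * xi (Q i) ^ 3 - (∑ i, t i * xi (Q i)) ^ 3 = -(3 * y) := by
      rw [h1]
      ring
    rw [e1, Valuation.map_neg, map_mul]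
    exact mul_lt_one_of_lt_of_le (v_three_lt hA) hy
  rw [show ∑ i, (tauC e S (c i) : ℂ) * epD k (1 / 3 + qt (DD3 S) (c i)) =
    ∑ i, t i * epD k (1 / 3 + Q i) from rfl, hdec]
  have h6 : Rt A ((∑ i, t i * (M i - (C + sq3 * (1 * xi (Q i) ^ 3 + xi (Q i))))) / sq3) 0 := by
    refine (Rt.zero_iff hA).2 ?_
    rw [map_div₀, div_lt_one₀ v_sq3_pos]
    refine A.valuation.map_sum_lt (by
      have := v_sq3_pos (A := A)
      exact this.ne') fun i _ => ?_
    rw [map_mul]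
    calc A.valuation (t i) * A.valuation (M i - (C + sq3 * (1 * xi (Q i) ^ 3 + xi (Q i))))
        ≤ 1 * A.valuation (M i - (C + sq3 * (1 * xi (Q i) ^ 3 + xi (Q i)))) :=
          mul_le_mul_left (htle i) _
      _ < A.valuation sq3 := by
          rw [one_mul]
          exact hr i
  have h7 := hcube.add (hl.add h6)
  have h8 : ∀ y : ZMod 3, y + (y + 0) = -y := by decide
  rwa [h8] at h7

end

end

end Pool.Agent.Lib.MP_1a91b9_ntK
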