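import Pool.Agent.Lib.MP_1a91b9_ntH.A.RatDefs
import Pool.Agent.Lib.MP_1a91b9_ntK.A.Gen
import Pool.Agent.Lib.MP_1a91b9_ntH.A.RatZ

/-!
# Phase 3, file Rat3G: the action of the automorphisms of `ℂ` at all torsion points

The relation `Rel τ` is additive without any condition on the points of order two.
-/

set_option autoImplicit false

namespace Pool.Agent.Lib.MP_1a91b9_ntK.Rat3

open NumberField Pool.Agent.Lib.MP_1a91b9_ntT Pool.Agent.Lib.MP_1a91b9_ntT.S3
open Pool.Agent.Lib.MP_1a91b9_ntT.Rq Pool.Agent.Lib.MP_1a91b9_ntH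

noncomputable section

theorem ev_half {z : ℂ} (h : 2 * z ∈ PP.lattice) : ev z = 0 := by
  have e : z = -z + 2 * z := by ring
  have h1 : ev z = -ev z := by
    conv_lhs => rw [e]
    rw [ev_add h, ev_neg]
  have h2 : 2 * ev z = 0 := by linear_combination h1
  simpa using h2

theorem Y_half {z : ℂ} (h : 2 * z ∈ PP.lattice) : Y z = 0 := by rw [Y, Q_half h, zero_div]

theorem half_of_Y {z : ℂ} (h : Y z = 0) : 2 * z ∈ PP.lattice := by
  by_contra hc
  exact Y_ne hc h

/-- The points of order two. -/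
theorem half_cases {T : ℂ} (hT : 2 * T ∈ PP.lattice) (hT' : T ∉ PP.lattice) :
    ∃ j : Fin 3, T - zt ^ (j : ℕ) * (1 / 2) ∈ PP.lattice := by
  obtain ⟨m, n, hmn⟩ := mem_PP.1 hT
  have hT2 : T = (m : ℂ) / 2 + (n : ℂ) / 2 * zt := by linear_combination -hmn / 2
  rcases Int.even_or_odd' m with ⟨a, rfl | rfl⟩ <;> rcases Int.even_or_odd' n with ⟨b, rfl | rfl⟩
  · exfalso
    apply hT'
    rw [hT2]
    refine mem_PP.2 ⟨a, b, ?_⟩
    push_cast
    ring
  · refine ⟨1, mem_PP.2 ⟨a, b, ?_⟩⟩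
    rw [hT2]
    push_cast
    simp only [Fin.val_one]
    ring
  · refine ⟨0, mem_PP.2 ⟨a, b, ?_⟩⟩
    rw [hT2]
    push_cast
    simp only [Fin.val_zero]
    ring
  · refine ⟨2, mem_PP.2 ⟨a + 1, b + 1, ?_⟩⟩
    rw [hT2]
    push_cast
    simp only [Fin.val_two]
    linear_combination zt_quad / 2

theorem X_half_ne : X (1 / 2) ≠ 0 := by
  intro h0
  have h := RatZ_half
  rw [h0] at h
  norm_num at h

theorem X_pow_zt (i : ℕ) (z : ℂ) : X (zt ^ i * z) = zt ^ i * X z := by
  induction i with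
  | zero => rw [pow_zero, one_mul, one_mul]
  | succ i ih =>
    have e : zt ^ (i + 1) * z = zt * (zt ^ i * z) := by ring
    rw [e, Rq.X_zt, ih]
    ring

theorem zt_pow_inj {i j : Fin 3} (h : zt ^ (i : ℕ) = zt ^ (j : ℕ)) : i = j := by
  apply Fin.ext
  exact zt_spec.pow_inj i.2 j.2 h

/-- Injectivity of `X` up to the sign, without exceptions. -/
theorem X_inj {w z : ℂ} (hw : w ∉ PP.lattice) (hz : z ∉ PP.lattice) (h : X z = X w) :
    z - w ∈ PP.lattice ∨ z + w ∈ PP.lattice := by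
  by_cases hw2 : 2 * w ∈ PP.lattice
  · left
    have h1 : Y z ^ 2 = 0 := by
      rw [Y_sq hz, h, ← Y_sq hw, Y_half hw2]
      norm_num
    have hz2 := half_of_Y (pow_eq_zero_iff (by norm_num) |>.1 h1)
    obtain ⟨i, hi⟩ := half_cases hw2 hw
    obtain ⟨j, hj⟩ := half_cases hz2 hz
    have h2 : X w = zt ^ (i : ℕ) * X (1 / 2) := by
      rw [← X_pow_zt]
      have e : w = zt ^ (i : ℕ) * (1 / 2) + (w - zt ^ (i : ℕ) * (1 / 2)) := by ring
      conv_lhs => rw [e]
      rw [X_add hi]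
    have h3 : X z = zt ^ (j : ℕ) * X (1 / 2) := by
      rw [← X_pow_zt]
      have e : z = zt ^ (j : ℕ) * (1 / 2) + (z - zt ^ (j : ℕ) * (1 / 2)) := by ring
      conv_lhs => rw [e]
      rw [X_add hj]
    rw [h2, h3] at h
    have h4 := zt_pow_inj (mul_right_cancel₀ X_half_ne h)
    subst h4
    have h5 := sub_mem hj hi
    have e : z - zt ^ (j : ℕ) * (1 / 2) - (w - zt ^ (j : ℕ) * (1 / 2)) = z - w := by ring
    rwa [e] at h5
  · refine Per.P_inj hw2 hz ?_
    rw [X, X] at h
    exact (div_left_inj' (pow_ne_zero 2 Om_ne_zero)).1 h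

theorem uniqG {w w' : ℂ} (hw : w ∉ PP.lattice) (hw' : w' ∉ PP.lattice) (hX : X w' = X w)
    (hY : Y w' = Y w) : w' - w ∈ PP.lattice := by
  rcases X_inj hw hw' hX with h | h
  · exact h
  · have e : w' = -w + (w' + w) := by ring
    have h1 : Y w' = -Y w := by
      conv_lhs => rw [e]
      rw [Y_add h, Y_neg]
    rw [hY] at h1
    have h2 : Y w = 0 := by
      have : 2 * Y w = 0 := by linear_combination h1
      simpa using this
    have h3 := sub_mem h (half_of_Y h2)
    have e2 : w' + w - 2 * w = w' - w := by ring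
    rwa [e2] at h3

theorem neg_notMem {z : ℂ} (h : z ∉ PP.lattice) : -z ∉ PP.lattice := fun hn => h (neg_mem_iff.1 hn)

theorem uniqG_neg {w w' : ℂ} (hw : w ∉ PP.lattice) (hw' : w' ∉ PP.lattice) (hX : X w' = X w)
    (hY : Y w' = -Y w) : w' + w ∈ PP.lattice := by
  have h := uniqG (neg_notMem hw) hw' (by rw [hX, X_neg]) (by rw [hY, Y_neg])
  rwa [sub_neg_eq_add] at h

theorem slope_T {u v : ℂ} (hu : 2 * u ∈ PP.lattice) (hu' : u ∉ PP.lattice)
    (hv : 2 * v ∉ PP.lattice) :
    (X u - X v) * (2 * (ev (u + v) - ev u - ev v)) = Y u - Y v := by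
  have h1 := RatZ_add hv hu hu'
  have hO := Om_ne_zero
  rw [ev_half hu, Y_half hu]
  have h2 : Om * (2 * (X v - X u) * (ev (u + v) - ev v)) = Om * Y v := by
    rw [← h1, ev, ev]
    field_simp
  have h3 := mul_left_cancel₀ hO h2
  linear_combination -h3

theorem slopeG {u v : ℂ} (hu : u ∉ PP.lattice) (hv : v ∉ PP.lattice)
    (h1 : u - v ∉ PP.lattice) (h2 : u + v ∉ PP.lattice) :
    (X u - X v) * (2 * (ev (u + v) - ev u - ev v)) = Y u - Y v := by
  by_cases hu2 : 2 * u ∈ PP.lattice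
  · by_cases hv2 : 2 * v ∈ PP.lattice
    · have h3 : 2 * (u + v) ∈ PP.lattice := by
        rw [mul_add]
        exact add_mem hu2 hv2
      rw [ev_half hu2, ev_half hv2, ev_half h3, Y_half hu2, Y_half hv2]
      ring
    · exact slope_T hu2 hu hv2
  · by_cases hv2 : 2 * v ∈ PP.lattice
    · have h3 := slope_T hv2 hv hu2
      rw [add_comm v u] at h3
      linear_combination -h3
    · exact slope hu2 hv2 h1 h2

theorem thirdG {u v : ℂ} (hu : u ∉ PP.lattice) (hv : v ∉ PP.lattice)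
    (huv : u + v ∉ PP.lattice) :
    Y (u + v) = -Y u + 2 * (ev (u + v) - ev u - ev v) * (X u - X (u + v)) := by
  by_cases h : 2 * u + v ∈ PP.lattice
  · have e : u + v = -u + (2 * u + v) := by ring
    have h1 : X (u + v) = X u := by rw [e, X_add h, X_neg]
    have h2 : Y (u + v) = -Y u := by rw [e, Y_add h, Y_neg]
    rw [h1, h2, sub_self, mul_zero, add_zero]
  · have h4 : u - -(u + v) ∉ PP.lattice := by
      have e : u - -(u + v) = 2 * u + v := by ring
      rwa [e]
    have h5 : u + -(u + v) ∉ PP.lattice := by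
      have e : u + -(u + v) = -v := by ring
      rw [e]
      exact neg_notMem hv
    have h6 := slopeG hu (neg_notMem huv) h4 h5
    have e : u + -(u + v) = -v := by ring
    rw [e, X_neg, Y_neg, ev_neg, ev_neg] at h6
    linear_combination -h6

/-- **Additivity.** -/
theorem relG_add {τ : ℂ ≃+* ℂ} {u w u' w' : ℂ} (h : Rel τ u w) (h' : Rel τ u' w') :
    Rel τ (u + u') (w + w') ∧
      τ (ev (u + u') - ev u - ev u') = ev (w + w') - ev w - ev w' := by
  rcases h with ⟨h1, h2⟩ | ⟨h1, h2, h3, h4⟩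
  · refine ⟨?_, ?_⟩
    · have := rel_period h' h1 h2
      rwa [add_comm u' u, add_comm w' w] at this
    · rw [add_comm u u', add_comm w w', ev_add h1, ev_add h2, ev_coe h1, ev_coe h2, sub_zero,
        sub_zero, sub_self, sub_self, map_zero]
  rcases h' with ⟨h1', h2'⟩ | ⟨h1', h2', h3', h4'⟩
  · refine ⟨rel_period (Or.inr ⟨h1, h2, h3, h4⟩) h1' h2', ?_⟩
    rw [ev_add h1', ev_add h2', ev_coe h1', ev_coe h2', sub_zero, sub_zero, sub_self, sub_self,
      map_zero]
  by_cases hs : u + u' ∈ PP.lattice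
  · have e : u' = -u + (u + u') := by ring
    have a1 : X u' = X u := by rw [e, X_add hs, X_neg]
    have a2 : Y u' = -Y u := by rw [e, Y_add hs, Y_neg]
    have a3 : ev u' = -ev u := by rw [e, ev_add hs, ev_neg]
    have hsw : w' + w ∈ PP.lattice :=
      uniqG_neg h2 h2' (by rw [h3', a1, h3]) (by rw [h4', a2, map_neg, h4])
    have e' : w' = -w + (w' + w) := by ring
    have a3' : ev w' = -ev w := by
      conv_lhs => rw [e']
      rw [ev_add hsw, ev_neg]
    rw [add_comm w' w] at hsw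
    refine ⟨Or.inl ⟨hs, hsw⟩, ?_⟩
    rw [ev_coe hs, ev_coe hsw, a3, a3']
    simp
  have hsw : w + w' ∉ PP.lattice := by
    intro hsw
    have e' : w' = -w + (w + w') := by ring
    have b1 : X w' = X w := by rw [e', X_add hsw, X_neg]
    have b2 : Y w' = -Y w := by rw [e', Y_add hsw, Y_neg]
    have b3 : X u' = X u := τ.injective (by rw [← h3', ← h3, b1])
    have b4 : Y u' = -Y u := τ.injective (by rw [← h4', b2, h4, map_neg])
    have := uniqG_neg h1 h1' b3 b4
    rw [add_comm] at this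
    exact hs this
  -- the slopes correspond
  have hl : τ (ev (u + u') - ev u - ev u') = ev (w + w') - ev w - ev w' := by
    by_cases hd : u' - u ∈ PP.lattice
    · have hu : 2 * u ∉ PP.lattice := by
        intro h5
        apply hs
        have h6 := add_mem h5 hd
        have e : 2 * u + (u' - u) = u + u' := by ring
        rwa [e] at h6
      have hw : 2 * w ∉ PP.lattice := two_of_Y (by rw [h4]; exact (map_ne_zero τ).2 (Y_ne hu))
      have e : u' = u + (u' - u) := by ring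
      have c1 : X u' = X u := by rw [e, X_add hd]
      have c2 : Y u' = Y u := by rw [e, Y_add hd]
      have c3 : ev u' = ev u := by rw [e, ev_add hd]
      have hdw : w' - w ∈ PP.lattice :=
        uniqG h2 h2' (by rw [h3', c1, h3]) (by rw [h4', c2, h4])
      have e' : w' = w + (w' - w) := by ring
      have c3' : ev w' = ev w := by
        conv_lhs => rw [e']
        rw [ev_add hdw]
      have c4 : ev (u + u') = ev (2 * u) := by
        have e2 : u + u' = 2 * u + (u' - u) := by ring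
        rw [e2, ev_add hd]
      have c4' : ev (w + w') = ev (2 * w) := by
        have e2 : w + w' = 2 * w + (w' - w) := by ring
        rw [e2, ev_add hdw]
      have d1 := congrArg τ (dupl hu)
      have d2 := dupl hw
      simp only [map_mul, map_pow, map_ofNat] at d1
      rw [← h4, ← h3] at d1
      rw [c3, c4, c3', c4']
      apply mul_right_cancel₀ (Y_ne hw)
      have e3 : ev (2 * u) - ev u - ev u = ev (2 * u) - 2 * ev u := by ring
      rw [e3, d1]
      linear_combination -d2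
    · have hd' : u - u' ∉ PP.lattice := fun hh => hd (by have := neg_mem hh; rwa [neg_sub] at this)
      have hXne : X w ≠ X w' := by
        intro hX
        have hXu : X u = X u' := τ.injective (by rw [← h3, ← h3', hX])
        rcases X_inj h1' h1 hXu with hh | hh
        · exact hd' hh
        · exact hs hh
      have hdw : w - w' ∉ PP.lattice := by
        intro hh
        apply hXne
        have e' : w = w' + (w - w') := by ring
        conv_lhs => rw [e']
        rw [X_add hh]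
      have d1 := congrArg τ (slopeG h1 h1' hd' hs)
      have d2 := slopeG h2 h2' hdw hsw
      rw [map_mul, map_mul, map_sub, map_sub τ (Y u), ← h3, ← h3', ← h4, ← h4', map_ofNat] at d1
      have d3 : (X w - X w') * (2 * (τ (ev (u + u') - ev u - ev u'))) =
          (X w - X w') * (2 * (ev (w + w') - ev w - ev w')) := by rw [d1, d2]
      have d4 := mul_left_cancel₀ (sub_ne_zero.2 hXne) d3
      exact mul_left_cancel₀ two_ne_zero d4
  have hXs : X (w + w') = τ (X (u + u')) := by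
    have d1 := congrArg τ (Rq.sq h1 h1' hs)
    have d2 := Rq.sq h2 h2' hsw
    rw [map_pow, hl, d2, map_add, map_add, ← h3, ← h3'] at d1
    linear_combination d1
  refine ⟨Or.inr ⟨hs, hsw, hXs, ?_⟩, hl⟩
  have d1 := congrArg τ (thirdG h1 h1' hs)
  rw [thirdG h2 h2' hsw, ← hl, hXs, h3, h4, d1]
  simp only [map_add, map_neg, map_mul, map_sub, map_ofNat]

/-- The group of the `l` in the lattice with `Rel τ (l / m) (l w)`. -/
def relSubG (τ : ℂ ≃+* ℂ) (m : ℕ) (w : ℂ) : AddSubgroup ℂ where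
  carrier := {l | l ∈ PP.lattice ∧ Rel τ (l / m) (l * w)}
  zero_mem' := by
    refine ⟨zero_mem _, Or.inl ⟨?_, ?_⟩⟩
    · rw [zero_div]
      exact zero_mem _
    · rw [zero_mul]
      exact zero_mem _
  add_mem' := by
    rintro a b ⟨ha, ha'⟩ ⟨hb, hb'⟩
    refine ⟨add_mem ha hb, ?_⟩
    rw [add_div, add_mul]
    exact (relG_add ha' hb').1
  neg_mem' := by
    rintro a ⟨ha, ha'⟩
    refine ⟨neg_mem ha, ?_⟩
    rw [neg_div, neg_mul]
    exact rel_neg ha'

theorem relG_top {τ : ℂ ≃+* ℂ} (hτ : Fix τ) {m : ℕ} {w : ℂ}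
    (h : Rel τ (1 / m) w) {l : ℂ} (hl : l ∈ PP.lattice) : Rel τ (l / m) (l * w) := by
  have h1 : (1 : ℂ) ∈ relSubG τ m w := ⟨S3.one_mem, by rwa [one_mul]⟩
  have h2 : zt ∈ relSubG τ m w := ⟨zt_mem, by
    have := rel_zt hτ h
    rwa [mul_one_div] at this⟩
  obtain ⟨a, b, rfl⟩ := mem_PP.1 hl
  have h3 : (a : ℂ) + b * zt ∈ relSubG τ m w := by
    have e : (a : ℂ) + b * zt = a • (1 : ℂ) + b • zt := by
      rw [zsmul_eq_mul, zsmul_eq_mul, mul_one]
    rw [e]
    exact add_mem (AddSubgroup.zsmul_mem _ h1 a) (AddSubgroup.zsmul_mem _ h2 b)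
  exact h3.2

/-- The additive defect. -/
def defectG {τ : ℂ ≃+* ℂ} (hτ : Fix τ) {m : ℕ} {w : ℂ} (h : Rel τ (1 / m) w) :
    PP.lattice →+ ℂ where
  toFun l := τ (ev ((l : ℂ) / m)) - ev ((l : ℂ) * w)
  map_zero' := by
    have h0 : ((0 : PP.lattice) : ℂ) = 0 := rfl
    rw [h0, zero_div, zero_mul, ev_coe (zero_mem _), map_zero, sub_zero]
  map_add' a b := by
    have e : ((a + b : PP.lattice) : ℂ) = (a : ℂ) + b := rfl
    have h1 := (relG_add (relG_top hτ h a.2) (relG_top hτ h b.2)).2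
    rw [← add_div, ← add_mul] at h1
    rw [e]
    rw [map_sub, map_sub] at h1
    linear_combination h1

theorem defectG_zero {τ : ℂ ≃+* ℂ} (hτ : Fix τ) {m : ℕ} (hm : 0 < m) {w : ℂ}
    (h : Rel τ (1 / m) w) (l : PP.lattice) : τ (ev ((l : ℂ) / m)) = ev ((l : ℂ) * w) := by
  have hm0 : (m : ℂ) ≠ 0 := by exact_mod_cast hm.ne'
  have h1 : defectG hτ h (m • l) = m • defectG hτ h l := map_nsmul _ _ _
  have h2 : defectG hτ h (m • l) = 0 := by
    show τ (ev (((m • l : PP.lattice) : ℂ) / m)) - ev (((m • l : PP.lattice) : ℂ) * w) = 0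
    have e : ((m • l : PP.lattice) : ℂ) = (m : ℂ) * l := by
      rw [← nsmul_eq_mul]
      rfl
    have e1 : (m : ℂ) * l / m = l := by field_simp
    have hr := relG_top hτ h (S3.mul_mem (nat_mem m) l.2)
    rw [e1] at hr
    rw [e, e1, ev_coe l.2, map_zero]
    rcases hr with ⟨-, hr⟩ | ⟨hr, -⟩
    · rw [ev_coe hr, sub_zero]
    · exact absurd l.2 hr
  rw [h2, nsmul_eq_mul] at h1
  have h3 : defectG hτ h l = 0 := (mul_eq_zero.1 h1.symm).resolve_left hm0
  exact sub_eq_zero.1 h3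

theorem relG_unique {τ : ℂ ≃+* ℂ} {u w w' : ℂ} (h : Rel τ u w) (h' : Rel τ u w') :
    w' - w ∈ PP.lattice := by
  rcases h with ⟨h1, h2⟩ | ⟨h1, h2, h3, h4⟩
  · rcases h' with ⟨_, h2'⟩ | ⟨h1', _⟩
    · exact sub_mem h2' h2
    · exact absurd h1 h1'
  · rcases h' with ⟨h1', _⟩ | ⟨_, h2', h3', h4'⟩
    · exact absurd h1' h1
    · exact uniqG h2 h2' (by rw [h3', h3]) (by rw [h4', h4])

private theorem RG_mul (a b : 𝓞 K) : em (a * b) = em a * em b := by
  rw [em, em, em, ← map_mul]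
  rfl

private theorem RG_sub (a b : 𝓞 K) : em (a - b) = em a - em b := by
  rw [em, em, em, ← map_sub]
  rfl

private theorem RG_one : em 1 = 1 := by
  rw [em]
  exact map_one embK

private theorem RG_nat (n : ℕ) : em (n : 𝓞 K) = n := by
  rw [em, ← map_natCast embK n]
  rfl

/-- **The action of an automorphism on the `M`-torsion** is the multiplication by an element `χ` which
is congruent to `1` modulo `3` and prime to `M`. -/
theorem exists_act3 {τ : ℂ ≃+* ℂ} (hτ : Fix τ) (M : ℕ) (hM : 0 < M) (h3 : 3 ∣ M) :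
    ∃ χ : 𝓞 K, (3 : 𝓞 K) ∣ χ - 1 ∧ IsCoprime χ (M : 𝓞 K) ∧
      (∀ a : 𝓞 K, Rel τ (em a / M) (em (χ * a) / M)) ∧
      ∀ a : 𝓞 K, τ (ev (em a / M)) = ev (em (χ * a) / M) := by
  have hM0 : (M : ℂ) ≠ 0 := by exact_mod_cast hM.ne'
  obtain ⟨w, hw⟩ : ∃ w, Rel τ (1 / M) w := by
    by_cases h : (1 / M : ℂ) ∈ PP.lattice
    · exact ⟨0, Or.inl ⟨h, zero_mem _⟩⟩
    · exact rel_exists τ h
  have hMw : (M : ℂ) * w ∈ PP.lattice := by
    have h1 := relG_top hτ hw (S3.nat_mem M)
    rw [div_self hM0] at h1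
    rcases h1 with ⟨-, h1⟩ | ⟨h1, -⟩
    · exact h1
    · exact absurd S3.one_mem h1
  obtain ⟨χ, hχ⟩ := S3.mem_PP_iff.1 hMw
  have hw' : w = em χ / M := by
    rw [em, hχ]
    field_simp
  have hrel : ∀ a : 𝓞 K, Rel τ (em a / M) (em (χ * a) / M) := by
    intro a
    have h1 := relG_top hτ hw (S3.embK_mem a)
    rw [hw'] at h1
    have e : embK (a : K) * (em χ / M) = em (χ * a) / M := by
      rw [RG_mul]
      rw [em, em]
      ring
    rwa [e] at h1
  refine ⟨χ, ?_, ?_, hrel, ?_⟩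
  · obtain ⟨k, rfl⟩ := h3
    have hk0 : (k : ℂ) ≠ 0 := by
      intro h
      apply hM0
      push_cast
      rw [h, mul_zero]
    have h1 := hrel (k : 𝓞 K)
    have e1 : em (k : 𝓞 K) / ((3 * k : ℕ) : ℂ) = 1 / 3 := by
      rw [RG_nat]
      push_cast
      field_simp
    have e2 : em (χ * (k : 𝓞 K)) / ((3 * k : ℕ) : ℂ) = em χ * (1 / 3) := by
      rw [RG_mul, mul_div_assoc, e1]
    rw [e1, e2] at h1
    have h2 := relG_unique (rel_third hτ) h1
    refine embK_dvd (M := 3) (by norm_num) ?_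
    have e3 : embK ((χ - 1 : 𝓞 K) : K) / ((3 : ℕ) : ℂ) = em χ * (1 / 3) - 1 / 3 := by
      have h4 := RG_sub χ 1
      rw [RG_one] at h4
      rw [← em, h4]
      push_cast
      ring
    rw [e3]
    exact h2
  · -- multiplication by `χ` is injective modulo `M`
    have hinj : ∀ a : 𝓞 K, (M : 𝓞 K) ∣ χ * a → (M : 𝓞 K) ∣ a := by
      rintro a ⟨y, hy⟩
      have h1 : em (χ * a) / M ∈ PP.lattice := by
        rw [hy, RG_mul, RG_nat, mul_div_cancel_left₀ _ hM0]
        exact S3.embK_mem y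
      rcases hrel a with ⟨h2, -⟩ | ⟨-, h2, -⟩
      · exact embK_dvd hM h2
      · exact absurd h1 h2
    have hfin : Finite (𝓞 K ⧸ Ideal.span {(M : 𝓞 K)}) :=
      Ideal.finiteQuotientOfFreeOfNeBot _ (by
        rw [Ne, Ideal.span_singleton_eq_bot]
        intro h
        have : (M : 𝓞 K) ≠ 0 := by exact_mod_cast hM.ne'
        exact this h)
    have hinj2 : Function.Injective
        (fun x : 𝓞 K ⧸ Ideal.span {(M : 𝓞 K)} => Ideal.Quotient.mk _ χ * x) := by
      intro x y hxy
      obtain ⟨a, rfl⟩ := Ideal.Quotient.mk_surjective x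
      obtain ⟨b, rfl⟩ := Ideal.Quotient.mk_surjective y
      simp only at hxy
      rw [← map_mul, ← map_mul, Ideal.Quotient.eq, Ideal.mem_span_singleton, ← mul_sub] at hxy
      rw [Ideal.Quotient.eq, Ideal.mem_span_singleton]
      exact hinj _ hxy
    obtain ⟨x, hx⟩ := (Finite.injective_iff_surjective.1 hinj2) 1
    obtain ⟨a, rfl⟩ := Ideal.Quotient.mk_surjective x
    simp only at hx
    rw [← map_mul, ← map_one (Ideal.Quotient.mk _), Ideal.Quotient.eq,
      Ideal.mem_span_singleton] at hx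
    obtain ⟨y, hy⟩ := hx
    exact ⟨a, -y, by linear_combination hy⟩
  · intro a
    have h1 := defectG_zero hτ hM hw ⟨embK (a : K), S3.embK_mem a⟩
    rw [hw'] at h1
    have e : embK (a : K) * (em χ / M) = em (χ * a) / M := by
      rw [RG_mul]
      rw [em, em]
      ring
    rw [← e]
    exact h1

/-- the same for `X` -/
theorem rel_X {τ : ℂ ≃+* ℂ} {u w : ℂ} (h : Rel τ u w) (hu : u ∉ PP.lattice) :
    X w = τ (X u) := by
  rcases h with ⟨h1, -⟩ | ⟨-, -, h1, -⟩
  · exact absurd h1 hu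
  · exact h1

end

end Pool.Agent.Lib.MP_1a91b9_ntK.Rat3
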