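import Pool.Agent.Lib.MP_1a91b9_ntK.A.Good
import Pool.Agent.Lib.MP_1a91b9_ntH.A.RatP

/-!
# Cubic twists, part A, file Rat3P: the product formula for `X`

For `α` in `ℤ[zt]` with `3 ∣ α - 1` and a system `τ` of representatives of `α⁻¹ ℤ[zt] / ℤ[zt]` we prove
`∏ X (z + τ i) = C X (α z)`, `C = α ^ 2 ∏ X (τ i)` (product over the nonzero classes), and `‖C‖ = 1`.

Proof: the logarithmic derivative of `X` is `E1 (z + T0) + E1 (z - T0) - 2 E1 z`, the distribution relation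
of `E1`, and the comparison with `α = -2`.
-/

set_option autoImplicit false

namespace Pool.Agent.Lib.MP_1a91b9_ntK.Rat3P

open Complex Filter Topology NumberField
open Pool.Agent.Lib.MP_1a91b9_ntT Pool.Agent.Lib.MP_1a91b9_ntH Pool.Agent.Lib.MP_1a91b9_ntH.RatP

noncomputable section

/-- The derivative of `X`. -/
theorem hasDerivAt_X {z : ℂ} (hz : z ∉ PP.lattice) : HasDerivAt S3.X (Om * S3.Y z) z := by
  have h1 := (S3.hasDerivAt_P hz).div_const (Om ^ 2)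
  have hO := Om_ne_zero
  have e : PP.derivWeierstrassP z / Om ^ 2 = Om * S3.Y z := by
    rw [S3.Y]
    field_simp
  rw [e] at h1
  exact h1

theorem X_congr {x y : ℂ} (h : x - y ∈ PP.lattice) : S3.X x = S3.X y := by
  have := S3.X_add h y
  rwa [add_sub_cancel] at this

/-- The logarithmic derivative of `X` as a sum of values of `E1`. -/
theorem log_X {z : ℂ} (hs : MP_1a91b9_ntK.sq3 * z ∉ PP.lattice) :
    Om * S3.Y z / S3.X z = E1 (z + T0) + E1 (z - T0) - 2 * E1 z := by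
  have hO := Om_ne_zero
  have hX := X_ne_of_s3 hs
  rw [← Phi_sum hs]
  field_simp

theorem T0_sub_mem {α : ℂ} (h3 : (α - 1) / 3 ∈ PP.lattice) : (α - 1) * T0 ∈ PP.lattice := by
  have h1 := neg_mem (s3_mul_mem h3)
  have e : -(MP_1a91b9_ntK.sq3 * ((α - 1) / 3)) = (α - 1) * T0 := by
    have h2 := MP_1a91b9_ntK.sq3_ne
    rw [T0]
    field_simp
    linear_combination (-(α - 1)) * MP_1a91b9_ntK.sq3_sq
  rwa [e] at h1

section Prod

variable {ι : Type*} [Fintype ι] {α : ℂ} {τ : ι → ℂ}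

/-- The distribution relation of the logarithmic derivative. -/
theorem log_dist3 (hα : α ∈ PP.lattice) (hα0 : α ≠ 0) (h3 : (α - 1) / 3 ∈ PP.lattice)
    (h1 : ∀ i, α * τ i ∈ PP.lattice)
    (h2 : ∀ x, α * x ∈ PP.lattice → ∃! i, x - τ i ∈ PP.lattice) (z : ℂ) :
    ∑ i, (E1 (z + τ i + T0) + E1 (z + τ i - T0) - 2 * E1 (z + τ i)) =
      α * (E1 (α * z + T0) + E1 (α * z - T0) - 2 * E1 (α * z)) := by
  have e1 : ∀ i, z + τ i + T0 = z + T0 + τ i := fun i => by ring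
  have e2 : ∀ i, z + τ i - T0 = z - T0 + τ i := fun i => by ring
  have hT := T0_sub_mem h3
  rw [Finset.sum_sub_distrib, Finset.sum_add_distrib, ← Finset.mul_sum]
  simp_rw [e1, e2]
  rw [S3.dist hα hα0 h1 h2, S3.dist hα hα0 h1 h2, S3.dist hα hα0 h1 h2]
  have e3 : E1 (α * (z + T0)) = E1 (α * z + T0) := by
    apply S3.E1_congr
    rw [show α * (z + T0) - (α * z + T0) = (α - 1) * T0 by ring]
    exact hT
  have e4 : E1 (α * (z - T0)) = E1 (α * z - T0) := by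
    apply S3.E1_congr
    rw [show α * (z - T0) - (α * z - T0) = -((α - 1) * T0) by ring]
    exact neg_mem hT
  rw [e3, e4]
  ring

omit [Fintype ι] in
theorem notMem3 (hα : α ∈ PP.lattice) (h1 : ∀ i, α * τ i ∈ PP.lattice) {z : ℂ}
    (hz : MP_1a91b9_ntK.sq3 * (α * z) ∉ PP.lattice) (i : ι) :
    MP_1a91b9_ntK.sq3 * (z + τ i) ∉ PP.lattice := by
  intro h
  apply hz
  have := sub_mem (S3.mul_mem hα h) (s3_mul_mem (h1 i))
  rwa [show α * (MP_1a91b9_ntK.sq3 * (z + τ i)) - MP_1a91b9_ntK.sq3 * (α * τ i) =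
    MP_1a91b9_ntK.sq3 * (α * z) by ring] at this

/-- The quotient of the two sides. -/
def Ph3 (α : ℂ) (τ : ι → ℂ) (z : ℂ) : ℂ := (∏ i, S3.X (z + τ i)) / S3.X (α * z)

theorem hasDerivAt_Ph3 (hα : α ∈ PP.lattice) (hα0 : α ≠ 0) (h3 : (α - 1) / 3 ∈ PP.lattice)
    (h1 : ∀ i, α * τ i ∈ PP.lattice)
    (h2 : ∀ x, α * x ∈ PP.lattice → ∃! i, x - τ i ∈ PP.lattice) {z : ℂ}
    (hz : MP_1a91b9_ntK.sq3 * (α * z) ∉ PP.lattice) : HasDerivAt (Ph3 α τ) 0 z := by
  have n1 := notMem3 hα h1 hz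
  have n2 : ∀ i, z + τ i ∉ PP.lattice := fun i => notMem_of_s3 (n1 i)
  have n3 : α * z ∉ PP.lattice := notMem_of_s3 hz
  have d1 : ∀ i, DifferentiableAt ℂ (fun z => S3.X (z + τ i)) z := fun i =>
    ((hasDerivAt_X (n2 i)).comp_add_const z (τ i)).differentiableAt
  have b1 : HasDerivAt (fun z : ℂ => α * z) α z := by
    simpa using (hasDerivAt_id z).const_mul α
  have b2 : HasDerivAt (fun z => S3.X (α * z)) (Om * S3.Y (α * z) * α) z :=
    (hasDerivAt_X n3).comp z b1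
  have d2 : DifferentiableAt ℂ (fun z => S3.X (α * z)) z := b2.differentiableAt
  have d3 : DifferentiableAt ℂ (fun z => ∏ i, S3.X (z + τ i)) z :=
    DifferentiableAt.fun_finsetProd fun i _ => d1 i
  have q2 : S3.X (α * z) ≠ 0 := X_ne_of_s3 hz
  have q3 : ∏ i, S3.X (z + τ i) ≠ 0 :=
    Finset.prod_ne_zero_iff.2 fun i _ => X_ne_of_s3 (n1 i)
  have hd : DifferentiableAt ℂ (Ph3 α τ) z := d3.div d2 q2
  have hn : Ph3 α τ z ≠ 0 := div_ne_zero q3 q2
  have e1 : logDeriv (fun z => ∏ i, S3.X (z + τ i)) z =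
      ∑ i, (E1 (z + τ i + T0) + E1 (z + τ i - T0) - 2 * E1 (z + τ i)) := by
    rw [logDeriv_prod (f := fun i z => S3.X (z + τ i)) (fun i _ => X_ne_of_s3 (n1 i))
      (fun i _ => d1 i)]
    refine Finset.sum_congr rfl fun i _ => ?_
    rw [logDeriv_apply, ((hasDerivAt_X (n2 i)).comp_add_const z (τ i)).deriv, log_X (n1 i)]
  have e2 : logDeriv (fun z => S3.X (α * z)) z =
      α * (E1 (α * z + T0) + E1 (α * z - T0) - 2 * E1 (α * z)) := by
    rw [logDeriv_apply, b2.deriv, ← log_X hz]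
    ring
  have e3 : logDeriv (Ph3 α τ) z = 0 := by
    have := logDeriv_div (f := fun z => ∏ i, S3.X (z + τ i))
      (g := fun z => S3.X (α * z)) z q3 q2 d3 d2
    rw [e1, e2, log_dist3 hα hα0 h3 h1 h2, sub_self] at this
    exact this
  have e4 : deriv (Ph3 α τ) z = 0 := by
    rw [logDeriv_apply, div_eq_zero_iff] at e3
    exact e3.resolve_right hn
  have := hd.hasDerivAt
  rwa [e4] at this

theorem eventually_s3 (hα0 : α ≠ 0) (z : ℂ) :
    ∀ᶠ w in 𝓝[≠] z, MP_1a91b9_ntK.sq3 * (α * w) ∉ PP.lattice := by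
  have := S3.eventually_mul_notMem (mul_ne_zero MP_1a91b9_ntK.sq3_ne hα0) z
  refine this.mono fun w hw h => hw ?_
  rw [mul_assoc]
  exact h

/-- The product formula for `X`. -/
theorem exists_prod3 (hα : α ∈ PP.lattice) (hα0 : α ≠ 0) (h3 : (α - 1) / 3 ∈ PP.lattice)
    (h1 : ∀ i, α * τ i ∈ PP.lattice)
    (h2 : ∀ x, α * x ∈ PP.lattice → ∃! i, x - τ i ∈ PP.lattice) :
    ∃ C : ℂ, ∀ z : ℂ, MP_1a91b9_ntK.sq3 * (α * z) ∉ PP.lattice →
      ∏ i, S3.X (z + τ i) = C * S3.X (α * z) := by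
  set S : Set ℂ := {w : ℂ | MP_1a91b9_ntK.sq3 * (α * w) ∈ PP.lattice} with hSdef
  have h2α : MP_1a91b9_ntK.sq3 * α ≠ 0 := mul_ne_zero MP_1a91b9_ntK.sq3_ne hα0
  have hS : ∀ z : ℂ, ∀ᶠ w in 𝓝[≠] z, w ∉ S := fun z => eventually_s3 hα0 z
  have hcount : S.Countable := by
    have := S3.countable_lat.preimage_of_injOn (f := fun w : ℂ => MP_1a91b9_ntK.sq3 * α * w)
      (fun x _ y _ h => mul_left_cancel₀ h2α h)
    refine this.mono fun w hw => ?_
    show MP_1a91b9_ntK.sq3 * α * w ∈ PP.lattice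
    rw [mul_assoc]
    exact hw
  have hSo : IsOpen Sᶜ := S3.isOpen_of_iso hS
  have hconst : ∀ x ∈ Sᶜ, ∀ y ∈ Sᶜ, Ph3 α τ x = Ph3 α τ y := by
    intro x hx y hy
    exact hSo.is_const_of_deriv_eq_zero (f := Ph3 α τ)
      (S3.isPreconnected_compl_of_countable hcount)
      (fun w hw => (hasDerivAt_Ph3 hα hα0 h3 h1 h2 hw).differentiableAt.differentiableWithinAt)
      (fun w hw => (hasDerivAt_Ph3 hα hα0 h3 h1 h2 hw).deriv) hx hy
  obtain ⟨z₀, hz₀⟩ : ∃ z₀, z₀ ∈ Sᶜ := by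
    have := (hS 0).exists
    exact this
  refine ⟨Ph3 α τ z₀, fun z hz => ?_⟩
  rw [hconst z₀ hz₀ z hz, Ph3, div_mul_cancel₀ _ (X_ne_of_s3 hz)]

end Prod

theorem tendsto_X0 : Tendsto (fun z => z ^ 2 * S3.X z) (𝓝[≠] 0) (𝓝 (1 / Om ^ 2)) := by
  have h1 : Tendsto (fun z => S3.Pr z * (z ^ 0)⁻¹) (𝓝[≠] 0) (𝓝 0) := S3.tendsto_Pr (by norm_num)
  have h2 : ContinuousAt (fun z : ℂ => z ^ 2) 0 := by fun_prop
  have h3 := h2.tendsto.mono_left (nhdsWithin_le_nhds (s := {0}ᶜ))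
  have h4 := ((h3.mul h1).const_add 1).div_const (Om ^ 2)
  rw [mul_zero, add_zero] at h4
  refine h4.congr' ?_
  filter_upwards [self_mem_nhdsWithin] with z hz
  have hz0 : z ≠ 0 := hz
  have hO := Om_ne_zero
  rw [S3.X, S3.P_eq z]
  field_simp

theorem tendsto_Xα {α : ℂ} (hα0 : α ≠ 0) :
    Tendsto (fun z => z ^ 2 * S3.X (α * z)) (𝓝[≠] 0) (𝓝 (1 / Om ^ 2 / α ^ 2)) := by
  have b1 : Tendsto (fun w : ℂ => α * w) (𝓝[≠] 0) (𝓝[≠] 0) := by
    refine tendsto_nhdsWithin_iff.2 ⟨?_, ?_⟩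
    · have h2 : ContinuousAt (fun w : ℂ => α * w) 0 := by fun_prop
      have h3 := h2.tendsto
      rw [mul_zero] at h3
      exact h3.mono_left nhdsWithin_le_nhds
    · filter_upwards [self_mem_nhdsWithin] with w hw
      exact mul_ne_zero hα0 hw
  have h1 := (tendsto_X0.comp b1).div_const (α ^ 2)
  refine h1.congr fun z => ?_
  simp only [Function.comp_apply]
  field_simp

section Prod2

variable {ι : Type*} [Fintype ι] [DecidableEq ι] {α : ℂ} {τ : ι → ℂ}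

/-- The constant of the product formula. -/
def cX (α : ℂ) (τ : ι → ℂ) (k : ι) : ℂ := α ^ 2 * ∏ i ∈ Finset.univ.erase k, S3.X (τ i)

/-- The product formula for `X` with its constant. -/
theorem prodX (hα : α ∈ PP.lattice) (hα0 : α ≠ 0) (h3 : (α - 1) / 3 ∈ PP.lattice)
    (h1 : ∀ i, α * τ i ∈ PP.lattice)
    (h2 : ∀ x, α * x ∈ PP.lattice → ∃! i, x - τ i ∈ PP.lattice) {k : ι}
    (hk : τ k ∈ PP.lattice) {z : ℂ} (hz : MP_1a91b9_ntK.sq3 * (α * z) ∉ PP.lattice) :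
    ∏ i, S3.X (z + τ i) = cX α τ k * S3.X (α * z) := by
  obtain ⟨C, hC⟩ := exists_prod3 hα hα0 h3 h1 h2
  rw [hC z hz, cX]
  congr 1
  have hne : ∀ i, i ≠ k → τ i ∉ PP.lattice := by
    intro i hi h
    apply hi
    have hm : ∀ x ∈ PP.lattice, 0 - x ∈ PP.lattice := by
      intro x hx
      rw [zero_sub]
      exact neg_mem hx
    exact (h2 0 (by rw [mul_zero]; exact zero_mem _)).unique (hm _ h) (hm _ hk)
  have t1 : Tendsto (fun z => ∏ i ∈ Finset.univ.erase k, S3.X (z + τ i)) (𝓝[≠] 0)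
      (𝓝 (∏ i ∈ Finset.univ.erase k, S3.X (τ i))) := by
    refine tendsto_finsetProd _ fun i hi => ?_
    have hi' := hne i (Finset.mem_erase.1 hi).1
    have h5 : ContinuousAt (fun z => S3.X (z + τ i)) 0 := by
      refine ContinuousAt.comp (g := S3.X) (f := fun z => z + τ i) ?_ (by fun_prop)
      rw [zero_add]
      exact (hasDerivAt_X hi').continuousAt
    have h6 := h5.tendsto.mono_left (nhdsWithin_le_nhds (s := {0}ᶜ))
    rwa [zero_add] at h6
  have t2 := tendsto_X0.mul t1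
  have t3 := (tendsto_Xα hα0).const_mul C
  have e : (fun z => z ^ 2 * S3.X z * ∏ i ∈ Finset.univ.erase k, S3.X (z + τ i)) =ᶠ[𝓝[≠] 0]
      fun z => C * (z ^ 2 * S3.X (α * z)) := by
    filter_upwards [eventually_s3 hα0 0] with w hw
    have h4 := hC w hw
    rw [← Finset.mul_prod_erase Finset.univ _ (Finset.mem_univ k), S3.X_add hk] at h4
    linear_combination w ^ 2 * h4
  have h5 := tendsto_nhds_unique_of_eventuallyEq t2 t3 e
  have hO : Om ^ 2 ≠ 0 := pow_ne_zero 2 Om_ne_zero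
  have h6 : C * (1 / Om ^ 2 / α ^ 2) * (α ^ 2 * Om ^ 2) = C := by
    have := Om_ne_zero
    field_simp
  have h7 : 1 / Om ^ 2 * (∏ i ∈ Finset.univ.erase k, S3.X (τ i)) * (α ^ 2 * Om ^ 2) =
      α ^ 2 * ∏ i ∈ Finset.univ.erase k, S3.X (τ i) := by
    have := Om_ne_zero
    field_simp
  rw [← h6, ← h5, h7]

end Prod2

section Comp

variable {ι κ : Type*} {α β : ℂ} {τ : ι → ℂ} {σ : κ → ℂ}
variable [Fintype ι] [Fintype κ] [DecidableEq ι] [DecidableEq κ]

theorem prod_comp3 (hα : α ∈ PP.lattice) (hα0 : α ≠ 0) (hoα : (α - 1) / 3 ∈ PP.lattice)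
    (hβ : β ∈ PP.lattice) (hβ0 : β ≠ 0) (hoβ : (β - 1) / 3 ∈ PP.lattice)
    (h : Rp α τ) (h' : Rp β σ) {k : ι} (hk : τ k ∈ PP.lattice) {l : κ} (hl : σ l ∈ PP.lattice)
    {z : ℂ} (hz : MP_1a91b9_ntK.sq3 * (α * β * z) ∉ PP.lattice) :
    ∏ p : ι × κ, S3.X (z + (τ p.1 / β + σ p.2)) =
      cX β σ l ^ Fintype.card ι * cX α τ k * S3.X (α * β * z) := by
  rw [Fintype.prod_prod_type]
  have e1 : ∀ i, ∏ j, S3.X (z + (τ i / β + σ j)) = cX β σ l * S3.X (β * z + τ i) := by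
    intro i
    have e2 : ∀ j, z + (τ i / β + σ j) = z + τ i / β + σ j := fun j => by ring
    simp_rw [e2]
    have e3 : β * (z + τ i / β) = β * z + τ i := by
      field_simp
    rw [← e3]
    refine prodX hβ hβ0 hoβ h'.1 h'.2 hl ?_
    rw [e3]
    refine notMem3 hα h.1 ?_ i
    rwa [← mul_assoc α β z]
  simp_rw [e1]
  rw [Finset.prod_mul_distrib, Finset.prod_const, Finset.card_univ,
    prodX hα hα0 hoα h.1 h.2 hk (z := β * z) (by rw [← mul_assoc α β z]; exact hz), mul_assoc α β z]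
  ring

/-- The constants of two elements. -/
theorem cX_comm (hα : α ∈ PP.lattice) (hα0 : α ≠ 0) (hoα : (α - 1) / 3 ∈ PP.lattice)
    (hβ : β ∈ PP.lattice) (hβ0 : β ≠ 0) (hoβ : (β - 1) / 3 ∈ PP.lattice)
    (h : Rp α τ) (h' : Rp β σ) {k : ι} (hk : τ k ∈ PP.lattice) {l : κ} (hl : σ l ∈ PP.lattice) :
    cX β σ l ^ Fintype.card ι * cX α τ k = cX α τ k ^ Fintype.card κ * cX β σ l := by
  obtain ⟨z, hz⟩ := (eventually_s3 (mul_ne_zero hα0 hβ0) 0).exists
  have hz' : MP_1a91b9_ntK.sq3 * (β * α * z) ∉ PP.lattice := by rwa [mul_comm β α]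
  have h1 := prod_comp3 hα hα0 hoα hβ hβ0 hoβ h h' hk hl hz
  have h2 := prod_comp3 hβ hβ0 hoβ hα hα0 hoα h' h hl hk hz'
  have h3 := Rp.comp hβ hβ0 hα h h'
  have h4 := Rp.comp hα hα0 hβ h' h
  rw [mul_comm β α] at h4 h2
  have h5 := Rp.prod_eq (f := S3.X) (fun x y => X_congr) h3 h4 z
  rw [h1, h2] at h5
  exact mul_right_cancel₀ (X_ne_of_s3 hz) h5

omit [Fintype κ] [DecidableEq κ] in
theorem cX_ne (hα : α ∈ PP.lattice) (hα0 : α ≠ 0) (hoα : (α - 1) / 3 ∈ PP.lattice)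
    (h : Rp α τ) {k : ι} (hk : τ k ∈ PP.lattice) : cX α τ k ≠ 0 := by
  obtain ⟨z, hz⟩ := (eventually_s3 hα0 0).exists
  have h1 := prodX hα hα0 hoα h.1 h.2 hk hz
  intro h0
  rw [h0, zero_mul] at h1
  exact Finset.prod_ne_zero_iff.2 (fun i _ => X_ne_of_s3 (notMem3 hα h.1 hz i)) h1

/-! ### The element `-2` -/

/-- The points of order two and `0`. -/
def sh (p : Fin 2 × Fin 2) : ℂ := (((p.1 : ℕ) : ℂ) + ((p.2 : ℕ) : ℂ) * zt) / 2

theorem half_mem (a b : ℤ) : (((a : ℤ) : ℂ) + ((b : ℤ) : ℂ) * zt) / 2 ∈ PP.lattice ↔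
    (2 : ℤ) ∣ a ∧ (2 : ℤ) ∣ b := by
  constructor
  · intro h
    obtain ⟨m, n, hmn⟩ := S3.mem_PP.1 h
    have h1 : (((2 * m - a : ℤ) : ℂ)) + (((2 * n - b : ℤ) : ℂ)) * zt = 0 := by
      push_cast
      linear_combination 2 * hmn
    have h2 : (2 * n - b : ℤ) = 0 := by
      have h3 := congrArg Complex.im h1
      simp only [add_im, mul_im, intCast_im, intCast_re, zero_im, zero_mul, zero_add, add_zero] at h3
      have h4 := (mul_eq_zero.1 h3).resolve_right S3.zt_im_ne_zero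
      exact_mod_cast h4
    have h3 : (2 * m - a : ℤ) = 0 := by
      rw [h2] at h1
      rw [Int.cast_zero, zero_mul, add_zero] at h1
      exact_mod_cast h1
    exact ⟨⟨m, by omega⟩, ⟨n, by omega⟩⟩
  · rintro ⟨⟨m, rfl⟩, ⟨n, rfl⟩⟩
    refine S3.mem_PP.2 ⟨m, n, ?_⟩
    push_cast
    ring

theorem rp_sh : Rp (-2) sh := by
  refine ⟨fun p => ?_, fun x hx => ?_⟩
  · have e : -2 * sh p = -((((p.1 : ℕ) : ℤ) : ℂ) + (((p.2 : ℕ) : ℤ) : ℂ) * zt) := by
      rw [sh]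
      push_cast
      ring
    rw [e]
    exact neg_mem (S3.mem_PP.2 ⟨_, _, rfl⟩)
  · obtain ⟨a, b, hab⟩ := S3.mem_PP.1 (neg_mem hx)
    have key : ∀ p : Fin 2 × Fin 2, x - sh p ∈ PP.lattice ↔
        (2 : ℤ) ∣ a - (p.1 : ℕ) ∧ (2 : ℤ) ∣ b - (p.2 : ℕ) := by
      intro p
      rw [← half_mem]
      have e : x - sh p = (((a - (p.1 : ℕ) : ℤ) : ℂ) + ((b - (p.2 : ℕ) : ℤ) : ℂ) * zt) / 2 := by
        rw [sh]
        push_cast
        linear_combination (-(1 : ℂ) / 2) * hab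
      rw [e]
    have ha := Int.emod_nonneg a (by norm_num : (2 : ℤ) ≠ 0)
    have ha' := Int.emod_lt_of_pos a (by norm_num : (0 : ℤ) < 2)
    have hb := Int.emod_nonneg b (by norm_num : (2 : ℤ) ≠ 0)
    have hb' := Int.emod_lt_of_pos b (by norm_num : (0 : ℤ) < 2)
    refine ⟨(⟨(a % 2).toNat, by omega⟩, ⟨(b % 2).toNat, by omega⟩), (key _).2 ⟨?_, ?_⟩, ?_⟩
    · show (2 : ℤ) ∣ a - (((a % 2).toNat : ℕ) : ℤ)
      omega
    · show (2 : ℤ) ∣ b - (((b % 2).toNat : ℕ) : ℤ)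
      omega
    · rintro ⟨u, v⟩ huv
      obtain ⟨h1, h2⟩ := (key _).1 huv
      simp only at h1 h2
      have := u.2
      have := v.2
      refine Prod.ext (Fin.ext ?_) (Fin.ext ?_)
      · show (u : ℕ) = (a % 2).toNat
        omega
      · show (v : ℕ) = (b % 2).toNat
        omega

theorem sh_zero : sh (0, 0) ∈ PP.lattice := by
  have : sh (0, 0) = 0 := by simp [sh]
  rw [this]
  exact zero_mem _

theorem X_sh {p : Fin 2 × Fin 2} (hp : p ≠ (0, 0)) : ‖S3.X (sh p)‖ ^ 3 = 1 / 4 := by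
  have h2 : 2 * sh p ∈ PP.lattice := by
    have := neg_mem (rp_sh.1 p)
    rwa [show -(-2 * sh p) = 2 * sh p by ring] at this
  have hn : sh p ∉ PP.lattice := by
    intro h
    apply hp
    have e : ∀ x ∈ PP.lattice, 0 - x ∈ PP.lattice := by
      intro x hx
      rw [zero_sub]
      exact neg_mem hx
    exact (rp_sh.2 0 (by rw [mul_zero]; exact zero_mem _)).unique (e _ h) (e _ sh_zero)
  have hY := S3.Y_sq hn
  rw [Y_half h2] at hY
  have h3 : S3.X (sh p) ^ 3 = -(1 / 4) := by linear_combination -hY / 4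
  have h4 := congrArg norm h3
  rw [norm_pow, norm_neg] at h4
  rw [h4]
  norm_num

theorem norm_cX_sh : ‖cX (-2) sh (0, 0)‖ = 1 := by
  have h1 : ‖cX (-2) sh (0, 0)‖ ^ 3 = 1 := by
    rw [cX, norm_mul, norm_pow, _root_.norm_prod, mul_pow, ← Finset.prod_pow]
    rw [Finset.prod_congr rfl (fun p hp => X_sh (Finset.mem_erase.1 hp).1), Finset.prod_const,
      Finset.card_erase_of_mem (Finset.mem_univ _), Finset.card_univ]
    simp only [Fintype.card_prod, Fintype.card_fin]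
    norm_num
  exact (pow_eq_one_iff_of_nonneg (norm_nonneg _) (by norm_num)).1 h1

omit [Fintype κ] [DecidableEq κ] in
/-- The absolute value of the constant. -/
theorem norm_cX (hα : α ∈ PP.lattice) (hα0 : α ≠ 0) (hoα : (α - 1) / 3 ∈ PP.lattice)
    (h : Rp α τ) {k : ι} (hk : τ k ∈ PP.lattice) : ‖cX α τ k‖ = 1 := by
  have hm : (-2 : ℂ) ∈ PP.lattice := by exact_mod_cast S3.int_mem (-2)
  have ho : ((-2 : ℂ) - 1) / 3 ∈ PP.lattice := by
    have e : ((-2 : ℂ) - 1) / 3 = ((-1 : ℤ) : ℂ) := by norm_num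
    rw [e]
    exact S3.int_mem _
  have h1 := cX_comm hα hα0 hoα hm (by norm_num) ho h rp_sh hk sh_zero
  have h2 := congrArg norm h1
  rw [norm_mul, norm_mul, norm_pow, norm_pow, norm_cX_sh, one_pow, one_mul, mul_one] at h2
  simp only [Fintype.card_prod, Fintype.card_fin] at h2
  have h3 : ‖cX α τ k‖ ≠ 0 := norm_ne_zero_iff.2 (cX_ne hα hα0 hoα h hk)
  have h4 : ‖cX α τ k‖ ^ 3 = 1 := by
    apply mul_left_cancel₀ h3
    norm_num at h2
    linear_combination -h2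
  exact (pow_eq_one_iff_of_nonneg (norm_nonneg _) (by norm_num)).1 h4

end Comp

end

end Pool.Agent.Lib.MP_1a91b9_ntK.Rat3P

namespace Pool.Agent.Lib.MP_1a91b9_ntK

open NumberField Pool.Agent.Lib.MP_1a91b9_ntT Pool.Agent.Lib.MP_1a91b9_ntH

/-- The product of the values of `X` over the nonzero classes of an element congruent to `1`
modulo `3`. -/
theorem norm_prod3 {ι : Type*} [Fintype ι] [DecidableEq ι] {a : 𝓞 K} {ρ : ι → 𝓞 K} (ha : a ≠ 0)
    (h3 : (3 : 𝓞 K) ∣ a - 1) (h : ∀ x : 𝓞 K, ∃! i, a ∣ x - ρ i) {k : ι} (hk : ρ k = 0) :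
    ‖em a‖ ^ 2 * ‖∏ i ∈ Finset.univ.erase k, S3.X (em (ρ i) / em a)‖ = 1 := by
  have ha0 : embK (a : K) ≠ 0 := by
    intro h0
    apply ha
    have h1 : (a : K) = 0 := by
      apply embK.toRingHom.injective
      rw [map_zero]
      exact h0
    exact RingOfIntegers.ext h1
  have hoα : (embK (a : K) - 1) / 3 ∈ PP.lattice := by
    obtain ⟨b, hb⟩ := h3
    have e : (embK (a : K) - 1) / 3 = embK (b : K) := by
      have e1 : (a : K) = 1 + 3 * (b : K) := by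
        have e2 : a = 1 + 3 * b := by linear_combination hb
        rw [e2]
        simp only [map_add, map_mul, map_one, map_ofNat]
      rw [e1, map_add, map_mul, map_one, map_ofNat]
      ring
    rw [e]
    exact S3.embK_mem b
  have hk' : embK (ρ k : K) / embK (a : K) ∈ PP.lattice := by
    rw [hk]
    simp [zero_mem]
  have h1 := Rat3P.norm_cX (S3.embK_mem a) ha0 hoα (RatP.rp_of ha h) hk'
  rw [Rat3P.cX, norm_mul, norm_pow] at h1
  exact h1

end Pool.Agent.Lib.MP_1a91b9_ntK
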