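import Pool.Agent.Lib.MP_1a91b9_ntK.A.Avg
import Pool.Agent.Lib.MP_1a91b9_ntK.A.Phi
import Pool.Agent.Lib.MP_1a91b9_ntK.A.Rat3G
import Pool.Agent.Lib.MP_1a91b9_ntK.A.Rat3B
import Pool.Agent.Lib.MP_1a91b9_ntK.A.Rat3P
import Pool.Agent.Lib.MP_1a91b9_ntH.A.RatD

/-!
# Phase 3, file Rat3D: the rationality of the L-quotient of the cubic twists

`crat3 : ∃ q : ℚ, ‖Lk k e S 1‖ ^ 2 * ‖em (Dk k e S)‖ ^ (2 / 3) = q * ‖Om‖ ^ 2`.
-/

set_option autoImplicit false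

namespace Pool.Agent.Lib.MP_1a91b9_ntK

open NumberField IsDedekindDomain Pool.Agent.Lib.MP_1a91b9_ntT Pool.Agent.Lib.MP_1a91b9_ntG
open Pool.Agent.Lib.MP_1a91b9_ntH (wO s3 cp Nz RatA_mul RatA_ne RatA_ofNat RatA_one RatA_lat RatA_dvd RatA_wO
  RatD_dvd_Nz RatD_Nz)
open Pool.Agent.Lib.MP_1a91b9_ntT.Rq (ev Rel)
open Pool.Agent.Lib.MP_1a91b9_ntX.R (cs w3 G3)
open Rat3

noncomputable section

/-! ### The Galois action on the L-values -/

/-- multiplication by an element which is `1` modulo `f` and prime to `ν` permutes the classes -/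
theorem RepsG.perm {f ν : 𝓞 K} {ι : Type} [Finite ι] {c : ι → 𝓞 K} (h : RepsG f ν c) {u : 𝓞 K}
    (hu : IsCoprime u ν) (hf : f ∣ u - 1) :
    ∃ σ : Equiv.Perm ι, ∀ i, ν ∣ u * c i - c (σ i) := by
  have h1 : ∀ i, ∃ j, ν ∣ u * c i - c j := by
    intro i
    refine h.ex (u * c i) (hu.mul_left (h.cop i)) ?_
    have e : u * c i - 1 = (u - 1) * c i + (c i - 1) := by ring
    rw [e]
    exact dvd_add (hf.mul_right _) (h.fx i)
  choose g hg using h1
  have hinj : Function.Injective g := by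
    intro i j hij
    apply h.inj
    have h2 : ν ∣ u * (c i - c j) := by
      have e : u * (c i - c j) = (u * c i - c (g i)) - (u * c j - c (g j)) := by
        rw [hij]
        ring
      rw [e]
      exact dvd_sub (hg i) (hg j)
    exact hu.symm.dvd_of_dvd_mul_left h2
  exact ⟨Equiv.ofBijective g (Finite.injective_iff_bijective.1 hinj), hg⟩

theorem Rat3_sum {ν : 𝓞 K} {X : 𝓞 K → ℂ} (hX : Chr 3 ν X) {M : ℕ} (hM : 0 < M)
    (hν : ν ∣ (M : 𝓞 K)) {τ : ℂ ≃+* ℂ} {χ : 𝓞 K} (h3 : (3 : 𝓞 K) ∣ χ - 1)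
    (hχ : IsCoprime χ (M : 𝓞 K)) (hev : ∀ a : 𝓞 K, τ (ev (em a / M)) = ev (em (χ * a) / M))
    (hτX : ∀ a, τ (X a) = X a) :
    X χ * τ (LG 3 X 1 * em ν / Om) = LG 3 X 1 * em ν / Om := by
  have hmod := Rg.isMod_three
  obtain ⟨ι, _, c, hc⟩ := RepsG.exists_reps hX.ne hX.dvd hX.three
  have hν0 := RatA_ne hX.ne
  have hM0 : (M : ℂ) ≠ 0 := by exact_mod_cast hM.ne'
  have hO := Om_ne_zero
  obtain ⟨d, hd⟩ := hν
  have hdM : em ν * em d = M := by
    rw [← RatA_mul, ← hd, RatA_ofNat]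
  have hd0 : em d ≠ 0 := right_ne_zero_of_mul (hdM ▸ hM0)
  have hf : ∀ a : 𝓞 K, em a / em ν = em (a * d) / M := by
    intro a
    rw [← hdM, RatA_mul a d, mul_div_mul_right _ _ hd0]
  have hev2 : ∀ a : 𝓞 K, τ (ev (em a / em ν)) = ev (em (χ * a) / em ν) := by
    intro a
    rw [hf, hev, hf, mul_assoc]
  have hL : LG 3 X 1 * em ν / Om = ∑ i, X (c i) * ev (em (c i) / em ν) := by
    rw [hX.LG_one hc]
    have h1 : ∀ i, ev (em (c i) / em ν) = E1 (em (c i) / em ν) / Om := fun i => rfl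
    simp only [h1]
    rw [div_eq_iff hO, Finset.sum_mul, mul_comm _ (em ν), ← mul_assoc, mul_inv_cancel₀ hν0, one_mul]
    refine Finset.sum_congr rfl fun i _ => ?_
    field_simp
  have hχν : IsCoprime χ ν := IsCoprime.of_isCoprime_of_dvd_right hχ ⟨d, hd⟩
  obtain ⟨σ, hσ⟩ := hc.perm hχν h3
  rw [hL, map_sum, Finset.mul_sum, ← Equiv.sum_comp σ (fun i => X (c i) * ev (em (c i) / em ν))]
  refine Finset.sum_congr rfl fun i _ => ?_
  have h1 : (3 : 𝓞 K) ∣ χ * c i - 1 := by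
    have e : χ * c i - 1 = (χ - 1) * c i + (c i - 1) := by ring
    rw [e]
    exact dvd_add (h3.mul_right _) (hc.fx i)
  have h2 : X (c (σ i)) = X χ * X (c i) := by
    rw [← hX.per _ _ h1 (hσ i), hX.mul _ _ h3 (hc.fx i)]
  have h4 : ev (em (χ * c i) / em ν) = ev (em (c (σ i)) / em ν) := by
    have h5 := RatA_lat hX.ne (hσ i)
    have e : em (χ * c i) / em ν = em (c (σ i)) / em ν +
        (em (χ * c i) / em ν - em (c (σ i)) / em ν) := by ring
    rw [e, Rq.ev_add h5]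
  rw [map_mul, hτX, hev2, h4, h2]
  ring

/-! ### Roots of unity -/

theorem em_w3 (t : ZMod 3) : em (w3 t : 𝓞 K) = e3 t := by
  have h : ∀ t : ZMod 3, t = 0 ∨ t = 1 ∨ t = 1 + 1 := by decide
  have h1 : em (w3 1 : 𝓞 K) = zt := by
    have e : w3 (1 : ZMod 3) = Pool.Agent.Lib.MP_1a91b9_ntX.R.omU := by
      have := Pool.Agent.Lib.MP_1a91b9_ntX.R.w3_natCast 1
      rwa [Nat.cast_one, pow_one] at this
    rw [e, Pool.Agent.Lib.MP_1a91b9_ntX.R.omU_val, omO_eq_wO, RatA_wO]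
  rcases h t with rfl | rfl | rfl
  · rw [em_w3_zero, e3_zero]
  · rw [h1, e3_one]
  · rw [em_w3_add, e3_add, h1, e3_one]

theorem e3_fix {τ : ℂ ≃+* ℂ} (hτ : Rq.Fix τ) (t : ZMod 3) : τ (e3 t) = e3 t := by
  have h : ∀ t : ZMod 3, t = 0 ∨ t = 1 ∨ t = 1 + 1 := by decide
  have h1 : τ (e3 1) = e3 1 := by
    rw [e3_one]
    exact hτ
  rcases h t with rfl | rfl | rfl
  · rw [e3_zero, map_one]
  · exact h1
  · rw [e3_add, map_mul, h1]

theorem Xk_fix {τ : ℂ ≃+* ℂ} (hτ : Rq.Fix τ) (k : ZMod 3) (e : P3 → ZMod 3) (S : Finset P3)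
    (a : 𝓞 K) : τ (Xk k e S a) = Xk k e S a := by
  have h1 : ∀ q : P3, τ (chq q (e q) a) = chq q (e q) a := by
    intro q
    rw [chq]
    split_ifs
    · exact map_zero τ
    · exact e3_fix hτ _
  have h2 : Xk k e S a = th k a * ∏ q ∈ S, chq q (e q) a := rfl
  rw [h2, map_mul, map_prod, th, e3_fix hτ]
  congr 1
  exact Finset.prod_congr rfl fun q _ => h1 q

/-! ### The number attached to a prime -/

theorem P3_G3 (q : P3) : G3 (Ideal.span {q.1}) := g3 q.2.1 q.2.2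

theorem zt_ne_mem {z : ℂ} (h : S3.X z = 0) : sq3 * z ∈ PP.lattice := by
  by_contra hc
  exact X_ne_of_s3 hc h

/-- The number attached to a prime: the product of `X` over a third system. -/
theorem Rat3_exists (q : P3) : ∃ h : ℂ, h ≠ 0 ∧ ‖h‖ ^ 3 * ‖em q.1‖ ^ 2 = 1 ∧
    ∀ (τ : ℂ ≃+* ℂ) (χ : 𝓞 K) (M : ℕ), 0 < M → q.1 ∣ (M : 𝓞 K) →
      (∀ a : 𝓞 K, Rel τ (em a / M) (em (χ * a) / M)) → ¬ q.1 ∣ χ →
        τ h = e3 (cq q χ) * h := by
  classical
  have hG := P3_G3 q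
  obtain ⟨ι, _, c, hc, hn⟩ := exists_third hG
  have hq0 := q.2.1.ne_zero
  have hnl : ∀ a : 𝓞 K, ¬ q.1 ∣ a → em a / em q.1 ∉ PP.lattice := fun a ha h =>
    ha (RatA_dvd hq0 h)
  have hw3 : ∀ (t : ZMod 3) (a : 𝓞 K), S3.X (em ((w3 t : 𝓞 K) * a) / em q.1) =
      em (w3 t : 𝓞 K) * S3.X (em a / em q.1) := by
    intro t a
    obtain ⟨m, rfl⟩ : ∃ m : ℕ, (m : ZMod 3) = t := ⟨t.val, ZMod.natCast_zmod_val t⟩
    have e1 : em (w3 (m : ZMod 3) : 𝓞 K) = zt ^ m := by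
      rw [Pool.Agent.Lib.MP_1a91b9_ntX.R.w3_natCast, Units.val_pow_eq_pow_val,
        Pool.Agent.Lib.MP_1a91b9_ntX.R.omU_val, omO_eq_wO]
      clear hn hc
      induction m with
      | zero => rw [pow_zero, pow_zero, RatA_one]
      | succ m ih => rw [pow_succ, pow_succ, RatA_mul, ih, RatA_wO]
    rw [RatA_mul, e1, mul_div_assoc, X_pow_zt]
  have hx0 : ∀ i, S3.X (em (c i) / em q.1) ≠ 0 := by
    intro i h0
    have h1 := zt_ne_mem h0
    have h2 : em (s3 * c i) / em q.1 ∈ PP.lattice := by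
      rw [RatA_mul, em_s3]
      rw [sq3] at h1
      rwa [mul_div_assoc]
    have h3 := RatA_dvd hq0 h2
    rcases q.2.1.dvd_or_dvd h3 with h4 | h4
    · apply Pool.Agent.Lib.MP_1a91b9_ntH.s3_not_isUnit
      have h5 : q.1 ∣ (3 : 𝓞 K) := h4.trans s3_dvd_three
      have h6 : q.1 ∣ 1 := by
        obtain ⟨b, hb⟩ := q.2.2
        have e : (1 : 𝓞 K) = q.1 - 3 * b := by linear_combination -hb
        have h7 := dvd_sub (dvd_refl q.1) (h5.mul_right b)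
        rwa [← e] at h7
      exact absurd (isUnit_of_dvd_one h6) q.2.1.not_isUnit
    · exact hc.nz i h4
  refine ⟨∏ i, S3.X (em (c i) / em q.1), Finset.prod_ne_zero_iff.2 fun i _ => hx0 i, ?_, ?_⟩
  · have h1 := norm_prod3 (ρ := rhoT c) hq0 q.2.2 (rhoT_reps hG hc) (k := none) rfl
    have herase : (Finset.univ.erase none : Finset (Option (ι × ZMod 3))) =
        Finset.univ.map Function.Embedding.some := by
      ext x
      cases x <;> simp
    have hprod : ‖∏ i ∈ (Finset.univ.erase none : Finset (Option (ι × ZMod 3))),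
        S3.X (em (rhoT c i) / em q.1)‖ = ‖∏ i, S3.X (em (c i) / em q.1)‖ ^ 3 := by
      rw [herase, Finset.prod_map, Fintype.prod_prod_type, norm_prod, norm_prod, ← Finset.prod_pow]
      refine Finset.prod_congr rfl fun i _ => ?_
      rw [norm_prod]
      have h2 : ∀ t : ZMod 3, ‖S3.X (em (rhoT c (Function.Embedding.some (i, t))) / em q.1)‖ =
          ‖S3.X (em (c i) / em q.1)‖ := by
        intro t
        change ‖S3.X (em ((w3 t : 𝓞 K) * c i) / em q.1)‖ = _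
        rw [hw3, norm_mul, em_w3, norm_e3, one_mul]
      simp only [h2]
      rw [Finset.prod_const, Finset.card_univ, ZMod.card]
    rw [hprod] at h1
    rw [mul_comm]
    exact h1
  · rintro τ χ M hM ⟨d, hd⟩ hR hχ
    have hM0 : (M : ℂ) ≠ 0 := by exact_mod_cast hM.ne'
    have hdM : em q.1 * em d = M := by
      rw [← RatA_mul, ← hd, RatA_ofNat]
    have hd0 : em d ≠ 0 := right_ne_zero_of_mul (hdM ▸ hM0)
    have hf : ∀ a : 𝓞 K, em a / em q.1 = em (a * d) / M := by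
      intro a
      rw [← hdM, RatA_mul, mul_div_mul_right _ _ hd0]
    have h1 : ∀ a : 𝓞 K, ¬ q.1 ∣ a → τ (S3.X (em a / em q.1)) = S3.X (em (χ * a) / em q.1) := by
      intro a ha
      have h2 := rel_X (hR (a * d)) (by rw [← hf]; exact hnl a ha)
      rw [hf a, ← h2, hf, mul_assoc]
    rw [map_prod]
    rw [Finset.prod_congr rfl fun i _ => h1 (c i) (hc.nz i)]
    have h3 := gauss_third hG hc (fun a => S3.X (em a / em q.1)) (fun a b hab => by
      have h5 := RatA_lat hq0 hab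
      have e : em a / em q.1 = em b / em q.1 + (em a / em q.1 - em b / em q.1) := by ring
      change S3.X (em a / em q.1) = S3.X (em b / em q.1)
      rw [e, S3.X_add h5]) hw3 hχ
    rw [em_w3] at h3
    exact h3

/-! ### The number attached to the unit part -/

/-- the value at `1 / (3 √-3)` -/
theorem Rat3_norm {s : ℂ} (hs : s = sq3 ∨ s = -sq3) :
    ‖(S3.Y (1 / (3 * sq3)) + s) / (2 * S3.X (1 / (3 * sq3)))‖ ^ 2 = 3 := by
  have hs2 : s ^ 2 = -3 := by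
    rcases hs with rfl | rfl
    · exact sq3_sq
    · rw [neg_sq, sq3_sq]
  have h0 := sq3_ne
  obtain ⟨z, hz⟩ : ∃ z : ℂ, z = 1 / (3 * sq3) := ⟨_, rfl⟩
  have hz3 : sq3 * z = 1 / 3 := by
    rw [hz]
    field_simp
  have hnl : sq3 * z ∉ PP.lattice := by
    rw [hz3]
    exact Rq.third_notMem
  rw [← hz]
  have h1 := X_s3 hnl
  have hX := X_ne_of_s3 hnl
  have h3 := Rq.X_third
  have hY := S3.Y_sq (notMem_of_s3 hnl)
  rw [hz3] at h1
  generalize S3.X (1 / 3) = x' at *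
  generalize S3.X z = x at *
  generalize S3.Y z = y at *
  -- `(x ^ 3 + 1) ^ 3 = 27 x ^ 6`
  have h4 : (x ^ 3 + 1) ^ 3 = 27 * x ^ 6 := by
    have h5 : (3 * x ^ 2 * x') ^ 3 = (-(x ^ 3 + 1)) ^ 3 := by
      rw [← h1]
    linear_combination h5 - 27 * x ^ 6 * h3
  have hg : (y * (x ^ 3 - 2) / x ^ 3) ^ 2 = 81 := by
    rw [div_pow, div_eq_iff (pow_ne_zero 2 (pow_ne_zero 3 hX)), mul_pow, hY]
    linear_combination 4 * h4
  obtain ⟨g, hgd⟩ : ∃ g, g = y * (x ^ 3 - 2) / x ^ 3 := ⟨_, rfl⟩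
  rw [← hgd] at hg
  have hN : ((y + s) / (2 * x)) ^ 3 = (g + 3 * s) / 2 := by
    rw [hgd, div_pow, div_eq_div_iff (pow_ne_zero 3 (mul_ne_zero two_ne_zero hX)) two_ne_zero]
    field_simp
    linear_combination (y + 3 * s) * hY + (3 * y + s) * hs2
  have hg9 : g = 9 ∨ g = -9 := by
    have : (g - 9) * (g + 9) = 0 := by linear_combination hg
    rcases mul_eq_zero.1 this with h | h
    · exact Or.inl (by linear_combination h)
    · exact Or.inr (by linear_combination h)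
  have hlin : ∀ a b : ℝ, ‖(a : ℂ) + b * zt‖ ^ 2 = a ^ 2 - a * b + b ^ 2 := by
    intro a b
    have h : ((‖(a : ℂ) + b * zt‖ ^ 2 : ℝ) : ℂ) = ((a ^ 2 - a * b + b ^ 2 : ℝ) : ℂ) := by
      rw [← Complex.normSq_eq_norm_sq, ← Complex.mul_conj, map_add, map_mul, Complex.conj_ofReal,
        Complex.conj_ofReal, S3.conj_zt]
      push_cast
      linear_combination (a * b : ℂ) * S3.zt_quad + (b ^ 2 : ℂ) * S3.zt_cube
    exact_mod_cast h
  have h27 : ‖g + 3 * s‖ ^ 2 = 108 := by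
    rcases hg9 with rfl | rfl <;> rcases hs with rfl | rfl
    · have e : (9 : ℂ) + 3 * sq3 = ((12 : ℝ) : ℂ) + ((6 : ℝ) : ℂ) * zt := by
        rw [sq3]; push_cast; ring
      rw [e, hlin]
      norm_num
    · have e : (9 : ℂ) + 3 * -sq3 = ((6 : ℝ) : ℂ) + ((-6 : ℝ) : ℂ) * zt := by
        rw [sq3]; push_cast; ring
      rw [e, hlin]
      norm_num
    · have e : (-9 : ℂ) + 3 * sq3 = ((-6 : ℝ) : ℂ) + ((6 : ℝ) : ℂ) * zt := by
        rw [sq3]; push_cast; ring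
      rw [e, hlin]
      norm_num
    · have e : (-9 : ℂ) + 3 * -sq3 = ((-12 : ℝ) : ℂ) + ((-6 : ℝ) : ℂ) * zt := by
        rw [sq3]; push_cast; ring
      rw [e, hlin]
      norm_num
  have h6 : (‖(y + s) / (2 * x)‖ ^ 2) ^ 3 = 3 ^ 3 := by
    have h7 := congrArg (fun z => ‖z‖ ^ 2) hN
    simp only [norm_pow, norm_div] at h7
    rw [div_pow ‖g + 3 * s‖, h27] at h7
    rw [norm_div]
    have h8 : ‖(2 : ℂ)‖ = 2 := by norm_num
    rw [h8] at h7
    rw [← pow_mul, mul_comm 2 3, pow_mul, h7]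
    norm_num
  exact (pow_left_inj₀ (by positivity) (by norm_num) (by norm_num)).1 h6

theorem Rat3_PhC {k : ZMod 3} (hk : k ≠ 0) : ‖PhC k (1 / (3 * sq3)) / Om‖ ^ 2 = 3 := by
  have h0 := sq3_ne
  have hO := Om_ne_zero
  have hz3 : sq3 * (1 / (3 * sq3)) = 1 / 3 := by field_simp
  have hnl : sq3 * (1 / (3 * sq3)) ∉ PP.lattice := by
    rw [hz3]
    exact Rq.third_notMem
  have hy : y0 = 1 ∨ y0 = -1 := by
    have : (y0 - 1) * (y0 + 1) = 0 := by linear_combination y0_sq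
    rcases mul_eq_zero.1 this with h | h
    · exact Or.inl (by linear_combination h)
    · exact Or.inr (by linear_combination h)
  have hh : k = 1 ∨ k = -1 := by
    revert k
    decide
  rw [PhC, Phz_sum]
  rcases hh with rfl | rfl
  · rw [e3_neg_one, Phz_zt2 hnl]
    have e : -Om * (S3.Y (1 / (3 * sq3)) - y0 * sq3) / (2 * S3.X (1 / (3 * sq3))) / Om =
        -((S3.Y (1 / (3 * sq3)) + -(y0 * sq3)) / (2 * S3.X (1 / (3 * sq3)))) := by
      field_simp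
      ring
    rw [e, norm_neg]
    refine Rat3_norm ?_
    rcases hy with h | h
    · right
      rw [h, one_mul]
    · left
      rw [h]
      ring
  · rw [neg_neg, e3_one, Phz_zt hnl]
    have e : -Om * (S3.Y (1 / (3 * sq3)) + y0 * sq3) / (2 * S3.X (1 / (3 * sq3))) / Om =
        -((S3.Y (1 / (3 * sq3)) + y0 * sq3) / (2 * S3.X (1 / (3 * sq3)))) := by
      field_simp
    rw [e, norm_neg]
    refine Rat3_norm ?_
    rcases hy with h | h
    · left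
      rw [h, one_mul]
    · right
      rw [h]
      ring

theorem DD3_empty : DD3 ∅ = 1 := Finset.prod_empty

theorem em_nu0 : em (3 * s3 * DD3 ∅) = 3 * sq3 := by
  rw [DD3_empty, mul_one, RatA_mul, em_s3]
  have : em (3 : 𝓞 K) = 3 := by
    have := RatA_ofNat 3
    push_cast at this
    exact this
  rw [this, sq3]

theorem Lk_empty (k : ZMod 3) (e : P3 → ZMod 3) :
    Lk k e ∅ 1 * em (3 * s3 * DD3 ∅) = PhC k (1 / (3 * sq3)) := by
  have hr : RepsG 3 (3 * DD3 ∅) (fun _ : Unit => (1 : 𝓞 K)) := by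
    rw [DD3_empty, mul_one]
    refine ⟨by norm_num, dvd_refl _, dvd_refl _, fun _ => by rw [sub_self]; exact dvd_zero _,
      fun _ => isCoprime_one_left, fun a _ ha => ⟨(), ha⟩, fun _ _ _ => rfl⟩
  have h := avg3 k e ∅ hr
  have h3 : (3 * sq3 : ℂ) ≠ 0 := mul_ne_zero (by norm_num) sq3_ne
  rw [Finset.powerset_empty, Finset.sum_singleton, Finset.card_empty, pow_zero, one_mul,
    Finset.sdiff_self, Finset.prod_empty, mul_one, em_nu0] at h
  rw [em_nu0, h]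
  simp only [Finset.prod_empty, mul_one, Finset.univ_unique, Finset.sum_singleton]
  rw [(th_chr k).one, one_mul, RatA_one, mul_comm, mul_inv_cancel_left₀ h3]

theorem Xk_eq (k : ZMod 3) (e : P3 → ZMod 3) (S : Finset P3) (a : 𝓞 K) :
    Xk k e S a = th k a * ∏ q ∈ S, chq q (e q) a := rfl

/-- **The comparison number.** -/
theorem Rat3_unit (k : ZMod 3) : ∃ H0 : ℂ, H0 ≠ 0 ∧ (∃ r : ℚ, ‖H0‖ ^ 2 = r) ∧
    ∀ (τ : ℂ ≃+* ℂ) (_ : Rq.Fix τ) (χ : 𝓞 K) (M : ℕ), 0 < M → (3 * s3 : 𝓞 K) ∣ (M : 𝓞 K) →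
      (3 : 𝓞 K) ∣ χ - 1 → IsCoprime χ (M : 𝓞 K) →
      (∀ a : 𝓞 K, τ (ev (em a / M)) = ev (em (χ * a) / M)) → th k χ * τ H0 = H0 := by
  by_cases hk : k = 0
  · subst hk
    refine ⟨1, one_ne_zero, ⟨1, by norm_num⟩, fun τ _ χ M _ _ _ _ _ => ?_⟩
    rw [map_one, mul_one, th, zero_mul, neg_zero, e3_zero]
  · obtain ⟨e, -⟩ : ∃ e : P3 → ZMod 3, e = fun _ => 0 := ⟨_, rfl⟩
    have h3 : ‖Lk k e ∅ 1 * em (3 * s3 * DD3 ∅) / Om‖ ^ 2 = 3 := by
      rw [Lk_empty]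
      exact Rat3_PhC hk
    refine ⟨Lk k e ∅ 1 * em (3 * s3 * DD3 ∅) / Om, ?_, ⟨3, ?_⟩, ?_⟩
    · intro h0
      rw [h0, norm_zero] at h3
      norm_num at h3
    · rw [h3]
      norm_num
    · intro τ hτ χ M hM hd hχ3 hχ hev
      have h1 := Rat3_sum (Xk_chr k e ∅) hM (by rwa [DD3_empty, mul_one]) hχ3 hχ hev
        (Xk_fix hτ k e ∅)
      rw [Xk_eq, Finset.prod_empty, mul_one] at h1
      exact h1

theorem e3_mul (t x : ZMod 3) : e3 (t * x) = e3 x ^ t.val := by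
  have h : ∀ n : ℕ, e3 ((n : ZMod 3) * x) = e3 x ^ n := by
    intro n
    induction n with
    | zero => rw [Nat.cast_zero, zero_mul, e3_zero, pow_zero]
    | succ n ih => rw [Nat.cast_succ, add_mul, one_mul, e3_add, ih, pow_succ]
  rw [← h, ZMod.natCast_zmod_val]

theorem Rat3_Dk (k : ZMod 3) (e : P3 → ZMod 3) (S : Finset P3) :
    ‖em (Dk k e S)‖ = ∏ q ∈ S, ‖em q.1‖ ^ (e q).val := by
  classical
  have hw : ∀ n : ℕ, ‖em (wO ^ n)‖ = 1 := by
    intro n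
    induction n with
    | zero => rw [pow_zero, RatA_one, norm_one]
    | succ n ih => rw [pow_succ, RatA_mul, norm_mul, ih, RatA_wO, S3.norm_zt, one_mul]
  have hp : ∀ (x : 𝓞 K) (n : ℕ), em (x ^ n) = em x ^ n := by
    intro x n
    induction n with
    | zero => rw [pow_zero, pow_zero, RatA_one]
    | succ n ih => rw [pow_succ, pow_succ, RatA_mul, ih]
  rw [Dk, RatA_mul, norm_mul, hw, one_mul]
  induction S using Finset.induction_on with
  | empty => rw [Finset.prod_empty, Finset.prod_empty, RatA_one, norm_one]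
  | insert q S hq ih =>
    rw [Finset.prod_insert hq, Finset.prod_insert hq, RatA_mul, norm_mul, ih, hp, norm_pow]

/-- **The rationality of the L-quotient.** -/
theorem crat3 (k : ZMod 3) (e : P3 → ZMod 3) (S : Finset P3) :
    ∃ q : ℚ, ‖Lk k e S 1‖ ^ 2 * ‖em (Dk k e S)‖ ^ (2 / 3 : ℝ) = (q : ℝ) * ‖Om‖ ^ 2 := by
  classical
  choose hh hh0 hhn hhτ using Rat3_exists
  obtain ⟨H0, hH0, ⟨r, hr⟩, hτ0⟩ := Rat3_unit k
  have hX := Xk_chr k e S
  have hO := Om_ne_zero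
  obtain ⟨ν, hν⟩ : ∃ ν, ν = 3 * s3 * DD3 S := ⟨_, rfl⟩
  rw [← hν] at hX
  have hν0 : ν ≠ 0 := hX.ne
  have hνe := RatA_ne hν0
  obtain ⟨H, hH⟩ : ∃ H : ℂ, H = Lk k e S 1 * em ν / Om := ⟨_, rfl⟩
  obtain ⟨P, hP⟩ : ∃ P : ℂ, P = ∏ q ∈ S, hh q ^ (e q).val := ⟨_, rfl⟩
  have hP0 : P ≠ 0 := by
    rw [hP]
    exact Finset.prod_ne_zero_iff.2 fun q _ => pow_ne_zero _ (hh0 q)
  -- the quotient is in `K`
  obtain ⟨x, hx⟩ : ∃ x : K, embK x = H * P / H0 := by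
    refine Rg.mem_K fun τ hτ => ?_
    obtain ⟨M, hM⟩ : ∃ M : ℕ, M = 3 * Nz ν := ⟨_, rfl⟩
    have hM0 : 0 < M := by
      have : Nz ν ≠ 0 := by
        intro h0
        have h1 := RatD_Nz ν
        rw [h0] at h1
        have h2 : ‖em ν‖ ^ 2 = 0 := by rw [← h1]; norm_num
        exact hνe (norm_eq_zero.1 (pow_eq_zero_iff (by norm_num) |>.1 h2))
      omega
    have hνM : ν ∣ (M : 𝓞 K) := by
      rw [hM]
      push_cast
      exact (RatD_dvd_Nz ν).mul_left _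
    obtain ⟨χ, h3, hχ, hrel, hev⟩ := exists_act3 hτ M hM0 (by rw [hM]; exact dvd_mul_right _ _)
    have t1 := Rat3_sum hX hM0 hνM h3 hχ hev (Xk_fix hτ k e S)
    have t2 := hτ0 τ hτ χ M hM0 ((Dvd.intro _ hν.symm).trans hνM) h3 hχ hev
    have hqM : ∀ q ∈ S, q.1 ∣ (M : 𝓞 K) := by
      intro q hq
      refine Dvd.dvd.trans ?_ hνM
      rw [hν]
      exact (Finset.dvd_prod_of_mem (fun q : P3 => q.1) hq).mul_left _
    have hqχ : ∀ q ∈ S, ¬ q.1 ∣ χ := by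
      intro q hq h2
      exact q.2.1.not_isUnit (hχ.isUnit_of_dvd' h2 (hqM q hq))
    have t3 : τ P = (∏ q ∈ S, e3 (e q * cq q χ)) * P := by
      rw [hP, map_prod, ← Finset.prod_mul_distrib]
      refine Finset.prod_congr rfl fun q hq => ?_
      rw [map_pow, hhτ q τ χ M hM0 (hqM q hq) hrel (hqχ q hq), mul_pow, e3_mul]
    have hE : ∏ q ∈ S, chq q (e q) χ = ∏ q ∈ S, e3 (e q * cq q χ) := by
      refine Finset.prod_congr rfl fun q hq => ?_
      rw [chq, if_neg (hqχ q hq)]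
    have hE0 : ∏ q ∈ S, e3 (e q * cq q χ) ≠ 0 :=
      Finset.prod_ne_zero_iff.2 fun q _ => e3_ne_zero _
    have hth : th k χ ≠ 0 := e3_ne_zero _
    rw [Xk_eq, hE] at t1
    change th k χ * (∏ q ∈ S, e3 (e q * cq q χ)) * τ (Lk k e S 1 * em ν / Om) =
      Lk k e S 1 * em ν / Om at t1
    rw [← hH] at t1
    have hτH0 : τ H0 ≠ 0 := (map_ne_zero τ).2 hH0
    rw [map_div₀, map_mul, t3, div_eq_div_iff hτH0 hH0]
    generalize (∏ q ∈ S, e3 (e q * cq q χ)) = E at *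
    generalize th k χ = th at *
    apply mul_left_cancel₀ hth
    linear_combination P * H0 * t1 - H * P * t2
  have hHn : ‖H‖ ^ 2 * ‖P‖ ^ 2 = ((Algebra.norm ℚ x : ℚ) : ℝ) * r := by
    have h1 : H * P = embK x * H0 := by
      rw [hx, div_mul_cancel₀ _ hH0]
    have h2 := S3.norm_K x
    rw [Complex.mul_conj, Complex.normSq_eq_norm_sq] at h2
    have h3 : ((Algebra.norm ℚ x : ℚ) : ℝ) = ‖embK x‖ ^ 2 := by exact_mod_cast h2
    rw [← mul_pow, ← norm_mul, h1, norm_mul, mul_pow, h3, hr]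
  -- the absolute values
  have hPn : (‖P‖ ^ 2) ^ 3 * ‖em (Dk k e S)‖ ^ 4 = 1 := by
    rw [hP, Rat3_Dk, norm_prod, ← Finset.prod_pow, ← Finset.prod_pow, ← Finset.prod_pow,
      ← Finset.prod_mul_distrib]
    refine Finset.prod_eq_one fun q _ => ?_
    have h1 := hhn q
    have e1 : ((‖hh q ^ (e q).val‖) ^ 2) ^ 3 * (‖em q.1‖ ^ (e q).val) ^ 4 =
        (‖hh q‖ ^ 3 * ‖em q.1‖ ^ 2) ^ (2 * (e q).val) := by
      rw [norm_pow]
      ring
    rw [e1, h1, one_pow]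
  obtain ⟨δ, hδ⟩ : ∃ δ : ℝ, δ = ‖em (Dk k e S)‖ := ⟨_, rfl⟩
  have hδ0 : 0 < δ := by
    have h1 : 0 ≤ δ := by rw [hδ]; exact norm_nonneg _
    rcases h1.lt_or_eq with h2 | h2
    · exact h2
    · rw [← hδ, ← h2] at hPn
      norm_num at hPn
  obtain ⟨d, hd⟩ : ∃ d : ℝ, d = δ ^ (2 / 3 : ℝ) := ⟨_, rfl⟩
  have hd0 : 0 < d := by rw [hd]; exact Real.rpow_pos_of_pos hδ0 _
  have hd3 : d ^ 3 = δ ^ 2 := by
    rw [hd, ← Real.rpow_natCast, ← Real.rpow_mul hδ0.le]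
    norm_num
  rw [← hδ] at hPn ⊢
  rw [← hd]
  have hp0 : 0 < ‖P‖ ^ 2 := by
    have := norm_pos_iff.2 hP0
    positivity
  have hpd : ‖P‖ ^ 2 * d ^ 2 = 1 := by
    have h1 : (‖P‖ ^ 2 * d ^ 2) ^ 3 = 1 ^ 3 := by
      have e1 : (‖P‖ ^ 2 * d ^ 2) ^ 3 = (‖P‖ ^ 2) ^ 3 * (d ^ 3) ^ 2 := by ring
      rw [e1, hd3]
      have e2 : (δ ^ 2) ^ 2 = δ ^ 4 := by ring
      rw [e2, hPn, one_pow]
    exact (pow_left_inj₀ (by positivity) (by norm_num) (by norm_num)).1 h1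
  have hHd : ‖H‖ ^ 2 * d = ((Algebra.norm ℚ x : ℚ) : ℝ) * r * (Nz (Dk k e S) : ℕ) := by
    rw [RatD_Nz, ← hδ, ← hd3, ← hHn]
    linear_combination (-(‖H‖ ^ 2 * d)) * hpd
  have hL : ‖Lk k e S 1‖ ^ 2 * ‖em ν‖ ^ 2 = ‖H‖ ^ 2 * ‖Om‖ ^ 2 := by
    have h1 : Lk k e S 1 * em ν = H * Om := by
      rw [hH, div_mul_cancel₀ _ hO]
    rw [← mul_pow, ← norm_mul, h1, norm_mul, mul_pow]
  refine ⟨(Algebra.norm ℚ x) * r * (Nz (Dk k e S) : ℕ) / (Nz ν : ℕ), ?_⟩
  have hν2 : ‖em ν‖ ^ 2 ≠ 0 := pow_ne_zero 2 (norm_ne_zero_iff.2 hνe)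
  push_cast
  rw [← hHd, RatD_Nz ν, div_mul_eq_mul_div, eq_div_iff hν2]
  linear_combination d * hL

end

end Pool.Agent.Lib.MP_1a91b9_ntK
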