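import Pool.Agent.Lib.MP_1a91b9_ntK.A.Rat3D
import Pool.Agent.Lib.MP_1a91b9_ntK.A.Ind2

/-!
# Phase 3, file Rat3J: the rationality of the L-quotient of the cubic twists, all classes

`crat3j : ∃ q : ℚ, ‖Lj k j e S 1‖ ^ 2 * ‖em (Dj k j e S)‖ ^ (2 / 3) = q * ‖Om‖ ^ 2`.
-/

set_option autoImplicit false

namespace Pool.Agent.Lib.MP_1a91b9_ntK

open NumberField IsDedekindDomain Pool.Agent.Lib.MP_1a91b9_ntT Pool.Agent.Lib.MP_1a91b9_ntG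
open Pool.Agent.Lib.MP_1a91b9_ntH (wO s3 cp Nz RatA_mul RatA_ne RatA_ofNat RatA_one RatA_lat RatA_dvd RatA_wO
  RatD_dvd_Nz RatD_Nz s3_sq)
open Pool.Agent.Lib.MP_1a91b9_ntT.Rq (ev Rel)
open Rat3

noncomputable section

theorem Xj_fix {τ : ℂ ≃+* ℂ} (hτ : Rq.Fix τ) (k j : ZMod 3) (e : P3 → ZMod 3) (S : Finset P3)
    (a : 𝓞 K) : τ (Xj k j e S a) = Xj k j e S a := by
  have h1 : ∀ q : P3, τ (chq q (e q) a) = chq q (e q) a := by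
    intro q
    rw [chq]
    split_ifs
    · exact map_zero τ
    · exact e3_fix hτ _
  have h2 : Xj k j e S a = thj k j a * ∏ q ∈ S, chq q (e q) a := rfl
  rw [h2, map_mul, map_prod, thj, e3_fix hτ]
  congr 1
  exact Finset.prod_congr rfl fun q _ => h1 q

theorem Xj_eq (k j : ZMod 3) (e : P3 → ZMod 3) (S : Finset P3) (a : 𝓞 K) :
    Xj k j e S a = thj k j a * ∏ q ∈ S, chq q (e q) a := rfl

theorem norm_eta : ‖eta‖ ^ 2 = 3 := by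
  rw [← norm_pow, eta_sq]
  norm_num

theorem Rat3J_norm (k : ZMod 3) (e : P3 → ZMod 3) :
    (‖Lj k 2 e ∅ 1 * em (9 * DD3 ∅) / Om‖ ^ 2) ^ 3 = 3 ^ 7 := by
  have h1 := nu2_empty k e
  have h3 : 3 * (1 / 9 : ℂ) = 1 / 3 := by norm_num
  have h6 : Gen6 (1 / 9 : ℂ) := by
    refine ⟨fun h => S3.two_third_notMem ?_⟩
    rwa [show 6 * (1 / 9 : ℂ) = 2 * (1 / 3) by norm_num] at h
  have h := PsC_div_cube k h6
  rw [h3, Y_third, div_self eta_ne] at h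
  have eX : S3.X (1 / 3) = X0 := rfl
  rw [eX] at h
  have h4 : nu2 k e ∅ ^ 3 = 2 * e3 k ^ 2 := by
    rw [h1, N2, h]
    linear_combination (-2 * e3 k ^ 2) * X0_cube
  have h5 : Lj k 2 e ∅ 1 * em (9 * DD3 ∅) / Om = nu2 k e ∅ * (3 * kapC) := by
    have a1 := Om_ne_zero
    have a2 := kapC_ne
    rw [nu2, N2, Finset.card_empty, pow_zero, mul_one]
    field_simp
  have h7 : (Lj k 2 e ∅ 1 * em (9 * DD3 ∅) / Om) ^ 3 = -27 * e3 k ^ 2 * eta := by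
    rw [h5, mul_pow, h4, mul_pow, kapC_cube]
    ring
  have h8 : ‖Lj k 2 e ∅ 1 * em (9 * DD3 ∅) / Om‖ ^ 3 = 27 * ‖eta‖ := by
    rw [← norm_pow, h7, norm_mul, norm_mul, norm_pow, norm_e3]
    norm_num
  rw [← pow_mul, mul_comm 2 3, pow_mul, h8, mul_pow, norm_eta]
  norm_num

/-- **The comparison number**, `j = 2`. -/
theorem Rat3J_unit2 (k : ZMod 3) : ∃ H0 : ℂ, H0 ≠ 0 ∧ (‖H0‖ ^ 2) ^ 3 = 3 ^ 7 ∧
    ∀ (τ : ℂ ≃+* ℂ) (_ : Rq.Fix τ) (χ : 𝓞 K) (M : ℕ), 0 < M → (9 : 𝓞 K) ∣ (M : 𝓞 K) →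
      (3 : 𝓞 K) ∣ χ - 1 → IsCoprime χ (M : 𝓞 K) →
      (∀ a : 𝓞 K, τ (ev (em a / M)) = ev (em (χ * a) / M)) → thj k 2 χ * τ H0 = H0 := by
  obtain ⟨e, -⟩ : ∃ e : P3 → ZMod 3, e = fun _ => 0 := ⟨_, rfl⟩
  have h3 := Rat3J_norm k e
  refine ⟨Lj k 2 e ∅ 1 * em (9 * DD3 ∅) / Om, ?_, h3, ?_⟩
  · intro h0
    rw [h0, norm_zero] at h3
    norm_num at h3
  · intro τ hτ χ M hM hd hχ3 hχ hev
    have h1 := Rat3_sum (Xj_chr k 2 e ∅) hM (by rwa [DD3_empty, mul_one]) hχ3 hχ hev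
      (Xj_fix hτ k 2 e ∅)
    rw [Xj_eq, Finset.prod_empty, mul_one] at h1
    exact h1

theorem em_s3_pow (n : ℕ) : em (s3 ^ n) = em s3 ^ n := by
  induction n with
  | zero => rw [pow_zero, pow_zero, RatA_one]
  | succ n ih => rw [pow_succ, pow_succ, RatA_mul, ih]

theorem norm_em_s3 : ‖em s3‖ ^ 2 = 3 := by
  rw [← norm_pow, rt_em_s3_sq]
  norm_num

/-- the real number `3 ^ (j / 3)` -/
theorem s3_rpow (n : ℕ) : (‖em (s3 ^ n)‖ ^ (2 / 3 : ℝ)) ^ 3 = 3 ^ n := by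
  have h0 : (0 : ℝ) ≤ ‖em (s3 ^ n)‖ := norm_nonneg _
  rw [← Real.rpow_natCast, ← Real.rpow_mul h0]
  have e : (2 / 3 : ℝ) * ((3 : ℕ) : ℝ) = ((2 : ℕ) : ℝ) := by norm_num
  rw [e, Real.rpow_natCast, em_s3_pow, norm_pow, ← pow_mul, mul_comm n 2, pow_mul, norm_em_s3]

/-- **The comparison number**, all classes. -/
theorem Rat3J_unit (k j : ZMod 3) : ∃ H0 : ℂ, H0 ≠ 0 ∧
    (∃ r : ℚ, ‖H0‖ ^ 2 * ‖em (s3 ^ j.val)‖ ^ (2 / 3 : ℝ) = r) ∧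
    ∀ (τ : ℂ ≃+* ℂ) (_ : Rq.Fix τ) (χ : 𝓞 K) (M : ℕ), 0 < M → (9 : 𝓞 K) ∣ (M : 𝓞 K) →
      (3 : 𝓞 K) ∣ χ - 1 → IsCoprime χ (M : 𝓞 K) →
      (∀ a : 𝓞 K, τ (ev (em a / M)) = ev (em (χ * a) / M)) → thj k j χ * τ H0 = H0 := by
  have hj : j = 0 ∨ j = 1 ∨ j = 2 := by
    revert j
    decide
  rcases hj with rfl | rfl | rfl
  · obtain ⟨H0, h1, ⟨r, hr⟩, h2⟩ := Rat3_unit k
    refine ⟨H0, h1, ⟨r, ?_⟩, fun τ hτ χ M hM hd h3 hχ hev => ?_⟩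
    · rw [ZMod.val_zero, pow_zero, RatA_one, norm_one, Real.one_rpow, mul_one, hr]
    · have h4 := h2 τ hτ χ M hM ((Avg2_s3_dvd (dvd_refl _)).trans hd) h3 hχ hev
      rwa [thj, zero_mul, add_zero]
  · obtain ⟨H, h1, h2, h3⟩ := Rat3J_unit2 (2 * k)
    have hs := s3_rpow (1 : ZMod 3).val
    have hv : (1 : ZMod 3).val = 1 := rfl
    rw [hv] at hs ⊢
    obtain ⟨d, hd⟩ : ∃ d : ℝ, d = ‖em (s3 ^ 1)‖ ^ (2 / 3 : ℝ) := ⟨_, rfl⟩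
    have hd0 : 0 ≤ d := by
      rw [hd]
      exact Real.rpow_nonneg (norm_nonneg _) _
    rw [← hd] at hs ⊢
    refine ⟨H ^ 2, pow_ne_zero 2 h1, ⟨243, ?_⟩, fun τ hτ χ M hM hd h4 hχ hev => ?_⟩
    · have h5 : (‖H ^ 2‖ ^ 2 * d) ^ 3 = 243 ^ 3 := by
        rw [norm_pow, mul_pow, hs]
        have e : ((‖H‖ ^ 2) ^ 2) ^ 3 = ((‖H‖ ^ 2) ^ 3) ^ 2 := by ring
        rw [e, h2]
        norm_num
      have h6 := (pow_left_inj₀ (by positivity) (by norm_num) (by norm_num)).1 h5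
      rw [h6]
      norm_num
    · have h5 := h3 τ hτ χ M hM hd h4 hχ hev
      have h6 : thj k 1 χ = thj (2 * k) 2 χ ^ 2 := by
        rw [thj, thj, pow_two, ← e3_add]
        congr 1
        have h4 : (3 : ZMod 3) = 0 := rfl
        linear_combination (k * abar χ - bbar χ) * h4
      rw [h6, map_pow, ← mul_pow, h5]
  · obtain ⟨H, h1, h2, h3⟩ := Rat3J_unit2 k
    have hs := s3_rpow (2 : ZMod 3).val
    have hv : (2 : ZMod 3).val = 2 := rfl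
    rw [hv] at hs ⊢
    obtain ⟨d, hd⟩ : ∃ d : ℝ, d = ‖em (s3 ^ 2)‖ ^ (2 / 3 : ℝ) := ⟨_, rfl⟩
    have hd0 : 0 ≤ d := by
      rw [hd]
      exact Real.rpow_nonneg (norm_nonneg _) _
    rw [← hd] at hs ⊢
    refine ⟨H, h1, ⟨27, ?_⟩, h3⟩
    have h5 : (‖H‖ ^ 2 * d) ^ 3 = 27 ^ 3 := by
      rw [mul_pow, hs, h2]
      norm_num
    have h6 := (pow_left_inj₀ (by positivity) (by norm_num) (by norm_num)).1 h5
    rw [h6]
    norm_num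

/-- **The rationality of the L-quotient**, all classes. -/
theorem crat3j (k j : ZMod 3) (e : P3 → ZMod 3) (S : Finset P3) :
    ∃ q : ℚ, ‖Lj k j e S 1‖ ^ 2 * ‖em (Dj k j e S)‖ ^ (2 / 3 : ℝ) = (q : ℝ) * ‖Om‖ ^ 2 := by
  classical
  choose hh hh0 hhn hhτ using Rat3_exists
  obtain ⟨H0, hH0, ⟨r, hr⟩, hτ0⟩ := Rat3J_unit k j
  have hX := Xj_chr k j e S
  have hO := Om_ne_zero
  obtain ⟨ν, hν⟩ : ∃ ν, ν = 9 * DD3 S := ⟨_, rfl⟩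
  rw [← hν] at hX
  have hν0 : ν ≠ 0 := hX.ne
  have hνe := RatA_ne hν0
  obtain ⟨H, hH⟩ : ∃ H : ℂ, H = Lj k j e S 1 * em ν / Om := ⟨_, rfl⟩
  obtain ⟨P, hP⟩ : ∃ P : ℂ, P = ∏ q ∈ S, hh q ^ (e q).val := ⟨_, rfl⟩
  have hP0 : P ≠ 0 := by
    rw [hP]
    exact Finset.prod_ne_zero_iff.2 fun q _ => pow_ne_zero _ (hh0 q)
  -- the quotient is in `K`
  obtain ⟨x, hx⟩ : ∃ x : K, embK x = H * P / H0 := by
    refine Rg.mem_K fun τ hτ => ?_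
    obtain ⟨M, hM⟩ : ∃ M : ℕ, M = 3 * Nz ν := ⟨_, rfl⟩
    have hM0 : 0 < M := by
      have : Nz ν ≠ 0 := by
        intro h0
        have h1 := RatD_Nz ν
        rw [h0] at h1
        have h2 : ‖em ν‖ ^ 2 = 0 := by rw [← h1]; norm_num
        exact hνe (norm_eq_zero.1 (pow_eq_zero_iff (by norm_num) |>.1 h2))
      omega
    have hνM : ν ∣ (M : 𝓞 K) := by
      rw [hM]
      push_cast
      exact (RatD_dvd_Nz ν).mul_left _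
    obtain ⟨χ, h3, hχ, hrel, hev⟩ := exists_act3 hτ M hM0 (by rw [hM]; exact dvd_mul_right _ _)
    have t1 := Rat3_sum hX hM0 hνM h3 hχ hev (Xj_fix hτ k j e S)
    have t2 := hτ0 τ hτ χ M hM0 ((Dvd.intro _ hν.symm).trans hνM) h3 hχ hev
    have hqM : ∀ q ∈ S, q.1 ∣ (M : 𝓞 K) := by
      intro q hq
      refine Dvd.dvd.trans ?_ hνM
      rw [hν]
      exact (Finset.dvd_prod_of_mem (fun q : P3 => q.1) hq).mul_left _
    have hqχ : ∀ q ∈ S, ¬ q.1 ∣ χ := by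
      intro q hq h2
      exact q.2.1.not_isUnit (hχ.isUnit_of_dvd' h2 (hqM q hq))
    have t3 : τ P = (∏ q ∈ S, e3 (e q * cq q χ)) * P := by
      rw [hP, map_prod, ← Finset.prod_mul_distrib]
      refine Finset.prod_congr rfl fun q hq => ?_
      rw [map_pow, hhτ q τ χ M hM0 (hqM q hq) hrel (hqχ q hq), mul_pow, e3_mul]
    have hE : ∏ q ∈ S, chq q (e q) χ = ∏ q ∈ S, e3 (e q * cq q χ) := by
      refine Finset.prod_congr rfl fun q hq => ?_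
      rw [chq, if_neg (hqχ q hq)]
    have hE0 : ∏ q ∈ S, e3 (e q * cq q χ) ≠ 0 :=
      Finset.prod_ne_zero_iff.2 fun q _ => e3_ne_zero _
    have hth : thj k j χ ≠ 0 := e3_ne_zero _
    rw [Xj_eq, hE] at t1
    change thj k j χ * (∏ q ∈ S, e3 (e q * cq q χ)) * τ (Lj k j e S 1 * em ν / Om) =
      Lj k j e S 1 * em ν / Om at t1
    rw [← hH] at t1
    have hτH0 : τ H0 ≠ 0 := (map_ne_zero τ).2 hH0
    rw [map_div₀, map_mul, t3, div_eq_div_iff hτH0 hH0]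
    generalize (∏ q ∈ S, e3 (e q * cq q χ)) = E at *
    generalize thj k j χ = th at *
    apply mul_left_cancel₀ hth
    linear_combination P * H0 * t1 - H * P * t2
  have hHn : ‖H‖ ^ 2 * ‖P‖ ^ 2 = ((Algebra.norm ℚ x : ℚ) : ℝ) * ‖H0‖ ^ 2 := by
    have h1 : H * P = embK x * H0 := by
      rw [hx, div_mul_cancel₀ _ hH0]
    have h2 := S3.norm_K x
    rw [Complex.mul_conj, Complex.normSq_eq_norm_sq] at h2
    have h3 : ((Algebra.norm ℚ x : ℚ) : ℝ) = ‖embK x‖ ^ 2 := by exact_mod_cast h2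
    rw [← mul_pow, ← norm_mul, h1, norm_mul, mul_pow, h3]
  -- the absolute values
  have hPn : (‖P‖ ^ 2) ^ 3 * ‖em (Dk k e S)‖ ^ 4 = 1 := by
    rw [hP, Rat3_Dk, norm_prod, ← Finset.prod_pow, ← Finset.prod_pow, ← Finset.prod_pow,
      ← Finset.prod_mul_distrib]
    refine Finset.prod_eq_one fun q _ => ?_
    have h1 := hhn q
    have e1 : ((‖hh q ^ (e q).val‖) ^ 2) ^ 3 * (‖em q.1‖ ^ (e q).val) ^ 4 =
        (‖hh q‖ ^ 3 * ‖em q.1‖ ^ 2) ^ (2 * (e q).val) := by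
      rw [norm_pow]
      ring
    rw [e1, h1, one_pow]
  obtain ⟨δ, hδ⟩ : ∃ δ : ℝ, δ = ‖em (Dk k e S)‖ := ⟨_, rfl⟩
  have hδ0 : 0 < δ := by
    have h1 : 0 ≤ δ := by rw [hδ]; exact norm_nonneg _
    rcases h1.lt_or_eq with h2 | h2
    · exact h2
    · rw [← hδ, ← h2] at hPn
      norm_num at hPn
  obtain ⟨d, hd⟩ : ∃ d : ℝ, d = δ ^ (2 / 3 : ℝ) := ⟨_, rfl⟩
  have hd0 : 0 < d := by rw [hd]; exact Real.rpow_pos_of_pos hδ0 _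
  have hd3 : d ^ 3 = δ ^ 2 := by
    rw [hd, ← Real.rpow_natCast, ← Real.rpow_mul hδ0.le]
    norm_num
  obtain ⟨σ, hσ⟩ : ∃ σ : ℝ, σ = ‖em (s3 ^ j.val)‖ ^ (2 / 3 : ℝ) := ⟨_, rfl⟩
  have hDj : ‖em (Dj k j e S)‖ ^ (2 / 3 : ℝ) = σ * d := by
    rw [Dj, RatA_mul, norm_mul, Real.mul_rpow (norm_nonneg _) (norm_nonneg _), hσ, hd, hδ]
  rw [← hσ] at hr
  rw [← hδ] at hPn
  rw [hDj]
  have hp0 : 0 < ‖P‖ ^ 2 := by
    have := norm_pos_iff.2 hP0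
    positivity
  have hpd : ‖P‖ ^ 2 * d ^ 2 = 1 := by
    have h1 : (‖P‖ ^ 2 * d ^ 2) ^ 3 = 1 ^ 3 := by
      have e1 : (‖P‖ ^ 2 * d ^ 2) ^ 3 = (‖P‖ ^ 2) ^ 3 * (d ^ 3) ^ 2 := by ring
      rw [e1, hd3]
      have e2 : (δ ^ 2) ^ 2 = δ ^ 4 := by ring
      rw [e2, hPn, one_pow]
    exact (pow_left_inj₀ (by positivity) (by norm_num) (by norm_num)).1 h1
  have hHd : ‖H‖ ^ 2 * (σ * d) = ((Algebra.norm ℚ x : ℚ) : ℝ) * r * (Nz (Dk k e S) : ℕ) := by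
    rw [RatD_Nz, ← hδ, ← hd3, ← hr]
    linear_combination (-(‖H‖ ^ 2 * (σ * d))) * hpd + σ * d ^ 3 * hHn
  have hL : ‖Lj k j e S 1‖ ^ 2 * ‖em ν‖ ^ 2 = ‖H‖ ^ 2 * ‖Om‖ ^ 2 := by
    have h1 : Lj k j e S 1 * em ν = H * Om := by
      rw [hH, div_mul_cancel₀ _ hO]
    rw [← mul_pow, ← norm_mul, h1, norm_mul, mul_pow]
  refine ⟨(Algebra.norm ℚ x) * r * (Nz (Dk k e S) : ℕ) / (Nz ν : ℕ), ?_⟩
  have hν2 : ‖em ν‖ ^ 2 ≠ 0 := pow_ne_zero 2 (norm_ne_zero_iff.2 hνe)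
  push_cast
  rw [← hHd, RatD_Nz ν, div_mul_eq_mul_div, eq_div_iff hν2]
  linear_combination (σ * d) * hL

end

end Pool.Agent.Lib.MP_1a91b9_ntK
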