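import Pool.Agent.Lib.MP_1a91b9_ntK.A.Gr0
import Pool.Agent.Lib.MP_1a91b9_ntK.A.SysHA
import Pool.Agent.Lib.MP_1a91b9_ntK.A.Xi

/-!
# Cubic twists, part A, file RhoH: the hard class, the average over the rotation and the restriction to
one value of the symbol at `q0`
-/

set_option autoImplicit false

namespace Pool.Agent.Lib.MP_1a91b9_ntK

open NumberField IsDedekindDomain Pool.Agent.Lib.MP_1a91b9_ntT Pool.Agent.Lib.MP_1a91b9_ntG
open Pool.Agent.Lib.MP_1a91b9_ntH (wO s3 cp s3_sq s3_ne Nz Half_mem_iff wO_quad Nz_two_le)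

noncomputable section

/-- a third of the square of the ordinate -/
def yH (z : ℂ) : ℂ := S3.Y z ^ 2 / 3

theorem rhoH_alg {x y X : ℂ} (hX : X ^ 3 = -1) (hX0 : X ≠ 0) (h0 : X - x ≠ 0) (h1 : X - zt * x ≠ 0)
    (h2 : X - zt * (zt * x) ≠ 0) (hy : y ^ 2 = 4 * x ^ 3 + 1) :
    1 + y ^ 2 / 3 ≠ 0 ∧
    3 / (2 * (X ^ 2 * (X - x))) + 3 / (2 * (X ^ 2 * (X - zt * x))) +
      3 / (2 * (X ^ 2 * (X - zt * (zt * x)))) = -6 + 6 * ((y ^ 2 / 3) / (1 + y ^ 2 / 3)) := by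
  have hq := S3.zt_quad
  have hc := S3.zt_cube
  have hD : (X - x) * ((X - zt * x) * (X - zt * (zt * x))) = -(1 + x ^ 3) := by
    linear_combination hX + (-(X - x) * X * x) * hq + (X - x) * (x ^ 2) * hc
  have hD0 : (1 + x ^ 3) ≠ 0 := by
    intro h
    rw [h, neg_zero] at hD
    exact mul_ne_zero h0 (mul_ne_zero h1 h2) hD
  have e1 : 1 + y ^ 2 / 3 = 4 / 3 * (1 + x ^ 3) := by
    rw [hy]
    ring
  refine ⟨by rw [e1]; exact mul_ne_zero (by norm_num) hD0, ?_⟩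
  have e2 : (y ^ 2 / 3) / (1 + y ^ 2 / 3) = 1 - 3 / (4 * (1 + x ^ 3)) := by
    rw [e1, hy]
    field_simp
    ring
  have e3' : (1 : ℂ) / (X - x) + 1 / (X - zt * x) + 1 / (X - zt * (zt * x)) =
      -(3 * X ^ 2) / (1 + x ^ 3) := by
    rw [div_add_div _ _ h0 h1, div_add_div _ _ (mul_ne_zero h0 h1) h2,
      div_eq_div_iff (mul_ne_zero (mul_ne_zero h0 h1) h2) hD0]
    have e4 : (X - x) * (X - zt * x) * (X - zt * (zt * x)) = -(1 + x ^ 3) := by
      rw [← hD]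
      ring
    rw [e4]
    linear_combination (1 + x ^ 3) * ((-2 * X * x + x ^ 2 * zt) * hq)
  have e5 : 3 / (2 * (X ^ 2 * (X - x))) + 3 / (2 * (X ^ 2 * (X - zt * x))) +
      3 / (2 * (X ^ 2 * (X - zt * (zt * x)))) =
      3 / (2 * X ^ 2) * (1 / (X - x) + 1 / (X - zt * x) + 1 / (X - zt * (zt * x))) := by
    field_simp
  rw [e5, e3', e2]
  field_simp
  ring

section
variable {S : Finset P3} {ι : Type} {c : ι → 𝓞 K} (hc : RepsG 3 (3 * DD3 S) c)
include hc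

theorem rhoH_ne (hS : S.Nonempty) (i : ι) : X0 - S3.X (qt (DD3 S) (c i)) ≠ 0 := by
  obtain ⟨d, _, hd, e⟩ := qt_eq (DD3_three S) (hc.fx i) (hc.cop i) (DD3_unit hS)
  rw [e]
  obtain ⟨_, a1, a2, a3⟩ := s3_mul_notMem (three_dvd_not (DD3_three S)) hd
  exact (pair_eq a1 a2 a3).1

theorem rhoH_notMem (hS : S.Nonempty) (i : ι) : qt (DD3 S) (c i) ∉ PP.lattice := by
  obtain ⟨d, _, hd, e⟩ := qt_eq (DD3_three S) (hc.fx i) (hc.cop i) (DD3_unit hS)
  rw [e]
  exact (s3_mul_notMem (three_dvd_not (DD3_three S)) hd).2.1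

omit hc in
theorem rhoH_X {i j : ι} (h : 3 * DD3 S ∣ (wO * c i + (1 - wO) * DD3 S) - c j) :
    S3.X (qt (DD3 S) (c j)) = zt * S3.X (qt (DD3 S) (c i)) := by
  obtain ⟨l, hl, hq⟩ := gr0_qt h
  rw [hq, S3.X_add hl, Rq.X_zt]

omit hc in
theorem rhoH_Y {i j : ι} (h : 3 * DD3 S ∣ (wO * c i + (1 - wO) * DD3 S) - c j) :
    yH (qt (DD3 S) (c j)) = yH (qt (DD3 S) (c i)) := by
  obtain ⟨l, hl, hq⟩ := gr0_qt h
  rw [yH, yH, hq, Rq.Y_add hl, Rq.Y_zt]

/-- **the average over the rotation** -/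
theorem rhoH_avg [Fintype ι] (hS : S.Nonempty) {σ : Equiv.Perm ι}
    (hσ : ∀ i, 3 * DD3 S ∣ (wO * c i + (1 - wO) * DD3 S) - c (σ i)) (w : ι → ℂ)
    (hw : ∀ i, w (σ i) = w i) :
    ∑ i, w i * (1 + rho (qt (DD3 S) (c i))) =
      -∑ i, w i + 2 * ∑ i, w i * (yH (qt (DD3 S) (c i)) / (1 + yH (qt (DD3 S) (c i)))) := by
  have h1 : ∑ i, w i * rho (qt (DD3 S) (c i)) = ∑ i, w i * rho (qt (DD3 S) (c (σ i))) := by
    rw [← Equiv.sum_comp σ (fun i => w i * rho (qt (DD3 S) (c i)))]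
    exact Finset.sum_congr rfl fun i _ => by rw [hw]
  have h2 : ∑ i, w i * rho (qt (DD3 S) (c i)) = ∑ i, w i * rho (qt (DD3 S) (c (σ (σ i)))) := by
    rw [h1, ← Equiv.sum_comp σ (fun i => w i * rho (qt (DD3 S) (c (σ i))))]
    exact Finset.sum_congr rfl fun i _ => by rw [hw]
  have h3 : ∀ i, rho (qt (DD3 S) (c i)) + rho (qt (DD3 S) (c (σ i))) +
      rho (qt (DD3 S) (c (σ (σ i)))) =
      -6 + 6 * (yH (qt (DD3 S) (c i)) / (1 + yH (qt (DD3 S) (c i)))) := by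
    intro i
    have a1 := rhoH_X (hσ i)
    have a2 := rhoH_X (hσ (σ i))
    rw [a1] at a2
    have b0 := rhoH_ne hc hS i
    have b1 := rhoH_ne hc hS (σ i)
    have b2 := rhoH_ne hc hS (σ (σ i))
    rw [a1] at b1
    rw [a2] at b2
    have h := (rhoH_alg X0_cube X0_ne b0 b1 b2 (S3.Y_sq (rhoH_notMem hc hS i))).2
    rw [rho, rho, rho, a1, a2, yH]
    exact h
  have h4 : 3 * ∑ i, w i * rho (qt (DD3 S) (c i)) =
      ∑ i, w i * (-6 + 6 * (yH (qt (DD3 S) (c i)) / (1 + yH (qt (DD3 S) (c i))))) := by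
    have h5 : 3 * ∑ i, w i * rho (qt (DD3 S) (c i)) =
        ∑ i, w i * rho (qt (DD3 S) (c i)) + ∑ i, w i * rho (qt (DD3 S) (c (σ i))) +
          ∑ i, w i * rho (qt (DD3 S) (c (σ (σ i)))) := by
      rw [← h1, ← h2]
      ring
    rw [h5, ← Finset.sum_add_distrib, ← Finset.sum_add_distrib]
    refine Finset.sum_congr rfl fun i _ => ?_
    rw [← h3 i]
    ring
  have h6 : ∑ i, w i * (-6 + 6 * (yH (qt (DD3 S) (c i)) / (1 + yH (qt (DD3 S) (c i))))) =
      -6 * ∑ i, w i + 6 * ∑ i, w i * (yH (qt (DD3 S) (c i)) / (1 + yH (qt (DD3 S) (c i)))) := by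
    rw [Finset.mul_sum, Finset.mul_sum, ← Finset.sum_add_distrib]
    exact Finset.sum_congr rfl fun i _ => by ring
  have h7 : ∑ i, w i * (1 + rho (qt (DD3 S) (c i))) =
      ∑ i, w i + ∑ i, w i * rho (qt (DD3 S) (c i)) := by
    rw [← Finset.sum_add_distrib]
    exact Finset.sum_congr rfl fun i _ => by ring
  rw [h6] at h4
  rw [h7]
  linear_combination (1 / 3) * h4

end

/-- a function invariant under a permutation which translates `t` -/
theorem rhoH_tri {ι : Type} [Fintype ι] {σ : Equiv.Perm ι} {t : ι → ZMod 3} {d : ZMod 3} (hd : d ≠ 0)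
    (ht : ∀ i, t (σ i) = t i + d) (f : ι → ℂ) (hf : ∀ i, f (σ i) = f i) (τ : ZMod 3) :
    ∑ i, f i = 3 * ∑ i, if t i = τ then f i else 0 := by
  have h1 : ∀ x, (∑ i, if t i = x then f i else 0) = ∑ i, if t i = x + d then f i else 0 := by
    intro x
    rw [← Equiv.sum_comp σ (fun i => if t i = x + d then f i else 0)]
    refine Finset.sum_congr rfl fun i _ => ?_
    rw [ht, hf]
    simp only [add_left_inj]
  have h2 : ∀ x y d : ZMod 3, d ≠ 0 → y = x ∨ y = x + d ∨ y = x + d + d := by decide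
  have h3 : ∀ x, (∑ i, if t i = x then f i else 0) = ∑ i, if t i = τ then f i else 0 := by
    intro x
    rcases h2 x τ d hd with h | h | h
    · rw [h]
    · rw [h, ← h1]
    · rw [h, ← h1, ← h1]
  have h4 : ∑ i, f i = ∑ x : ZMod 3, ∑ i, if t i = x then f i else 0 := by
    rw [Finset.sum_comm]
    refine Finset.sum_congr rfl fun i _ => ?_
    rw [Finset.sum_ite_eq]
    simp
  rw [h4, Finset.sum_congr rfl fun x _ => h3 x, Finset.sum_const, Finset.card_univ, ZMod.card,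
    nsmul_eq_mul]
  norm_num

/-! ### The block symbols -/

section
variable {S : Finset P3} {ι : Type} {c : ι → 𝓞 K} (hc : RepsG 3 (3 * DD3 S) c)
include hc

theorem rhoH_cq {q : P3} (hq : q ∈ S) {i j : ι}
    (h : 3 * DD3 S ∣ (wO * c i + (1 - wO) * DD3 S) - c j) : cq q (c j) = cq q (c i) - aP q := by
  have hG := P3.g3 q
  have h1 : q.1 ∣ c j - wO * c i := by
    obtain ⟨t, ht⟩ := h
    obtain ⟨d, hd⟩ := dvd_DD3.2 hq
    exact ⟨d * ((1 - wO) - 3 * t), by linear_combination -ht + ((1 - wO) - 3 * t) * hd⟩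
  have h2 : ¬ q.1 ∣ wO := by
    intro h2
    have hwu : wO * wO ^ 2 = 1 := by linear_combination (wO - 1) * wO_quad
    exact q.2.1.not_isUnit (isUnit_of_dvd_one (h2.trans ⟨wO ^ 2, hwu.symm⟩))
  have h3 := Pool.Agent.Lib.MP_1a91b9_ntX.R.cs_congr hG (x := c j) (y := wO * c i)
    (fun h => cnt3_not_dvd hc _ hq (Ideal.mem_span_singleton.1 h)) (Ideal.mem_span_singleton.2 h1)
  have h4 := Pool.Agent.Lib.MP_1a91b9_ntX.R.cs_mul hG (x := wO) (y := c i)
    (fun h => h2 (Ideal.mem_span_singleton.1 h))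
    (fun h => cnt3_not_dvd hc _ hq (Ideal.mem_span_singleton.1 h))
  have h5 : cq q (c j) = cq q wO + cq q (c i) := h3.trans h4
  rw [h5, abar_q, aP]
  ring

theorem rhoH_tH {q0 q : P3} (h0 : q0 ∈ S) (hq : q ∈ S) (ha : aP q0 ≠ 0) {i j : ι}
    (h : 3 * DD3 S ∣ (wO * c i + (1 - wO) * DD3 S) - c j) : tH q0 q (c j) = tH q0 q (c i) := by
  rw [tH, tH, rhoH_cq hc h0 h, rhoH_cq hc hq h, epH]
  have h1 : ∀ a b x y : ZMod 3, b ≠ 0 → x - a + -(a * b) * (y - b) = x + -(a * b) * y := by decide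
  exact h1 _ _ _ _ ha

theorem rhoH_WH (e : P3 → ZMod 3) {q0 : P3} {I : Finset P3} (h0 : q0 ∈ S) (hI : I ⊆ S) (ha : aP q0 ≠ 0)
    {i j : ι} (h : 3 * DD3 S ∣ (wO * c i + (1 - wO) * DD3 S) - c j) :
    WH e q0 I (c j) = WH e q0 I (c i) := by
  rw [WH, WH]
  exact Finset.prod_congr rfl fun q hq => by rw [rhoH_tH hc h0 (hI hq) ha h]

end

/-- the character of `T` in terms of the symbols of its support -/
theorem rhoH_chi (e : P3 → ZMod 3) {q0 : P3} {T : Finset P3} (h0 : q0 ∉ T) {x : 𝓞 K}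
    (hx : ∀ q ∈ insert q0 T, ¬ q.1 ∣ x) :
    ∏ q ∈ T, e3 (e q * tH q0 q x) = ∏ q ∈ UH aP e q0 T, chq q (eH aP e q0 T q) x := by
  have h1 : ∏ q ∈ T, e3 (e q * tH q0 q x) =
      (∏ q ∈ T, chq q (e q) x) * e3 (e0H aP e q0 T * cq q0 x) := by
    rw [e0H, Finset.sum_mul, e3_sum, ← Finset.prod_mul_distrib]
    refine Finset.prod_congr rfl fun q hq => ?_
    rw [chq_of_not (hx q (Finset.mem_insert_of_mem hq)), ← e3_add, tH]
    congr 1
    ring
  have h2 : ∏ q ∈ T, chq q (eH aP e q0 T q) x = ∏ q ∈ T, chq q (e q) x := by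
    refine Finset.prod_congr rfl fun q hq => ?_
    rw [eH, Function.update_of_ne (fun h : q = q0 => h0 (h ▸ hq))]
  rw [h1, UH]
  split_ifs with h
  · rw [h, zero_mul, e3_zero, mul_one, h2]
  · rw [Finset.prod_insert h0, h2, eH, Function.update_self,
      chq_of_not (hx q0 (Finset.mem_insert_self _ _)), mul_comm]

section
variable {I : Finset P3} {q0 : P3} {ι : Type} [Fintype ι] {c : ι → 𝓞 K}
  (hc : RepsG 3 (3 * DD3 (insert q0 I)) c)
include hc

/-- the sum of the weights -/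
theorem rhoH_cnt (e : P3 → ZMod 3) (h0 : q0 ∉ I) (he : ∀ q ∈ I, e q ≠ 0) :
    ∑ i, WH e q0 I (c i) = ∏ q ∈ insert q0 I, ((Nz q.1 : ℂ) - 1) := by
  classical
  have h1 : ∀ i, WH e q0 I (c i) =
      ∑ T ∈ I.powerset, (-1) ^ T.card * ∏ q ∈ T, e3 (e q * tH q0 q (c i)) := by
    intro i
    rw [WH, Finset.prod_sub]
    exact Finset.sum_congr rfl fun T _ => by rw [Finset.prod_const_one, mul_one]
  rw [Finset.sum_congr rfl fun i _ => h1 i, Finset.sum_comm,
    Finset.sum_eq_single_of_mem ∅ (Finset.empty_mem_powerset I)]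
  · simp only [Finset.card_empty, pow_zero, Finset.prod_empty, mul_one, Finset.sum_const,
      Finset.card_univ, nsmul_eq_mul]
    rw [cnt0_card hc]
    push_cast
    refine Finset.prod_congr rfl fun q _ => ?_
    rw [Nat.cast_sub (le_trans (by norm_num) (Nz_two_le q.2.1))]
    norm_num
  · intro T hT hne
    have hTI := Finset.mem_powerset.1 hT
    have h0T : q0 ∉ T := fun h => h0 (hTI h)
    have hU : UH aP e q0 T ⊆ insert q0 I := by
      rw [UH]
      split_ifs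
      · exact hTI.trans (Finset.subset_insert _ _)
      · exact Finset.insert_subset_insert _ hTI
    have hUn : (UH aP e q0 T).Nonempty := by
      rw [UH]
      split_ifs
      · exact Finset.nonempty_iff_ne_empty.2 hne
      · exact Finset.insert_nonempty _ _
    have hUe : ∀ q ∈ UH aP e q0 T, eH aP e q0 T q ≠ 0 := by
      intro q hq
      rw [UH] at hq
      split_ifs at hq with h
      · rw [eH, Function.update_of_ne (fun h : q = q0 => h0T (h ▸ hq))]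
        exact he q (hTI hq)
      · rcases Finset.mem_insert.1 hq with rfl | hq
        · rw [eH, Function.update_self]
          exact h
        · rw [eH, Function.update_of_ne (fun h : q = q0 => h0T (h ▸ hq))]
          exact he q (hTI hq)
    have h2 : ∀ i, ∏ q ∈ T, e3 (e q * tH q0 q (c i)) =
        ∏ q ∈ UH aP e q0 T, chq q (eH aP e q0 T q) (c i) := fun i =>
      rhoH_chi e h0T fun q hq => cnt3_not_dvd hc i (Finset.insert_subset_insert _ hTI hq)
    rw [← Finset.mul_sum, Finset.sum_congr rfl fun i _ => h2 i,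
      cnt3_chq hc (eH aP e q0 T) hU hUn hUe, mul_zero]

/-- **(R1)** -/
theorem rhoH_sum (e : P3 → ZMod 3) (h0 : q0 ∉ I) (ha : aP q0 ≠ 0) (he : ∀ q ∈ I, e q ≠ 0) (τ : ZMod 3) :
    ∑ i, WH e q0 I (c i) * (1 + rho (qt (DD3 (insert q0 I)) (c i))) =
      -∏ q ∈ insert q0 I, ((Nz q.1 : ℂ) - 1) +
        6 * ∑ i, if cq q0 (c i) = τ then WH e q0 I (c i) * (yH (qt (DD3 (insert q0 I)) (c i)) /
          (1 + yH (qt (DD3 (insert q0 I)) (c i)))) else 0 := by
  obtain ⟨σ, hσ⟩ := gr0_rot hc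
  have hq0 : q0 ∈ insert q0 I := Finset.mem_insert_self _ _
  have hI : I ⊆ insert q0 I := Finset.subset_insert _ _
  have h1 := rhoH_avg hc (Finset.insert_nonempty _ _) hσ (fun i => WH e q0 I (c i))
    fun i => rhoH_WH hc e hq0 hI ha (hσ i)
  have h2 := rhoH_tri (neg_ne_zero.2 ha) (σ := σ) (t := fun i => cq q0 (c i))
    (fun i => by rw [rhoH_cq hc hq0 (hσ i), sub_eq_add_neg])
    (fun i => WH e q0 I (c i) * (yH (qt (DD3 (insert q0 I)) (c i)) /
      (1 + yH (qt (DD3 (insert q0 I)) (c i)))))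
    (fun i => by rw [rhoH_WH hc e hq0 hI ha (hσ i), rhoH_Y (hσ i)]) τ
  rw [rhoH_cnt hc e h0 he, h2] at h1
  rw [h1]
  ring

end

/-! ### Modulo the maximal ideal -/

theorem rhoH_od {S : Finset P3} {ι : Type} {c : ι → 𝓞 K} (hc : RepsG 3 (3 * DD3 S) c) (hS : S.Nonempty)
    (i : ι) : Od (qt (DD3 S) (c i)) := by
  refine ⟨rhoH_notMem hc hS i, ?_⟩
  obtain ⟨d, _, _, e⟩ := qt_eq (DD3_three S) (hc.fx i) (hc.cop i) (DD3_unit hS)
  have hm := three_dvd_not (DD3_three S)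
  have hm0 : em (DD3 S) ≠ 0 := rt_em_ne (DD3_ne S)
  obtain ⟨m', hm'⟩ := dvd_Nz (DD3 S)
  refine ⟨Nz (DD3 S), ?_, ?_⟩
  · rw [Nat.coprime_comm, Nat.Prime.coprime_iff_not_dvd Nat.prime_three,
      ← s3_dvd_iff]
    exact hm
  · have hN : em (DD3 S) * em m' = ((Nz (DD3 S) : ℕ) : ℂ) := by
      rw [← rt_em_mul, hm']
      exact rt_em_nat _
    refine Half_mem_iff.2 ⟨m' * d, ?_⟩
    rw [e, rt_em_mul, ← hN]
    field_simp

section
variable {A : ValuationSubring ℂ}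

theorem rhoH_v_term (hA : Three A) {z : ℂ} (h : Od z) :
    A.valuation (6 / (1 - zt) ^ 3 * (yH z / (1 + yH z)) - (xh z ^ 3 - xh z)) < 1 := by
  have h1 := xh_le hA h
  have hq := v_sq3_lt hA
  have h3 := v_three_lt hA
  have hs0 := sq3_ne
  have hw0 := one_sub_zt_ne
  have hw : (1 - zt) ^ 3 = -3 * sq3 := by
    rw [sq3]
    linear_combination (3 : ℂ) * S3.zt_quad - S3.zt_cube
  have hy : yH z = sq3 * (xh z ^ 3 - sq3 * xh z ^ 2 - xh z) := by
    rw [yH]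
    exact y_xh h.1
  have hx2 : A.valuation (xh z ^ 2) ≤ 1 := by
    rw [map_pow]
    exact pow_le_one₀ zero_le h1
  have hx3 : A.valuation (xh z ^ 3) ≤ 1 := by
    rw [map_pow]
    exact pow_le_one₀ zero_le h1
  have hg : A.valuation (xh z ^ 3 - xh z) ≤ 1 := A.valuation.map_sub_le hx3 h1
  have hyl : A.valuation (yH z) < 1 := by
    rw [hy, map_mul]
    refine mul_lt_one_of_lt_of_le hq (A.valuation.map_sub_le (A.valuation.map_sub_le hx3 ?_) h1)
    rw [map_mul]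
    exact mul_le_one' hq.le hx2
  have h1y : A.valuation (1 + yH z) = 1 := by
    rw [Valuation.map_add_eq_of_lt_left, map_one]
    rwa [map_one]
  have hne : 1 + yH z ≠ 0 := by
    intro h0
    rw [h0, map_zero] at h1y
    exact zero_ne_one h1y
  have e : 6 / (1 - zt) ^ 3 * (yH z / (1 + yH z)) - (xh z ^ 3 - xh z) =
      (3 * (-(xh z ^ 3 - xh z)) + sq3 * (2 * xh z ^ 2) - yH z * (xh z ^ 3 - xh z)) / (1 + yH z) := by
    rw [hw, eq_div_iff hne, sub_mul, mul_div_assoc', div_mul_cancel₀ _ hne]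
    have e1 : 6 / (-3 * sq3) * yH z = -2 * (xh z ^ 3 - sq3 * xh z ^ 2 - xh z) := by
      rw [hy]
      field_simp
      ring
    rw [e1]
    ring
  rw [e, map_div₀, h1y, div_one]
  refine A.valuation.map_sub_lt (A.valuation.map_add_lt ?_ ?_) ?_
  · rw [map_mul, Valuation.map_neg]
    exact mul_lt_one_of_lt_of_le h3 hg
  · rw [map_mul, map_mul]
    exact mul_lt_one_of_lt_of_le hq (mul_le_one' (v_two3 hA).le hx2)
  · rw [map_mul]
    exact mul_lt_one_of_lt_of_le hyl hg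

/-- **(R2)** -/
theorem rhoH_res (hA : Three A) {I : Finset P3} {q0 : P3} {ι : Type} [Fintype ι] {c : ι → 𝓞 K}
    (hc : RepsG 3 (3 * DD3 (insert q0 I)) c) (e : P3 → ZMod 3) (h0 : q0 ∉ I) (ha : aP q0 ≠ 0)
    (he : ∀ q ∈ I, e q ≠ 0) (τ : ZMod 3) :
    A.valuation ((∑ i, WH e q0 I (c i) * (1 + rho (qt (DD3 (insert q0 I)) (c i))) +
      ∏ q ∈ insert q0 I, ((Nz q.1 : ℂ) - 1)) / (1 - zt) ^ (I.card + 3) -
      ∑ i, if cq q0 (c i) = τ then (∏ q ∈ I, ((1 - e3 (e q * tH q0 q (c i))) / (1 - zt))) *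
        (xh (qt (DD3 (insert q0 I)) (c i)) ^ 3 - xh (qt (DD3 (insert q0 I)) (c i))) else 0) < 1 := by
  have hw0 := one_sub_zt_ne
  have e1 : (∑ i, WH e q0 I (c i) * (1 + rho (qt (DD3 (insert q0 I)) (c i))) +
      ∏ q ∈ insert q0 I, ((Nz q.1 : ℂ) - 1)) / (1 - zt) ^ (I.card + 3) =
      ∑ i, if cq q0 (c i) = τ then (∏ q ∈ I, ((1 - e3 (e q * tH q0 q (c i))) / (1 - zt))) *
        (6 / (1 - zt) ^ 3 * (yH (qt (DD3 (insert q0 I)) (c i)) /
          (1 + yH (qt (DD3 (insert q0 I)) (c i))))) else 0 := by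
    rw [rhoH_sum hc e h0 ha he τ, neg_add_cancel_comm, div_eq_iff (pow_ne_zero _ hw0), Finset.mul_sum,
      Finset.sum_mul]
    refine Finset.sum_congr rfl fun i _ => ?_
    split_ifs
    · rw [Finset.prod_div_distrib, Finset.prod_const, WH, pow_add]
      field_simp
    · ring
  rw [e1, ← Finset.sum_sub_distrib]
  refine A.valuation.map_sum_lt one_ne_zero fun i _ => ?_
  split_ifs
  · rw [← mul_sub, map_mul]
    have h1 : A.valuation (∏ q ∈ I, ((1 - e3 (e q * tH q0 q (c i))) / (1 - zt))) ≤ 1 :=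
      (Rt.prod I (y := fun q => e q * tH q0 q (c i)) fun q _ => Rt_diff hA _).le
    rw [mul_comm]
    exact mul_lt_one_of_lt_of_le (rhoH_v_term hA (rhoH_od hc (Finset.insert_nonempty _ _) i)) h1
  · rw [sub_zero, map_zero]
    exact zero_lt_one

end

end

end Pool.Agent.Lib.MP_1a91b9_ntK
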