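import Pool.Agent.Lib.MP_1a91b9_ntK.A.Sys1
import Pool.Agent.Lib.MP_1a91b9_ntK.A.PsD
import Pool.Agent.Lib.MP_1a91b9_ntK.A.Gr0

/-!
# Cubic twists, part A, file Rhs1: the residue of the right side, `j = 1`
-/

set_option autoImplicit false

namespace Pool.Agent.Lib.MP_1a91b9_ntK

open NumberField IsDedekindDomain Pool.Agent.Lib.MP_1a91b9_ntT Pool.Agent.Lib.MP_1a91b9_ntG
open Pool.Agent.Lib.MP_1a91b9_ntH (wO s3 cp Nz s3_ne)

noncomputable section

/-- a cube root of `√-3` -/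
def vpD : ℂ := (em s3) ^ (((3 : ℕ) : ℂ)⁻¹)

theorem vpD_cube : vpD ^ 3 = em s3 := Complex.cpow_nat_inv_pow _ (by norm_num)

theorem vpD_ne : vpD ≠ 0 := by
  intro h
  have h1 := vpD_cube
  rw [h, zero_pow (by norm_num)] at h1
  exact rt_em_ne s3_ne h1.symm

/-- the normalisation, `j = 1` -/
def N1 : ℂ := C0D * vpD

theorem N1_ne : N1 ≠ 0 := mul_ne_zero C0D_ne vpD_ne

theorem N1_cube : (N1 / (3 * Om)) ^ 3 = eta * sq3 / 2 := by
  have hO := Om_ne_zero
  have e1 : N1 / (3 * Om) = -(kapC * vpD) := by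
    rw [N1, C0D]
    field_simp
  have hs : em s3 = sq3 := em_s3
  have h1 := kapC_cube
  have h2 := vpD_cube
  rw [hs] at h2
  rw [e1]
  linear_combination (-(vpD ^ 3)) * h1 + (eta / 2) * h2

theorem v_N1 {A : ValuationSubring ℂ} (hA : Three A) :
    A.valuation ((N1 / (3 * Om)) ^ 3) = A.valuation (3 : ℂ) := by
  rw [N1_cube, map_div₀, v_two3 hA, div_one, eta, map_mul, map_mul, v_y0, one_mul, ← v_sq3, pow_two]

/-- **the residue of the right side**, `S` nonempty -/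
theorem rhs1 {A : ValuationSubring ℂ} (hA : Three A) (k : ZMod 3) {e : P3 → ZMod 3} {S : Finset P3}
    (hS : S.Nonempty) (he : ∀ q ∈ S, e q ≠ 0) {ι : Type} [Fintype ι] {c : ι → 𝓞 K}
    (hc : RepsG 3 (3 * DD3 S) c) :
    Rt A ((∑ i, thj k 1 (c i) * (∏ q ∈ S, ((1 - chq q (e q) (c i)) / (1 - zt))) *
      PsJ k 1 (em (c i) / em (9 * DD3 S))) / N1) (-GQ d3.s e aP S) := by
  have hOd : ∀ i, Od (qt (DD3 S) (c i)) := fun i =>
    od_qt (DD3_three S) (DD3_unit hS) (hc.fx i) (hc.cop i)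
  have ht3 : ∀ i, wtC e S (c i) ^ 3 = (tauC e S (c i) : ℂ) := fun i =>
    wtC_cube e S (fun q hq => cnt3_not_dvd hc i hq)
  have hl : Rt A (∑ i, (tauC e S (c i) : ℂ) * xi (qt (DD3 S) (c i))) (GQ d3.s e aP S) := by
    have h1 := gr0_res hA hc hS he (X1 := X1) (fun i => v_X_sub_X1 hA (hOd i))
    have h2 : ∀ i, (∏ q ∈ S, ((1 - chq q (e q) (c i)) / (1 - zt))) ^ 3 *
        ((S3.X (qt (DD3 S) (c i)) - X1) / sq3) = (tauC e S (c i) : ℂ) * xi (qt (DD3 S) (c i)) := by
      intro i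
      rw [← ht3 i]
      rfl
    rw [Finset.sum_congr rfl fun i _ => h2 i] at h1
    have h3 : GQ d3.s e aP S = ∑ T ∈ S.powerset, (-1) ^ T.card * ((∑ q ∈ T, e q * abar q.1) *
        CZ (fun i p => d3.s i p * e p) (fun q => abar q.1) T *
        ∏ q ∈ S \ T, ∑ p ∈ T, d3.s q p * e p) := by
      rw [GQ]
      refine Finset.sum_congr rfl fun T _ => ?_
      rw [mul_assoc]
      rfl
    rw [h3]
    exact h1
  have hm := psD_sum hA k hS he hc hl
  have h := cubeT_main hA vpD_cube hS he hc k 1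
    (G := fun i => PsJ k 1 (em (c i) / em (9 * DD3 S))) (C0 := C0D)
    (eps := fun i => epD k (1 / 3 + qt (DD3 S) (c i)))
    (fun i => (psD_eps hA k (DD3_three S) (DD3_unit hS) (hc.fx i) (hc.cop i)).1)
    (fun i => (psD_eps hA k (DD3_three S) (DD3_unit hS) (hc.fx i) (hc.cop i)).2) hm
  have e1 : (∑ i, thj k 1 (c i) * (∏ q ∈ S, ((1 - chq q (e q) (c i)) / (1 - zt))) *
      PsJ k 1 (em (c i) / em (9 * DD3 S))) / N1 =
      (∑ i, thj k 1 (c i) * wtC e S (c i) * (PsJ k 1 (em (c i) / em (9 * DD3 S)) / C0D)) / vpD := by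
    rw [N1, ← div_div, Finset.sum_div]
    congr 1
    refine Finset.sum_congr rfl fun i _ => ?_
    rw [mul_div_assoc]
    rfl
  rw [e1]
  exact h

/-- **the residue of the right side**, `S` empty -/
theorem rhs1_one {A : ValuationSubring ℂ} (hA : Three A) (k : ZMod 3) :
    Rt A (PsJ k 1 (1 / 9) / N1) k := by
  apply Rt.of_cube hA
  have e1 : (PsJ k 1 (1 / 9) / N1) ^ 3 = -2 * (1 - e3 k) / sq3 := by
    rw [N1, ← div_div, div_pow, PsJ_one_one, vpD_cube]
    congr 1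
    exact em_s3
  rw [e1]
  have hs := sq3_ne
  have hs2 := sq3_sq
  have hzt : sq3 = 1 + 2 * zt := rfl
  -- the square of `zt`
  have hz2 : zt ^ 2 = -1 - zt := by
    rw [hzt] at hs2
    linear_combination (1 / 4) * hs2
  have hR : Rt A zt 1 := by
    apply Rt_of_cube hA
    have h1 : zt ^ 3 - 1 = 0 := by linear_combination (zt - 1) * hz2
    rw [h1, map_zero]
    exact zero_lt_one
  have h2 : Rt A (2 : ℂ) 2 := by
    have h := Rt.int (A := A) 2
    push_cast at h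
    exact h
  have hk : ∀ k : ZMod 3, k = 0 ∨ k = 1 ∨ k = 2 := by decide
  rcases hk k with rfl | rfl | rfl
  · rw [e3_zero, sub_self, mul_zero, zero_div]
    exact Rt.zero
  · have e2 : -2 * (1 - e3 1) / sq3 = 2 * (1 + zt) := by
      rw [e3_one, div_eq_iff hs, hzt]
      linear_combination (-4) * hz2
    rw [e2]
    have h3 := h2.mul (Rt.one.add hR)
    have h4 : (2 : ZMod 3) * (1 + 1) = 1 := by decide
    rwa [h4] at h3
  · have e22 : e3 2 = zt ^ 2 := by
      have h : (2 : ZMod 3) = -1 := by decide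
      rw [h, e3_neg_one]
    have e2 : -2 * (1 - e3 2) / sq3 = 2 * zt := by
      rw [e22, div_eq_iff hs, hzt]
      linear_combination (-2) * hz2
    rw [e2]
    have h3 := h2.mul hR
    rwa [mul_one] at h3

end

end Pool.Agent.Lib.MP_1a91b9_ntK
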