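import Pool.Agent.Lib.MP_1a91b9_ntK.A.Theta

/-!
# Cubic twists, part A, file StarH: the identity (STAR) of the hard class
-/

set_option autoImplicit false

namespace Pool.Agent.Lib.MP_1a91b9_ntK

open Finset

variable {ι : Type*} [DecidableEq ι]

private theorem StarH_sq : ∀ x : ZMod 3, x ≠ 0 → x * x = 1 := by decide

/-- the exponents in a sum over paths -/
theorem Ham_exp {R : Type*} [CommRing R] (m : ι → ι → R) (f e : ι → R) {S : Finset ι}
    (he : ∀ i ∈ S, e i * e i = 1) {i : ι} (hi : i ∈ S) :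
    Ham (fun i j => e i * e j * m i j) (fun i => e i * f i) S i = e i * Ham m f S i := by
  induction S using Finset.strongInduction generalizing i with
  | H S ih =>
    rw [Ham_rec _ _ hi, Ham_rec m f hi, mul_add, mul_sum]
    congr 1
    · split_ifs
      · rfl
      · rw [mul_zero]
    · refine sum_congr rfl fun j hj => ?_
      rw [ih (S.erase i) (erase_ssubset hi) (fun k hk => he k (mem_of_mem_erase hk)) hj]
      linear_combination (e i * m i j * Ham m f (S.erase i) j) * he j (mem_of_mem_erase hj)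

/-- **(STAR)**: the values `-(∏ e) κ(D_T)` satisfy the recursion of the hard class. -/
theorem starH (s : ι → ι → ZMod 3) (hs : ∀ p q, p ≠ q → s p q = s q p) (a b e : ι → ZMod 3)
    {q0 : ι} {I : Finset ι} (hI : I.Nonempty) (h0 : q0 ∉ I) (ha : a q0 ≠ 0)
    (he : ∀ i ∈ I, e i ≠ 0) :
    ∑ T ∈ I.powerset.erase ∅, (-1) ^ T.card *
        (-((∏ q ∈ UH a e q0 T, eH a e q0 T q) * kapH s a b (eH a e q0 T) (UH a e q0 T))) *
        g0H s a e q0 T * ∏ i ∈ I \ T, ∑ j ∈ T, e j * mH s a q0 j i =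
      (if I.card = 1 then a q0 * ∑ i ∈ I, a i else 0) + GamH s a b e q0 I := by
  classical
  have he1 : ∀ i ∈ I, e i * e i = 1 := fun i hi => StarH_sq _ (he i hi)
  obtain ⟨E, hE⟩ : ∃ E, E = ∏ i ∈ I, e i := ⟨_, rfl⟩
  have hEE : E * E = 1 := by
    rw [hE, ← prod_mul_distrib]
    exact prod_eq_one he1
  obtain ⟨L, hL⟩ : ∃ L, L = ∑ T ∈ I.powerset.erase ∅, (-1) ^ T.card *
        (-((∏ q ∈ UH a e q0 T, eH a e q0 T q) * kapH s a b (eH a e q0 T) (UH a e q0 T))) *
        g0H s a e q0 T * ∏ i ∈ I \ T, ∑ j ∈ T, e j * mH s a q0 j i := ⟨_, rfl⟩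
  rw [← hL]
  -- the sum times the product of the exponents
  have h1 : E * L = ∑ T ∈ I.powerset.erase ∅, (-1) ^ T.card *
      (CZ (nH s a e q0) (fun i => e i * epH a q0 i) T -
        (∑ i ∈ T, e i * bH a b q0 i) * CZ (nH s a e q0) (fun i => e i * s q0 i) T) *
      ∏ i ∈ I \ T, ∑ j ∈ T, nH s a e q0 i j := by
    rw [hL, mul_sum]
    refine sum_congr rfl fun T hT => ?_
    have hT1 := mem_erase.1 hT
    have hT2 := mem_powerset.1 hT1.2
    have hT0 : T.Nonempty := nonempty_iff_ne_empty.2 hT1.1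
    have h2 := theta s hs a b e hT0 (fun h => h0 (hT2 h)) ha fun i hi => he i (hT2 hi)
    have h3 : E = (∏ i ∈ I \ T, e i) * ∏ i ∈ T, e i := by
      rw [hE, prod_sdiff hT2]
    have h4 : (∏ i ∈ T, e i) * ∏ i ∈ T, e i = 1 := by
      rw [← prod_mul_distrib]
      exact prod_eq_one fun i hi => he1 i (hT2 hi)
    have h5 : (∏ i ∈ I \ T, e i) * ∏ i ∈ I \ T, ∑ j ∈ T, e j * mH s a q0 j i =
        ∏ i ∈ I \ T, ∑ j ∈ T, nH s a e q0 i j := by
      rw [← prod_mul_distrib]
      refine prod_congr rfl fun i _ => ?_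
      rw [mul_sum]
      refine sum_congr rfl fun j _ => ?_
      rw [nH]
      ring
    rw [← h5, h3]
    linear_combination (-((∏ i ∈ I \ T, e i) * (∏ i ∈ T, e i) * (-1) ^ T.card *
      ∏ i ∈ I \ T, ∑ j ∈ T, e j * mH s a q0 j i)) * h2 +
      ((∏ i ∈ I \ T, e i) * (-1) ^ T.card * (∏ i ∈ I \ T, ∑ j ∈ T, e j * mH s a q0 j i) *
        (CZ (nH s a e q0) (fun i => e i * epH a q0 i) T -
          (∑ i ∈ T, e i * bH a b q0 i) * CZ (nH s a e q0) (fun i => e i * s q0 i) T)) * h4
  -- the first part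
  have h2 := forest_zero (nH s a e q0) (fun i => e i * epH a q0 i) hI
  -- the second part
  have h3 : ∑ T ∈ I.powerset.erase ∅, (-1) ^ T.card *
      ((∑ i ∈ T, e i * bH a b q0 i) * CZ (nH s a e q0) (fun i => e i * s q0 i) T) *
      ∏ i ∈ I \ T, ∑ j ∈ T, nH s a e q0 i j =
      (-1) ^ I.card * ∑ i ∈ I, bH a b q0 i *
        Ham (fun i j => mH s a q0 j i) (fun i => s q0 i) I i := by
    have h4 := ham_id (nH s a e q0) 0 (fun i => e i * bH a b q0 i) (fun i => e i * s q0 i) I
    have h5 : ∑ i ∈ I, e i * bH a b q0 i * Ham (nH s a e q0) (fun i => e i * s q0 i) I i =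
        ∑ i ∈ I, bH a b q0 i * Ham (fun i j => mH s a q0 j i) (fun i => s q0 i) I i := by
      refine sum_congr rfl fun i hi => ?_
      have h6 := Ham_exp (fun i j => mH s a q0 j i) (fun i => s q0 i) e he1 hi
      have h7 : Ham (nH s a e q0) (fun i => e i * s q0 i) I i =
          e i * Ham (fun i j => mH s a q0 j i) (fun i => s q0 i) I i := h6
      rw [h7]
      linear_combination (bH a b q0 i *
        Ham (fun i j => mH s a q0 j i) (fun i => s q0 i) I i) * he1 i hi
    rw [h5] at h4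
    rw [← h4, ← add_sum_erase _ _ (empty_mem_powerset I)]
    have h6 : (-1) ^ (∅ : Finset ι).card * (∑ i : ↥(∅ : Finset ι), ∑ j : ↥(∅ : Finset ι),
        e i * bH a b q0 i * (NM (nH s a e q0) 0 ∅).adjugate i j * (e j * s q0 j)) *
        ∏ q ∈ I \ ∅, ((0 : ι → ZMod 3) q + ∑ p ∈ (∅ : Finset ι), nH s a e q0 q p) = 0 := by
      simp
    rw [h6, zero_add]
    refine sum_congr rfl fun T hT => ?_
    have h7 : ∑ i : T, ∑ j : T, e i * bH a b q0 i * (NM (nH s a e q0) 0 T).adjugate i j *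
        (e j * s q0 j) = (∑ i ∈ T, e i * bH a b q0 i) *
          CZ (nH s a e q0) (fun i => e i * s q0 i) T := by
      rw [CZ, ← sum_coe_sort T (fun i => e i * bH a b q0 i), sum_mul_sum]
      refine sum_congr rfl fun i _ => sum_congr rfl fun j _ => ?_
      rw [adj_row (NM_mulVec_one _ T) i j j]
      ring
    rw [h7]
    simp only [Pi.zero_apply, zero_add]
  have h4 : E * L = (if I.card = 1 then -∑ q ∈ I, e q * epH a q0 q else 0) -
      (-1) ^ I.card * ∑ i ∈ I, bH a b q0 i *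
        Ham (fun i j => mH s a q0 j i) (fun i => s q0 i) I i := by
    rw [h1, ← h2, ← h3, ← sum_sub_distrib]
    exact sum_congr rfl fun T _ => by ring
  have h5 : L = E * (E * L) := by rw [← mul_assoc, hEE, one_mul]
  rw [h5, h4, GamH, ← hE]
  split_ifs with h6
  · obtain ⟨i, rfl⟩ := card_eq_one.1 h6
    rw [prod_singleton] at hE
    simp only [sum_singleton]
    rw [hE, epH]
    linear_combination (a i * a q0) * he1 i (mem_singleton_self i)
  · ring

end Pool.Agent.Lib.MP_1a91b9_ntK
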