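import Pool.Agent.Lib.MP_1a91b9_ntK.A.ForQ

/-!
# Cubic twists, part A, file SysH: the names of the hard class (`k = 0`, `∑ e a = 0`)

`s` the symbols (`d3.s`), `a` (`aP`) and `b` (`bbar`) the two class coordinates, `q0` a prime with `a q0 ≠ 0`, `e` the exponents,
`T ⊆ I := S - q0`. Everything is over a general index type.
-/

set_option autoImplicit false

namespace Pool.Agent.Lib.MP_1a91b9_ntK

open Finset

section Ham

variable {ι R : Type*} [DecidableEq ι] [CommRing R]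

/-- auxiliary: Hamiltonian paths with fuel -/
def HamA (m : ι → ι → R) (f : ι → R) : ℕ → Finset ι → ι → R
  | 0, _, _ => 0
  | n + 1, S, i => (if S.erase i = ∅ then f i else 0) +
      ∑ j ∈ S.erase i, m i j * HamA m f n (S.erase i) j

/-- the sum over the Hamiltonian paths of `S` which start at `i`: `m i i₁ * m i₁ i₂ * ... * f i_r` -/
def Ham (m : ι → ι → R) (f : ι → R) (S : Finset ι) (i : ι) : R := HamA m f S.card S i

theorem Ham_rec (m : ι → ι → R) (f : ι → R) {S : Finset ι} {i : ι} (hi : i ∈ S) :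
    Ham m f S i = (if S.erase i = ∅ then f i else 0) +
      ∑ j ∈ S.erase i, m i j * Ham m f (S.erase i) j := by
  have h : S.card = (S.erase i).card + 1 := (card_erase_add_one hi).symm
  rw [Ham, h, HamA]
  rfl

theorem Ham_single (m : ι → ι → R) (f : ι → R) (i : ι) : Ham m f {i} i = f i := by
  rw [Ham_rec m f (mem_singleton_self i)]
  have h : ({i} : Finset ι).erase i = ∅ := by simp
  rw [if_pos h, h, sum_empty, add_zero]

theorem Ham_of (m : ι → ι → R) (f : ι → R) {S : Finset ι} {i : ι} (hi : i ∈ S)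
    (h : (S.erase i).Nonempty) :
    Ham m f S i = ∑ j ∈ S.erase i, m i j * Ham m f (S.erase i) j := by
  rw [Ham_rec m f hi, if_neg h.ne_empty, zero_add]

end Ham

variable {ι : Type*} [DecidableEq ι]

/-- `ε_i = -a_i a_0` -/
def epH (a : ι → ZMod 3) (q0 i : ι) : ZMod 3 := -(a i * a q0)

/-- the exponent of `q0` in `D_T`: `e_0(T) = ∑ (i ∈ T) e_i ε_i` -/
def e0H (a e : ι → ZMod 3) (q0 : ι) (T : Finset ι) : ZMod 3 := ∑ i ∈ T, e i * epH a q0 i

/-- the exponents of `D_T` -/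
def eH (a e : ι → ZMod 3) (q0 : ι) (T : Finset ι) : ι → ZMod 3 :=
  Function.update e q0 (e0H a e q0 T)

/-- the support of `D_T` -/
def UH (a e : ι → ZMod 3) (q0 : ι) (T : Finset ι) : Finset ι :=
  if e0H a e q0 T = 0 then T else insert q0 T

/-- `m_{ji} = t_j(q_i) = s(q_j, q_i) + ε_j s(q0, q_i)` -/
def mH (s : ι → ι → ZMod 3) (a : ι → ZMod 3) (q0 j i : ι) : ZMod 3 :=
  s j i + epH a q0 j * s q0 i

/-- `b'_i = b_i + ε_i b_0` -/
def bH (a b : ι → ZMod 3) (q0 i : ι) : ZMod 3 := b i + epH a q0 i * b q0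

/-- `g0(T) = 1` if `e_0(T) ≠ 0`, `= ∑ (j ∈ T) e_j s(q0, q_j)` if `e_0(T) = 0` -/
def g0H (s : ι → ι → ZMod 3) (a e : ι → ZMod 3) (q0 : ι) (T : Finset ι) : ZMod 3 :=
  if e0H a e q0 T = 0 then ∑ j ∈ T, e j * s q0 j else 1

/-- `Γ = -(-1)^n (∏ e) ∑ (i ∈ I) b'_i Ham_i(I)`, `Ham_i({i}) = s(q0, q_i)`,
`Ham_i(J) = ∑ (j ∈ J - i) m_{ji} Ham_j(J - i)` -/
def GamH (s : ι → ι → ZMod 3) (a b e : ι → ZMod 3) (q0 : ι) (I : Finset ι) : ZMod 3 :=
  -((-1) ^ I.card * (∏ i ∈ I, e i) *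
    ∑ i ∈ I, bH a b q0 i * Ham (fun i j => mH s a q0 j i) (fun i => s q0 i) I i)

/-- the matrix `N'_D = [[N_0, a], [aᵀ, c_D]]` on `U ⊕ Unit`, `c_D = ∑ e b` -/
def NH (s : ι → ι → ZMod 3) (a b e : ι → ZMod 3) (U : Finset ι) :
    Matrix (U ⊕ Unit) (U ⊕ Unit) (ZMod 3) :=
  NB s 0 e a (∑ q ∈ U, e q * b q) U

/-- the cofactor `κ(D) = adj (N'_D) q q`, `q ∈ U` (it does not depend on `q`) -/
noncomputable def kapH (s : ι → ι → ZMod 3) (a b e : ι → ZMod 3) (U : Finset ι) : ZMod 3 :=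
  haveI := Classical.dec U.Nonempty
  if h : U.Nonempty then
    (NH s a b e U).adjugate (Sum.inl ⟨h.choose, h.choose_spec⟩) (Sum.inl ⟨h.choose, h.choose_spec⟩)
  else 0

end Pool.Agent.Lib.MP_1a91b9_ntK
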