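import Pool.Agent.Lib.MP_1a91b9_ntK.A.HamId
import Pool.Agent.Lib.MP_1a91b9_ntK.A.Ker0

/-!
# Cubic twists, part A, file Theta: the cofactor of the hard class and the theta lemma

`kapH_adj`: `adj N'_D = κ(D) (e, 0) (e, 0)ᵀ`; `kapH_ne_of_ker`; `theta`.
-/

set_option autoImplicit false

namespace Pool.Agent.Lib.MP_1a91b9_ntK

open Finset

/-! ### The adjugate of a matrix with a kernel vector -/

section Adj

variable {n R : Type*} [Fintype n] [DecidableEq n] [CommRing R]

theorem adj_wt [IsDomain R] {M : Matrix n n R} {v : n → R} (h : M.mulVec v = 0) (hv : v ≠ 0)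
    (i i' j : n) : v i' * M.adjugate i j = v i * M.adjugate i' j := by
  rw [Matrix.adjugate_apply, Matrix.adjugate_apply, ← sub_eq_zero]
  have h1 : v i' * (M.updateRow j (Pi.single i 1)).det - v i * (M.updateRow j (Pi.single i' 1)).det =
      (M.updateRow j (v i' • Pi.single i 1 + (-v i) • Pi.single i' 1)).det := by
    rw [Matrix.det_updateRow_add, Matrix.det_updateRow_smul, Matrix.det_updateRow_smul]
    ring
  rw [h1, ← Matrix.exists_mulVec_eq_zero_iff]
  refine ⟨v, hv, ?_⟩
  ext l
  by_cases hl : l = j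
  · subst hl
    simp only [Matrix.mulVec, dotProduct, Matrix.updateRow_self, Pi.add_apply, Pi.smul_apply,
      smul_eq_mul, Pi.zero_apply, add_mul, sum_add_distrib, mul_assoc]
    rw [← mul_sum, ← mul_sum]
    have h2 : ∀ k : n, ∑ x : n, (Pi.single (M := fun _ : n => R) k 1 x) * v x = v k := by
      intro k
      rw [sum_eq_single k]
      · rw [Pi.single_eq_same, one_mul]
      · intro b _ hb
        rw [Pi.single_eq_of_ne hb, zero_mul]
      · intro h
        exact absurd (mem_univ _) h
    rw [h2, h2]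
    ring
  · have h2 := congrFun h l
    simp only [Matrix.mulVec, dotProduct, Matrix.updateRow_ne hl] at h2 ⊢
    exact h2

theorem adj_symm {M : Matrix n n R} (hM : M.transpose = M) (i j : n) :
    M.adjugate i j = M.adjugate j i := by
  have h1 := Matrix.adjugate_transpose M
  rw [hM] at h1
  have h2 := congrFun (congrFun h1 i) j
  rw [Matrix.transpose_apply] at h2
  exact h2.symm

theorem adj_ker [IsDomain R] {M : Matrix n n R} (hM : M.transpose = M) {v : n → R}
    (h : M.mulVec v = 0) {k : n} (hk : v k * v k = 1) (i j : n) :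
    M.adjugate i j = M.adjugate k k * (v i * v j) := by
  have hv : v ≠ 0 := by
    intro h0
    rw [h0] at hk
    simp at hk
  have h1 := adj_wt h hv i k j
  have h2 := adj_wt h hv j k k
  have h3 := adj_symm hM k j
  calc M.adjugate i j = v k * (v k * M.adjugate i j) := by rw [← mul_assoc, hk, one_mul]
    _ = v i * (v k * M.adjugate j k) := by rw [h1, h3]; ring
    _ = M.adjugate k k * (v i * v j) := by rw [h2]; ring

/-- if the kernel is generated by `v` then the cofactor is not `0` -/
theorem adj_ne_of_ker [IsDomain R] {M : Matrix n n R} (hM : M.transpose = M) {v : n → R}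
    (h : M.mulVec v = 0) {k : n} (hk : v k ≠ 0)
    (hker : ∀ w : n → R, M.mulVec w = 0 → ∃ c : R, ∀ i, w i = c * v i) : M.adjugate k k ≠ 0 := by
  intro h0
  have hv : v ≠ 0 := fun h' => hk (congrFun h' k)
  have hdet : M.det = 0 := by
    rw [← Matrix.exists_mulVec_eq_zero_iff]
    exact ⟨v, hv, h⟩
  have h1 : (M.updateRow k (M k + Pi.single k 1)).det = 0 := by
    rw [Matrix.det_updateRow_add, Matrix.updateRow_eq_self, hdet, ← Matrix.adjugate_apply, h0,
      add_zero]
  rw [← Matrix.exists_mulVec_eq_zero_iff] at h1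
  obtain ⟨w, hw0, hw⟩ := h1
  have h2 : ∀ i : n, M.mulVec w i = if i = k then -w k else 0 := by
    intro i
    have h3 := congrFun hw i
    simp only [Matrix.mulVec, dotProduct, Pi.zero_apply] at h3 ⊢
    split_ifs with hi
    · subst hi
      simp only [Matrix.updateRow_self, Pi.add_apply, add_mul, sum_add_distrib] at h3
      have h4 : ∑ x : n, (Pi.single (M := fun _ : n => R) i 1 x) * w x = w i := by
        rw [sum_eq_single i]
        · rw [Pi.single_eq_same, one_mul]
        · intro b _ hb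
          rw [Pi.single_eq_of_ne hb, zero_mul]
        · intro h
          exact absurd (mem_univ _) h
      rw [h4] at h3
      linear_combination h3
    · simp only [Matrix.updateRow_ne hi] at h3
      exact h3
  have h3 : ∑ i : n, v i * M.mulVec w i = 0 := by
    have h4 : ∑ i : n, v i * M.mulVec w i = ∑ j : n, M.mulVec v j * w j := by
      simp only [Matrix.mulVec, dotProduct, mul_sum, sum_mul]
      rw [sum_comm]
      refine sum_congr rfl fun j _ => sum_congr rfl fun i _ => ?_
      have h5 : M i j = M j i := by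
        conv_lhs => rw [← hM]
        rfl
      rw [h5]
      ring
    rw [h4, h]
    simp
  have h4 : ∑ i : n, v i * M.mulVec w i = v k * -w k := by
    rw [sum_eq_single k]
    · rw [h2, if_pos rfl]
    · intro b _ hb
      rw [h2, if_neg hb, mul_zero]
    · intro h
      exact absurd (mem_univ _) h
  rw [h4] at h3
  have h5 : w k = 0 := by
    rcases mul_eq_zero.1 h3 with h6 | h6
    · exact absurd h6 hk
    · exact neg_eq_zero.1 h6
  have h6 : M.mulVec w = 0 := by
    ext i
    rw [h2, h5, neg_zero]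
    simp
  obtain ⟨c, hc⟩ := hker w h6
  have h7 : c = 0 := by
    have h8 := hc k
    rw [h5] at h8
    exact (mul_eq_zero.1 h8.symm).resolve_right hk
  apply hw0
  ext i
  rw [hc i, h7, zero_mul]
  rfl

/-- the adjugate of `D M D`, `D` diagonal with entries of square `1` -/
theorem adj_conj {M : Matrix n n R} {d : n → R} (hd : ∀ i, d i * d i = 1) (i j : n) :
    (Matrix.diagonal d * M * Matrix.diagonal d).adjugate i j = d i * M.adjugate i j * d j := by
  have h1 : ∀ i, ∏ x ∈ univ.erase i, d x = (∏ x, d x) * d i := by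
    intro i
    rw [← mul_prod_erase univ d (mem_univ i)]
    linear_combination -(∏ x ∈ univ.erase i, d x) * hd i
  have h2 : (∏ x, d x) * ∏ x, d x = 1 := by
    rw [← prod_mul_distrib]
    exact prod_eq_one fun x _ => hd x
  rw [Matrix.adjugate_mul_distrib, Matrix.adjugate_mul_distrib, Matrix.adjugate_diagonal,
    ← Matrix.mul_assoc, Matrix.mul_diagonal, Matrix.diagonal_mul, h1, h1]
  linear_combination (d i * M.adjugate i j * d j) * h2

theorem det_conj {M : Matrix n n R} {d : n → R} (hd : ∀ i, d i * d i = 1) :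
    (Matrix.diagonal d * M * Matrix.diagonal d).det = M.det := by
  have h2 : (∏ x, d x) * ∏ x, d x = 1 := by
    rw [← prod_mul_distrib]
    exact prod_eq_one fun x _ => hd x
  rw [Matrix.det_mul, Matrix.det_mul, Matrix.det_diagonal]
  linear_combination M.det * h2

/-! ### The rank one lemma -/

omit [Fintype n] in
private theorem Theta_swap (A : Matrix n n R) (f g g' r : n → R) (c : R) :
    (BM (BM A g' g c) (Sum.elim f fun _ => 1) (Sum.elim r fun _ => 0) 0).submatrix
      (Equiv.swap (Sum.inl (Sum.inr ())) (Sum.inr ())) id =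
    Matrix.fromBlocks (BM A g' r 0) (Matrix.of fun x _ => Sum.elim f (fun _ => 0) x)
      (Matrix.of fun _ y => Sum.elim g (fun _ => c) y) 1 := by
  have h1 : ∀ x : n, (Equiv.swap (Sum.inl (Sum.inr ())) (Sum.inr ()) : Equiv.Perm ((n ⊕ Unit) ⊕ Unit))
      (Sum.inl (Sum.inl x)) = Sum.inl (Sum.inl x) := fun x =>
    Equiv.swap_apply_of_ne_of_ne (by simp) (by simp)
  ext x y
  rw [Matrix.submatrix_apply]
  rcases x with (x | ⟨⟩) | ⟨⟩
  · rw [h1]
    rcases y with (y | ⟨⟩) | ⟨⟩ <;> rfl
  · rw [Equiv.swap_apply_left]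
    rcases y with (y | ⟨⟩) | ⟨⟩ <;> rfl
  · rw [Equiv.swap_apply_right]
    rcases y with (y | ⟨⟩) | ⟨⟩ <;> rfl

theorem det_rank_one (A : Matrix n n R) (f g g' r : n → R) (c : R) :
    (BM (A - Matrix.vecMulVec f g) (fun i => g' i - c * f i) r 0).det =
      -(BM (BM A g' g c) (Sum.elim f fun _ => 1) (Sum.elim r fun _ => 0) 0).det := by
  have h1 := congrArg Matrix.det (Theta_swap A f g g' r c)
  rw [Matrix.det_permute, Equiv.Perm.sign_swap (by simp), Matrix.det_fromBlocks_one₂₂] at h1
  have h2 : BM A g' r 0 - (Matrix.of fun x (_ : Unit) => Sum.elim f (fun _ => 0) x) *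
      (Matrix.of fun (_ : Unit) y => Sum.elim g (fun _ => c) y) =
      BM (A - Matrix.vecMulVec f g) (fun i => g' i - c * f i) r 0 := by
    ext x y
    rw [Matrix.sub_apply, Matrix.mul_apply]
    simp only [Finset.univ_unique, sum_singleton, Matrix.of_apply]
    rcases x with x | ⟨⟩
    · rcases y with y | ⟨⟩
      · simp only [BM, Matrix.fromBlocks_apply₁₁, Sum.elim_inl, Matrix.sub_apply,
          Matrix.vecMulVec_apply]
      · simp only [BM, Matrix.fromBlocks_apply₁₂, Sum.elim_inl, Sum.elim_inr, Matrix.of_apply]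
        ring
    · rcases y with y | ⟨⟩
      · simp only [BM, Matrix.fromBlocks_apply₂₁, Sum.elim_inl, Sum.elim_inr, Matrix.of_apply]
        ring
      · simp only [BM, Matrix.fromBlocks_apply₂₂, Sum.elim_inr, Matrix.of_apply]
        ring
  rw [h2] at h1
  rw [← h1]
  push_cast
  ring

theorem adj_rank_one (A : Matrix n n R) (f g g' : n → R) (c : R) (i : n) :
    ∑ j, (A - Matrix.vecMulVec f g).adjugate i j * (g' j - c * f j) =
      -(∑ j, (BM A g' g c).adjugate (Sum.inl i) (Sum.inl j) * f j +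
        (BM A g' g c).adjugate (Sum.inl i) (Sum.inr ())) := by
  have h1 := det_rank_one A f g g' (Pi.single i 1) c
  rw [det_BM, det_BM, zero_mul, zero_mul, zero_sub, zero_sub, neg_neg] at h1
  have h2 : ∀ (N : Matrix n n R) (v : n → R),
      ∑ x, ∑ y, (Pi.single i 1 : n → R) x * N.adjugate x y * v y = ∑ y, N.adjugate i y * v y := by
    intro N v
    rw [sum_eq_single i]
    · simp
    · intro b _ hb
      exact sum_eq_zero fun y _ => by rw [Pi.single_eq_of_ne hb]; ring
    · intro h
      exact absurd (mem_univ _) h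
  rw [h2, Fintype.sum_sum_type] at h1
  simp only [Sum.elim_inl, Sum.elim_inr, zero_mul, sum_const_zero, add_zero] at h1
  have h3 : ∑ x : n, ∑ y : n ⊕ Unit, (Pi.single i 1 : n → R) x *
      (BM A g' g c).adjugate (Sum.inl x) y * (Sum.elim f (fun _ => 1) y : R) =
      ∑ j, (BM A g' g c).adjugate (Sum.inl i) (Sum.inl j) * f j +
        (BM A g' g c).adjugate (Sum.inl i) (Sum.inr ()) := by
    rw [sum_eq_single i]
    · rw [Fintype.sum_sum_type]
      simp
    · intro b _ hb
      exact sum_eq_zero fun y _ => by rw [Pi.single_eq_of_ne hb]; ring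
    · intro h
      exact absurd (mem_univ _) h
  rw [h3] at h1
  linear_combination -h1

end Adj

/-! ### The cofactor `κ(D)` -/

variable {ι : Type*} [DecidableEq ι]

private theorem Theta_sq : ∀ x : ZMod 3, x ≠ 0 → x * x = 1 := by decide

private theorem Theta_field : IsDomain (ZMod 3) :=
  have : Fact (Nat.Prime 3) := ⟨Nat.prime_three⟩
  inferInstance

/-- the kernel vector `(e, 0)` -/
def vH (e : ι → ZMod 3) (U : Finset ι) : U ⊕ Unit → ZMod 3 :=
  Sum.elim (fun i => e i) (fun _ => 0)

theorem NH_symm (s : ι → ι → ZMod 3) (hs : ∀ p q, p ≠ q → s p q = s q p) (a b e : ι → ZMod 3)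
    (U : Finset ι) : (NH s a b e U).transpose = NH s a b e U := by
  rw [NH, NB, Matrix.fromBlocks_transpose, NE_symm s hs]
  rfl

theorem NH_mulVec (s : ι → ι → ZMod 3) (a b e : ι → ZMod 3) {U : Finset ι}
    (he : ∀ i ∈ U, e i ≠ 0) (hA : ∑ i ∈ U, e i * a i = 0) :
    (NH s a b e U).mulVec (vH e U) = 0 := by
  ext x
  rcases x with i | ⟨⟩
  · have h1 := congrFun (NE_mulVec_e s e U fun i hi => Theta_sq _ (he i hi)) i
    simp only [Matrix.mulVec, dotProduct, NH, NB, Fintype.sum_sum_type, Matrix.fromBlocks_apply₁₁,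
      Matrix.fromBlocks_apply₁₂, vH, Sum.elim_inl, Sum.elim_inr, mul_zero, sum_const_zero,
      add_zero] at h1 ⊢
    exact h1
  · simp only [Matrix.mulVec, dotProduct, NH, NB, Fintype.sum_sum_type, Matrix.fromBlocks_apply₂₁,
      Matrix.fromBlocks_apply₂₂, vH, Sum.elim_inl, Sum.elim_inr, mul_zero, sum_const_zero,
      add_zero, Pi.zero_apply]
    rw [← hA, ← sum_coe_sort U (fun i => e i * a i)]
    exact sum_congr rfl fun i _ => mul_comm _ _

/-- **`adj N'_D = κ(D) (e, 0) (e, 0)ᵀ`.** -/
theorem kapH_adj (s : ι → ι → ZMod 3) (hs : ∀ p q, p ≠ q → s p q = s q p) (a b e : ι → ZMod 3)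
    {U : Finset ι} (hU : U.Nonempty) (he : ∀ i ∈ U, e i ≠ 0) (hA : ∑ i ∈ U, e i * a i = 0)
    (x y : U ⊕ Unit) :
    (NH s a b e U).adjugate x y = kapH s a b e U * (vH e U x * vH e U y) := by
  have := Theta_field
  rw [kapH, dif_pos hU]
  exact adj_ker (NH_symm s hs a b e U) (NH_mulVec s a b e he hA)
    (k := Sum.inl ⟨hU.choose, hU.choose_spec⟩) (Theta_sq _ (he _ hU.choose_spec)) x y

/-- **If the kernel of `N'_D` is generated by `(e, 0)` then `κ(D) ≠ 0`.** -/
theorem kapH_ne_of_ker (s : ι → ι → ZMod 3) (hs : ∀ p q, p ≠ q → s p q = s q p)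
    (a b e : ι → ZMod 3) {S : Finset ι} (hS : S.Nonempty) (he : ∀ q ∈ S, e q ≠ 0)
    (hA : ∑ q ∈ S, e q * a q = 0)
    (hker : ∀ v : S ⊕ Unit → ZMod 3, (NH s a b e S).mulVec v = 0 →
      ∃ c : ZMod 3, (∀ i : S, v (Sum.inl i) = c * e i) ∧ v (Sum.inr ()) = 0) :
    kapH s a b e S ≠ 0 := by
  have := Theta_field
  rw [kapH, dif_pos hS]
  refine adj_ne_of_ker (NH_symm s hs a b e S) (NH_mulVec s a b e he hA)
    (k := Sum.inl ⟨hS.choose, hS.choose_spec⟩) (he _ hS.choose_spec) fun w hw => ?_
  obtain ⟨c, h1, h2⟩ := hker w hw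
  refine ⟨c, fun x => ?_⟩
  rcases x with i | ⟨⟩
  · exact h1 i
  · change w (Sum.inr ()) = c * 0
    rw [h2, mul_zero]

/-- the cofactor depends on `e` on `U` only -/
theorem kapH_congr (s : ι → ι → ZMod 3) (a b : ι → ZMod 3) {e e' : ι → ZMod 3} {U : Finset ι}
    (h : ∀ i ∈ U, e i = e' i) : kapH s a b e U = kapH s a b e' U := by
  have h1 : NH s a b e U = NH s a b e' U := by
    rw [NH, NH, NB, NB]
    have h2 : NE s 0 e U = NE s 0 e' U := by
      ext i j
      simp only [NE]
      rw [h i i.2]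
      congr 2
      exact sum_congr rfl fun p hp => by rw [h p (mem_of_mem_erase hp)]
    have h3 : ∑ q ∈ U, e q * b q = ∑ q ∈ U, e' q * b q := sum_congr rfl fun q hq => by rw [h q hq]
    rw [h2, h3]
  rw [kapH, kapH, h1]

/-- the block form of the adjugate when the border vanishes -/
theorem adj_block {n R : Type*} [Fintype n] [DecidableEq n] [CommRing R] (N : Matrix n n R) (k : R)
    (i j : n) : (BM N 0 0 k).adjugate (Sum.inl i) (Sum.inl j) = k * N.adjugate i j := by
  rw [Matrix.adjugate_apply, Matrix.adjugate_apply]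
  have h1 : (BM N 0 0 k).updateRow (Sum.inl j) (Pi.single (Sum.inl i) 1) =
      BM (N.updateRow j (Pi.single i 1)) 0 0 k := by
    ext x y
    rw [Matrix.updateRow_apply]
    rcases x with x | ⟨⟩
    · by_cases hx : x = j
      · subst hx
        rw [if_pos rfl]
        rcases y with y | ⟨⟩
        · simp only [BM, Matrix.fromBlocks_apply₁₁, Matrix.updateRow_self]
          by_cases hy : y = i
          · subst hy
            rw [Pi.single_eq_same, Pi.single_eq_same]
          · rw [Pi.single_eq_of_ne hy, Pi.single_eq_of_ne (fun h => hy (Sum.inl.inj h))]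
        · simp only [BM, Matrix.fromBlocks_apply₁₂, Matrix.of_apply, Pi.zero_apply]
          rw [Pi.single_eq_of_ne (by simp)]
      · rw [if_neg (fun h => hx (Sum.inl.inj h))]
        rcases y with y | ⟨⟩
        · simp only [BM, Matrix.fromBlocks_apply₁₁, Matrix.updateRow_ne hx]
        · simp only [BM, Matrix.fromBlocks_apply₁₂]
    · rw [if_neg (by simp)]
      rcases y with y | ⟨⟩ <;> rfl
  rw [h1, det_BM]
  simp

/-- **Case 0**: `a = 0` on `S`. -/
theorem kapH_zero (s : ι → ι → ZMod 3) (hs : ∀ p q, p ≠ q → s p q = s q p) (a b e : ι → ZMod 3)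
    {U : Finset ι} (hU : U.Nonempty) (he : ∀ i ∈ U, e i ≠ 0) (ha : ∀ i ∈ U, a i = 0) :
    CZ (fun i p => s i p * e p) b U = (∏ i ∈ U, e i) * kapH s a b e U := by
  have := Theta_field
  have hA : ∑ i ∈ U, e i * a i = 0 := sum_eq_zero fun i hi => by rw [ha i hi, mul_zero]
  obtain ⟨k, hk⟩ := hU
  have he1 : ∀ i ∈ U, e i * e i = 1 := fun i hi => Theta_sq _ (he i hi)
  have h1 : NH s a b e U = BM (NE s 0 e U) 0 0 (∑ q ∈ U, e q * b q) := by
    ext x y
    rcases x with x | ⟨⟩ <;> rcases y with y | ⟨⟩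
    · rfl
    · exact ha x x.2
    · exact ha y y.2
    · rfl
  have h2 := kapH_adj s hs a b e ⟨k, hk⟩ he hA (Sum.inl ⟨k, hk⟩) (Sum.inl ⟨k, hk⟩)
  rw [h1, adj_block] at h2
  have h3 : vH e U (Sum.inl ⟨k, hk⟩) * vH e U (Sum.inl ⟨k, hk⟩) = 1 := he1 k hk
  rw [h3, mul_one] at h2
  rw [CZ_NE s b e U he1, ← h2]
  congr 1
  rw [sum_mul, ← sum_coe_sort U (fun i => e i * b i * (NE s 0 e U).adjugate ⟨k, hk⟩ ⟨k, hk⟩)]
  refine sum_congr rfl fun r _ => ?_
  have h4 := adj_ker (NE_symm s hs 0 e U) (NE_mulVec_e s e U he1) (k := (⟨k, hk⟩ : U))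
    (he1 k hk) r r
  rw [h4, he1 r r.2, mul_one]

/-! ### The theta lemma -/

/-- the matrix of `D_T` on `T` -/
def NT (s : ι → ι → ZMod 3) (a e : ι → ZMod 3) (q0 : ι) (T : Finset ι) : Matrix T T (ZMod 3) :=
  NE s (fun i => e0H a e q0 T * s q0 i) e T

/-- `n_ij = e_i e_j m_{ji}` -/
def nH (s : ι → ι → ZMod 3) (a e : ι → ZMod 3) (q0 i j : ι) : ZMod 3 := e i * e j * mH s a q0 j i

theorem Theta_NM (s : ι → ι → ZMod 3) (hs : ∀ p q, p ≠ q → s p q = s q p) (a e : ι → ZMod 3)
    (q0 : ι) {T : Finset ι} (he : ∀ i ∈ T, e i ≠ 0) :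
    NM (nH s a e q0) 0 T = Matrix.diagonal (fun i : T => e i) * NT s a e q0 T *
      Matrix.diagonal (fun i : T => e i) - Matrix.vecMulVec (fun i : T => e i * s q0 i)
        (fun i : T => e i * epH a q0 i) := by
  ext i j
  rw [Matrix.sub_apply, Matrix.mul_diagonal, Matrix.diagonal_mul, Matrix.vecMulVec_apply]
  have hi := Theta_sq _ (he i i.2)
  by_cases h : i = j
  · subst h
    simp only [NM, NT, NE, if_true, Pi.zero_apply, zero_add]
    have h1 : e0H a e q0 T = e i * epH a q0 i + ∑ p ∈ T.erase i, e p * epH a q0 p := by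
      rw [e0H, add_sum_erase T (fun p => e p * epH a q0 p) i.2]
    have h2 : ∑ p ∈ T.erase i, nH s a e q0 i p =
        ∑ p ∈ T.erase i, s i p * (e i * e p) +
          e i * s q0 i * ∑ p ∈ T.erase i, e p * epH a q0 p := by
      rw [mul_sum, ← sum_add_distrib]
      refine sum_congr rfl fun p hp => ?_
      have h3 : (p : ι) ≠ i := (mem_erase.1 hp).1
      rw [nH, mH, hs p i h3]
      ring
    rw [h2, h1]
    linear_combination (-(∑ p ∈ T.erase i, s i p * (e i * e p)) -
      (e i * s q0 i) * (∑ p ∈ T.erase i, e p * epH a q0 p) -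
      (e i * e i * s q0 i * epH a q0 i)) * hi
  · simp only [NM, NT, NE, if_neg h, nH, mH]
    rw [hs j i fun h' => h (Subtype.ext h').symm]
    ring

/-- the sum of the `CZ` as an entry -/
theorem Theta_CZ (m : ι → ι → ZMod 3) (v : ι → ZMod 3) {T : Finset ι} (i : T) :
    CZ m v T = ∑ j : T, (NM m 0 T).adjugate i j * v j := by
  rw [CZ]
  refine sum_congr rfl fun j _ => ?_
  rw [adj_row (NM_mulVec_one m T) i j j, mul_comm]

/-- a principal cofactor is a determinant on the smaller set -/
theorem adj_insert {R : Type*} [CommRing R] {T : Finset ι} {r : ι} (hr : r ∉ T)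
    (M : Matrix (↥(insert r T) ⊕ Unit) (↥(insert r T) ⊕ Unit) R) :
    M.adjugate (Sum.inl ⟨r, mem_insert_self r T⟩) (Sum.inl ⟨r, mem_insert_self r T⟩) =
      (M.submatrix (Sum.map (fun i : T => (⟨i, mem_insert_of_mem i.2⟩ : ↥(insert r T))) id)
        (Sum.map (fun i : T => (⟨i, mem_insert_of_mem i.2⟩ : ↥(insert r T))) id)).det := by
  classical
  rw [Matrix.adjugate_apply, det_single, one_mul]
  let e : T ⊕ Unit ≃ {x : ↥(insert r T) ⊕ Unit // ¬ x = Sum.inl ⟨r, mem_insert_self r T⟩} :=
    { toFun := fun x => match x with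
        | Sum.inl i => ⟨Sum.inl ⟨i, mem_insert_of_mem i.2⟩, fun h => hr (by
            have h1 : (i : ι) = r := congrArg Subtype.val (Sum.inl.inj h)
            rw [← h1]
            exact i.2)⟩
        | Sum.inr u => ⟨Sum.inr u, fun h => by simp at h⟩
      invFun := fun x => match x with
        | ⟨Sum.inl i, hi⟩ => Sum.inl ⟨i, mem_of_mem_insert_of_ne i.2 fun h =>
            hi (congrArg Sum.inl (Subtype.ext h))⟩
        | ⟨Sum.inr u, _⟩ => Sum.inr u
      left_inv := fun x => by rcases x with i | u <;> rfl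
      right_inv := fun x => by rcases x with ⟨i | u, hi⟩ <;> rfl }
  rw [← Matrix.det_submatrix_equiv_self e]
  congr 1
  ext x y
  rcases x with x | x <;> rcases y with y | y <;> rfl

/-- **The theta lemma (T).** -/
theorem theta (s : ι → ι → ZMod 3) (hs : ∀ p q, p ≠ q → s p q = s q p) (a b e : ι → ZMod 3)
    {q0 : ι} {T : Finset ι} (hT : T.Nonempty) (h0 : q0 ∉ T) (ha : a q0 ≠ 0)
    (he : ∀ i ∈ T, e i ≠ 0) :
    g0H s a e q0 T * ((∏ q ∈ UH a e q0 T, eH a e q0 T q) *
        kapH s a b (eH a e q0 T) (UH a e q0 T)) =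
      -((∏ i ∈ T, e i) * (CZ (nH s a e q0) (fun i => e i * epH a q0 i) T -
        (∑ i ∈ T, e i * bH a b q0 i) * CZ (nH s a e q0) (fun i => e i * s q0 i) T)) := by
  classical
  obtain ⟨i0, hi0⟩ := hT
  have he1 : ∀ i ∈ T, e i * e i = 1 := fun i hi => Theta_sq _ (he i hi)
  have ha1 := Theta_sq _ ha
  obtain ⟨c, hc⟩ : ∃ c, c = ∑ i ∈ T, e i * bH a b q0 i := ⟨_, rfl⟩
  obtain ⟨d, hd⟩ : ∃ d : T ⊕ Unit → ZMod 3, d = Sum.elim (fun i : T => e i) (fun _ => -a q0) :=
    ⟨_, rfl⟩
  have hd1 : ∀ x, d x * d x = 1 := by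
    intro x
    rw [hd]
    rcases x with i | ⟨⟩
    · exact he1 i i.2
    · change -a q0 * -a q0 = 1
      rw [neg_mul_neg, ha1]
  obtain ⟨B, hB⟩ : ∃ B, B = BM (NT s a e q0 T) (fun i : T => a i) (fun i : T => a i) c := ⟨_, rfl⟩
  -- the conjugate of the matrix
  have hBB : BM (Matrix.diagonal (fun i : T => e i) * NT s a e q0 T *
      Matrix.diagonal (fun i : T => e i)) (fun i : T => e i * epH a q0 i)
        (fun i : T => e i * epH a q0 i) c = Matrix.diagonal d * B * Matrix.diagonal d := by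
    ext x y
    rw [Matrix.mul_diagonal, Matrix.diagonal_mul, hd, hB]
    rcases x with x | ⟨⟩ <;> rcases y with y | ⟨⟩
    · simp only [BM, Matrix.fromBlocks_apply₁₁, Sum.elim_inl, Matrix.mul_diagonal,
        Matrix.diagonal_mul]
    · simp only [BM, Matrix.fromBlocks_apply₁₂, Matrix.of_apply, Sum.elim_inl, Sum.elim_inr, epH]
      ring
    · simp only [BM, Matrix.fromBlocks_apply₂₁, Matrix.of_apply, Sum.elim_inl, Sum.elim_inr, epH]
      ring
    · simp only [BM, Matrix.fromBlocks_apply₂₂, Matrix.of_apply, Sum.elim_inr]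
      linear_combination -c * ha1
  -- the entry
  have h1 : CZ (nH s a e q0) (fun i => e i * epH a q0 i) T -
      c * CZ (nH s a e q0) (fun i => e i * s q0 i) T =
      -(∑ j : T, e i0 * B.adjugate (Sum.inl ⟨i0, hi0⟩) (Sum.inl j) * s q0 j +
        e i0 * B.adjugate (Sum.inl ⟨i0, hi0⟩) (Sum.inr ()) * -a q0) := by
    have h2 := adj_rank_one (Matrix.diagonal (fun i : T => e i) * NT s a e q0 T *
      Matrix.diagonal (fun i : T => e i)) (fun i : T => e i * s q0 i)
        (fun i : T => e i * epH a q0 i) (fun i : T => e i * epH a q0 i) c ⟨i0, hi0⟩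
    rw [hBB, ← Theta_NM s hs a e q0 he] at h2
    rw [Theta_CZ _ _ ⟨i0, hi0⟩, Theta_CZ _ _ ⟨i0, hi0⟩, mul_sum, ← sum_sub_distrib]
    refine (sum_congr rfl fun j _ => ?_).trans (h2.trans ?_)
    · ring
    · rw [adj_conj hd1]
      congr 2
      · refine sum_congr rfl fun j _ => ?_
        rw [adj_conj hd1, hd]
        simp only [Sum.elim_inl]
        linear_combination (e i0 * B.adjugate (Sum.inl ⟨i0, hi0⟩) (Sum.inl j) * s q0 j) *
          he1 j j.2
      · rw [hd]
        rfl
  -- the vector `(e, 0)`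
  have hBv : B.mulVec (vH e T) = fun x => e0H a e q0 T * Sum.elim (fun j : T => s q0 j)
      (fun _ => -a q0) x := by
    ext x
    rw [hB]
    rcases x with i | ⟨⟩
    · simp only [Matrix.mulVec, dotProduct, BM, Fintype.sum_sum_type, Matrix.fromBlocks_apply₁₁,
        Matrix.fromBlocks_apply₁₂, vH, Sum.elim_inl, Sum.elim_inr, mul_zero, sum_const_zero,
        add_zero]
      have h3 := congrFun (NE_mulVec_e s e T he1) i
      simp only [Matrix.mulVec, dotProduct, Pi.zero_apply] at h3
      have h4 : ∀ j : T, NT s a e q0 T i j * e j = NE s 0 e T i j * e j +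
          if i = j then e0H a e q0 T * s q0 i else 0 := by
        intro j
        by_cases hij : i = j
        · subst hij
          simp only [NT, NE, if_true, Pi.zero_apply, mul_zero, zero_add]
          linear_combination (e0H a e q0 T * s q0 i) * he1 i i.2
        · simp only [NT, NE, if_neg hij, add_zero]
      rw [sum_congr rfl fun j _ => h4 j, sum_add_distrib, h3, zero_add]
      simp
    · simp only [Matrix.mulVec, dotProduct, BM, Fintype.sum_sum_type, Matrix.fromBlocks_apply₂₁,
        Matrix.fromBlocks_apply₂₂, vH, Sum.elim_inl, Sum.elim_inr, mul_zero, sum_const_zero,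
        add_zero, Matrix.of_apply]
      rw [e0H, sum_mul, ← sum_coe_sort T (fun i => e i * epH a q0 i * -a q0)]
      refine sum_congr rfl fun i _ => ?_
      rw [epH]
      linear_combination -(a i * e i) * ha1
  rw [← hc, h1]
  by_cases hz : e0H a e q0 T = 0
  · -- `e_0 = 0`
    have hU : UH a e q0 T = T := if_pos hz
    have hee : ∀ i ∈ T, eH a e q0 T i = e i := fun i hi =>
      Function.update_of_ne (fun h => h0 (by rw [← h]; exact hi)) _ _
    have hA : ∑ i ∈ T, e i * a i = 0 := by
      have h2 : ∑ i ∈ T, e i * a i = -(a q0 * e0H a e q0 T) := by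
        rw [e0H, mul_sum, ← sum_neg_distrib]
        refine sum_congr rfl fun i _ => ?_
        rw [epH]
        linear_combination -(e i * a i) * ha1
      rw [h2, hz, mul_zero, neg_zero]
    have hcc : c = ∑ q ∈ T, e q * b q := by
      have h2 : c = ∑ q ∈ T, e q * b q + e0H a e q0 T * b q0 := by
        rw [hc, e0H, sum_mul, ← sum_add_distrib]
        refine sum_congr rfl fun i _ => ?_
        rw [bH]
        ring
      rw [h2, hz, zero_mul, add_zero]
    have hBN : B = NH s a b e T := by
      rw [hB, hcc]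
      have h2 : NT s a e q0 T = NE s 0 e T := by
        rw [NT, hz]
        ext i j
        simp [NE]
      rw [h2]
      rfl
    rw [hU, prod_congr rfl hee, kapH_congr s a b hee, g0H, if_pos hz]
    have h2 : ∀ y, B.adjugate (Sum.inl ⟨i0, hi0⟩) y = kapH s a b e T * (e i0 * vH e T y) := by
      intro y
      rw [hBN]
      exact kapH_adj s hs a b e ⟨i0, hi0⟩ he hA _ _
    have h3 : ∑ j : T, e i0 * B.adjugate (Sum.inl ⟨i0, hi0⟩) (Sum.inl j) * s q0 j =
        kapH s a b e T * ∑ j ∈ T, e j * s q0 j := by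
      rw [mul_sum, ← sum_coe_sort T (fun j => kapH s a b e T * (e j * s q0 j))]
      refine sum_congr rfl fun j _ => ?_
      rw [h2]
      change e i0 * (kapH s a b e T * (e i0 * e j)) * s q0 j = _
      linear_combination (kapH s a b e T * e j * s q0 j) * he1 i0 hi0
    have h4 : B.adjugate (Sum.inl ⟨i0, hi0⟩) (Sum.inr ()) = 0 := by
      rw [h2]
      change kapH s a b e T * (e i0 * 0) = 0
      ring
    rw [h3, h4]
    ring
  · -- `e_0 ≠ 0`
    have hz1 := Theta_sq _ hz
    have hU : UH a e q0 T = insert q0 T := if_neg hz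
    have hee : ∀ i ∈ T, eH a e q0 T i = e i := fun i hi =>
      Function.update_of_ne (fun h => h0 (by rw [← h]; exact hi)) _ _
    have he0 : eH a e q0 T q0 = e0H a e q0 T := Function.update_self _ _ _
    have hne : ∀ i ∈ insert q0 T, eH a e q0 T i ≠ 0 := by
      intro i hi
      rcases mem_insert.1 hi with rfl | hi
      · rwa [he0]
      · rw [hee i hi]
        exact he i hi
    have hA : ∑ i ∈ insert q0 T, eH a e q0 T i * a i = 0 := by
      rw [sum_insert h0, he0, sum_congr rfl fun i hi => by rw [hee i hi], e0H, sum_mul,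
        ← sum_add_distrib]
      refine sum_eq_zero fun i _ => ?_
      rw [epH]
      linear_combination -(e i * a i) * ha1
    have hk := kapH_adj s hs a b (eH a e q0 T) ⟨q0, mem_insert_self q0 T⟩ hne hA
      (Sum.inl ⟨q0, mem_insert_self q0 T⟩) (Sum.inl ⟨q0, mem_insert_self q0 T⟩)
    have hv : vH (eH a e q0 T) (insert q0 T) (Sum.inl ⟨q0, mem_insert_self q0 T⟩) =
        e0H a e q0 T := he0
    rw [hv, hz1, mul_one, adj_insert h0] at hk
    have hM : (NH s a b (eH a e q0 T) (insert q0 T)).submatrix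
        (Sum.map (fun i : T => (⟨i, mem_insert_of_mem i.2⟩ : ↥(insert q0 T))) id)
        (Sum.map (fun i : T => (⟨i, mem_insert_of_mem i.2⟩ : ↥(insert q0 T))) id) = B := by
      ext x y
      rw [Matrix.submatrix_apply, hB]
      rcases x with x | ⟨⟩ <;> rcases y with y | ⟨⟩
      · simp only [Sum.map_inl, NH, NB, BM, Matrix.fromBlocks_apply₁₁, NT, NE]
        by_cases hxy : x = y
        · subst hxy
          simp only [if_true, Pi.zero_apply, mul_zero, zero_add]
          have hx : q0 ≠ (x : ι) := fun h => h0 (h ▸ x.2)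
          have h2 : (insert q0 T).erase (x : ι) = insert q0 (T.erase (x : ι)) :=
            erase_insert_of_ne hx
          rw [h2, sum_insert (fun h => h0 (mem_of_mem_erase h)), he0, hee x x.2,
            hs x q0 (Ne.symm hx)]
          have h3 : ∑ p ∈ T.erase (x : ι), s x p * (e x * eH a e q0 T p) =
              ∑ p ∈ T.erase (x : ι), s x p * (e x * e p) :=
            sum_congr rfl fun p hp => by rw [hee p (mem_of_mem_erase hp)]
          rw [h3]
          ring
        · have h2 : ¬ (⟨(x : ι), mem_insert_of_mem x.2⟩ : ↥(insert q0 T)) =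
              ⟨(y : ι), mem_insert_of_mem y.2⟩ := fun h => hxy (Subtype.ext (Subtype.mk.inj h))
          rw [if_neg h2, if_neg hxy]
      · rfl
      · rfl
      · change ∑ q ∈ insert q0 T, eH a e q0 T q * b q = c
        rw [sum_insert h0, he0, sum_congr rfl fun i hi => by rw [hee i hi], hc, e0H, sum_mul,
          ← sum_add_distrib]
        refine sum_congr rfl fun i _ => ?_
        rw [bH]
        ring
    rw [hM] at hk
    -- `adj B (s0, -a0) = e0 det B (e, 0)`
    have h2 := congrArg (fun v => B.adjugate.mulVec v (Sum.inl ⟨i0, hi0⟩)) hBv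
    simp only [Matrix.mulVec_mulVec, Matrix.adjugate_mul, Matrix.smul_mulVec, Matrix.one_mulVec]
      at h2
    have h3 : B.adjugate.mulVec (fun x => e0H a e q0 T * Sum.elim (fun j : T => s q0 j)
        (fun _ => -a q0) x) (Sum.inl ⟨i0, hi0⟩) = e0H a e q0 T *
        (∑ j : T, B.adjugate (Sum.inl ⟨i0, hi0⟩) (Sum.inl j) * s q0 j +
          B.adjugate (Sum.inl ⟨i0, hi0⟩) (Sum.inr ()) * -a q0) := by
      simp only [Matrix.mulVec, dotProduct, Fintype.sum_sum_type, Sum.elim_inl, Sum.elim_inr,
        Finset.univ_unique, sum_singleton]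
      rw [mul_add, mul_sum]
      congr 1
      · exact sum_congr rfl fun j _ => by ring
      · ring
    rw [h3] at h2
    have h4 : (B.det • vH e T) (Sum.inl ⟨i0, hi0⟩) = B.det * e i0 := rfl
    rw [h4] at h2
    have h5 : ∑ j : T, e i0 * B.adjugate (Sum.inl ⟨i0, hi0⟩) (Sum.inl j) * s q0 j +
        e i0 * B.adjugate (Sum.inl ⟨i0, hi0⟩) (Sum.inr ()) * -a q0 =
        e i0 * (∑ j : T, B.adjugate (Sum.inl ⟨i0, hi0⟩) (Sum.inl j) * s q0 j +
          B.adjugate (Sum.inl ⟨i0, hi0⟩) (Sum.inr ()) * -a q0) := by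
      rw [mul_add, mul_sum]
      congr 1
      · exact sum_congr rfl fun j _ => by ring
      · ring
    rw [hU, prod_insert h0, he0, prod_congr rfl hee, ← hk, g0H, if_neg hz, h5]
    have he00 := he1 i0 hi0
    linear_combination ((∏ i ∈ T, e i) * e i0 * (e0H a e q0 T)) * h2 +
      ((∏ i ∈ T, e i) * e i0 * (∑ j : T, B.adjugate (Sum.inl ⟨i0, hi0⟩) (Sum.inl j) * s q0 j +
          B.adjugate (Sum.inl ⟨i0, hi0⟩) (Sum.inr ()) * -a q0)) * hz1 -
      ((∏ i ∈ T, e i) * (e0H a e q0 T) * B.det) * he00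

end Pool.Agent.Lib.MP_1a91b9_ntK
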