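import Pool.Agent.Lib.MP_1a91b9_ntK.A.Ind0
import Pool.Agent.Lib.MP_1a91b9_ntK.A.Ker0
import Pool.Agent.Lib.MP_1a91b9_ntK.A.Top3

/-!
# Cubic twists, part A, file Top0: the L-value of `y² + D y = x³`, `k = 0`
-/

set_option autoImplicit false

namespace Pool.Agent.Lib.MP_1a91b9_ntK

open NumberField IsDedekindDomain Pool.Agent.Lib.MP_1a91b9_ntT Pool.Agent.Lib.MP_1a91b9_ntG
  Pool.Agent.Lib.MP_1a91b9_nt
open Pool.Agent.Lib.MP_1a91b9_ntH (wO s3 cp Nz)

noncomputable section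

theorem NK_zero (e : P3 → ZMod 3) (S : Finset P3) : NK 0 e S = NE d3.s 0 e S := by
  have h : kapK 0 = 0 := funext kapK_zero
  rw [NK, h]

/-- **Q1**, `k = 0`: the L-value of `y² + D y = x³` is not zero if `D` is not `± 1` modulo `3 √-3`
and the kernel of the matrix is as small as possible. -/
theorem lvalue0 {e : P3 → ZMod 3} {S : Finset P3} (he : ∀ q ∈ S, e q ≠ 0)
    (hA : ∑ q ∈ S, e q * abar q.1 ≠ 0)
    (hker : ∀ v : S → ZMod 3, (NK 0 e S).mulVec v = 0 → ∃ c : ZMod 3, ∀ i, v i = c * e i) :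
    ∃ g : ℂ → ℂ, Differentiable ℂ g ∧
      (∀ s : ℂ, 3 / 2 < s.re → g s = (WD (Dk 0 e S)).LSeries s) ∧ g 1 ≠ 0 := by
  have hS : S.Nonempty := by
    rw [Finset.nonempty_iff_ne_empty]
    rintro rfl
    exact hA Finset.sum_empty
  obtain ⟨g, h1, h2, h3⟩ := ser3 0 e S he
  refine ⟨g, h1, h2, fun h0 => ?_⟩
  rw [h0] at h3
  have h5 : CZ (fun i p => d3.s i p * e p) (fun q : P3 => abar q.1) S ≠ 0 := by
    refine CZ_ne_of_ker d3.s d3_sym (fun q : P3 => abar q.1) e he hA ?_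
    rw [← NK_zero]
    exact hker
  have h4 := L0_ne hS he h5
  exact mul_ne_zero h4 ((_root_.map_ne_zero _).2 h4) h3.symm

end

end Pool.Agent.Lib.MP_1a91b9_ntK
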