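import Pool.Agent.Lib.MP_1a91b9_ntK.A.Ind1
import Pool.Agent.Lib.MP_1a91b9_ntK.A.Ser2

/-!
# Cubic twists, part A, file Top1: the L-value of `y² + D y = x³`, `D = √-3 * w ^ k * ∏ q ^ (e q)`
-/

set_option autoImplicit false

namespace Pool.Agent.Lib.MP_1a91b9_ntK

open NumberField IsDedekindDomain Pool.Agent.Lib.MP_1a91b9_ntT Pool.Agent.Lib.MP_1a91b9_ntG
  Pool.Agent.Lib.MP_1a91b9_nt
open Pool.Agent.Lib.MP_1a91b9_ntH (wO s3 cp Nz)

noncomputable section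

/-- **Q1**, `√-3 ∥ D`: the L-value of `y² + D y = x³` is not zero if the determinant of the bordered
matrix is not zero. -/
theorem lvalue1 {k : ZMod 3} {e : P3 → ZMod 3} {S : Finset P3}
    (he : ∀ q ∈ S, e q ≠ 0) (h : (NJ1 k e S).det ≠ 0) :
    ∃ g : ℂ → ℂ, Differentiable ℂ g ∧
      (∀ s : ℂ, 3 / 2 < s.re → g s = (WD (Dj k 1 e S)).LSeries s) ∧ g 1 ≠ 0 := by
  obtain ⟨g, h1, h2, h3⟩ := serj k 1 e S he
  refine ⟨g, h1, h2, fun h0 => ?_⟩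
  rw [h0] at h3
  have h4 := L1_ne he h
  exact mul_ne_zero h4 ((_root_.map_ne_zero _).2 h4) h3.symm

end

end Pool.Agent.Lib.MP_1a91b9_ntK
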