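import Pool.Agent.Lib.MP_1a91b9_ntK.A.IndH
import Pool.Agent.Lib.MP_1a91b9_ntK.A.Top3

/-!
# Cubic twists, part A, file TopH: the L-value of `y² + D y = x³` in the hard class,
`D = ± 1` modulo `3 √-3`
-/

set_option autoImplicit false

namespace Pool.Agent.Lib.MP_1a91b9_ntK

open NumberField IsDedekindDomain Pool.Agent.Lib.MP_1a91b9_ntT Pool.Agent.Lib.MP_1a91b9_ntG
  Pool.Agent.Lib.MP_1a91b9_nt
open Pool.Agent.Lib.MP_1a91b9_ntH (wO s3 cp Nz)

noncomputable section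

/-- **Q1**, the hard class: the L-value of `y² + D y = x³` is not zero if the kernel of the bordered
matrix is as small as possible. -/
theorem lvalueH {e : P3 → ZMod 3} {S : Finset P3} (hS : S.Nonempty) (he : ∀ q ∈ S, e q ≠ 0)
    (hA : ∑ q ∈ S, e q * aP q = 0)
    (hker : ∀ v : S ⊕ Unit → ZMod 3, (NH d3.s aP bP e S).mulVec v = 0 →
      ∃ c : ZMod 3, (∀ i : S, v (Sum.inl i) = c * e i) ∧ v (Sum.inr ()) = 0) :
    ∃ g : ℂ → ℂ, Differentiable ℂ g ∧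
      (∀ s : ℂ, 3 / 2 < s.re → g s = (WD (Dk 0 e S)).LSeries s) ∧ g 1 ≠ 0 := by
  obtain ⟨g, h1, h2, h3⟩ := ser3 0 e S he
  refine ⟨g, h1, h2, fun h0 => ?_⟩
  rw [h0] at h3
  have h5 : kapH d3.s aP bP e S ≠ 0 := kapH_ne_of_ker d3.s d3_sym aP bP e hS he hA hker
  have h4 := LH_ne hS he hA h5
  exact mul_ne_zero h4 ((_root_.map_ne_zero _).2 h4) h3.symm

end

end Pool.Agent.Lib.MP_1a91b9_ntK
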