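import Pool.Agent.Lib.MP_1a91b9_ntK.A.Top0

/-!
# Cubic twists, part A, file Val3: the valuations of the L-value above `3`
-/

set_option autoImplicit false

namespace Pool.Agent.Lib.MP_1a91b9_ntK

open NumberField IsDedekindDomain Pool.Agent.Lib.MP_1a91b9_ntT Pool.Agent.Lib.MP_1a91b9_ntG
open Pool.Agent.Lib.MP_1a91b9_ntH (wO s3 cp s3_ne)

noncomputable section

variable {A : ValuationSubring ℂ}

theorem v_DD3 (hA : Three A) (S : Finset P3) : A.valuation (em (DD3 S)) = 1 :=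
  rt_em_unit hA (DD3_s3 S)

theorem v_zt_div : A.valuation ((1 - zt) / sq3) = 1 := by
  rw [map_div₀, v_zt_eq, div_self (v_sq3_pos).ne']

/-- the valuation for `k ≠ 0` -/
theorem val3 (hA : Three A) {k : ZMod 3} (hk : k ≠ 0) {e : P3 → ZMod 3} {S : Finset P3}
    (he : ∀ q ∈ S, e q ≠ 0) (h : (NK k e S).det ≠ 0) :
    A.valuation (Lk k e S 1 * 3 / (Om * sq3 ^ S.card)) = 1 := by
  have h0 : k * ((∏ q ∈ S, e q) * (NK k e S).det) ≠ 0 :=
    mul_ne_zero hk (mul_ne_zero (Finset.prod_ne_zero_iff.2 he) h)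
  have h1 := (nuK_res hA hk S he).unit hA h0
  have a1 := Om_ne_zero
  have a2 := y0_ne
  have a3 := sq3_ne
  have a4 := one_sub_zt_ne
  have a5 : em s3 ≠ 0 := rt_em_ne s3_ne
  have a6 : em (DD3 S) ≠ 0 := rt_em_ne (DD3_ne S)
  have a7 : (1 - zt) ^ S.card ≠ 0 := pow_ne_zero _ a4
  have a8 : sq3 ^ S.card ≠ 0 := pow_ne_zero _ a3
  have e1 : Lk k e S 1 * 3 / (Om * sq3 ^ S.card) =
      nuK k e S * (y0 * ((1 - zt) / sq3) ^ S.card / em (DD3 S)) := by
    rw [nuK, NN, rt_em_mul, rt_em_mul, rt_em_three, div_pow]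
    field_simp
  rw [e1, map_mul, h1, one_mul, map_div₀, map_mul, map_pow, v_zt_div, v_y0, v_DD3 hA, one_pow,
    one_mul, div_one]

theorem v_E13 : A.valuation (E1 (1 / 3) * sq3 / Om) = 1 := by
  have h1 := S3.E1_third_mul_Y
  have e0 : S3.X (1 / 3) = X0 := rfl
  rw [e0] at h1
  have h2 := congrArg A.valuation h1
  rw [map_mul, Valuation.map_neg, map_pow, v_X0, one_pow] at h2
  have h3 : A.valuation (S3.Y (1 / 3)) = A.valuation sq3 := by
    have h4 : A.valuation (S3.Y (1 / 3)) ^ 2 = A.valuation sq3 ^ 2 := by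
      rw [← map_pow, ← map_pow, Y0_sq, sq3_sq]
    exact (pow_left_inj₀ zero_le zero_le (by norm_num)).1 h4
  rw [h3, ← map_mul] at h2
  rw [← h2]
  congr 1
  ring

/-- the valuation for `k = 0` -/
theorem val0 (hA : Three A) {e : P3 → ZMod 3} {S : Finset P3} (he : ∀ q ∈ S, e q ≠ 0)
    (hB : ∑ q ∈ S, e q * abar q.1 ≠ 0)
    (hker : ∀ v : S → ZMod 3, (NK 0 e S).mulVec v = 0 → ∃ c : ZMod 3, ∀ i, v i = c * e i) :
    A.valuation (Lk 0 e S 1 * 3 / (Om * sq3 ^ S.card)) = 1 := by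
  have hS : S.Nonempty := by
    rw [Finset.nonempty_iff_ne_empty]
    rintro rfl
    exact hB Finset.sum_empty
  have h5 : CZ (fun i p => d3.s i p * e p) (fun q : P3 => abar q.1) S ≠ 0 := by
    refine CZ_ne_of_ker d3.s d3_sym (fun q : P3 => abar q.1) e he hB ?_
    rw [← NK_zero]
    exact hker
  have h1 := (nu0_res hA hS he).unit hA h5
  have a1 := Om_ne_zero
  have a2 := E13_ne
  have a3 := sq3_ne
  have a4 := one_sub_zt_ne
  have a5 : em s3 ≠ 0 := rt_em_ne s3_ne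
  have a6 : em (DD3 S) ≠ 0 := rt_em_ne (DD3_ne S)
  have a7 : (1 - zt) ^ S.card ≠ 0 := pow_ne_zero _ a4
  have a8 : sq3 ^ S.card ≠ 0 := pow_ne_zero _ a3
  have e1 : Lk 0 e S 1 * 3 / (Om * sq3 ^ S.card) =
      nu0 e S * (E1 (1 / 3) * sq3 / Om * ((1 - zt) / sq3) ^ (S.card + 1) / em (DD3 S)) := by
    rw [nu0, N0, rt_em_mul, rt_em_mul, rt_em_three, div_pow, pow_succ, pow_succ]
    field_simp
  rw [e1, map_mul, h1, one_mul, map_div₀, map_mul, map_pow, v_zt_div, v_E13, v_DD3 hA, one_pow,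
    one_mul, div_one]

end

end Pool.Agent.Lib.MP_1a91b9_ntK
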